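import Pool.Agent.FHD.Loc

/-!
# FHD.Exit: leaving, and newly missing tuples, along a chain of partitions

`C` a finite set, `F 0, ..., F κ` labels (each determines the one before on `C`, `F 0` is constant on `C`), `Y i` functions.
See `FHD.Bad`, `FHD.Ex`, `FHD.Miss` in Defs.
PROOF.
`ex_mono`: clear from the definition.  `ex_congr`: if `F τ x = F τ x'` then `cls C (F τ') x = cls C (F τ') x'` for `τ' ≤ τ`
(and for the time `κ` class of `w` nothing changes: `Bad C (F κ) Y w a` depends on `w` only).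
`ex_le`: let `E` be the set of the `x ∈ C` with `Ex .. κ x a` and `B0` the set of the `w ∈ C` with `Bad C (F κ) Y w a`.  Claim, by
induction on `κ - τ`: for every class `K = cls C (F τ) x` the number of the `w ∈ K` for which some time `τ' ∈ [τ, κ]` satisfies
`#(cls C (F τ') w) ≤ g #(B0 ∩ cls C (F τ') w)` is at most `g #(B0 ∩ K)`: if `#K ≤ g #(B0 ∩ K)` clear; otherwise the time `τ` does not
count and `K` is the disjoint union of classes of `F (τ+1)` (for `τ = κ` the number is `0`).  For `τ = 0` this is the claim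
because `C` is one class (or empty).
`ex_pairs`: for fixed `x` the times `τ` with `¬ Ex τ x a`, `Ex (τ+1) x a` are unique by `ex_mono`, and then `Ex κ x a`.
`newmiss`: fix `y`.  Let `x` be counted at time `τ` and `K = cls C (F (τ+1)) x`.  By `¬ Ex (τ+1)` (with `τ' = τ+1`, `B` = all bad points of `K`)
for each `i` fewer than `#K / g` points of `K` are bad for `(Y i, y i)`, so at least `#K (1 - card ι / g) ≥ #K / 2` points `w` of `K` are
not bad for any `i`; every such `w` has `cls C (F κ) w ⊆ K`, so `y` is missing in it.  Being counted at time `τ` is a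
property of the class `K` (`ex_congr`), so the number of the `x` counted at time `τ` is at most `2` times the number of the
`w` which are counted at time `τ`, are not bad and for which `y` is missing at time `κ`; and every `w` is counted for at
most one `τ` (`y` is missing in `cls C (F (τ+1)) w` but not in `cls C (F τ) w`, missing is monotone).
`newmiss_sum`: multiply by `∏_i #(fib C (Y i) (y i)) / #C`, sum over `y`; for a `w` which is not bad, with `K = cls C (F κ) w`,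
`#(fib C (Y i) (y i)) / #C ≤ 2 #(fib K (Y i) (y i)) / #K`; then `loc_tc` for `K`; the sum over `w ∈ C` of
`(1/#K) ∑_{x ∈ K} ...` is the sum over `x ∈ C` (classes of `F κ`).
-/

set_option autoImplicit false

namespace FHD

open Finset

variable {α : Type*} [DecidableEq α]

private theorem Exit_mem {C : Finset α} {f : α → ℕ} {x w : α} : w ∈ cls C f x ↔ w ∈ C ∧ f w = f x := by
  unfold cls
  rw [mem_filter]

private theorem Exit_self {C : Finset α} {f : α → ℕ} {x : α} (hx : x ∈ C) : x ∈ cls C f x :=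
  Exit_mem.2 ⟨hx, rfl⟩

private theorem Exit_cls_congr {C : Finset α} {f : α → ℕ} {x y : α} (h : f x = f y) :
    cls C f x = cls C f y := by
  unfold cls
  rw [h]

private theorem Exit_det {C : Finset α} {F : ℕ → α → ℕ}
    (hF : ∀ τ, ∀ x ∈ C, ∀ y ∈ C, F (τ + 1) x = F (τ + 1) y → F τ x = F τ y) {τ τ' : ℕ} (h : τ ≤ τ')
    {x y : α} (hx : x ∈ C) (hy : y ∈ C) (hxy : F τ' x = F τ' y) : F τ x = F τ y := by
  induction τ', h using Nat.le_induction with
  | base => exact hxy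
  | succ t _ ih => exact ih (hF t x hx y hy hxy)

/-- counting class by class -/
private theorem Exit_count {C C1 : Finset α} {f : α → ℕ} (hC1 : C1 ⊆ C)
    (hcl : ∀ x ∈ C1, ∀ w ∈ C, f w = f x → w ∈ C1) (g : ℕ) (Q : α → Prop) [DecidablePred Q]
    (h : ∀ x ∈ C1, #(cls C f x) ≤ g * #((cls C f x).filter Q)) : #C1 ≤ g * #(C1.filter Q) := by
  have e1 : #C1 = ∑ v ∈ C1.image f, #(C1.filter fun w => f w = v) :=
    card_eq_sum_card_image f C1
  have e2 : #(C1.filter Q) = ∑ v ∈ C1.image f, #((C1.filter fun w => f w = v).filter Q) := by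
    rw [card_eq_sum_card_fiberwise (f := f) (t := C1.image f)]
    · refine sum_congr rfl fun v _ => ?_
      rw [filter_comm]
    · intro w hw
      rw [mem_coe, mem_filter] at hw
      exact mem_image_of_mem f hw.1
  rw [e1, e2, mul_sum]
  refine sum_le_sum fun v hv => ?_
  rw [mem_image] at hv
  obtain ⟨x, hx, rfl⟩ := hv
  have e3 : C1.filter (fun w => f w = f x) = cls C f x := by
    ext w
    rw [mem_filter, Exit_mem]
    constructor
    · rintro ⟨h1, h2⟩
      exact ⟨hC1 h1, h2⟩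
    · rintro ⟨h1, h2⟩
      exact ⟨hcl x hx w h1 h2, h2⟩
  rw [e3]
  exact h x hx

theorem ex_mono {C : Finset α} {F : ℕ → α → ℕ} {κ g : ℕ} {Y : α → ℕ} {τ τ' : ℕ} (h : τ ≤ τ') {x : α} {a : ℕ}
    (hx : Ex C F κ g Y τ x a) : Ex C F κ g Y τ' x a := by
  obtain ⟨t, ht, B, hB⟩ := hx
  exact ⟨t, ht.trans h, B, hB⟩

theorem ex_congr {C : Finset α} {F : ℕ → α → ℕ} {κ g : ℕ} {Y : α → ℕ} {τ : ℕ}
    (hF : ∀ τ, ∀ x ∈ C, ∀ y ∈ C, F (τ + 1) x = F (τ + 1) y → F τ x = F τ y) {x x' : α} (hx : x ∈ C)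
    (hx' : x' ∈ C) (h : F τ x = F τ x') {a : ℕ} (hE : Ex C F κ g Y τ x a) : Ex C F κ g Y τ x' a := by
  obtain ⟨t, ht, B, hB1, hB2, hB3⟩ := hE
  have e : cls C (F t) x = cls C (F t) x' := Exit_cls_congr (Exit_det hF ht hx hx' h)
  refine ⟨t, ht, B, ?_, hB2, ?_⟩
  · rw [← e]; exact hB1
  · rw [← e]; exact hB3

open Classical in
private theorem Exit_ind {C : Finset α} {F : ℕ → α → ℕ} {κ g : ℕ} (Y : α → ℕ)
    (hF : ∀ τ, ∀ x ∈ C, ∀ y ∈ C, F (τ + 1) x = F (τ + 1) y → F τ x = F τ y) (a : ℕ) (τ : ℕ) :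
    #(C.filter fun x => Ex C F κ g Y τ x a) ≤
      g * #((C.filter fun x => Ex C F κ g Y τ x a).filter fun x => Bad C (F κ) Y x a) := by
  have hcnt : ∀ t : ℕ, ∀ x ∈ C, (∃ B ⊆ cls C (F t) x, (∀ w ∈ B, Bad C (F κ) Y w a) ∧
      #(cls C (F t) x) ≤ g * #B) →
      #(cls C (F t) x) ≤ g * #((cls C (F t) x).filter fun x => Bad C (F κ) Y x a) := by
    rintro t x _ ⟨B, hB1, hB2, hB3⟩
    refine hB3.trans (Nat.mul_le_mul_left g (card_le_card fun w hw => ?_))
    rw [mem_filter]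
    exact ⟨hB1 hw, hB2 w hw⟩
  induction τ with
  | zero =>
    refine Exit_count (f := F 0) (filter_subset _ _) ?_ g _ ?_
    · intro x hx w hw hwx
      rw [mem_filter] at hx ⊢
      exact ⟨hw, ex_congr hF hx.1 hw hwx.symm hx.2⟩
    · intro x hx
      rw [mem_filter] at hx
      obtain ⟨h1, t, ht, h2⟩ := hx
      rw [Nat.le_zero.1 ht] at h2
      exact hcnt 0 x h1 h2
  | succ τ ih =>
    obtain ⟨V, hV⟩ : ∃ V : Finset α, V = C.filter fun x =>
      ¬ Ex C F κ g Y τ x a ∧ Ex C F κ g Y (τ + 1) x a := ⟨_, rfl⟩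
    have h1 : #V ≤ g * #(V.filter fun x => Bad C (F κ) Y x a) := by
      rw [hV]
      refine Exit_count (f := F (τ + 1)) (filter_subset _ _) ?_ g _ ?_
      · intro x hx w hw hwx
        rw [mem_filter] at hx ⊢
        refine ⟨hw, fun h3 => hx.2.1 ?_, ex_congr hF hx.1 hw hwx.symm hx.2.2⟩
        exact ex_congr hF hw hx.1 (hF τ w hw x hx.1 hwx) h3
      · intro x hx
        rw [mem_filter] at hx
        obtain ⟨h1, h2, t, ht, h3⟩ := hx
        rcases Nat.lt_or_ge t (τ + 1) with h4 | h4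
        · exact absurd ⟨t, Nat.lt_succ_iff.1 h4, h3⟩ h2
        · rw [le_antisymm ht h4] at h3
          exact hcnt (τ + 1) x h1 h3
    have e1 : (C.filter fun x => Ex C F κ g Y (τ + 1) x a) =
        (C.filter fun x => Ex C F κ g Y τ x a) ∪ V := by
      rw [hV]
      ext x
      simp only [mem_filter, mem_union]
      constructor
      · rintro ⟨h2, h3⟩
        by_cases h : Ex C F κ g Y τ x a
        · exact Or.inl ⟨h2, h⟩
        · exact Or.inr ⟨h2, h, h3⟩
      · rintro (⟨h2, h3⟩ | ⟨h2, _, h3⟩)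
        · exact ⟨h2, ex_mono (Nat.le_succ τ) h3⟩
        · exact ⟨h2, h3⟩
    have hd : Disjoint (C.filter fun x => Ex C F κ g Y τ x a) V := by
      rw [hV, disjoint_left]
      intro x hx hx'
      rw [mem_filter] at hx hx'
      exact hx'.2.1 hx.2
    rw [e1, filter_union, card_union_of_disjoint hd,
      card_union_of_disjoint (disjoint_filter_filter hd), mul_add]
    exact add_le_add ih h1

open Classical in
theorem ex_le {C : Finset α} {F : ℕ → α → ℕ} {κ g : ℕ} (Y : α → ℕ)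
    (hF : ∀ τ, ∀ x ∈ C, ∀ y ∈ C, F (τ + 1) x = F (τ + 1) y → F τ x = F τ y)
    (h0 : ∀ x ∈ C, ∀ y ∈ C, F 0 x = F 0 y) (a : ℕ) :
    (C.filter fun x => Ex C F κ g Y κ x a).card ≤ g * (C.filter fun x => Bad C (F κ) Y x a).card := by
  refine (Exit_ind Y hF a κ).trans (Nat.mul_le_mul_left g (card_le_card fun x hx => ?_))
  rw [mem_filter, mem_filter] at hx
  rw [mem_filter]
  exact ⟨hx.1.1, hx.2⟩

open Classical in
theorem ex_pairs {C : Finset α} {F : ℕ → α → ℕ} {κ g : ℕ} (Y : α → ℕ) (a : ℕ) :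
    ∑ τ ∈ range κ, (C.filter fun x => ¬ Ex C F κ g Y τ x a ∧ Ex C F κ g Y (τ + 1) x a).card ≤
      (C.filter fun x => Ex C F κ g Y κ x a).card := by
  rw [← card_biUnion]
  · refine card_le_card fun x hx => ?_
    simp only [mem_biUnion, mem_filter, mem_range] at hx ⊢
    obtain ⟨t, ht, h1, _, h3⟩ := hx
    exact ⟨h1, ex_mono (Nat.succ_le_of_lt ht) h3⟩
  · intro t _ t' _ hne
    rw [Function.onFun, disjoint_left]
    intro x hx hx'
    simp only [mem_filter] at hx hx'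
    rcases lt_or_gt_of_ne hne with h | h
    · exact hx'.2.1 (ex_mono (Nat.succ_le_of_lt h) hx.2.2)
    · exact hx.2.1 (ex_mono (Nat.succ_le_of_lt h) hx'.2.2)

open Classical in
/-- total mass of the values which have left at the end of the run -/
theorem ex_sum {C : Finset α} {F : ℕ → α → ℕ} {κ g D : ℕ} (Y : α → ℕ) (hY : ∀ w ∈ C, Y w < D)
    (hF : ∀ τ, ∀ x ∈ C, ∀ y ∈ C, F (τ + 1) x = F (τ + 1) y → F τ x = F τ y)
    (h0 : ∀ x ∈ C, ∀ y ∈ C, F 0 x = F 0 y) :
    ∑ x ∈ C, ∑ a ∈ range D, (if Ex C F κ g Y κ x a then (#(fib C Y a) : ℝ) / #C else 0) ≤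
      7 * g * ∑ x ∈ C, Real.log ((#C : ℝ) * #(cls (cls C (F κ) x) Y x) / (#(cls C (F κ) x) * #(cls C Y x))) := by
  rcases C.eq_empty_or_nonempty with rfl | hne
  · simp
  have hc : (0 : ℝ) < #C := by exact_mod_cast hne.card_pos
  have hl := loc_bad C (F κ) Y hY
  have h1 : ∑ x ∈ C, ∑ a ∈ range D, (if Ex C F κ g Y κ x a then (#(fib C Y a) : ℝ) / #C else 0) =
      ∑ a ∈ range D, (#(fib C Y a) : ℝ) / #C * #(C.filter fun x => Ex C F κ g Y κ x a) := by
    rw [sum_comm]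
    refine sum_congr rfl fun a _ => ?_
    rw [← sum_filter, sum_const, nsmul_eq_mul, mul_comm]
  have h2 : ∑ x ∈ C, ∑ a ∈ range D, (if Bad C (F κ) Y x a then (#(fib C Y a) : ℝ) else 0) =
      ∑ a ∈ range D, (#(fib C Y a) : ℝ) * #(C.filter fun x => Bad C (F κ) Y x a) := by
    rw [sum_comm]
    refine sum_congr rfl fun a _ => ?_
    rw [← sum_filter, sum_const, nsmul_eq_mul, mul_comm]
  have h3 : ∀ a ∈ range D, (#(fib C Y a) : ℝ) / #C * #(C.filter fun x => Ex C F κ g Y κ x a) ≤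
      g / #C * ((#(fib C Y a) : ℝ) * #(C.filter fun x => Bad C (F κ) Y x a)) := by
    intro a _
    have h4 : (#(C.filter fun x => Ex C F κ g Y κ x a) : ℝ) ≤
        g * #(C.filter fun x => Bad C (F κ) Y x a) := by
      exact_mod_cast ex_le Y hF h0 a
    calc (#(fib C Y a) : ℝ) / #C * #(C.filter fun x => Ex C F κ g Y κ x a) ≤
        (#(fib C Y a) : ℝ) / #C * (g * #(C.filter fun x => Bad C (F κ) Y x a)) :=
          mul_le_mul_of_nonneg_left h4 (by positivity)
      _ = _ := by ring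
  rw [h1]
  refine (sum_le_sum h3).trans ?_
  rw [← mul_sum, ← h2]
  refine (mul_le_mul_of_nonneg_left hl (by positivity)).trans (le_of_eq ?_)
  field_simp

private theorem Exit_miss_mono {ι : Type*} {C : Finset α} {F : ℕ → α → ℕ} {Y : ι → α → ℕ}
    (hF : ∀ τ, ∀ x ∈ C, ∀ y ∈ C, F (τ + 1) x = F (τ + 1) y → F τ x = F τ y) {y : ι → ℕ} {τ τ' : ℕ}
    (h : τ ≤ τ') {x : α} (hx : x ∈ C) (hm : Miss (cls C (F τ) x) Y y) :
    Miss (cls C (F τ') x) Y y := by
  intro w hw
  rw [Exit_mem] at hw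
  exact hm w (Exit_mem.2 ⟨hw.1, Exit_det hF h hw.1 hx hw.2⟩)

open Classical in
theorem newmiss {ι : Type*} [Fintype ι] {C : Finset α} {F : ℕ → α → ℕ} {κ g : ℕ} (Y : ι → α → ℕ)
    (hg : 2 * Fintype.card ι ≤ g)
    (hF : ∀ τ, ∀ x ∈ C, ∀ y ∈ C, F (τ + 1) x = F (τ + 1) y → F τ x = F τ y) (y : ι → ℕ) :
    ∑ τ ∈ range κ, (C.filter fun x => Miss (cls C (F (τ + 1)) x) Y y ∧ ¬ Miss (cls C (F τ) x) Y y ∧
        ∀ i, ¬ Ex C F κ g (Y i) (τ + 1) x (y i)).card ≤
      2 * (C.filter fun x => Miss (cls C (F κ) x) Y y ∧ ∀ i, ¬ Bad C (F κ) (Y i) x (y i)).card := by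
  obtain ⟨V, hV⟩ : ∃ V : ℕ → Finset α, V = fun τ => C.filter fun x =>
      Miss (cls C (F (τ + 1)) x) Y y ∧ ¬ Miss (cls C (F τ) x) Y y ∧
        ∀ i, ¬ Ex C F κ g (Y i) (τ + 1) x (y i) := ⟨_, rfl⟩
  have hVm : ∀ τ x, x ∈ V τ ↔ x ∈ C ∧ Miss (cls C (F (τ + 1)) x) Y y ∧ ¬ Miss (cls C (F τ) x) Y y ∧
        ∀ i, ¬ Ex C F κ g (Y i) (τ + 1) x (y i) := by
    intro τ x
    rw [hV]
    exact mem_filter
  have h1 : ∀ τ, #(V τ) ≤ 2 * #((V τ).filter fun x => ∀ i, ¬ Bad C (F κ) (Y i) x (y i)) := by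
    intro τ
    refine Exit_count (C := C) (f := F (τ + 1)) (fun x hx => ((hVm τ x).1 hx).1) ?_ 2 _ ?_
    · intro x hx w hw hwx
      rw [hVm] at hx ⊢
      obtain ⟨hxC, h2, h3, h4⟩ := hx
      refine ⟨hw, ?_, ?_, fun i h5 => h4 i (ex_congr hF hw hxC hwx h5)⟩
      · rw [Exit_cls_congr hwx]; exact h2
      · rw [Exit_cls_congr (hF τ w hw x hxC hwx)]; exact h3
    · intro x hx
      rw [hVm] at hx
      obtain ⟨hxC, _, _, h4⟩ := hx
      obtain ⟨K, hK⟩ : ∃ K, K = cls C (F (τ + 1)) x := ⟨_, rfl⟩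
      rw [← hK]
      have h5 : ∀ i, g * #(K.filter fun w => Bad C (F κ) (Y i) w (y i)) < #K := by
        intro i
        by_contra hcon
        push Not at hcon
        refine h4 i ⟨τ + 1, le_rfl, K.filter fun w => Bad C (F κ) (Y i) w (y i), ?_, ?_, ?_⟩
        · rw [← hK]; exact filter_subset _ _
        · intro w hw
          exact (mem_filter.1 hw).2
        · rw [← hK]; exact hcon
      have h6 : #(K.filter fun w => ∃ i, Bad C (F κ) (Y i) w (y i)) ≤
          ∑ i, #(K.filter fun w => Bad C (F κ) (Y i) w (y i)) := by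
        refine (card_le_card fun w hw => ?_).trans card_biUnion_le
        rw [mem_filter] at hw
        obtain ⟨hwK, i, hi⟩ := hw
        exact mem_biUnion.2 ⟨i, mem_univ i, mem_filter.2 ⟨hwK, hi⟩⟩
      have h7 : g * #(K.filter fun w => ∃ i, Bad C (F κ) (Y i) w (y i)) ≤ Fintype.card ι * #K := by
        calc g * #(K.filter fun w => ∃ i, Bad C (F κ) (Y i) w (y i)) ≤
            g * ∑ i, #(K.filter fun w => Bad C (F κ) (Y i) w (y i)) := Nat.mul_le_mul_left g h6
          _ = ∑ i, g * #(K.filter fun w => Bad C (F κ) (Y i) w (y i)) := mul_sum _ _ _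
          _ ≤ ∑ _i : ι, #K := sum_le_sum fun i _ => (h5 i).le
          _ = Fintype.card ι * #K := by rw [sum_const, card_univ, smul_eq_mul]
      have h8 : #(K.filter fun w => ∃ i, Bad C (F κ) (Y i) w (y i)) +
          #(K.filter fun w => ∀ i, ¬ Bad C (F κ) (Y i) w (y i)) = #K := by
        have e : (K.filter fun w => ∀ i, ¬ Bad C (F κ) (Y i) w (y i)) =
            K.filter fun w => ¬ ∃ i, Bad C (F κ) (Y i) w (y i) := by
          refine filter_congr fun w _ => ?_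
          rw [not_exists]
        rw [e]
        exact card_filter_add_card_filter_not _
      rcases Nat.eq_zero_or_pos (Fintype.card ι) with h9 | h9
      · have : IsEmpty ι := Fintype.card_eq_zero_iff.1 h9
        have h10 : #(K.filter fun w => ∃ i, Bad C (F κ) (Y i) w (y i)) = 0 := by
          rw [card_eq_zero, filter_eq_empty_iff]
          rintro w _ ⟨i, _⟩
          exact this.elim i
        omega
      · have h10 : 2 * #(K.filter fun w => ∃ i, Bad C (F κ) (Y i) w (y i)) ≤ #K := by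
          have h11 : Fintype.card ι * (2 * #(K.filter fun w => ∃ i, Bad C (F κ) (Y i) w (y i))) ≤
              Fintype.card ι * #K := by
            calc Fintype.card ι * (2 * #(K.filter fun w => ∃ i, Bad C (F κ) (Y i) w (y i))) =
                (2 * Fintype.card ι) * #(K.filter fun w => ∃ i, Bad C (F κ) (Y i) w (y i)) := by ring
              _ ≤ g * #(K.filter fun w => ∃ i, Bad C (F κ) (Y i) w (y i)) :=
                Nat.mul_le_mul_right _ hg
              _ ≤ _ := h7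
          exact Nat.le_of_mul_le_mul_left h11 h9
        omega
  have h2 : ∑ τ ∈ range κ, #((V τ).filter fun x => ∀ i, ¬ Bad C (F κ) (Y i) x (y i)) ≤
      (C.filter fun x => Miss (cls C (F κ) x) Y y ∧ ∀ i, ¬ Bad C (F κ) (Y i) x (y i)).card := by
    rw [← card_biUnion]
    · refine card_le_card fun x hx => ?_
      simp only [mem_biUnion, mem_filter, mem_range] at hx ⊢
      obtain ⟨t, ht, h1, h3⟩ := hx
      rw [hVm] at h1
      exact ⟨h1.1, Exit_miss_mono hF (Nat.succ_le_of_lt ht) h1.1 h1.2.1, h3⟩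
    · intro t _ t' _ hne
      rw [Function.onFun, disjoint_left]
      intro x hx hx'
      simp only [mem_filter] at hx hx'
      rw [hVm] at hx hx'
      rcases lt_or_gt_of_ne hne with h | h
      · exact hx'.1.2.2.1 (Exit_miss_mono hF (Nat.succ_le_of_lt h) hx.1.1 hx.1.2.1)
      · exact hx.1.2.2.1 (Exit_miss_mono hF (Nat.succ_le_of_lt h) hx.1.1 hx'.1.2.1)
  have h3 : ∀ τ, (C.filter fun x => Miss (cls C (F (τ + 1)) x) Y y ∧ ¬ Miss (cls C (F τ) x) Y y ∧
        ∀ i, ¬ Ex C F κ g (Y i) (τ + 1) x (y i)) = V τ := fun τ => by rw [hV]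
  simp only [h3]
  refine (sum_le_sum fun τ _ => h1 τ).trans ?_
  rw [← mul_sum]
  exact Nat.mul_le_mul_left 2 h2

open Classical in
/-- the logarithm that appears in the total correlation of the `Y i` on the class of `x` -/
theorem newmiss_sum {ι : Type*} [Fintype ι] {C : Finset α} {F : ℕ → α → ℕ} {κ g D : ℕ} (Y : ι → α → ℕ)
    (hY : ∀ i, ∀ w ∈ C, Y i w < D) (hg : 2 * Fintype.card ι ≤ g)
    (hF : ∀ τ, ∀ x ∈ C, ∀ y ∈ C, F (τ + 1) x = F (τ + 1) y → F τ x = F τ y) :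
    ∑ τ ∈ range κ, ∑ x ∈ C, ∑ y ∈ Fintype.piFinset (fun _ : ι => range D),
        (if Miss (cls C (F (τ + 1)) x) Y y ∧ ¬ Miss (cls C (F τ) x) Y y ∧
          ∀ i, ¬ Ex C F κ g (Y i) (τ + 1) x (y i) then ∏ i, ((#(fib C (Y i) (y i)) : ℝ) / #C) else 0) ≤
      2 ^ (Fintype.card ι + 1) * ∑ x ∈ C,
        Real.log ((((cls C (F κ) x).filter fun w => ∀ i, Y i w = Y i x).card : ℝ) / #(cls C (F κ) x) /
          ∏ i, ((#(cls (cls C (F κ) x) (Y i) x) : ℝ) / #(cls C (F κ) x))) := by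
  obtain ⟨PF, hPF⟩ : ∃ PF : Finset (ι → ℕ), PF = Fintype.piFinset (fun _ : ι => range D) := ⟨_, rfl⟩
  obtain ⟨q, hq⟩ : ∃ q : (ι → ℕ) → ℝ, q = fun y => ∏ i, ((#(fib C (Y i) (y i)) : ℝ) / #C) := ⟨_, rfl⟩
  have hq0 : ∀ y, 0 ≤ q y := by
    intro y
    rw [hq]
    exact prod_nonneg fun i _ => by positivity
  -- exchange the sums
  have h1 : ∑ τ ∈ range κ, ∑ x ∈ C, ∑ y ∈ PF,
        (if Miss (cls C (F (τ + 1)) x) Y y ∧ ¬ Miss (cls C (F τ) x) Y y ∧
          ∀ i, ¬ Ex C F κ g (Y i) (τ + 1) x (y i) then q y else 0) =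
      ∑ y ∈ PF, q y * ((∑ τ ∈ range κ, (C.filter fun x => Miss (cls C (F (τ + 1)) x) Y y ∧
        ¬ Miss (cls C (F τ) x) Y y ∧ ∀ i, ¬ Ex C F κ g (Y i) (τ + 1) x (y i)).card : ℕ) : ℝ) := by
    have h2 : ∀ τ ∈ range κ, ∑ x ∈ C, ∑ y ∈ PF,
        (if Miss (cls C (F (τ + 1)) x) Y y ∧ ¬ Miss (cls C (F τ) x) Y y ∧
          ∀ i, ¬ Ex C F κ g (Y i) (τ + 1) x (y i) then q y else 0) =
        ∑ y ∈ PF, q y * ((C.filter fun x => Miss (cls C (F (τ + 1)) x) Y y ∧
        ¬ Miss (cls C (F τ) x) Y y ∧ ∀ i, ¬ Ex C F κ g (Y i) (τ + 1) x (y i)).card : ℝ) := by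
      intro τ _
      rw [sum_comm]
      refine sum_congr rfl fun y _ => ?_
      rw [← sum_filter, sum_const, nsmul_eq_mul, mul_comm]
    rw [sum_congr rfl h2, sum_comm]
    refine sum_congr rfl fun y _ => ?_
    rw [← mul_sum]
    push_cast
    rfl
  have h2 : ∀ y ∈ PF, q y * ((∑ τ ∈ range κ, (C.filter fun x => Miss (cls C (F (τ + 1)) x) Y y ∧
        ¬ Miss (cls C (F τ) x) Y y ∧ ∀ i, ¬ Ex C F κ g (Y i) (τ + 1) x (y i)).card : ℕ) : ℝ) ≤
      q y * (2 * (C.filter fun x => Miss (cls C (F κ) x) Y y ∧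
        ∀ i, ¬ Bad C (F κ) (Y i) x (y i)).card) := by
    intro y _
    refine mul_le_mul_of_nonneg_left ?_ (hq0 y)
    exact_mod_cast newmiss Y hg hF y
  have h3 : ∑ y ∈ PF, q y * (2 * ((C.filter fun x => Miss (cls C (F κ) x) Y y ∧
        ∀ i, ¬ Bad C (F κ) (Y i) x (y i)).card : ℝ)) =
      2 * ∑ x ∈ C, ∑ y ∈ PF, (if Miss (cls C (F κ) x) Y y ∧
        ∀ i, ¬ Bad C (F κ) (Y i) x (y i) then q y else 0) := by
    rw [sum_comm, mul_sum]
    refine sum_congr rfl fun y _ => ?_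
    rw [← sum_filter, sum_const, nsmul_eq_mul]
    ring
  -- not bad
  have h4 : ∀ x ∈ C, ∀ y, (if Miss (cls C (F κ) x) Y y ∧
        ∀ i, ¬ Bad C (F κ) (Y i) x (y i) then q y else 0) ≤
      2 ^ Fintype.card ι * (if Miss (cls C (F κ) x) Y y then
        ∏ i, ((#(fib (cls C (F κ) x) (Y i) (y i)) : ℝ) / #(cls C (F κ) x)) else 0) := by
    intro x hx y
    have hC : (0 : ℝ) < #C := by exact_mod_cast card_pos.2 ⟨x, hx⟩
    have hK : (0 : ℝ) < #(cls C (F κ) x) := by exact_mod_cast card_pos.2 ⟨x, Exit_self hx⟩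
    by_cases hm : Miss (cls C (F κ) x) Y y
    · by_cases hb : ∀ i, ¬ Bad C (F κ) (Y i) x (y i)
      · rw [if_pos ⟨hm, hb⟩, if_pos hm, hq]
        have e : (2 : ℝ) ^ Fintype.card ι *
            ∏ i, ((#(fib (cls C (F κ) x) (Y i) (y i)) : ℝ) / #(cls C (F κ) x)) =
            ∏ i, (2 * ((#(fib (cls C (F κ) x) (Y i) (y i)) : ℝ) / #(cls C (F κ) x))) := by
          rw [prod_mul_distrib, prod_const, card_univ]
        rw [e]
        refine prod_le_prod (fun i _ => by positivity) fun i _ => ?_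
        have h5 := hb i
        unfold Bad at h5
        push Not at h5
        have h6 : (#(fib C (Y i) (y i)) : ℝ) * #(cls C (F κ) x) ≤
            2 * (#(fib (cls C (F κ) x) (Y i) (y i)) * #C) := by exact_mod_cast h5
        rw [mul_div_assoc', div_le_div_iff₀ hC hK]
        linarith
      · rw [if_neg (fun h => hb h.2)]
        split_ifs
        exact mul_nonneg (by positivity) (prod_nonneg fun i _ => by positivity)
    · rw [if_neg (fun h => hm h.1), if_neg hm, mul_zero]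
  -- total correlation
  obtain ⟨T, hT⟩ : ∃ T : Finset α → α → ℝ, T = fun K x =>
      Real.log (((K.filter fun w => ∀ i, Y i w = Y i x).card : ℝ) / #K /
        ∏ i, ((#(cls K (Y i) x) : ℝ) / #K)) := ⟨_, rfl⟩
  have h5 : ∀ x ∈ C, ∑ y ∈ PF, (if Miss (cls C (F κ) x) Y y then
        ∏ i, ((#(fib (cls C (F κ) x) (Y i) (y i)) : ℝ) / #(cls C (F κ) x)) else 0) ≤
      ∑ x' ∈ cls C (F κ) x, (#(cls C (F κ) x) : ℝ)⁻¹ * T (cls C (F κ) x) x' := by
    intro x hx
    have hK : (0 : ℝ) < #(cls C (F κ) x) := by exact_mod_cast card_pos.2 ⟨x, Exit_self hx⟩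
    have h6 := loc_tc (cls C (F κ) x) ⟨x, Exit_self hx⟩ Y (D := D)
      (fun i w hw => hY i w (Exit_mem.1 hw).1)
    rw [← mul_sum, hT, hPF]
    rw [← div_eq_inv_mul, le_div_iff₀ hK, mul_comm]
    exact h6
  have h6 : ∑ x ∈ C, ∑ x' ∈ cls C (F κ) x, (#(cls C (F κ) x) : ℝ)⁻¹ * T (cls C (F κ) x) x' =
      ∑ x ∈ C, T (cls C (F κ) x) x := by
    have h7 : ∀ x ∈ C, ∑ x' ∈ cls C (F κ) x, (#(cls C (F κ) x) : ℝ)⁻¹ * T (cls C (F κ) x) x' =
        ∑ x' ∈ C, if F κ x' = F κ x then (#(cls C (F κ) x') : ℝ)⁻¹ * T (cls C (F κ) x') x' else 0 := by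
      intro x _
      rw [← sum_filter]
      refine sum_congr rfl fun x' hx' => ?_
      rw [Exit_cls_congr (mem_filter.1 hx').2]
    rw [sum_congr rfl h7, sum_comm]
    refine sum_congr rfl fun x' hx' => ?_
    rw [← sum_filter, sum_const, nsmul_eq_mul]
    have e : (C.filter fun x => F κ x' = F κ x) = cls C (F κ) x' := by
      unfold cls
      exact filter_congr fun w _ => eq_comm
    rw [e]
    have hK : (#(cls C (F κ) x') : ℝ) ≠ 0 := by
      exact_mod_cast (card_pos.2 ⟨x', Exit_self hx'⟩).ne'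
    rw [← mul_assoc, mul_inv_cancel₀ hK, one_mul]
  have h8 : ∑ x ∈ C, Real.log ((((cls C (F κ) x).filter fun w => ∀ i, Y i w = Y i x).card : ℝ) /
      #(cls C (F κ) x) / ∏ i, ((#(cls (cls C (F κ) x) (Y i) x) : ℝ) / #(cls C (F κ) x))) =
      ∑ x ∈ C, T (cls C (F κ) x) x := by rw [hT]
  have h9 : ∀ y, (∏ i, ((#(fib C (Y i) (y i)) : ℝ) / #C)) = q y := fun y => by rw [hq]
  simp only [h9, ← hPF]
  rw [h8, h1]
  refine (sum_le_sum h2).trans ?_
  rw [h3, pow_succ, mul_comm (2 ^ Fintype.card ι) 2, mul_assoc]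
  refine mul_le_mul_of_nonneg_left ?_ (by norm_num)
  calc ∑ x ∈ C, ∑ y ∈ PF, (if Miss (cls C (F κ) x) Y y ∧
        ∀ i, ¬ Bad C (F κ) (Y i) x (y i) then q y else 0) ≤
      ∑ x ∈ C, ∑ y ∈ PF, 2 ^ Fintype.card ι * (if Miss (cls C (F κ) x) Y y then
        ∏ i, ((#(fib (cls C (F κ) x) (Y i) (y i)) : ℝ) / #(cls C (F κ) x)) else 0) :=
        sum_le_sum fun x hx => sum_le_sum fun y _ => h4 x hx y
    _ = 2 ^ Fintype.card ι * ∑ x ∈ C, ∑ y ∈ PF, (if Miss (cls C (F κ) x) Y y then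
        ∏ i, ((#(fib (cls C (F κ) x) (Y i) (y i)) : ℝ) / #(cls C (F κ) x)) else 0) := by
        rw [mul_sum]
        exact sum_congr rfl fun x _ => (mul_sum _ _ _).symm
    _ ≤ 2 ^ Fintype.card ι * ∑ x ∈ C, T (cls C (F κ) x) x := by
        refine mul_le_mul_of_nonneg_left ?_ (by positivity)
        rw [← h6]
        exact sum_le_sum h5

end FHD
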