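import Pool.Agent.FHD.Ent
import Pool.Agent.FHD.Exit

/-!
# FHD.AvgB: mean value of the mass of the values whose frequency has doubled

Common to all proofs: fix `t`; the cells `C = cell (t0 κ l t) z` partition `Ω` (`cell_congr`); on `C` use the labels
`F τ = run D n κ l t τ`: `F 0` is constant on `C`, `F (τ+1)` determines `F τ` (`hd_hd`), `cls C (F τ) x = cell (update t l (κ (t l/κ) + τ)) x`
(`cls_run`; for `τ = κ` this is `cell (tE κ l t) x`, for `τ = t l % κ` it is `cell t x`, for `τ = t l % κ + 1` it is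
`cell (update t l (t l + 1)) x`), `cls _ (Yd D n t i) x` is the cell with the digit of `i` added (`cls_dig`), all digits are `< D`.
`ExW`, `lamW` do not change if `z` is replaced by a point of the same cell `t0`.
PROOF.
`avg_big`: `loc_big` for `C = cell (t0 κ l t) z`, `f = run .. (t l % κ)`, `Y = Yd D n t i`: the sum of the logarithms is
`LN t0 + LN (update t i (t i + 1)) - LN (update t0 i (t i + 1)) - LN t`, at most the bracket of `run_sum` by `mi_nonneg` (coordinates `i`, `l`
from `(t i, t l)` to `(t i + 1, κ (t l/κ) + κ)`).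
-/

set_option autoImplicit false

namespace FHD

open Finset

variable {d D n κ Q : ℕ}

private lemma upd_run {d κ : ℕ} (l : Fin d) (t : Fin d → ℕ) :
    Function.update t l (κ * (t l / κ) + t l % κ) = t := by
  rw [Nat.div_add_mod, Function.update_eq_self]

private lemma log_four {a b c e : ℕ} (ha : 0 < a) (hb : 0 < b) (hc : 0 < c) (he : 0 < e) :
    Real.log ((a : ℝ) * b / (c * e)) = Real.log a + Real.log b - Real.log c - Real.log e := by
  have ha' : (a : ℝ) ≠ 0 := by exact_mod_cast ha.ne'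
  have hb' : (b : ℝ) ≠ 0 := by exact_mod_cast hb.ne'
  have hc' : (c : ℝ) ≠ 0 := by exact_mod_cast hc.ne'
  have he' : (e : ℝ) ≠ 0 := by exact_mod_cast he.ne'
  rw [Real.log_div (mul_ne_zero ha' hb') (mul_ne_zero hc' he'), Real.log_mul ha' hb', Real.log_mul hc' he']
  ring

open Classical in
private lemma one_window (hκ : 1 ≤ κ) (Ω : Finset (Fin d → ℕ)) {i l : Fin d} (hil : i ≠ l) {t : Fin d → ℕ}
    (ht : t i < n) :
    (#(Ω.filter fun z =>
        2 * (#(cell D n Ω t z) * #(fib (cell D n Ω (t0 κ l t) z) (Yd D n t i) (Yd D n t i z))) <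
          #(cell D n Ω (t0 κ l t) z) * #(fib (cell D n Ω t z) (Yd D n t i) (Yd D n t i z))) : ℝ) ≤
      6 * (LN D n Ω (t0 κ l t) + LN D n Ω (Function.update (tE κ l t) i (t i + 1)) -
        LN D n Ω (Function.update (t0 κ l t) i (t i + 1)) - LN D n Ω (tE κ l t)) := by
  have h0i : (t0 κ l t) i = t i := by simp [t0, hil]
  have hself : ∀ z ∈ Ω, z ∈ cell D n Ω (t0 κ l t) z := fun z hz => mem_cell_self hz
  have hrun : ∀ z x : Fin d → ℕ, x ∈ cell D n Ω (t0 κ l t) z →
      cls (cell D n Ω (t0 κ l t) z) (run D n κ l t (t l % κ)) x = cell D n Ω t x := by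
    intro z x hx
    rw [cls_run l t (t l % κ) z x hx, upd_run]
  set P : (Fin d → ℕ) → Prop := fun z =>
        2 * (#(cell D n Ω t z) * #(fib (cell D n Ω (t0 κ l t) z) (Yd D n t i) (Yd D n t i z))) <
          #(cell D n Ω (t0 κ l t) z) * #(fib (cell D n Ω t z) (Yd D n t i) (Yd D n t i z)) with hP
  set G : (Fin d → ℕ) → ℝ := fun z => Real.log (#(cell D n Ω (t0 κ l t) z)) +
      Real.log (#(cell D n Ω (Function.update t i (t i + 1)) z)) - Real.log (#(cell D n Ω t z)) -
      Real.log (#(cell D n Ω (Function.update (t0 κ l t) i (t i + 1)) z)) with hG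
  have key : ∀ z ∈ Ω, ∑ w ∈ cell D n Ω (t0 κ l t) z, (if P w then (1 : ℝ) else 0) ≤
      6 * ∑ w ∈ cell D n Ω (t0 κ l t) z, G w := by
    intro z hz
    have hloc := loc_big (cell D n Ω (t0 κ l t) z) (run D n κ l t (t l % κ)) (Yd D n t i)
    have h1 : ∑ w ∈ cell D n Ω (t0 κ l t) z, (if P w then (1 : ℝ) else 0) =
        (((cell D n Ω (t0 κ l t) z).filter fun x =>
          2 * (#(cls (cell D n Ω (t0 κ l t) z) (run D n κ l t (t l % κ)) x) *
            #(cls (cell D n Ω (t0 κ l t) z) (Yd D n t i) x)) <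
          #(cell D n Ω (t0 κ l t) z) *
            #(cls (cls (cell D n Ω (t0 κ l t) z) (run D n κ l t (t l % κ)) x) (Yd D n t i) x)).card : ℝ) := by
      rw [← Finset.sum_filter, Finset.sum_const, nsmul_eq_mul, mul_one]
      congr 2
      apply Finset.filter_congr
      intro w hw
      have hc := cell_congr hw
      have hw' : cls (cell D n Ω (t0 κ l t) z) (run D n κ l t (t l % κ)) w = cell D n Ω t w := hrun z w hw
      rw [hw', hP]
      simp only [hc]
      rfl
    have h2 : ∑ x ∈ cell D n Ω (t0 κ l t) z,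
        Real.log ((#(cell D n Ω (t0 κ l t) z) : ℝ) *
          #(cls (cls (cell D n Ω (t0 κ l t) z) (run D n κ l t (t l % κ)) x) (Yd D n t i) x) /
          (#(cls (cell D n Ω (t0 κ l t) z) (run D n κ l t (t l % κ)) x) *
            #(cls (cell D n Ω (t0 κ l t) z) (Yd D n t i) x))) =
        ∑ w ∈ cell D n Ω (t0 κ l t) z, G w := by
      apply Finset.sum_congr rfl
      intro w hw
      have hwΩ : w ∈ Ω := cell_sub _ _ hw
      have hw' : cls (cell D n Ω (t0 κ l t) z) (run D n κ l t (t l % κ)) w = cell D n Ω t w := hrun z w hw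
      have hc := cell_congr hw
      have hd1 : cls (cell D n Ω t w) (Yd D n t i) w = cell D n Ω (Function.update t i (t i + 1)) w :=
        cls_dig (t' := t) ht rfl w w (mem_cell_self hwΩ)
      have hd2 : cls (cell D n Ω (t0 κ l t) z) (Yd D n t i) w =
          cell D n Ω (Function.update (t0 κ l t) i (t i + 1)) w :=
        cls_dig (t' := t0 κ l t) ht h0i z w hw
      have pos : ∀ s : Fin d → ℕ, 0 < #(cell D n Ω s w) := fun s =>
        Finset.card_pos.mpr ⟨w, mem_cell_self hwΩ⟩
      rw [hw', hd1, hd2, ← hc, hG]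
      exact log_four (pos _) (pos _) (pos _) (pos _)
    rw [h1, ← h2]
    exact hloc
  have hsum : (#(Ω.filter P) : ℝ) ≤ 6 * ∑ z ∈ Ω, G z := by
    have e1 : (#(Ω.filter P) : ℝ) = ∑ z ∈ Ω, (if P z then (1 : ℝ) else 0) := by
      rw [← Finset.sum_filter, Finset.sum_const, nsmul_eq_mul, mul_one]
    rw [e1, ← sum_cell (D := D) (n := n) (Ω := Ω) (t0 κ l t) (fun z => if P z then (1 : ℝ) else 0),
      ← sum_cell (D := D) (n := n) (Ω := Ω) (t0 κ l t) G, Finset.mul_sum]
    apply Finset.sum_le_sum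
    intro z hz
    rw [← mul_div_assoc]
    exact div_le_div_of_nonneg_right (key z hz) (Nat.cast_nonneg _)
  have hGs : ∑ z ∈ Ω, G z = LN D n Ω (t0 κ l t) + LN D n Ω (Function.update t i (t i + 1)) -
      LN D n Ω t - LN D n Ω (Function.update (t0 κ l t) i (t i + 1)) := by
    simp only [hG, LN, Finset.sum_sub_distrib, Finset.sum_add_distrib]
  have hb : t l ≤ κ * (t l / κ) + κ := by
    have := Nat.div_add_mod (t l) κ
    have h2 := Nat.mod_lt (t l) (show κ > 0 by omega)
    omega
  have hmi := mi_nonneg (D := D) (n := n) Ω hil t (a := t i) (a' := t i + 1) (b := t l)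
    (b' := κ * (t l / κ) + κ) (Nat.le_succ _) hb
  have u1 : Function.update (Function.update t i (t i)) l (t l) = t := by
    rw [Function.update_eq_self, Function.update_eq_self]
  have u2 : Function.update (Function.update t i (t i + 1)) l (κ * (t l / κ) + κ) =
      Function.update (tE κ l t) i (t i + 1) := by
    unfold tE
    rw [Function.update_comm hil.symm]
  have u3 : Function.update (Function.update t i (t i + 1)) l (t l) = Function.update t i (t i + 1) := by
    rw [Function.update_comm hil, Function.update_eq_self]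
  have u4 : Function.update (Function.update t i (t i)) l (κ * (t l / κ) + κ) = tE κ l t := by
    unfold tE
    rw [Function.update_eq_self]
  rw [u1, u2, u3, u4] at hmi
  have : (#(Ω.filter P) : ℝ) ≤ 6 * (LN D n Ω (t0 κ l t) + LN D n Ω (Function.update t i (t i + 1)) -
      LN D n Ω t - LN D n Ω (Function.update (t0 κ l t) i (t i + 1))) := hGs ▸ hsum
  linarith

open Classical in
theorem avg_big (hd : 1 ≤ d) (hD : 1 ≤ D) (hκ : 1 ≤ κ) (hQ : 1 ≤ Q) (hn : n = κ * Q)
    (Ω : Finset (Fin d → ℕ)) {i l : Fin d} (hil : i ≠ l) :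
    n * ∑ t ∈ wins d n, (#(Ω.filter fun z =>
        2 * (#(cell D n Ω t z) * #(fib (cell D n Ω (t0 κ l t) z) (Yd D n t i) (Yd D n t i z))) <
          #(cell D n Ω (t0 κ l t) z) * #(fib (cell D n Ω t z) (Yd D n t i) (Yd D n t i z))) : ℝ) ≤
      6 * κ * ((n : ℝ) ^ d * (#Ω * Real.log D)) := by
  have hrs := run_sum (D := D) (n := n) hD hκ hQ hn Ω hil
  have h1 : ∑ t ∈ wins d n, (#(Ω.filter fun z =>
        2 * (#(cell D n Ω t z) * #(fib (cell D n Ω (t0 κ l t) z) (Yd D n t i) (Yd D n t i z))) <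
          #(cell D n Ω (t0 κ l t) z) * #(fib (cell D n Ω t z) (Yd D n t i) (Yd D n t i z))) : ℝ) ≤
      6 * ∑ t ∈ wins d n, (LN D n Ω (t0 κ l t) + LN D n Ω (Function.update (tE κ l t) i (t i + 1)) -
        LN D n Ω (Function.update (t0 κ l t) i (t i + 1)) - LN D n Ω (tE κ l t)) := by
    rw [Finset.mul_sum]
    apply Finset.sum_le_sum
    intro t ht
    exact one_window hκ Ω hil (mem_wins.mp ht i)
  have hn0 : (0 : ℝ) ≤ n := Nat.cast_nonneg _
  have h2 := mul_le_mul_of_nonneg_left h1 hn0
  linarith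

end FHD
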