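import Pool.Agent.FHD.Ent
import Pool.Agent.FHD.Exit

/-!
# FHD.AvgE: mean values of the masses of what has left

Common to all proofs: fix `t`; the cells `C = cell (t0 κ l t) z` partition `Ω` (`cell_congr`); on `C` use the labels
`F τ = run D n κ l t τ`: `F 0` is constant on `C`, `F (τ+1)` determines `F τ` (`hd_hd`), `cls C (F τ) x = cell (update t l (κ (t l/κ) + τ)) x`
(`cls_run`; for `τ = κ` this is `cell (tE κ l t) x`, for `τ = t l % κ` it is `cell t x`, for `τ = t l % κ + 1` it is
`cell (update t l (t l + 1)) x`), `cls _ (Yd D n t i) x` is the cell with the digit of `i` added (`cls_dig`), all digits are `< D`.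
`ExW`, `lamW` do not change if `z` is replaced by a point of the same cell `t0`.
PROOF.
`avg_exit`: `ex_sum` for each `C` (`g = 2 d`); the sum of the logarithms over all `C` is the bracket of `run_sum`.
`avg_pair`: for fixed `t` and `a` the sum over `τ < κ` of the indicators is at most the indicator for `κ` (`ex_pairs`); the windows
`update t l (κ ρ + τ)`, `τ < κ`, belong to the same run (same `t0`, `tE`, `run`, `ExW` and `lamW`).  So (averaging over coordinate `l`, `wins_upd`)
`κ *` the left side is at most the left side of `avg_exit`.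
-/

set_option autoImplicit false

namespace FHD

open Finset

variable {d D n κ Q : ℕ}

private theorem avgE_pos {Ω : Finset (Fin d → ℕ)} (t : Fin d → ℕ) {z : Fin d → ℕ} (hz : z ∈ Ω) :
    (0 : ℝ) < #(cell D n Ω t z) := by
  exact_mod_cast card_pos.mpr ⟨z, mem_cell_self hz⟩

open Classical in
private theorem avgE_one (hD : 1 ≤ D) (Ω : Finset (Fin d → ℕ)) {i l : Fin d} (hil : i ≠ l)
    {t : Fin d → ℕ} (ht : t i < n) :
    ∑ z ∈ Ω, ∑ a ∈ range D, (if ExW D n κ Ω l i t κ z a then lamW D n κ Ω l i t z a else 0) ≤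
    14 * d * (LN D n Ω (t0 κ l t) + LN D n Ω (Function.update (tE κ l t) i (t i + 1)) -
        LN D n Ω (Function.update (t0 κ l t) i (t i + 1)) - LN D n Ω (tE κ l t)) := by
  set H : (Fin d → ℕ) → ℝ := fun x => Real.log ((#(cell D n Ω (t0 κ l t) x) : ℝ) *
    #(cell D n Ω (Function.update (tE κ l t) i (t i + 1)) x) /
    (#(cell D n Ω (tE κ l t) x) * #(cell D n Ω (Function.update (t0 κ l t) i (t i + 1)) x))) with hH
  have hb : LN D n Ω (t0 κ l t) + LN D n Ω (Function.update (tE κ l t) i (t i + 1)) -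
        LN D n Ω (Function.update (t0 κ l t) i (t i + 1)) - LN D n Ω (tE κ l t) = ∑ z ∈ Ω, H z := by
    unfold LN
    rw [← sum_add_distrib, ← sum_sub_distrib, ← sum_sub_distrib]
    apply sum_congr rfl
    intro z hz
    have h1 := avgE_pos (D := D) (n := n) (t0 κ l t) hz
    have h2 := avgE_pos (D := D) (n := n) (Function.update (tE κ l t) i (t i + 1)) hz
    have h3 := avgE_pos (D := D) (n := n) (tE κ l t) hz
    have h4 := avgE_pos (D := D) (n := n) (Function.update (t0 κ l t) i (t i + 1)) hz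
    rw [hH]
    simp only
    rw [Real.log_div (mul_pos h1 h2).ne' (mul_pos h3 h4).ne', Real.log_mul h1.ne' h2.ne',
      Real.log_mul h3.ne' h4.ne']
    ring
  rw [hb, ← sum_cell (D := D) (n := n) (t0 κ l t) H,
    ← sum_cell (D := D) (n := n) (t0 κ l t)
      (fun z => ∑ a ∈ range D, (if ExW D n κ Ω l i t κ z a then lamW D n κ Ω l i t z a else 0)),
    mul_sum]
  apply sum_le_sum
  intro z hz
  rw [← mul_div_assoc]
  apply div_le_div_of_nonneg_right _ (Nat.cast_nonneg _)
  have key := ex_sum (C := cell D n Ω (t0 κ l t) z) (F := run D n κ l t) (κ := κ) (g := 2 * d)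
    (D := D) (Yd D n t i) (fun w _ => dig_lt hD _ _)
    (fun τ x _ y _ hxy => hd_hd (by omega) hxy)
    (by
      intro x hx y hy
      unfold cell at hx hy
      rw [mem_filter] at hx hy
      have h1 := hx.2 l
      have h2 := hy.2 l
      simp only [t0, Function.update_self] at h1 h2
      simp only [run, add_zero]
      rw [h1, h2])
  have hl : ∑ w ∈ cell D n Ω (t0 κ l t) z,
      ∑ a ∈ range D, (if ExW D n κ Ω l i t κ w a then lamW D n κ Ω l i t w a else 0) =
      ∑ x ∈ cell D n Ω (t0 κ l t) z, ∑ a ∈ range D,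
        (if Ex (cell D n Ω (t0 κ l t) z) (run D n κ l t) κ (2 * d) (Yd D n t i) κ x a then
          (#(fib (cell D n Ω (t0 κ l t) z) (Yd D n t i) a) : ℝ) / #(cell D n Ω (t0 κ l t) z) else 0) := by
    apply sum_congr rfl
    intro w hw
    apply sum_congr rfl
    intro a _
    unfold ExW lamW
    rw [cell_congr hw]
  have hr : ∑ x ∈ cell D n Ω (t0 κ l t) z,
      Real.log ((#(cell D n Ω (t0 κ l t) z) : ℝ) *
        #(cls (cls (cell D n Ω (t0 κ l t) z) (run D n κ l t κ) x) (Yd D n t i) x) /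
        (#(cls (cell D n Ω (t0 κ l t) z) (run D n κ l t κ) x) *
          #(cls (cell D n Ω (t0 κ l t) z) (Yd D n t i) x))) =
      ∑ x ∈ cell D n Ω (t0 κ l t) z, H x := by
    apply sum_congr rfl
    intro x hx
    have hxΩ : x ∈ Ω := cell_sub _ _ hx
    have e1 : cls (cell D n Ω (t0 κ l t) z) (run D n κ l t κ) x = cell D n Ω (tE κ l t) x :=
      cls_run l t κ z x hx
    have e2 : cls (cell D n Ω (t0 κ l t) z) (Yd D n t i) x =
        cell D n Ω (Function.update (t0 κ l t) i (t i + 1)) x :=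
      cls_dig ht (by simp [t0, Function.update_of_ne hil]) z x hx
    have e3 : cls (cell D n Ω (tE κ l t) x) (Yd D n t i) x =
        cell D n Ω (Function.update (tE κ l t) i (t i + 1)) x :=
      cls_dig ht (by simp [tE, Function.update_of_ne hil]) x x (mem_cell_self hxΩ)
    rw [e1, e2, e3, hH]
    simp only
    rw [cell_congr hx]
  rw [hl]
  refine key.trans (le_of_eq ?_)
  rw [hr]
  push_cast
  ring

open Classical in
theorem avg_exit (hd : 1 ≤ d) (hD : 1 ≤ D) (hκ : 1 ≤ κ) (hQ : 1 ≤ Q) (hn : n = κ * Q)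
    (Ω : Finset (Fin d → ℕ)) {i l : Fin d} (hil : i ≠ l) :
    n * ∑ t ∈ wins d n, ∑ z ∈ Ω, ∑ a ∈ range D,
      (if ExW D n κ Ω l i t κ z a then lamW D n κ Ω l i t z a else 0) ≤
      14 * d * κ * ((n : ℝ) ^ d * (#Ω * Real.log D)) := by
  have h1 : ∑ t ∈ wins d n, ∑ z ∈ Ω, ∑ a ∈ range D,
      (if ExW D n κ Ω l i t κ z a then lamW D n κ Ω l i t z a else 0) ≤
      14 * d * ∑ t ∈ wins d n, (LN D n Ω (t0 κ l t) + LN D n Ω (Function.update (tE κ l t) i (t i + 1)) -
        LN D n Ω (Function.update (t0 κ l t) i (t i + 1)) - LN D n Ω (tE κ l t)) := by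
    rw [mul_sum]
    apply sum_le_sum
    intro t ht
    exact avgE_one hD Ω hil (mem_wins.mp ht i)
  have h2 := run_sum (D := D) (n := n) hD hκ hQ hn Ω hil
  have h3 : (n : ℝ) * ∑ t ∈ wins d n, ∑ z ∈ Ω, ∑ a ∈ range D,
      (if ExW D n κ Ω l i t κ z a then lamW D n κ Ω l i t z a else 0) ≤
      n * (14 * d * ∑ t ∈ wins d n, (LN D n Ω (t0 κ l t) +
        LN D n Ω (Function.update (tE κ l t) i (t i + 1)) -
        LN D n Ω (Function.update (t0 κ l t) i (t i + 1)) - LN D n Ω (tE κ l t))) :=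
    mul_le_mul_of_nonneg_left h1 (Nat.cast_nonneg _)
  refine h3.trans ?_
  have h4 : (0 : ℝ) ≤ 14 * d := by positivity
  have h5 := mul_le_mul_of_nonneg_left h2 h4
  calc _ = 14 * d * (n * ∑ t ∈ wins d n, (LN D n Ω (t0 κ l t) +
        LN D n Ω (Function.update (tE κ l t) i (t i + 1)) -
        LN D n Ω (Function.update (t0 κ l t) i (t i + 1)) - LN D n Ω (tE κ l t))) := by ring
    _ ≤ _ := h5
    _ = _ := by ring

open Classical in
private theorem avgE_mono (P : ℕ → Prop) (hP : ∀ τ, P τ → P (τ + 1)) (c : ℝ) (hc : 0 ≤ c) (k : ℕ) :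
    ∑ τ ∈ range k, (if ¬ P τ ∧ P (τ + 1) then c else 0) ≤ if P k then c else 0 := by
  induction k with
  | zero => simp; split_ifs <;> simp [hc]
  | succ k ih =>
    rw [sum_range_succ]
    by_cases h : P k
    · have h' := hP k h
      simp only [h, h', not_true_eq_false, false_and, if_false, if_true, add_zero] at ih ⊢
      exact ih
    · simp only [h, if_false] at ih
      by_cases h' : P (k + 1)
      · simp only [h, h', not_false_eq_true, and_self, if_true]
        linarith
      · simp only [h, h', and_false, if_false, add_zero]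
        exact ih

private theorem avgE_range (f : ℕ → ℝ) :
    ∑ b ∈ range (κ * Q), f b = ∑ ρ ∈ range Q, ∑ τ ∈ range κ, f (κ * ρ + τ) := by
  induction Q with
  | zero => simp
  | succ Q ih =>
    rw [Nat.mul_succ, sum_range_add, ih, sum_range_succ]

open Classical in
theorem avg_pair (hd : 1 ≤ d) (hD : 1 ≤ D) (hκ : 1 ≤ κ) (hQ : 1 ≤ Q) (hn : n = κ * Q)
    (Ω : Finset (Fin d → ℕ)) {i l : Fin d} (hil : i ≠ l) :
    n * ∑ t ∈ wins d n, ∑ z ∈ Ω, ∑ a ∈ range D,
      (if ¬ ExW D n κ Ω l i t (t l % κ) z a ∧ ExW D n κ Ω l i t (t l % κ + 1) z a then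
        lamW D n κ Ω l i t z a else 0) ≤
      14 * d * ((n : ℝ) ^ d * (#Ω * Real.log D)) := by
  have hex := avg_exit hd hD hκ hQ hn Ω hil
  have hκ0 : (0 : ℝ) < κ := by exact_mod_cast hκ
  have hdiv : ∀ ρ τ, τ < κ → (κ * ρ + τ) / κ = ρ := by
    intro ρ τ h
    rw [Nat.mul_add_div (by omega), Nat.div_eq_of_lt h, add_zero]
  have hmod : ∀ ρ τ, τ < κ → (κ * ρ + τ) % κ = τ := by
    intro ρ τ h
    rw [Nat.mul_add_mod, Nat.mod_eq_of_lt h]
  -- windows of the same run
  have hE : ∀ (t : Fin d → ℕ) (ρ τ : ℕ), τ < κ → ∀ (σ : ℕ) (z : Fin d → ℕ) (a : ℕ),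
      ExW D n κ Ω l i (Function.update t l (κ * ρ + τ)) σ z a ↔
        ExW D n κ Ω l i (Function.update t l (κ * ρ)) σ z a := by
    intro t ρ τ hτ σ z a
    have e0 : t0 κ l (Function.update t l (κ * ρ + τ)) = t0 κ l (Function.update t l (κ * ρ)) := by
      simp only [t0, Function.update_self, Function.update_idem, hdiv ρ τ hτ,
        Nat.mul_div_cancel_left ρ (show 0 < κ by omega)]
    have e1 : run D n κ l (Function.update t l (κ * ρ + τ)) = run D n κ l (Function.update t l (κ * ρ)) := by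
      funext s w
      simp only [run, Function.update_self, hdiv ρ τ hτ,
        Nat.mul_div_cancel_left ρ (show 0 < κ by omega)]
    have e2 : Yd D n (Function.update t l (κ * ρ + τ)) i = Yd D n (Function.update t l (κ * ρ)) i := by
      funext w
      simp only [Yd, Function.update_of_ne hil]
    unfold ExW
    rw [e0, e1, e2]
  have hL : ∀ (t : Fin d → ℕ) (ρ τ : ℕ), τ < κ → ∀ (z : Fin d → ℕ) (a : ℕ),
      lamW D n κ Ω l i (Function.update t l (κ * ρ + τ)) z a =
        lamW D n κ Ω l i (Function.update t l (κ * ρ)) z a := by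
    intro t ρ τ hτ z a
    have e0 : t0 κ l (Function.update t l (κ * ρ + τ)) = t0 κ l (Function.update t l (κ * ρ)) := by
      simp only [t0, Function.update_self, Function.update_idem, hdiv ρ τ hτ,
        Nat.mul_div_cancel_left ρ (show 0 < κ by omega)]
    have e2 : Yd D n (Function.update t l (κ * ρ + τ)) i = Yd D n (Function.update t l (κ * ρ)) i := by
      funext w
      simp only [Yd, Function.update_of_ne hil]
    unfold lamW
    rw [e0, e2]
  set f : (Fin d → ℕ) → ℝ := fun t => ∑ z ∈ Ω, ∑ a ∈ range D,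
      (if ¬ ExW D n κ Ω l i t (t l % κ) z a ∧ ExW D n κ Ω l i t (t l % κ + 1) z a then
        lamW D n κ Ω l i t z a else 0) with hf
  set g : (Fin d → ℕ) → ℝ := fun t => ∑ z ∈ Ω, ∑ a ∈ range D,
      (if ExW D n κ Ω l i t κ z a then lamW D n κ Ω l i t z a else 0) with hg
  have hrun : ∀ (t : Fin d → ℕ) (ρ : ℕ), ∑ τ ∈ range κ, f (Function.update t l (κ * ρ + τ)) ≤
      g (Function.update t l (κ * ρ)) := by
    intro t ρ
    have h1 : ∑ τ ∈ range κ, f (Function.update t l (κ * ρ + τ)) =
        ∑ τ ∈ range κ, ∑ z ∈ Ω, ∑ a ∈ range D,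
          (if ¬ ExW D n κ Ω l i (Function.update t l (κ * ρ)) τ z a ∧
            ExW D n κ Ω l i (Function.update t l (κ * ρ)) (τ + 1) z a then
            lamW D n κ Ω l i (Function.update t l (κ * ρ)) z a else 0) := by
      apply sum_congr rfl
      intro τ hτ
      rw [mem_range] at hτ
      rw [hf]
      simp only [Function.update_self, hmod ρ τ hτ, hE t ρ τ hτ, hL t ρ τ hτ]
    rw [h1, sum_comm, hg]
    simp only
    apply sum_le_sum
    intro z hz
    rw [sum_comm]
    apply sum_le_sum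
    intro a ha
    exact avgE_mono (fun τ => ExW D n κ Ω l i (Function.update t l (κ * ρ)) τ z a)
      (fun τ h => ex_mono (Nat.le_succ τ) h) _ (by unfold lamW; positivity) κ
  have hgrun : ∀ (t : Fin d → ℕ) (ρ : ℕ), ∑ τ ∈ range κ, g (Function.update t l (κ * ρ + τ)) =
      κ * g (Function.update t l (κ * ρ)) := by
    intro t ρ
    have : ∀ τ ∈ range κ, g (Function.update t l (κ * ρ + τ)) = g (Function.update t l (κ * ρ)) := by
      intro τ hτ
      rw [mem_range] at hτ
      rw [hg]
      simp only [hE t ρ τ hτ, hL t ρ τ hτ]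
    rw [sum_congr rfl this, sum_const, card_range, nsmul_eq_mul]
  have hsum : ∀ t : Fin d → ℕ, κ * ∑ b ∈ range n, f (Function.update t l b) ≤
      ∑ b ∈ range n, g (Function.update t l b) := by
    intro t
    rw [hn, avgE_range, avgE_range, mul_sum]
    apply sum_le_sum
    intro ρ _
    rw [hgrun]
    exact mul_le_mul_of_nonneg_left (hrun t ρ) hκ0.le
  have hfin : (κ : ℝ) * (n * ∑ t ∈ wins d n, f t) ≤ n * ∑ t ∈ wins d n, g t := by
    rw [wins_upd l f, wins_upd l g, mul_sum]
    exact sum_le_sum fun t _ => hsum t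
  have h6 : (κ : ℝ) * (n * ∑ t ∈ wins d n, f t) ≤ κ * (14 * d * ((n : ℝ) ^ d * (#Ω * Real.log D))) := by
    refine hfin.trans (hex.trans (le_of_eq ?_))
    ring
  exact le_of_mul_le_mul_left h6 hκ0

end FHD
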