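import Pool.Agent.FHD.Ent
import Pool.Agent.FHD.Exit

/-!
# FHD.AvgN: mean value of the mass of the newly missing tuples

Common to all proofs: fix `t`; the cells `C = cell (t0 κ l t) z` partition `Ω` (`cell_congr`); on `C` use the labels
`F τ = run D n κ l t τ`: `F 0` is constant on `C`, `F (τ+1)` determines `F τ` (`hd_hd`), `cls C (F τ) x = cell (update t l (κ (t l/κ) + τ)) x`
(`cls_run`; for `τ = κ` this is `cell (tE κ l t) x`, for `τ = t l % κ` it is `cell t x`, for `τ = t l % κ + 1` it is
`cell (update t l (t l + 1)) x`), `cls _ (Yd D n t i) x` is the cell with the digit of `i` added (`cls_dig`), all digits are `< D`.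
`ExW`, `lamW` do not change if `z` is replaced by a point of the same cell `t0`.
PROOF.
`avg_new`: `newmiss_sum` for each `C` with `ι = {i // i < l}` (`2 card ι ≤ 2 d = g`, `card ι + 1 ≤ d`), summed over `C`, is for fixed run
a bound for the sum over `τ < κ` of the sums over `z ∈ Ω`, `y`; `NewW` is the condition there.  The logarithms give the
bracket of `tc_sum` (`∏ lamW`: `Real.log_prod`).  The windows `update t l (κ ρ + τ)`, `τ < κ`, belong to the same run (same `t0`, `tE`, `run`,
`ExW`, `lamW`); averaging over coordinate `l` (`wins_upd`): `κ *` the left side `≤ 2^d * ∑_t bracket`.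
-/

set_option autoImplicit false

namespace FHD

open Finset

variable {d D n κ Q : ℕ}

open Classical in
private noncomputable def AvgN_g (D n κ : ℕ) (Ω : Finset (Fin d → ℕ)) (l : Fin d) (t z : Fin d → ℕ) : ℝ :=
  ∑ y ∈ Fintype.piFinset (fun _ : {i : Fin d // i < l} => range D),
    (if NewW D n κ Ω l t z y then ∏ i, lamW D n κ Ω l i.1 t z (y i) else 0)

private noncomputable def AvgN_br (D n κ : ℕ) (Ω : Finset (Fin d → ℕ)) (l : Fin d) (t : Fin d → ℕ) : ℝ :=
  LN D n Ω (fun i => if i < l then t i + 1 else tE κ l t i) - LN D n Ω (tE κ l t) -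
    ∑ i ∈ univ.filter (fun i => i < l),
      (LN D n Ω (Function.update (tE κ l t) i (t i + 1)) - LN D n Ω (tE κ l t))

private theorem AvgN_split (κ Q : ℕ) (F : ℕ → ℝ) :
    ∑ a ∈ range (κ * Q), F a = ∑ ρ ∈ range Q, ∑ τ ∈ range κ, F (κ * ρ + τ) := by
  induction Q with
  | zero => simp
  | succ Q ih => rw [Nat.mul_succ, Finset.sum_range_add, ih, Finset.sum_range_succ]

private theorem AvgN_div {κ ρ τ : ℕ} (hτ : τ < κ) : (κ * ρ + τ) / κ = ρ := by
  rw [Nat.mul_add_div (by omega), Nat.div_eq_of_lt hτ, add_zero]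

private theorem AvgN_mod {κ ρ τ : ℕ} (hτ : τ < κ) : (κ * ρ + τ) % κ = τ := by
  rw [Nat.mul_add_mod, Nat.mod_eq_of_lt hτ]

private theorem AvgN_tE {κ ρ τ : ℕ} (hτ : τ < κ) (l : Fin d) (t : Fin d → ℕ) :
    tE κ l (Function.update t l (κ * ρ + τ)) = Function.update t l (κ * ρ + κ) := by
  unfold tE
  rw [Function.update_self, AvgN_div hτ, Function.update_idem]

private theorem AvgN_br_congr (Ω : Finset (Fin d → ℕ)) (l : Fin d) (t : Fin d → ℕ) {κ ρ τ τ' : ℕ}
    (hτ : τ < κ) (hτ' : τ' < κ) :
    AvgN_br D n κ Ω l (Function.update t l (κ * ρ + τ)) =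
      AvgN_br D n κ Ω l (Function.update t l (κ * ρ + τ')) := by
  unfold AvgN_br
  rw [AvgN_tE hτ, AvgN_tE hτ']
  congr 1
  · congr 2
    funext i
    by_cases h : i < l
    · rw [if_pos h, if_pos h, Function.update_of_ne h.ne, Function.update_of_ne h.ne]
    · rw [if_neg h, if_neg h]
  · refine Finset.sum_congr rfl fun i hi => ?_
    have h : i < l := (Finset.mem_filter.1 hi).2
    rw [Function.update_of_ne h.ne, Function.update_of_ne h.ne]

private theorem AvgN_hd {i : ℕ} (hi : i < n) {x y : ℕ} :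
    hd D n (i + 1) x = hd D n (i + 1) y ↔ hd D n i x = hd D n i y ∧ dig D n i x = dig D n i y := by
  constructor
  · intro h
    refine ⟨hd_hd (Nat.le_succ i) h, ?_⟩
    unfold dig
    rw [h]
  · rintro ⟨h1, h2⟩
    rw [hd_succ hi, hd_succ hi, h1, h2]

private theorem AvgN_log (Ω : Finset (Fin d → ℕ)) (l : Fin d) {t : Fin d → ℕ} (ht : ∀ i, t i < n)
    {z : Fin d → ℕ} (hz : z ∈ Ω) :
    Real.log ((((cls (cell D n Ω (t0 κ l t) z) (run D n κ l t κ) z).filter fun w =>
        ∀ i : {i : Fin d // i < l}, Yd D n t i.1 w = Yd D n t i.1 z).card : ℝ) /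
          #(cls (cell D n Ω (t0 κ l t) z) (run D n κ l t κ) z) /
        ∏ i : {i : Fin d // i < l},
          ((#(cls (cls (cell D n Ω (t0 κ l t) z) (run D n κ l t κ) z) (Yd D n t i.1) z) : ℝ) /
            #(cls (cell D n Ω (t0 κ l t) z) (run D n κ l t κ) z))) =
      Real.log (#(cell D n Ω (fun i => if i < l then t i + 1 else tE κ l t i) z) : ℝ) -
        Real.log (#(cell D n Ω (tE κ l t) z) : ℝ) -
      ∑ i ∈ univ.filter (fun i => i < l),
        (Real.log (#(cell D n Ω (Function.update (tE κ l t) i (t i + 1)) z) : ℝ) -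
          Real.log (#(cell D n Ω (tE κ l t) z) : ℝ)) := by
  have hK : cls (cell D n Ω (t0 κ l t) z) (run D n κ l t κ) z = cell D n Ω (tE κ l t) z := by
    rw [cls_run l t κ z z (mem_cell_self hz)]
    rfl
  have hA : ((cell D n Ω (tE κ l t) z).filter fun w =>
      ∀ i : {i : Fin d // i < l}, Yd D n t i.1 w = Yd D n t i.1 z) =
      cell D n Ω (fun i => if i < l then t i + 1 else tE κ l t i) z := by
    ext w
    unfold cell
    simp only [Finset.mem_filter]
    constructor
    · rintro ⟨⟨h1, h2⟩, h3⟩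
      refine ⟨h1, fun i => ?_⟩
      by_cases h : i < l
      · rw [if_pos h, AvgN_hd (ht i)]
        refine ⟨?_, h3 ⟨i, h⟩⟩
        have h4 := h2 i
        unfold tE at h4
        rwa [Function.update_of_ne h.ne] at h4
      · rw [if_neg h]
        exact h2 i
    · rintro ⟨h1, h2⟩
      refine ⟨⟨h1, fun i => ?_⟩, fun i => ?_⟩
      · have h3 := h2 i
        by_cases h : i < l
        · rw [if_pos h, AvgN_hd (ht i)] at h3
          unfold tE
          rw [Function.update_of_ne h.ne]
          exact h3.1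
        · rwa [if_neg h] at h3
      · have h3 := h2 i.1
        rw [if_pos i.2, AvgN_hd (ht i.1)] at h3
        exact h3.2
  have hB : ∀ i : {i : Fin d // i < l}, cls (cell D n Ω (tE κ l t) z) (Yd D n t i.1) z =
      cell D n Ω (Function.update (tE κ l t) i.1 (t i.1 + 1)) z := by
    intro i
    refine cls_dig (ht i.1) ?_ z z (mem_cell_self hz)
    unfold tE
    rw [Function.update_of_ne i.2.ne]
  rw [hK, hA]
  simp only [hB]
  have hp : ∀ s : Fin d → ℕ, (0 : ℝ) < #(cell D n Ω s z) := fun s => by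
    exact_mod_cast Finset.card_pos.2 ⟨z, mem_cell_self hz⟩
  rw [Real.log_div (div_pos (hp _) (hp _)).ne'
    (Finset.prod_pos fun i _ => div_pos (hp _) (hp _)).ne', Real.log_div (hp _).ne' (hp _).ne',
    Real.log_prod (fun i _ => (div_pos (hp _) (hp _)).ne')]
  congr 1
  rw [Finset.sum_subtype (univ.filter fun i : Fin d => i < l) (p := fun i => i < l) (by simp)]
  exact Finset.sum_congr rfl fun i _ => Real.log_div (hp _).ne' (hp _).ne'

private theorem AvgN_g_nonneg (Ω : Finset (Fin d → ℕ)) (l : Fin d) (t z : Fin d → ℕ) :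
    0 ≤ AvgN_g D n κ Ω l t z := by
  unfold AvgN_g
  refine Finset.sum_nonneg fun y _ => ?_
  split_ifs
  · refine Finset.prod_nonneg fun i _ => ?_
    unfold lamW
    positivity
  · exact le_rfl

private theorem AvgN_core (hD : 1 ≤ D) (Ω : Finset (Fin d → ℕ)) (l : Fin d) {t : Fin d → ℕ}
    (ht : ∀ i, t i < n) :
    ∑ τ ∈ range κ, ∑ z ∈ Ω, AvgN_g D n κ Ω l (Function.update t l (κ * (t l / κ) + τ)) z ≤
      2 ^ d * AvgN_br D n κ Ω l t := by
  classical
  set c : ℕ := Fintype.card {i : Fin d // i < l} with hc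
  have hcd : c + 1 ≤ d := by
    have h1 : c < Fintype.card (Fin d) := by
      rw [hc]
      exact Fintype.card_subtype_lt (x := l) (lt_irrefl l)
    rw [Fintype.card_fin] at h1
    omega
  -- the sum of the logarithms
  have hbr : ∑ z ∈ Ω, Real.log ((((cls (cell D n Ω (t0 κ l t) z) (run D n κ l t κ) z).filter fun w =>
        ∀ i : {i : Fin d // i < l}, Yd D n t i.1 w = Yd D n t i.1 z).card : ℝ) /
          #(cls (cell D n Ω (t0 κ l t) z) (run D n κ l t κ) z) /
        ∏ i : {i : Fin d // i < l},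
          ((#(cls (cls (cell D n Ω (t0 κ l t) z) (run D n κ l t κ) z) (Yd D n t i.1) z) : ℝ) /
            #(cls (cell D n Ω (t0 κ l t) z) (run D n κ l t κ) z))) = AvgN_br D n κ Ω l t := by
    rw [Finset.sum_congr rfl fun z hz => AvgN_log Ω l ht hz]
    unfold AvgN_br LN
    rw [Finset.sum_sub_distrib, Finset.sum_sub_distrib, Finset.sum_comm]
    simp only [Finset.sum_sub_distrib]
  -- one cell
  have hcell : ∀ z ∈ Ω, ∑ x ∈ cell D n Ω (t0 κ l t) z, ∑ τ ∈ range κ,
      AvgN_g D n κ Ω l (Function.update t l (κ * (t l / κ) + τ)) x ≤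
      2 ^ (c + 1) * ∑ x ∈ cell D n Ω (t0 κ l t) z,
        Real.log ((((cls (cell D n Ω (t0 κ l t) x) (run D n κ l t κ) x).filter fun w =>
          ∀ i : {i : Fin d // i < l}, Yd D n t i.1 w = Yd D n t i.1 x).card : ℝ) /
            #(cls (cell D n Ω (t0 κ l t) x) (run D n κ l t κ) x) /
          ∏ i : {i : Fin d // i < l},
            ((#(cls (cls (cell D n Ω (t0 κ l t) x) (run D n κ l t κ) x) (Yd D n t i.1) x) : ℝ) /
              #(cls (cell D n Ω (t0 κ l t) x) (run D n κ l t κ) x))) := by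
    intro z hz
    have h1 := newmiss_sum (C := cell D n Ω (t0 κ l t) z) (F := run D n κ l t) (κ := κ)
      (g := 2 * d) (D := D) (fun i : {i : Fin d // i < l} => Yd D n t i.1)
      (fun i w _ => dig_lt hD _ _) (by omega) (fun τ x _ y _ h => by
        unfold run at h ⊢
        exact hd_hd (by omega) h)
    rw [Finset.sum_comm]
    refine le_trans (le_of_eq ?_) (h1.trans (le_of_eq ?_))
    · refine Finset.sum_congr rfl fun τ hτ => Finset.sum_congr rfl fun x hx => ?_
      have hτ' := Finset.mem_range.1 hτ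
      unfold AvgN_g
      refine Finset.sum_congr (by ext y; simp only [Fintype.mem_piFinset]) fun y _ => ?_
      have hcx : cell D n Ω (t0 κ l t) x = cell D n Ω (t0 κ l t) z := cell_congr hx
      have hs0 : Function.update t l (κ * (t l / κ) + τ) l / κ = t l / κ := by
        rw [Function.update_self, AvgN_div hτ']
      have hs1 : Function.update t l (κ * (t l / κ) + τ) l % κ = τ := by
        rw [Function.update_self, AvgN_mod hτ']
      have ht0 : t0 κ l (Function.update t l (κ * (t l / κ) + τ)) = t0 κ l t := by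
        unfold t0
        rw [hs0, Function.update_idem]
      have hrun : run D n κ l (Function.update t l (κ * (t l / κ) + τ)) = run D n κ l t := by
        funext τ' w
        unfold run
        rw [hs0]
      have hYd : ∀ i : {i : Fin d // i < l},
          Yd D n (Function.update t l (κ * (t l / κ) + τ)) i.1 = Yd D n t i.1 := by
        intro i
        funext w
        unfold Yd
        rw [Function.update_of_ne i.2.ne]
      have e1 : cls (cell D n Ω (t0 κ l t) z) (run D n κ l t τ) x =
          cell D n Ω (Function.update t l (κ * (t l / κ) + τ)) x := cls_run l t τ z x hx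
      have e2 : cls (cell D n Ω (t0 κ l t) z) (run D n κ l t (τ + 1)) x =
          cell D n Ω (Function.update (Function.update t l (κ * (t l / κ) + τ)) l
            (Function.update t l (κ * (t l / κ) + τ) l + 1)) x := by
        rw [cls_run l t (τ + 1) z x hx, Function.update_idem, Function.update_self, add_assoc]
      have hiff : NewW D n κ Ω l (Function.update t l (κ * (t l / κ) + τ)) x y ↔
          (Miss (cls (cell D n Ω (t0 κ l t) z) (run D n κ l t (τ + 1)) x)
              (fun i : {i : Fin d // i < l} => Yd D n t i.1) y ∧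
            ¬ Miss (cls (cell D n Ω (t0 κ l t) z) (run D n κ l t τ) x)
              (fun i : {i : Fin d // i < l} => Yd D n t i.1) y ∧
            ∀ i : {i : Fin d // i < l}, ¬ Ex (cell D n Ω (t0 κ l t) z) (run D n κ l t) κ (2 * d)
              (Yd D n t i.1) (τ + 1) x (y i)) := by
        unfold NewW ExW
        rw [e1, e2, hs1, ht0, hrun, hcx]
        simp only [hYd]
      by_cases h : NewW D n κ Ω l (Function.update t l (κ * (t l / κ) + τ)) x y
      · rw [if_pos h, if_pos (hiff.1 h)]
        refine Finset.prod_congr rfl fun i _ => ?_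
        unfold lamW
        rw [ht0, hYd, hcx]
      · rw [if_neg h, if_neg fun h' => h (hiff.2 h')]
    · congr 1
      refine Finset.sum_congr rfl fun x hx => ?_
      rw [cell_congr hx]
  -- all cells
  have hall : ∑ z ∈ Ω, ∑ τ ∈ range κ,
      AvgN_g D n κ Ω l (Function.update t l (κ * (t l / κ) + τ)) z ≤
      2 ^ (c + 1) * AvgN_br D n κ Ω l t := by
    rw [← hbr, ← sum_cell (D := D) (n := n) (Ω := Ω) (t0 κ l t), ← sum_cell (D := D) (n := n)
      (Ω := Ω) (t0 κ l t) (fun z => Real.log _), Finset.mul_sum]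
    refine Finset.sum_le_sum fun z hz => ?_
    rw [← mul_div_assoc]
    exact div_le_div_of_nonneg_right (hcell z hz) (Nat.cast_nonneg _)
  have h0 : 0 ≤ ∑ z ∈ Ω, ∑ τ ∈ range κ,
      AvgN_g D n κ Ω l (Function.update t l (κ * (t l / κ) + τ)) z :=
    Finset.sum_nonneg fun z _ => Finset.sum_nonneg fun τ _ => AvgN_g_nonneg _ _ _ _
  have hb0 : 0 ≤ AvgN_br D n κ Ω l t := by
    have h1 : (0 : ℝ) < 2 ^ (c + 1) := by positivity
    by_contra h
    push Not at h
    have := mul_neg_of_pos_of_neg h1 h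
    linarith
  rw [Finset.sum_comm]
  refine hall.trans (mul_le_mul_of_nonneg_right ?_ hb0)
  exact pow_le_pow_right₀ (by norm_num) hcd

open Classical in
theorem avg_new (hd : 1 ≤ d) (hD : 1 ≤ D) (hκ : 1 ≤ κ) (hQ : 1 ≤ Q) (hn : n = κ * Q)
    (Ω : Finset (Fin d → ℕ)) (l : Fin d) :
    κ * (n * ∑ t ∈ wins d n, ∑ z ∈ Ω, ∑ y ∈ Fintype.piFinset (fun _ : {i : Fin d // i < l} => range D),
      (if NewW D n κ Ω l t z y then ∏ i, lamW D n κ Ω l i.1 t z (y i) else 0)) ≤
      2 ^ d * (d : ℝ) ^ 2 * ((n : ℝ) ^ d * (#Ω * Real.log D)) := by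
  have h1 : ∀ t : Fin d → ℕ, ∀ z, ∑ y ∈ Fintype.piFinset (fun _ : {i : Fin d // i < l} => range D),
      (if NewW D n κ Ω l t z y then ∏ i, lamW D n κ Ω l i.1 t z (y i) else 0) =
        AvgN_g D n κ Ω l t z := fun t z => rfl
  simp only [h1]
  have h2 := tc_sum hD hκ hQ hn Ω l
  have h3 : ∀ t : Fin d → ℕ, (LN D n Ω (fun i => if i < l then t i + 1 else tE κ l t i) -
      LN D n Ω (tE κ l t) - ∑ i ∈ univ.filter (fun i => i < l),
          (LN D n Ω (Function.update (tE κ l t) i (t i + 1)) - LN D n Ω (tE κ l t))) =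
      AvgN_br D n κ Ω l t := fun t => rfl
  simp only [h3] at h2
  have h4 : (κ : ℝ) * (n * ∑ t ∈ wins d n, ∑ z ∈ Ω, AvgN_g D n κ Ω l t z) ≤
      2 ^ d * (n * ∑ t ∈ wins d n, AvgN_br D n κ Ω l t) := by
    rw [wins_upd l (fun t => ∑ z ∈ Ω, AvgN_g D n κ Ω l t z), wins_upd l, Finset.mul_sum,
      Finset.mul_sum]
    refine Finset.sum_le_sum fun t ht => ?_
    rw [mem_wins] at ht
    rw [hn, AvgN_split, AvgN_split, Finset.mul_sum, Finset.mul_sum, ← hn]
    refine Finset.sum_le_sum fun ρ hρ => ?_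
    have hρ' := Finset.mem_range.1 hρ
    have hκρ : κ * ρ < n := by
      rw [hn]
      exact Nat.mul_lt_mul_of_pos_left hρ' (by omega)
    have h5 := AvgN_core (κ := κ) hD Ω l (t := Function.update t l (κ * ρ)) (n := n) (by
      intro i
      by_cases h : i = l
      · rw [h, Function.update_self]
        exact hκρ
      · rw [Function.update_of_ne h]
        exact ht i)
    have h6 : Function.update t l (κ * ρ) l / κ = ρ := by
      rw [Function.update_self, Nat.mul_div_cancel_left _ (by omega)]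
    simp only [h6, Function.update_idem] at h5
    have h7 : ∀ τ ∈ range κ, AvgN_br D n κ Ω l (Function.update t l (κ * ρ + τ)) =
        AvgN_br D n κ Ω l (Function.update t l (κ * ρ)) := by
      intro τ hτ
      have h8 := AvgN_br_congr (D := D) (n := n) Ω l t (ρ := ρ) (Finset.mem_range.1 hτ)
        (show 0 < κ by omega)
      rw [add_zero] at h8
      exact h8
    rw [Finset.sum_congr rfl h7, Finset.sum_const, Finset.card_range, nsmul_eq_mul]
    have h9 : (0 : ℝ) ≤ κ := Nat.cast_nonneg κ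
    calc (κ : ℝ) * ∑ τ ∈ range κ, ∑ z ∈ Ω, AvgN_g D n κ Ω l (Function.update t l (κ * ρ + τ)) z
        ≤ κ * (2 ^ d * AvgN_br D n κ Ω l (Function.update t l (κ * ρ))) :=
          mul_le_mul_of_nonneg_left h5 h9
      _ = 2 ^ d * (κ * AvgN_br D n κ Ω l (Function.update t l (κ * ρ))) := by ring
  refine h4.trans ?_
  calc (2 : ℝ) ^ d * (n * ∑ t ∈ wins d n, AvgN_br D n κ Ω l t)
      ≤ 2 ^ d * ((d : ℝ) ^ 2 * ((n : ℝ) ^ d * (#Ω * Real.log D))) :=
        mul_le_mul_of_nonneg_left h2 (by positivity)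
    _ = 2 ^ d * (d : ℝ) ^ 2 * ((n : ℝ) ^ d * (#Ω * Real.log D)) := by ring

end FHD
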