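import Pool.Agent.FHD.RegS

/-!
# FHD.AvgS: the mean values for a random scale and a random place in every axis

PROOF (`d`-dimensional version of `Pool/Agent/FHA/Avg.lean`).
`avgS_gen`: `ξ ↦ (fun i => ((ξ i).1, (ξ i).2))`; for fixed scales `j i = (ξ i).1 < J` the sum over the places `x i < n ^ J` of a function of
`x i / n ^ (J - j i)` is `∏ n ^ (J - j i)` times the sum over `u i < n ^ j i` (every `u < n ^ j` is taken exactly `n ^ (J-j)` times by
`x ↦ x / n ^ (J - j)`, `x < n ^ J`; see `Avg_one` in `FHA.Avg`).  Possible proof: both sides are sums over functions; write the left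
side as `∑_{j : Fin d → Fin J} ∑_{x : Fin d → Fin (n^J)} F (j, fun i => x i / n ^ (J - j i))` (the equivalence
`(Fin d → α × β) ≃ (Fin d → α) × (Fin d → β)`, `Equiv.arrowProdEquivProdArrow` or `Fintype.sum_equiv`), and for fixed `j`
group the `x` by `u = (x i / n ^ (J - j i))_i` (`Finset.sum_fiberwise_of_maps_to`, the fibres are `piFinset`s of sets with `n ^ (J - j i)` elements).
`avgS_dens`: by `densS_sum` with `a = A - j`, `e = j` the inner sum is `∏ n ^ j i * densS n S A U`; `n ^ (J - j) n ^ j = n ^ J`, and there are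
`J ^ d` scales.
`avgS_irr`: `∏ n ^ (J - j i) = n ^ (J d) / ∏ n ^ j i`, then `regS`; `n ^ (J d) * 6 d J ^ (d-1) φ = (J n ^ J) ^ d * (6 d / J) φ` for `d ≥ 1`
(for `d = 0` all terms are `0`: `irrS` is `0` because `2 x < x` is false for `x ≥ 0`).
-/

set_option autoImplicit false

namespace FHD

open Finset

variable {d : ℕ}

private theorem AvgS_one {n : ℕ} (hn : 1 ≤ n) {J j : ℕ} (hj : j ≤ J) (f : ℕ → ℝ) :
    ∑ x ∈ range (n ^ J), f (x / n ^ (J - j)) = (n : ℝ) ^ (J - j) * ∑ u ∈ range (n ^ j), f u := by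
  have h1 : n ^ J = n ^ j * n ^ (J - j) := by
    rw [← pow_add]
    congr 1
    omega
  rw [h1, FHT.sum_digits, mul_sum]
  refine sum_congr rfl fun u _ => ?_
  have h2 : ∀ i ∈ range (n ^ (J - j)), f ((u * n ^ (J - j) + i) / n ^ (J - j)) = f u := by
    intro i hi
    have h3 : 0 < n ^ (J - j) := pow_pos hn _
    rw [Nat.mul_comm, Nat.mul_add_div h3, Nat.div_eq_of_lt (mem_range.1 hi), add_zero]
  rw [sum_congr rfl h2, sum_const, card_range, nsmul_eq_mul]
  push_cast
  rfl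

private theorem AvgS_xi {n : ℕ} (hn : 1 ≤ n) (J : ℕ) (f : ℕ → ℕ → ℝ) :
    ∑ ξ : Fin J × Fin (n ^ J), f ξ.1 (FHA.ix n J ξ) =
      ∑ j ∈ range J, (n : ℝ) ^ (J - j) * ∑ u ∈ range (n ^ j), f j u := by
  rw [Fintype.sum_prod_type, Finset.sum_range]
  refine sum_congr rfl fun j _ => ?_
  have h1 := AvgS_one hn (le_of_lt j.2) (fun u => f j u)
  rw [← h1, Finset.sum_range]
  rfl

private theorem AvgS_cnt {n : ℕ} (hn : 1 ≤ n) (J : ℕ) {j u : ℕ} (hj : j < J) (hu : u < n ^ j) :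
    ∑ ξ : Fin J × Fin (n ^ J), (if ((ξ.1 : ℕ) = j ∧ FHA.ix n J ξ = u) then (1 : ℝ) else 0) =
      (n : ℝ) ^ (J - j) := by
  rw [AvgS_xi hn J (fun j' u' => if (j' = j ∧ u' = u) then (1 : ℝ) else 0)]
  rw [Finset.sum_eq_single j]
  · rw [Finset.sum_eq_single u]
    · simp
    · intro b _ hb
      simp [hb]
    · intro h
      exact absurd (mem_range.2 hu) h
  · intro b _ hb
    rw [Finset.sum_eq_zero, mul_zero]
    intro x _
    simp [hb]
  · intro h
    exact absurd (mem_range.2 hj) h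

theorem avgS_gen {n : ℕ} (hn : 1 ≤ n) (J : ℕ) (F : (Fin d → ℕ) → (Fin d → ℕ) → ℝ) :
    ∑ ξ : Fin d → Fin J × Fin (n ^ J), F (fun i => (ξ i).1) (fun i => FHA.ix n J (ξ i)) =
      ∑ j ∈ box d J, (∏ i, (n : ℝ) ^ (J - j i)) *
        ∑ u ∈ Fintype.piFinset (fun i => range (n ^ j i)), F j u := by
  classical
  have key : ∀ ξ : Fin d → Fin J × Fin (n ^ J),
      F (fun i => (ξ i).1) (fun i => FHA.ix n J (ξ i)) =
      ∑ j ∈ box d J, ∑ u ∈ Fintype.piFinset (fun i => range (n ^ j i)),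
        F j u * ∏ i, (if (((ξ i).1 : ℕ) = j i ∧ FHA.ix n J (ξ i) = u i) then (1 : ℝ) else 0) := by
    intro ξ
    have hz : ∀ j u : Fin d → ℕ, (∃ i, ¬ (((ξ i).1 : ℕ) = j i ∧ FHA.ix n J (ξ i) = u i)) →
        F j u * ∏ i, (if (((ξ i).1 : ℕ) = j i ∧ FHA.ix n J (ξ i) = u i) then (1 : ℝ) else 0) = 0 := by
      intro j u ⟨i, hi⟩
      rw [Finset.prod_eq_zero (Finset.mem_univ i) (if_neg hi), mul_zero]
    rw [Finset.sum_eq_single (fun i => ((ξ i).1 : ℕ))]
    · rw [Finset.sum_eq_single (fun i => FHA.ix n J (ξ i))]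
      · simp
      · intro u _ hu
        apply hz
        obtain ⟨i, hi⟩ := Function.ne_iff.1 hu
        exact ⟨i, fun h => hi h.2.symm⟩
      · intro h
        exfalso
        apply h
        rw [Fintype.mem_piFinset]
        intro i
        rw [mem_range]
        show ((ξ i).2 : ℕ) / n ^ (J - ((ξ i).1 : ℕ)) < n ^ ((ξ i).1 : ℕ)
        rw [Nat.div_lt_iff_lt_mul (pow_pos hn _), ← pow_add]
        have h1 : ((ξ i).1 : ℕ) + (J - ((ξ i).1 : ℕ)) = J := by
          have := (ξ i).1.2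
          omega
        rw [h1]
        exact (ξ i).2.2
    · intro j _ hj
      apply Finset.sum_eq_zero
      intro u _
      apply hz
      obtain ⟨i, hi⟩ := Function.ne_iff.1 hj
      exact ⟨i, fun h => hi h.1.symm⟩
    · intro h
      exfalso
      apply h
      unfold box
      rw [Fintype.mem_piFinset]
      intro i
      exact mem_range.2 (ξ i).1.2
  rw [sum_congr rfl fun ξ _ => key ξ, sum_comm]
  refine sum_congr rfl fun j hj => ?_
  rw [sum_comm, mul_sum]
  refine sum_congr rfl fun u hu => ?_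
  rw [← mul_sum, mul_comm]
  congr 1
  have h1 := Finset.prod_univ_sum (fun _ : Fin d => (Finset.univ : Finset (Fin J × Fin (n ^ J))))
    (fun i ζ => if (((ζ.1 : ℕ) = j i ∧ FHA.ix n J ζ = u i)) then (1 : ℝ) else 0)
  rw [Fintype.piFinset_univ] at h1
  rw [← h1]
  refine Finset.prod_congr rfl fun i _ => ?_
  unfold box at hj
  exact AvgS_cnt hn J (mem_range.1 (Fintype.mem_piFinset.1 hj i)) (mem_range.1 (Fintype.mem_piFinset.1 hu i))

private theorem AvgS_card (d J : ℕ) : #(box d J) = J ^ d := by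
  unfold box
  rw [Fintype.card_piFinset, Finset.prod_const, card_range, Finset.card_univ, Fintype.card_fin]

private theorem AvgS_prod {n J : ℕ} {j : Fin d → ℕ} (hj : j ∈ box d J) :
    (∏ i, (n : ℝ) ^ (J - j i)) * ∏ i, (n : ℝ) ^ j i = ((n : ℝ) ^ J) ^ d := by
  rw [← Finset.prod_mul_distrib]
  have h1 : ∀ i ∈ (Finset.univ : Finset (Fin d)), (n : ℝ) ^ (J - j i) * (n : ℝ) ^ j i = (n : ℝ) ^ J := by
    intro i _
    unfold box at hj
    have h2 := mem_range.1 (Fintype.mem_piFinset.1 hj i)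
    rw [← pow_add]
    congr 1
    omega
  rw [Finset.prod_congr rfl h1, Finset.prod_const, Finset.card_univ, Fintype.card_fin]

theorem avgS_dens {n : ℕ} (hn : 1 ≤ n) (S : Finset (Fin d → ℕ)) (J : ℕ) (A U : Fin d → ℕ)
    (hA : ∀ i, J ≤ A i) :
    ∑ ξ : Fin d → Fin J × Fin (n ^ J),
      densS n S (fun i => A i - (ξ i).1) (fun i => U i * n ^ ((ξ i).1 : ℕ) + FHA.ix n J (ξ i)) =
    ((J : ℝ) * (n : ℝ) ^ J) ^ d * densS n S A U := by
  rw [avgS_gen hn J (fun j x => densS n S (fun i => A i - j i) (fun i => U i * n ^ j i + x i))]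
  have h1 : ∀ j ∈ box d J, (∏ i, (n : ℝ) ^ (J - j i)) *
      ∑ u ∈ Fintype.piFinset (fun i => range (n ^ j i)),
        densS n S (fun i => A i - j i) (fun i => U i * n ^ j i + u i) =
      ((n : ℝ) ^ J) ^ d * densS n S A U := by
    intro j hj
    rw [densS_sum hn S (fun i => A i - j i) j U, ← mul_assoc, AvgS_prod hj]
    congr 2
    funext i
    unfold box at hj
    have h2 := mem_range.1 (Fintype.mem_piFinset.1 hj i)
    have h3 := hA i
    omega
  rw [sum_congr rfl h1, sum_const, AvgS_card, nsmul_eq_mul, mul_pow, Nat.cast_pow, mul_assoc]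

theorem avgS_irr {n : ℕ} (hn : 1 ≤ n) (S : Finset (Fin d → ℕ)) {J : ℕ} (hJ : 1 ≤ J) (A U : Fin d → ℕ)
    (hA : ∀ i, J ≤ A i) :
    ∑ ξ : Fin d → Fin J × Fin (n ^ J),
      irrS n S (fun i => A i - ((ξ i).1 + 1)) (fun i => U i * n ^ ((ξ i).1 : ℕ) + FHA.ix n J (ξ i)) ≤
    ((J : ℝ) * (n : ℝ) ^ J) ^ d * (6 * d / J * Real.negMulLog (densS n S A U)) := by
  rw [avgS_gen hn J (fun j x => irrS n S (fun i => A i - (j i + 1)) (fun i => U i * n ^ j i + x i))]
  have hn0 : (0 : ℝ) < n := by exact_mod_cast hn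
  have h1 : ∀ j ∈ box d J, (∏ i, (n : ℝ) ^ (J - j i)) *
      ∑ u ∈ Fintype.piFinset (fun i => range (n ^ j i)),
        irrS n S (fun i => A i - (j i + 1)) (fun i => U i * n ^ j i + u i) =
      ((n : ℝ) ^ J) ^ d * ((∑ u ∈ Fintype.piFinset (fun i => range (n ^ j i)),
        irrS n S (fun i => A i - (j i + 1)) (fun i => U i * n ^ j i + u i)) / ∏ i, (n : ℝ) ^ j i) := by
    intro j hj
    have h2 : (∏ i, (n : ℝ) ^ j i) ≠ 0 := Finset.prod_ne_zero_iff.2 fun i _ => pow_ne_zero _ hn0.ne'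
    rw [← AvgS_prod (n := n) hj]
    field_simp
  rw [sum_congr rfl h1, ← mul_sum]
  have hJ0 : (0 : ℝ) < J := by exact_mod_cast hJ
  refine (mul_le_mul_of_nonneg_left (regS hn S hJ A U hA) (by positivity)).trans (le_of_eq ?_)
  rcases Nat.eq_zero_or_pos d with hd | hd
  · subst hd
    simp
  · obtain ⟨e, rfl⟩ : ∃ e, d = e + 1 := ⟨d - 1, by omega⟩
    rw [Nat.add_sub_cancel, mul_pow, pow_succ (J : ℝ) e]
    field_simp

end FHD
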