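import Pool.Agent.FHD.CutD

/-!
# FHD.BalD: balanced refinement of the groups of all axes

PROOF (as `FHA.bal` in `Pool/Agent/FHA/Bal.lean`, whose private lemmas can be copied: `Bal_rk`, `Bal_X0`, `Bal_c`, `Bal_lab_iff`, `Bal_c_mono`,
`Bal_c_card`, `Bal_old`, `Bal_fib`, `Bal_tot`, `Bal_cnt`, `Bal_sum`).
If `d = 0` or `k = 0` everything is trivial (`c = 0`; the sums are `0`).  For an axis `i` let `rank_i x` be the number of the `x' < x` with
`q i x' = q i x` and `X0 i` the set of the `x` with `m ∣ rank_i x`.  `∑_{l ≠ i} √(f i l j) ≤ lam` for all `i`, `j` (for every `l` one term of `hrow` with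
`g = q i (π i j)`, `h = q l (π l j)`).  Take `X` from `cutD`.
Let `c i x = #{y ∈ X i | y ≤ x, q i y = q i x} - 1` (at least one such `y`: the first element of the group of `x` is in `X0 i`).  As `X i` contains
the first element of every group, `lab (X i) x = lab (X i) y` iff (`q i x = q i y` and `c i x = c i y`); so the fibres of `(q i, c i)` are the parts
of `X i`, and a part is contained in a part of `X0 i`, which has at most `m` elements.
SUMS: for `R = {j | q i (π i j) = g, c i (π i j) = x}` the sum in the statement is `rrD π f X i R` (for each `l` the nonempty fibres of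
`lab (X l) ∘ π l` correspond to those of `(q l ∘ π l, c l ∘ π l)`; empty fibres give `√0 = 0`), hence `≤ 9 lam`; it is `0` if `R` is empty.
NUMBER OF PARTS: let `n_(i,g)` be the number of the parts of axis `i` in the group `g`, `M` the maximum of all of them, and suppose
`M > 2 b`, say `M = n_(i,g)`.  At most `b` parts of the group `g` of axis `i` are parts of `X0 i` (the group has at most `b m` elements, so at most
`b` elements of `X0 i`, and different parts of `X i` which are parts of `X0 i` contain different elements of `X0 i`).  So more than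
`M/2` parts `R` of this group have `rrD π f X i R > 7/2 lam`, and the sum of `rrD π f X i R` over the parts `R` of `(i,g)` is
`> (M/2) (7/2) lam ≥ M lam` (if `lam = 0` it is `> 0 = M lam`).  On the other hand this sum is
`∑_{l ≠ i} ∑_h ∑_{parts R of (i,g), parts S of (l,h)} √(∑_{j ∈ R ∩ S} f i l j) ≤ ∑_{l ≠ i} ∑_h √(n_(i,g) n_(l,h)) √(∑_{j in (i,g) and (l,h)} f i l j)
≤ M lam` by Cauchy-Schwarz and `hrow`.  Contradiction.  Hence `c i x < n_(i, q i x) ≤ 2 b`.
-/

set_option autoImplicit false

namespace FHD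

open Finset FHA

private def BalD_rk {k : ℕ} (p : Fin k → ℕ) (i : Fin k) : ℕ :=
  (univ.filter fun i' => i' < i ∧ p i' = p i).card

private def BalD_X0 {k : ℕ} (p : Fin k → ℕ) (m : ℕ) : Finset (Fin k) :=
  univ.filter fun i => m ∣ BalD_rk p i

private def BalD_c {k : ℕ} (p : Fin k → ℕ) (X : Finset (Fin k)) (i : Fin k) : ℕ :=
  (X.filter fun j => j ≤ i ∧ p j = p i).card - 1

private theorem BalD_rk_lt {k : ℕ} {p : Fin k → ℕ} {i j : Fin k} (hij : i < j) (h : p i = p j) :
    BalD_rk p i < BalD_rk p j := by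
  unfold BalD_rk
  refine Finset.card_lt_card ?_
  rw [Finset.ssubset_iff_of_subset]
  · refine ⟨i, ?_, ?_⟩
    · rw [Finset.mem_filter]
      exact ⟨Finset.mem_univ _, hij, h⟩
    · rw [Finset.mem_filter]
      exact fun h' => absurd h'.2.1 (lt_irrefl _)
  · intro x hx
    rw [Finset.mem_filter] at hx ⊢
    exact ⟨hx.1, hx.2.1.trans hij, hx.2.2.trans h⟩

private theorem BalD_rk_inj {k : ℕ} {p : Fin k → ℕ} {i j : Fin k} (h : p i = p j)
    (hr : BalD_rk p i = BalD_rk p j) : i = j := by
  rcases lt_trichotomy i j with h1 | h1 | h1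
  · exact absurd hr (BalD_rk_lt h1 h).ne
  · exact h1
  · exact absurd hr (BalD_rk_lt h1 h.symm).ne'

private theorem BalD_rk_card {k : ℕ} (p : Fin k → ℕ) (i : Fin k) :
    BalD_rk p i < (univ.filter fun j => p j = p i).card := by
  unfold BalD_rk
  refine Finset.card_lt_card ?_
  rw [Finset.ssubset_iff_of_subset]
  · refine ⟨i, ?_, ?_⟩
    · rw [Finset.mem_filter]
      exact ⟨Finset.mem_univ _, rfl⟩
    · rw [Finset.mem_filter]
      exact fun h' => absurd h'.2.1 (lt_irrefl _)
  · intro x hx
    rw [Finset.mem_filter] at hx ⊢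
    exact ⟨hx.1, hx.2.2⟩

private theorem BalD_rk_ex {k : ℕ} (p : Fin k → ℕ) (i : Fin k) (r : ℕ) (hr : r ≤ BalD_rk p i) :
    ∃ j, p j = p i ∧ BalD_rk p j = r ∧ j ≤ i := by
  have h1 : (univ.filter fun j => p j = p i).image (BalD_rk p) =
      range (univ.filter fun j => p j = p i).card := by
    refine Finset.eq_of_subset_of_card_le ?_ ?_
    · intro x hx
      rw [Finset.mem_image] at hx
      obtain ⟨j, hj, rfl⟩ := hx
      rw [Finset.mem_filter] at hj
      rw [Finset.mem_range]
      have := BalD_rk_card p j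
      rwa [hj.2] at this
    · rw [Finset.card_range, Finset.card_image_of_injOn]
      intro x hx y hy hxy
      rw [Finset.mem_coe, Finset.mem_filter] at hx hy
      exact BalD_rk_inj (hx.2.trans hy.2.symm) hxy
  have h2 : r ∈ (univ.filter fun j => p j = p i).image (BalD_rk p) := by
    rw [h1, Finset.mem_range]
    exact hr.trans_lt (BalD_rk_card p i)
  rw [Finset.mem_image] at h2
  obtain ⟨j, hj, hj2⟩ := h2
  rw [Finset.mem_filter] at hj
  refine ⟨j, hj.2, hj2, ?_⟩
  by_contra hcon
  have := BalD_rk_lt (not_le.1 hcon) hj.2.symm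
  omega

private theorem BalD_lab_mono {k : ℕ} (X : Finset (Fin k)) {i j : Fin k} (h : i ≤ j) :
    lab X i ≤ lab X j := by
  unfold lab
  exact Finset.card_le_card fun x hx => by
    rw [Finset.mem_filter] at hx ⊢
    exact ⟨hx.1, hx.2.trans h⟩

private theorem BalD_lab_lt {k : ℕ} {X : Finset (Fin k)} {i j : Fin k} (h : i < j) (hj : j ∈ X) :
    lab X i < lab X j := by
  unfold lab
  refine Finset.card_lt_card ?_
  rw [Finset.ssubset_iff_of_subset]
  · refine ⟨j, Finset.mem_filter.2 ⟨hj, le_rfl⟩, ?_⟩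
    rw [Finset.mem_filter]
    exact fun h' => absurd h (not_lt.2 h'.2)
  · intro y hy
    rw [Finset.mem_filter] at hy ⊢
    exact ⟨hy.1, hy.2.trans h.le⟩

private theorem BalD_lab_le {k : ℕ} (X : Finset (Fin k)) (i : Fin k) : lab X i ≤ k := by
  unfold lab
  exact (Finset.card_le_univ _).trans (by rw [Fintype.card_fin])

private theorem BalD_rep {k m : ℕ} {p : Fin k → ℕ} (hp : Monotone p)
    {X : Finset (Fin k)} (hX : BalD_X0 p m ⊆ X) (i : Fin k) :
    ∃ j ∈ X, j ≤ i ∧ p j = p i ∧ lab X j = lab X i := by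
  obtain ⟨j0, h1, h2, h3⟩ := BalD_rk_ex p i 0 (Nat.zero_le _)
  have h4 : j0 ∈ X := hX (Finset.mem_filter.2 ⟨Finset.mem_univ _, by rw [h2]; exact dvd_zero m⟩)
  have hne : (X.filter fun j => j ≤ i).Nonempty := ⟨j0, Finset.mem_filter.2 ⟨h4, h3⟩⟩
  obtain ⟨j, hj⟩ : ∃ j, j = (X.filter fun j => j ≤ i).max' hne := ⟨_, rfl⟩
  have hj1 : j ∈ X.filter fun j => j ≤ i := hj ▸ Finset.max'_mem _ hne
  have hj2 : ∀ x ∈ X, x ≤ i → x ≤ j := fun x hx hxi =>
    hj ▸ Finset.le_max' _ x (Finset.mem_filter.2 ⟨hx, hxi⟩)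
  rw [Finset.mem_filter] at hj1
  refine ⟨j, hj1.1, hj1.2, ?_, ?_⟩
  · have a1 := hp (hj2 j0 h4 h3)
    have a2 := hp hj1.2
    omega
  · unfold lab
    congr 1
    ext x
    rw [Finset.mem_filter, Finset.mem_filter]
    exact ⟨fun h => ⟨h.1, h.2.trans hj1.2⟩, fun h => ⟨h.1, hj2 x h.1 h.2⟩⟩

private theorem BalD_one {k m : ℕ} {p : Fin k → ℕ} {X : Finset (Fin k)}
    (hX : BalD_X0 p m ⊆ X) (i : Fin k) : 1 ≤ (X.filter fun j => j ≤ i ∧ p j = p i).card := by
  obtain ⟨j0, h1, h2, h3⟩ := BalD_rk_ex p i 0 (Nat.zero_le _)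
  have h4 : j0 ∈ X := hX (Finset.mem_filter.2 ⟨Finset.mem_univ _, by rw [h2]; exact dvd_zero m⟩)
  exact Finset.card_pos.2 ⟨j0, Finset.mem_filter.2 ⟨h4, h3, h1⟩⟩

private theorem BalD_lab_iff {k m : ℕ} {p : Fin k → ℕ} (hp : Monotone p)
    {X : Finset (Fin k)} (hX : BalD_X0 p m ⊆ X) (i j : Fin k) :
    lab X i = lab X j ↔ p i = p j ∧ BalD_c p X i = BalD_c p X j := by
  have key : ∀ i j : Fin k, i ≤ j → (lab X i = lab X j ↔ p i = p j ∧ BalD_c p X i = BalD_c p X j) := by
    intro i j hij
    constructor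
    · intro h
      obtain ⟨i', hi1, hi2, hi3, hi4⟩ := BalD_rep hp hX i
      obtain ⟨j', hj1, hj2, hj3, hj4⟩ := BalD_rep hp hX j
      have hpe : p i = p j := by
        rw [← hi3, ← hj3]
        rcases lt_trichotomy i' j' with h1 | h1 | h1
        · have := BalD_lab_lt h1 hj1
          omega
        · rw [h1]
        · have := BalD_lab_lt h1 hi1
          omega
      refine ⟨hpe, ?_⟩
      unfold BalD_c
      congr 2
      ext x
      rw [Finset.mem_filter, Finset.mem_filter]
      constructor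
      · rintro ⟨h1, h2, h3⟩
        exact ⟨h1, h2.trans hij, h3.trans hpe⟩
      · rintro ⟨h1, h2, h3⟩
        refine ⟨h1, ?_, h3.trans hpe.symm⟩
        by_contra hcon
        have a1 := BalD_lab_lt (not_le.1 hcon) h1
        have a2 := BalD_lab_mono X h2
        omega
    · rintro ⟨hpe, hc⟩
      have b1 := BalD_one hX i
      have b2 := BalD_one hX j
      unfold BalD_c at hc
      have hsub : (X.filter fun x => x ≤ i ∧ p x = p i) ⊆ X.filter fun x => x ≤ j ∧ p x = p j := by
        intro x hx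
        rw [Finset.mem_filter] at hx ⊢
        exact ⟨hx.1, hx.2.1.trans hij, hx.2.2.trans hpe⟩
      have heq := Finset.eq_of_subset_of_card_le hsub (by omega)
      unfold lab
      congr 1
      ext x
      rw [Finset.mem_filter, Finset.mem_filter]
      constructor
      · rintro ⟨h1, h2⟩
        exact ⟨h1, h2.trans hij⟩
      · rintro ⟨h1, h2⟩
        refine ⟨h1, ?_⟩
        by_contra hcon
        have a1 := hp (not_le.1 hcon).le
        have a2 := hp h2
        have a3 : x ∈ X.filter fun x => x ≤ j ∧ p x = p j :=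
          Finset.mem_filter.2 ⟨h1, h2, by omega⟩
        rw [← heq, Finset.mem_filter] at a3
        exact hcon a3.2.1
  rcases le_total i j with h | h
  · exact key i j h
  · rw [eq_comm, key j i h, eq_comm (a := p i), eq_comm (a := BalD_c p X i)]

private theorem BalD_c_mono {k : ℕ} (p : Fin k → ℕ) (X : Finset (Fin k)) (i j : Fin k)
    (h : i ≤ j) (hpe : p i = p j) : BalD_c p X i ≤ BalD_c p X j := by
  unfold BalD_c
  refine Nat.sub_le_sub_right (Finset.card_le_card ?_) 1
  intro x hx
  rw [Finset.mem_filter] at hx ⊢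
  exact ⟨hx.1, hx.2.1.trans h, hx.2.2.trans hpe⟩

private theorem BalD_c_card {k m : ℕ} (hm : 1 ≤ m) {p : Fin k → ℕ} (hp : Monotone p)
    {X : Finset (Fin k)} (hX : BalD_X0 p m ⊆ X) (g x : ℕ) :
    (univ.filter fun i => p i = g ∧ BalD_c p X i = x).card ≤ m := by
  have key : ∀ i j : Fin k, i ≤ j → p i = p j → lab X i = lab X j →
      BalD_rk p i / m = BalD_rk p j / m := by
    intro i j hij hpe hl
    have hle : BalD_rk p i ≤ BalD_rk p j := by
      rcases hij.lt_or_eq with h | h
      · exact (BalD_rk_lt h hpe).le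
      · rw [h]
    refine le_antisymm (Nat.div_le_div_right hle) ?_
    by_contra hcon
    rw [not_le] at hcon
    obtain ⟨y, hy1, hy2, hy3⟩ := BalD_rk_ex p j (m * (BalD_rk p j / m)) (Nat.mul_div_le _ _)
    have hyX : y ∈ X := hX (Finset.mem_filter.2 ⟨Finset.mem_univ _, by rw [hy2]; exact dvd_mul_right _ _⟩)
    have h1 : BalD_rk p i < BalD_rk p y := by
      rw [hy2]
      have a1 := Nat.lt_mul_div_succ (BalD_rk p i) (show 0 < m by omega)
      have a2 : m * (BalD_rk p i / m + 1) ≤ m * (BalD_rk p j / m) := Nat.mul_le_mul_left _ hcon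
      omega
    have h2 : i < y := by
      by_contra h3
      rcases (not_lt.1 h3).lt_or_eq with h4 | h4
      · have := BalD_rk_lt h4 (hy1.trans hpe.symm)
        omega
      · rw [h4] at h1
        exact absurd h1 (lt_irrefl _)
    have a1 := BalD_lab_lt h2 hyX
    have a2 := BalD_lab_mono X hy3
    omega
  have h2 : (univ.filter fun i => p i = g ∧ BalD_c p X i = x).card ≤ (range m).card := by
    refine Finset.card_le_card_of_injOn (fun i => BalD_rk p i % m) ?_ ?_
    · intro i _
      rw [Finset.mem_coe, Finset.mem_range]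
      exact Nat.mod_lt _ (by omega)
    · intro i hi j hj hij
      rw [Finset.mem_coe, Finset.mem_filter] at hi hj
      have hpe : p i = p j := hi.2.1.trans hj.2.1.symm
      have hl : lab X i = lab X j := (BalD_lab_iff hp hX i j).2 ⟨hpe, hi.2.2.trans hj.2.2.symm⟩
      have hd : BalD_rk p i / m = BalD_rk p j / m := by
        rcases le_total i j with h | h
        · exact key i j h hpe hl
        · exact (key j i h hpe.symm hl.symm).symm
      refine BalD_rk_inj hpe ?_
      have e1 := Nat.div_add_mod (BalD_rk p i) m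
      have e2 := Nat.div_add_mod (BalD_rk p j) m
      simp only at hij
      rw [hd, hij] at e1
      omega
  rwa [Finset.card_range] at h2

private theorem BalD_c_lt {k m : ℕ} {p : Fin k → ℕ} {X : Finset (Fin k)}
    (hX : BalD_X0 p m ⊆ X) (i : Fin k) : BalD_c p X i < (X.filter fun j => p j = p i).card := by
  have h1 := BalD_one hX i
  have h2 : (X.filter fun j => j ≤ i ∧ p j = p i).card ≤ (X.filter fun j => p j = p i).card := by
    refine Finset.card_le_card ?_
    intro x hx
    rw [Finset.mem_filter] at hx ⊢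
    exact ⟨hx.1, hx.2.2⟩
  unfold BalD_c
  omega

private theorem BalD_mem_part {k : ℕ} {X : Finset (Fin k)} {i x : Fin k} :
    x ∈ part X i ↔ lab X x = lab X i := by
  unfold part
  simp

private theorem BalD_old {k b m : ℕ} (hm : 1 ≤ m) {p : Fin k → ℕ} (hp : Monotone p)
    {X : Finset (Fin k)} (g : ℕ) (hpm : (univ.filter fun i => p i = g).card ≤ b * m) :
    (X.filter fun j => p j = g ∧ part X j = part (BalD_X0 p m) j).card ≤ b := by
  have h2 : (X.filter fun j => p j = g ∧ part X j = part (BalD_X0 p m) j).card ≤ (range b).card := by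
    have hin : ∀ j ∈ X.filter (fun j => p j = g ∧ part X j = part (BalD_X0 p m) j),
        j ∈ BalD_X0 p m ∧ p j = g := by
      intro j hj
      rw [Finset.mem_filter] at hj
      refine ⟨?_, hj.2.1⟩
      obtain ⟨x, hx1, hx2, hx3, hx4⟩ := BalD_rep hp (Finset.Subset.refl (BalD_X0 p m)) j
      have h1 : x ∈ part X j := by
        rw [hj.2.2]
        exact BalD_mem_part.2 hx4
      rw [BalD_mem_part] at h1
      rcases hx2.lt_or_eq with h3 | h3
      · have := BalD_lab_lt h3 hj.1
        omega
      · rwa [← h3]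
    refine Finset.card_le_card_of_injOn (fun i => BalD_rk p i / m) ?_ ?_
    · intro i hi
      rw [Finset.mem_coe] at hi
      rw [Finset.mem_coe, Finset.mem_range]
      obtain ⟨h1, h3⟩ := hin i hi
      have h4 := BalD_rk_card p i
      rw [h3] at h4
      exact (Nat.div_lt_iff_lt_mul (by omega)).2 (h4.trans_le hpm)
    · intro i hi j hj hij
      rw [Finset.mem_coe] at hi hj
      obtain ⟨h1, h3⟩ := hin i hi
      obtain ⟨h4, h5⟩ := hin j hj
      refine BalD_rk_inj (h3.trans h5.symm) ?_
      have d1 := (Finset.mem_filter.1 h1).2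
      have d2 := (Finset.mem_filter.1 h4).2
      have e1 := Nat.div_mul_cancel d1
      have e2 := Nat.div_mul_cancel d2
      simp only at hij
      rw [← e1, ← e2, hij]
  rwa [Finset.card_range] at h2

private theorem BalD_fib {ι α β : Type} [DecidableEq ι] [DecidableEq α] [DecidableEq β]
    (S : Finset ι) (φ : ι → α) (ψ : ι → β) (A : Finset α) (C : Finset β)
    (hC : ∀ i ∈ S, ψ i ∈ C) (h : ∀ i ∈ S, ∀ j ∈ S, φ i = φ j ↔ ψ i = ψ j) (f : ι → ℝ) :
    ∑ a ∈ A, √(∑ i ∈ S.filter (fun i => φ i = a), f i) ≤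
      ∑ c ∈ C, √(∑ i ∈ S.filter (fun i => ψ i = c), f i) := by
  classical
  rcases S.eq_empty_or_nonempty with rfl | ⟨i0, hi0⟩
  · simp
  obtain ⟨τ, hτ⟩ : ∃ τ : α → β, ∀ i ∈ S, τ (φ i) = ψ i := by
    refine ⟨fun a => if h : ∃ i ∈ S, φ i = a then ψ h.choose else ψ i0, ?_⟩
    intro i hi
    have h1 : ∃ i' ∈ S, φ i' = φ i := ⟨i, hi, rfl⟩
    simp only [dif_pos h1]
    have h2 := h1.choose_spec
    exact (h _ h2.1 _ hi).1 h2.2
  have h1 : ∑ a ∈ A, √(∑ i ∈ S.filter (fun i => φ i = a), f i) =
      ∑ a ∈ A.filter (fun a => ∃ i ∈ S, φ i = a), √(∑ i ∈ S.filter (fun i => φ i = a), f i) := by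
    refine (Finset.sum_filter_of_ne ?_).symm
    intro a _ hne
    by_contra hcon
    apply hne
    rw [Finset.filter_false_of_mem, Finset.sum_empty, Real.sqrt_zero]
    exact fun i hi hia => hcon ⟨i, hi, hia⟩
  have h2 : ∑ a ∈ A.filter (fun a => ∃ i ∈ S, φ i = a), √(∑ i ∈ S.filter (fun i => φ i = a), f i) =
      ∑ a ∈ A.filter (fun a => ∃ i ∈ S, φ i = a), √(∑ i ∈ S.filter (fun i => ψ i = τ a), f i) := by
    refine Finset.sum_congr rfl fun a ha => ?_
    obtain ⟨i, hi, rfl⟩ := (Finset.mem_filter.1 ha).2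
    rw [hτ i hi]
    congr 2
    refine Finset.filter_congr fun j hj => ?_
    exact h j hj i hi
  rw [h1, h2]
  have h3 : ∑ a ∈ A.filter (fun a => ∃ i ∈ S, φ i = a), √(∑ i ∈ S.filter (fun i => ψ i = τ a), f i) =
      ∑ c ∈ (A.filter (fun a => ∃ i ∈ S, φ i = a)).image τ,
        √(∑ i ∈ S.filter (fun i => ψ i = c), f i) := by
    rw [Finset.sum_image]
    intro a ha a' ha' haa
    rw [Finset.mem_coe] at ha ha'
    obtain ⟨i, hi, rfl⟩ := (Finset.mem_filter.1 ha).2
    obtain ⟨j, hj, rfl⟩ := (Finset.mem_filter.1 ha').2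
    rw [hτ i hi, hτ j hj] at haa
    exact (h i hi j hj).2 haa
  rw [h3]
  refine Finset.sum_le_sum_of_subset_of_nonneg ?_ fun _ _ _ => Real.sqrt_nonneg _
  intro c hc
  rw [Finset.mem_image] at hc
  obtain ⟨a, ha, rfl⟩ := hc
  obtain ⟨i, hi, rfl⟩ := (Finset.mem_filter.1 ha).2
  rw [hτ i hi]
  exact hC i hi

/-- the total of the sums over the parts of a group -/
private theorem BalD_tot {k N m : ℕ} (σ : Equiv.Perm (Fin k)) (f : Fin k → ℝ) (hf : ∀ i, 0 ≤ f i)
    {p q : Fin k → ℕ} (hp : Monotone p) (hq : Monotone q)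
    (hqN : ∀ i, q i < N) {lam : ℝ} {X Y : Finset (Fin k)}
    (hX : BalD_X0 p m ⊆ X) (hY : BalD_X0 q m ⊆ Y) (g : ℕ)
    (hrow : ∑ h ∈ range N, √(∑ i ∈ univ.filter (fun i => p i = g ∧ q (σ i) = h), f i) ≤ lam)
    (hmax : ∀ h, (Y.filter fun j => q j = h).card ≤ (X.filter fun j => p j = g).card) :
    ∑ j ∈ X.filter (fun j => p j = g), rr σ f Y (part X j) ≤
      ((X.filter fun j => p j = g).card : ℝ) * lam := by
  obtain ⟨M, hM⟩ : ∃ M, M = (X.filter fun j => p j = g).card := ⟨_, rfl⟩
  rw [← hM]
  choose r hr1 hr2 hr3 hr4 using fun i => BalD_rep hq hY i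
  have hruniq : ∀ x y, lab Y x = lab Y y ↔ r x = r y := by
    intro x y
    constructor
    · intro h
      rcases lt_trichotomy (r x) (r y) with h1 | h1 | h1
      · have := BalD_lab_lt h1 (hr1 y)
        have := hr4 x
        have := hr4 y
        omega
      · exact h1
      · have := BalD_lab_lt h1 (hr1 x)
        have := hr4 x
        have := hr4 y
        omega
    · intro h
      rw [← hr4 x, ← hr4 y, h]
  have hstep1 : ∀ j ∈ X.filter (fun j => p j = g), rr σ f Y (part X j) ≤
      ∑ h ∈ range N, ∑ y ∈ Y.filter (fun y => q y = h),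
        √(∑ i ∈ (part X j).filter (fun i => r (σ i) = y), f i) := by
    intro j hj
    have h1 : rr σ f Y (part X j) ≤ ∑ y ∈ Y, √(∑ i ∈ (part X j).filter (fun i => r (σ i) = y), f i) := by
      unfold rr
      refine BalD_fib (part X j) (fun i => lab Y (σ i)) (fun i => r (σ i)) (range (k + 1)) Y
        (fun i _ => hr1 _) ?_ f
      intro i _ i' _
      exact hruniq _ _
    refine h1.trans (le_of_eq ?_)
    exact (Finset.sum_fiberwise_of_maps_to
      (s := Y) (t := range N) (g := q) (fun y _ => Finset.mem_range.2 (hqN y)) _).symm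
  refine (Finset.sum_le_sum hstep1).trans ?_
  rw [Finset.sum_comm]
  have hstep2 : ∀ h ∈ range N, ∑ j ∈ X.filter (fun j => p j = g), ∑ y ∈ Y.filter (fun y => q y = h),
        √(∑ i ∈ (part X j).filter (fun i => r (σ i) = y), f i) ≤
      (M : ℝ) * √(∑ i ∈ univ.filter (fun i => p i = g ∧ q (σ i) = h), f i) := by
    intro h _
    rw [← Finset.sum_product']
    obtain ⟨A, hA⟩ : ∃ A, A = (X.filter fun j => p j = g) ×ˢ (Y.filter fun y => q y = h) := ⟨_, rfl⟩
    rw [← hA]
    have hw : ∀ z ∈ A, 0 ≤ ∑ i ∈ (part X z.1).filter (fun i => r (σ i) = z.2), f i :=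
      fun z _ => Finset.sum_nonneg fun i _ => hf i
    have hcs := sq_sum_le_card_mul_sum_sq (s := A)
      (f := fun z => √(∑ i ∈ (part X z.1).filter (fun i => r (σ i) = z.2), f i))
    have hcard : (A.card : ℝ) ≤ (M : ℝ) ^ 2 := by
      rw [hA, Finset.card_product, ← hM, pow_two]
      have := hmax h
      rw [← hM] at this
      exact_mod_cast Nat.mul_le_mul_left M this
    have hsum : ∑ z ∈ A, √(∑ i ∈ (part X z.1).filter (fun i => r (σ i) = z.2), f i) ^ 2 ≤
        ∑ i ∈ univ.filter (fun i => p i = g ∧ q (σ i) = h), f i := by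
      have e1 : ∑ z ∈ A, √(∑ i ∈ (part X z.1).filter (fun i => r (σ i) = z.2), f i) ^ 2 =
          ∑ z ∈ A, ∑ i ∈ (part X z.1).filter (fun i => r (σ i) = z.2), f i :=
        Finset.sum_congr rfl fun z hz => Real.sq_sqrt (hw z hz)
      rw [e1, ← Finset.sum_biUnion]
      · refine Finset.sum_le_sum_of_subset_of_nonneg ?_ fun i _ _ => hf i
        intro i hi
        rw [Finset.mem_biUnion] at hi
        obtain ⟨z, hz, hi⟩ := hi
        rw [hA, Finset.mem_product, Finset.mem_filter, Finset.mem_filter] at hz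
        rw [Finset.mem_filter, BalD_mem_part] at hi
        rw [Finset.mem_filter]
        refine ⟨Finset.mem_univ _, ?_, ?_⟩
        · exact ((BalD_lab_iff hp hX _ _).1 hi.1).1.trans hz.1.2
        · rw [← hr3 (σ i), hi.2]
          exact hz.2.2
      · intro z hz z' hz' hne
        rw [Finset.mem_coe, hA, Finset.mem_product, Finset.mem_filter, Finset.mem_filter] at hz hz'
        rw [Function.onFun, Finset.disjoint_left]
        intro i hi hi'
        rw [Finset.mem_filter, BalD_mem_part] at hi hi'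
        apply hne
        refine Prod.ext ?_ (hi.2.symm.trans hi'.2)
        have h1 : lab X z.1 = lab X z'.1 := hi.1.symm.trans hi'.1
        rcases lt_trichotomy z.1 z'.1 with h2 | h2 | h2
        · have := BalD_lab_lt h2 hz'.1.1
          omega
        · exact h2
        · have := BalD_lab_lt h2 hz.1.1
          omega
    have hT : 0 ≤ ∑ i ∈ univ.filter (fun i => p i = g ∧ q (σ i) = h), f i :=
      Finset.sum_nonneg fun i _ => hf i
    refine abs_le_of_sq_le_sq' ?_ (by positivity) |>.2
    rw [mul_pow, Real.sq_sqrt hT]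
    refine hcs.trans ?_
    exact mul_le_mul hcard hsum (Finset.sum_nonneg fun z _ => sq_nonneg _) (by positivity)
  refine (Finset.sum_le_sum hstep2).trans ?_
  rw [← Finset.mul_sum]
  exact mul_le_mul_of_nonneg_left hrow (Nat.cast_nonneg _)


private theorem BalD_cnt {k b m : ℕ} (hm : 1 ≤ m) {p : Fin k → ℕ} (hp : Monotone p)
    {lam : ℝ} (hlam : 0 ≤ lam) {X : Finset (Fin k)} (g : ℕ)
    (hpm : (univ.filter fun i => p i = g).card ≤ b * m) (RR : Fin k → ℝ) (hRR0 : ∀ j, 0 ≤ RR j)
    (hdich : ∀ i, part X i = part (BalD_X0 p m) i ∨ 7 / 2 * lam < RR i)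
    (htot : ∑ j ∈ X.filter (fun j => p j = g), RR j ≤
      ((X.filter fun j => p j = g).card : ℝ) * lam) :
    (X.filter fun j => p j = g).card ≤ 2 * b := by
  by_contra hcon
  rw [not_le] at hcon
  have hold := BalD_old hm hp (X := X) g hpm
  classical
  obtain ⟨P, hP⟩ : ∃ P, P = X.filter fun j => p j = g := ⟨_, rfl⟩
  rw [← hP] at htot hcon
  have hsplit := Finset.card_filter_add_card_filter_not (s := P)
    (fun j => part X j = part (BalD_X0 p m) j)
  have hold' : (P.filter fun j => part X j = part (BalD_X0 p m) j).card ≤ b := by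
    rw [hP, Finset.filter_filter]
    exact hold
  obtain ⟨Q, hQ⟩ : ∃ Q, Q = P.filter fun j => ¬ part X j = part (BalD_X0 p m) j := ⟨_, rfl⟩
  rw [← hQ] at hsplit
  have hcard : P.card < 2 * Q.card := by omega
  have hcard' : (P.card : ℝ) < 2 * (Q.card : ℝ) := by exact_mod_cast hcard
  have h1 : ∑ j ∈ Q, RR j ≤ ∑ j ∈ P, RR j := by
    refine Finset.sum_le_sum_of_subset_of_nonneg ?_ fun j _ _ => hRR0 j
    rw [hQ]
    exact Finset.filter_subset _ _
  have hQne : Q.Nonempty := by
    rw [← Finset.card_pos]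
    omega
  have h2 : ∑ j ∈ Q, 7 / 2 * lam < ∑ j ∈ Q, RR j := by
    refine Finset.sum_lt_sum_of_nonempty hQne fun j hj => ?_
    rw [hQ, Finset.mem_filter] at hj
    rcases hdich j with h3 | h3
    · exact absurd h3 hj.2
    · exact h3
  rw [Finset.sum_const, nsmul_eq_mul] at h2
  nlinarith [mul_le_mul_of_nonneg_right hcard'.le hlam, mul_nonneg (Nat.cast_nonneg (α := ℝ) Q.card) hlam]

/-- the permutation from the coordinate of axis `i` to that of axis `l` -/
private def BalD_sg {d k : ℕ} (π : Fin d → Equiv.Perm (Fin k)) (i l : Fin d) : Equiv.Perm (Fin k) :=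
  (π i).symm.trans (π l)

private theorem BalD_partD {d k : ℕ} (π : Fin d → Equiv.Perm (Fin k)) (X : Fin d → Finset (Fin k))
    (i : Fin d) (j : Fin k) : partD π X i j = (part (X i) (π i j)).image (π i).symm := by
  ext j'
  unfold partD
  rw [Finset.mem_filter, Finset.mem_image]
  constructor
  · rintro ⟨-, h⟩
    exact ⟨π i j', BalD_mem_part.2 h, Equiv.symm_apply_apply _ _⟩
  · rintro ⟨x, hx, rfl⟩
    rw [BalD_mem_part] at hx
    refine ⟨Finset.mem_univ _, ?_⟩
    rw [Equiv.apply_symm_apply, hx]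

private theorem BalD_rr {d k : ℕ} (π : Fin d → Equiv.Perm (Fin k)) (f : Fin d → Fin d → Fin k → ℝ)
    (X : Fin d → Finset (Fin k)) (i : Fin d) (j : Fin k) :
    rrD π f X i (partD π X i j) = ∑ l ∈ univ.erase i,
      rr (BalD_sg π i l) (fun x => f i l ((π i).symm x)) (X l) (part (X i) (π i j)) := by
  unfold rrD rr
  refine Finset.sum_congr rfl fun l _ => Finset.sum_congr rfl fun c _ => ?_
  congr 1
  rw [BalD_partD, Finset.filter_image, Finset.sum_image]
  · refine Finset.sum_congr ?_ fun x _ => rfl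
    refine Finset.filter_congr fun x _ => ?_
    rfl
  · intro x _ y _ h
    exact (π i).symm.injective h

theorem balD {d k N b m : ℕ} (π : Fin d → Equiv.Perm (Fin k)) (f : Fin d → Fin d → Fin k → ℝ)
    (hf : ∀ i l j, 0 ≤ f i l j) (q : Fin d → Fin k → ℕ) (hq : ∀ i, Monotone (q i)) (hqN : ∀ i x, q i x < N)
    (hb : 1 ≤ b) (hm : 1 ≤ m) (hqm : ∀ i g, #(univ.filter fun x => q i x = g) ≤ b * m)
    {lam : ℝ} (hlam : 0 ≤ lam)
    (hrow : ∀ i, ∀ g < N, ∑ l ∈ univ.erase i, ∑ h ∈ range N,
      √(∑ j ∈ univ.filter (fun j => q i (π i j) = g ∧ q l (π l j) = h), f i l j) ≤ lam) :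
    ∃ c : Fin d → Fin k → ℕ, (∀ i x, c i x < 2 * b) ∧
      (∀ i x y, x ≤ y → q i x = q i y → c i x ≤ c i y) ∧
      (∀ i g x, #(univ.filter fun y => q i y = g ∧ c i y = x) ≤ m) ∧
      (∀ i, ∀ g < N, ∀ x < 2 * b, ∑ l ∈ univ.erase i, ∑ h ∈ range N, ∑ y ∈ range (2 * b),
        √(∑ j ∈ univ.filter (fun j => (q i (π i j) = g ∧ c i (π i j) = x) ∧
          q l (π l j) = h ∧ c l (π l j) = y), f i l j) ≤ 9 * lam) := by
  have hfl : ∀ i j, ∑ l ∈ univ.erase i, √(f i l j) ≤ lam := by
    intro i j
    refine le_trans (Finset.sum_le_sum fun l _ => ?_) (hrow i (q i (π i j)) (hqN i _))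
    have h2 : √(∑ j' ∈ univ.filter (fun j' => q i (π i j') = q i (π i j) ∧
        q l (π l j') = q l (π l j)), f i l j') ≤
        ∑ h ∈ range N, √(∑ j' ∈ univ.filter (fun j' => q i (π i j') = q i (π i j) ∧
          q l (π l j') = h), f i l j') :=
      Finset.single_le_sum (f := fun h => √(∑ j' ∈ univ.filter (fun j' => q i (π i j') = q i (π i j) ∧
          q l (π l j') = h), f i l j'))
        (fun h _ => Real.sqrt_nonneg _) (Finset.mem_range.2 (hqN l (π l j)))
    refine le_trans (Real.sqrt_le_sqrt ?_) h2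
    exact Finset.single_le_sum (f := f i l) (fun j' _ => hf i l j')
      (Finset.mem_filter.2 ⟨Finset.mem_univ _, rfl, rfl⟩)
  obtain ⟨X, hX, hrr, hdich⟩ := cutD π f hf hfl (fun i => BalD_X0 (q i) m)
  have hRR : ∀ i x, rrD π f X i (partD π X i ((π i).symm x)) = ∑ l ∈ univ.erase i,
      rr (BalD_sg π i l) (fun x => f i l ((π i).symm x)) (X l) (part (X i) x) := by
    intro i x
    rw [BalD_rr, Equiv.apply_symm_apply]
  -- numbers of parts
  have hbound : ∀ i g, ((X i).filter fun j => q i j = g).card ≤ 2 * b := by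
    by_contra hcon
    obtain ⟨M, hM⟩ : ∃ M, M = (univ ×ˢ range N : Finset (Fin d × ℕ)).sup
      fun z => ((X z.1).filter fun j => q z.1 j = z.2).card := ⟨_, rfl⟩
    have hM1 : ∀ i g, ((X i).filter fun j => q i j = g).card ≤ M := by
      intro i g
      by_cases hg : g < N
      · rw [hM]
        exact Finset.le_sup (f := fun z : Fin d × ℕ => ((X z.1).filter fun j => q z.1 j = z.2).card)
          (b := ((i, g) : Fin d × ℕ)) (Finset.mem_product.2 ⟨Finset.mem_univ i, Finset.mem_range.2 hg⟩)
      · rw [Finset.filter_false_of_mem, Finset.card_empty]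
        · exact Nat.zero_le _
        · intro j _ hj
          exact hg (hj ▸ hqN i j)
    have hbig : 2 * b < M := by
      by_contra h1
      rw [not_lt] at h1
      exact hcon fun i g => (hM1 i g).trans h1
    have hne : (univ ×ˢ range N : Finset (Fin d × ℕ)).Nonempty := by
      rw [Finset.nonempty_iff_ne_empty]
      intro h1
      rw [h1] at hM
      simp at hM
      omega
    obtain ⟨z, hz, hzM⟩ := Finset.exists_mem_eq_sup (univ ×ˢ range N : Finset (Fin d × ℕ)) hne
      (fun z => ((X z.1).filter fun j => q z.1 j = z.2).card)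
    obtain ⟨i, g⟩ := z
    rw [Finset.mem_product, Finset.mem_range] at hz
    have hg : g < N := hz.2
    have hgM : M = ((X i).filter fun j => q i j = g).card := hM.trans hzM
    have hcnt := BalD_cnt hm (hq i) hlam (X := X i) g (hqm i g)
      (fun x => rrD π f X i (partD π X i ((π i).symm x))) ?_ ?_ ?_
    · omega
    · intro x
      unfold rrD
      exact Finset.sum_nonneg fun _ _ => Finset.sum_nonneg fun _ _ => Real.sqrt_nonneg _
    · intro x
      rcases hdich i ((π i).symm x) with h1 | h1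
      · left
        rw [BalD_partD, BalD_partD, Equiv.apply_symm_apply] at h1
        exact Finset.image_injective (π i).symm.injective h1
      · right
        exact h1
    · have hlr : ∀ l ∈ univ.erase i, ∑ x ∈ (X i).filter (fun x => q i x = g),
          rr (BalD_sg π i l) (fun x => f i l ((π i).symm x)) (X l) (part (X i) x) ≤
          (((X i).filter fun j => q i j = g).card : ℝ) * ∑ h ∈ range N,
            √(∑ j ∈ univ.filter (fun j => q i (π i j) = g ∧ q l (π l j) = h), f i l j) := by
        intro l _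
        refine BalD_tot (N := N) (m := m) (BalD_sg π i l) (fun x => f i l ((π i).symm x)) (fun x => hf _ _ _)
          (hq i) (hq l) (hqN l) (hX i) (hX l) g (le_of_eq ?_) fun h => hgM ▸ hM1 l h
        refine Finset.sum_congr rfl fun h _ => ?_
        congr 1
        refine Finset.sum_bij' (fun x _ => (π i).symm x) (fun j _ => π i j) ?_ ?_ ?_ ?_ ?_
        · intro x hx
          rw [Finset.mem_filter] at hx ⊢
          refine ⟨Finset.mem_univ _, ?_, ?_⟩
          · rw [Equiv.apply_symm_apply]; exact hx.2.1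
          · exact hx.2.2
        · intro j hj
          rw [Finset.mem_filter] at hj ⊢
          refine ⟨Finset.mem_univ _, hj.2.1, ?_⟩
          unfold BalD_sg
          rw [Equiv.trans_apply, Equiv.symm_apply_apply]
          exact hj.2.2
        · intro x _
          exact Equiv.apply_symm_apply _ _
        · intro j _
          exact Equiv.symm_apply_apply _ _
        · intro x _
          rfl
      calc ∑ x ∈ (X i).filter (fun x => q i x = g), rrD π f X i (partD π X i ((π i).symm x))
          = ∑ l ∈ univ.erase i, ∑ x ∈ (X i).filter (fun x => q i x = g),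
            rr (BalD_sg π i l) (fun x => f i l ((π i).symm x)) (X l) (part (X i) x) := by
            rw [Finset.sum_comm]
            exact Finset.sum_congr rfl fun x _ => hRR i x
        _ ≤ ∑ l ∈ univ.erase i, (((X i).filter fun j => q i j = g).card : ℝ) * ∑ h ∈ range N,
            √(∑ j ∈ univ.filter (fun j => q i (π i j) = g ∧ q l (π l j) = h), f i l j) :=
            Finset.sum_le_sum hlr
        _ ≤ (((X i).filter fun j => q i j = g).card : ℝ) * lam := by
            rw [← Finset.mul_sum]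
            exact mul_le_mul_of_nonneg_left (hrow i g hg) (Nat.cast_nonneg _)
  refine ⟨fun i => BalD_c (q i) (X i), ?_, fun i => BalD_c_mono (q i) (X i),
    fun i => BalD_c_card hm (hq i) (hX i), ?_⟩
  · exact fun i x => (BalD_c_lt (hX i) x).trans_le (hbound i _)
  · intro i g _ x _
    obtain ⟨R, hR⟩ : ∃ R, R = univ.filter (fun j => q i (π i j) = g ∧ BalD_c (q i) (X i) (π i j) = x) :=
      ⟨_, rfl⟩
    have e1 : ∀ l h y, univ.filter (fun j => (q i (π i j) = g ∧ BalD_c (q i) (X i) (π i j) = x) ∧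
          q l (π l j) = h ∧ BalD_c (q l) (X l) (π l j) = y) =
          R.filter (fun j => (q l (π l j), BalD_c (q l) (X l) (π l j)) = (h, y)) := by
      intro l h y
      rw [hR, Finset.filter_filter]
      refine Finset.filter_congr fun j _ => ?_
      rw [Prod.mk.injEq]
    have e2 : ∀ l, ∑ h ∈ range N, ∑ y ∈ range (2 * b),
        √(∑ j ∈ univ.filter (fun j => (q i (π i j) = g ∧ BalD_c (q i) (X i) (π i j) = x) ∧
          q l (π l j) = h ∧ BalD_c (q l) (X l) (π l j) = y), f i l j) =
        ∑ z ∈ range N ×ˢ range (2 * b),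
        √(∑ j ∈ R.filter (fun j => (q l (π l j), BalD_c (q l) (X l) (π l j)) = z), f i l j) := by
      intro l
      rw [Finset.sum_product]
      refine Finset.sum_congr rfl fun h _ => Finset.sum_congr rfl fun y _ => ?_
      rw [e1]
    simp only [e2]
    rcases R.eq_empty_or_nonempty with h0 | ⟨j0, hj0⟩
    · rw [h0]
      simp only [Finset.filter_empty, Finset.sum_empty, Real.sqrt_zero, Finset.sum_const_zero]
      linarith
    have hRp : R = partD π X i j0 := by
      rw [hR, Finset.mem_filter] at hj0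
      ext j
      unfold partD
      rw [hR, Finset.mem_filter, Finset.mem_filter, BalD_lab_iff (hq i) (hX i), hj0.2.1, hj0.2.2]
    refine le_trans ?_ (hrr i j0)
    rw [← hRp]
    unfold rrD
    refine Finset.sum_le_sum fun l _ => ?_
    refine BalD_fib R (fun j => (q l (π l j), BalD_c (q l) (X l) (π l j)))
      (fun j => lab (X l) (π l j)) _ (range (k + 1))
      (fun j _ => Finset.mem_range.2 (Nat.lt_succ_of_le (BalD_lab_le _ _))) ?_ (f i l)
    intro j _ j' _
    rw [Prod.mk.injEq]
    exact (BalD_lab_iff (hq l) (hX l) _ _).symm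

end FHD
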