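import Mathlib

/-!
# FHD.Defs: digits, cells, classes, exits

Project: `M_d(k) ≤ 2^(k^(1/2+o(1)))` for every fixed `d` (MP_f36a55_co).
A finite set `Ω` of points `Fin d → ℕ`, every coordinate has `n` digits in base `D`.
-/

set_option autoImplicit false

namespace FHD

open Finset

/-- the number formed by the first `t` of the `n` base `D` digits of `x` -/
def hd (D n t x : ℕ) : ℕ := x / D ^ (n - t)

/-- digit number `t` (counted from the top, starting with `0`) of the `n`-digit number `x` -/
def dig (D n t x : ℕ) : ℕ := hd D n (t + 1) x % D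

/-- the points of `Ω` which agree with `z` in the first `t i` digits of every coordinate `i` -/
def cell {d : ℕ} (D n : ℕ) (Ω : Finset (Fin d → ℕ)) (t z : Fin d → ℕ) : Finset (Fin d → ℕ) :=
  Ω.filter fun w => ∀ i, hd D n (t i) (w i) = hd D n (t i) (z i)

/-- `∑_{z ∈ Ω} log |cell t z|` -/
noncomputable def LN {d : ℕ} (D n : ℕ) (Ω : Finset (Fin d → ℕ)) (t : Fin d → ℕ) : ℝ :=
  ∑ z ∈ Ω, Real.log ((cell D n Ω t z).card : ℝ)

/-- all windows: positions `t i < n` -/
def wins (d n : ℕ) : Finset (Fin d → ℕ) := Fintype.piFinset fun _ => range n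

section classes

variable {α : Type*} [DecidableEq α]

/-- the class of `x` in `C` for the label `f` -/
def cls (C : Finset α) (f : α → ℕ) (x : α) : Finset α := C.filter fun w => f w = f x

/-- the points of `C` with label `a` -/
def fib (C : Finset α) (f : α → ℕ) (a : ℕ) : Finset α := C.filter fun w => f w = a

/-- `a` is bad at `x`: the relative frequency of `Y = a` in the `f`-class of `x` is less than half of
the one in `C` -/
def Bad (C : Finset α) (f Y : α → ℕ) (x : α) (a : ℕ) : Prop :=
  2 * (#(fib (cls C f x) Y a) * #C) < #(fib C Y a) * #(cls C f x)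

/-- `a` has left at time `τ` on the path of `x`: at some time `τ' ≤ τ` at least the fraction `1/g` of the
class of `x` consists of points at which `a` is bad at the end `κ` of the run -/
def Ex (C : Finset α) (F : ℕ → α → ℕ) (κ g : ℕ) (Y : α → ℕ) (τ : ℕ) (x : α) (a : ℕ) : Prop :=
  ∃ τ' ≤ τ, ∃ B ⊆ cls C (F τ') x, (∀ w ∈ B, Bad C (F κ) Y w a) ∧ #(cls C (F τ') x) ≤ g * #B

/-- the tuple `y` does not occur in `C` -/
def Miss {ι : Type*} (C : Finset α) (Y : ι → α → ℕ) (y : ι → ℕ) : Prop :=
  ∀ w ∈ C, ∃ i, Y i w ≠ y i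

end classes

/-! ### lines -/

/-- the points of `Ω` on the line through `z` in direction `i` -/
def line {d : ℕ} (Ω : Finset (Fin d → ℕ)) (i : Fin d) (z : Fin d → ℕ) : Finset (Fin d → ℕ) :=
  Ω.filter fun w => ∀ j, j ≠ i → w j = z j

/-- the projection in direction `i` (coordinate `i` is replaced by `0`) -/
def proj {d : ℕ} (i : Fin d) (S : Finset (Fin d → ℕ)) : Finset (Fin d → ℕ) :=
  S.image fun z => Function.update z i 0

/-- digit position `t` is free in direction `i` at `z`: on the line through `z`, at most the fraction `1/A` of the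
points which have the same first `t` digits (in coordinate `i`) also has the same next digit -/
def Free {d : ℕ} (D n A : ℕ) (Ω : Finset (Fin d → ℕ)) (i : Fin d) (t : ℕ) (z : Fin d → ℕ) : Prop :=
  A * #((line Ω i z).filter fun w => hd D n (t + 1) (w i) = hd D n (t + 1) (z i)) ≤
    #((line Ω i z).filter fun w => hd D n t (w i) = hd D n t (z i))

/-! ### runs: coordinate `l` is revealed in runs of `κ` digits -/

/-- position at the start of the run (in coordinate `l`) that contains the window `t` -/
def t0 {d : ℕ} (κ : ℕ) (l : Fin d) (t : Fin d → ℕ) : Fin d → ℕ := Function.update t l (κ * (t l / κ))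

/-- position at the end of this run -/
def tE {d : ℕ} (κ : ℕ) (l : Fin d) (t : Fin d → ℕ) : Fin d → ℕ := Function.update t l (κ * (t l / κ) + κ)

/-- the label: the first `τ` digits of the run (and all digits before) of coordinate `l` -/
def run {d : ℕ} (D n κ : ℕ) (l : Fin d) (t : Fin d → ℕ) (τ : ℕ) (w : Fin d → ℕ) : ℕ :=
  hd D n (κ * (t l / κ) + τ) (w l)

/-- the digit of coordinate `i` in the window `t` -/
def Yd {d : ℕ} (D n : ℕ) (t : Fin d → ℕ) (i : Fin d) (w : Fin d → ℕ) : ℕ := dig D n (t i) (w i)

/-- `a` (a value of the digit of coordinate `i`) has left at time `τ` of the run of coordinate `l` -/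
def ExW {d : ℕ} (D n κ : ℕ) (Ω : Finset (Fin d → ℕ)) (l i : Fin d) (t : Fin d → ℕ) (τ : ℕ) (z : Fin d → ℕ)
    (a : ℕ) : Prop :=
  Ex (cell D n Ω (t0 κ l t) z) (run D n κ l t) κ (2 * d) (Yd D n t i) τ z a

/-- the law of the digit of coordinate `i` at the start of the run of coordinate `l` -/
noncomputable def lamW {d : ℕ} (D n κ : ℕ) (Ω : Finset (Fin d → ℕ)) (l i : Fin d) (t z : Fin d → ℕ) (a : ℕ) :
    ℝ :=
  (#(fib (cell D n Ω (t0 κ l t) z) (Yd D n t i) a) : ℝ) / #(cell D n Ω (t0 κ l t) z)

/-- the tuple `y` of digits of the coordinates `i < l` becomes missing when the digit of coordinate `l` of the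
window is revealed (on the path of `z`), and none of its entries has left after that -/
def NewW {d : ℕ} (D n κ : ℕ) (Ω : Finset (Fin d → ℕ)) (l : Fin d) (t z : Fin d → ℕ)
    (y : {i : Fin d // i < l} → ℕ) : Prop :=
  Miss (cell D n Ω (Function.update t l (t l + 1)) z) (fun i w => Yd D n t i.1 w) y ∧
    ¬ Miss (cell D n Ω t z) (fun i w => Yd D n t i.1 w) y ∧
    ∀ i : {i : Fin d // i < l}, ¬ ExW D n κ Ω l i.1 t (t l % κ + 1) z (y i)

end FHD
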