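import Pool.Agent.FHA.Defs
import Pool.Agent.FHD.Defs

/-!
# FHD.Pat: patterns, densities in `d`-dimensional cells, the state of the embedding

The pattern is a `d`-dimensional permutation of size `k`: point number `j : Fin k` has the coordinates `π i j`, where
`π i` is a permutation of `Fin k` for every axis `i : Fin d`.

OVERVIEW OF THE EMBEDDING (`EmbD`, `d`-dimensional version of `FHA.emb`).  Given sets `Z i l` of pairs (for `i < l`) of density at most
`η` and a set `S` of tuples of density at most `η'` in the cube of side `N0`, one finds for every axis a strictly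
increasing map `a i : Fin k → range N0` such that for every point `j` the tuple `(a i (π i j))_i` is not in `S` and its pairs
are not in the `Z i l`.  Invariant `StD`: every axis is divided into groups (intervals of `Fin k`), group `g` of axis `i` has an
interval `U i g` of level `A i g` of `ℕ`; for each group `g` of axis `i` the sum, over the groups `h` of the other axes `l`, of
density of `Z i l` times the square root of the number of the points in both groups is at most `lam`; the sum over the
points `j` of the density of `S` in the cell of `j` is at most `mu`.  One step: choose a random scale and a random subinterval for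
every group (`SelD`), refine the groups in a balanced way (`BalD`), give the parts of a group the children of its interval.
-/

set_option autoImplicit false

namespace FHD

open Finset

/-- the points of the cube of side `N` -/
def box (d N : ℕ) : Finset (Fin d → ℕ) := Fintype.piFinset fun _ => range N

/-- `S` contains the pattern `π` -/
def Has {d k : ℕ} (π : Fin d → Equiv.Perm (Fin k)) (S : Finset (Fin d → ℕ)) : Prop :=
  ∃ a : Fin d → Fin k → ℕ, (∀ i, StrictMono (a i)) ∧ ∀ j, (fun i => a i (π i j)) ∈ S

/-- number of the points of `S` in the cell of level `a` and index `u` -/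
def cntS {d : ℕ} (n : ℕ) (S : Finset (Fin d → ℕ)) (a u : Fin d → ℕ) : ℕ :=
  #(S.filter fun z => ∀ i, z i / n ^ a i = u i)

/-- density of `S` in the cell of level `a` and index `u` -/
noncomputable def densS {d : ℕ} (n : ℕ) (S : Finset (Fin d → ℕ)) (a u : Fin d → ℕ) : ℝ :=
  (cntS n S a u : ℝ) / ∏ i, (n : ℝ) ^ a i

open Classical in
/-- density, in the cell of level `a + 1` and index `u`, of the points of `S` which lie in children cells (of level `a`) in
which the density of `S` is more than twice its density in the cell -/
noncomputable def irrS {d : ℕ} (n : ℕ) (S : Finset (Fin d → ℕ)) (a u : Fin d → ℕ) : ℝ :=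
  (∑ c ∈ box d n,
    if 2 * densS n S (fun i => a i + 1) u < densS n S a (fun i => u i * n + c i) then
      densS n S a (fun i => u i * n + c i) else 0) / (n : ℝ) ^ d

/-- number of the points of the pattern which are in group `g` of axis `i` and in group `h` of axis `l` -/
def wtD {d k : ℕ} (π : Fin d → Equiv.Perm (Fin k)) (q : Fin d → Fin k → ℕ) (i l : Fin d) (g h : ℕ) : ℕ :=
  #(univ.filter fun j : Fin k => q i (π i j) = g ∧ q l (π l j) = h)

/-- The invariant: on every axis `i` the coordinates are divided into `N` groups (labels `q i`, monotone) of at most `m`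
elements; group `g` has the interval of level `A i g ≥ D` with index `U i g`; these intervals are in increasing
order and contained in `[0, X)`; the pair sums are at most `lam` and the rest sum is at most `mu`. -/
def StD {d k : ℕ} (n : ℕ) (Z : Fin d → Fin d → Finset (ℕ × ℕ)) (S : Finset (Fin d → ℕ))
    (π : Fin d → Equiv.Perm (Fin k)) (X N : ℕ) (lam mu : ℝ) (m D : ℕ) : Prop :=
  ∃ (q : Fin d → Fin k → ℕ) (A U : Fin d → ℕ → ℕ),
    (∀ i, Monotone (q i)) ∧ (∀ i x, q i x < N) ∧
    (∀ i g g', g < g' → g' < N → (U i g + 1) * n ^ A i g ≤ U i g' * n ^ A i g') ∧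
    (∀ i, ∀ g < N, (U i g + 1) * n ^ A i g ≤ X) ∧
    (∀ i, ∀ g < N, D ≤ A i g) ∧
    (∀ i g, #(univ.filter fun x => q i x = g) ≤ m) ∧
    (∀ i, ∀ g < N, ∑ l ∈ univ.erase i, ∑ h ∈ range N,
      FHA.dens n (Z i l) (A i g) (A l h) (U i g) (U l h) * √(wtD π q i l g h) ≤ lam) ∧
    ∑ j : Fin k, densS n S (fun i => A i (q i (π i j))) (fun i => U i (q i (π i j))) ≤ mu

/-- pairs of density at most `η` and tuples of density at most `η'` in the cube of side `N0` can be avoided -/
def PlD {d k : ℕ} (π : Fin d → Equiv.Perm (Fin k)) (N0 : ℕ) (η η' : ℝ) : Prop :=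
  ∀ (Z : Fin d → Fin d → Finset (ℕ × ℕ)) (S : Finset (Fin d → ℕ)),
    (∀ i l, i < l → Z i l ⊆ range N0 ×ˢ range N0) →
    (∀ i l, i < l → (#(Z i l) : ℝ) ≤ η * (N0 : ℝ) ^ 2) →
    S ⊆ box d N0 → (#S : ℝ) ≤ η' * (N0 : ℝ) ^ d →
    ∃ a : Fin d → Fin k → ℕ, (∀ i, StrictMono (a i)) ∧ (∀ i x, a i x < N0) ∧
      ∀ j, (∀ i l, i < l → (a i (π i j), a l (π l j)) ∉ Z i l) ∧ (fun i => a i (π i j)) ∉ S

end FHD
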