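import Pool.Agent.FHD.Lines
import Pool.Agent.FHD.Pat

/-!
# FHD.Blk: blocks

PROOF of `blk`.  Let `A ⊆ box d (s N)` not contain the pattern, `s, N ≥ 1` (`k ≥ 1`, otherwise `Has π A`).  For `β : Fin d → ℕ` let `A_β` be the set of the `z ∈ A` with
`z i / s = β i` for all `i` (for `β ∉ box d N` it is empty), `#(A_β) ≤ s ^ d`, and `B = {β ∈ box d N | A_β ≠ ∅}`.
(1) `¬ Has π B`: if `a` is a copy in `B`, choose for each point `j` a `z j ∈ A` with `z j i / s = a i (π i j)` and put
`a' i x = z ((π i).symm x) i`; `a' i x / s = a i x` is strictly increasing in `x`, so `a' i` is strictly increasing, and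
`(a' i (π i j))_i = z j ∈ A`.  Hence `#B ≤ C N ^ (d-1)` by `hC`.
(2) LIGHT blocks, `4 #(A_β) < s ^ (d-1)`: `4 ∑ #(A_β) ≤ s ^ (d-1) #B ≤ s ^ (d-1) C N ^ (d-1)`.
(3) HEAVY blocks, `s ^ (d-1) = σ ^ (d (d-1)) ≤ 4 #(A_β)`: by `heavy` there is a direction `i` with `σ ^ ((d-1)(d-1)) ≤ 4 d #(proj i (A_β))`.  Claim: for
every `i` and every line of blocks in direction `i` (given by the coordinates `β l`, `l ≠ i`; there are `N ^ (d-1)` lines) fewer than `s` blocks of the line
have this property for `i`.  Suppose that there are `s` of them, with `β i = b 0 < b 1 < ... < b (s-1)` (`b : Fin s → ℕ`, strictly increasing,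
`Finset.orderEmbOfFin`).  Let `S` be the set of the `y ∈ box d s` such that some `z ∈ A` has `z i / s = b (y i)` and `z l = β l * s + y l` for `l ≠ i`.
`#S ≥ ∑_{r < s} #(proj i (A_{β, b r}))` (the elements of `proj i (A_β)` correspond to the elements `y` of `S` with `y i = r`: `u ↦ y`,
`y i = r`, `y l = u l - β l s = u l % s`, injective), so `s σ ^ ((d-1)(d-1)) ≤ 4 d #S`, and `hrow` gives a copy `a` of `π` in `S`.  For each point `j` take
`z j ∈ A` with `z j i / s = b (a i (π i j))`, `z j l = β l s + a l (π l j)` for `l ≠ i`, and put `a' p x = z ((π p).symm x) p` for all axes `p`: strictly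
increasing (for `p = i` because `a' i x / s = b (a i x)`, for `p ≠ i` because `a' p x = β p s + a p x`), and `(a' p (π p j))_p = z j ∈ A`; so
`Has π A`, a contradiction.  So there are at most `d s N ^ (d-1)` heavy blocks, with at most `s ^ d` points each.
Together `4 #A ≤ s ^ (d-1) C N ^ (d-1) + 4 d s N ^ (d-1) s ^ d`.

PROOF of `rec_pow`: induction on `r`.  `r = 0`: `box d 1` has one element.  Step: `blk` with `N = s ^ r`, `C = 2 d s^2`, `4 #A ≤
(s N) ^ (d-1) (2 d s^2 + 4 d s^2)` since `s ^ (d+1) = s ^ (d-1) s ^ 2`; `6 d s^2 ≤ 8 d s^2`.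
PROOF of `rec_all`: `N = 0` is trivial (`box d 0` is empty as `d ≥ 2`).  Let `r` be minimal with `N ≤ s ^ r` (`s ≥ 2`).  If `r = 0` then `N = 1`.  Otherwise
`s ^ (r-1) < N`, so `s ^ r ≤ s N`; `A ⊆ box d (s ^ r)` and `#A ≤ 2 d s^2 (s ^ r) ^ (d-1) ≤ 2 d s^2 (s N) ^ (d-1) = 2 d s ^ (d+1) N ^ (d-1)`.
-/

set_option autoImplicit false

namespace FHD

open Finset

variable {d k : ℕ}

private theorem Blk_mem_box {N : ℕ} {z : Fin d → ℕ} : z ∈ box d N ↔ ∀ i, z i < N := by
  unfold box
  rw [Fintype.mem_piFinset]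
  simp only [mem_range]

private theorem Blk_box_mono {N M : ℕ} (h : N ≤ M) : box d N ⊆ box d M := by
  intro z hz
  rw [Blk_mem_box] at hz ⊢
  exact fun i => (hz i).trans_le h

private theorem Blk_card_box (N : ℕ) : #(box d N) = N ^ d := by
  unfold box
  rw [Fintype.card_piFinset]
  simp

/-- a choice of points of `A` with the right order in every axis is a copy -/
private theorem Blk_has {A : Finset (Fin d → ℕ)} (π : Fin d → Equiv.Perm (Fin k))
    (z : Fin k → Fin d → ℕ) (hz : ∀ j, z j ∈ A)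
    (hlt : ∀ i x y, x < y → z ((π i).symm x) i < z ((π i).symm y) i) : Has π A := by
  refine ⟨fun i x => z ((π i).symm x) i, fun i x y hxy => hlt i x y hxy, fun j => ?_⟩
  have e : (fun i => z ((π i).symm (π i j)) i) = z j := by
    funext i
    rw [Equiv.symm_apply_apply]
  change (fun i => z ((π i).symm (π i j)) i) ∈ A
  rw [e]
  exact hz j

private theorem Blk_lt_of_div {s a b : ℕ} (h : a / s < b / s) : a < b := by
  by_contra hcon
  exact absurd (Nat.div_le_div_right (c := s) (not_lt.1 hcon)) (not_le.2 h)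

private theorem Blk_image {s : ℕ} {A : Finset (Fin d → ℕ)} (π : Fin d → Equiv.Perm (Fin k))
    (h : Has π (A.image fun z i => z i / s)) : Has π A := by
  obtain ⟨a, ha, hm⟩ := h
  have h1 : ∀ j, ∃ z ∈ A, ∀ i, z i / s = a i (π i j) := by
    intro j
    obtain ⟨z, hz, he⟩ := mem_image.1 (hm j)
    exact ⟨z, hz, fun i => congrFun he i⟩
  choose z hz he using h1
  refine Blk_has π z hz fun i x y hxy => Blk_lt_of_div (s := s) ?_
  rw [he, he, Equiv.apply_symm_apply, Equiv.apply_symm_apply]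
  exact ha i hxy

private theorem Blk_cell {s : ℕ} (hs : 1 ≤ s) (A : Finset (Fin d → ℕ)) (β : Fin d → ℕ) :
    #(A.filter fun z => (fun i => z i / s) = β) ≤ s ^ d := by
  rw [← Blk_card_box (d := d) s]
  refine card_le_card_of_injOn (fun z i => z i % s) ?_ ?_
  · intro z _
    rw [mem_coe, Blk_mem_box]
    exact fun i => Nat.mod_lt _ (by omega)
  · intro z hz w hw h
    rw [mem_coe, mem_filter] at hz hw
    funext i
    have h1 : z i / s = w i / s := by
      have := hz.2.trans hw.2.symm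
      exact congrFun this i
    have h2 : z i % s = w i % s := congrFun h i
    rw [← Nat.div_add_mod (z i) s, ← Nat.div_add_mod (w i) s, h1, h2]

/-- the number of lines of blocks -/
private theorem Blk_lines {N : ℕ} (H : Finset (Fin d → ℕ)) (hH : H ⊆ box d N) (i : Fin d) :
    #(H.image fun β => Function.update β i 0) ≤ N ^ (d - 1) := by
  have h1 : (H.image fun β => Function.update β i 0) ⊆
      Fintype.piFinset (fun j => if j = i then ({0} : Finset ℕ) else range N) := by
    intro γ hγ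
    obtain ⟨β, hβ, rfl⟩ := mem_image.1 hγ
    rw [Fintype.mem_piFinset]
    intro j
    by_cases hj : j = i
    · rw [if_pos hj, hj, Function.update_self]
      exact mem_singleton_self 0
    · rw [if_neg hj, Function.update_of_ne hj, mem_range]
      exact Blk_mem_box.1 (hH hβ) j
  refine (card_le_card h1).trans ?_
  rw [Fintype.card_piFinset, ← prod_erase_mul univ _ (mem_univ i), if_pos rfl, card_singleton,
    mul_one]
  have h2 : ∏ j ∈ univ.erase i, #(if j = i then ({0} : Finset ℕ) else range N) =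
      ∏ _j ∈ (univ : Finset (Fin d)).erase i, N := by
    refine prod_congr rfl fun j hj => ?_
    rw [if_neg (ne_of_mem_erase hj), card_range]
  rw [h2, prod_const, card_erase_of_mem (mem_univ i), card_univ, Fintype.card_fin]

/-- a line of blocks with many heavy blocks -/
private theorem Blk_fiber {s σ : ℕ} (hs : 1 ≤ s) (π : Fin d → Equiv.Perm (Fin k))
    (hrow : ∀ S ⊆ box d s, s * σ ^ ((d - 1) * (d - 1)) ≤ 4 * d * #S → Has π S)
    (A : Finset (Fin d → ℕ)) (hA : ¬ Has π A) (i : Fin d) (γ : Fin d → ℕ) (Φ : Finset (Fin d → ℕ))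
    (hΦ : ∀ β ∈ Φ, Function.update β i 0 = γ ∧ σ ^ ((d - 1) * (d - 1)) ≤
      4 * d * #(proj i (A.filter fun z => (fun i => z i / s) = β))) : #Φ ≤ s := by
  by_contra hcon
  push Not at hcon
  obtain ⟨Φ', hΦ', hcard⟩ := exists_subset_card_eq hcon.le
  have hinj : Set.InjOn (fun β : Fin d → ℕ => β i) Φ' := by
    intro β hβ β' hβ' h
    have h1 := (hΦ β (hΦ' hβ)).1
    have h2 := (hΦ β' (hΦ' hβ')).1
    funext j
    by_cases hj : j = i
    · rw [hj]; exact h
    · have h3 := congrFun (h1.trans h2.symm) j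
      rwa [Function.update_of_ne hj, Function.update_of_ne hj] at h3
  have hT : #(Φ'.image fun β : Fin d → ℕ => β i) = s := by
    rw [card_image_of_injOn hinj, hcard]
  obtain ⟨T, hTe⟩ : ∃ T, T = Φ'.image fun β : Fin d → ℕ => β i := ⟨_, rfl⟩
  rw [← hTe] at hT
  obtain ⟨b, hb⟩ : ∃ b : Fin s → ℕ, b = T.orderEmbOfFin hT := ⟨_, rfl⟩
  have hbm : ∀ r, b r ∈ T := fun r => by rw [hb]; exact orderEmbOfFin_mem T hT r
  have hbs : StrictMono b := by rw [hb]; exact (T.orderEmbOfFin hT).strictMono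
  -- the blocks
  have hblk : ∀ r, ∃ β ∈ Φ, β i = b r ∧ ∀ l, l ≠ i → β l = γ l := by
    intro r
    have h1 := hbm r
    rw [hTe] at h1
    obtain ⟨β, hβ, he⟩ := mem_image.1 h1
    refine ⟨β, hΦ' hβ, he, fun l hl => ?_⟩
    have h2 := congrFun (hΦ β (hΦ' hβ)).1 l
    rwa [Function.update_of_ne hl] at h2
  choose β hβΦ hβi hβl using hblk
  obtain ⟨b', hb'⟩ : ∃ b' : ℕ → ℕ, b' = fun m => if h : m < s then b ⟨m, h⟩ else 0 := ⟨_, rfl⟩
  have hb'1 : ∀ r : Fin s, b' r = b r := by
    intro r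
    rw [hb']
    simp only [r.2, dif_pos]
  classical
  obtain ⟨S, hS⟩ : ∃ S : Finset (Fin d → ℕ), S = (box d s).filter fun y =>
      ∃ z ∈ A, z i / s = b' (y i) ∧ ∀ l, l ≠ i → z l = γ l * s + y l := ⟨_, rfl⟩
  -- the number of the elements of `S`
  have hfib : ∀ r : Fin s, #(proj i (A.filter fun z => (fun i => z i / s) = β r)) ≤
      #(S.filter fun y => y i = (r : ℕ)) := by
    intro r
    refine card_le_card_of_injOn (fun u l => if l = i then (r : ℕ) else u l % s) ?_ ?_
    · intro u hu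
      rw [mem_coe] at hu ⊢
      unfold proj at hu
      obtain ⟨z, hz, rfl⟩ := mem_image.1 hu
      rw [mem_filter] at hz
      have hzb : ∀ l, z l / s = β r l := fun l => congrFun hz.2 l
      rw [mem_filter, hS, mem_filter, Blk_mem_box]
      refine ⟨⟨?_, z, hz.1, ?_, ?_⟩, ?_⟩
      · intro l
        by_cases hl : l = i
        · simp only [hl, if_true]
          exact r.2
        · simp only [hl, if_false]
          exact Nat.mod_lt _ (by omega)
      · simp only [if_true]
        rw [hb'1, hzb, hβi]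
      · intro l hl
        simp only [hl, if_false]
        rw [Function.update_of_ne hl, ← hβl r l hl, ← hzb l, mul_comm]
        exact (Nat.div_add_mod (z l) s).symm
      · simp
    · intro u hu u' hu' h
      rw [mem_coe] at hu hu'
      unfold proj at hu hu'
      obtain ⟨z, hz, rfl⟩ := mem_image.1 hu
      obtain ⟨z', hz', rfl⟩ := mem_image.1 hu'
      rw [mem_filter] at hz hz'
      funext l
      by_cases hl : l = i
      · rw [hl, Function.update_self, Function.update_self]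
      · have h1 := congrFun h l
        simp only [hl, if_false] at h1
        rw [Function.update_of_ne hl, Function.update_of_ne hl] at h1 ⊢
        have h2 : z l / s = z' l / s := by
          have := hz.2.trans hz'.2.symm
          exact congrFun this l
        rw [← Nat.div_add_mod (z l) s, ← Nat.div_add_mod (z' l) s, h1, h2]
  have hsum : ∑ r : Fin s, #(S.filter fun y => y i = (r : ℕ)) ≤ #S := by
    rw [← card_biUnion]
    · refine card_le_card fun y hy => ?_
      obtain ⟨r, _, hr⟩ := mem_biUnion.1 hy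
      exact (mem_filter.1 hr).1
    · intro r _ r' _ hne
      rw [Function.onFun, disjoint_left]
      intro y hy hy'
      rw [mem_filter] at hy hy'
      exact hne (Fin.ext (hy.2.symm.trans hy'.2))
  have hbig : s * σ ^ ((d - 1) * (d - 1)) ≤ 4 * d * #S := by
    calc s * σ ^ ((d - 1) * (d - 1)) = ∑ _r : Fin s, σ ^ ((d - 1) * (d - 1)) := by
          rw [sum_const, card_univ, Fintype.card_fin, smul_eq_mul]
      _ ≤ ∑ r : Fin s, 4 * d * #(S.filter fun y => y i = (r : ℕ)) := by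
          refine sum_le_sum fun r _ => ?_
          exact ((hΦ (β r) (hβΦ r)).2).trans (Nat.mul_le_mul_left _ (hfib r))
      _ = 4 * d * ∑ r : Fin s, #(S.filter fun y => y i = (r : ℕ)) := (mul_sum _ _ _).symm
      _ ≤ 4 * d * #S := Nat.mul_le_mul_left _ hsum
  obtain ⟨a, ha, hm⟩ := hrow S (by rw [hS]; exact filter_subset _ _) hbig
  -- the copy in `A`
  have h1 : ∀ j, ∃ z ∈ A, z i / s = b' (a i (π i j)) ∧
      ∀ l, l ≠ i → z l = γ l * s + a l (π l j) := by
    intro j
    have h2 := hm j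
    rw [hS, mem_filter] at h2
    exact h2.2
  have has : ∀ x, a i x < s := by
    intro x
    have h2 := hm ((π i).symm x)
    rw [hS, mem_filter, Blk_mem_box] at h2
    have h3 := h2.1 i
    rwa [Equiv.apply_symm_apply] at h3
  choose z hz hzi hzl using h1
  refine hA (Blk_has π z hz fun p x y hxy => ?_)
  by_cases hp : p = i
  · subst hp
    refine Blk_lt_of_div (s := s) ?_
    rw [hzi, hzi, Equiv.apply_symm_apply, Equiv.apply_symm_apply]
    have e1 := hb'1 ⟨a p x, has x⟩
    have e2 := hb'1 ⟨a p y, has y⟩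
    simp only at e1 e2
    rw [e1, e2]
    exact hbs (ha p hxy)
  · rw [hzl _ p hp, hzl _ p hp, Equiv.apply_symm_apply, Equiv.apply_symm_apply]
    have := ha p hxy
    omega

theorem blk {s σ : ℕ} (hd : 2 ≤ d) (hσ : 1 ≤ σ) (hs : s = σ ^ d) (π : Fin d → Equiv.Perm (Fin k))
    (hrow : ∀ S ⊆ box d s, s * σ ^ ((d - 1) * (d - 1)) ≤ 4 * d * #S → Has π S) {C N : ℕ} (hN : 1 ≤ N)
    (hC : ∀ A ⊆ box d N, ¬ Has π A → #A ≤ C * N ^ (d - 1)) :
    ∀ A ⊆ box d (s * N), ¬ Has π A →
      4 * #A ≤ s ^ (d - 1) * (C * N ^ (d - 1)) + 4 * d * (s * N ^ (d - 1) * s ^ d) := by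
  intro A hAb hA
  classical
  have hs1 : 1 ≤ s := by rw [hs]; exact Nat.one_le_pow _ _ hσ
  have hsd : s ^ (d - 1) = σ ^ (d * (d - 1)) := by rw [hs, ← pow_mul]
  obtain ⟨bl, hbl⟩ : ∃ bl : (Fin d → ℕ) → Fin d → ℕ, bl = fun z i => z i / s := ⟨_, rfl⟩
  obtain ⟨B, hB⟩ : ∃ B, B = A.image bl := ⟨_, rfl⟩
  have hBb : B ⊆ box d N := by
    rw [hB]
    intro β hβ
    obtain ⟨z, hz, rfl⟩ := mem_image.1 hβ
    rw [Blk_mem_box, hbl]
    intro i
    exact Nat.div_lt_of_lt_mul (Blk_mem_box.1 (hAb hz) i)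
  have hBC : #B ≤ C * N ^ (d - 1) := by
    refine hC B hBb fun h => hA (Blk_image (s := s) π ?_)
    rw [hB, hbl] at h
    exact h
  have hsumA : #A = ∑ β ∈ B, #(A.filter fun z => bl z = β) := by
    rw [hB]
    exact card_eq_sum_card_image bl A
  obtain ⟨Hv, hHv⟩ : ∃ Hv, Hv = B.filter fun β => s ^ (d - 1) ≤ 4 * #(A.filter fun z => bl z = β) :=
    ⟨_, rfl⟩
  -- every block
  have hone : ∀ β ∈ B, 4 * #(A.filter fun z => bl z = β) ≤
      s ^ (d - 1) + if β ∈ Hv then 4 * s ^ d else 0 := by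
    intro β hβ
    by_cases h : s ^ (d - 1) ≤ 4 * #(A.filter fun z => bl z = β)
    · rw [if_pos (by rw [hHv, mem_filter]; exact ⟨hβ, h⟩)]
      have h2 : #(A.filter fun z => bl z = β) ≤ s ^ d := by
        rw [hbl]
        exact Blk_cell hs1 A β
      omega
    · push Not at h
      omega
  have hHcard : #Hv ≤ d * (s * N ^ (d - 1)) := by
    obtain ⟨H, hH⟩ : ∃ H : Fin d → Finset (Fin d → ℕ), H = fun i => B.filter fun β =>
      σ ^ ((d - 1) * (d - 1)) ≤ 4 * d * #(proj i (A.filter fun z => bl z = β)) := ⟨_, rfl⟩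
    have h1 : Hv ⊆ univ.biUnion H := by
      intro β hβ
      rw [hHv, mem_filter] at hβ
      obtain ⟨j, hj⟩ := heavy (by omega) hσ (A.filter fun z => bl z = β) (by
        rw [← hsd]; exact hβ.2)
      rw [mem_biUnion]
      refine ⟨j, mem_univ j, ?_⟩
      rw [hH, mem_filter]
      exact ⟨hβ.1, hj⟩
    have h2 : ∀ i, #(H i) ≤ s * N ^ (d - 1) := by
      intro i
      have h3 : #(H i) ≤ s * #((H i).image fun β => Function.update β i 0) := by
        refine card_le_mul_card_image _ s fun γ _ => ?_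
        refine Blk_fiber hs1 π hrow A hA i γ _ fun β hβ => ?_
        rw [mem_filter, hH, mem_filter] at hβ
        refine ⟨hβ.2, ?_⟩
        rw [hbl] at hβ
        exact hβ.1.2
      refine h3.trans (Nat.mul_le_mul_left s (Blk_lines _ ?_ i))
      rw [hH]
      exact (filter_subset _ _).trans hBb
    calc #Hv ≤ #(univ.biUnion H) := card_le_card h1
      _ ≤ ∑ i, #(H i) := card_biUnion_le
      _ ≤ ∑ _i : Fin d, s * N ^ (d - 1) := sum_le_sum fun i _ => h2 i
      _ = d * (s * N ^ (d - 1)) := by rw [sum_const, card_univ, Fintype.card_fin, smul_eq_mul]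
  have hHsub : Hv ⊆ B := by rw [hHv]; exact filter_subset _ _
  calc 4 * #A = ∑ β ∈ B, 4 * #(A.filter fun z => bl z = β) := by rw [hsumA, mul_sum]
    _ ≤ ∑ β ∈ B, (s ^ (d - 1) + if β ∈ Hv then 4 * s ^ d else 0) := sum_le_sum hone
    _ = #B * s ^ (d - 1) + #Hv * (4 * s ^ d) := by
      rw [sum_add_distrib, sum_const, smul_eq_mul, ← sum_filter, sum_const, smul_eq_mul]
      congr 2
      congr 1
      ext β
      rw [mem_filter]
      exact ⟨fun h => h.2, fun h => ⟨hHsub h, h⟩⟩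
    _ ≤ (C * N ^ (d - 1)) * s ^ (d - 1) + (d * (s * N ^ (d - 1))) * (4 * s ^ d) :=
      add_le_add (Nat.mul_le_mul_right _ hBC) (Nat.mul_le_mul_right _ hHcard)
    _ = s ^ (d - 1) * (C * N ^ (d - 1)) + 4 * d * (s * N ^ (d - 1) * s ^ d) := by ring

theorem rec_pow {s σ : ℕ} (hd : 2 ≤ d) (hσ : 1 ≤ σ) (hs : s = σ ^ d) (π : Fin d → Equiv.Perm (Fin k))
    (hrow : ∀ S ⊆ box d s, s * σ ^ ((d - 1) * (d - 1)) ≤ 4 * d * #S → Has π S) (r : ℕ) :
    ∀ A ⊆ box d (s ^ r), ¬ Has π A → #A ≤ 2 * d * s ^ 2 * (s ^ r) ^ (d - 1) := by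
  have hs1 : 1 ≤ s := by rw [hs]; exact Nat.one_le_pow _ _ hσ
  induction r with
  | zero =>
    intro A hA _
    have h1 : #A ≤ 1 := by
      refine (card_le_card hA).trans ?_
      rw [Blk_card_box, pow_zero, one_pow]
    have h2 : 1 ≤ 2 * d * s ^ 2 * (s ^ 0) ^ (d - 1) := by
      rw [pow_zero, one_pow, mul_one]
      have : 1 ≤ s ^ 2 := Nat.one_le_pow _ _ hs1
      nlinarith
    exact h1.trans h2
  | succ r ih =>
    intro A hA hnA
    have e : s ^ (r + 1) = s * s ^ r := pow_succ' s r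
    rw [e] at hA ⊢
    have h1 := blk hd hσ hs π hrow (C := 2 * d * s ^ 2) (N := s ^ r) (Nat.one_le_pow _ _ hs1) ih A hA hnA
    obtain ⟨m, hm⟩ : ∃ m, d = m + 1 := ⟨d - 1, by omega⟩
    have e1 : s ^ (d - 1) * (2 * d * s ^ 2 * (s ^ r) ^ (d - 1)) +
        4 * d * (s * (s ^ r) ^ (d - 1) * s ^ d) = 6 * (d * s ^ 2 * (s * s ^ r) ^ (d - 1)) := by
      rw [hm, Nat.add_sub_cancel, mul_pow]
      ring
    rw [e1] at h1
    have e2 : 2 * d * s ^ 2 * (s * s ^ r) ^ (d - 1) = 2 * (d * s ^ 2 * (s * s ^ r) ^ (d - 1)) := by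
      ring
    rw [e2]
    omega

theorem rec_all {s σ : ℕ} (hd : 2 ≤ d) (hσ : 2 ≤ σ) (hs : s = σ ^ d) (π : Fin d → Equiv.Perm (Fin k))
    (hrow : ∀ S ⊆ box d s, s * σ ^ ((d - 1) * (d - 1)) ≤ 4 * d * #S → Has π S) (N : ℕ) :
    ∀ A ⊆ box d N, ¬ Has π A → #A ≤ 2 * d * s ^ (d + 1) * N ^ (d - 1) := by
  intro A hA hnA
  rcases Nat.eq_zero_or_pos N with hN | hN
  · have h1 : A = ∅ := by
      rw [eq_empty_iff_forall_notMem]
      intro z hz
      have := Blk_mem_box.1 (hA hz) ⟨0, by omega⟩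
      omega
    rw [h1, card_empty]
    exact Nat.zero_le _
  · have hs2 : 1 < s := by
      rw [hs]
      exact Nat.one_lt_pow (by omega) (by omega)
    obtain ⟨r, hr⟩ : ∃ r, r = Nat.log s N := ⟨_, rfl⟩
    have h1 : N < s ^ (r + 1) := by rw [hr]; exact Nat.lt_pow_succ_log_self hs2 N
    have h2 : s ^ r ≤ N := by rw [hr]; exact Nat.pow_log_le_self s (by omega)
    have h3 := rec_pow hd (by omega) hs π hrow (r + 1) A (hA.trans (Blk_box_mono h1.le)) hnA
    refine h3.trans ?_
    have h4 : s ^ (r + 1) ≤ s * N := by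
      rw [pow_succ']
      exact Nat.mul_le_mul_left s h2
    obtain ⟨m, hm⟩ : ∃ m, d = m + 1 := ⟨d - 1, by omega⟩
    calc 2 * d * s ^ 2 * (s ^ (r + 1)) ^ (d - 1) ≤ 2 * d * s ^ 2 * (s * N) ^ (d - 1) :=
        Nat.mul_le_mul_left _ (Nat.pow_le_pow_left h4 _)
      _ = 2 * d * s ^ (d + 1) * N ^ (d - 1) := by
        rw [hm, Nat.add_sub_cancel, mul_pow]
        ring

end FHD
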