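import Pool.Agent.FHD.Defs

/-!
# FHD.Cell: basic facts on digits and cells

PROOF.  `hd_hd`: `D ^ (n-t) = D ^ (n-t') * D ^ ((n-t)-(n-t'))` for `t ≤ t'`, `Nat.div_div_eq_div_mul`.
`hd_succ`: `hd D n (t+1) x / D = hd D n t x` for `t < n` (`D ^ (n-t) = D ^ (n-(t+1)) * D`) and `Nat.div_add_mod`.
`cell_congr`, `cell_mono`: from `hd_hd`.  `cls_run`: `hd` at `κ (t l / κ) + τ` determines `hd` at `κ (t l / κ)`.
`cls_dig`, `fib_dig`: from `hd_succ`.  `hd_n`: `hd D n n x = x`.
`sum_cell`: the left side is the sum over `w ∈ Ω` of `G w` times `∑_{z ∈ cell t w} 1 / #(cell t z) = 1` (`cell_congr`).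
`card_sub`: the numbers `hd D n (t+m) (w i)`, `w ∈ cell t z`, lie in `[h D^m, (h+1) D^m)`, `h = hd D n t (z i)` (for `t + m ≤ n`); if
`t + m > n` the same with `n`: `hd D n (t+m) = hd D n n`, and `D ^ (n-t) ≤ D ^ m`.
`wins_upd` (averaging over one coordinate): the map `(t, a) ↦ (update t i a, t i)` is a bijection of `wins × range n`.
-/

set_option autoImplicit false

namespace FHD

open Finset

variable {d D n : ℕ} {Ω : Finset (Fin d → ℕ)}

theorem hd_zero {x : ℕ} (hx : x < D ^ n) : hd D n 0 x = 0 := by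
  unfold hd
  rw [Nat.sub_zero]
  exact Nat.div_eq_of_lt hx

theorem hd_n (x : ℕ) : hd D n n x = x := by
  unfold hd
  rw [Nat.sub_self, pow_zero, Nat.div_one]

theorem hd_hd {t t' x y : ℕ} (h : t ≤ t') (hxy : hd D n t' x = hd D n t' y) : hd D n t x = hd D n t y := by
  unfold hd at *
  have e : D ^ (n - t) = D ^ (n - t') * D ^ ((n - t) - (n - t')) := by
    rw [← pow_add]
    congr 1
    omega
  rw [e, ← Nat.div_div_eq_div_mul, ← Nat.div_div_eq_div_mul, hxy]

theorem hd_succ {t : ℕ} (ht : t < n) (x : ℕ) : hd D n (t + 1) x = hd D n t x * D + dig D n t x := by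
  have e : hd D n t x = hd D n (t + 1) x / D := by
    unfold hd
    rw [Nat.div_div_eq_div_mul, ← pow_succ]
    congr 2
    omega
  unfold dig
  rw [e]
  exact (Nat.div_add_mod' _ _).symm

theorem dig_lt (hD : 1 ≤ D) (t x : ℕ) : dig D n t x < D := by
  exact Nat.mod_lt _ hD

theorem mem_cell_self {t z : Fin d → ℕ} (hz : z ∈ Ω) : z ∈ cell D n Ω t z := by
  unfold cell
  rw [mem_filter]
  exact ⟨hz, fun _ => rfl⟩

theorem cell_sub (t z : Fin d → ℕ) : cell D n Ω t z ⊆ Ω := by
  exact filter_subset _ _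

theorem cell_congr {t z w : Fin d → ℕ} (hw : w ∈ cell D n Ω t z) : cell D n Ω t w = cell D n Ω t z := by
  unfold cell at *
  rw [mem_filter] at hw
  ext v
  rw [mem_filter, mem_filter]
  constructor
  · rintro ⟨h1, h2⟩
    exact ⟨h1, fun i => (h2 i).trans (hw.2 i)⟩
  · rintro ⟨h1, h2⟩
    exact ⟨h1, fun i => (h2 i).trans (hw.2 i).symm⟩

theorem cell_mono {t t' : Fin d → ℕ} (h : ∀ i, t i ≤ t' i) (z : Fin d → ℕ) :
    cell D n Ω t' z ⊆ cell D n Ω t z := by
  intro v hv
  unfold cell at *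
  rw [mem_filter] at hv ⊢
  exact ⟨hv.1, fun i => hd_hd (h i) (hv.2 i)⟩

theorem cls_run {κ : ℕ} (l : Fin d) (t : Fin d → ℕ) (τ : ℕ) (z x : Fin d → ℕ)
    (hx : x ∈ cell D n Ω (t0 κ l t) z) :
    cls (cell D n Ω (t0 κ l t) z) (run D n κ l t τ) x =
      cell D n Ω (Function.update t l (κ * (t l / κ) + τ)) x := by
  unfold cls
  unfold cell at *
  rw [mem_filter] at hx
  ext w
  rw [mem_filter, mem_filter, mem_filter]
  have hl : t0 κ l t l = κ * (t l / κ) := by
    unfold t0
    rw [Function.update_self]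
  have hne : ∀ i, i ≠ l → t0 κ l t i = t i := by
    intro i hi
    unfold t0
    rw [Function.update_of_ne hi]
  constructor
  · rintro ⟨⟨h1, h2⟩, h3⟩
    refine ⟨h1, fun i => ?_⟩
    by_cases hi : i = l
    · subst hi
      rw [Function.update_self]
      exact h3
    · rw [Function.update_of_ne hi]
      have h4 := (h2 i).trans (hx.2 i).symm
      rwa [hne i hi] at h4
  · rintro ⟨h1, h2⟩
    have h3 := h2 l
    rw [Function.update_self] at h3
    refine ⟨⟨h1, fun i => ?_⟩, h3⟩
    refine Eq.trans ?_ (hx.2 i)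
    by_cases hi : i = l
    · subst hi
      rw [hl]
      exact hd_hd (Nat.le_add_right _ _) h3
    · have h4 := h2 i
      rw [Function.update_of_ne hi] at h4
      rw [hne i hi]
      exact h4

theorem cls_dig {i : Fin d} {t t' : Fin d → ℕ} (ht : t i < n) (h : t' i = t i) (z x : Fin d → ℕ)
    (hx : x ∈ cell D n Ω t' z) :
    cls (cell D n Ω t' z) (Yd D n t i) x = cell D n Ω (Function.update t' i (t i + 1)) x := by
  unfold cls
  unfold cell at *
  rw [mem_filter] at hx
  ext w
  rw [mem_filter, mem_filter, mem_filter]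
  constructor
  · rintro ⟨⟨h1, h2⟩, h3⟩
    refine ⟨h1, fun j => ?_⟩
    by_cases hj : j = i
    · subst hj
      rw [Function.update_self, hd_succ ht, hd_succ ht]
      have h4 := (h2 j).trans (hx.2 j).symm
      rw [h] at h4
      unfold Yd at h3
      rw [h3, h4]
    · rw [Function.update_of_ne hj]
      exact (h2 j).trans (hx.2 j).symm
  · rintro ⟨h1, h2⟩
    have h3 := h2 i
    rw [Function.update_self] at h3
    refine ⟨⟨h1, fun j => ?_⟩, ?_⟩
    · refine Eq.trans ?_ (hx.2 j)
      by_cases hj : j = i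
      · subst hj
        rw [h]
        exact hd_hd (Nat.le_succ _) h3
      · have h4 := h2 j
        rw [Function.update_of_ne hj] at h4
        exact h4
    · unfold Yd dig
      rw [h3]

theorem sum_cell (t : Fin d → ℕ) (G : (Fin d → ℕ) → ℝ) :
    ∑ z ∈ Ω, (∑ w ∈ cell D n Ω t z, G w) / #(cell D n Ω t z) = ∑ z ∈ Ω, G z := by
  have h1 : ∀ z ∈ Ω, (∑ w ∈ cell D n Ω t z, G w) / (#(cell D n Ω t z) : ℝ) =
      ∑ w ∈ Ω, if w ∈ cell D n Ω t z then G w / (#(cell D n Ω t w) : ℝ) else 0 := by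
    intro z _
    rw [← sum_filter, Finset.sum_div]
    have e : Ω.filter (fun w => w ∈ cell D n Ω t z) = cell D n Ω t z := by
      ext w
      rw [mem_filter]
      exact ⟨fun h => h.2, fun h => ⟨cell_sub t z h, h⟩⟩
    rw [e]
    refine Finset.sum_congr rfl (fun w hw => ?_)
    rw [cell_congr hw]
  rw [Finset.sum_congr rfl h1, Finset.sum_comm]
  refine Finset.sum_congr rfl (fun w hw => ?_)
  rw [← sum_filter]
  have e : Ω.filter (fun z => w ∈ cell D n Ω t z) = cell D n Ω t w := by
    ext z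
    unfold cell
    rw [mem_filter, mem_filter, mem_filter]
    constructor
    · rintro ⟨h2, h3⟩
      exact ⟨h2, fun i => (h3.2 i).symm⟩
    · rintro ⟨h2, h3⟩
      exact ⟨h2, hw, fun i => (h3 i).symm⟩
  rw [e, Finset.sum_const, nsmul_eq_mul]
  have hpos : (0 : ℝ) < (#(cell D n Ω t w) : ℝ) := by
    exact_mod_cast Finset.card_pos.2 ⟨w, mem_cell_self hw⟩
  field_simp

theorem card_sub (hD : 1 ≤ D) (t z : Fin d → ℕ) (i : Fin d) (m : ℕ) :
    #((cell D n Ω t z).image fun w => hd D n (t i + m) (w i)) ≤ D ^ m := by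
  obtain ⟨a, ha⟩ : ∃ a, a = (n - t i) - (n - (t i + m)) := ⟨_, rfl⟩
  have ham : a ≤ m := by omega
  have hdiv : ∀ x, hd D n (t i + m) x / D ^ a = hd D n (t i) x := by
    intro x
    unfold hd
    rw [Nat.div_div_eq_div_mul, ← pow_add]
    congr 2
    omega
  have hDa : 0 < D ^ a := Nat.pow_pos hD
  set h := hd D n (t i) (z i) with hh
  have hsub : ((cell D n Ω t z).image fun w => hd D n (t i + m) (w i)) ⊆ Finset.Ico (h * D ^ a) ((h + 1) * D ^ a) := by
    intro q hq
    rw [mem_image] at hq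
    obtain ⟨w, hw, rfl⟩ := hq
    unfold cell at hw
    rw [mem_filter] at hw
    have h1 := hdiv (w i)
    rw [hw.2 i, ← hh] at h1
    rw [Finset.mem_Ico]
    constructor
    · rw [← h1]
      exact Nat.div_mul_le_self _ _
    · rw [← h1]
      exact Nat.lt_mul_of_div_lt (Nat.lt_succ_self _) hDa
  refine (Finset.card_le_card hsub).trans ?_
  rw [Nat.card_Ico]
  have e : (h + 1) * D ^ a - h * D ^ a = D ^ a := by
    rw [add_mul, one_mul, Nat.add_sub_cancel_left]
  rw [e]
  exact Nat.pow_le_pow_right hD ham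

theorem mem_wins {t : Fin d → ℕ} : t ∈ wins d n ↔ ∀ i, t i < n := by
  unfold wins
  rw [Fintype.mem_piFinset]
  simp only [mem_range]

theorem card_wins : #(wins d n) = n ^ d := by
  unfold wins
  rw [Fintype.card_piFinset_const, card_range]

theorem wins_upd (i : Fin d) (f : (Fin d → ℕ) → ℝ) :
    (n : ℝ) * ∑ t ∈ wins d n, f t = ∑ t ∈ wins d n, ∑ a ∈ range n, f (Function.update t i a) := by
  have h1 : (n : ℝ) * ∑ t ∈ wins d n, f t = ∑ p ∈ wins d n ×ˢ range n, f p.1 := by
    rw [Finset.sum_product, Finset.mul_sum]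
    refine Finset.sum_congr rfl (fun t _ => ?_)
    simp only
    rw [Finset.sum_const, card_range, nsmul_eq_mul]
  have h2 : ∑ t ∈ wins d n, ∑ a ∈ range n, f (Function.update t i a) =
      ∑ p ∈ wins d n ×ˢ range n, f (Function.update p.1 i p.2) := by
    rw [Finset.sum_product]
  rw [h1, h2]
  have hmem : ∀ p ∈ wins d n ×ˢ range n, (Function.update p.1 i p.2, p.1 i) ∈ wins d n ×ˢ range n := by
    intro p hp
    rw [mem_product, mem_wins, mem_range] at hp ⊢
    refine ⟨fun j => ?_, hp.1 i⟩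
    by_cases hj : j = i
    · subst hj
      show Function.update p.1 j p.2 j < n
      rw [Function.update_self]
      exact hp.2
    · show Function.update p.1 i p.2 j < n
      rw [Function.update_of_ne hj]
      exact hp.1 j
  refine Finset.sum_bij' (fun p _ => (Function.update p.1 i p.2, p.1 i))
    (fun p _ => (Function.update p.1 i p.2, p.1 i)) hmem hmem ?_ ?_ ?_
  · intro p _
    simp
  · intro p _
    simp
  · intro p _
    simp

end FHD
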