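import Pool.Agent.FHA.Cut

/-!
# FHD.CutD: few additional cuts make all sums of square roots small (all axes at once)

`X i` is a set of cuts on axis `i`: the coordinate `x` of axis `i` has the label `lab (X i) x`; the points `j : Fin k` of the pattern have the
coordinates `π i j`; `partD π X i j` is the set of the points which are in the same part of axis `i` as `j`.
`rrD π f X i R = ∑_{l ≠ i} ∑_c √(∑_{j ∈ R, lab (X l) (π l j) = c} f i l j)` for a set `R` of points.

PROOF of `cutD` (as `FHA.cut`, which is the case of two axes; the private lemmas of `Pool/Agent/FHA/Cut.lean` can be copied).  If `k = 0` take `X = X0`;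
if there is a point `j` (and an axis) then `0 ≤ lam`; if `d = 0` everything is trivial.
Facts, for fixed `i`: (1) `rrD π f X i R` is monotone in `R`; (2) `rrD (R ∪ R') ≤ rrD R + rrD R'`;
(3) `rrD (insert j R) ≤ rrD R + ∑_{l ≠ i} √(f i l j)`; (4) if `x ∉ X p` and `X' = Function.update X p (insert x (X p))` then
`rrD π f X i R ≤ rrD π f X' i R` for all `i`, `R`, with equality if `i = p` (`rrD π f X i R` does not use `X i`): for `l = p` the part of `x` is split and
`√(a + b) ≤ √a + √b` (general form: if `lab Y` is a function of `lab Y'` then the sum over `c` for `Y` is at most that for `Y'`;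
this is `Cut_ref`), for `l ≠ p` nothing changes.
Let `Ok X` be: `X0 i ⊆ X i` for all `i`, and the last property of the statement.  `Ok X0`.  Take `X` with `Ok X` and `∑_i |X i|` maximal.
Suppose `ρ := rrD π f X i (partD π X i j0) > 9 lam` for some `i`, `j0`.  For `t ≤ k` let `R_t` be the set of the `j ∈ partD π X i j0` with `π i j < t`.
`rrD R_0 = 0`, `rrD R_k = ρ > 0`, so there is a least `t` with `rrD R_t > ρ/2`; then `t = x + 1`, `x = π i j` for some `j ∈ partD π X i j0` (otherwise
`R_t = R_x`), `rrD R_x ≤ ρ/2` and `rrD R_x ≥ rrD R_(x+1) - lam > 9/2 lam - lam = 7/2 lam ≥ 0` by (3) and `hlam`, and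
`rrD (partD π X i j0 \ R_x) ≥ ρ - rrD R_x ≥ ρ/2 > 7/2 lam` by (2).  `R_x` is nonempty, so `x` is not the smallest coordinate of its part and
`x ∉ X i`.  Put `X' = update X i (insert x (X i))`.  The parts of axis `i` for `X'` are those for `X`, except that `partD π X i j0` is replaced by `R_x` and
`partD π X i j0 \ R_x`; for the parts of axis `i` the sums `rrD` have not changed, for the parts of the other axes (unchanged) they have
not decreased, by (4).  So `Ok X'`, which contradicts the maximality.
-/

set_option autoImplicit false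

namespace FHD

open Finset FHA

variable {d k : ℕ}

/-- the points in the same part of axis `i` as `j` -/
def partD (π : Fin d → Equiv.Perm (Fin k)) (X : Fin d → Finset (Fin k)) (i : Fin d) (j : Fin k) :
    Finset (Fin k) :=
  univ.filter fun j' => lab (X i) (π i j') = lab (X i) (π i j)

noncomputable def rrD (π : Fin d → Equiv.Perm (Fin k)) (f : Fin d → Fin d → Fin k → ℝ)
    (X : Fin d → Finset (Fin k)) (i : Fin d) (R : Finset (Fin k)) : ℝ :=
  ∑ l ∈ univ.erase i, ∑ c ∈ range (k + 1), √(∑ j ∈ R.filter (fun j => lab (X l) (π l j) = c), f i l j)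

private theorem CutD_sqrt_add {a b : ℝ} (ha : 0 ≤ a) (hb : 0 ≤ b) : √(a + b) ≤ √a + √b := by
  rw [Real.sqrt_le_left (by positivity)]
  have h1 := Real.sq_sqrt ha
  have h2 := Real.sq_sqrt hb
  have h3 : 0 ≤ √a * √b := by positivity
  nlinarith

private theorem CutD_sqrt_sum {ι : Type} [DecidableEq ι] (s : Finset ι) (g : ι → ℝ) (hg : ∀ i, 0 ≤ g i) :
    √(∑ i ∈ s, g i) ≤ ∑ i ∈ s, √(g i) := by
  induction s using Finset.induction_on with
  | empty => simp
  | insert a s ha ih =>
    rw [Finset.sum_insert ha, Finset.sum_insert ha]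
    exact (CutD_sqrt_add (hg a) (Finset.sum_nonneg fun i _ => hg i)).trans (by linarith)

private theorem CutD_mono (σ : Equiv.Perm (Fin k)) (f : Fin k → ℝ) (hf : ∀ i, 0 ≤ f i)
    (Y : Finset (Fin k)) {R R' : Finset (Fin k)} (h : R ⊆ R') : rr σ f Y R ≤ rr σ f Y R' := by
  unfold rr
  refine Finset.sum_le_sum fun c _ => Real.sqrt_le_sqrt ?_
  exact Finset.sum_le_sum_of_subset_of_nonneg (Finset.filter_subset_filter _ h) fun i _ _ => hf i

private theorem CutD_union (σ : Equiv.Perm (Fin k)) (f : Fin k → ℝ) (hf : ∀ i, 0 ≤ f i)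
    (Y R R' : Finset (Fin k)) : rr σ f Y (R ∪ R') ≤ rr σ f Y R + rr σ f Y R' := by
  unfold rr
  rw [← Finset.sum_add_distrib]
  refine Finset.sum_le_sum fun c _ => ?_
  refine le_trans (Real.sqrt_le_sqrt ?_)
    (CutD_sqrt_add (Finset.sum_nonneg fun i _ => hf i) (Finset.sum_nonneg fun i _ => hf i))
  rw [Finset.filter_union]
  have h1 := Finset.sum_union_inter (s₁ := R.filter fun i => lab Y (σ i) = c)
    (s₂ := R'.filter fun i => lab Y (σ i) = c) (f := f)
  have h2 : 0 ≤ ∑ i ∈ (R.filter fun i => lab Y (σ i) = c) ∩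
      (R'.filter fun i => lab Y (σ i) = c), f i := Finset.sum_nonneg fun i _ => hf i
  linarith

private theorem CutD_single (σ : Equiv.Perm (Fin k)) (f : Fin k → ℝ)
    (Y : Finset (Fin k)) (j : Fin k) : rr σ f Y {j} ≤ √(f j) := by
  unfold rr
  have h1 : ∀ c ∈ range (k + 1), √(∑ i ∈ ({j} : Finset (Fin k)).filter
      (fun i => lab Y (σ i) = c), f i) = if lab Y (σ j) = c then √(f j) else 0 := by
    intro c _
    by_cases h : lab Y (σ j) = c
    · rw [if_pos h, Finset.filter_true_of_mem (by simpa using h), Finset.sum_singleton]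
    · rw [if_neg h, Finset.filter_false_of_mem (by simpa using h), Finset.sum_empty,
        Real.sqrt_zero]
  rw [Finset.sum_congr rfl h1, Finset.sum_ite_eq]
  split_ifs
  · exact le_rfl
  · exact Real.sqrt_nonneg _

private theorem CutD_empty (σ : Equiv.Perm (Fin k)) (f : Fin k → ℝ) (Y : Finset (Fin k)) :
    rr σ f Y ∅ = 0 := by
  unfold rr
  simp

private theorem CutD_lab_le (X : Finset (Fin k)) (i : Fin k) : lab X i ≤ k := by
  unfold lab
  exact (Finset.card_le_univ _).trans (by rw [Fintype.card_fin])

private theorem CutD_lab_mono (X : Finset (Fin k)) {i j : Fin k} (h : i ≤ j) :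
    lab X i ≤ lab X j := by
  unfold lab
  exact Finset.card_le_card fun x hx => by
    rw [Finset.mem_filter] at hx ⊢
    exact ⟨hx.1, hx.2.trans h⟩

private theorem CutD_lab_insert (X : Finset (Fin k)) {j : Fin k} (hj : j ∉ X) (x : Fin k) :
    lab (insert j X) x = lab X x + if j ≤ x then 1 else 0 := by
  unfold lab
  rw [Finset.filter_insert]
  split_ifs with h
  · rw [Finset.card_insert_of_notMem]
    rw [Finset.mem_filter]
    exact fun h' => hj h'.1
  · rfl

/-- refinement of the columns -/
private theorem CutD_ref (σ : Equiv.Perm (Fin k)) (f : Fin k → ℝ) (hf : ∀ i, 0 ≤ f i)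
    {Y Y' : Finset (Fin k)} (h : ∀ x y, lab Y' x = lab Y' y → lab Y x = lab Y y)
    (R : Finset (Fin k)) : rr σ f Y R ≤ rr σ f Y' R := by
  unfold rr
  have h1 : ∀ c ∈ range (k + 1), √(∑ i ∈ R.filter (fun i => lab Y (σ i) = c), f i) ≤
      ∑ c' ∈ range (k + 1), √(∑ i ∈ R.filter
        (fun i => lab Y (σ i) = c ∧ lab Y' (σ i) = c'), f i) := by
    intro c _
    have e1 : ∑ i ∈ R.filter (fun i => lab Y (σ i) = c), f i =
        ∑ c' ∈ range (k + 1), ∑ i ∈ R.filter
          (fun i => lab Y (σ i) = c ∧ lab Y' (σ i) = c'), f i := by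
      rw [← Finset.sum_fiberwise_of_maps_to (s := R.filter (fun i => lab Y (σ i) = c))
        (t := range (k + 1)) (g := fun i => lab Y' (σ i))
        (fun i _ => Finset.mem_range.2 (Nat.lt_succ_of_le (CutD_lab_le _ _)))]
      refine Finset.sum_congr rfl fun c' _ => ?_
      rw [Finset.filter_filter]
    rw [e1]
    exact CutD_sqrt_sum _ _ fun c' => Finset.sum_nonneg fun i _ => hf i
  refine (Finset.sum_le_sum h1).trans ?_
  rw [Finset.sum_comm]
  refine Finset.sum_le_sum fun c' _ => ?_
  rcases (R.filter (fun i => lab Y' (σ i) = c')).eq_empty_or_nonempty with h2 | ⟨i0, hi0⟩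
  · rw [Finset.sum_eq_zero]
    · exact Real.sqrt_nonneg _
    · intro c _
      have e2 : R.filter (fun i => lab Y (σ i) = c ∧ lab Y' (σ i) = c') = ∅ := by
        rw [Finset.eq_empty_iff_forall_notMem] at h2 ⊢
        intro i hi
        rw [Finset.mem_filter] at hi
        exact h2 i (Finset.mem_filter.2 ⟨hi.1, hi.2.2⟩)
      rw [e2, Finset.sum_empty, Real.sqrt_zero]
  · rw [Finset.mem_filter] at hi0
    rw [Finset.sum_eq_single (lab Y (σ i0))]
    · refine Real.sqrt_le_sqrt (Finset.sum_le_sum_of_subset_of_nonneg ?_ fun i _ _ => hf i)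
      intro i hi
      rw [Finset.mem_filter] at hi ⊢
      exact ⟨hi.1, hi.2.2⟩
    · intro c _ hc
      have e2 : R.filter (fun i => lab Y (σ i) = c ∧ lab Y' (σ i) = c') = ∅ := by
        rw [Finset.eq_empty_iff_forall_notMem]
        intro i hi
        rw [Finset.mem_filter] at hi
        apply hc
        rw [← hi.2.1]
        exact h _ _ (hi.2.2.trans hi0.2.symm)
      rw [e2, Finset.sum_empty, Real.sqrt_zero]
    · intro h3
      exact absurd (Finset.mem_range.2 (Nat.lt_succ_of_le (CutD_lab_le _ _))) h3

private theorem CutD_ref_insert {Y : Finset (Fin k)} {j : Fin k} (hj : j ∉ Y) :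
    ∀ x y, lab (insert j Y) x = lab (insert j Y) y → lab Y x = lab Y y := by
  have key : ∀ x y, x ≤ y → lab (insert j Y) x = lab (insert j Y) y → lab Y x = lab Y y := by
    intro x y hxy h
    rw [CutD_lab_insert Y hj, CutD_lab_insert Y hj] at h
    have h1 := CutD_lab_mono Y hxy
    split_ifs at h with h2 h3 h3
    · omega
    · exact absurd (h2.trans hxy) h3
    · omega
    · omega
  intro x y h
  rcases le_total x y with hxy | hxy
  · exact key x y hxy h
  · exact (key y x hxy h.symm).symm

private theorem CutD_eq (π : Fin d → Equiv.Perm (Fin k)) (f : Fin d → Fin d → Fin k → ℝ)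
    (X : Fin d → Finset (Fin k)) (i : Fin d) (R : Finset (Fin k)) :
    rrD π f X i R = ∑ l ∈ univ.erase i, rr (π l) (f i l) (X l) R := rfl

private theorem CutD_U (π : Fin d → Equiv.Perm (Fin k)) (f : Fin d → Fin d → Fin k → ℝ)
    (hf : ∀ i l j, 0 ≤ f i l j) (X : Fin d → Finset (Fin k)) (i : Fin d) (R R' : Finset (Fin k)) :
    rrD π f X i (R ∪ R') ≤ rrD π f X i R + rrD π f X i R' := by
  rw [CutD_eq, CutD_eq, CutD_eq, ← Finset.sum_add_distrib]
  exact Finset.sum_le_sum fun l _ => CutD_union _ _ (fun j => hf i l j) _ _ _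

private theorem CutD_S (π : Fin d → Equiv.Perm (Fin k)) (f : Fin d → Fin d → Fin k → ℝ)
    {lam : ℝ} (hlam : ∀ i j, ∑ l ∈ univ.erase i, √(f i l j) ≤ lam)
    (X : Fin d → Finset (Fin k)) (i : Fin d) (j : Fin k) : rrD π f X i {j} ≤ lam := by
  rw [CutD_eq]
  exact (Finset.sum_le_sum fun l _ => CutD_single _ _ _ _).trans (hlam i j)

private theorem CutD_E (π : Fin d → Equiv.Perm (Fin k)) (f : Fin d → Fin d → Fin k → ℝ)
    (X : Fin d → Finset (Fin k)) (i : Fin d) : rrD π f X i ∅ = 0 := by
  rw [CutD_eq]
  exact Finset.sum_eq_zero fun l _ => CutD_empty _ _ _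

private theorem CutD_upd_eq (π : Fin d → Equiv.Perm (Fin k)) (f : Fin d → Fin d → Fin k → ℝ)
    (X : Fin d → Finset (Fin k)) (i : Fin d) (Y R : Finset (Fin k)) :
    rrD π f (Function.update X i Y) i R = rrD π f X i R := by
  rw [CutD_eq, CutD_eq]
  refine Finset.sum_congr rfl fun l hl => ?_
  rw [Function.update_of_ne (Finset.ne_of_mem_erase hl)]

private theorem CutD_upd_le (π : Fin d → Equiv.Perm (Fin k)) (f : Fin d → Fin d → Fin k → ℝ)
    (hf : ∀ i l j, 0 ≤ f i l j) (X : Fin d → Finset (Fin k)) (p : Fin d) {x : Fin k}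
    (hx : x ∉ X p) (i : Fin d) (R : Finset (Fin k)) :
    rrD π f X i R ≤ rrD π f (Function.update X p (insert x (X p))) i R := by
  rw [CutD_eq, CutD_eq]
  refine Finset.sum_le_sum fun l _ => ?_
  rcases eq_or_ne l p with rfl | hl
  · rw [Function.update_self]
    exact CutD_ref _ _ (fun j => hf i l j) (CutD_ref_insert hx) _
  · rw [Function.update_of_ne hl]

private theorem CutD_mem {π : Fin d → Equiv.Perm (Fin k)} {X : Fin d → Finset (Fin k)}
    {i : Fin d} {j x : Fin k} :
    x ∈ partD π X i j ↔ lab (X i) (π i x) = lab (X i) (π i j) := by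
  unfold partD
  simp

/-- the state of the construction -/
private def CutD_ok (π : Fin d → Equiv.Perm (Fin k)) (f : Fin d → Fin d → Fin k → ℝ) (lam : ℝ)
    (X0 X : Fin d → Finset (Fin k)) : Prop :=
  (∀ i, X0 i ⊆ X i) ∧
    (∀ i j, partD π X i j = partD π X0 i j ∨ 7 / 2 * lam < rrD π f X i (partD π X i j))

private theorem CutD_step {π : Fin d → Equiv.Perm (Fin k)} {f : Fin d → Fin d → Fin k → ℝ}
    (hf : ∀ i l j, 0 ≤ f i l j) {lam : ℝ}
    (hlam : ∀ i j, ∑ l ∈ univ.erase i, √(f i l j) ≤ lam) {X0 X : Fin d → Finset (Fin k)}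
    (h : CutD_ok π f lam X0 X) (i : Fin d) (i0 : Fin k)
    (hi : 9 * lam < rrD π f X i (partD π X i i0)) :
    ∃ x, x ∉ X i ∧ CutD_ok π f lam X0 (Function.update X i (insert x (X i))) := by
  have hlam0 : 0 ≤ lam := (Finset.sum_nonneg fun l _ => Real.sqrt_nonneg _).trans (hlam i i0)
  obtain ⟨P, hP⟩ : ∃ P, P = partD π X i i0 := ⟨_, rfl⟩
  obtain ⟨ρ, hρ⟩ : ∃ ρ, ρ = rrD π f X i P := ⟨_, rfl⟩
  rw [← hP, ← hρ] at hi
  have hex : ∃ t : ℕ, ρ / 2 < rrD π f X i (P.filter fun x : Fin k => (π i x : ℕ) < t) := by
    refine ⟨k, ?_⟩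
    rw [Finset.filter_true_of_mem fun x _ => (π i x).2, ← hρ]
    linarith
  classical
  obtain ⟨t, ht⟩ : ∃ t, t = Nat.find hex := ⟨_, rfl⟩
  have ht1 : ρ / 2 < rrD π f X i (P.filter fun x : Fin k => (π i x : ℕ) < t) :=
    ht ▸ Nat.find_spec hex
  have ht2 : ∀ t' < t, rrD π f X i (P.filter fun x : Fin k => (π i x : ℕ) < t') ≤ ρ / 2 := by
    intro t' h'
    rw [ht] at h'
    exact not_lt.1 (Nat.find_min hex h')
  have ht0 : t ≠ 0 := by
    intro h0
    rw [h0, Finset.filter_false_of_mem fun x _ => Nat.not_lt_zero _, CutD_E] at ht1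
    linarith
  obtain ⟨j0, rfl⟩ := Nat.exists_eq_succ_of_ne_zero ht0
  have hj1 := ht2 j0 (Nat.lt_succ_self _)
  -- the point with coordinate `j0` is in `P`
  have hjP : ∃ j : Fin k, (π i j : ℕ) = j0 ∧ j ∈ P := by
    by_contra hcon
    have e : (P.filter fun x : Fin k => (π i x : ℕ) < j0.succ) =
        P.filter fun x : Fin k => (π i x : ℕ) < j0 := by
      refine Finset.filter_congr fun x hx => ?_
      have h1 : (π i x : ℕ) ≠ j0 := fun h' => hcon ⟨x, h', hx⟩
      omega
    rw [e] at ht1
    linarith
  obtain ⟨q, rfl, hqP⟩ := hjP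
  obtain ⟨j, hjq⟩ : ∃ j, j = π i q := ⟨_, rfl⟩
  rw [← hjq] at hj1 ht1 ht2 ht0
  have hjl : lab (X i) j = lab (X i) (π i i0) := by
    rw [hP] at hqP
    rw [hjq]
    exact CutD_mem.1 hqP
  obtain ⟨R, hR⟩ : ∃ R, R = P.filter fun x => π i x < j := ⟨_, rfl⟩
  have hR' : (P.filter fun x : Fin k => (π i x : ℕ) < (j : ℕ)) = R := by
    rw [hR]
    rfl
  rw [hR'] at hj1
  have hRs : (P.filter fun x : Fin k => (π i x : ℕ) < (j : ℕ).succ) = R ∪ {q} := by
    rw [← hR']
    ext x
    simp only [Finset.mem_filter, Finset.mem_union, Finset.mem_singleton]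
    constructor
    · rintro ⟨h1, h2⟩
      rcases Nat.lt_succ_iff_lt_or_eq.1 h2 with h3 | h3
      · exact Or.inl ⟨h1, h3⟩
      · refine Or.inr ((π i).injective (Fin.ext ?_))
        rw [h3, hjq]
    · rintro (⟨h1, h2⟩ | rfl)
      · exact ⟨h1, h2.trans (Nat.lt_succ_self _)⟩
      · refine ⟨hqP, ?_⟩
        rw [hjq]
        exact Nat.lt_succ_self _
  rw [hRs] at ht1
  have hR1 : 7 / 2 * lam < rrD π f X i R := by
    have h1 := CutD_U π f hf X i R {q}
    have h2 := CutD_S π f hlam X i q
    linarith
  have hR2 : 7 / 2 * lam < rrD π f X i (P.filter fun x => j ≤ π i x) := by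
    have h1 := CutD_U π f hf X i R (P.filter fun x => j ≤ π i x)
    have e : R ∪ (P.filter fun x => j ≤ π i x) = P := by
      rw [hR]
      ext x
      simp only [Finset.mem_union, Finset.mem_filter]
      constructor
      · rintro (h | h) <;> exact h.1
      · intro h
        rcases lt_or_ge (π i x) j with h' | h'
        · exact Or.inl ⟨h, h'⟩
        · exact Or.inr ⟨h, h'⟩
    rw [e, ← hρ] at h1
    linarith
  have hne : R.Nonempty := by
    rw [Finset.nonempty_iff_ne_empty]
    rintro h0
    rw [h0, CutD_E] at hR1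
    linarith
  have hjX : j ∉ X i := by
    intro hjX
    obtain ⟨x, hx⟩ := hne
    rw [hR, Finset.mem_filter, hP, CutD_mem] at hx
    have h1 : lab (X i) (π i x) < lab (X i) j := by
      unfold lab
      refine Finset.card_lt_card ?_
      rw [Finset.ssubset_iff_of_subset]
      · refine ⟨j, Finset.mem_filter.2 ⟨hjX, le_rfl⟩, ?_⟩
        rw [Finset.mem_filter]
        exact fun h' => absurd hx.2 (not_lt.2 h'.2)
      · intro y hy
        rw [Finset.mem_filter] at hy ⊢
        exact ⟨hy.1, hy.2.trans hx.2.le⟩
    omega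
  refine ⟨j, hjX, ?_, ?_⟩
  · intro i'
    rcases eq_or_ne i' i with rfl | hne'
    · rw [Function.update_self]
      exact (h.1 _).trans (Finset.subset_insert _ _)
    · rw [Function.update_of_ne hne']
      exact h.1 i'
  · intro i' q'
    rcases eq_or_ne i' i with rfl | hne'
    · rw [CutD_upd_eq]
      have hXi : Function.update X i' (insert j (X i')) i' = insert j (X i') :=
        Function.update_self _ _ _
      by_cases hi' : lab (X i') (π i' q') = lab (X i') j
      · right
        rcases lt_or_ge (π i' q') j with h' | h'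
        · have e : partD π (Function.update X i' (insert j (X i'))) i' q' = R := by
            ext x
            rw [CutD_mem, hXi, CutD_lab_insert (X i') hjX, CutD_lab_insert (X i') hjX,
              if_neg (not_le.2 h'), hR, Finset.mem_filter, hP, CutD_mem]
            have hm : j ≤ π i' x → lab (X i') j ≤ lab (X i') (π i' x) :=
              fun h => CutD_lab_mono (X i') h
            split_ifs with hx
            · have := hm hx
              constructor
              · intro h1
                omega
              · rintro ⟨_, h2⟩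
                exact absurd h2 (not_lt.2 hx)
            · rw [not_le] at hx
              constructor
              · intro h1
                exact ⟨by omega, hx⟩
              · rintro ⟨h1, _⟩
                omega
          rw [e]
          exact hR1
        · have e : partD π (Function.update X i' (insert j (X i'))) i' q' =
              P.filter fun x => j ≤ π i' x := by
            ext x
            rw [CutD_mem, hXi, CutD_lab_insert (X i') hjX, CutD_lab_insert (X i') hjX,
              if_pos h', Finset.mem_filter, hP, CutD_mem]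
            have hm : π i' x ≤ j → lab (X i') (π i' x) ≤ lab (X i') j :=
              fun h => CutD_lab_mono (X i') h
            split_ifs with hx
            · constructor
              · intro h1
                exact ⟨by omega, hx⟩
              · rintro ⟨h1, _⟩
                omega
            · have := hm (not_le.1 hx).le
              constructor
              · intro h1
                omega
              · rintro ⟨_, h2⟩
                exact absurd h2 hx
          rw [e]
          exact hR2
      · have e : partD π (Function.update X i' (insert j (X i'))) i' q' = partD π X i' q' := by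
          ext x
          rw [CutD_mem, hXi, CutD_lab_insert (X i') hjX, CutD_lab_insert (X i') hjX, CutD_mem]
          have m1 : j ≤ π i' x → lab (X i') j ≤ lab (X i') (π i' x) :=
            fun h => CutD_lab_mono (X i') h
          have m2 : π i' x ≤ j → lab (X i') (π i' x) ≤ lab (X i') j :=
            fun h => CutD_lab_mono (X i') h
          have m3 : j ≤ π i' q' → lab (X i') j ≤ lab (X i') (π i' q') :=
            fun h => CutD_lab_mono (X i') h
          have m4 : π i' q' ≤ j → lab (X i') (π i' q') ≤ lab (X i') j :=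
            fun h => CutD_lab_mono (X i') h
          split_ifs with hx hi2 hi2
          · omega
          · have a1 := m1 hx
            have a2 := m4 (not_le.1 hi2).le
            constructor <;> intro h1 <;> omega
          · have a1 := m2 (not_le.1 hx).le
            have a2 := m3 hi2
            constructor <;> intro h1 <;> omega
          · omega
        rw [e]
        exact h.2 i' q'
    · have e : partD π (Function.update X i (insert j (X i))) i' q' = partD π X i' q' := by
        unfold partD
        rw [Function.update_of_ne hne']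
      rw [e]
      rcases h.2 i' q' with h1 | h1
      · exact Or.inl h1
      · exact Or.inr (h1.trans_le (CutD_upd_le π f hf X i hjX i' _))

theorem cutD (π : Fin d → Equiv.Perm (Fin k)) (f : Fin d → Fin d → Fin k → ℝ) (hf : ∀ i l j, 0 ≤ f i l j)
    {lam : ℝ} (hlam : ∀ i j, ∑ l ∈ univ.erase i, √(f i l j) ≤ lam) (X0 : Fin d → Finset (Fin k)) :
    ∃ X : Fin d → Finset (Fin k), (∀ i, X0 i ⊆ X i) ∧
      (∀ i j, rrD π f X i (partD π X i j) ≤ 9 * lam) ∧
      (∀ i j, partD π X i j = partD π X0 i j ∨ 7 / 2 * lam < rrD π f X i (partD π X i j)) := by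
  classical
  obtain ⟨X, hmem, hmax⟩ := Finset.exists_max_image
    ((univ : Finset (Fin d → Finset (Fin k))).filter
      fun X => CutD_ok π f lam X0 X) (fun X => ∑ i, (X i).card)
    ⟨X0, Finset.mem_filter.2 ⟨Finset.mem_univ _,
      fun i => Finset.Subset.refl _, fun i j => Or.inl rfl⟩⟩
  rw [Finset.mem_filter] at hmem
  have hok : CutD_ok π f lam X0 X := hmem.2
  refine ⟨X, hok.1, ?_, hok.2⟩
  intro i i0
  by_contra hcon
  obtain ⟨x, hx, hx2⟩ := CutD_step hf hlam hok i i0 (not_le.1 hcon)
  have h1 := hmax _ (Finset.mem_filter.2 ⟨Finset.mem_univ _, hx2⟩)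
  have h2 : ∑ l, (X l).card < ∑ l, (Function.update X i (insert x (X i)) l).card := by
    refine Finset.sum_lt_sum (fun l _ => ?_) ⟨i, Finset.mem_univ _, ?_⟩
    · rcases eq_or_ne l i with rfl | hl
      · rw [Function.update_self]
        exact Finset.card_le_card (Finset.subset_insert _ _)
      · rw [Function.update_of_ne hl]
    · rw [Function.update_self, Finset.card_insert_of_notMem hx]
      exact Nat.lt_succ_self _
  exact absurd h1 (not_le.2 h2)

end FHD
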