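import Pool.Agent.FHD.Pat

/-!
# FHD.DensS: densities of a set of tuples in `d`-dimensional cells

PROOF (`d`-dimensional version of `Pool/Agent/FHA/Dens.lean`).
`densS_nonneg` is clear.
`densS_le_one`: the map `z ↦ (z i % n ^ a i)_i` is injective on the cell of level `a` and index `u` (`z i = u i n ^ a i + z i % n ^ a i`) and
has values in `Fintype.piFinset (fun i => range (n ^ a i))`, which has `∏ n ^ a i` elements (`Fintype.card_piFinset`).
`densS_sum`: a point `z` is in the cell of level `a + e` and index `U` iff it is in exactly one of the cells of level `a` and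
index `U i n ^ e i + u i`, `u i < n ^ e i`, namely `u i = z i / n ^ a i % n ^ e i`: for `x : ℕ`, `x / n ^ (a + e) = U` iff there is a
`u < n ^ e` with `x / n ^ a = U n ^ e + u` (`Nat.div_div_eq_div_mul`, `pow_add`).  So
`cntS n S (a + e) U = ∑_u cntS n S a (U n ^ e + u)` (`Finset.card_eq_sum_card_fiberwise` with the function
`z ↦ (z i / n ^ a i % n ^ e i)_i`), and `∏ n ^ (a i + e i) = ∏ n ^ a i * ∏ n ^ e i`.
`densS_split` is `densS_sum` for `e = 1` (`n ^ 1 = n`, `∏ n = n ^ d`); `densS_nonneg` and the definition give `irrS_nonneg`.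
`densS_child_le`: if `2 * densS (a + 1) u < densS a (u n + c)` then the right hand side is `≥ n ^ d * irrS ≥ densS a (u n + c)` (one term of a sum of
nonnegative terms, `n ≥ 1`); otherwise clear.
`densS_start`: `z i / n ^ D = 0` for `z ∈ S ⊆ box d (n ^ D)`.
-/

set_option linter.all false

namespace FHD

open Finset

variable {d : ℕ}

theorem densS_nonneg (n : ℕ) (S : Finset (Fin d → ℕ)) (a u : Fin d → ℕ) : 0 ≤ densS n S a u := by
  unfold densS
  positivity

private theorem DensS_mod_inj {m x y : ℕ} (h : x / m = y / m) (h' : x % m = y % m) : x = y := by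
  rw [← Nat.div_add_mod x m, ← Nat.div_add_mod y m, h, h']

private theorem DensS_iff {n : ℕ} (hn : 1 ≤ n) (a e U u x : ℕ) (hu : u < n ^ e) :
    (x / n ^ (a + e) = U ∧ x / n ^ a % n ^ e = u) ↔ x / n ^ a = U * n ^ e + u := by
  have he : 0 < n ^ e := pow_pos hn e
  rw [pow_add, ← Nat.div_div_eq_div_mul]
  constructor
  · rintro ⟨h1, h2⟩
    rw [← h1, ← h2, mul_comm]
    exact (Nat.div_add_mod _ _).symm
  · intro h
    rw [h]
    constructor
    · rw [Nat.add_comm, Nat.add_mul_div_right _ _ he, Nat.div_eq_of_lt hu, Nat.zero_add]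
    · rw [Nat.add_comm, Nat.add_mul_mod_self_right, Nat.mod_eq_of_lt hu]

theorem densS_le_one {n : ℕ} (hn : 1 ≤ n) (S : Finset (Fin d → ℕ)) (a u : Fin d → ℕ) : densS n S a u ≤ 1 := by
  have hn' : (0 : ℝ) < n := by exact_mod_cast hn
  have hp : (0 : ℝ) < ∏ i, (n : ℝ) ^ a i := Finset.prod_pos fun i _ => pow_pos hn' _
  unfold densS
  rw [div_le_one hp]
  have h1 : cntS n S a u ≤ #(Fintype.piFinset fun i => range (n ^ a i)) := by
    unfold cntS
    refine Finset.card_le_card_of_injOn (fun z i => z i % n ^ a i) ?_ ?_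
    · intro z _
      simp only [Finset.mem_coe, Fintype.mem_piFinset, Finset.mem_range]
      exact fun i => Nat.mod_lt _ (pow_pos hn _)
    · intro z hz z' hz' h
      simp only [Finset.coe_filter, Set.mem_setOf_eq] at hz hz'
      funext i
      exact DensS_mod_inj ((hz.2 i).trans (hz'.2 i).symm) (congrFun h i)
  rw [Fintype.card_piFinset] at h1
  simp only [Finset.card_range] at h1
  exact_mod_cast h1

private theorem DensS_cnt {n : ℕ} (hn : 1 ≤ n) (S : Finset (Fin d → ℕ)) (a e U : Fin d → ℕ) :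
    ∑ u ∈ Fintype.piFinset (fun i => range (n ^ e i)), cntS n S a (fun i => U i * n ^ e i + u i) =
      cntS n S (fun i => a i + e i) U := by
  unfold cntS
  rw [Finset.card_eq_sum_card_fiberwise
    (s := S.filter fun z => ∀ i, z i / n ^ (a i + e i) = U i)
    (f := fun (z : Fin d → ℕ) (i : Fin d) => z i / n ^ a i % n ^ e i)
    (t := Fintype.piFinset (fun i => range (n ^ e i)))]
  · refine Finset.sum_congr rfl fun u hu => ?_
    rw [Finset.filter_filter]
    congr 1
    refine Finset.filter_congr fun z _ => ?_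
    have hu' : ∀ i, u i < n ^ e i := fun i => Finset.mem_range.1 (Fintype.mem_piFinset.1 hu i)
    constructor
    · intro h
      refine ⟨fun i => ((DensS_iff hn _ _ _ _ _ (hu' i)).2 (h i)).1, ?_⟩
      funext i
      exact ((DensS_iff hn _ _ _ _ _ (hu' i)).2 (h i)).2
    · rintro ⟨h1, h2⟩ i
      exact (DensS_iff hn _ _ _ _ _ (hu' i)).1 ⟨h1 i, congrFun h2 i⟩
  · intro z _
    simp only [Finset.mem_coe, Fintype.mem_piFinset, Finset.mem_range]
    exact fun i => Nat.mod_lt _ (pow_pos hn _)

theorem densS_sum {n : ℕ} (hn : 1 ≤ n) (S : Finset (Fin d → ℕ)) (a e U : Fin d → ℕ) :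
    ∑ u ∈ Fintype.piFinset (fun i => range (n ^ e i)), densS n S a (fun i => U i * n ^ e i + u i) =
      (∏ i, (n : ℝ) ^ e i) * densS n S (fun i => a i + e i) U := by
  have hn' : (0 : ℝ) < n := by exact_mod_cast hn
  have hp : (0 : ℝ) < ∏ i, (n : ℝ) ^ a i := Finset.prod_pos fun i _ => pow_pos hn' _
  have hq : (0 : ℝ) < ∏ i, (n : ℝ) ^ e i := Finset.prod_pos fun i _ => pow_pos hn' _
  unfold densS
  rw [← Finset.sum_div, ← Nat.cast_sum, DensS_cnt hn]
  simp only [pow_add]
  rw [Finset.prod_mul_distrib]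
  field_simp

theorem densS_split {n : ℕ} (hn : 1 ≤ n) (S : Finset (Fin d → ℕ)) (a u : Fin d → ℕ) :
    ∑ c ∈ box d n, densS n S a (fun i => u i * n + c i) = (n : ℝ) ^ d * densS n S (fun i => a i + 1) u := by
  have h := densS_sum hn S a (fun _ => 1) u
  simp only [pow_one, Finset.prod_const, Finset.card_univ, Fintype.card_fin] at h
  exact h

theorem irrS_nonneg (n : ℕ) (S : Finset (Fin d → ℕ)) (a u : Fin d → ℕ) : 0 ≤ irrS n S a u := by
  unfold irrS
  refine div_nonneg (Finset.sum_nonneg fun c _ => ?_) (by positivity)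
  split_ifs
  · exact densS_nonneg _ _ _ _
  · exact le_refl _

theorem densS_child_le {n : ℕ} (hn : 1 ≤ n) (S : Finset (Fin d → ℕ)) (a u : Fin d → ℕ) {c : Fin d → ℕ}
    (hc : ∀ i, c i < n) :
    densS n S a (fun i => u i * n + c i) ≤ 2 * densS n S (fun i => a i + 1) u + (n : ℝ) ^ d * irrS n S a u := by
  classical
  have hn' : (0 : ℝ) < n := by exact_mod_cast hn
  by_cases h : 2 * densS n S (fun i => a i + 1) u < densS n S a (fun i => u i * n + c i)
  · have h0 : 0 ≤ densS n S (fun i => a i + 1) u := densS_nonneg _ _ _ _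
    have h2 : densS n S a (fun i => u i * n + c i) ≤ (n : ℝ) ^ d * irrS n S a u := by
      unfold irrS
      rw [mul_div_cancel₀ _ (by positivity)]
      have hm : c ∈ box d n := by
        unfold box
        rw [Fintype.mem_piFinset]
        exact fun i => Finset.mem_range.2 (hc i)
      refine le_trans (le_of_eq ?_) (Finset.single_le_sum (fun c' _ => ?_) hm)
      · rw [if_pos h]
      · split_ifs
        · exact densS_nonneg _ _ _ _
        · exact le_refl _
    linarith
  · have h1 := irrS_nonneg n S a u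
    have h2 : 0 ≤ (n : ℝ) ^ d * irrS n S a u := by positivity
    have h0 : 0 ≤ densS n S (fun i => a i + 1) u := densS_nonneg _ _ _ _
    linarith [not_lt.1 h]

theorem densS_start {n : ℕ} (hn : 1 ≤ n) (S : Finset (Fin d → ℕ)) (D : ℕ) (hS : S ⊆ box d (n ^ D)) :
    densS n S (fun _ => D) (fun _ => 0) = (#S : ℝ) / ((n : ℝ) ^ D) ^ d := by
  have _ := hn
  unfold densS cntS
  have h1 : (S.filter fun z => ∀ i, z i / n ^ D = 0) = S := by
    refine Finset.filter_true_of_mem fun z hz i => ?_
    have := Fintype.mem_piFinset.1 (hS hz) i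
    exact Nat.div_eq_of_lt (Finset.mem_range.1 this)
  rw [h1]
  simp only [Finset.prod_const, Finset.card_univ, Fintype.card_fin]

end FHD
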