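import Pool.Agent.FHA.Dens
import Pool.Agent.FHD.DensS

/-!
# FHD.PtS: a point of a cell which avoids all the bad sets

PROOF.  Let `B = Fintype.piFinset (fun i => Finset.Ico (U i * n ^ A i) ((U i + 1) * n ^ A i))`, the points of the cell; `z i / n ^ A i = U i` iff
`z i` is in this interval, and `#B = ∏ n ^ A i > 0`.  Suppose that every `z ∈ B` is in `S` or has `(z i, z l) ∈ Z i l` for some
`i ≠ l`.  Then `#B ≤ #(B ∩ S) + ∑_i ∑_{l ≠ i} #{z ∈ B | (z i, z l) ∈ Z i l}`.  Here `#(B ∩ S) ≤ cntS n S A U = densS * #B`.  For `i ≠ l` the map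
`z ↦ ((z i, z l), z)`: the fibre of `(x, y)` (a point of `Z i l` with `x / n ^ A i = U i`, `y / n ^ A l = U l`) is
`{z ∈ B | z i = x, z l = y}`, a `piFinset` with `∏_{p ≠ i, l} n ^ A p` elements; so the number is at most
`cnt n (Z i l) (A i) (A l) (U i) (U l) * ∏_{p ≠ i, l} n ^ A p = FHA.dens n (Z i l) (A i) (A l) (U i) (U l) * #B`.  Divide by `#B`: a contradiction.
(A convenient way to count the fibre: `Fintype.piFinset (Function.update (Function.update I i {x}) l {y})`, `Fintype.card_piFinset`,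
`Finset.prod_update_of_mem`.)
-/

set_option autoImplicit false

namespace FHD

open Finset

private theorem ptS_div {m u x : ℕ} (hm : 0 < m) : x / m = u ↔ x ∈ Finset.Ico (u * m) ((u + 1) * m) := by
  rw [Finset.mem_Ico]
  constructor
  · rintro rfl
    exact ⟨Nat.div_mul_le_self x m, by
      rw [mul_comm]
      exact Nat.lt_mul_div_succ x hm⟩
  · rintro ⟨h1, h2⟩
    apply le_antisymm
    · exact Nat.lt_succ_iff.1 ((Nat.div_lt_iff_lt_mul hm).2 h2)
    · exact (Nat.le_div_iff_mul_le hm).2 h1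

private theorem ptS_card_upd {d : ℕ} (I : Fin d → Finset ℕ) {i l : Fin d} (hil : i ≠ l) (x y : ℕ) :
    #(Fintype.piFinset (Function.update (Function.update I i {x}) l {y})) =
      ∏ p ∈ (univ.erase i).erase l, #(I p) := by
  rw [Fintype.card_piFinset, ← Finset.mul_prod_erase univ _ (mem_univ i),
    ← Finset.mul_prod_erase (univ.erase i) _ (mem_erase.2 ⟨hil.symm, mem_univ l⟩),
    Function.update_of_ne hil, Function.update_self, Function.update_self, card_singleton,
    card_singleton, one_mul, one_mul]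
  apply Finset.prod_congr rfl
  intro p hp
  rw [mem_erase, mem_erase] at hp
  rw [Function.update_of_ne hp.1, Function.update_of_ne hp.2.1]

private theorem ptS_pair {d n : ℕ} (hn : 1 ≤ n) (Z : Finset (ℕ × ℕ)) (A U : Fin d → ℕ) {i l : Fin d}
    (hil : i ≠ l) :
    (#((Fintype.piFinset (fun i => Finset.Ico (U i * n ^ A i) ((U i + 1) * n ^ A i))).filter
      fun z => (z i, z l) ∈ Z) : ℝ) ≤
      FHA.dens n Z (A i) (A l) (U i) (U l) * ∏ i, (n : ℝ) ^ A i := by
  classical
  set I : Fin d → Finset ℕ := fun i => Finset.Ico (U i * n ^ A i) ((U i + 1) * n ^ A i) with hI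
  have hIc : ∀ i, #(I i) = n ^ A i := by
    intro i
    rw [hI]
    simp only [Nat.card_Ico]
    rw [add_mul, one_mul, Nat.add_sub_cancel_left]
  have hnp : ∀ p, 0 < n ^ A p := fun p => Nat.pow_pos hn
  set T := Z.filter fun z => z.1 / n ^ A i = U i ∧ z.2 / n ^ A l = U l with hT
  have h1 : #((Fintype.piFinset I).filter fun z => (z i, z l) ∈ Z) ≤
      #T * ∏ p ∈ (univ.erase i).erase l, n ^ A p := by
    have hmaps : ∀ z ∈ (Fintype.piFinset I).filter fun z => (z i, z l) ∈ Z, (z i, z l) ∈ T := by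
      intro z hz
      rw [mem_filter, Fintype.mem_piFinset] at hz
      rw [hT, mem_filter]
      exact ⟨hz.2, (ptS_div (hnp i)).2 (hz.1 i), (ptS_div (hnp l)).2 (hz.1 l)⟩
    rw [Finset.card_eq_sum_card_fiberwise hmaps]
    have h2 : ∀ p ∈ T, #(((Fintype.piFinset I).filter fun z => (z i, z l) ∈ Z).filter
        fun z => (z i, z l) = p) ≤ ∏ p ∈ (univ.erase i).erase l, n ^ A p := by
      rintro ⟨x, y⟩ _
      have h3 : ((Fintype.piFinset I).filter fun z => (z i, z l) ∈ Z).filter
          (fun z => (z i, z l) = (x, y)) ⊆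
          Fintype.piFinset (Function.update (Function.update I i {x}) l {y}) := by
        intro z hz
        rw [mem_filter, mem_filter, Fintype.mem_piFinset] at hz
        obtain ⟨⟨hz1, _⟩, hz2⟩ := hz
        rw [Prod.mk.injEq] at hz2
        rw [Fintype.mem_piFinset]
        intro p
        by_cases hpl : p = l
        · subst hpl
          rw [Function.update_self, mem_singleton]
          exact hz2.2
        · rw [Function.update_of_ne hpl]
          by_cases hpi : p = i
          · subst hpi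
            rw [Function.update_self, mem_singleton]
            exact hz2.1
          · rw [Function.update_of_ne hpi]
            exact hz1 p
      refine (card_le_card h3).trans ?_
      rw [ptS_card_upd I hil]
      simp only [hIc]
      exact le_rfl
    refine (Finset.sum_le_sum h2).trans ?_
    rw [Finset.sum_const, smul_eq_mul]
  have hn' : (0 : ℝ) < n := by exact_mod_cast hn
  have h4 : ∏ p, (n : ℝ) ^ A p = (n : ℝ) ^ A i * ((n : ℝ) ^ A l *
      ∏ p ∈ (univ.erase i).erase l, (n : ℝ) ^ A p) := by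
    rw [Finset.mul_prod_erase (univ.erase i) (fun p => (n : ℝ) ^ A p)
        (mem_erase.2 ⟨hil.symm, mem_univ l⟩),
      Finset.mul_prod_erase univ (fun p => (n : ℝ) ^ A p) (mem_univ i)]
  have h5 : (#((Fintype.piFinset I).filter fun z => (z i, z l) ∈ Z) : ℝ) ≤
      (#T : ℝ) * ∏ p ∈ (univ.erase i).erase l, (n : ℝ) ^ A p := by
    exact_mod_cast h1
  refine h5.trans (le_of_eq ?_)
  unfold FHA.dens FHA.cnt
  rw [h4, ← hT]
  field_simp

theorem exists_pt {d n : ℕ} (hn : 1 ≤ n) (Z : Fin d → Fin d → Finset (ℕ × ℕ)) (S : Finset (Fin d → ℕ))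
    (A U : Fin d → ℕ)
    (h : ∑ i, ∑ l ∈ univ.erase i, FHA.dens n (Z i l) (A i) (A l) (U i) (U l) + densS n S A U < 1) :
    ∃ z : Fin d → ℕ, (∀ i, z i / n ^ A i = U i) ∧ (∀ i l, i ≠ l → (z i, z l) ∉ Z i l) ∧ z ∉ S := by
  classical
  by_contra hcon
  push Not at hcon
  have hn' : (0 : ℝ) < n := by exact_mod_cast hn
  have hnp : ∀ p, 0 < n ^ A p := fun p => Nat.pow_pos hn
  set I : Fin d → Finset ℕ := fun i => Finset.Ico (U i * n ^ A i) ((U i + 1) * n ^ A i) with hI
  set Bx := Fintype.piFinset I with hBx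
  have hmem : ∀ z, z ∈ Bx ↔ ∀ i, z i / n ^ A i = U i := by
    intro z
    rw [hBx, Fintype.mem_piFinset]
    exact forall_congr' fun i => (ptS_div (hnp i)).symm
  have hcard : (#Bx : ℝ) = ∏ i, (n : ℝ) ^ A i := by
    rw [hBx, Fintype.card_piFinset]
    push_cast
    apply Finset.prod_congr rfl
    intro i _
    rw [hI]
    simp only [Nat.card_Ico]
    rw [add_mul, one_mul, Nat.add_sub_cancel_left]
    push_cast
    rfl
  have hpos : 0 < ∏ i, (n : ℝ) ^ A i := Finset.prod_pos fun i _ => pow_pos hn' _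
  have hsub : Bx ⊆ (Bx.filter fun z => z ∈ S) ∪
      univ.biUnion fun i => (univ.erase i).biUnion fun l => Bx.filter fun z => (z i, z l) ∈ Z i l := by
    intro z hz
    rw [mem_union]
    by_cases hzS : z ∈ S
    · left
      rw [mem_filter]
      exact ⟨hz, hzS⟩
    · right
      have h1 := hcon z ((hmem z).1 hz)
      have h2 : ∃ i l, i ≠ l ∧ (z i, z l) ∈ Z i l := by
        by_contra h3
        push Not at h3
        exact hzS (h1 h3)
      obtain ⟨i, l, hil, hzl⟩ := h2
      rw [mem_biUnion]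
      refine ⟨i, mem_univ i, ?_⟩
      rw [mem_biUnion]
      refine ⟨l, mem_erase.2 ⟨hil.symm, mem_univ l⟩, ?_⟩
      rw [mem_filter]
      exact ⟨hz, hzl⟩
  have h1 : #Bx ≤ #(Bx.filter fun z => z ∈ S) +
      ∑ i, ∑ l ∈ univ.erase i, #(Bx.filter fun z => (z i, z l) ∈ Z i l) := by
    refine (card_le_card hsub).trans ((card_union_le _ _).trans ?_)
    gcongr
    refine card_biUnion_le.trans (Finset.sum_le_sum fun i _ => ?_)
    exact card_biUnion_le
  have h2 : (#(Bx.filter fun z => z ∈ S) : ℝ) = densS n S A U * ∏ i, (n : ℝ) ^ A i := by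
    unfold densS cntS
    rw [div_mul_cancel₀ _ hpos.ne']
    congr 2
    ext z
    rw [mem_filter, mem_filter, hmem]
    exact and_comm
  have h3 : (#Bx : ℝ) ≤ densS n S A U * ∏ i, (n : ℝ) ^ A i +
      ∑ i, ∑ l ∈ univ.erase i, FHA.dens n (Z i l) (A i) (A l) (U i) (U l) * ∏ i, (n : ℝ) ^ A i := by
    have h4 : (#Bx : ℝ) ≤ (#(Bx.filter fun z => z ∈ S) : ℝ) +
        ∑ i, ∑ l ∈ univ.erase i, (#(Bx.filter fun z => (z i, z l) ∈ Z i l) : ℝ) := by
      exact_mod_cast h1
    refine h4.trans ?_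
    rw [h2]
    gcongr with i _ l hl
    rw [mem_erase] at hl
    exact ptS_pair hn (Z i l) A U hl.1.symm
  rw [hcard] at h3
  have h5 : densS n S A U * ∏ i, (n : ℝ) ^ A i +
      ∑ i, ∑ l ∈ univ.erase i, FHA.dens n (Z i l) (A i) (A l) (U i) (U l) * ∏ i, (n : ℝ) ^ A i =
      (∑ i, ∑ l ∈ univ.erase i, FHA.dens n (Z i l) (A i) (A l) (U i) (U l) + densS n S A U) *
        ∏ i, (n : ℝ) ^ A i := by
    simp_rw [← Finset.sum_mul]
    ring
  rw [h5] at h3
  have h6 := mul_lt_mul_of_pos_right h hpos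
  linarith

end FHD
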