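import Pool.Agent.FHD.StepD
import Pool.Agent.FHD.PtS

/-!
# FHD.EmbD: sparse sets of pairs and of tuples can be avoided by every `d`-dimensional permutation

PROOF (compare `Pool/Agent/FHA/Emb.lean`).
`StD_start`: `q = 0`, `A = D`, `U = 0`, one group on every axis; `wtD ≤ k`, `FHA.dens_start` (needs `Z i l ⊆ ..` for all `i ≠ l`) and `densS_start`:
for every `i` the pair sum is at most `∑_{l ≠ i} η √k ≤ d η √k`, the rest sum is at most `k η'`.
`StD_iter`: induction on `s` (`stepD` with `m * b ^ s`: `b ^ (s+1) m = b (b ^ s m)`, `(s+1) J + D = (s J + D) + J`; `1/K ≤ lam ≤ 608 (t+1) lam`,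
`1/K ≤ mu ≤ 12 * 4 ^ d mu`; `4 (d N) ≤ 4 (d N n ^ s) < 2 ^ t`; `N n n ^ s = N n ^ (s+1)`).
`StD_end`: every group has at most one element.  For each point `j` apply `exists_pt` with the levels `A i (q i (π i j))` and indices `U i (q i (π i j))`:
for every `i` the sum over `l ≠ i` of the densities is at most the pair sum of the group `q i (π i j)` (`wtD π q i l _ _ ≥ 1` because `j` is
counted; all terms are `≥ 0`), so at most `lam`; `densS ≤ mu` (one term of the rest sum, all terms are `≥ 0`); total `≤ d lam + mu < 1`.  We get `z j`; put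
`a i x = z ((π i).symm x) i`, so `a i (π i j) = z j i`.  If `x < y` then `q i x ≤ q i y`, and `q i x ≠ q i y` (otherwise the group would have two elements),
so `a i x < (U i g + 1) n ^ A i g ≤ U i g' n ^ A i g' ≤ a i y`.  `a i x < X` in the same way.
`embD`: let `n = 2 b`; given `Z`, `S` as in `PlD`, put `Z' i l = Z i l` for `i < l`, `(Z l i).image Prod.swap` for `l < i` and `∅` for `i = l` (symmetric, and
`#(Z' i l) ≤ η N0 ^ 2` for all `i`, `l` because `0 ≤ η`).  `lam0 = max (d η √K) (1/K)`, `mu0 = max (K η') (1/K)`; `StD_start` (with `X = n ^ (s J)`, `D = s J`,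
`√k ≤ √K`), `StD_iter` (`N = 1`, `m = 1`), `StD_end`: `d (608 (t+1))^s lam0 + (12 * 4^d)^s mu0 ≤ d * (1/(4 d)) + 1/4 < 1`.
-/

set_option autoImplicit false

namespace FHD

open Finset

variable {d : ℕ}

private theorem EmbD_card_le {k : ℕ} (P : Fin k → Prop) [DecidablePred P] :
    (univ.filter P).card ≤ k := by
  refine le_trans (Finset.card_filter_le _ _) ?_
  rw [Finset.card_univ, Fintype.card_fin]

theorem StD_start {n k D : ℕ} (hn : 1 ≤ n) (Z : Fin d → Fin d → Finset (ℕ × ℕ)) (S : Finset (Fin d → ℕ))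
    (π : Fin d → Equiv.Perm (Fin k)) {lam mu η η' : ℝ} (hη0 : 0 ≤ η) (hη0' : 0 ≤ η')
    (hZ : ∀ i l, Z i l ⊆ range (n ^ D) ×ˢ range (n ^ D))
    (hη : ∀ i l, (#(Z i l) : ℝ) ≤ η * ((n : ℝ) ^ D) ^ 2)
    (hS : S ⊆ box d (n ^ D)) (hη' : (#S : ℝ) ≤ η' * ((n : ℝ) ^ D) ^ d)
    (hlam : d * η * √k ≤ lam) (hmu : k * η' ≤ mu) {m : ℕ} (hk : k ≤ m) :
    StD n Z S π (n ^ D) 1 lam mu m D := by
  have hn0 : (0 : ℝ) < n := by exact_mod_cast hn
  have hd : ∀ i l, FHA.dens n (Z i l) D D 0 0 ≤ η := by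
    intro i l
    rw [FHA.dens_start hn (Z i l) D D (hZ i l), div_le_iff₀ (by positivity)]
    refine (hη i l).trans (le_of_eq ?_)
    ring
  refine ⟨fun _ _ => 0, fun _ _ => D, fun _ _ => 0, fun _ => monotone_const, fun _ _ => Nat.one_pos,
    fun i g g' h1 h2 => by omega, fun i g _ => ?_, fun _ _ _ => le_refl D,
    fun i g => (EmbD_card_le _).trans hk, fun i g _ => ?_, ?_⟩
  · rw [zero_add, one_mul]
  · refine le_trans ?_ hlam
    have key : ∀ l ∈ univ.erase i, ∑ h ∈ range 1, FHA.dens n (Z i l) D D 0 0 *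
        √(wtD π (fun (_ : Fin d) (_ : Fin k) => 0) i l g h) ≤ η * √k := by
      intro l _
      rw [Finset.sum_range_one]
      refine mul_le_mul (hd i l) ?_ (Real.sqrt_nonneg _) hη0
      refine Real.sqrt_le_sqrt ?_
      unfold wtD
      exact_mod_cast EmbD_card_le _
    refine (Finset.sum_le_sum key).trans ?_
    rw [Finset.sum_const, nsmul_eq_mul]
    have h1 : (((univ : Finset (Fin d)).erase i).card : ℝ) ≤ d := by
      have : ((univ : Finset (Fin d)).erase i).card ≤ d := by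
        refine (Finset.card_erase_le).trans ?_
        rw [Finset.card_univ, Fintype.card_fin]
      exact_mod_cast this
    calc (((univ : Finset (Fin d)).erase i).card : ℝ) * (η * √k) ≤ d * (η * √k) :=
          mul_le_mul_of_nonneg_right h1 (mul_nonneg hη0 (Real.sqrt_nonneg _))
      _ = d * η * √k := by ring
  · refine le_trans ?_ hmu
    rw [Finset.sum_const, Finset.card_univ, Fintype.card_fin, nsmul_eq_mul]
    refine mul_le_mul_of_nonneg_left ?_ (Nat.cast_nonneg _)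
    rw [densS_start hn S D hS, div_le_iff₀ (by positivity)]
    exact hη'

theorem StD_iter {n b J k K t X D m : ℕ} (hd : 2 ≤ d) (Z : Fin d → Fin d → Finset (ℕ × ℕ))
    (hZ : ∀ i l x y, (x, y) ∈ Z i l ↔ (y, x) ∈ Z l i) (S : Finset (Fin d → ℕ))
    (π : Fin d → Equiv.Perm (Fin k))
    (hn : n = 2 * b) (hb : 1 ≤ b) (hm : 1 ≤ m) (hk : k ≤ K) (hK : 2 ≤ K)
    (hJ : 12 * d * (2 * Real.log K + 1) * (n : ℝ) ^ (d + 1) ≤ J) (s : ℕ) : ∀ (N : ℕ) (lam mu : ℝ),
    1 / (K : ℝ) ≤ lam → 1 / (K : ℝ) ≤ mu → 4 * (d * (N * n ^ s)) < 2 ^ t →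
    StD n Z S π X N lam mu (b ^ s * m) (s * J + D) →
    StD n Z S π X (N * n ^ s) ((608 * (t + 1)) ^ s * lam) ((12 * 4 ^ d) ^ s * mu) m D := by
  induction s with
  | zero =>
    intro N lam mu _ _ _ h
    simpa using h
  | succ s ih =>
    intro N lam mu h1 h1' h2 h
    have hn1 : 1 ≤ n := by omega
    have hlam0 : 0 ≤ lam := le_trans (by positivity) h1
    have hmu0 : 0 ≤ mu := le_trans (by positivity) h1'
    have hN : 4 * (d * N) < 2 ^ t := by
      refine lt_of_le_of_lt ?_ h2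
      exact Nat.mul_le_mul_left 4 (Nat.mul_le_mul_left d (Nat.le_mul_of_pos_right N (Nat.pow_pos hn1)))
    have e1 : b ^ (s + 1) * m = b * (b ^ s * m) := by ring
    have e2 : (s + 1) * J + D = (s * J + D) + J := by ring
    rw [e1, e2] at h
    have hm' : 1 ≤ b ^ s * m := Nat.mul_pos (Nat.pow_pos hb) hm
    have h3 := stepD hd Z hZ S π hn hb hm' hk hK h1 h1' hJ hN h
    have h4 : 1 / (K : ℝ) ≤ 608 * ((t : ℝ) + 1) * lam := by
      have ht0 : (0 : ℝ) ≤ t := Nat.cast_nonneg t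
      nlinarith
    have h4' : 1 / (K : ℝ) ≤ 12 * 4 ^ d * mu := by
      have h41 : (1 : ℝ) ≤ 4 ^ d := one_le_pow₀ (by norm_num)
      nlinarith [mul_nonneg hmu0 (sub_nonneg.2 h41)]
    have h5 : 4 * (d * (N * n * n ^ s)) < 2 ^ t := by
      have e3 : N * n * n ^ s = N * n ^ (s + 1) := by ring
      rw [e3]
      exact h2
    have h6 := ih (N * n) (608 * ((t : ℝ) + 1) * lam) (12 * 4 ^ d * mu) h4 h4' h5 h3
    have e3 : N * n * n ^ s = N * n ^ (s + 1) := by ring
    have e4 : (608 * ((t : ℝ) + 1)) ^ s * (608 * ((t : ℝ) + 1) * lam) =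
        (608 * ((t : ℝ) + 1)) ^ (s + 1) * lam := by ring
    have e5 : (12 * 4 ^ d : ℝ) ^ s * (12 * 4 ^ d * mu) = (12 * 4 ^ d) ^ (s + 1) * mu := by ring
    rw [e3, e4, e5] at h6
    exact h6

private theorem EmbD_inj {k : ℕ} {p : Fin k → ℕ}
    (h : ∀ g, (univ.filter fun i => p i = g).card ≤ 1) (hp : Monotone p) : StrictMono p := by
  refine hp.strictMono_of_injective ?_
  intro i j hij
  have h1 := Finset.card_le_one.1 (h (p j))
  exact h1 i (by simp [hij]) j (by simp)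

private theorem EmbD_lt {n a u x : ℕ} (hn : 1 ≤ n) (h : x / n ^ a = u) : x < (u + 1) * n ^ a :=
  (Nat.div_lt_iff_lt_mul (Nat.pow_pos hn)).1 (by omega)

private theorem EmbD_le {n a u x : ℕ} (h : x / n ^ a = u) : u * n ^ a ≤ x := by
  rw [← h]
  exact Nat.div_mul_le_self x _

theorem StD_end {n k N D X : ℕ} (hn : 1 ≤ n) (Z : Fin d → Fin d → Finset (ℕ × ℕ)) (S : Finset (Fin d → ℕ))
    (π : Fin d → Equiv.Perm (Fin k)) {lam mu : ℝ} (hlm : d * lam + mu < 1)
    (h : StD n Z S π X N lam mu 1 D) :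
    ∃ a : Fin d → Fin k → ℕ, (∀ i, StrictMono (a i)) ∧ (∀ i x, a i x < X) ∧
      ∀ j, (∀ i l, i ≠ l → (a i (π i j), a l (π l j)) ∉ Z i l) ∧ (fun i => a i (π i j)) ∉ S := by
  obtain ⟨q, A, U, hq, hqN, hU, hUX, _, hcq, hr, hs⟩ := h
  have hqs : ∀ i, StrictMono (q i) := fun i => EmbD_inj (hcq i) (hq i)
  have hpt : ∀ j : Fin k, ∑ i, ∑ l ∈ univ.erase i, FHA.dens n (Z i l) (A i (q i (π i j)))
      (A l (q l (π l j))) (U i (q i (π i j))) (U l (q l (π l j))) +
      densS n S (fun i => A i (q i (π i j))) (fun i => U i (q i (π i j))) < 1 := by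
    intro j
    refine lt_of_le_of_lt (add_le_add ?_ ?_) hlm
    · have key : ∀ i ∈ (univ : Finset (Fin d)), ∑ l ∈ univ.erase i, FHA.dens n (Z i l)
          (A i (q i (π i j))) (A l (q l (π l j))) (U i (q i (π i j))) (U l (q l (π l j))) ≤ lam := by
        intro i _
        refine le_trans ?_ (hr i (q i (π i j)) (hqN i _))
        refine Finset.sum_le_sum fun l _ => ?_
        have h1 : ∀ h ∈ range N, 0 ≤ FHA.dens n (Z i l) (A i (q i (π i j))) (A l h)
            (U i (q i (π i j))) (U l h) * √(wtD π q i l (q i (π i j)) h) :=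
          fun h _ => mul_nonneg (FHA.dens_nonneg _ _ _ _ _ _) (Real.sqrt_nonneg _)
        refine le_trans ?_ (Finset.single_le_sum h1 (Finset.mem_range.2 (hqN l (π l j))))
        have h2 : 1 ≤ wtD π q i l (q i (π i j)) (q l (π l j)) := by
          unfold wtD
          exact Finset.card_pos.2 ⟨j, by simp⟩
        have h3 : (1 : ℝ) ≤ √(wtD π q i l (q i (π i j)) (q l (π l j))) := by
          rw [Real.one_le_sqrt]
          exact_mod_cast h2
        exact le_mul_of_one_le_right (FHA.dens_nonneg _ _ _ _ _ _) h3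
      refine (Finset.sum_le_sum key).trans ?_
      rw [Finset.sum_const, Finset.card_univ, Fintype.card_fin, nsmul_eq_mul]
    · refine le_trans ?_ hs
      exact Finset.single_le_sum
        (f := fun j => densS n S (fun i => A i (q i (π i j))) (fun i => U i (q i (π i j))))
        (fun j _ => densS_nonneg _ _ _ _) (Finset.mem_univ j)
  choose z hz1 hz2 hz3 using fun j => exists_pt hn Z S _ _ (hpt j)
  have hz : ∀ i x, z ((π i).symm x) i / n ^ A i (q i x) = U i (q i x) := by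
    intro i x
    have := hz1 ((π i).symm x) i
    rwa [Equiv.apply_symm_apply] at this
  refine ⟨fun i x => z ((π i).symm x) i, fun i x y hxy => ?_, fun i x => ?_, fun j => ⟨?_, ?_⟩⟩
  · exact lt_of_lt_of_le (EmbD_lt hn (hz i x))
      ((hU i _ _ (hqs i hxy) (hqN i y)).trans (EmbD_le (hz i y)))
  · exact lt_of_lt_of_le (EmbD_lt hn (hz i x)) (hUX i _ (hqN i x))
  · intro i l hil
    show (z ((π i).symm (π i j)) i, z ((π l).symm (π l j)) l) ∉ Z i l
    rw [Equiv.symm_apply_apply, Equiv.symm_apply_apply]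
    exact hz2 j i l hil
  · show (fun i => z ((π i).symm (π i j)) i) ∉ S
    have : (fun i => z ((π i).symm (π i j)) i) = z j := by
      funext i
      rw [Equiv.symm_apply_apply]
    rw [this]
    exact hz3 j

private def EmbD_sym (Z : Fin d → Fin d → Finset (ℕ × ℕ)) (i l : Fin d) : Finset (ℕ × ℕ) :=
  if i < l then Z i l else if l < i then (Z l i).image Prod.swap else ∅

private theorem EmbD_sym_symm (Z : Fin d → Fin d → Finset (ℕ × ℕ)) (i l : Fin d) (x y : ℕ) :
    (x, y) ∈ EmbD_sym Z i l ↔ (y, x) ∈ EmbD_sym Z l i := by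
  unfold EmbD_sym
  rcases lt_trichotomy i l with h | h | h
  · rw [if_pos h, if_neg (not_lt.2 h.le), if_pos h, Finset.mem_image]
    constructor
    · intro hx
      exact ⟨(x, y), hx, rfl⟩
    · rintro ⟨⟨a, b⟩, hab, he⟩
      simp only [Prod.swap_prod_mk, Prod.mk.injEq] at he
      rw [← he.1, ← he.2]
      exact hab
  · rw [h]
    simp
  · rw [if_neg (not_lt.2 h.le), if_pos h, if_pos h, Finset.mem_image]
    constructor
    · rintro ⟨⟨a, b⟩, hab, he⟩
      simp only [Prod.swap_prod_mk, Prod.mk.injEq] at he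
      rw [← he.1, ← he.2]
      exact hab
    · intro hx
      exact ⟨(y, x), hx, rfl⟩

theorem embD {b s J t k K : ℕ} (hd : 2 ≤ d) (hb : 1 ≤ b) (hk : k ≤ K) (hK : 2 ≤ K) (hks : k ≤ b ^ s)
    (hJ : 12 * d * (2 * Real.log K + 1) * ((2 * b : ℕ) : ℝ) ^ (d + 1) ≤ J) (ht : 4 * (d * (2 * b) ^ s) < 2 ^ t)
    {η η' : ℝ} (hη : 0 ≤ η) (hη' : 0 ≤ η')
    (h1 : (608 * ((t : ℝ) + 1)) ^ s * (d * η * √K) ≤ 1 / (4 * d))
    (h2 : (608 * ((t : ℝ) + 1)) ^ s / K ≤ 1 / (4 * d))
    (h3 : (12 * 4 ^ d : ℝ) ^ s * (K * η') ≤ 1 / 4) (h4 : (12 * 4 ^ d : ℝ) ^ s / K ≤ 1 / 4)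
    (π : Fin d → Equiv.Perm (Fin k)) : PlD π ((2 * b) ^ (s * J)) η η' := by
  intro Z S hZ hZη hS hSη
  have hn : 1 ≤ 2 * b := by omega
  have hN0 : (((2 * b) ^ (s * J) : ℕ) : ℝ) = ((2 * b : ℕ) : ℝ) ^ (s * J) := by
    push_cast
    ring
  have hZ' : ∀ i l, EmbD_sym Z i l ⊆ range ((2 * b) ^ (s * J)) ×ˢ range ((2 * b) ^ (s * J)) := by
    intro i l
    unfold EmbD_sym
    rcases lt_trichotomy i l with h | h | h
    · rw [if_pos h]
      exact hZ i l h
    · rw [h]
      simp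
    · rw [if_neg (not_lt.2 h.le), if_pos h]
      intro p hp
      obtain ⟨⟨a, c⟩, hac, he⟩ := Finset.mem_image.1 hp
      have := hZ l i h hac
      rw [Finset.mem_product] at this
      rw [← he, Finset.mem_product]
      exact ⟨this.2, this.1⟩
  have hZη' : ∀ i l, (#(EmbD_sym Z i l) : ℝ) ≤ η * (((2 * b : ℕ) : ℝ) ^ (s * J)) ^ 2 := by
    intro i l
    rw [← hN0]
    unfold EmbD_sym
    rcases lt_trichotomy i l with h | h | h
    · rw [if_pos h]
      exact hZη i l h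
    · rw [h]
      simp only [lt_self_iff_false, if_false, card_empty, Nat.cast_zero]
      positivity
    · rw [if_neg (not_lt.2 h.le), if_pos h]
      refine le_trans ?_ (hZη l i h)
      exact_mod_cast Finset.card_image_le
  have hSη' : (#S : ℝ) ≤ η' * (((2 * b : ℕ) : ℝ) ^ (s * J)) ^ d := by
    rw [← hN0]
    exact hSη
  have hd0 : (0 : ℝ) < d := by
    have : 0 < d := by omega
    exact_mod_cast this
  have hK0 : (0 : ℝ) < K := by
    have : 0 < K := by omega
    exact_mod_cast this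
  have hkK : (k : ℝ) ≤ K := by exact_mod_cast hk
  have hlam0 : d * η * √k ≤ max (d * η * √K) (1 / (K : ℝ)) := by
    refine le_trans ?_ (le_max_left _ _)
    exact mul_le_mul_of_nonneg_left (Real.sqrt_le_sqrt hkK) (by positivity)
  have hmu0 : k * η' ≤ max (K * η') (1 / (K : ℝ)) := by
    refine le_trans ?_ (le_max_left _ _)
    exact mul_le_mul_of_nonneg_right hkK hη'
  have h5 : StD (2 * b) (EmbD_sym Z) S π ((2 * b) ^ (s * J)) 1 (max (d * η * √K) (1 / (K : ℝ)))
      (max (K * η') (1 / (K : ℝ))) (b ^ s * 1) (s * J + 0) := by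
    rw [mul_one, add_zero]
    exact StD_start hn (EmbD_sym Z) S π hη hη' hZ' hZη' hS hSη' hlam0 hmu0 hks
  have h6 := StD_iter (n := 2 * b) (b := b) (J := J) (K := K) (t := t) (D := 0) (m := 1) hd
    (EmbD_sym Z) (EmbD_sym_symm Z) S π rfl hb le_rfl hk hK hJ s 1 _ _ (le_max_right _ _)
    (le_max_right _ _) (by rw [one_mul]; exact ht) h5
  have ht0 : (0 : ℝ) ≤ (608 * ((t : ℝ) + 1)) ^ s := by positivity
  have ht1 : (0 : ℝ) ≤ (12 * 4 ^ d : ℝ) ^ s := by positivity
  have h7 : (608 * ((t : ℝ) + 1)) ^ s * max (d * η * √K) (1 / (K : ℝ)) ≤ 1 / (4 * d) := by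
    rw [mul_max_of_nonneg _ _ ht0]
    refine max_le h1 ?_
    rw [mul_one_div]
    exact h2
  have h8 : (12 * 4 ^ d : ℝ) ^ s * max (K * η') (1 / (K : ℝ)) ≤ 1 / 4 := by
    rw [mul_max_of_nonneg _ _ ht1]
    refine max_le h3 ?_
    rw [mul_one_div]
    exact h4
  have h9 : (d : ℝ) * ((608 * ((t : ℝ) + 1)) ^ s * max (d * η * √K) (1 / (K : ℝ))) +
      (12 * 4 ^ d : ℝ) ^ s * max (K * η') (1 / (K : ℝ)) < 1 := by
    have h10 : (d : ℝ) * ((608 * ((t : ℝ) + 1)) ^ s * max (d * η * √K) (1 / (K : ℝ))) ≤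
        d * (1 / (4 * d)) := mul_le_mul_of_nonneg_left h7 hd0.le
    have h11 : (d : ℝ) * (1 / (4 * d)) = 1 / 4 := by
      field_simp
    linarith
  obtain ⟨a, ha1, ha2, ha3⟩ := StD_end hn (EmbD_sym Z) S π h9 h6
  refine ⟨a, ha1, ha2, fun j => ⟨fun i l hil => ?_, (ha3 j).2⟩⟩
  have := (ha3 j).1 i l hil.ne
  unfold EmbD_sym at this
  rwa [if_pos hil] at this

end FHD
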