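import Pool.Agent.FHD.Defs

/-!
# FHD.Loc: three local entropy inequalities on a finite set `C`

Notation: for `x ∈ C` let `u = #(cls C f x)`, `v = #(cls C Y x)`, `m = #(cls (cls C f x) Y x)`
(`= #{w ∈ C | f w = f x ∧ Y w = Y x}`), `c = #C`.  The sum `∑_{x ∈ C} log (c m / (u v))` is `c` times the mutual information of
`f` and `Y` for the uniform law on `C`.
PROOF.  Sum over the pairs `(s,a)` of values of `f` and `Y` on `C`: with `u_s = #(fib C f s)`, `v_a = #(fib C Y a)`,
`m_sa = #(fib (fib C f s) Y a)` and `r = c m_sa / (u_s v_a)` the sum is `∑_{s,a} m_sa log r = ∑ (u_s v_a / c) r log r`, and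
`∑_{s,a} (u_s v_a / c) (r - 1) = ∑ m_sa - c = 0`.  So it equals `∑_{s,a} (u_s v_a / c) φ(r)`, `φ(r) = r log r - r + 1 ≥ 0`
(`φ(0) = 1`; `log r ≥ 1 - 1/r`).
`loc_bad`: `φ(r) ≥ 1/7` for `r < 1/2` (`φ` is decreasing on `[0,1]`, `φ(1/2) = (1 - log 2)/2 > 0.15`; or: `log r ≥ -log 2 + 1 - 1/(2r)`,
so `r log r ≥ r (1 - log 2) - 1/2`, `φ(r) ≥ 1/2 - r log 2 ≥ 1/2 - (log 2)/2 > 0.15`); the left side is
`∑_{s} u_s ∑_{a} v_a [2 m_sa c < v_a u_s]`.
`loc_big`: `φ(r) ≥ r/6` for `r > 2` (`log r ≥ log 2 + 1 - 2/r`, so `φ(r) ≥ r log 2 - 1 ≥ r (log 2 - 1/2)`).  The left side is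
`∑_{s,a} m_sa [r > 2] = ∑ (u_s v_a / c) r [r > 2]`.
`loc_tc`: for a present value `y` (that is `y = (Y i x)_i`, `x ∈ C`) let `j_y` be the number of the `w ∈ C` with `Y i w = y i` for all
`i`, `p = j_y/c`, `q = ∏_i (#(fib C (Y i) (y i)) / c)`.  `log (p/q) ≥ 1 - q/p`, so the right side without the factor is
`∑_{x ∈ C} log (p/q) ≥ c - c ∑_{y present} q(y) = c ∑_{y missing} q(y)` because `∑_{y ∈ range D ^ ι} q(y) = 1`
(`Finset.prod_univ_sum`, all values are `< D`).
-/

set_option autoImplicit false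

namespace FHD

open Finset

variable {α : Type*} [DecidableEq α]

/-- number of the points of `C` with `f = s` and `Y = a` -/
private def Loc_M (C : Finset α) (f Y : α → ℕ) (s a : ℕ) : ℕ := #(fib (fib C f s) Y a)

private theorem Loc_sum (C : Finset α) (f Y : α → ℕ) (S A : Finset ℕ) (hS : ∀ w ∈ C, f w ∈ S)
    (hA : ∀ w ∈ C, Y w ∈ A) (g : ℕ → ℕ → ℝ) :
    ∑ x ∈ C, g (f x) (Y x) = ∑ s ∈ S, ∑ a ∈ A, (Loc_M C f Y s a : ℝ) * g s a := by
  rw [← sum_fiberwise_of_maps_to hS]
  refine sum_congr rfl fun s _ => ?_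
  rw [← sum_fiberwise_of_maps_to (s := C.filter fun x => f x = s) (t := A) (g := Y)
    (fun x hx => hA x (mem_filter.1 hx).1)]
  refine sum_congr rfl fun a _ => ?_
  rw [Loc_M, fib, fib, ← nsmul_eq_mul, ← sum_const]
  refine sum_congr rfl fun x hx => ?_
  rw [mem_filter, mem_filter] at hx
  rw [hx.1.2, hx.2]

private theorem Loc_U (C : Finset α) (f : α → ℕ) (S : Finset ℕ) (hS : ∀ w ∈ C, f w ∈ S) :
    ∑ s ∈ S, (#(fib C f s) : ℝ) = #C := by
  have := card_eq_sum_card_fiberwise (f := f) (s := C) (t := S) hS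
  rw [this]
  push_cast
  rfl

private theorem Loc_MU (C : Finset α) (f Y : α → ℕ) (s : ℕ) (A : Finset ℕ)
    (hA : ∀ w ∈ C, Y w ∈ A) : ∑ a ∈ A, (Loc_M C f Y s a : ℝ) = #(fib C f s) :=
  Loc_U (fib C f s) Y A fun w hw => hA w (mem_filter.1 hw).1

/-- the summed inequality: if every term is bounded below -/
private theorem Loc_main (C : Finset α) (f Y : α → ℕ) (S A : Finset ℕ) (hS : ∀ w ∈ C, f w ∈ S)
    (hA : ∀ w ∈ C, Y w ∈ A) (hC : 0 < #C) (e : ℕ → ℕ → ℝ)
    (he : ∀ s ∈ S, ∀ a ∈ A, (Loc_M C f Y s a : ℝ) -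
      (#(fib C f s) : ℝ) * #(fib C Y a) / #C + e s a ≤ (Loc_M C f Y s a : ℝ) *
        Real.log ((#C : ℝ) * Loc_M C f Y s a / (#(fib C f s) * #(fib C Y a)))) :
    ∑ s ∈ S, ∑ a ∈ A, e s a ≤
      ∑ x ∈ C, Real.log ((#C : ℝ) * #(cls (cls C f x) Y x) / (#(cls C f x) * #(cls C Y x))) := by
  have h1 : ∑ x ∈ C, Real.log ((#C : ℝ) * #(cls (cls C f x) Y x) / (#(cls C f x) * #(cls C Y x)))
      = ∑ s ∈ S, ∑ a ∈ A, (Loc_M C f Y s a : ℝ) *
        Real.log ((#C : ℝ) * Loc_M C f Y s a / (#(fib C f s) * #(fib C Y a))) :=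
    Loc_sum C f Y S A hS hA fun s a =>
      Real.log ((#C : ℝ) * Loc_M C f Y s a / (#(fib C f s) * #(fib C Y a)))
  rw [h1]
  have h2 := sum_le_sum fun s hs => sum_le_sum fun a ha => he s hs a ha
  have h3 : ∑ s ∈ S, ∑ a ∈ A, ((Loc_M C f Y s a : ℝ) -
      (#(fib C f s) : ℝ) * #(fib C Y a) / #C + e s a) = ∑ s ∈ S, ∑ a ∈ A, e s a := by
    simp only [sum_add_distrib, sum_sub_distrib]
    have h4 : ∑ s ∈ S, ∑ a ∈ A, (Loc_M C f Y s a : ℝ) = #C := by
      rw [sum_congr rfl fun s _ => Loc_MU C f Y s A hA, Loc_U C f S hS]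
    have h5 : ∑ s ∈ S, ∑ a ∈ A, (#(fib C f s) : ℝ) * #(fib C Y a) / #C = #C := by
      have : ∀ s a, (#(fib C f s) : ℝ) * #(fib C Y a) / #C =
          (#(fib C f s) : ℝ) * (#(fib C Y a) / #C) := fun s a => mul_div_assoc _ _ _
      simp only [this]
      rw [← sum_mul_sum, ← sum_div, Loc_U C f S hS, Loc_U C Y A hA]
      have : (#C : ℝ) ≠ 0 := by exact_mod_cast hC.ne'
      field_simp
    rw [h4, h5]
    ring
  rw [h3] at h2
  exact h2

/-- the one variable inequalities -/
private theorem Loc_log_small {r : ℝ} (h0 : 0 < r) (h : r < 1 / 2) :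
    r - 1 + 1 / 7 ≤ r * Real.log r := by
  have h1 : 1 - 1 / (2 * r) ≤ Real.log (2 * r) := by
    have := Real.one_sub_inv_le_log_of_pos (show 0 < 2 * r by linarith)
    rwa [one_div]
  rw [Real.log_mul (by norm_num) h0.ne'] at h1
  have h2 := Real.log_two_lt_d9
  have h3 : r * (1 - 1 / (2 * r)) ≤ r * (Real.log 2 + Real.log r) :=
    mul_le_mul_of_nonneg_left h1 h0.le
  have h4 : r * (1 - 1 / (2 * r)) = r - 1 / 2 := by field_simp
  rw [h4, mul_add] at h3
  nlinarith

private theorem Loc_log_big {r : ℝ} (h : 2 < r) : 1 - 1 / r + 1 / 6 ≤ Real.log r := by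
  have h0 : 0 < r := by linarith
  have h1 : 1 - 2 / r ≤ Real.log (r / 2) := by
    have := Real.one_sub_inv_le_log_of_pos (show 0 < r / 2 by linarith)
    rwa [inv_div] at this
  rw [Real.log_div h0.ne' (by norm_num)] at h1
  have h2 := Real.log_two_gt_d9
  have h3 : 1 / r < 1 / 2 := one_div_lt_one_div_of_lt (by norm_num) h
  have h4 : 2 / r = 2 * (1 / r) := by ring
  rw [h4] at h1
  linarith

private theorem Loc_M_le (C : Finset α) (f Y : α → ℕ) (s a : ℕ) :
    Loc_M C f Y s a ≤ #(fib C f s) ∧ Loc_M C f Y s a ≤ #(fib C Y a) := by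
  constructor
  · exact card_le_card (filter_subset _ _)
  · refine card_le_card ?_
    intro w hw
    simp only [Loc_M, fib, mem_filter] at hw ⊢
    exact ⟨hw.1.1, hw.2⟩

private theorem Loc_small_alg {m c u v : ℝ} (hm : 0 < m) (hc : 0 < c) (hu : 0 < u) (hv : 0 < v)
    (hb : 2 * (m * c) < v * u) :
    m - u * v / c + 1 / 7 * (u * v / c) ≤ m * Real.log (c * m / (u * v)) := by
  have huv : 0 < u * v := mul_pos hu hv
  obtain ⟨r, hr⟩ : ∃ r, r = c * m / (u * v) := ⟨_, rfl⟩
  have hr0 : 0 < r := by rw [hr]; exact div_pos (mul_pos hc hm) huv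
  have hr1 : r < 1 / 2 := by
    rw [hr, div_lt_iff₀ huv]
    linarith
  have h3 := Loc_log_small hr0 hr1
  have h4 : m = u * v / c * r := by
    rw [hr]
    field_simp
  have h5 : 0 < u * v / c := div_pos huv hc
  have h6 := mul_le_mul_of_nonneg_left h3 h5.le
  rw [← hr]
  have h7 : m * Real.log r = u * v / c * (r * Real.log r) := by
    rw [← mul_assoc, ← h4]
  rw [h7]
  refine le_trans (le_of_eq ?_) h6
  have h8 : u * v / c * (r - 1 + 1 / 7) = u * v / c * r - u * v / c + 1 / 7 * (u * v / c) := by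
    ring
  rw [h8, ← h4]

private theorem Loc_tc_alg {m c q : ℝ} (hm : 0 < m) (hc : 0 < c) (hq : 0 < q) :
    m - c * q ≤ m * Real.log (m / c / q) := by
  have h3 := Real.one_sub_inv_le_log_of_pos (show 0 < m / c / q from div_pos (div_pos hm hc) hq)
  have h4 := mul_le_mul_of_nonneg_left h3 hm.le
  refine le_trans (le_of_eq ?_) h4
  field_simp

/-- the general term -/
private theorem Loc_term (C : Finset α) (f Y : α → ℕ) (s a : ℕ) (hC : 0 < #C) :
    (Loc_M C f Y s a : ℝ) - (#(fib C f s) : ℝ) * #(fib C Y a) / #C ≤ (Loc_M C f Y s a : ℝ) *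
        Real.log ((#C : ℝ) * Loc_M C f Y s a / (#(fib C f s) * #(fib C Y a))) := by
  have hC' : (0 : ℝ) < #C := by exact_mod_cast hC
  rcases Nat.eq_zero_or_pos (Loc_M C f Y s a) with h | h
  · rw [h]
    simp only [Nat.cast_zero, zero_mul, zero_sub, neg_nonpos]
    positivity
  · obtain ⟨h1, h2⟩ := Loc_M_le C f Y s a
    have hm : (0 : ℝ) < Loc_M C f Y s a := by exact_mod_cast h
    have hu : (0 : ℝ) < #(fib C f s) := by exact_mod_cast lt_of_lt_of_le h h1
    have hv : (0 : ℝ) < #(fib C Y a) := by exact_mod_cast lt_of_lt_of_le h h2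
    have h3 := Real.one_sub_inv_le_log_of_pos
      (show 0 < (#C : ℝ) * Loc_M C f Y s a / (#(fib C f s) * #(fib C Y a)) by positivity)
    have h4 := mul_le_mul_of_nonneg_left h3 hm.le
    refine le_trans (le_of_eq ?_) h4
    field_simp

open Classical in
theorem loc_bad (C : Finset α) (f Y : α → ℕ) {D : ℕ} (hY : ∀ w ∈ C, Y w < D) :
    ∑ x ∈ C, ∑ a ∈ range D, (if Bad C f Y x a then (#(fib C Y a) : ℝ) else 0) ≤
      7 * #C * ∑ x ∈ C, Real.log ((#C : ℝ) * #(cls (cls C f x) Y x) / (#(cls C f x) * #(cls C Y x))) := by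
  rcases Nat.eq_zero_or_pos #C with h0 | hC
  · rw [card_eq_zero] at h0
    subst h0
    simp
  have hC' : (0 : ℝ) < #C := by exact_mod_cast hC
  have hS : ∀ w ∈ C, f w ∈ C.image f := fun w hw => mem_image_of_mem _ hw
  have hA : ∀ w ∈ C, Y w ∈ range D := fun w hw => mem_range.2 (hY w hw)
  have h := Loc_main C f Y (C.image f) (range D) hS hA hC
    (fun s a => if 2 * (Loc_M C f Y s a * #C) < #(fib C Y a) * #(fib C f s) then
      (1 / 7) * ((#(fib C f s) : ℝ) * #(fib C Y a) / #C) else 0) (by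
    intro s hs a ha
    split_ifs with hb
    · rcases Nat.eq_zero_or_pos (Loc_M C f Y s a) with h | h
      · rw [h]
        simp only [Nat.cast_zero, zero_mul, zero_sub]
        have : (0 : ℝ) ≤ (#(fib C f s) : ℝ) * #(fib C Y a) / #C :=
          div_nonneg (mul_nonneg (Nat.cast_nonneg _) (Nat.cast_nonneg _)) (Nat.cast_nonneg _)
        linarith
      · obtain ⟨h1, h2⟩ := Loc_M_le C f Y s a
        have hm : (0 : ℝ) < Loc_M C f Y s a := by exact_mod_cast h
        have hu : (0 : ℝ) < #(fib C f s) := by exact_mod_cast lt_of_lt_of_le h h1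
        have hv : (0 : ℝ) < #(fib C Y a) := by exact_mod_cast lt_of_lt_of_le h h2
        have hb' : 2 * ((Loc_M C f Y s a : ℝ) * #C) < #(fib C Y a) * #(fib C f s) := by
          exact_mod_cast hb
        exact Loc_small_alg hm hC' hu hv hb'
    · rw [add_zero]
      exact Loc_term C f Y s a hC)
  have h7 : ∑ x ∈ C, ∑ a ∈ range D, (if Bad C f Y x a then (#(fib C Y a) : ℝ) else 0) =
      ∑ s ∈ C.image f, (#(fib C f s) : ℝ) * ∑ a ∈ range D,
        (if 2 * (Loc_M C f Y s a * #C) < #(fib C Y a) * #(fib C f s) then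
          (#(fib C Y a) : ℝ) else 0) := by
    rw [← sum_fiberwise_of_maps_to hS]
    refine sum_congr rfl fun s _ => ?_
    rw [← nsmul_eq_mul, fib, ← sum_const]
    refine sum_congr rfl fun x hx => ?_
    rw [mem_filter] at hx
    have : cls C f x = fib C f s := by
      rw [cls, fib, hx.2]
    simp only [Bad, this]
    rfl
  rw [h7]
  have h8 : ∑ s ∈ C.image f, (#(fib C f s) : ℝ) * ∑ a ∈ range D,
        (if 2 * (Loc_M C f Y s a * #C) < #(fib C Y a) * #(fib C f s) then
          (#(fib C Y a) : ℝ) else 0) = 7 * #C * ∑ s ∈ C.image f, ∑ a ∈ range D,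
      (if 2 * (Loc_M C f Y s a * #C) < #(fib C Y a) * #(fib C f s) then
      (1 / 7) * ((#(fib C f s) : ℝ) * #(fib C Y a) / #C) else 0) := by
    rw [mul_sum]
    refine sum_congr rfl fun s _ => ?_
    rw [mul_sum, mul_sum]
    refine sum_congr rfl fun a _ => ?_
    split_ifs
    · field_simp
    · simp
  rw [h8]
  exact mul_le_mul_of_nonneg_left h (by positivity)

open Classical in
theorem loc_big (C : Finset α) (f Y : α → ℕ) :
    ((C.filter fun x => 2 * (#(cls C f x) * #(cls C Y x)) < #C * #(cls (cls C f x) Y x)).card : ℝ) ≤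
      6 * ∑ x ∈ C, Real.log ((#C : ℝ) * #(cls (cls C f x) Y x) / (#(cls C f x) * #(cls C Y x))) := by
  rcases Nat.eq_zero_or_pos #C with h0 | hC
  · rw [card_eq_zero] at h0
    subst h0
    simp
  have hC' : (0 : ℝ) < #C := by exact_mod_cast hC
  have hS : ∀ w ∈ C, f w ∈ C.image f := fun w hw => mem_image_of_mem _ hw
  have hA : ∀ w ∈ C, Y w ∈ C.image Y := fun w hw => mem_image_of_mem _ hw
  have h := Loc_main C f Y (C.image f) (C.image Y) hS hA hC
    (fun s a => (Loc_M C f Y s a : ℝ) *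
      (if 2 * (#(fib C f s) * #(fib C Y a)) < #C * Loc_M C f Y s a then 1 / 6 else 0)) (by
    intro s hs a ha
    split_ifs with hb
    · rcases Nat.eq_zero_or_pos (Loc_M C f Y s a) with h | h
      · rw [h] at hb
        simp at hb
      · obtain ⟨h1, h2⟩ := Loc_M_le C f Y s a
        have hm : (0 : ℝ) < Loc_M C f Y s a := by exact_mod_cast h
        have hu : (0 : ℝ) < #(fib C f s) := by exact_mod_cast lt_of_lt_of_le h h1
        have hv : (0 : ℝ) < #(fib C Y a) := by exact_mod_cast lt_of_lt_of_le h h2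
        have hb' : 2 * ((#(fib C f s) : ℝ) * #(fib C Y a)) < #C * Loc_M C f Y s a := by
          exact_mod_cast hb
        have hr1 : 2 < (#C : ℝ) * Loc_M C f Y s a / (#(fib C f s) * #(fib C Y a)) := by
          rw [lt_div_iff₀ (by positivity)]
          linarith
        have h3 := Loc_log_big hr1
        have h6 := mul_le_mul_of_nonneg_left h3 hm.le
        refine le_trans (le_of_eq ?_) h6
        field_simp
    · rw [mul_zero, add_zero]
      exact Loc_term C f Y s a hC)
  have h7 : ((C.filter fun x => 2 * (#(cls C f x) * #(cls C Y x)) <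
      #C * #(cls (cls C f x) Y x)).card : ℝ) = 6 * ∑ s ∈ C.image f, ∑ a ∈ C.image Y,
      (Loc_M C f Y s a : ℝ) *
      (if 2 * (#(fib C f s) * #(fib C Y a)) < #C * Loc_M C f Y s a then 1 / 6 else 0) := by
    rw [← Loc_sum C f Y (C.image f) (C.image Y) hS hA (fun s a =>
      (if 2 * (#(fib C f s) * #(fib C Y a)) < #C * Loc_M C f Y s a then 1 / 6 else 0)),
      card_filter, mul_sum]
    push_cast
    refine sum_congr rfl fun x _ => ?_
    by_cases hx : 2 * (#(fib C f (f x)) * #(fib C Y (Y x))) < #C * Loc_M C f Y (f x) (Y x)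
    · have hx' : 2 * (#(cls C f x) * #(cls C Y x)) < #C * #(cls (cls C f x) Y x) := hx
      rw [if_pos hx', if_pos hx]
      norm_num
    · have hx' : ¬ 2 * (#(cls C f x) * #(cls C Y x)) < #C * #(cls (cls C f x) Y x) := hx
      rw [if_neg hx', if_neg hx]
      norm_num
  rw [h7]
  exact mul_le_mul_of_nonneg_left h (by norm_num)

open Classical in
theorem loc_tc {ι : Type*} [Fintype ι] (C : Finset α) (hC : C.Nonempty) (Y : ι → α → ℕ) {D : ℕ}
    (hY : ∀ i, ∀ w ∈ C, Y i w < D) :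
    #C * ∑ y ∈ Fintype.piFinset (fun _ : ι => range D),
        (if Miss C Y y then ∏ i, ((#(fib C (Y i) (y i)) : ℝ) / #C) else 0) ≤
      ∑ x ∈ C, Real.log (((C.filter fun w => ∀ i, Y i w = Y i x).card : ℝ) / #C /
        ∏ i, ((#(cls C (Y i) x) : ℝ) / #C)) := by
  have hC0 : 0 < #C := card_pos.2 hC
  have hC' : (0 : ℝ) < #C := by exact_mod_cast hC0
  set q : (ι → ℕ) → ℝ := fun y => ∏ i, ((#(fib C (Y i) (y i)) : ℝ) / #C) with hq
  set j : (ι → ℕ) → ℕ := fun y => (C.filter fun w => ∀ i, Y i w = y i).card with hj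
  set Q := Fintype.piFinset (fun _ : ι => range D) with hQ
  have hq0 : ∀ y, 0 ≤ q y := fun y => prod_nonneg fun i _ => div_nonneg (Nat.cast_nonneg _)
    (Nat.cast_nonneg _)
  have hmap : ∀ x ∈ C, (fun i => Y i x) ∈ Q := by
    intro x hx
    rw [hQ, Fintype.mem_piFinset]
    exact fun i => mem_range.2 (hY i x hx)
  -- total mass of `q`
  have hq1 : ∑ y ∈ Q, q y = 1 := by
    rw [hQ, hq]
    rw [← Finset.prod_univ_sum (fun _ : ι => range D)
      (fun (i : ι) (a : ℕ) => ((#(fib C (Y i) a) : ℝ) / #C))]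
    refine prod_eq_one fun i _ => ?_
    rw [← sum_div, Loc_U C (Y i) (range D) fun w hw => mem_range.2 (hY i w hw)]
    exact div_self hC'.ne'
  -- the right side
  have hR : ∑ x ∈ C, Real.log (((C.filter fun w => ∀ i, Y i w = Y i x).card : ℝ) / #C /
        ∏ i, ((#(cls C (Y i) x) : ℝ) / #C)) = ∑ y ∈ Q, (j y : ℝ) *
        Real.log ((j y : ℝ) / #C / q y) := by
    rw [← sum_fiberwise_of_maps_to hmap]
    refine sum_congr rfl fun y _ => ?_
    have h1 : (C.filter fun x => (fun i => Y i x) = y) = C.filter fun w => ∀ i, Y i w = y i := by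
      refine filter_congr fun x _ => ?_
      exact funext_iff
    rw [h1]
    rw [hj]
    rw [← nsmul_eq_mul, ← sum_const]
    refine sum_congr rfl fun x hx => ?_
    rw [mem_filter] at hx
    have h2 : (fun w => ∀ i, Y i w = Y i x) = fun w => ∀ i, Y i w = y i := by
      funext w
      simp only [hx.2]
    have h3 : ∀ i, cls C (Y i) x = fib C (Y i) (y i) := by
      intro i
      rw [cls, fib, hx.2 i]
    simp only [hx.2, hq, h3]
  have hj1 : ∑ y ∈ Q, (j y : ℝ) = #C := by
    have h := card_eq_sum_card_fiberwise (f := fun x => (fun i => Y i x)) (s := C) (t := Q) hmap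
    rw [h]
    push_cast
    refine sum_congr rfl fun y _ => ?_
    have h1 : (C.filter fun w => ∀ i, Y i w = y i) = C.filter fun x => (fun i => Y i x) = y := by
      refine filter_congr fun x _ => ?_
      exact funext_iff.symm
    rw [hj]
    simp only [h1]
  -- termwise
  have hterm : ∀ y ∈ Q, (j y : ℝ) - #C * q y + #C * (if Miss C Y y then q y else 0) ≤
      (j y : ℝ) * Real.log ((j y : ℝ) / #C / q y) := by
    intro y _
    by_cases hm : Miss C Y y
    · have h0 : j y = 0 := by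
        rw [hj]
        simp only [card_eq_zero, filter_eq_empty_iff]
        intro w hw h
        obtain ⟨i, hi⟩ := hm w hw
        exact hi (h i)
      rw [if_pos hm, h0]
      simp
    · rw [if_neg hm, mul_zero, add_zero]
      have hjp : 0 < j y := by
        rw [hj]
        simp only [card_pos]
        unfold Miss at hm
        push Not at hm
        obtain ⟨w, hw, h⟩ := hm
        exact ⟨w, mem_filter.2 ⟨hw, h⟩⟩
      have hjp' : (0 : ℝ) < j y := by exact_mod_cast hjp
      have hqp : 0 < q y := by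
        rw [hq]
        refine prod_pos fun i _ => div_pos ?_ hC'
        have : j y ≤ #(fib C (Y i) (y i)) := by
          rw [hj]
          refine card_le_card fun w hw => ?_
          rw [mem_filter] at hw
          exact mem_filter.2 ⟨hw.1, hw.2 i⟩
        exact_mod_cast lt_of_lt_of_le hjp this
      exact Loc_tc_alg hjp' hC' hqp
  rw [hR]
  refine le_trans (le_of_eq ?_) (sum_le_sum hterm)
  rw [sum_add_distrib, sum_sub_distrib, hj1, ← mul_sum, ← mul_sum, hq1]
  ring

end FHD
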