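import Pool.Agent.FHD.Cell
import Pool.Agent.FHD.Loc

/-!
# FHD.Ent: telescoping of `LN t = ∑_{z ∈ Ω} log #(cell t z)`

`mi i l t a b` below is `LN (a,b) + LN (a',b') - LN (a',b) - LN (a,b')`: `#Ω` times a conditional mutual information.
PROOF.
`LN_anti`: `cell_mono`, cells are nonempty.
`LN_step`: `∑_{z ∈ Ω} log (#(cell t z) / #(cell t' z))`, `t' = update t i (t i + m)`; `log x ≤ log K + x / K - 1` with `K = D ^ m`, and
`∑_{z ∈ Ω} #(cell t z) / #(cell t' z) ≤ K #Ω`: by `sum_cell` it is `∑_{z ∈ Ω} ∑_{w ∈ cell t z} 1 / #(cell t' w)` (in `cell t z` the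
quotient of `w` is `#(cell t z) / #(cell t' w)`), and for fixed `z` the inner sum is the number of the different cells `t'`
inside `cell t z`, i.e. the number of the values of `hd D n (t i + m) (w i)`, at most `K` by `card_sub`.
`mi_nonneg`: for each cell `C = cell t z` apply `loc_big` (its left side is `≥ 0`) to `f w = hd D n b' (w l)` and
`Y w = hd D n a' (w i)`; the sum over the cells is `mi` (`sum_cell`).
`mi_sum`: with `U a b = update (update (φ t) i a) l b`; by `wins_upd` for `i` and `l`, `n^2` times the left side is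
`∑_{t ∈ wins} ∑_{a<n} ∑_{b<n} (LN (U a b) + LN (U (a+1) (b+1)) - LN (U (a+1) b) - LN (U a (b+1)))` (by `hφ` the other coordinates do not
change), and the double sum telescopes to `LN (U 0 0) - LN (U n 0) - (LN (U 0 n) - LN (U n n)) ≤ LN (U 0 0) - LN (U n 0)
≤ #Ω n log D`.  Total: `n^d #Ω n log D / n^2`.
`run_sum`: the same with `b = κ ρ`, `ρ < Q`: the summand depends on `t l` only through `t l / κ`
(`∑_{b<n} f (b/κ) = κ ∑_{ρ<Q} f ρ`).
`tc_sum`: with `v m' = fun i => if i < m' then t i + 1 else tE κ l t i` the difference `TC` is the sum over `m' < m < l` of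
`mi` (one digit each of the coordinates `m'`, `m`) at the positions `v m'` in the other coordinates: for `m < l`,
`LN (v (m+1)) - LN (v m) - (LN (update tE m (t m + 1)) - LN tE) = ∑_{m' < m} (g (m'+1) - g m')`, `g m' = LN (update (v m') m (t m + 1)) - LN (v m')`
(`v m` has `t m` in coordinate `m`), and `g (m'+1) - g m'` is the bracket of `mi_sum` for `(i,l) = (m', m)`, `φ t = v m'`.  There are at
most `d^2` pairs.
-/

set_option autoImplicit false

namespace FHD

open Finset

variable {d D n : ℕ}

private theorem ent_card_pos {Ω : Finset (Fin d → ℕ)} {t z : Fin d → ℕ} (hz : z ∈ Ω) :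
    (0 : ℝ) < (#(cell D n Ω t z) : ℝ) := by
  exact_mod_cast Finset.card_pos.2 ⟨z, mem_cell_self hz⟩

theorem LN_anti (Ω : Finset (Fin d → ℕ)) {t t' : Fin d → ℕ} (h : ∀ i, t i ≤ t' i) :
    LN D n Ω t' ≤ LN D n Ω t := by
  unfold LN
  apply Finset.sum_le_sum
  intro z hz
  apply Real.log_le_log (ent_card_pos hz)
  exact_mod_cast Finset.card_le_card (cell_mono h z)

private theorem ent_cls {Ω : Finset (Fin d → ℕ)} (t : Fin d → ℕ) (i : Fin d) (s : ℕ) (hs : t i ≤ s)
    (z x : Fin d → ℕ) (hx : x ∈ cell D n Ω t z) :
    cls (cell D n Ω t z) (fun w => hd D n s (w i)) x = cell D n Ω (Function.update t i s) x := by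
  unfold cls
  unfold cell at *
  rw [mem_filter] at hx
  ext w
  rw [mem_filter, mem_filter, mem_filter]
  constructor
  · rintro ⟨⟨h1, h2⟩, h3⟩
    refine ⟨h1, fun j => ?_⟩
    by_cases hj : j = i
    · subst hj
      rw [Function.update_self]
      exact h3
    · rw [Function.update_of_ne hj]
      exact (h2 j).trans (hx.2 j).symm
  · rintro ⟨h1, h2⟩
    have h3 := h2 i
    rw [Function.update_self] at h3
    refine ⟨⟨h1, fun j => ?_⟩, h3⟩
    refine Eq.trans ?_ (hx.2 j)
    by_cases hj : j = i
    · subst hj
      exact hd_hd hs h3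
    · have h4 := h2 j
      rw [Function.update_of_ne hj] at h4
      exact h4

private theorem ent_sum_inv {α : Type*} [DecidableEq α] (C : Finset α) (f : α → ℕ) :
    ∑ w ∈ C, (1 : ℝ) / #(cls C f w) = #(C.image f) := by
  have h1 : ∑ w ∈ C, (1 : ℝ) / #(cls C f w) =
      ∑ b ∈ C.image f, ∑ w ∈ C.filter (fun w => f w = b), (1 : ℝ) / #(cls C f w) := by
    rw [Finset.sum_fiberwise_of_maps_to]
    intro w hw
    exact mem_image_of_mem f hw
  rw [h1, Finset.card_eq_sum_ones, Nat.cast_sum]
  apply Finset.sum_congr rfl
  intro b hb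
  have h2 : ∀ w ∈ C.filter (fun w => f w = b), (1 : ℝ) / #(cls C f w) =
      1 / #(C.filter (fun w => f w = b)) := by
    intro w hw
    rw [mem_filter] at hw
    unfold cls
    rw [hw.2]
  rw [Finset.sum_congr rfl h2, Finset.sum_const, nsmul_eq_mul]
  have h3 : (0 : ℝ) < #(C.filter (fun w => f w = b)) := by
    rw [mem_image] at hb
    obtain ⟨w, hw, rfl⟩ := hb
    exact_mod_cast Finset.card_pos.2 ⟨w, by rw [mem_filter]; exact ⟨hw, rfl⟩⟩
  push_cast
  field_simp

theorem LN_step (hD : 1 ≤ D) (Ω : Finset (Fin d → ℕ)) (t : Fin d → ℕ) (i : Fin d) (m : ℕ) :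
    LN D n Ω t - LN D n Ω (Function.update t i (t i + m)) ≤ #Ω * (m * Real.log D) := by
  set t' := Function.update t i (t i + m) with ht'
  set K : ℝ := (D : ℝ) ^ m with hK
  have hD0 : (0 : ℝ) < D := by exact_mod_cast hD
  have hK0 : 0 < K := by positivity
  have hlogK : Real.log K = m * Real.log D := by rw [hK, Real.log_pow]
  -- the sum of the quotients
  have hq : ∑ z ∈ Ω, (#(cell D n Ω t z) : ℝ) / #(cell D n Ω t' z) ≤ #Ω * K := by
    rw [← sum_cell (D := D) (n := n) t]
    have : ∀ z ∈ Ω, (∑ w ∈ cell D n Ω t z, (#(cell D n Ω t w) : ℝ) / #(cell D n Ω t' w)) /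
        #(cell D n Ω t z) ≤ K := by
      intro z hz
      have hp := ent_card_pos (D := D) (n := n) (t := t) hz
      rw [div_le_iff₀ hp]
      have h1 : ∀ w ∈ cell D n Ω t z, (#(cell D n Ω t w) : ℝ) / #(cell D n Ω t' w) =
          (#(cell D n Ω t z) : ℝ) * (1 / #(cls (cell D n Ω t z) (fun w => hd D n (t i + m) (w i)) w)) := by
        intro w hw
        rw [cell_congr hw, ent_cls t i (t i + m) (Nat.le_add_right _ _) z w hw]
        ring
      rw [Finset.sum_congr rfl h1, ← Finset.mul_sum, ent_sum_inv, mul_comm]
      apply mul_le_mul_of_nonneg_right _ hp.le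
      have := card_sub (n := n) (Ω := Ω) hD t z i m
      rw [hK]
      exact_mod_cast this
    calc ∑ z ∈ Ω, (∑ w ∈ cell D n Ω t z, (#(cell D n Ω t w) : ℝ) / #(cell D n Ω t' w)) /
        #(cell D n Ω t z) ≤ ∑ z ∈ Ω, K := Finset.sum_le_sum this
      _ = #Ω * K := by rw [Finset.sum_const, nsmul_eq_mul]
  have h1 : LN D n Ω t - LN D n Ω t' ≤
      ∑ z ∈ Ω, (Real.log K + ((#(cell D n Ω t z) : ℝ) / #(cell D n Ω t' z)) / K - 1) := by
    unfold LN
    rw [← Finset.sum_sub_distrib]
    apply Finset.sum_le_sum
    intro z hz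
    have hp := ent_card_pos (D := D) (n := n) (t := t) hz
    have hp' := ent_card_pos (D := D) (n := n) (t := t') hz
    rw [← Real.log_div hp.ne' hp'.ne']
    set x := (#(cell D n Ω t z) : ℝ) / #(cell D n Ω t' z) with hx
    have hx0 : 0 < x := div_pos hp hp'
    have h2 : Real.log (x / K) ≤ x / K - 1 := Real.log_le_sub_one_of_pos (div_pos hx0 hK0)
    rw [Real.log_div hx0.ne' hK0.ne'] at h2
    linarith
  refine h1.trans ?_
  rw [Finset.sum_sub_distrib, Finset.sum_add_distrib, ← Finset.sum_div, Finset.sum_const,
    Finset.sum_const, nsmul_eq_mul, nsmul_eq_mul, hlogK]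
  have h3 : (∑ z ∈ Ω, (#(cell D n Ω t z) : ℝ) / #(cell D n Ω t' z)) / K ≤ #Ω := by
    rw [div_le_iff₀ hK0]
    exact hq
  linarith

theorem mi_nonneg (Ω : Finset (Fin d → ℕ)) {i l : Fin d} (hil : i ≠ l) (t : Fin d → ℕ) {a a' b b' : ℕ}
    (ha : a ≤ a') (hb : b ≤ b') :
    0 ≤ LN D n Ω (Function.update (Function.update t i a) l b) +
      LN D n Ω (Function.update (Function.update t i a') l b') -
      LN D n Ω (Function.update (Function.update t i a') l b) -
      LN D n Ω (Function.update (Function.update t i a) l b') := by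
  set U : ℕ → ℕ → Fin d → ℕ := fun a b => Function.update (Function.update t i a) l b with hU
  have hUl : ∀ a b, U a b l = b := fun a b => by simp [hU]
  have hUi : ∀ a b, U a b i = a := fun a b => by simp [hU, hil]
  have hul : ∀ a b c, Function.update (U a b) l c = U a c := by
    intro a b c
    simp [hU]
  have hui : ∀ a b c, Function.update (U a b) i c = U c b := by
    intro a b c
    simp only [hU]
    rw [Function.update_comm hil.symm, Function.update_idem]
  show 0 ≤ LN D n Ω (U a b) + LN D n Ω (U a' b') - LN D n Ω (U a' b) - LN D n Ω (U a b')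
  have key : LN D n Ω (U a b) + LN D n Ω (U a' b') - LN D n Ω (U a' b) - LN D n Ω (U a b') =
      ∑ z ∈ Ω, Real.log ((#(cell D n Ω (U a b) z) : ℝ) * #(cell D n Ω (U a' b') z) /
        (#(cell D n Ω (U a b') z) * #(cell D n Ω (U a' b) z))) := by
    unfold LN
    rw [← Finset.sum_add_distrib, ← Finset.sum_sub_distrib, ← Finset.sum_sub_distrib]
    apply Finset.sum_congr rfl
    intro z hz
    have h1 := ent_card_pos (D := D) (n := n) (t := U a b) hz
    have h2 := ent_card_pos (D := D) (n := n) (t := U a' b') hz
    have h3 := ent_card_pos (D := D) (n := n) (t := U a b') hz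
    have h4 := ent_card_pos (D := D) (n := n) (t := U a' b) hz
    rw [Real.log_div (by positivity) (by positivity), Real.log_mul h1.ne' h2.ne',
      Real.log_mul h3.ne' h4.ne']
    ring
  rw [key, ← sum_cell (D := D) (n := n) (U a b)]
  apply Finset.sum_nonneg
  intro z hz
  apply div_nonneg _ (Nat.cast_nonneg _)
  have h5 := loc_big (cell D n Ω (U a b) z) (fun w => hd D n b' (w l)) (fun w => hd D n a' (w i))
  have h6 : ∀ w ∈ cell D n Ω (U a b) z,
      Real.log ((#(cell D n Ω (U a b) z) : ℝ) *
        #(cls (cls (cell D n Ω (U a b) z) (fun w => hd D n b' (w l)) w) (fun w => hd D n a' (w i)) w) /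
        (#(cls (cell D n Ω (U a b) z) (fun w => hd D n b' (w l)) w) *
          #(cls (cell D n Ω (U a b) z) (fun w => hd D n a' (w i)) w))) =
      Real.log ((#(cell D n Ω (U a b) w) : ℝ) * #(cell D n Ω (U a' b') w) /
        (#(cell D n Ω (U a b') w) * #(cell D n Ω (U a' b) w))) := by
    intro w hw
    have hwΩ : w ∈ Ω := cell_sub _ _ hw
    rw [ent_cls (U a b) l b' (by rw [hUl]; exact hb) z w hw, hul,
      ent_cls (U a b) i a' (by rw [hUi]; exact ha) z w hw, hui,
      ent_cls (U a b') i a' (by rw [hUi]; exact ha) w w (mem_cell_self hwΩ), hui, cell_congr hw]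
  rw [Finset.sum_congr rfl h6] at h5
  have h7 : (0 : ℝ) ≤ ((cell D n Ω (U a b) z).filter fun x =>
      2 * (#(cls (cell D n Ω (U a b) z) (fun w => hd D n b' (w l)) x) *
        #(cls (cell D n Ω (U a b) z) (fun w => hd D n a' (w i)) x)) <
      #(cell D n Ω (U a b) z) * #(cls (cls (cell D n Ω (U a b) z) (fun w => hd D n b' (w l)) x)
        (fun w => hd D n a' (w i)) x)).card := Nat.cast_nonneg _
  have h8 := h7.trans h5
  linarith


/-- the telescoping double sum, bounded by one coordinate -/
private theorem ent_box (hD : 1 ≤ D) (Ω : Finset (Fin d → ℕ)) {i l : Fin d} (hil : i ≠ l)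
    (t : Fin d → ℕ) (N M : ℕ) :
    LN D n Ω (Function.update (Function.update t i 0) l 0) -
      LN D n Ω (Function.update (Function.update t i N) l 0) -
      (LN D n Ω (Function.update (Function.update t i 0) l M) -
        LN D n Ω (Function.update (Function.update t i N) l M)) ≤ #Ω * (N * Real.log D) := by
  have h1 : LN D n Ω (Function.update (Function.update t i N) l M) ≤
      LN D n Ω (Function.update (Function.update t i 0) l M) := by
    apply LN_anti
    intro j
    by_cases hj : j = l
    · subst hj
      simp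
    · rw [Function.update_of_ne hj, Function.update_of_ne hj]
      by_cases hj' : j = i
      · subst hj'
        simp
      · rw [Function.update_of_ne hj', Function.update_of_ne hj']
  have h2 := LN_step (n := n) hD Ω (Function.update (Function.update t i 0) l 0) i N
  have h3 : Function.update (Function.update (Function.update t i 0) l 0) i
      ((Function.update (Function.update t i 0) l 0) i + N) =
      Function.update (Function.update t i N) l 0 := by
    rw [Function.update_of_ne hil, Function.update_self, zero_add, Function.update_comm hil.symm,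
      Function.update_idem]
  rw [h3] at h2
  linarith

/-- averaging over two coordinates -/
private theorem ent_avg {i l : Fin d} (F : (Fin d → ℕ) → ℝ) :
    (n : ℝ) * (n * ∑ t ∈ wins d n, F t) = ∑ t ∈ wins d n, ∑ a ∈ range n, ∑ b ∈ range n,
      F (Function.update (Function.update t i a) l b) := by
  rw [wins_upd l F, wins_upd i (fun t => ∑ b ∈ range n, F (Function.update t l b))]

private theorem ent_tel2 (g : ℕ → ℕ → ℝ) (N M : ℕ) :
    ∑ a ∈ range N, ∑ b ∈ range M, (g a b + g (a + 1) (b + 1) - g (a + 1) b - g a (b + 1)) =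
      g 0 0 - g N 0 - (g 0 M - g N M) := by
  have h1 : ∀ a, ∑ b ∈ range M, (g a b + g (a + 1) (b + 1) - g (a + 1) b - g a (b + 1)) =
      (g (a + 1) M - g a M) - (g (a + 1) 0 - g a 0) := by
    intro a
    have := Finset.sum_range_sub (fun b => g (a + 1) b - g a b) M
    rw [← this]
    apply Finset.sum_congr rfl
    intro b _
    ring
  simp_rw [h1]
  rw [Finset.sum_sub_distrib, Finset.sum_range_sub (fun a => g a M), Finset.sum_range_sub (fun a => g a 0)]
  ring

theorem mi_sum (hD : 1 ≤ D) (hn : 1 ≤ n) (Ω : Finset (Fin d → ℕ)) {i l : Fin d} (hil : i ≠ l)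
    (φ : (Fin d → ℕ) → Fin d → ℕ)
    (hφ : ∀ t a b j, j ≠ i → j ≠ l → φ (Function.update (Function.update t i a) l b) j = φ t j) :
    n * ∑ t ∈ wins d n,
      (LN D n Ω (Function.update (Function.update (φ t) i (t i)) l (t l)) +
        LN D n Ω (Function.update (Function.update (φ t) i (t i + 1)) l (t l + 1)) -
        LN D n Ω (Function.update (Function.update (φ t) i (t i + 1)) l (t l)) -
        LN D n Ω (Function.update (Function.update (φ t) i (t i)) l (t l + 1))) ≤
      (n : ℝ) ^ d * (#Ω * Real.log D) := by
  have hn0 : (0 : ℝ) < n := by exact_mod_cast hn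
  have h1 : ∀ (t : Fin d → ℕ) (a b p q : ℕ),
      Function.update (Function.update (φ (Function.update (Function.update t i a) l b)) i p) l q =
      Function.update (Function.update (φ t) i p) l q := by
    intro t a b p q
    ext j
    by_cases hj : j = l
    · subst hj
      simp
    · rw [Function.update_of_ne hj, Function.update_of_ne hj]
      by_cases hj' : j = i
      · subst hj'
        simp
      · rw [Function.update_of_ne hj', Function.update_of_ne hj']
        exact hφ t a b j hj' hj
  have h2 := ent_avg (n := n) (i := i) (l := l) (fun t =>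
      (LN D n Ω (Function.update (Function.update (φ t) i (t i)) l (t l)) +
        LN D n Ω (Function.update (Function.update (φ t) i (t i + 1)) l (t l + 1)) -
        LN D n Ω (Function.update (Function.update (φ t) i (t i + 1)) l (t l)) -
        LN D n Ω (Function.update (Function.update (φ t) i (t i)) l (t l + 1))))
  simp only [h1, Function.update_self, Function.update_of_ne hil] at h2
  have h3 : ∀ t ∈ wins d n, ∑ a ∈ range n, ∑ b ∈ range n,
      (LN D n Ω (Function.update (Function.update (φ t) i a) l b) +
        LN D n Ω (Function.update (Function.update (φ t) i (a + 1)) l (b + 1)) -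
        LN D n Ω (Function.update (Function.update (φ t) i (a + 1)) l b) -
        LN D n Ω (Function.update (Function.update (φ t) i a) l (b + 1))) ≤ #Ω * (n * Real.log D) := by
    intro t _
    rw [ent_tel2 (fun a b => LN D n Ω (Function.update (Function.update (φ t) i a) l b)) n n]
    exact ent_box hD Ω hil (φ t) n n
  have h4 := Finset.sum_le_sum h3
  rw [← h2, Finset.sum_const, nsmul_eq_mul, card_wins] at h4
  have h5 : (n : ℝ) * (n * ∑ t ∈ wins d n,
      (LN D n Ω (Function.update (Function.update (φ t) i (t i)) l (t l)) +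
        LN D n Ω (Function.update (Function.update (φ t) i (t i + 1)) l (t l + 1)) -
        LN D n Ω (Function.update (Function.update (φ t) i (t i + 1)) l (t l)) -
        LN D n Ω (Function.update (Function.update (φ t) i (t i)) l (t l + 1)))) ≤
      n * ((n : ℝ) ^ d * (#Ω * Real.log D)) := by
    refine h4.trans (le_of_eq ?_)
    push_cast
    ring
  exact le_of_mul_le_mul_left h5 hn0

private theorem ent_runs (κ Q : ℕ) (hκ : 1 ≤ κ) (f : ℕ → ℝ) :
    ∑ b ∈ range (κ * Q), f (b / κ) = κ * ∑ ρ ∈ range Q, f ρ := by
  induction Q with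
  | zero => simp
  | succ Q ih =>
    rw [Nat.mul_succ, Finset.sum_range_add, ih, Finset.sum_range_succ, mul_add]
    congr 1
    have : ∀ x ∈ range κ, f ((κ * Q + x) / κ) = f Q := by
      intro x hx
      rw [mem_range] at hx
      congr 1
      rw [Nat.mul_add_div (by omega), Nat.div_eq_of_lt hx, add_zero]
    rw [Finset.sum_congr rfl this, Finset.sum_const, card_range, nsmul_eq_mul]

theorem run_sum {κ Q : ℕ} (hD : 1 ≤ D) (hκ : 1 ≤ κ) (hQ : 1 ≤ Q) (hn : n = κ * Q)
    (Ω : Finset (Fin d → ℕ)) {i l : Fin d} (hil : i ≠ l) :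
    n * ∑ t ∈ wins d n,
      (LN D n Ω (t0 κ l t) + LN D n Ω (Function.update (tE κ l t) i (t i + 1)) -
        LN D n Ω (Function.update (t0 κ l t) i (t i + 1)) - LN D n Ω (tE κ l t)) ≤
      κ * ((n : ℝ) ^ d * (#Ω * Real.log D)) := by
  have hn1 : 1 ≤ n := by
    rw [hn]
    exact Nat.mul_pos hκ hQ
  have hn0 : (0 : ℝ) < n := by exact_mod_cast hn1
  have h2 := ent_avg (n := n) (i := i) (l := l) (fun t =>
      (LN D n Ω (t0 κ l t) + LN D n Ω (Function.update (tE κ l t) i (t i + 1)) -
        LN D n Ω (Function.update (t0 κ l t) i (t i + 1)) - LN D n Ω (tE κ l t)))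
  have e1 : ∀ (t : Fin d → ℕ) (a b : ℕ), t0 κ l (Function.update (Function.update t i a) l b) =
      Function.update (Function.update t i a) l (κ * (b / κ)) := by
    intro t a b
    unfold t0
    rw [Function.update_self, Function.update_idem]
  have e2 : ∀ (t : Fin d → ℕ) (a b : ℕ), tE κ l (Function.update (Function.update t i a) l b) =
      Function.update (Function.update t i a) l (κ * (b / κ) + κ) := by
    intro t a b
    unfold tE
    rw [Function.update_self, Function.update_idem]
  have e3 : ∀ (t : Fin d → ℕ) (a b c : ℕ), Function.update (Function.update (Function.update t i a) l b) i c =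
      Function.update (Function.update t i c) l b := by
    intro t a b c
    rw [Function.update_comm hil.symm, Function.update_idem]
  simp only [e1, e2, Function.update_of_ne hil, Function.update_self, e3] at h2
  have h3 : ∀ t ∈ wins d n, ∑ a ∈ range n, ∑ b ∈ range n,
      (LN D n Ω (Function.update (Function.update t i a) l (κ * (b / κ))) +
        LN D n Ω (Function.update (Function.update t i (a + 1)) l (κ * (b / κ) + κ)) -
        LN D n Ω (Function.update (Function.update t i (a + 1)) l (κ * (b / κ))) -
        LN D n Ω (Function.update (Function.update t i a) l (κ * (b / κ) + κ))) ≤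
        κ * (#Ω * (n * Real.log D)) := by
    intro t _
    have h4 : ∀ a ∈ range n, ∑ b ∈ range n,
      (LN D n Ω (Function.update (Function.update t i a) l (κ * (b / κ))) +
        LN D n Ω (Function.update (Function.update t i (a + 1)) l (κ * (b / κ) + κ)) -
        LN D n Ω (Function.update (Function.update t i (a + 1)) l (κ * (b / κ))) -
        LN D n Ω (Function.update (Function.update t i a) l (κ * (b / κ) + κ))) =
        κ * ∑ ρ ∈ range Q, (LN D n Ω (Function.update (Function.update t i a) l (κ * ρ)) +
        LN D n Ω (Function.update (Function.update t i (a + 1)) l (κ * (ρ + 1))) -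
        LN D n Ω (Function.update (Function.update t i (a + 1)) l (κ * ρ)) -
        LN D n Ω (Function.update (Function.update t i a) l (κ * (ρ + 1)))) := by
      intro a _
      have := ent_runs κ Q hκ (fun ρ => (LN D n Ω (Function.update (Function.update t i a) l (κ * ρ)) +
        LN D n Ω (Function.update (Function.update t i (a + 1)) l (κ * (ρ + 1))) -
        LN D n Ω (Function.update (Function.update t i (a + 1)) l (κ * ρ)) -
        LN D n Ω (Function.update (Function.update t i a) l (κ * (ρ + 1)))))
      rw [← hn] at this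
      simpa only [mul_add, mul_one] using this
    rw [Finset.sum_congr rfl h4, ← Finset.mul_sum]
    apply mul_le_mul_of_nonneg_left _ (Nat.cast_nonneg _)
    rw [ent_tel2 (fun a b => LN D n Ω (Function.update (Function.update t i a) l (κ * b))) n Q]
    have := ent_box (n := n) hD Ω hil t n (κ * Q)
    simpa using this
  have h4 := Finset.sum_le_sum h3
  rw [← h2, Finset.sum_const, nsmul_eq_mul, card_wins] at h4
  have h5 : (n : ℝ) * (n * ∑ t ∈ wins d n,
      (LN D n Ω (t0 κ l t) + LN D n Ω (Function.update (tE κ l t) i (t i + 1)) -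
        LN D n Ω (Function.update (t0 κ l t) i (t i + 1)) - LN D n Ω (tE κ l t))) ≤
      n * (κ * ((n : ℝ) ^ d * (#Ω * Real.log D))) := by
    refine h4.trans (le_of_eq ?_)
    push_cast
    ring
  exact le_of_mul_le_mul_left h5 hn0

private theorem ent_filter (l : Fin d) : (univ.filter (fun i : Fin d => i < l)).map Fin.valEmbedding =
    range (l : ℕ) := by
  ext x
  simp only [mem_map, mem_filter, mem_univ, true_and, Fin.valEmbedding_apply, mem_range]
  constructor
  · rintro ⟨a, ha, rfl⟩
    exact ha
  · intro hx
    exact ⟨⟨x, hx.trans l.2⟩, hx, rfl⟩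

private theorem ent_tel (l : Fin d) (g : ℕ → ℝ) :
    ∑ i ∈ univ.filter (fun i => i < l), (g ((i : ℕ) + 1) - g i) = g l - g 0 := by
  rw [← Finset.sum_range_sub g (l : ℕ), ← ent_filter l, Finset.sum_map]
  rfl

theorem tc_sum {κ Q : ℕ} (hD : 1 ≤ D) (hκ : 1 ≤ κ) (hQ : 1 ≤ Q) (hn : n = κ * Q)
    (Ω : Finset (Fin d → ℕ)) (l : Fin d) :
    n * ∑ t ∈ wins d n,
      (LN D n Ω (fun i => if i < l then t i + 1 else tE κ l t i) - LN D n Ω (tE κ l t) -
        ∑ i ∈ univ.filter (fun i => i < l),
          (LN D n Ω (Function.update (tE κ l t) i (t i + 1)) - LN D n Ω (tE κ l t))) ≤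
      (d : ℝ) ^ 2 * ((n : ℝ) ^ d * (#Ω * Real.log D)) := by
  have hn1 : 1 ≤ n := by
    rw [hn]
    exact Nat.mul_pos hκ hQ
  -- the positions
  set v : (Fin d → ℕ) → ℕ → Fin d → ℕ := fun t m i => if (i : ℕ) < m then t i + 1 else tE κ l t i with hv
  have hv0 : ∀ t, v t 0 = tE κ l t := by
    intro t
    ext i
    simp [hv]
  have hvl : ∀ t, v t (l : ℕ) = fun i => if i < l then t i + 1 else tE κ l t i := by
    intro t
    rfl
  have hvs : ∀ t (m : Fin d), v t ((m : ℕ) + 1) = Function.update (v t m) m (t m + 1) := by
    intro t m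
    ext i
    by_cases hi : i = m
    · subst hi
      rw [Function.update_self]
      simp [hv]
    · rw [Function.update_of_ne hi]
      have : (i : ℕ) ≠ m := fun h => hi (Fin.ext h)
      simp only [hv]
      by_cases h : (i : ℕ) < m
      · rw [if_pos (by omega), if_pos h]
      · rw [if_neg (by omega), if_neg h]
  have htE : ∀ t (i : Fin d), i ≠ l → tE κ l t i = t i := by
    intro t i hi
    unfold tE
    rw [Function.update_of_ne hi]
  -- the bracket
  set Br : Fin d → Fin d → (Fin d → ℕ) → ℝ := fun m' m t =>
      (LN D n Ω (Function.update (Function.update (v t m') m' (t m')) m (t m)) +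
        LN D n Ω (Function.update (Function.update (v t m') m' (t m' + 1)) m (t m + 1)) -
        LN D n Ω (Function.update (Function.update (v t m') m' (t m' + 1)) m (t m)) -
        LN D n Ω (Function.update (Function.update (v t m') m' (t m')) m (t m + 1))) with hBr
  have hBs : ∀ m' m : Fin d, m' < m → m < l →
      n * ∑ t ∈ wins d n, Br m' m t ≤ (n : ℝ) ^ d * (#Ω * Real.log D) := by
    intro m' m h1 h2
    have h3 : m' ≠ l := (h1.trans h2).ne
    have h4 : m ≠ l := h2.ne
    refine mi_sum hD hn1 Ω h1.ne (fun t => v t m') ?_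
    intro t a b j hj hj'
    have e1 : Function.update (Function.update t m' a) m b j = t j := by
      rw [Function.update_of_ne hj', Function.update_of_ne hj]
    have e2 : Function.update (Function.update t m' a) m b l = t l := by
      rw [Function.update_of_ne h4.symm, Function.update_of_ne h3.symm]
    simp only [hv]
    rw [e1]
    congr 1
    unfold tE
    rw [e2]
    by_cases hjl : j = l
    · subst hjl
      simp
    · rw [Function.update_of_ne hjl, Function.update_of_ne hjl, e1]
  -- the decomposition
  have hdec : ∀ t, LN D n Ω (fun i => if i < l then t i + 1 else tE κ l t i) - LN D n Ω (tE κ l t) -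
        ∑ i ∈ univ.filter (fun i => i < l),
          (LN D n Ω (Function.update (tE κ l t) i (t i + 1)) - LN D n Ω (tE κ l t)) =
      ∑ m ∈ univ.filter (fun m => m < l), ∑ m' ∈ univ.filter (fun m' => m' < m), Br m' m t := by
    intro t
    have h1 := ent_tel l (fun m => LN D n Ω (v t m))
    rw [← hvl, ← hv0, ← h1, ← Finset.sum_sub_distrib]
    apply Finset.sum_congr rfl
    intro m hm
    rw [mem_filter] at hm
    have hml := hm.2
    have h2 := ent_tel m (fun m' => LN D n Ω (Function.update (v t m') m (t m + 1)) - LN D n Ω (v t m'))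
    rw [hvs, ← h2]
    apply Finset.sum_congr rfl
    intro m' hm'
    rw [mem_filter] at hm'
    have h3 := hm'.2
    have e1 : Function.update (v t m') m' (t m') = v t m' := by
      apply Function.update_eq_self_iff.2
      simp only [hv]
      rw [if_neg (lt_irrefl _), htE t m' (h3.trans hml).ne]
    have e2 : Function.update (v t m') m (t m) = v t m' := by
      apply Function.update_eq_self_iff.2
      simp only [hv]
      have : ¬ ((m : ℕ) < m') := by
        have : (m' : ℕ) < m := h3
        omega
      rw [if_neg this, htE t m hml.ne]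
    have e3 : Function.update (Function.update (v t m') m' (t m' + 1)) m (t m) =
        Function.update (v t m') m' (t m' + 1) := by
      rw [Function.update_comm h3.ne, e2]
    simp only [hBr]
    rw [e3, e1, e2, hvs t m']
    ring
  simp_rw [hdec]
  rw [Finset.sum_comm, Finset.mul_sum]
  have hX : 0 ≤ (n : ℝ) ^ d * (#Ω * Real.log D) := by
    have : 0 ≤ Real.log D := Real.log_natCast_nonneg D
    positivity
  have hin : ∀ m ∈ univ.filter (fun m => m < l),
      n * ∑ t ∈ wins d n, ∑ m' ∈ univ.filter (fun m' => m' < m), Br m' m t ≤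
        d * ((n : ℝ) ^ d * (#Ω * Real.log D)) := by
    intro m hm
    rw [mem_filter] at hm
    rw [Finset.sum_comm, Finset.mul_sum]
    have h1 : ∀ m' ∈ univ.filter (fun m' => m' < m),
        n * ∑ t ∈ wins d n, Br m' m t ≤ (n : ℝ) ^ d * (#Ω * Real.log D) := by
      intro m' hm'
      rw [mem_filter] at hm'
      exact hBs m' m hm'.2 hm.2
    refine (Finset.sum_le_sum h1).trans ?_
    rw [Finset.sum_const, nsmul_eq_mul]
    apply mul_le_mul_of_nonneg_right _ hX
    have h2 : #(univ.filter (fun m' : Fin d => m' < m)) ≤ d := by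
      refine (card_filter_le _ _).trans ?_
      simp
    exact_mod_cast h2
  refine (Finset.sum_le_sum hin).trans ?_
  rw [Finset.sum_const, nsmul_eq_mul, pow_two, mul_assoc]
  apply mul_le_mul_of_nonneg_right _ (by positivity)
  have h2 : #(univ.filter (fun m' : Fin d => m' < l)) ≤ d := by
    refine (card_filter_le _ _).trans ?_
    simp
  exact_mod_cast h2

end FHD
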