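import Mathlib

/-!
# FHD.ParD: choice of the parameters

PROOF (compare `Pool/Agent/FHA/Par.lean`).  Let `s ≥ 1` be a natural number with `8 (d + 1) / s ≤ ε`.  For `K ≥ K0` let
`b = ⌈K^(1/s)⌉₊` (`K ≤ b^s`, `b ≤ 2 K^(1/s)`), `J = ⌈12 d (2 log K + 1) (2b)^(d+1)⌉₊ ≤ C K^((d+1)/s) log K`, `t` a natural number with `4 d (2b)^s < 2^t` and
`t ≤ C log K` (`(2b)^s ≤ 4^s K`), `T = (608 (t+1))^s ≤ C (log K)^s`, `η = 1/(4 d^2 T √K)`, `η' = 1/(4 (12 * 4^d)^s K)`.  Then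
`T d η √K = 1/(4 d)`, `(12 * 4^d)^s K η' = 1/4`, and `T / K ≤ 1/(4 d)`, `(12 * 4^d)^s / K ≤ 1/4` for `K ≥ K0`.
`N0 = (2b)^(s J)`, `α = ⌈c N0⌉₊ ≤ (c + 1) N0`, `D = (2 α^2)^(8 d) ≥ 2`, so
`0 < log D = 8 d log (2 α^2) ≤ C (1 + s J log (2b)) ≤ C K^((d+1)/s) (log K)^2`, `Q = 8 d ⌈c log D⌉₊`, `κ = ⌈c/η + √(c/η')⌉₊ ≤ C (log K)^s √K`,
`m = κ ⌈c log D⌉₊`.  Finally `log (2 d (D ^ (κ Q)) ^ (d+1)) = log (2 d) + (d+1) κ Q log D ≤ C √K (log K)^s (K^((d+1)/s) (log K)^2)^2 ≤ C K^(1/2 + ε)` because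
`2 (d+1)/s ≤ ε/4` and every power of `log K` is `O(K^(ε/2))`.  All constants `C` depend on `d`, `s`, `c`, `ε` only.
A convenient way (as in `FHA.Par`): `Real.log_le_rpow_div` with a small exponent bounds every occurrence of `log K` by `C K^(...)`, no limits needed
except for the two conditions of the form `.. / K ≤ ..`.
-/

set_option autoImplicit false

namespace FHD

private lemma fin_ineq {d D κ q s : ℕ} {c ε x y X C5 C6 e : ℝ} (hdR : (2 : ℝ) ≤ d) (hD2 : 2 ≤ D) (hc : 1 ≤ c)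
    (hε : 0 < ε) (hx1 : 1 ≤ x) (hy1 : 1 ≤ y) (hX1 : 1 ≤ X) (hC5p : 0 < C5) (hC6p : 0 < C6)
    (hsR : (1 : ℝ) ≤ s) (hX : X = x ^ (1 / (s : ℝ))) (hy : y = x ^ e)
    (hsd : (2 * ((d : ℝ) + 2)) / (s : ℝ) ≤ ε / 2) (hes1 : e * (s + 2) ≤ ε / 3)
    (hq2 : (q : ℝ) ≤ 2 * c * Real.log D) (hlogD1 : 1 ≤ Real.log D)
    (hlogDu : Real.log D ≤ C5 * (y * X ^ (d + 2))) (hκ4 : (κ : ℝ) ≤ C6 * (y ^ s * √x)) :
    2 * (d : ℝ) * ((D : ℝ) ^ (κ * (8 * d * q))) ^ (d + 1) ≤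
      (2 : ℝ) ^ (2 * (2 * d + (d + 1) * (16 * d * c * C6 * C5 ^ 2)) * x ^ (1 / 2 + ε)) := by
  have hx0 : 0 < x := by linarith
  have hlog2 : 0.69 < Real.log 2 := by linarith [Real.log_two_gt_d9]
  have hDp : (0 : ℝ) < D := by
    have : 0 < D := by omega
    exact_mod_cast this
  have hlhs0 : 0 < 2 * (d : ℝ) * ((D : ℝ) ^ (κ * (8 * d * q))) ^ (d + 1) := by positivity
  rw [← Real.log_le_log_iff hlhs0 (by positivity), Real.log_rpow (by norm_num)]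
  have e1 : Real.log (2 * (d : ℝ) * ((D : ℝ) ^ (κ * (8 * d * q))) ^ (d + 1)) =
      Real.log (2 * d) + (d + 1) * (κ * (8 * d * q) * Real.log D) := by
    rw [Real.log_mul (by positivity) (by positivity), Real.log_pow, Real.log_pow]
    push_cast
    ring
  rw [e1]
  have h1 : Real.log (2 * d) ≤ 2 * d := by
    have := Real.log_le_sub_one_of_pos (x := 2 * (d : ℝ)) (by positivity)
    linarith
  obtain ⟨Z, hZ⟩ : ∃ Z : ℝ, Z = x ^ (1 / 2 + ε) := ⟨_, rfl⟩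
  have hZ1 : 1 ≤ Z := by rw [hZ]; exact Real.one_le_rpow hx1 (by linarith)
  have h2 : (y ^ s * √x) * (y * X ^ (d + 2)) ^ 2 ≤ Z := by
    have e2 : (y ^ s * √x) * (y * X ^ (d + 2)) ^ 2 = y ^ (s + 2) * (√x * X ^ (2 * (d + 2))) := by
      ring
    have e3 : y ^ (s + 2) = x ^ (e * (s + 2)) := by
      rw [hy, ← Real.rpow_natCast, ← Real.rpow_mul hx0.le]
      congr 1
      push_cast
      ring
    have e4 : X ^ (2 * (d + 2)) = x ^ ((2 * ((d : ℝ) + 2)) / (s : ℝ)) := by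
      rw [hX, ← Real.rpow_natCast, ← Real.rpow_mul hx0.le]
      congr 1
      push_cast
      ring
    rw [e2, e3, e4, Real.sqrt_eq_rpow, ← Real.rpow_add hx0, ← Real.rpow_add hx0, hZ]
    refine Real.rpow_le_rpow_of_exponent_le hx1 ?_
    linarith
  have h3 : (κ : ℝ) * (8 * d * q) * Real.log D ≤ 16 * d * c * C6 * C5 ^ 2 * Z := by
    have h4 : (8 * (d : ℝ) * q) * Real.log D ≤ 16 * d * c * (C5 * (y * X ^ (d + 2))) ^ 2 := by
      have h5 : (q : ℝ) * Real.log D ≤ 2 * c * Real.log D * Real.log D :=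
        mul_le_mul_of_nonneg_right hq2 (by linarith)
      have h6 : Real.log D ^ 2 ≤ (C5 * (y * X ^ (d + 2))) ^ 2 :=
        pow_le_pow_left₀ (by linarith) hlogDu 2
      calc (8 * (d : ℝ) * q) * Real.log D = 8 * d * (q * Real.log D) := by ring
        _ ≤ 8 * d * (2 * c * Real.log D * Real.log D) :=
            mul_le_mul_of_nonneg_left h5 (by positivity)
        _ = 16 * d * c * Real.log D ^ 2 := by ring
        _ ≤ 16 * d * c * (C5 * (y * X ^ (d + 2))) ^ 2 :=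
            mul_le_mul_of_nonneg_left h6 (by positivity)
    calc (κ : ℝ) * (8 * d * q) * Real.log D = κ * ((8 * d * q) * Real.log D) := by ring
      _ ≤ (C6 * (y ^ s * √x)) * (16 * d * c * (C5 * (y * X ^ (d + 2))) ^ 2) := by
          refine mul_le_mul hκ4 h4 ?_ (by positivity)
          exact mul_nonneg (by positivity) (by linarith)
      _ = 16 * d * c * C6 * C5 ^ 2 * ((y ^ s * √x) * (y * X ^ (d + 2)) ^ 2) := by ring
      _ ≤ 16 * d * c * C6 * C5 ^ 2 * Z := mul_le_mul_of_nonneg_left h2 (by positivity)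
  rw [← hZ]
  obtain ⟨M, hM⟩ : ∃ M : ℝ, M = 16 * d * c * C6 * C5 ^ 2 := ⟨_, rfl⟩
  have hM0 : 0 < M := by rw [hM]; positivity
  rw [← hM] at h3 ⊢
  have h7 : ((d : ℝ) + 1) * ((κ : ℝ) * (8 * d * q) * Real.log D) ≤ (d + 1) * (M * Z) :=
    mul_le_mul_of_nonneg_left h3 (by positivity)
  have h8 : 2 * (d : ℝ) ≤ 2 * d * Z := le_mul_of_one_le_right (by positivity) hZ1
  have h9 : (2 * (d : ℝ) + (d + 1) * M) * Z ≤ 2 * (2 * d + (d + 1) * M) * Z * Real.log 2 := by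
    have h10 : 0 < (2 * (d : ℝ) + (d + 1) * M) * Z := by positivity
    have h12 : 2 * (2 * (d : ℝ) + (d + 1) * M) * Z * Real.log 2 =
        ((2 * (d : ℝ) + (d + 1) * M) * Z) * (2 * Real.log 2) := by ring
    rw [h12]
    exact le_mul_of_one_le_right h10.le (by linarith)
  have h11 : (2 * (d : ℝ) + (d + 1) * M) * Z = 2 * d * Z + (d + 1) * (M * Z) := by ring
  have h13 : 2 * (2 * (d : ℝ) + (d + 1) * M) * Z * Real.log 2 =
    2 * (2 * (d : ℝ) + (d + 1) * M) * Z * Real.log 2 := rfl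
  calc Real.log (2 * d) + (d + 1) * (κ * (8 * d * q) * Real.log D) ≤
        2 * d * Z + (d + 1) * (M * Z) := add_le_add (h1.trans h8) h7
    _ = (2 * (d : ℝ) + (d + 1) * M) * Z := h11.symm
    _ ≤ _ := h9

private lemma log_part {d s J b : ℕ} {c y X C1 C5 : ℝ} (hd : 2 ≤ d) (hc : 1 ≤ c) (hy1 : 1 ≤ y) (hX1 : 1 ≤ X)
    (hC1p : 0 < C1) (hC5 : C5 = 8 * d * (1 + 4 * c + 8 * s * C1)) (hb1 : 1 ≤ b)
    (h2b : ((2 * b : ℕ) : ℝ) ≤ 4 * X) (hJ2 : (J : ℝ) ≤ C1 * (y * X ^ (d + 1))) :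
    ∃ α D : ℕ, c * (((2 * b) ^ (s * J) : ℕ) : ℝ) ≤ α ∧ D = (2 * α ^ 2) ^ (8 * d) ∧ 2 ≤ D ∧ 1 ≤ Real.log D ∧
      Real.log D ≤ C5 * (y * X ^ (d + 2)) := by
  have hdR : (2 : ℝ) ≤ d := by exact_mod_cast hd
  have hlog2 : 0.69 < Real.log 2 := by linarith [Real.log_two_gt_d9]
  have hlog2' : Real.log 2 < 1 := by linarith [Real.log_two_lt_d9]
  have h2b0 : (2 : ℝ) ≤ ((2 * b : ℕ) : ℝ) := by
    exact_mod_cast (by omega : 2 ≤ 2 * b)
  obtain ⟨N0, hN0⟩ : ∃ N0 : ℝ, N0 = (((2 * b) ^ (s * J) : ℕ) : ℝ) := ⟨_, rfl⟩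
  have hN01 : 1 ≤ N0 := by
    rw [hN0]
    have : 1 ≤ (2 * b) ^ (s * J) := Nat.one_le_pow _ _ (by omega)
    exact_mod_cast this
  obtain ⟨α, hα⟩ : ∃ α : ℕ, α = ⌈c * N0⌉₊ := ⟨_, rfl⟩
  have hcN : 1 ≤ c * N0 := by nlinarith
  have hα1 : c * N0 ≤ α := by rw [hα]; exact Nat.le_ceil _
  have hα2 : (α : ℝ) ≤ 2 * c * N0 := by
    have : (α : ℝ) < c * N0 + 1 := by rw [hα]; exact Nat.ceil_lt_add_one (by linarith)
    linarith
  have hα3 : (1 : ℝ) ≤ α := hcN.trans hα1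
  have hα4 : 1 ≤ α := by exact_mod_cast hα3
  obtain ⟨D, hD⟩ : ∃ D : ℕ, D = (2 * α ^ 2) ^ (8 * d) := ⟨_, rfl⟩
  have hD2 : 2 ≤ D := by
    have h1 : 2 ≤ 2 * α ^ 2 := by nlinarith [Nat.pow_le_pow_left hα4 2]
    rw [hD]
    calc 2 = 2 ^ 1 := rfl
      _ ≤ 2 ^ (8 * d) := Nat.pow_le_pow_right (by norm_num) (by omega)
      _ ≤ (2 * α ^ 2) ^ (8 * d) := Nat.pow_le_pow_left h1 _
  have hlogD : Real.log D = 8 * d * (Real.log 2 + 2 * Real.log α) := by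
    have h0 : (D : ℝ) = (2 * (α : ℝ) ^ 2) ^ (8 * d) := by rw [hD]; push_cast; rfl
    have h1 : (α : ℝ) ≠ 0 := by positivity
    rw [h0, Real.log_pow, Real.log_mul (by norm_num) (by positivity), Real.log_pow]
    push_cast
    ring
  have hlogα0 : 0 ≤ Real.log α := Real.log_nonneg hα3
  have hlogD1 : 1 ≤ Real.log D := by
    rw [hlogD]
    have h1 : 0.69 ≤ Real.log 2 + 2 * Real.log α := by linarith
    have h2 : (16 : ℝ) ≤ 8 * d := by linarith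
    calc (1 : ℝ) ≤ 16 * 0.69 := by norm_num
      _ ≤ 8 * d * (Real.log 2 + 2 * Real.log α) := mul_le_mul h2 h1 (by norm_num) (by positivity)
  have hlogα : Real.log α ≤ 2 * c + s * J * Real.log ((2 * b : ℕ) : ℝ) := by
    have h0 : N0 = ((2 * b : ℕ) : ℝ) ^ (s * J) := by rw [hN0]; push_cast; rfl
    have h1 : Real.log α ≤ Real.log (2 * c * N0) := Real.log_le_log (by linarith) hα2
    have h2 : Real.log (2 * c * N0) = Real.log (2 * c) + s * J * Real.log ((2 * b : ℕ) : ℝ) := by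
      rw [Real.log_mul (by positivity) (by linarith), h0, Real.log_pow]
      push_cast
      ring
    have h3 : Real.log (2 * c) ≤ 2 * c - 1 := Real.log_le_sub_one_of_pos (by positivity)
    rw [h2] at h1
    linarith
  have hl2b0 : 0 ≤ Real.log ((2 * b : ℕ) : ℝ) := Real.log_nonneg (by linarith)
  have h3 : Real.log ((2 * b : ℕ) : ℝ) ≤ 4 * X := by
    have := Real.log_le_sub_one_of_pos (x := ((2 * b : ℕ) : ℝ)) (by linarith)
    linarith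
  have h4 : (s : ℝ) * J * Real.log ((2 * b : ℕ) : ℝ) ≤ s * (C1 * (y * X ^ (d + 1))) * (4 * X) := by
    refine mul_le_mul ?_ h3 hl2b0 (by positivity)
    exact mul_le_mul_of_nonneg_left hJ2 (by positivity)
  have h5 : 1 ≤ y * X ^ (d + 2) := by
    have h50 := one_le_pow₀ (n := d + 2) hX1
    calc (1 : ℝ) = 1 * 1 := by ring
      _ ≤ y * X ^ (d + 2) := mul_le_mul hy1 h50 (by norm_num) (by linarith)
  have h6 : (s : ℝ) * (C1 * (y * X ^ (d + 1))) * (4 * X) = 4 * s * C1 * (y * X ^ (d + 2)) := by ring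
  have h7 : Real.log 2 + 2 * Real.log α ≤ (1 + 4 * c + 8 * s * C1) * (y * X ^ (d + 2)) := by
    have e1 : (1 + 4 * c + 8 * s * C1) * (y * X ^ (d + 2)) =
        (1 + 4 * c) * (y * X ^ (d + 2)) + 2 * (4 * s * C1 * (y * X ^ (d + 2))) := by ring
    have e2 : (1 + 4 * c) ≤ (1 + 4 * c) * (y * X ^ (d + 2)) :=
      le_mul_of_one_le_right (by positivity) h5
    rw [e1]
    rw [h6] at h4
    linarith
  refine ⟨α, D, hN0 ▸ hα1, hD, hD2, hlogD1, ?_⟩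
  rw [hlogD, hC5]
  calc 8 * (d : ℝ) * (Real.log 2 + 2 * Real.log α) ≤
        8 * d * ((1 + 4 * c + 8 * s * C1) * (y * X ^ (d + 2))) :=
        mul_le_mul_of_nonneg_left h7 (by positivity)
    _ = 8 * d * (1 + 4 * c + 8 * s * C1) * (y * X ^ (d + 2)) := by ring

private lemma kappa_part {d s : ℕ} {c x y T C3 C6 P : ℝ} (hdR : (2 : ℝ) ≤ d) (hc : 1 ≤ c) (hx1 : 1 ≤ x)
    (hy1 : 1 ≤ y) (hT1 : 1 ≤ T) (hT2 : T ≤ C3 * y ^ s) (hPp : 0 < P) (hC3p : 0 < C3)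
    (hC6 : C6 = 4 * c * d ^ 2 * C3 + √(4 * c * P) + 1) :
    ∃ κ : ℕ, 1 ≤ κ ∧ c ≤ 1 / (4 * d ^ 2 * T * √x) * κ ∧ c ≤ 1 / (4 * P * x) * κ ^ 2 ∧
      (κ : ℝ) ≤ C6 * (y ^ s * √x) := by
  have hx0 : 0 < x := by linarith
  have hT0 : 0 < T := by linarith
  have hsq0 : 0 < √x := Real.sqrt_pos.2 hx0
  have hsq1 : 1 ≤ √x := Real.one_le_sqrt.2 hx1
  have hys1 : 1 ≤ y ^ s := one_le_pow₀ hy1
  obtain ⟨η, hη⟩ : ∃ η : ℝ, η = 1 / (4 * d ^ 2 * T * √x) := ⟨_, rfl⟩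
  have hη0 : 0 < η := by rw [hη]; positivity
  obtain ⟨η', hη'⟩ : ∃ η' : ℝ, η' = 1 / (4 * P * x) := ⟨_, rfl⟩
  have hη'0 : 0 < η' := by rw [hη']; positivity
  obtain ⟨κ, hκ⟩ : ∃ κ : ℕ, κ = ⌈c / η + √(c / η')⌉₊ := ⟨_, rfl⟩
  have hcη : c / η = 4 * c * d ^ 2 * T * √x := by rw [hη]; field_simp
  have hcη' : √(c / η') = √(4 * c * P) * √x := by
    rw [← Real.sqrt_mul (by positivity)]
    congr 1
    rw [hη']; field_simp
  have hsc0 : 0 ≤ √(c / η') := Real.sqrt_nonneg _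
  have hcη0 : 0 ≤ c / η := by positivity
  have hκ0 : c / η + √(c / η') ≤ κ := by rw [hκ]; exact Nat.le_ceil _
  have hκ1 : c ≤ η * κ := by
    have h1 : c / η ≤ κ := by linarith
    rw [div_le_iff₀ hη0] at h1
    linarith
  have hκ2 : c ≤ η' * κ ^ 2 := by
    have h1 : √(c / η') ≤ κ := by linarith
    have h2 : c / η' ≤ (κ : ℝ) ^ 2 := by
      have h3 : √(c / η') ^ 2 = c / η' := Real.sq_sqrt (by positivity)
      rw [← h3]
      exact pow_le_pow_left₀ hsc0 h1 2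
    rw [div_le_iff₀ hη'0] at h2
    linarith
  have hκ3 : 1 ≤ κ := by
    by_contra hcon
    have h0 : κ = 0 := by omega
    rw [h0] at hκ1
    simp at hκ1
    linarith
  have hκ4 : (κ : ℝ) ≤ C6 * (y ^ s * √x) := by
    have h1 : (κ : ℝ) < c / η + √(c / η') + 1 := by rw [hκ]; exact Nat.ceil_lt_add_one (by positivity)
    have h2 : c / η ≤ 4 * c * d ^ 2 * C3 * (y ^ s * √x) := by
      rw [hcη]
      have e1 : 4 * c * (d : ℝ) ^ 2 * C3 * (y ^ s * √x) = 4 * c * d ^ 2 * (C3 * y ^ s) * √x := by ring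
      rw [e1]
      refine mul_le_mul_of_nonneg_right ?_ hsq0.le
      exact mul_le_mul_of_nonneg_left hT2 (by positivity)
    have h3 : √x ≤ y ^ s * √x := le_mul_of_one_le_left hsq0.le hys1
    have h4 : √(c / η') ≤ √(4 * c * P) * (y ^ s * √x) := by
      rw [hcη']
      exact mul_le_mul_of_nonneg_left h3 (Real.sqrt_nonneg _)
    have h5 : C6 * (y ^ s * √x) = 4 * c * d ^ 2 * C3 * (y ^ s * √x) + √(4 * c * P) * (y ^ s * √x) +
        y ^ s * √x := by rw [hC6]; ring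
    rw [h5]
    linarith
  exact ⟨κ, hκ3, hη ▸ hκ1, hη' ▸ hκ2, hκ4⟩

private lemma J_part {d b : ℕ} {x y X e C1 : ℝ} (hx1 : 1 ≤ x) (hy1 : 1 ≤ y) (hX1 : 1 ≤ X)
    (he0 : 0 < e) (hy : y = x ^ e) (hC1 : C1 = 12 * d * (2 / e + 1) * 4 ^ (d + 1) + 1)
    (h2b : ((2 * b : ℕ) : ℝ) ≤ 4 * X) :
    ∃ J : ℕ, 12 * d * (2 * Real.log x + 1) * ((2 * b : ℕ) : ℝ) ^ (d + 1) ≤ J ∧
      (J : ℝ) ≤ C1 * (y * X ^ (d + 1)) := by
  have hx0 : 0 < x := by linarith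
  have heinv : 0 < 2 / e := by positivity
  have hlog0 : 0 ≤ Real.log x := Real.log_nonneg hx1
  have hlog : Real.log x ≤ y / e := by rw [hy]; exact Real.log_le_rpow_div hx0.le he0
  obtain ⟨J, hJ⟩ : ∃ J : ℕ, J = ⌈12 * d * (2 * Real.log x + 1) * ((2 * b : ℕ) : ℝ) ^ (d + 1)⌉₊ := ⟨_, rfl⟩
  have hJ1 : 12 * d * (2 * Real.log x + 1) * ((2 * b : ℕ) : ℝ) ^ (d + 1) ≤ J := by
    rw [hJ]; exact Nat.le_ceil _
  refine ⟨J, hJ1, ?_⟩
  have h1 : (J : ℝ) < 12 * d * (2 * Real.log x + 1) * ((2 * b : ℕ) : ℝ) ^ (d + 1) + 1 := by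
    rw [hJ]; exact Nat.ceil_lt_add_one (by positivity)
  have h2 : ((2 * b : ℕ) : ℝ) ^ (d + 1) ≤ 4 ^ (d + 1) * X ^ (d + 1) := by
    rw [← mul_pow]
    exact pow_le_pow_left₀ (by positivity) h2b (d + 1)
  have h3 : 2 * Real.log x + 1 ≤ (2 / e + 1) * y := by
    have e1 : 2 * (y / e) = 2 / e * y := by ring
    nlinarith
  have h4 : 12 * d * (2 * Real.log x + 1) * ((2 * b : ℕ) : ℝ) ^ (d + 1) ≤
      12 * d * ((2 / e + 1) * y) * (4 ^ (d + 1) * X ^ (d + 1)) := by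
    refine mul_le_mul ?_ h2 (by positivity) (by positivity)
    exact mul_le_mul_of_nonneg_left h3 (by positivity)
  have h5 : 1 ≤ y * X ^ (d + 1) := by
    have h50 := one_le_pow₀ (n := d + 1) hX1
    calc (1 : ℝ) = 1 * 1 := by ring
      _ ≤ y * X ^ (d + 1) := mul_le_mul hy1 h50 (by norm_num) (by linarith)
  have h6 : C1 * (y * X ^ (d + 1)) = 12 * d * ((2 / e + 1) * y) * (4 ^ (d + 1) * X ^ (d + 1)) +
      y * X ^ (d + 1) := by rw [hC1]; ring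
  rw [h6]
  linarith

private lemma t_part {d s b : ℕ} {x y X e C2 : ℝ} (hdR : (2 : ℝ) ≤ d) (hx1 : 1 ≤ x) (hy1 : 1 ≤ y)
    (he0 : 0 < e) (hy : y = x ^ e) (hXs : X ^ s = x)
    (hC2 : C2 = 2 * s + d + 5 + 2 / e) (h2b : ((2 * b : ℕ) : ℝ) ≤ 4 * X) :
    ∃ t : ℕ, (t : ℝ) + 1 ≤ C2 * y ∧ 4 * (d * (2 * b) ^ s) < 2 ^ t := by
  have hx0 : 0 < x := by linarith
  have hd0 : (0 : ℝ) < d := by linarith
  have heinv : 0 < 2 / e := by positivity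
  have hlog0 : 0 ≤ Real.log x := Real.log_nonneg hx1
  have hlog : Real.log x ≤ y / e := by rw [hy]; exact Real.log_le_rpow_div hx0.le he0
  have hlog2 : 0.69 < Real.log 2 := by linarith [Real.log_two_gt_d9]
  obtain ⟨t, ht⟩ : ∃ t : ℕ, t = 2 * s + d + ⌈Real.log x / Real.log 2⌉₊ + 3 := ⟨_, rfl⟩
  refine ⟨t, ?_, ?_⟩
  · have h1 : ((⌈Real.log x / Real.log 2⌉₊ : ℕ) : ℝ) < Real.log x / Real.log 2 + 1 :=
      Nat.ceil_lt_add_one (by positivity)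
    have h2 : Real.log x / Real.log 2 ≤ 2 / e * y := by
      rw [div_le_iff₀ (by linarith)]
      have e1 : y / e = 1 / e * y := by ring
      have h3 : 0 < 1 / e * y := by positivity
      have e2 : 2 / e * y * Real.log 2 = (1 / e * y) * (2 * Real.log 2) := by ring
      rw [e2]
      rw [e1] at hlog
      refine hlog.trans (le_mul_of_one_le_right h3.le (by linarith))
    have h4 : (2 * (s : ℝ) + d + 5) ≤ (2 * (s : ℝ) + d + 5) * y :=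
      le_mul_of_one_le_right (by positivity) hy1
    rw [ht, hC2]
    push_cast
    have h5 : (2 * (s : ℝ) + d + 5 + 2 / e) * y = (2 * (s : ℝ) + d + 5) * y + 2 / e * y := by ring
    rw [h5]
    linarith
  · have h1 : (4 : ℝ) * (d * ((2 * b : ℕ) : ℝ) ^ s) < 2 ^ t := by
      have h2 : ((2 * b : ℕ) : ℝ) ^ s ≤ 4 ^ s * x := by
        rw [← hXs, ← mul_pow]
        exact pow_le_pow_left₀ (by positivity) h2b s
      have h3 : x ≤ 2 ^ ⌈Real.log x / Real.log 2⌉₊ := by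
        rw [← Real.log_le_log_iff hx0 (by positivity), Real.log_pow]
        rw [← div_le_iff₀ (by linarith)]
        exact Nat.le_ceil _
      have h4 : (2 : ℝ) ^ t = 8 * 2 ^ d * (4 ^ s * 2 ^ ⌈Real.log x / Real.log 2⌉₊) := by
        rw [ht, pow_add, pow_add, pow_add, pow_mul]
        norm_num
        ring
      rw [h4]
      have h5 : (0 : ℝ) < 4 ^ s := by positivity
      have h6 : (d : ℝ) ≤ 2 ^ d := by
        have : d ≤ 2 ^ d := (Nat.lt_two_pow_self).le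
        exact_mod_cast this
      have h7 : (4 : ℝ) ^ s * x ≤ 4 ^ s * 2 ^ ⌈Real.log x / Real.log 2⌉₊ :=
        mul_le_mul_of_nonneg_left h3 h5.le
      have h8 : (0 : ℝ) < 4 ^ s * x := mul_pos h5 hx0
      have h9 : 0 < (d : ℝ) * (4 ^ s * x) := mul_pos hd0 h8
      calc (4 : ℝ) * (d * ((2 * b : ℕ) : ℝ) ^ s) ≤ 4 * (d * (4 ^ s * x)) := by
            refine mul_le_mul_of_nonneg_left ?_ (by norm_num)
            exact mul_le_mul_of_nonneg_left h2 hd0.le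
        _ < 8 * (d * (4 ^ s * x)) := by linarith
        _ ≤ 8 * (2 ^ d * (4 ^ s * 2 ^ ⌈Real.log x / Real.log 2⌉₊)) := by
            refine mul_le_mul_of_nonneg_left ?_ (by norm_num)
            exact mul_le_mul h6 h7 h8.le (by positivity)
        _ = 8 * 2 ^ d * (4 ^ s * 2 ^ ⌈Real.log x / Real.log 2⌉₊) := by ring
    exact_mod_cast h1

theorem parD {d : ℕ} (hd : 2 ≤ d) {c ε : ℝ} (hc : 1 ≤ c) (hε : 0 < ε) : ∃ (C : ℝ) (K0 s : ℕ), 0 < C ∧ 2 ≤ K0 ∧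
    ∀ K : ℕ, K0 ≤ K → ∃ (b J t D κ Q α m : ℕ) (η η' : ℝ), 1 ≤ b ∧ K ≤ b ^ s ∧
      12 * d * (2 * Real.log K + 1) * ((2 * b : ℕ) : ℝ) ^ (d + 1) ≤ J ∧ 4 * (d * (2 * b) ^ s) < 2 ^ t ∧
      0 < η ∧ 0 < η' ∧ (608 * ((t : ℝ) + 1)) ^ s * (d * η * √K) ≤ 1 / (4 * d) ∧
      (608 * ((t : ℝ) + 1)) ^ s / K ≤ 1 / (4 * d) ∧
      (12 * 4 ^ d : ℝ) ^ s * (K * η') ≤ 1 / 4 ∧ (12 * 4 ^ d : ℝ) ^ s / K ≤ 1 / 4 ∧
      2 ≤ D ∧ 1 ≤ κ ∧ 1 ≤ Q ∧ κ * Q = 8 * d * m ∧ c * (((2 * b) ^ (s * J) : ℕ) : ℝ) ≤ α ∧ c * Real.log D ≤ Q ∧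
      c ≤ η * κ ∧ c ≤ η' * κ ^ 2 ∧ (2 * α ^ 2) ^ (8 * d) ≤ D ∧
      2 * (d : ℝ) * ((D : ℝ) ^ (κ * Q)) ^ (d + 1) ≤ (2 : ℝ) ^ (C * (K : ℝ) ^ (1 / 2 + ε)) := by
  have hdR : (2 : ℝ) ≤ d := by exact_mod_cast hd
  have hd0 : (0 : ℝ) < d := by linarith
  obtain ⟨s, hs⟩ : ∃ s : ℕ, s = ⌈4 * ((d : ℝ) + 2) / ε⌉₊ + 1 := ⟨_, rfl⟩
  have hs1 : 1 ≤ s := by omega
  have hsR : (1 : ℝ) ≤ s := by exact_mod_cast hs1
  have hsd : (2 * ((d : ℝ) + 2)) / (s : ℝ) ≤ ε / 2 := by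
    have h1 : 4 * ((d : ℝ) + 2) / ε ≤ (s : ℝ) := by
      rw [hs]; push_cast
      linarith [Nat.le_ceil (4 * ((d : ℝ) + 2) / ε)]
    rw [div_le_iff₀ hε] at h1
    rw [div_le_iff₀ (by linarith)]
    linarith
  obtain ⟨e, he⟩ : ∃ e : ℝ, e = min ε 1 / (3 * (s + 2)) := ⟨_, rfl⟩
  have hm0 : 0 < min ε 1 := lt_min hε one_pos
  have he0 : 0 < e := by rw [he]; positivity
  have hes : e * (s + 2) = min ε 1 / 3 := by
    rw [he]; field_simp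
  have hes1 : e * (s + 2) ≤ ε / 3 := by rw [hes]; linarith [min_le_left ε 1]
  have hes2 : e * s ≤ 1 / 2 := by
    have : e * (s + 2) ≤ 1 / 3 := by rw [hes]; linarith [min_le_right ε 1]
    nlinarith
  have heinv : 0 < 2 / e := by positivity
  -- the constants
  obtain ⟨C1, hC1⟩ : ∃ C1 : ℝ, C1 = 12 * d * (2 / e + 1) * 4 ^ (d + 1) + 1 := ⟨_, rfl⟩
  obtain ⟨C2, hC2⟩ : ∃ C2 : ℝ, C2 = 2 * s + d + 5 + 2 / e := ⟨_, rfl⟩
  obtain ⟨C3, hC3⟩ : ∃ C3 : ℝ, C3 = (608 * C2) ^ s := ⟨_, rfl⟩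
  obtain ⟨P, hP⟩ : ∃ P : ℝ, P = (12 * 4 ^ d : ℝ) ^ s := ⟨_, rfl⟩
  obtain ⟨C5, hC5⟩ : ∃ C5 : ℝ, C5 = 8 * d * (1 + 4 * c + 8 * s * C1) := ⟨_, rfl⟩
  obtain ⟨C6, hC6⟩ : ∃ C6 : ℝ, C6 = 4 * c * d ^ 2 * C3 + √(4 * c * P) + 1 := ⟨_, rfl⟩
  have hC1p : 0 < C1 := by rw [hC1]; positivity
  have hC2p : 0 < C2 := by rw [hC2]; positivity
  have hC3p : 0 < C3 := by rw [hC3]; positivity
  have hPp : 0 < P := by rw [hP]; positivity
  have hC5p : 0 < C5 := by rw [hC5]; positivity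
  have hC6p : 0 < C6 := by rw [hC6]; positivity
  refine ⟨2 * (2 * d + (d + 1) * (16 * d * c * C6 * C5 ^ 2)), ⌈(4 * d * C3) ^ 2⌉₊ + ⌈4 * P⌉₊ + 2, s,
    by positivity, by omega, ?_⟩
  intro K hK
  obtain ⟨x, hx⟩ : ∃ x : ℝ, x = (K : ℝ) := ⟨_, rfl⟩
  rw [← hx]
  have hKR : ((⌈(4 * d * C3) ^ 2⌉₊ + ⌈4 * P⌉₊ + 2 : ℕ) : ℝ) ≤ x := by rw [hx]; exact_mod_cast hK
  push_cast at hKR
  have hcl1 := Nat.le_ceil ((4 * d * C3) ^ 2)
  have hcl2 := Nat.le_ceil (4 * P)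
  have hcl3 : (0 : ℝ) ≤ (⌈(4 * d * C3) ^ 2⌉₊ : ℝ) := Nat.cast_nonneg _
  have hcl4 : (0 : ℝ) ≤ (⌈4 * P⌉₊ : ℝ) := Nat.cast_nonneg _
  have hxC : (4 * d * C3) ^ 2 ≤ x := by linarith only [hKR, hcl1, hcl4]
  have hxP : 4 * P ≤ x := by linarith only [hKR, hcl2, hcl3]
  have hx1 : 1 ≤ x := by linarith only [hKR, hcl3, hcl4]
  have hx0 : 0 < x := by linarith only [hx1]
  obtain ⟨X, hX⟩ : ∃ X : ℝ, X = x ^ (1 / (s : ℝ)) := ⟨_, rfl⟩
  obtain ⟨y, hy⟩ : ∃ y : ℝ, y = x ^ e := ⟨_, rfl⟩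
  have hX1 : 1 ≤ X := by rw [hX]; exact Real.one_le_rpow hx1 (by positivity)
  have hy1 : 1 ≤ y := by rw [hy]; exact Real.one_le_rpow hx1 he0.le
  have hXs : X ^ s = x := by
    rw [hX, ← Real.rpow_natCast, ← Real.rpow_mul hx0.le, one_div, inv_mul_cancel₀ (by positivity),
      Real.rpow_one]
  -- b
  obtain ⟨b, hb⟩ : ∃ b : ℕ, b = ⌈X⌉₊ := ⟨_, rfl⟩
  have hbX : X ≤ b := by rw [hb]; exact Nat.le_ceil X
  have hb1 : 1 ≤ b := by
    have : (1 : ℝ) ≤ b := hX1.trans hbX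
    exact_mod_cast this
  have hb2 : (b : ℝ) ≤ 2 * X := by
    have : (b : ℝ) < X + 1 := by rw [hb]; exact Nat.ceil_lt_add_one (by linarith only [hX1])
    linarith only [this, hX1]
  have hKb : K ≤ b ^ s := by
    have : (K : ℝ) ≤ (b : ℝ) ^ s := by
      rw [← hx, ← hXs]
      exact pow_le_pow_left₀ (by linarith only [hX1]) hbX s
    exact_mod_cast this
  have h2b : ((2 * b : ℕ) : ℝ) ≤ 4 * X := by push_cast; linarith only [hb2]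
  obtain ⟨J, hJ1, hJ2⟩ := J_part (d := d) (b := b) hx1 hy1 hX1 he0 hy hC1 h2b
  obtain ⟨t, ht1, ht2⟩ := t_part (d := d) (s := s) (b := b) hdR hx1 hy1 he0 hy hXs hC2 h2b
  -- T
  obtain ⟨T, hT⟩ : ∃ T : ℝ, T = (608 * ((t : ℝ) + 1)) ^ s := ⟨_, rfl⟩
  have ht0 : (0 : ℝ) ≤ t := Nat.cast_nonneg t
  have hT1 : 1 ≤ T := by
    rw [hT]
    refine one_le_pow₀ ?_
    linarith only [ht0]
  have hT0 : 0 < T := by linarith only [hT1]
  have hT2 : T ≤ C3 * y ^ s := by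
    rw [hT, hC3, ← mul_pow]
    refine pow_le_pow_left₀ (by positivity) ?_ s
    linarith only [ht1]
  have hsq0 : 0 < √x := Real.sqrt_pos.2 hx0
  have hsqsq : √x * √x = x := Real.mul_self_sqrt hx0.le
  have hy2 : y ^ s ≤ √x := by
    rw [hy, ← Real.rpow_natCast, ← Real.rpow_mul hx0.le, Real.sqrt_eq_rpow]
    exact Real.rpow_le_rpow_of_exponent_le hx1 hes2
  obtain ⟨α, D, hα1, hD, hD2, hlogD1, hlogDu⟩ :=
    log_part (d := d) (s := s) (J := J) (b := b) (c := c) hd hc hy1 hX1 hC1p hC5 hb1 h2b hJ2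
  obtain ⟨κ, hκ3, hκ1, hκ2, hκ4⟩ :=
    kappa_part (d := d) (s := s) (c := c) hdR hc hx1 hy1 hT1 hT2 hPp hC3p hC6
  -- Q
  obtain ⟨q, hq⟩ : ∃ q : ℕ, q = ⌈c * Real.log D⌉₊ := ⟨_, rfl⟩
  have hcD : 1 ≤ c * Real.log D := by
    calc (1 : ℝ) = 1 * 1 := by ring
      _ ≤ c * Real.log D := mul_le_mul hc hlogD1 (by norm_num) (by linarith only [hc])
  have hq1 : c * Real.log D ≤ q := by rw [hq]; exact Nat.le_ceil _
  have hq2 : (q : ℝ) ≤ 2 * c * Real.log D := by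
    have : (q : ℝ) < c * Real.log D + 1 := by
      rw [hq]; exact Nat.ceil_lt_add_one (by linarith only [hcD])
    linarith only [this, hcD]
  have hq3 : 1 ≤ q := by
    have : (1 : ℝ) ≤ q := hcD.trans hq1
    exact_mod_cast this
  have hfin := fin_ineq (d := d) (D := D) (κ := κ) (q := q) (s := s) (c := c) (ε := ε) (x := x) (y := y)
    (X := X) (C5 := C5) (C6 := C6) (e := e) hdR hD2 hc hε hx1 hy1 hX1 hC5p hC6p hsR hX hy hsd hes1 hq2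
    hlogD1 hlogDu hκ4
  refine ⟨b, J, t, D, κ, 8 * d * q, α, κ * q, 1 / (4 * d ^ 2 * T * √x), 1 / (4 * P * x), hb1, hKb, hJ1,
    ht2, by positivity, by positivity, ?_, ?_, ?_, ?_, hD2, hκ3, ?_, by ring, hα1, ?_, hκ1, hκ2, hD.ge, hfin⟩
  · rw [← hT]
    have : T * (d * (1 / (4 * (d : ℝ) ^ 2 * T * √x)) * √x) = 1 / (4 * d) := by
      have h1 : T ≠ 0 := hT0.ne'
      have h2 : √x ≠ 0 := hsq0.ne'
      have h3 : (d : ℝ) ≠ 0 := hd0.ne'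
      field_simp
    rw [this]
  · rw [← hT, div_le_div_iff₀ hx0 (by positivity)]
    have h1 : 4 * d * C3 ≤ √x := by
      rw [← Real.sqrt_sq (show 0 ≤ 4 * d * C3 by positivity)]
      exact Real.sqrt_le_sqrt hxC
    calc T * (4 * d) ≤ (C3 * y ^ s) * (4 * d) := mul_le_mul_of_nonneg_right hT2 (by positivity)
      _ = (4 * d * C3) * y ^ s := by ring
      _ ≤ √x * √x := mul_le_mul h1 hy2 (by positivity) hsq0.le
      _ = 1 * x := by rw [hsqsq, one_mul]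
  · rw [← hP]
    have : P * (x * (1 / (4 * P * x))) = 1 / 4 := by field_simp
    rw [this]
  · rw [← hP, div_le_div_iff₀ hx0 (by norm_num)]
    linarith only [hxP]
  · exact Nat.one_le_iff_ne_zero.2 (by positivity)
  · push_cast
    have h1 : (q : ℝ) ≤ 8 * d * q := by
      have h2 : (1 : ℝ) ≤ 8 * d := by linarith only [hdR]
      exact le_mul_of_one_le_left (Nat.cast_nonneg q) h2
    exact hq1.trans h1

end FHD
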