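import Pool.Agent.FHD.Row
import Pool.Agent.FHD.Blk
import Pool.Agent.FHD.EmbD
import Pool.Agent.FHD.ParD

/-!
# FHD.FinD: the upper bound for all `d`-dimensional permutations

PROOF.  Let `c` be the constant of `row d hd` and take `C0`, `K0`, `s` from `parD` for `c`, `ε`.  Let `k ≥ 1`, `K = max k K0 ≤ K0 k`, and the parameters of `parD` for `K`.
`embD` (`k ≤ K ≤ b ^ s`) gives `PlD π N0 η η'` with `N0 = (2 b) ^ (s J) ≥ 1`; `row` gives the hypothesis `hrow` of `rec_all` with `σ = D ^ (8 m)`,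
`s = D ^ (κ Q) = σ ^ d` (`κ Q = 8 d m`, `m ≥ 1`, so `σ ≥ 2`).  Hence `#A ≤ 2 d (D ^ (κ Q)) ^ (d+1) N ^ (d-1) ≤ 2 ^ (C0 K ^ (1/2 + ε)) N ^ (d-1)`, and
`K ^ (1/2 + ε) ≤ (K0 k) ^ (1/2 + ε) = K0 ^ (1/2 + ε) k ^ (1/2 + ε)`: `C = C0 K0 ^ (1/2 + ε)`.
-/

set_option autoImplicit false

namespace FHD

open Finset

theorem upperD (d : ℕ) (hd : 2 ≤ d) {ε : ℝ} (hε : 0 < ε) : ∃ C : ℝ, 0 < C ∧ ∀ (k : ℕ), 1 ≤ k →
    ∀ (π : Fin d → Equiv.Perm (Fin k)) (N : ℕ), ∀ A ⊆ box d N, ¬ Has π A →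
      (#A : ℝ) ≤ (2 : ℝ) ^ (C * (k : ℝ) ^ (1 / 2 + ε)) * (N : ℝ) ^ (d - 1) := by
  obtain ⟨c, hc1, hrow⟩ := row d hd
  obtain ⟨C0, K0, s, hC0, hK0, hpar⟩ := parD hd hc1 hε
  have hK0' : (0 : ℝ) < (K0 : ℝ) := by
    have : 0 < K0 := by omega
    exact_mod_cast this
  refine ⟨C0 * (K0 : ℝ) ^ (1 / 2 + ε), mul_pos hC0 (Real.rpow_pos_of_pos hK0' _), ?_⟩
  intro k hk π N A hA hHas
  obtain ⟨b, J, t, D, κ, Q, α, m, η, η', hb, hKb, hJ, ht, hη, hη', h1, h2, h3, h4, hD, hκ, hQ, hκQ,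
    hα, hlog, hcη, hcη', hαD, hfin⟩ := hpar (max k K0) (le_max_right _ _)
  have hPl : PlD π ((2 * b) ^ (s * J)) η η' :=
    embD hd hb (le_max_left _ _) (le_trans hK0 (le_max_right _ _)) (le_trans (le_max_left _ _) hKb)
      hJ ht hη.le hη'.le h1 h2 h3 h4 π
  have hm : 1 ≤ m := by
    rcases Nat.eq_zero_or_pos m with h | h
    · exfalso
      rw [h, Nat.mul_zero] at hκQ
      rcases Nat.mul_eq_zero.mp hκQ with h' | h' <;> omega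
    · exact h
  have hs : D ^ (κ * Q) = (D ^ (8 * m)) ^ d := by
    rw [hκQ, ← pow_mul]
    congr 1
    ring
  have hσ : 2 ≤ D ^ (8 * m) := le_trans hD (Nat.le_self_pow (by omega) D)
  have hcard := rec_all hd hσ hs π (fun S hS h => hrow k D κ Q α m _ π η η' hη hη'
    (Nat.one_le_pow _ _ (by omega)) hPl hD hκ hQ hκQ hα hlog hcη hcη' hαD S hS h) N A hA hHas
  have h5 : (#A : ℝ) ≤ 2 * (d : ℝ) * ((D : ℝ) ^ (κ * Q)) ^ (d + 1) * (N : ℝ) ^ (d - 1) := by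
    exact_mod_cast hcard
  have hKle : max k K0 ≤ K0 * k := by
    apply max_le
    · exact Nat.le_mul_of_pos_left _ (by omega)
    · exact Nat.le_mul_of_pos_right _ (by omega)
  have h6 : ((max k K0 : ℕ) : ℝ) ^ (1 / 2 + ε) ≤ (K0 : ℝ) ^ (1 / 2 + ε) * (k : ℝ) ^ (1 / 2 + ε) := by
    rw [← Real.mul_rpow hK0'.le (Nat.cast_nonneg k)]
    apply Real.rpow_le_rpow (Nat.cast_nonneg _) _ (by linarith)
    exact_mod_cast hKle
  have h7 : (2 : ℝ) ^ (C0 * ((max k K0 : ℕ) : ℝ) ^ (1 / 2 + ε)) ≤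
      (2 : ℝ) ^ (C0 * (K0 : ℝ) ^ (1 / 2 + ε) * (k : ℝ) ^ (1 / 2 + ε)) := by
    apply Real.rpow_le_rpow_of_exponent_le (by norm_num)
    rw [mul_assoc]
    exact mul_le_mul_of_nonneg_left h6 hC0.le
  calc (#A : ℝ) ≤ 2 * (d : ℝ) * ((D : ℝ) ^ (κ * Q)) ^ (d + 1) * (N : ℝ) ^ (d - 1) := h5
    _ ≤ (2 : ℝ) ^ (C0 * ((max k K0 : ℕ) : ℝ) ^ (1 / 2 + ε)) * (N : ℝ) ^ (d - 1) :=
        mul_le_mul_of_nonneg_right hfin (by positivity)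
    _ ≤ _ := mul_le_mul_of_nonneg_right h7 (by positivity)

end FHD
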