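import Mathlib

/-!
# FHD.ParE: choice of the parameters, sharp form

`√K exp(C √(log K log log K))` instead of `C K^(1/2 + ε)`: the number `s` of steps depends on `K`.

PROOF.  Write `L = log K`, `M = log L`, `w = √(L M)`; for `K ≥ K0` we have `1 ≤ M ≤ L`, `w ≥ 1`, `M ≤ w` and `L ≤ exp w`.  All constants `C` below
depend on `d` and `c` only.
`s = ⌈√(L/M)⌉₊ ≥ 1`; `s ≤ 2 √(L/M)` (as `√(L/M) ≥ 1`), so `s M ≤ 2 w`, `s ≤ 2 w`, and `L / s ≤ √(L M) = w`.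
`b = ⌈exp (L/s)⌉₊`: `b ^ s ≥ exp L = K`, `b ≤ 2 exp (L/s) ≤ 2 exp w`.
`J = ⌈12 d (2 L + 1) (2b)^(d+1)⌉₊ ≤ exp (C w)`.
`t` = a natural number with `4 d (2b)^s < 2^t` and `t ≤ C L`: `(2b)^s ≤ (4 exp (L/s))^s = 4^s K` and `s ≤ 2 w ≤ 2 L`, e.g.
`t = ⌈(log (4 d) + s log 4 + L) / log 2⌉₊ + 1`.
`T = (608 (t+1))^s ≤ (C L)^s = exp (s (log C + M)) ≤ exp (C w)`.
`η = 1/(4 d^2 T √K)`, `η' = 1/(4 (12 * 4^d)^s K)`; `(12 * 4^d)^s ≤ exp (C s) ≤ exp (C w)`.  Then `T d η √K = 1/(4 d)`, `(12 * 4^d)^s K η' = 1/4`, and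
`T / K ≤ exp (C w - L) ≤ 1/(4 d)`, `(12 * 4^d)^s / K ≤ 1/4` for `K ≥ K0` because `w = √(L M) = o(L)`.
`N0 = (2b)^(s J)`, `α = ⌈c N0⌉₊ ≤ (c + 1) N0`, `D = (2 α^2)^(8 d) ≥ 2`, so `0 < log D = 8 d log (2 α^2) ≤ C (1 + s J log (2b)) ≤ exp (C w)`,
`Q = 8 d ⌈c log D⌉₊ ≤ exp (C w)`, `κ = ⌈c/η + √(c/η')⌉₊ ≤ √K exp (C w)`, `m = κ ⌈c log D⌉₊`.
Finally `log (2 d (D ^ (κ Q)) ^ (d+1)) = log (2 d) + (d+1) κ Q log D ≤ √K exp (C w)`, and `exp x ≤ 2 ^ (2 x)` for `x ≥ 0` (`2 log 2 ≥ 1`).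
(Sums and products of a bounded number of quantities `≤ exp (C w)`, `w ≥ 1`, are of the same form: `exp (C w) + exp (C' w) ≤ exp ((C + C' + 1) w)` for `C, C' ≥ 0`.)
-/

set_option autoImplicit false

namespace FHD

/-- final inequality -/
private lemma finE {d D κ q : ℕ} {c x w C5 C6 A5 A6 : ℝ} (hdR : (2 : ℝ) ≤ d) (hD2 : 2 ≤ D) (hc : 1 ≤ c)
    (hx1 : 1 ≤ x) (hw : 1 ≤ w) (hC5p : 0 < C5) (hC6p : 0 < C6) (hA5 : 0 ≤ A5) (hA6 : 0 ≤ A6)
    (hq2 : (q : ℝ) ≤ 2 * c * Real.log D) (hlogD1 : 1 ≤ Real.log D)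
    (hlogDu : Real.log D ≤ C5 * Real.exp (A5 * w)) (hκ4 : (κ : ℝ) ≤ C6 * (Real.exp (A6 * w) * √x)) :
    2 * (d : ℝ) * ((D : ℝ) ^ (κ * (8 * d * q))) ^ (d + 1) ≤
      (2 : ℝ) ^ (√x * Real.exp ((2 * (2 * d + (d + 1) * (16 * d * c * C6 * C5 ^ 2)) + (A6 + 2 * A5)) * w)) := by
  have hx0 : 0 < x := by linarith
  have hsx : 1 ≤ √x := Real.one_le_sqrt.2 hx1
  have hlog2 : 0.69 < Real.log 2 := by linarith [Real.log_two_gt_d9]
  have hDp : (0 : ℝ) < D := by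
    have : 0 < D := by omega
    exact_mod_cast this
  have hlhs0 : 0 < 2 * (d : ℝ) * ((D : ℝ) ^ (κ * (8 * d * q))) ^ (d + 1) := by positivity
  rw [← Real.log_le_log_iff hlhs0 (by positivity), Real.log_rpow (by norm_num)]
  have e1 : Real.log (2 * (d : ℝ) * ((D : ℝ) ^ (κ * (8 * d * q))) ^ (d + 1)) =
      Real.log (2 * d) + (d + 1) * (κ * (8 * d * q) * Real.log D) := by
    rw [Real.log_mul (by positivity) (by positivity), Real.log_pow, Real.log_pow]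
    push_cast
    ring
  rw [e1]
  have h1 : Real.log (2 * d) ≤ 2 * d := by
    have := Real.log_le_sub_one_of_pos (x := 2 * (d : ℝ)) (by positivity)
    linarith
  obtain ⟨Z, hZ⟩ : ∃ Z : ℝ, Z = √x * Real.exp ((A6 + 2 * A5) * w) := ⟨_, rfl⟩
  have hZ1 : 1 ≤ Z := by
    rw [hZ]
    have h2 : 1 ≤ Real.exp ((A6 + 2 * A5) * w) := Real.one_le_exp (by positivity)
    nlinarith
  have h2 : (Real.exp (A6 * w) * √x) * (Real.exp (A5 * w)) ^ 2 = Z := by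
    rw [hZ, ← Real.exp_nat_mul]
    have e2 : Real.exp ((A6 + 2 * A5) * w) = Real.exp (A6 * w) * Real.exp ((2 : ℕ) * (A5 * w)) := by
      rw [← Real.exp_add]
      congr 1
      push_cast
      ring
    rw [e2]
    ring
  have h3 : (κ : ℝ) * (8 * d * q) * Real.log D ≤ 16 * d * c * C6 * C5 ^ 2 * Z := by
    have h4 : (8 * (d : ℝ) * q) * Real.log D ≤ 16 * d * c * (C5 * Real.exp (A5 * w)) ^ 2 := by
      have h5 : (q : ℝ) * Real.log D ≤ 2 * c * Real.log D * Real.log D :=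
        mul_le_mul_of_nonneg_right hq2 (by linarith)
      have h6 : Real.log D ^ 2 ≤ (C5 * Real.exp (A5 * w)) ^ 2 :=
        pow_le_pow_left₀ (by linarith) hlogDu 2
      calc (8 * (d : ℝ) * q) * Real.log D = 8 * d * (q * Real.log D) := by ring
        _ ≤ 8 * d * (2 * c * Real.log D * Real.log D) :=
            mul_le_mul_of_nonneg_left h5 (by positivity)
        _ = 16 * d * c * Real.log D ^ 2 := by ring
        _ ≤ 16 * d * c * (C5 * Real.exp (A5 * w)) ^ 2 :=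
            mul_le_mul_of_nonneg_left h6 (by positivity)
    calc (κ : ℝ) * (8 * d * q) * Real.log D = κ * ((8 * d * q) * Real.log D) := by ring
      _ ≤ (C6 * (Real.exp (A6 * w) * √x)) * (16 * d * c * (C5 * Real.exp (A5 * w)) ^ 2) := by
          refine mul_le_mul hκ4 h4 ?_ (by positivity)
          exact mul_nonneg (by positivity) (by linarith)
      _ = 16 * d * c * C6 * C5 ^ 2 * ((Real.exp (A6 * w) * √x) * (Real.exp (A5 * w)) ^ 2) := by ring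
      _ = 16 * d * c * C6 * C5 ^ 2 * Z := by rw [h2]
  obtain ⟨M, hM⟩ : ∃ M : ℝ, M = 16 * d * c * C6 * C5 ^ 2 := ⟨_, rfl⟩
  have hM0 : 0 < M := by rw [hM]; positivity
  rw [← hM] at h3 ⊢
  have h7 : ((d : ℝ) + 1) * ((κ : ℝ) * (8 * d * q) * Real.log D) ≤ (d + 1) * (M * Z) :=
    mul_le_mul_of_nonneg_left h3 (by positivity)
  have h8 : 2 * (d : ℝ) ≤ 2 * d * Z := le_mul_of_one_le_right (by positivity) hZ1
  obtain ⟨R, hR⟩ : ∃ R : ℝ, R = 2 * (d : ℝ) + (d + 1) * M := ⟨_, rfl⟩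
  have hR0 : 0 < R := by rw [hR]; positivity
  have h9 : R * Z ≤ 2 * R * Z * Real.log 2 := by
    have h10 : 0 < R * Z := by positivity
    have h12 : 2 * R * Z * Real.log 2 = (R * Z) * (2 * Real.log 2) := by ring
    rw [h12]
    exact le_mul_of_one_le_right h10.le (by linarith)
  have h13 : 2 * R ≤ Real.exp (2 * R * w) := by
    have h14 := Real.add_one_le_exp (2 * R * w)
    have h15 : 2 * R ≤ 2 * R * w := le_mul_of_one_le_right (by positivity) hw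
    linarith
  have h16 : 2 * R * Z ≤ √x * Real.exp ((2 * R + (A6 + 2 * A5)) * w) := by
    have e3 : Real.exp ((2 * R + (A6 + 2 * A5)) * w) =
        Real.exp (2 * R * w) * Real.exp ((A6 + 2 * A5) * w) := by
      rw [← Real.exp_add]
      congr 1
      ring
    rw [e3, hZ]
    calc 2 * R * (√x * Real.exp ((A6 + 2 * A5) * w)) ≤
          Real.exp (2 * R * w) * (√x * Real.exp ((A6 + 2 * A5) * w)) :=
          mul_le_mul_of_nonneg_right h13 (by positivity)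
      _ = √x * (Real.exp (2 * R * w) * Real.exp ((A6 + 2 * A5) * w)) := by ring
  have h17 : 2 * R * Z * Real.log 2 ≤
      √x * Real.exp ((2 * R + (A6 + 2 * A5)) * w) * Real.log 2 :=
    mul_le_mul_of_nonneg_right h16 (by linarith)
  rw [← hR]
  calc Real.log (2 * d) + (d + 1) * (κ * (8 * d * q) * Real.log D) ≤
        2 * d * Z + (d + 1) * (M * Z) := add_le_add (h1.trans h8) h7
    _ = R * Z := by rw [hR]; ring
    _ ≤ 2 * R * Z * Real.log 2 := h9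
    _ ≤ _ := h17

private lemma logE {d s J b : ℕ} {c w C1 C5 : ℝ} (hd : 2 ≤ d) (hc : 1 ≤ c) (hw : 1 ≤ w)
    (hC1p : 0 < C1) (hC5 : C5 = 8 * d * (1 + 4 * c + 16 * C1)) (hb1 : 1 ≤ b)
    (h2b : ((2 * b : ℕ) : ℝ) ≤ 4 * Real.exp w) (hs : (s : ℝ) ≤ 2 * w)
    (hJ2 : (J : ℝ) ≤ C1 * Real.exp ((d + 2) * w)) :
    ∃ α D : ℕ, c * (((2 * b) ^ (s * J) : ℕ) : ℝ) ≤ α ∧ D = (2 * α ^ 2) ^ (8 * d) ∧ 2 ≤ D ∧ 1 ≤ Real.log D ∧
      Real.log D ≤ C5 * Real.exp ((d + 4) * w) := by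
  have hdR : (2 : ℝ) ≤ d := by exact_mod_cast hd
  have hlog2 : 0.69 < Real.log 2 := by linarith [Real.log_two_gt_d9]
  have hlog2' : Real.log 2 < 1 := by linarith [Real.log_two_lt_d9]
  have h2b0 : (2 : ℝ) ≤ ((2 * b : ℕ) : ℝ) := by
    exact_mod_cast (by omega : 2 ≤ 2 * b)
  obtain ⟨N0, hN0⟩ : ∃ N0 : ℝ, N0 = (((2 * b) ^ (s * J) : ℕ) : ℝ) := ⟨_, rfl⟩
  have hN01 : 1 ≤ N0 := by
    rw [hN0]
    have : 1 ≤ (2 * b) ^ (s * J) := Nat.one_le_pow _ _ (by omega)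
    exact_mod_cast this
  obtain ⟨α, hα⟩ : ∃ α : ℕ, α = ⌈c * N0⌉₊ := ⟨_, rfl⟩
  have hcN : 1 ≤ c * N0 := by nlinarith
  have hα1 : c * N0 ≤ α := by rw [hα]; exact Nat.le_ceil _
  have hα2 : (α : ℝ) ≤ 2 * c * N0 := by
    have : (α : ℝ) < c * N0 + 1 := by rw [hα]; exact Nat.ceil_lt_add_one (by linarith)
    linarith
  have hα3 : (1 : ℝ) ≤ α := hcN.trans hα1
  have hα4 : 1 ≤ α := by exact_mod_cast hα3
  obtain ⟨D, hD⟩ : ∃ D : ℕ, D = (2 * α ^ 2) ^ (8 * d) := ⟨_, rfl⟩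
  have hD2 : 2 ≤ D := by
    have h1 : 2 ≤ 2 * α ^ 2 := by nlinarith [Nat.pow_le_pow_left hα4 2]
    rw [hD]
    calc 2 = 2 ^ 1 := rfl
      _ ≤ 2 ^ (8 * d) := Nat.pow_le_pow_right (by norm_num) (by omega)
      _ ≤ (2 * α ^ 2) ^ (8 * d) := Nat.pow_le_pow_left h1 _
  have hlogD : Real.log D = 8 * d * (Real.log 2 + 2 * Real.log α) := by
    have h0 : (D : ℝ) = (2 * (α : ℝ) ^ 2) ^ (8 * d) := by rw [hD]; push_cast; rfl
    have h1 : (α : ℝ) ≠ 0 := by positivity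
    rw [h0, Real.log_pow, Real.log_mul (by norm_num) (by positivity), Real.log_pow]
    push_cast
    ring
  have hlogα0 : 0 ≤ Real.log α := Real.log_nonneg hα3
  have hlogD1 : 1 ≤ Real.log D := by
    rw [hlogD]
    have h1 : 0.69 ≤ Real.log 2 + 2 * Real.log α := by linarith
    have h2 : (16 : ℝ) ≤ 8 * d := by linarith
    calc (1 : ℝ) ≤ 16 * 0.69 := by norm_num
      _ ≤ 8 * d * (Real.log 2 + 2 * Real.log α) := mul_le_mul h2 h1 (by norm_num) (by positivity)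
  have hlogα : Real.log α ≤ 2 * c + s * J * Real.log ((2 * b : ℕ) : ℝ) := by
    have h0 : N0 = ((2 * b : ℕ) : ℝ) ^ (s * J) := by rw [hN0]; push_cast; rfl
    have h1 : Real.log α ≤ Real.log (2 * c * N0) := Real.log_le_log (by linarith) hα2
    have h2 : Real.log (2 * c * N0) = Real.log (2 * c) + s * J * Real.log ((2 * b : ℕ) : ℝ) := by
      rw [Real.log_mul (by positivity) (by linarith), h0, Real.log_pow]
      push_cast
      ring
    have h3 : Real.log (2 * c) ≤ 2 * c - 1 := Real.log_le_sub_one_of_pos (by positivity)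
    rw [h2] at h1
    linarith
  have hl2b0 : 0 ≤ Real.log ((2 * b : ℕ) : ℝ) := Real.log_nonneg (by linarith)
  have h3 : Real.log ((2 * b : ℕ) : ℝ) ≤ 4 * Real.exp w := by
    have := Real.log_le_sub_one_of_pos (x := ((2 * b : ℕ) : ℝ)) (by linarith)
    linarith
  have hs2 : (s : ℝ) ≤ 2 * Real.exp w := by
    have := Real.add_one_le_exp w
    linarith
  have h4 : (s : ℝ) * J * Real.log ((2 * b : ℕ) : ℝ) ≤
      (2 * Real.exp w) * (C1 * Real.exp ((d + 2) * w)) * (4 * Real.exp w) := by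
    refine mul_le_mul ?_ h3 hl2b0 (by positivity)
    exact mul_le_mul hs2 hJ2 (Nat.cast_nonneg _) (by positivity)
  have h5 : 1 ≤ Real.exp (((d : ℝ) + 4) * w) := Real.one_le_exp (by positivity)
  have h6 : (2 * Real.exp w) * (C1 * Real.exp (((d : ℝ) + 2) * w)) * (4 * Real.exp w) =
      8 * C1 * Real.exp (((d : ℝ) + 4) * w) := by
    have e1 : Real.exp (((d : ℝ) + 4) * w) =
        Real.exp w * Real.exp (((d : ℝ) + 2) * w) * Real.exp w := by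
      rw [← Real.exp_add, ← Real.exp_add]
      congr 1
      ring
    rw [e1]
    ring
  have h7 : Real.log 2 + 2 * Real.log α ≤ (1 + 4 * c + 16 * C1) * Real.exp (((d : ℝ) + 4) * w) := by
    have e1 : (1 + 4 * c + 16 * C1) * Real.exp (((d : ℝ) + 4) * w) =
        (1 + 4 * c) * Real.exp (((d : ℝ) + 4) * w) + 2 * (8 * C1 * Real.exp (((d : ℝ) + 4) * w)) := by ring
    have e2 : (1 + 4 * c) ≤ (1 + 4 * c) * Real.exp (((d : ℝ) + 4) * w) :=
      le_mul_of_one_le_right (by positivity) h5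
    rw [e1]
    rw [h6] at h4
    linarith
  refine ⟨α, D, hN0 ▸ hα1, hD, hD2, hlogD1, ?_⟩
  rw [hlogD, hC5]
  calc 8 * (d : ℝ) * (Real.log 2 + 2 * Real.log α) ≤
        8 * d * ((1 + 4 * c + 16 * C1) * Real.exp (((d : ℝ) + 4) * w)) :=
        mul_le_mul_of_nonneg_left h7 (by positivity)
    _ = 8 * d * (1 + 4 * c + 16 * C1) * Real.exp (((d : ℝ) + 4) * w) := by ring

private lemma kappaE {d : ℕ} {c x w T P A3 A4 C6 : ℝ} (hdR : (2 : ℝ) ≤ d) (hc : 1 ≤ c) (hx1 : 1 ≤ x)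
    (hw : 1 ≤ w) (hA3 : 0 ≤ A3) (hA4 : 0 ≤ A4)
    (hT1 : 1 ≤ T) (hT2 : T ≤ Real.exp (A3 * w)) (hP1 : 1 ≤ P) (hP2 : P ≤ Real.exp (A4 * w))
    (hC6 : C6 = 4 * c * d ^ 2 + 4 * c + 1) :
    ∃ κ : ℕ, 1 ≤ κ ∧ c ≤ 1 / (4 * d ^ 2 * T * √x) * κ ∧ c ≤ 1 / (4 * P * x) * κ ^ 2 ∧
      (κ : ℝ) ≤ C6 * (Real.exp ((A3 + A4) * w) * √x) := by
  have hx0 : 0 < x := by linarith
  have hT0 : 0 < T := by linarith
  have hPp : 0 < P := by linarith
  have hsq0 : 0 < √x := Real.sqrt_pos.2 hx0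
  have hsq1 : 1 ≤ √x := Real.one_le_sqrt.2 hx1
  obtain ⟨η, hη⟩ : ∃ η : ℝ, η = 1 / (4 * d ^ 2 * T * √x) := ⟨_, rfl⟩
  have hη0 : 0 < η := by rw [hη]; positivity
  obtain ⟨η', hη'⟩ : ∃ η' : ℝ, η' = 1 / (4 * P * x) := ⟨_, rfl⟩
  have hη'0 : 0 < η' := by rw [hη']; positivity
  obtain ⟨κ, hκ⟩ : ∃ κ : ℕ, κ = ⌈c / η + √(c / η')⌉₊ := ⟨_, rfl⟩
  have hcη : c / η = 4 * c * d ^ 2 * T * √x := by rw [hη]; field_simp
  have hcη' : √(c / η') = √(4 * c * P) * √x := by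
    rw [← Real.sqrt_mul (by positivity)]
    congr 1
    rw [hη']; field_simp
  have hsc0 : 0 ≤ √(c / η') := Real.sqrt_nonneg _
  have hcη0 : 0 ≤ c / η := by positivity
  have hκ0 : c / η + √(c / η') ≤ κ := by rw [hκ]; exact Nat.le_ceil _
  have hκ1 : c ≤ η * κ := by
    have h1 : c / η ≤ κ := by linarith
    rw [div_le_iff₀ hη0] at h1
    linarith
  have hκ2 : c ≤ η' * κ ^ 2 := by
    have h1 : √(c / η') ≤ κ := by linarith
    have h2 : c / η' ≤ (κ : ℝ) ^ 2 := by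
      have h3 : √(c / η') ^ 2 = c / η' := Real.sq_sqrt (by positivity)
      rw [← h3]
      exact pow_le_pow_left₀ hsc0 h1 2
    rw [div_le_iff₀ hη'0] at h2
    linarith
  have hκ3 : 1 ≤ κ := by
    by_contra hcon
    have h0 : κ = 0 := by omega
    rw [h0] at hκ1
    simp at hκ1
    linarith
  have hE3 : 1 ≤ Real.exp (A3 * w) := Real.one_le_exp (by positivity)
  have hE4 : 1 ≤ Real.exp (A4 * w) := Real.one_le_exp (by positivity)
  have hE : Real.exp ((A3 + A4) * w) = Real.exp (A3 * w) * Real.exp (A4 * w) := by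
    rw [← Real.exp_add]
    congr 1
    ring
  have hE3' : Real.exp (A3 * w) ≤ Real.exp ((A3 + A4) * w) := by
    rw [hE]; exact le_mul_of_one_le_right (by positivity) hE4
  have hE4' : Real.exp (A4 * w) ≤ Real.exp ((A3 + A4) * w) := by
    rw [hE]; exact le_mul_of_one_le_left (by positivity) hE3
  obtain ⟨E, hEd⟩ : ∃ E : ℝ, E = Real.exp ((A3 + A4) * w) := ⟨_, rfl⟩
  rw [← hEd] at hE3' hE4' ⊢
  have hE1 : 1 ≤ E := hE3.trans hE3'
  have hκ4 : (κ : ℝ) ≤ C6 * (E * √x) := by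
    have h1 : (κ : ℝ) < c / η + √(c / η') + 1 := by rw [hκ]; exact Nat.ceil_lt_add_one (by positivity)
    have h2 : c / η ≤ 4 * c * d ^ 2 * (E * √x) := by
      rw [hcη]
      have e1 : 4 * c * (d : ℝ) ^ 2 * (E * √x) = 4 * c * d ^ 2 * E * √x := by ring
      rw [e1]
      refine mul_le_mul_of_nonneg_right ?_ hsq0.le
      exact mul_le_mul_of_nonneg_left (hT2.trans hE3') (by positivity)
    have h3 : √x ≤ E * √x := le_mul_of_one_le_left hsq0.le hE1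
    have h4 : √(c / η') ≤ 4 * c * (E * √x) := by
      rw [hcη']
      have h5 : √(4 * c * P) ≤ 4 * c * P := by
        have h6 : 1 ≤ 4 * c * P := by nlinarith
        have h7 : √(4 * c * P) * 1 ≤ √(4 * c * P) * √(4 * c * P) :=
          mul_le_mul_of_nonneg_left (Real.one_le_sqrt.2 h6) (Real.sqrt_nonneg _)
        rw [Real.mul_self_sqrt (by linarith)] at h7
        linarith
      calc √(4 * c * P) * √x ≤ (4 * c * P) * √x := mul_le_mul_of_nonneg_right h5 hsq0.le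
        _ ≤ (4 * c * E) * √x := by
            refine mul_le_mul_of_nonneg_right ?_ hsq0.le
            exact mul_le_mul_of_nonneg_left (hP2.trans hE4') (by positivity)
        _ = 4 * c * (E * √x) := by ring
    have h5 : C6 * (E * √x) = 4 * c * d ^ 2 * (E * √x) + 4 * c * (E * √x) + E * √x := by
      rw [hC6]; ring
    rw [h5]
    linarith
  exact ⟨κ, hκ3, hη ▸ hκ1, hη' ▸ hκ2, hκ4⟩

private lemma JE {d b : ℕ} {L w C1 : ℝ} (hL1 : 1 ≤ L) (hw : 1 ≤ w) (hLw : L ≤ Real.exp w)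
    (hC1 : C1 = 36 * d * 4 ^ (d + 1) + 1)
    (h2b : ((2 * b : ℕ) : ℝ) ≤ 4 * Real.exp w) :
    ∃ J : ℕ, 12 * d * (2 * L + 1) * ((2 * b : ℕ) : ℝ) ^ (d + 1) ≤ J ∧
      (J : ℝ) ≤ C1 * Real.exp ((d + 2) * w) := by
  obtain ⟨J, hJ⟩ : ∃ J : ℕ, J = ⌈12 * d * (2 * L + 1) * ((2 * b : ℕ) : ℝ) ^ (d + 1)⌉₊ := ⟨_, rfl⟩
  have hJ1 : 12 * d * (2 * L + 1) * ((2 * b : ℕ) : ℝ) ^ (d + 1) ≤ J := by
    rw [hJ]; exact Nat.le_ceil _
  refine ⟨J, hJ1, ?_⟩
  have h1 : (J : ℝ) < 12 * d * (2 * L + 1) * ((2 * b : ℕ) : ℝ) ^ (d + 1) + 1 := by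
    rw [hJ]; exact Nat.ceil_lt_add_one (by positivity)
  have h2 : ((2 * b : ℕ) : ℝ) ^ (d + 1) ≤ 4 ^ (d + 1) * Real.exp w ^ (d + 1) := by
    rw [← mul_pow]
    exact pow_le_pow_left₀ (by positivity) h2b (d + 1)
  have h3 : 2 * L + 1 ≤ 3 * Real.exp w := by linarith
  have h4 : 12 * d * (2 * L + 1) * ((2 * b : ℕ) : ℝ) ^ (d + 1) ≤
      12 * d * (3 * Real.exp w) * (4 ^ (d + 1) * Real.exp w ^ (d + 1)) := by
    refine mul_le_mul ?_ h2 (by positivity) (by positivity)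
    exact mul_le_mul_of_nonneg_left h3 (by positivity)
  have e1 : Real.exp (((d : ℝ) + 2) * w) = Real.exp w * Real.exp w ^ (d + 1) := by
    rw [← Real.exp_nat_mul, ← Real.exp_add]
    congr 1
    push_cast
    ring
  have h5 : 1 ≤ Real.exp (((d : ℝ) + 2) * w) := Real.one_le_exp (by positivity)
  have h6 : C1 * Real.exp (((d : ℝ) + 2) * w) =
      12 * d * (3 * Real.exp w) * (4 ^ (d + 1) * Real.exp w ^ (d + 1)) + Real.exp (((d : ℝ) + 2) * w) := by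
    rw [hC1, e1]; ring
  rw [h6]
  linarith

private lemma tE {d s b : ℕ} {x L X : ℝ} (hdR : (2 : ℝ) ≤ d) (hx0 : 0 < x) (hL : L = Real.log x) (hL1 : 1 ≤ L)
    (hXs : X ^ s = x) (hs : (s : ℝ) ≤ 2 * L)
    (h2b : ((2 * b : ℕ) : ℝ) ≤ 4 * X) :
    ∃ t : ℕ, (t : ℝ) + 1 ≤ (d + 11) * L ∧ 4 * (d * (2 * b) ^ s) < 2 ^ t := by
  have hd0 : (0 : ℝ) < d := by linarith
  have hlog2 : 0.69 < Real.log 2 := by linarith [Real.log_two_gt_d9]
  obtain ⟨t, ht⟩ : ∃ t : ℕ, t = 2 * s + d + ⌈L / Real.log 2⌉₊ + 3 := ⟨_, rfl⟩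
  refine ⟨t, ?_, ?_⟩
  · have h1 : ((⌈L / Real.log 2⌉₊ : ℕ) : ℝ) < L / Real.log 2 + 1 :=
      Nat.ceil_lt_add_one (by positivity)
    have h2 : L / Real.log 2 ≤ 2 * L := by
      rw [div_le_iff₀ (by linarith)]
      nlinarith
    have h4 : (d : ℝ) ≤ d * L := le_mul_of_one_le_right hd0.le hL1
    rw [ht]
    push_cast
    linarith
  · have h1 : (4 : ℝ) * (d * ((2 * b : ℕ) : ℝ) ^ s) < 2 ^ t := by
      have h2 : ((2 * b : ℕ) : ℝ) ^ s ≤ 4 ^ s * x := by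
        rw [← hXs, ← mul_pow]
        exact pow_le_pow_left₀ (by positivity) h2b s
      have h3 : x ≤ 2 ^ ⌈L / Real.log 2⌉₊ := by
        rw [← Real.log_le_log_iff hx0 (by positivity), Real.log_pow, ← hL]
        rw [← div_le_iff₀ (by linarith)]
        exact Nat.le_ceil _
      have h4 : (2 : ℝ) ^ t = 8 * 2 ^ d * (4 ^ s * 2 ^ ⌈L / Real.log 2⌉₊) := by
        rw [ht, pow_add, pow_add, pow_add, pow_mul]
        norm_num
        ring
      rw [h4]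
      have h5 : (0 : ℝ) < 4 ^ s := by positivity
      have h6 : (d : ℝ) ≤ 2 ^ d := by
        have : d ≤ 2 ^ d := (Nat.lt_two_pow_self).le
        exact_mod_cast this
      have h7 : (4 : ℝ) ^ s * x ≤ 4 ^ s * 2 ^ ⌈L / Real.log 2⌉₊ :=
        mul_le_mul_of_nonneg_left h3 h5.le
      have h8 : (0 : ℝ) < 4 ^ s * x := mul_pos h5 hx0
      have h9 : 0 < (d : ℝ) * (4 ^ s * x) := mul_pos hd0 h8
      calc (4 : ℝ) * (d * ((2 * b : ℕ) : ℝ) ^ s) ≤ 4 * (d * (4 ^ s * x)) := by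
            refine mul_le_mul_of_nonneg_left ?_ (by norm_num)
            exact mul_le_mul_of_nonneg_left h2 hd0.le
        _ < 8 * (d * (4 ^ s * x)) := by linarith
        _ ≤ 8 * (2 ^ d * (4 ^ s * 2 ^ ⌈L / Real.log 2⌉₊)) := by
            refine mul_le_mul_of_nonneg_left ?_ (by norm_num)
            exact mul_le_mul h6 h7 h8.le (by positivity)
        _ = 8 * 2 ^ d * (4 ^ s * 2 ^ ⌈L / Real.log 2⌉₊) := by ring
    exact_mod_cast h1

/-- powers with exponent `s`, `s * M ≤ 2 w` -/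
private lemma powE {s : ℕ} {G M w : ℝ} (hG : 1 ≤ G) (hM1 : 1 ≤ M) (hsM : (s : ℝ) * M ≤ 2 * w) :
    (G * Real.exp M) ^ s ≤ Real.exp (2 * (Real.log G + 1) * w) := by
  have hlG : 0 ≤ Real.log G := Real.log_nonneg hG
  have e1 : G * Real.exp M = Real.exp (Real.log G + M) := by
    rw [Real.exp_add, Real.exp_log (by linarith)]
  rw [e1, ← Real.exp_nat_mul]
  refine Real.exp_le_exp.2 ?_
  have h1 : Real.log G + M ≤ (Real.log G + 1) * M := by nlinarith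
  calc (s : ℝ) * (Real.log G + M) ≤ s * ((Real.log G + 1) * M) :=
        mul_le_mul_of_nonneg_left h1 (Nat.cast_nonneg _)
    _ = (Real.log G + 1) * (s * M) := by ring
    _ ≤ (Real.log G + 1) * (2 * w) := mul_le_mul_of_nonneg_left hsM (by linarith)
    _ = 2 * (Real.log G + 1) * w := by ring

/-- the basic inequalities between `L`, `M = log L`, `w = √(L M)` and `s` -/
private lemma baseE {L B : ℝ} (hB : 1 ≤ B) (hL : 64 * B ^ 4 ≤ L) :
    ∃ (s : ℕ) (M w : ℝ), M = Real.log L ∧ w = √(L * Real.log L) ∧ 1 ≤ M ∧ 1 ≤ w ∧ 1 ≤ s ∧ L ≤ Real.exp w ∧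
      (s : ℝ) * M ≤ 2 * w ∧ (s : ℝ) ≤ 2 * w ∧ w ≤ L / (2 * B) ∧ L / s ≤ w := by
  have hB4 : 1 ≤ B ^ 4 := one_le_pow₀ hB
  have hL64 : 64 ≤ L := by linarith
  have hL0 : 0 < L := by linarith
  obtain ⟨M, hM⟩ : ∃ M : ℝ, M = Real.log L := ⟨_, rfl⟩
  have hM1 : 1 ≤ M := by
    rw [hM, Real.le_log_iff_exp_le hL0]
    linarith [Real.exp_one_lt_d9]
  have hM0 : 0 < M := by linarith
  have hML : M ≤ L := by
    rw [hM]
    linarith [Real.log_le_sub_one_of_pos hL0]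
  obtain ⟨w, hw⟩ : ∃ w : ℝ, w = √(L * Real.log L) := ⟨_, rfl⟩
  rw [← hM] at hw
  have hww : w * w = L * M := by rw [hw]; exact Real.mul_self_sqrt (by positivity)
  have hw0 : 0 ≤ w := by rw [hw]; exact Real.sqrt_nonneg _
  have hw1 : 1 ≤ w := by
    rw [hw]
    refine Real.one_le_sqrt.2 ?_
    nlinarith
  have hMw : M ≤ w := by
    by_contra h
    push Not at h
    nlinarith
  have hLw : L ≤ Real.exp w := by
    calc L = Real.exp M := by rw [hM, Real.exp_log hL0]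
      _ ≤ Real.exp w := Real.exp_le_exp.2 hMw
  obtain ⟨r, hr⟩ : ∃ r : ℝ, r = √(L / M) := ⟨_, rfl⟩
  have hr1 : 1 ≤ r := by
    rw [hr]
    refine Real.one_le_sqrt.2 ?_
    rw [le_div_iff₀ hM0]
    linarith
  have hrr : r * r = L / M := by rw [hr]; exact Real.mul_self_sqrt (by positivity)
  have hrM : r * M = w := by
    have h1 : (r * M) * (r * M) = w * w := by
      rw [hww]
      calc (r * M) * (r * M) = (r * r) * (M * M) := by ring
        _ = L / M * (M * M) := by rw [hrr]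
        _ = L * M := by field_simp
    exact (mul_self_inj (by positivity) hw0).1 h1
  have hrL : L / r = w := by
    rw [div_eq_iff (by positivity)]
    rw [← hrM]
    calc L = (L / M) * M := by field_simp
      _ = (r * r) * M := by rw [hrr]
      _ = r * M * r := by ring
  obtain ⟨s, hs⟩ : ∃ s : ℕ, s = ⌈r⌉₊ := ⟨_, rfl⟩
  have hs1 : r ≤ s := by rw [hs]; exact Nat.le_ceil _
  have hs2 : (s : ℝ) ≤ 2 * r := by
    have : (s : ℝ) < r + 1 := by rw [hs]; exact Nat.ceil_lt_add_one (by linarith)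
    linarith
  have hs3 : 1 ≤ s := by
    have : (1 : ℝ) ≤ s := hr1.trans hs1
    exact_mod_cast this
  have hsM : (s : ℝ) * M ≤ 2 * w := by
    calc (s : ℝ) * M ≤ (2 * r) * M := mul_le_mul_of_nonneg_right hs2 hM0.le
      _ = 2 * w := by rw [← hrM]; ring
  refine ⟨s, M, w, hM, by rw [← hM]; exact hw, hM1, hw1, hs3, hLw, hsM, ?_, ?_, ?_⟩
  · have : (s : ℝ) ≤ s * M := le_mul_of_one_le_right (Nat.cast_nonneg _) hM1
    linarith
  · -- `w ≤ L / (2 B)`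
    have h1 : M ≤ 2 * √L := by
      have h2 : M = 2 * Real.log √L := by
        rw [Real.log_sqrt hL0.le, ← hM]; ring
      rw [h2]
      have h3 := Real.log_le_sub_one_of_pos (Real.sqrt_pos.2 hL0)
      linarith
    have h4 : 8 * B ^ 2 ≤ √L := by
      rw [show 8 * B ^ 2 = √((8 * B ^ 2) ^ 2) from (Real.sqrt_sq (by positivity)).symm]
      refine Real.sqrt_le_sqrt ?_
      calc (8 * B ^ 2) ^ 2 = 64 * B ^ 4 := by ring
        _ ≤ L := hL
    have hsL : √L * √L = L := Real.mul_self_sqrt hL0.le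
    have h5 : 4 * B ^ 2 * M ≤ L := by
      calc 4 * B ^ 2 * M ≤ 4 * B ^ 2 * (2 * √L) := mul_le_mul_of_nonneg_left h1 (by positivity)
        _ = (8 * B ^ 2) * √L := by ring
        _ ≤ √L * √L := mul_le_mul_of_nonneg_right h4 (Real.sqrt_nonneg _)
        _ = L := hsL
    rw [le_div_iff₀ (by positivity)]
    have h6 : (w * (2 * B)) * (w * (2 * B)) ≤ L * L := by
      calc (w * (2 * B)) * (w * (2 * B)) = (w * w) * (4 * B ^ 2) := by ring
        _ = (L * M) * (4 * B ^ 2) := by rw [hww]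
        _ = L * (4 * B ^ 2 * M) := by ring
        _ ≤ L * L := mul_le_mul_of_nonneg_left h5 hL0.le
    exact abs_le_of_sq_le_sq' (by nlinarith only [h6]) hL0.le |>.2
  · have hs0 : (0 : ℝ) < s := by linarith
    rw [← hrL]
    exact div_le_div_of_nonneg_left hL0.le (by linarith) hs1

theorem parE {d : ℕ} (hd : 2 ≤ d) {c : ℝ} (hc : 1 ≤ c) : ∃ (C : ℝ) (K0 : ℕ), 0 < C ∧ 3 ≤ K0 ∧
    ∀ K : ℕ, K0 ≤ K → ∃ (s b J t D κ Q α m : ℕ) (η η' : ℝ), 1 ≤ b ∧ K ≤ b ^ s ∧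
      12 * d * (2 * Real.log K + 1) * ((2 * b : ℕ) : ℝ) ^ (d + 1) ≤ J ∧ 4 * (d * (2 * b) ^ s) < 2 ^ t ∧
      0 < η ∧ 0 < η' ∧ (608 * ((t : ℝ) + 1)) ^ s * (d * η * √K) ≤ 1 / (4 * d) ∧
      (608 * ((t : ℝ) + 1)) ^ s / K ≤ 1 / (4 * d) ∧
      (12 * 4 ^ d : ℝ) ^ s * (K * η') ≤ 1 / 4 ∧ (12 * 4 ^ d : ℝ) ^ s / K ≤ 1 / 4 ∧
      2 ≤ D ∧ 1 ≤ κ ∧ 1 ≤ Q ∧ κ * Q = 8 * d * m ∧ c * (((2 * b) ^ (s * J) : ℕ) : ℝ) ≤ α ∧ c * Real.log D ≤ Q ∧
      c ≤ η * κ ∧ c ≤ η' * κ ^ 2 ∧ (2 * α ^ 2) ^ (8 * d) ≤ D ∧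
      2 * (d : ℝ) * ((D : ℝ) ^ (κ * Q)) ^ (d + 1) ≤
        (2 : ℝ) ^ (√K * Real.exp (C * √(Real.log K * Real.log (Real.log K)))) := by
  have hdR : (2 : ℝ) ≤ d := by exact_mod_cast hd
  have hd0 : (0 : ℝ) < d := by linarith
  -- constants
  obtain ⟨G3, hG3⟩ : ∃ G3 : ℝ, G3 = 608 * (d + 11) := ⟨_, rfl⟩
  obtain ⟨G4, hG4⟩ : ∃ G4 : ℝ, G4 = 12 * 4 ^ d := ⟨_, rfl⟩
  have hG31 : 1 ≤ G3 := by rw [hG3]; linarith
  have hG41 : 1 ≤ G4 := by
    rw [hG4]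
    have : (1 : ℝ) ≤ 4 ^ d := one_le_pow₀ (by norm_num)
    linarith
  obtain ⟨A3, hA3⟩ : ∃ A3 : ℝ, A3 = 2 * (Real.log G3 + 1) := ⟨_, rfl⟩
  obtain ⟨A4, hA4⟩ : ∃ A4 : ℝ, A4 = 2 * (Real.log G4 + 1) := ⟨_, rfl⟩
  have hA3p : 0 ≤ A3 := by rw [hA3]; linarith [Real.log_nonneg hG31]
  have hA4p : 0 ≤ A4 := by rw [hA4]; linarith [Real.log_nonneg hG41]
  obtain ⟨B, hB⟩ : ∃ B : ℝ, B = A3 + A4 + 1 := ⟨_, rfl⟩
  have hB1 : 1 ≤ B := by rw [hB]; linarith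
  obtain ⟨C1, hC1⟩ : ∃ C1 : ℝ, C1 = 36 * d * 4 ^ (d + 1) + 1 := ⟨_, rfl⟩
  obtain ⟨C5, hC5⟩ : ∃ C5 : ℝ, C5 = 8 * d * (1 + 4 * c + 16 * C1) := ⟨_, rfl⟩
  obtain ⟨C6, hC6⟩ : ∃ C6 : ℝ, C6 = 4 * c * d ^ 2 + 4 * c + 1 := ⟨_, rfl⟩
  have hC1p : 0 < C1 := by rw [hC1]; positivity
  have hC5p : 0 < C5 := by rw [hC5]; positivity
  have hC6p : 0 < C6 := by rw [hC6]; positivity
  refine ⟨2 * (2 * d + (d + 1) * (16 * d * c * C6 * C5 ^ 2)) + ((A3 + A4) + 2 * (d + 4)),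
    ⌈Real.exp (64 * B ^ 4 + 8 * d)⌉₊ + 3, by positivity, by omega, ?_⟩
  intro K hK
  obtain ⟨x, hx⟩ : ∃ x : ℝ, x = (K : ℝ) := ⟨_, rfl⟩
  rw [← hx]
  have hKR : ((⌈Real.exp (64 * B ^ 4 + 8 * d)⌉₊ + 3 : ℕ) : ℝ) ≤ x := by rw [hx]; exact_mod_cast hK
  push_cast at hKR
  have hcl := Nat.le_ceil (Real.exp (64 * B ^ 4 + 8 * d))
  have hxe : Real.exp (64 * B ^ 4 + 8 * d) ≤ x := by linarith only [hKR, hcl]
  have hx0 : 0 < x := lt_of_lt_of_le (Real.exp_pos _) hxe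
  obtain ⟨L, hL⟩ : ∃ L : ℝ, L = Real.log x := ⟨_, rfl⟩
  have hLB : 64 * B ^ 4 + 8 * d ≤ L := by
    rw [hL, Real.le_log_iff_exp_le hx0]
    exact hxe
  have hB40 : 0 ≤ 64 * B ^ 4 := by positivity
  have hL8 : 8 * (d : ℝ) ≤ L := by linarith only [hLB, hB40]
  have hL1 : 1 ≤ L := by linarith only [hL8, hdR]
  have hx1 : 1 ≤ x := by
    have h1 : x = Real.exp L := by rw [hL, Real.exp_log hx0]
    rw [h1]
    exact Real.one_le_exp (by linarith only [hL1])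
  obtain ⟨s, M, w, hM, hw, hM1, hw1, hs1, hLw, hsM, hsw, hwL, hLs⟩ :=
    baseE (L := L) hB1 (by linarith only [hLB, hd0])
  have hxL : Real.exp L = x := by rw [hL, Real.exp_log hx0]
  have hsR : (1 : ℝ) ≤ s := by exact_mod_cast hs1
  have hs0 : (0 : ℝ) < s := by linarith only [hsR]
  obtain ⟨X, hX⟩ : ∃ X : ℝ, X = Real.exp (L / s) := ⟨_, rfl⟩
  have hX1 : 1 ≤ X := by rw [hX]; exact Real.one_le_exp (by positivity)
  have hXs : X ^ s = x := by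
    rw [hX, ← Real.exp_nat_mul, ← hxL]
    congr 1
    field_simp
  have hXw : X ≤ Real.exp w := by rw [hX]; exact Real.exp_le_exp.2 hLs
  -- b
  obtain ⟨b, hb⟩ : ∃ b : ℕ, b = ⌈X⌉₊ := ⟨_, rfl⟩
  have hbX : X ≤ b := by rw [hb]; exact Nat.le_ceil X
  have hb1 : 1 ≤ b := by
    have : (1 : ℝ) ≤ b := hX1.trans hbX
    exact_mod_cast this
  have hb2 : (b : ℝ) ≤ 2 * X := by
    have : (b : ℝ) < X + 1 := by rw [hb]; exact Nat.ceil_lt_add_one (by linarith only [hX1])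
    linarith only [this, hX1]
  have hKb : K ≤ b ^ s := by
    have : (K : ℝ) ≤ (b : ℝ) ^ s := by
      rw [← hx, ← hXs]
      exact pow_le_pow_left₀ (by linarith only [hX1]) hbX s
    exact_mod_cast this
  have h2b : ((2 * b : ℕ) : ℝ) ≤ 4 * X := by push_cast; linarith only [hb2]
  have h2bw : ((2 * b : ℕ) : ℝ) ≤ 4 * Real.exp w := by linarith only [h2b, hXw]
  obtain ⟨J, hJ1, hJ2⟩ := JE (d := d) (b := b) hL1 hw1 hLw hC1 h2bw
  have hw2 : w ≤ L := by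
    refine hwL.trans ?_
    rw [div_le_iff₀ (by linarith only [hB1])]
    nlinarith only [hL1, hB1]
  have hs2L : (s : ℝ) ≤ 2 * L := by linarith only [hsw, hw2]
  obtain ⟨t, ht1, ht2⟩ := tE (d := d) (s := s) (b := b) hdR hx0 hL hL1 hXs hs2L h2b
  -- T
  have ht0 : (0 : ℝ) ≤ t := Nat.cast_nonneg t
  obtain ⟨T, hT⟩ : ∃ T : ℝ, T = (608 * ((t : ℝ) + 1)) ^ s := ⟨_, rfl⟩
  have hT1 : 1 ≤ T := by
    rw [hT]
    refine one_le_pow₀ ?_
    linarith only [ht0]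
  have hT0 : 0 < T := by linarith only [hT1]
  have hLM : Real.exp M = L := by rw [hM, Real.exp_log (by linarith only [hL1])]
  have hT2 : T ≤ Real.exp (A3 * w) := by
    rw [hT, hA3]
    refine le_trans ?_ (powE (s := s) hG31 hM1 hsM)
    refine pow_le_pow_left₀ (by positivity) ?_ s
    rw [hLM, hG3]
    linarith only [ht1]
  obtain ⟨P, hP⟩ : ∃ P : ℝ, P = (12 * 4 ^ d : ℝ) ^ s := ⟨_, rfl⟩
  have hP1 : 1 ≤ P := by
    rw [hP, ← hG4]
    exact one_le_pow₀ hG41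
  have hP0 : 0 < P := by linarith only [hP1]
  have hP2 : P ≤ Real.exp (A4 * w) := by
    rw [hP, hA4, ← hG4]
    refine le_trans ?_ (powE (s := s) hG41 hM1 hsM)
    refine pow_le_pow_left₀ (by linarith only [hG41]) ?_ s
    refine le_mul_of_one_le_right (by linarith only [hG41]) ?_
    exact Real.one_le_exp (by linarith only [hM1])
  have hsq0 : 0 < √x := Real.sqrt_pos.2 hx0
  obtain ⟨α, D, hα1, hD, hD2, hlogD1, hlogDu⟩ :=
    logE (d := d) (s := s) (J := J) (b := b) (c := c) hd hc hw1 hC1p hC5 hb1 h2bw hsw hJ2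
  obtain ⟨κ, hκ3, hκ1, hκ2, hκ4⟩ :=
    kappaE (d := d) (c := c) hdR hc hx1 hw1 hA3p hA4p hT1 hT2 hP1 hP2 hC6
  -- Q
  obtain ⟨q, hq⟩ : ∃ q : ℕ, q = ⌈c * Real.log D⌉₊ := ⟨_, rfl⟩
  have hcD : 1 ≤ c * Real.log D := by
    calc (1 : ℝ) = 1 * 1 := by ring
      _ ≤ c * Real.log D := mul_le_mul hc hlogD1 (by norm_num) (by linarith only [hc])
  have hq1 : c * Real.log D ≤ q := by rw [hq]; exact Nat.le_ceil _
  have hq2 : (q : ℝ) ≤ 2 * c * Real.log D := by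
    have : (q : ℝ) < c * Real.log D + 1 := by
      rw [hq]; exact Nat.ceil_lt_add_one (by linarith only [hcD])
    linarith only [this, hcD]
  have hq3 : 1 ≤ q := by
    have : (1 : ℝ) ≤ q := hcD.trans hq1
    exact_mod_cast this
  have hfin := finE (d := d) (D := D) (κ := κ) (q := q) (c := c) (x := x) (w := w)
    (C5 := C5) (C6 := C6) (A5 := (d : ℝ) + 4) (A6 := A3 + A4) hdR hD2 hc hx1 hw1 hC5p hC6p
    (by positivity) (by positivity) hq2 hlogD1 hlogDu hκ4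
  rw [hw, hL] at hfin
  have hBL : (A3 + A4 + 1) * w ≤ L / 2 := by
    rw [← hB]
    have h1 : w * (2 * B) ≤ L := by
      rwa [le_div_iff₀ (by linarith only [hB1])] at hwL
    linarith only [h1]
  have hw0 : 0 ≤ w := by linarith only [hw1]
  refine ⟨s, b, J, t, D, κ, 8 * d * q, α, κ * q, 1 / (4 * d ^ 2 * T * √x), 1 / (4 * P * x), hb1, hKb,
    by rw [← hL]; exact hJ1,
    ht2, by positivity, by positivity, ?_, ?_, ?_, ?_, hD2, hκ3, ?_, by ring, hα1, ?_, hκ1, hκ2, hD.ge, hfin⟩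
  · rw [← hT]
    have : T * (d * (1 / (4 * (d : ℝ) ^ 2 * T * √x)) * √x) = 1 / (4 * d) := by
      have h1 : T ≠ 0 := hT0.ne'
      have h2 : √x ≠ 0 := hsq0.ne'
      have h3 : (d : ℝ) ≠ 0 := hd0.ne'
      field_simp
    rw [this]
  · rw [← hT, div_le_div_iff₀ hx0 (by positivity)]
    have h1 : T ≤ Real.exp (L / 2) := by
      refine hT2.trans (Real.exp_le_exp.2 ?_)
      nlinarith only [hBL, hw0, hA4p, mul_nonneg hA4p hw0]
    have h2 : 4 * (d : ℝ) ≤ Real.exp (L / 2) := by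
      have := Real.add_one_le_exp (L / 2)
      linarith only [this, hL8]
    have h3 : Real.exp (L / 2) * Real.exp (L / 2) = x := by
      rw [← Real.exp_add, ← hxL]
      congr 1
      ring
    calc T * (4 * d) ≤ Real.exp (L / 2) * Real.exp (L / 2) :=
          mul_le_mul h1 h2 (by positivity) (Real.exp_pos _).le
      _ = 1 * x := by rw [h3, one_mul]
  · rw [← hP]
    have : P * (x * (1 / (4 * P * x))) = 1 / 4 := by field_simp
    rw [this]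
  · rw [← hP, div_le_div_iff₀ hx0 (by norm_num)]
    have h1 : P ≤ Real.exp (L / 2) := by
      refine hP2.trans (Real.exp_le_exp.2 ?_)
      nlinarith only [hBL, hw0, hA3p, mul_nonneg hA3p hw0]
    have h2 : (4 : ℝ) ≤ Real.exp (L / 2) := by
      have := Real.add_one_le_exp (L / 2)
      linarith only [this, hL8, hdR]
    have h3 : Real.exp (L / 2) * Real.exp (L / 2) = x := by
      rw [← Real.exp_add, ← hxL]
      congr 1
      ring
    calc P * 4 ≤ Real.exp (L / 2) * Real.exp (L / 2) :=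
          mul_le_mul h1 h2 (by norm_num) (Real.exp_pos _).le
      _ = 1 * x := by rw [h3, one_mul]
  · exact Nat.one_le_iff_ne_zero.2 (by positivity)
  · push_cast
    have h1 : (q : ℝ) ≤ 8 * d * q := by
      have h2 : (1 : ℝ) ≤ 8 * d := by linarith only [hdR]
      exact le_mul_of_one_le_left (Nat.cast_nonneg q) h2
    exact hq1.trans h1

end FHD
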