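import Pool.Agent.FHD.FinD
import Pool.Agent.Hhelper47.PermExt.Defs

/-!
# FHD.Trans: translation to the definitions of the problem

PROOF.  `perm_repr`: let `i0 = ⟨0, _⟩ : Fin d`.  For `x : Fin k` let `p x` be the unique element of `P` with `p x i0 = x`.  For every axis `i` the map
`x ↦ p x i` is bijective: for `y : Fin k` there is exactly one `p' ∈ P` with `p' i = y`, and the `p x` with `p x i = y` are exactly the `x` with
`p x = p'`, i.e. `x = p' i0`.  `π i = Equiv.ofBijective _ _`.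
`has_contains`: `A' = A.image (fun z i => (z i : ℕ))`.  If `a` is a copy of `π` in `A'` then `a i (π i j) < n` for all `j`, and `π i` is surjective, so
`a i x < n` for all `x`; `j l x = ⟨a l x, _⟩` shows `Contains A P`.
`M_le`: for `IsPerm P` take `π`; for `A` with `¬ Contains A P` the set `A' ⊆ box d n` has `#A' = #A` (injective) and does not contain `π`, so
`#A ≤ 2 ^ (C k ^ (1/2 + ε)) n ^ (d-1)` by `upperD`, and `f n P` is the maximum of these (`Finset.sup_le` after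
`Nat.le_floor`, or `Finset.exists_mem_eq_sup`).  Divide by `n ^ (d-1)` in `ENNReal` (`ENNReal.div_le_of_le_mul`, `ENNReal.ofReal_mul`,
`ENNReal.ofReal_natCast`).
-/

set_option autoImplicit false

namespace FHD

open Finset Pool.Agent.Hhelper47.PermExt

theorem perm_repr {d k : ℕ} (hd : 2 ≤ d) {P : Finset (Fin d → Fin k)} (hP : IsPerm P) :
    ∃ π : Fin d → Equiv.Perm (Fin k), ∀ p, p ∈ P ↔ ∃ j, p = fun i => π i j := by
  classical
  have i0 : Fin d := ⟨0, by omega⟩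
  choose p hp hu using fun x : Fin k => (hP i0 x)
  have hbij : ∀ i, Function.Bijective fun x => p x i := by
    intro i
    constructor
    · intro x y hxy
      have hxy' : p x i = p y i := hxy
      obtain ⟨q, _, hq⟩ := hP i (p y i)
      have h1 : p x = q := hq _ ⟨(hp x).1, hxy'⟩
      have h2 : p y = q := hq _ ⟨(hp y).1, rfl⟩
      have h3 : p x = p y := h1.trans h2.symm
      rw [← (hp x).2, ← (hp y).2, h3]
    · intro y
      obtain ⟨q, ⟨hq1, hq2⟩, _⟩ := hP i y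
      refine ⟨q i0, ?_⟩
      have h1 : q = p (q i0) := hu (q i0) q ⟨hq1, rfl⟩
      show p (q i0) i = y
      rw [← h1, hq2]
  refine ⟨fun i => Equiv.ofBijective _ (hbij i), fun q => ⟨fun hq => ⟨q i0, ?_⟩, ?_⟩⟩
  · have h1 : q = p (q i0) := hu (q i0) q ⟨hq, rfl⟩
    funext i
    exact congrFun h1 i
  · rintro ⟨j, rfl⟩
    exact (hp j).1

theorem has_contains {d k n : ℕ} {P : Finset (Fin d → Fin k)} (π : Fin d → Equiv.Perm (Fin k))
    (hπ : ∀ p, p ∈ P ↔ ∃ j, p = fun i => π i j) (A : Finset (Fin d → Fin n))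
    (h : Has π (A.image fun z i => (z i : ℕ))) : Contains A P := by
  obtain ⟨a, ha, hm⟩ := h
  have hlt : ∀ i x, a i x < n := by
    intro i x
    obtain ⟨z, _, hz⟩ := Finset.mem_image.mp (hm ((π i).symm x))
    have h1 := congrFun hz i
    simp only [Equiv.apply_symm_apply] at h1
    rw [← h1]
    exact (z i).isLt
  refine ⟨fun l x => ⟨a l x, hlt l x⟩, fun l x y hxy => ha l hxy, ?_⟩
  intro p hp
  obtain ⟨j, rfl⟩ := (hπ p).mp hp
  obtain ⟨z, hz, hzj⟩ := Finset.mem_image.mp (hm j)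
  have h2 : z = fun l => (⟨a l (π l j), hlt l (π l j)⟩ : Fin n) := by
    funext l
    apply Fin.ext
    exact congrFun hzj l
  rw [← h2]
  exact hz

private theorem card_le_of_not {d k n : ℕ} {P : Finset (Fin d → Fin k)}
    (π : Fin d → Equiv.Perm (Fin k)) (hπ : ∀ p, p ∈ P ↔ ∃ j, p = fun i => π i j) {B : ℝ}
    (hB : ∀ A ⊆ box d n, ¬ Has π A → (#A : ℝ) ≤ B) (A : Finset (Fin d → Fin n))
    (hA : ¬ Contains A P) : (#A : ℝ) ≤ B := by
  classical
  have hinj : Function.Injective fun (z : Fin d → Fin n) (i : Fin d) => (z i : ℕ) := by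
    intro z w h
    funext i
    exact Fin.ext (congrFun h i)
  have h1 : #(A.image fun z i => (z i : ℕ)) = #A := Finset.card_image_of_injective _ hinj
  have h2 : (A.image fun z i => (z i : ℕ)) ⊆ box d n := by
    intro w hw
    obtain ⟨z, _, rfl⟩ := Finset.mem_image.mp hw
    unfold box
    rw [Fintype.mem_piFinset]
    intro i
    exact Finset.mem_range.mpr (z i).isLt
  rw [← h1]
  exact hB _ h2 (fun h => hA (has_contains π hπ A h))

theorem M_le (d : ℕ) (hd : 2 ≤ d) {ε : ℝ} (hε : 0 < ε) : ∃ C : ℝ, 0 < C ∧ ∀ k : ℕ, 1 ≤ k →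
    M d k ≤ ENNReal.ofReal ((2 : ℝ) ^ (C * (k : ℝ) ^ (1 / 2 + ε))) := by
  classical
  obtain ⟨C, hC, h⟩ := upperD d hd hε
  refine ⟨C, hC, fun k hk => ?_⟩
  unfold M
  refine iSup_le fun n => iSup_le fun hn => iSup_le fun P => iSup_le fun hP => ?_
  obtain ⟨π, hπ⟩ := perm_repr hd hP
  have hcard : ∀ A : Finset (Fin d → Fin n), ¬ Contains A P →
      (#A : ℝ) ≤ (2 : ℝ) ^ (C * (k : ℝ) ^ (1 / 2 + ε)) * (n : ℝ) ^ (d - 1) :=
    fun A hA => card_le_of_not π hπ (fun B hB1 hB2 => h k hk π n B hB1 hB2) A hA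
  have h0 : (0 : ℝ) ≤ (2 : ℝ) ^ (C * (k : ℝ) ^ (1 / 2 + ε)) * (n : ℝ) ^ (d - 1) := by positivity
  have hf : ((f n P : ℕ) : ℝ) ≤ (2 : ℝ) ^ (C * (k : ℝ) ^ (1 / 2 + ε)) * (n : ℝ) ^ (d - 1) := by
    have h1 : f n P ≤ ⌊(2 : ℝ) ^ (C * (k : ℝ) ^ (1 / 2 + ε)) * (n : ℝ) ^ (d - 1)⌋₊ := by
      unfold f
      refine Finset.sup_le fun A hA => Nat.le_floor (hcard A ?_)
      exact (Finset.mem_filter.mp hA).2
    exact (Nat.le_floor_iff h0).mp h1
  apply ENNReal.div_le_of_le_mul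
  have h2 : ((f n P : ℕ) : ENNReal) = ENNReal.ofReal ((f n P : ℕ) : ℝ) :=
    (ENNReal.ofReal_natCast _).symm
  have h3 : ((n : ENNReal)) ^ (d - 1) = ENNReal.ofReal ((n : ℝ) ^ (d - 1)) := by
    rw [ENNReal.ofReal_pow (Nat.cast_nonneg n), ENNReal.ofReal_natCast]
  rw [h2, h3, ← ENNReal.ofReal_mul (by positivity)]
  exact ENNReal.ofReal_le_ofReal hf

end FHD
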