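import Pool.Agent.FHD.Row
import Pool.Agent.FHD.Blk
import Pool.Agent.FHD.EmbD
import Pool.Agent.FHD.ParE
import Pool.Agent.FHD.Trans

/-!
# FHD.FinE: the upper bound for all `d`-dimensional permutations, sharp form

PROOF of `upperE`.  As `upperD` in `FHD.FinD`, with `parE` instead of `parD`: let `c` be the constant of `row d hd` and take `C0`, `K0` from `parE` for `c`.  Let `k ≥ 3`,
`K = max k K0`, and the parameters of `parE` for `K`.  `embD` (`k ≤ K ≤ b ^ s`) gives `PlD π N0 η η'` with `N0 = (2 b) ^ (s J) ≥ 1`; `row` gives the hypothesis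
`hrow` of `rec_all` with `σ = D ^ (8 m)`, `s = D ^ (κ Q) = σ ^ d` (`κ Q = 8 d m`, `m ≥ 1`, so `σ ≥ 2`).  Hence
`#A ≤ 2 d (D ^ (κ Q)) ^ (d+1) N ^ (d-1) ≤ 2 ^ (√K exp (C0 w K)) N ^ (d-1)`, `w x = √(log x log log x)`.  If `k ≥ K0` then `K = k`.  If `3 ≤ k < K0` then `K = K0`; as
`w k ≥ w 3 > 0` (`log 3 > 1`, so `log log 3 > 0`; `log` is increasing) there is a `C1` with `√K0 exp (C0 w K0) ≤ exp (C1 w 3) ≤ √k exp (C1 w k)`.  `C = max C0 C1`
(`w k ≥ 0`).
PROOF of `M_leE`.  As `M_le` in `FHD.Trans` (use `perm_repr`, `has_contains`).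
-/

set_option autoImplicit false

namespace FHD

open Finset Pool.Agent.Hhelper47.PermExt

private noncomputable def FinE_w (x : ℝ) : ℝ := √(Real.log x * Real.log (Real.log x))

private theorem FinE_log3 : 1 < Real.log 3 := by
  rw [Real.lt_log_iff_exp_lt (by norm_num)]
  exact Real.exp_one_lt_d9.trans (by norm_num)

private theorem FinE_w3 : 0 < FinE_w 3 := by
  unfold FinE_w
  refine Real.sqrt_pos.2 (mul_pos ?_ (Real.log_pos FinE_log3))
  linarith [FinE_log3]

private theorem FinE_mono {x : ℝ} (hx : 3 ≤ x) : FinE_w 3 ≤ FinE_w x := by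
  unfold FinE_w
  have h1 : Real.log 3 ≤ Real.log x := Real.log_le_log (by norm_num) hx
  have h2 : Real.log (Real.log 3) ≤ Real.log (Real.log x) :=
    Real.log_le_log (by linarith [FinE_log3]) h1
  refine Real.sqrt_le_sqrt ?_
  exact mul_le_mul h1 h2 (Real.log_pos FinE_log3).le (by linarith [FinE_log3])

theorem upperE (d : ℕ) (hd : 2 ≤ d) : ∃ C : ℝ, 0 < C ∧ ∀ (k : ℕ), 3 ≤ k →
    ∀ (π : Fin d → Equiv.Perm (Fin k)) (N : ℕ), ∀ A ⊆ box d N, ¬ Has π A →
      (#A : ℝ) ≤ (2 : ℝ) ^ (√k * Real.exp (C * √(Real.log k * Real.log (Real.log k)))) * (N : ℝ) ^ (d - 1) := by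
  obtain ⟨c, hc1, hrow⟩ := row d hd
  obtain ⟨C0, K0, hC0, hK0, hpar⟩ := parE hd hc1
  have hK0R : (3 : ℝ) ≤ (K0 : ℝ) := by exact_mod_cast hK0
  have hK0' : (0 : ℝ) < (K0 : ℝ) := by linarith
  set C1 : ℝ := (Real.log (√K0) + C0 * FinE_w K0) / FinE_w 3 with hC1
  have hw0 : ∀ x : ℝ, 0 ≤ FinE_w x := fun x => Real.sqrt_nonneg _
  have hsK : 1 ≤ √(K0 : ℝ) := Real.one_le_sqrt.2 (by linarith)
  refine ⟨max C0 C1, lt_max_of_lt_left hC0, ?_⟩
  intro k hk π N A hA hHas
  obtain ⟨s, b, J, t, D, κ, Q, α, m, η, η', hb, hKb, hJ, ht, hη, hη', h1, h2, h3, h4, hD, hκ, hQ, hκQ,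
    hα, hlog, hcη, hcη', hαD, hfin⟩ := hpar (max k K0) (le_max_right _ _)
  have hPl : PlD π ((2 * b) ^ (s * J)) η η' :=
    embD hd hb (le_max_left _ _) (le_trans (by omega) (le_max_right k K0)) (le_trans (le_max_left _ _) hKb)
      hJ ht hη.le hη'.le h1 h2 h3 h4 π
  have hm : 1 ≤ m := by
    rcases Nat.eq_zero_or_pos m with h | h
    · exfalso
      rw [h, Nat.mul_zero] at hκQ
      rcases Nat.mul_eq_zero.mp hκQ with h' | h' <;> omega
    · exact h
  have hs : D ^ (κ * Q) = (D ^ (8 * m)) ^ d := by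
    rw [hκQ, ← pow_mul]
    congr 1
    ring
  have hσ : 2 ≤ D ^ (8 * m) := le_trans hD (Nat.le_self_pow (by omega) D)
  have hcard := rec_all hd hσ hs π (fun S hS h => hrow k D κ Q α m _ π η η' hη hη'
    (Nat.one_le_pow _ _ (by omega)) hPl hD hκ hQ hκQ hα hlog hcη hcη' hαD S hS h) N A hA hHas
  have h5 : (#A : ℝ) ≤ 2 * (d : ℝ) * ((D : ℝ) ^ (κ * Q)) ^ (d + 1) * (N : ℝ) ^ (d - 1) := by
    exact_mod_cast hcard
  have hkR : (3 : ℝ) ≤ (k : ℝ) := by exact_mod_cast hk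
  have h6 : √((max k K0 : ℕ) : ℝ) * Real.exp (C0 * FinE_w ((max k K0 : ℕ) : ℝ)) ≤
      √(k : ℝ) * Real.exp (max C0 C1 * FinE_w k) := by
    rcases le_total K0 k with h | h
    · rw [max_eq_left h]
      refine mul_le_mul_of_nonneg_left ?_ (Real.sqrt_nonneg _)
      exact Real.exp_le_exp.2 (mul_le_mul_of_nonneg_right (le_max_left _ _) (hw0 _))
    · rw [max_eq_right h]
      have hC1' : 0 ≤ C1 := by
        rw [hC1]
        refine div_nonneg (add_nonneg (Real.log_nonneg hsK) ?_) FinE_w3.le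
        exact mul_nonneg hC0.le (hw0 _)
      have e1 : √(K0 : ℝ) * Real.exp (C0 * FinE_w K0) = Real.exp (C1 * FinE_w 3) := by
        rw [hC1, div_mul_cancel₀ _ FinE_w3.ne', Real.exp_add, Real.exp_log (by linarith)]
      rw [e1]
      have e2 : Real.exp (C1 * FinE_w 3) ≤ Real.exp (max C0 C1 * FinE_w k) := by
        refine Real.exp_le_exp.2 ?_
        exact mul_le_mul (le_max_right _ _) (FinE_mono hkR) FinE_w3.le (hC1'.trans (le_max_right _ _))
      refine e2.trans ?_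
      refine le_mul_of_one_le_left (Real.exp_pos _).le ?_
      exact Real.one_le_sqrt.2 (by linarith)
  have h7 : (2 : ℝ) ^ (√((max k K0 : ℕ) : ℝ) * Real.exp (C0 * √(Real.log ((max k K0 : ℕ) : ℝ) *
        Real.log (Real.log ((max k K0 : ℕ) : ℝ))))) ≤
      (2 : ℝ) ^ (√k * Real.exp (max C0 C1 * √(Real.log k * Real.log (Real.log k)))) :=
    Real.rpow_le_rpow_of_exponent_le (by norm_num) h6
  calc (#A : ℝ) ≤ 2 * (d : ℝ) * ((D : ℝ) ^ (κ * Q)) ^ (d + 1) * (N : ℝ) ^ (d - 1) := h5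
    _ ≤ _ := mul_le_mul_of_nonneg_right (hfin.trans h7) (by positivity)

theorem M_leE (d : ℕ) (hd : 2 ≤ d) : ∃ C : ℝ, 0 < C ∧ ∀ k : ℕ, 3 ≤ k →
    M d k ≤ ENNReal.ofReal ((2 : ℝ) ^ (√k * Real.exp (C * √(Real.log k * Real.log (Real.log k))))) := by
  classical
  obtain ⟨C, hC, hup⟩ := upperE d hd
  refine ⟨C, hC, fun k hk => ?_⟩
  unfold M
  refine iSup_le fun n => iSup_le fun hn => iSup_le fun P => iSup_le fun hP => ?_
  obtain ⟨π, hπ⟩ := perm_repr hd hP
  set B : ℝ := (2 : ℝ) ^ (√k * Real.exp (C * √(Real.log k * Real.log (Real.log k)))) with hB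
  have hB0 : 0 ≤ B := by positivity
  refine ENNReal.div_le_of_le_mul ?_
  have h1 : (f n P : ℝ) ≤ B * (n : ℝ) ^ (d - 1) := by
    have h2 : f n P ≤ ⌊B * (n : ℝ) ^ (d - 1)⌋₊ := by
      unfold f
      refine Finset.sup_le fun A hA => ?_
      refine Nat.le_floor ?_
      have hA2 : ¬ Contains A P := by
        have := (mem_filter.1 hA).2
        exact this
      have hinj : Function.Injective (fun (z : Fin d → Fin n) (i : Fin d) => (z i : ℕ)) := by
        intro z z' h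
        funext i
        exact Fin.ext (congrFun h i)
      have h3 : #(A.image fun z i => (z i : ℕ)) = #A := card_image_of_injective _ hinj
      have h4 : (A.image fun z i => (z i : ℕ)) ⊆ box d n := by
        intro y hy
        obtain ⟨z, _, rfl⟩ := mem_image.1 hy
        unfold box
        rw [Fintype.mem_piFinset]
        exact fun i => mem_range.2 (z i).2
      have h5 := hup k hk π n _ h4 fun h => hA2 (has_contains π hπ A h)
      rw [h3] at h5
      exact h5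
    exact (Nat.cast_le.2 h2).trans (Nat.floor_le (by positivity))
  calc (f n P : ENNReal) = ENNReal.ofReal (f n P : ℝ) := (ENNReal.ofReal_natCast _).symm
    _ ≤ ENNReal.ofReal (B * (n : ℝ) ^ (d - 1)) := ENNReal.ofReal_le_ofReal h1
    _ = ENNReal.ofReal B * (n : ENNReal) ^ (d - 1) := by
        rw [ENNReal.ofReal_mul hB0, ENNReal.ofReal_pow (Nat.cast_nonneg n), ENNReal.ofReal_natCast]

end FHD
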