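import Pool.Agent.FHD.Defs

/-!
# FHD.Kraft: most points of a large set of numbers have many free digits

PROOF.  `Λ` a set of `n`-digit numbers.  For `x ∈ Λ` and `t < n` let `Λ_t(x)` be the set of the `y ∈ Λ` with the same first `t` digits.
Position `t` is free at `x` if `A #Λ_(t+1)(x) ≤ #Λ_t(x)`; let `ω_t(x) = 1/D` if it is free and `1/A` if not.
CLAIM (Kraft inequality): `∑_{x ∈ Λ} ∏_{t<n} ω_t(x) ≤ 2 ^ n`.  More generally, for `s ≤ n` and `z ∈ Λ`,
`∑_{x ∈ Λ_s(z)} ∏_{s ≤ t < n} ω_t(x) ≤ 2 ^ (n-s)`: downward induction on `s`; `Λ_n(z) = {z}` (empty product).  For `s < n` the set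
`Λ_s(z)` is the disjoint union of its at most `D` nonempty children `Λ_(s+1)(x)`; `ω_s` is constant on a child; there
are at most `D` free children (weight `1/D` each) and at most `A` children which are not free (`A #child > #Λ_s(z)`,
disjoint), weight `1/A` each; so the sum is at most `(1 + 1) 2 ^ (n-s-1)`.
If `x` has fewer than `m` free positions then `∏ ω_t(x) ≥ D ^ (-m) A ^ (-n)`, so there are at most `2 ^ n A ^ n D ^ m` such `x`.
(Induction on `n` for general `Λ`, splitting by the first digit, is an alternative.)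
-/

set_option autoImplicit false

namespace FHD

open Finset

private abbrev KrF (D n A : ℕ) (Λ : Finset ℕ) (x t : ℕ) : Prop :=
  A * #(Λ.filter fun y => hd D n (t + 1) y = hd D n (t + 1) x) ≤
    #(Λ.filter fun y => hd D n t y = hd D n t x)

private theorem Kr_hd {D n s : ℕ} (hs : s < n) (x : ℕ) : hd D n (s + 1) x / D = hd D n s x := by
  unfold hd
  rw [Nat.div_div_eq_div_mul, ← pow_succ]
  congr 2
  omega

private theorem Kr_key {D n A : ℕ} (hD : 1 ≤ D) (hA : 1 ≤ A) (Λ : Finset ℕ) :
    ∀ k s : ℕ, s + k = n → ∀ z ∈ Λ, ∀ m : ℕ,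
      #(Λ.filter fun x => hd D n s x = hd D n s z ∧
        #((Ico s n).filter fun t => KrF D n A Λ x t) < m) ≤ (2 * A) ^ k * D ^ m := by
  intro k
  induction k with
  | zero =>
    intro s hs z _ m
    rw [add_zero] at hs
    subst hs
    rw [pow_zero, one_mul]
    have h1 : (Λ.filter fun x => hd D s s x = hd D s s z ∧
        #((Ico s s).filter fun t => KrF D s A Λ x t) < m) ⊆ {z} := by
      intro x hx
      rw [mem_filter] at hx
      have h2 := hx.2.1
      unfold hd at h2
      rw [Nat.sub_self, pow_zero, Nat.div_one, Nat.div_one] at h2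
      rw [mem_singleton]; exact h2
    refine (card_le_card h1).trans ?_
    rw [card_singleton]
    exact Nat.one_le_pow _ _ hD
  | succ k ih =>
    intro s hs z hz m
    have hsn : s < n := by omega
    set N := #(Λ.filter fun y => hd D n s y = hd D n s z) with hN
    set T := Λ.filter fun x => hd D n s x = hd D n s z ∧
        #((Ico s n).filter fun t => KrF D n A Λ x t) < m with hT
    set L := (Λ.filter fun y => hd D n s y = hd D n s z).image (hd D n (s + 1)) with hL
    set M : ℕ → ℕ := fun c => #(Λ.filter fun y => hd D n (s + 1) y = c) with hM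
    have hmaps : ∀ x ∈ T, hd D n (s + 1) x ∈ L := by
      intro x hx
      rw [hT, mem_filter] at hx
      exact mem_image_of_mem _ (mem_filter.2 ⟨hx.1, hx.2.1⟩)
    -- number of labels
    have hLD : #L ≤ D := by
      have : L ⊆ (range D).image (fun r => hd D n s z * D + r) := by
        intro c hc
        rw [hL, mem_image] at hc
        obtain ⟨y, hy, rfl⟩ := hc
        rw [mem_filter] at hy
        rw [mem_image]
        refine ⟨hd D n (s + 1) y % D, mem_range.2 (Nat.mod_lt _ hD), ?_⟩
        rw [← hy.2, ← Kr_hd hsn y]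
        exact Nat.div_add_mod' _ _
      refine (card_le_card this).trans (card_image_le.trans ?_)
      rw [card_range]
    -- sum of the class sizes
    have hsumM : ∑ c ∈ L, M c = N := by
      rw [hN, card_eq_sum_card_image (hd D n (s + 1))]
      refine sum_congr rfl fun c hc => ?_
      simp only [hM]
      congr 1
      ext y
      rw [mem_filter, mem_filter, mem_filter]
      rw [mem_image] at hc
      obtain ⟨w, hw, hwc⟩ := hc
      rw [mem_filter] at hw
      constructor
      · rintro ⟨h1, h2⟩
        refine ⟨⟨h1, ?_⟩, h2⟩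
        rw [← Kr_hd hsn y, h2, ← hwc, Kr_hd hsn w, hw.2]
      · rintro ⟨⟨h1, _⟩, h2⟩
        exact ⟨h1, h2⟩
    have hNpos : 0 < N := card_pos.2 ⟨z, mem_filter.2 ⟨hz, rfl⟩⟩
    -- number of labels which are not free
    have hLn : #(L.filter fun c => ¬ A * M c ≤ N) ≤ A := by
      by_contra hcon
      rw [not_le] at hcon
      have h1 : #(L.filter fun c => ¬ A * M c ≤ N) * N ≤
          ∑ c ∈ L.filter (fun c => ¬ A * M c ≤ N), A * M c := by
        rw [← smul_eq_mul, ← sum_const]
        refine sum_le_sum fun c hc => ?_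
        have := (mem_filter.1 hc).2
        omega
      have h2 : ∑ c ∈ L.filter (fun c => ¬ A * M c ≤ N), A * M c ≤ A * N := by
        rw [← mul_sum, ← hsumM]
        exact Nat.mul_le_mul_left _ (sum_le_sum_of_subset (filter_subset _ _))
      have h3 : A * N < #(L.filter fun c => ¬ A * M c ≤ N) * N :=
        Nat.mul_lt_mul_of_pos_right hcon hNpos
      omega
    -- free at level s
    have hfree : ∀ x, hd D n s x = hd D n s z → ∀ c, hd D n (s + 1) x = c →
        (KrF D n A Λ x s ↔ A * M c ≤ N) := by
      intro x hx c hc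
      subst hc
      have e1 : (Λ.filter fun y => hd D n s y = hd D n s x) =
          Λ.filter fun y => hd D n s y = hd D n s z := by rw [hx]
      unfold KrF
      rw [e1]
    have hIco : ∀ x, #((Ico s n).filter fun t => KrF D n A Λ x t) =
        (if KrF D n A Λ x s then 1 else 0) + #((Ico (s + 1) n).filter fun t => KrF D n A Λ x t) := by
      intro x
      rw [← insert_Ico_add_one_left_eq_Ico hsn, filter_insert]
      split_ifs with h
      · rw [card_insert_of_notMem, add_comm]
        intro hmem
        have := (mem_Ico.1 (mem_filter.1 hmem).1).1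
        omega
      · rw [zero_add]
    -- the fibres
    have hfib : ∀ c ∈ L, #(T.filter fun x => hd D n (s + 1) x = c) ≤ (2 * A) ^ k * D ^ m := by
      intro c hc
      rw [hL, mem_image] at hc
      obtain ⟨w, hw, hwc⟩ := hc
      rw [mem_filter] at hw
      refine (card_le_card ?_).trans (ih (s + 1) (by omega) w hw.1 m)
      intro x hx
      rw [mem_filter, hT, mem_filter] at hx
      rw [mem_filter]
      refine ⟨hx.1.1, by rw [hx.2, hwc], ?_⟩
      have := hx.1.2.2
      rw [hIco x] at this
      omega
    have hfib2 : ∀ c ∈ L, A * M c ≤ N → D * #(T.filter fun x => hd D n (s + 1) x = c) ≤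
        (2 * A) ^ k * D ^ m := by
      intro c hc hfr
      rw [hL, mem_image] at hc
      obtain ⟨w, hw, hwc⟩ := hc
      rw [mem_filter] at hw
      rcases Nat.eq_zero_or_pos m with hm | hm
      · have : T.filter (fun x => hd D n (s + 1) x = c) = ∅ := by
          rw [filter_eq_empty_iff]
          intro x hx
          rw [hT, mem_filter] at hx
          have := hx.2.2
          omega
        rw [this, card_empty, mul_zero]
        exact Nat.zero_le _
      · have h1 : #(T.filter fun x => hd D n (s + 1) x = c) ≤ (2 * A) ^ k * D ^ (m - 1) := by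
          refine (card_le_card ?_).trans (ih (s + 1) (by omega) w hw.1 (m - 1))
          intro x hx
          rw [mem_filter, hT, mem_filter] at hx
          rw [mem_filter]
          refine ⟨hx.1.1, by rw [hx.2, hwc], ?_⟩
          have h2 := hx.1.2.2
          have h3 := (hfree x hx.1.2.1 c hx.2).2 hfr
          rw [hIco x, if_pos h3] at h2
          omega
        calc D * #(T.filter fun x => hd D n (s + 1) x = c)
            ≤ D * ((2 * A) ^ k * D ^ (m - 1)) := Nat.mul_le_mul_left _ h1
          _ = (2 * A) ^ k * D ^ (m - 1 + 1) := by rw [pow_succ]; ring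
          _ = (2 * A) ^ k * D ^ m := by rw [Nat.sub_add_cancel hm]
    set V := (2 * A) ^ k * D ^ m with hV
    have hcard : #T = ∑ c ∈ L, #(T.filter fun x => hd D n (s + 1) x = c) :=
      card_eq_sum_card_fiberwise hmaps
    rw [hcard, ← sum_filter_add_sum_filter_not L (fun c => A * M c ≤ N)]
    have b1 : ∑ c ∈ L.filter (fun c => A * M c ≤ N), #(T.filter fun x => hd D n (s + 1) x = c) ≤
        V := by
      have h1 : D * ∑ c ∈ L.filter (fun c => A * M c ≤ N),
          #(T.filter fun x => hd D n (s + 1) x = c) ≤ D * V := by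
        rw [mul_sum]
        refine (sum_le_sum (g := fun _ => V) fun c hc =>
          hfib2 c (mem_filter.1 hc).1 (mem_filter.1 hc).2).trans ?_
        rw [sum_const, smul_eq_mul]
        exact Nat.mul_le_mul_right _ ((card_le_card (filter_subset _ _)).trans hLD)
      exact Nat.le_of_mul_le_mul_left h1 hD
    have b2 : ∑ c ∈ L.filter (fun c => ¬ A * M c ≤ N), #(T.filter fun x => hd D n (s + 1) x = c) ≤
        A * V := by
      refine (sum_le_sum (g := fun _ => V) fun c hc => hfib c (mem_filter.1 hc).1).trans ?_
      rw [sum_const, smul_eq_mul]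
      exact Nat.mul_le_mul_right _ hLn
    calc _ ≤ V + A * V := add_le_add b1 b2
      _ ≤ A * V + A * V := Nat.add_le_add_right (Nat.le_mul_of_pos_left _ hA) _
      _ = (2 * A) ^ (k + 1) * D ^ m := by rw [hV, pow_succ]; ring

theorem few_free {D n A m : ℕ} (hD : 1 ≤ D) (hA : 1 ≤ A) (Λ : Finset ℕ) (hΛ : ∀ x ∈ Λ, x < D ^ n) :
    #(Λ.filter fun x => #((range n).filter fun t =>
        A * #(Λ.filter fun y => hd D n (t + 1) y = hd D n (t + 1) x) ≤
          #(Λ.filter fun y => hd D n t y = hd D n t x)) < m) ≤ (2 * A) ^ n * D ^ m := by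
  rcases Λ.eq_empty_or_nonempty with rfl | ⟨z, hz⟩
  · simp
  · have h := Kr_key (n := n) hD hA Λ n 0 (by omega) z hz m
    refine (card_le_card ?_).trans h
    intro x hx
    rw [mem_filter] at hx ⊢
    refine ⟨hx.1, ?_, ?_⟩
    · unfold hd
      rw [Nat.sub_zero, Nat.div_eq_of_lt (hΛ x hx.1), Nat.div_eq_of_lt (hΛ z hz)]
    · rw [← range_eq_Ico]
      exact hx.2

end FHD
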