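import Pool.Agent.FHD.Cell
import Pool.Agent.FHD.Kraft

/-!
# FHD.Free: in many windows all digits are free; free digits have small atoms

PROOF.
`all_free`: fix `i`.  On a line `ℓ = line Ω i z` the coordinate `z i` is injective; apply `few_free` to the set `Λ` of the coordinates
`w i`, `w ∈ ℓ` (`line Ω i w = line Ω i z` for `w` on the line; `Free` at `w` is the freeness of `w i` for `Λ`): at most
`(2A)^n D^m ≤ #ℓ / (4 d)` points of the line have fewer than `m` free positions.  The lines partition `Ω`, so at most `#Ω / (4 d)`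
points `z` have fewer than `m` free positions in direction `i`; hence at least `3/4 #Ω` points have at least `m` free positions
in every direction.  For such a `z` the number of the `t ∈ wins d n` with `Free .. i (t i) z` for all `i` is a product of `d`
numbers `≥ m` (`Fintype.card_piFinset`).  Exchange the order of summation.
`free_atom`: let `C = cell t z`.  Partition `C` by the value of `w ↦ update w i 0`: for `w ∈ C` the part of `w` is
`(line Ω i w).filter (hd (t i) = hd (t i) (w i))` (these points are all in `C`).  In one part, the points with digit `a` which are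
free lie (if there is one, `w`) in `(line Ω i w).filter (hd (t i + 1) = hd (t i + 1) (w i))` (`hd_succ`), so `A` times their
number is at most the size of the part.  Sum over the parts.
`big_free`: there are at most `α` values `a` with `#C < α #(fib C Y a)` (disjoint fibres), so by `free_atom` with `A = α ^ 2`:
`α ^ 2 * left count ≤ α #C`.
-/

set_option autoImplicit false

namespace FHD

open Finset

variable {d D n : ℕ}

private theorem Free_upd {i : Fin d} {w z : Fin d → ℕ} :
    Function.update w i 0 = Function.update z i 0 ↔ ∀ j, j ≠ i → w j = z j := by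
  constructor
  · intro h j hj
    have h1 := congrFun h j
    rwa [Function.update_of_ne hj, Function.update_of_ne hj] at h1
  · intro h
    funext j
    by_cases hj : j = i
    · rw [hj, Function.update_self, Function.update_self]
    · rw [Function.update_of_ne hj, Function.update_of_ne hj]
      exact h j hj

private theorem Free_line_congr {Ω : Finset (Fin d → ℕ)} {i : Fin d} {w z : Fin d → ℕ}
    (hw : w ∈ line Ω i z) : line Ω i w = line Ω i z := by
  unfold line at hw ⊢
  rw [mem_filter] at hw
  refine filter_congr fun v _ => ?_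
  constructor
  · intro h j hj
    rw [h j hj, hw.2 j hj]
  · intro h j hj
    rw [h j hj, hw.2 j hj]

private theorem Free_fiber (Ω : Finset (Fin d → ℕ)) (i : Fin d) (z : Fin d → ℕ) :
    (Ω.filter fun w => Function.update w i 0 = Function.update z i 0) = line Ω i z := by
  unfold line
  exact filter_congr fun v _ => Free_upd

open Classical in
private theorem Free_bad {A m : ℕ} (hD : 1 ≤ D) (hA : 1 ≤ A) (Ω : Finset (Fin d → ℕ))
    (hΩ : ∀ z ∈ Ω, ∀ i, z i < D ^ n) (i : Fin d) (z : Fin d → ℕ) :
    #((line Ω i z).filter fun w => #((range n).filter fun s => Free D n A Ω i s w) < m) ≤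
      (2 * A) ^ n * D ^ m := by
  have hinj : Set.InjOn (fun w : Fin d → ℕ => w i) (line Ω i z : Set (Fin d → ℕ)) := by
    intro w hw v hv h
    have hw1 : w ∈ line Ω i z := hw
    have hv1 : v ∈ line Ω i z := hv
    unfold line at hw1 hv1
    rw [mem_filter] at hw1 hv1
    funext j
    by_cases hj : j = i
    · rw [hj]
      exact h
    · rw [hw1.2 j hj, hv1.2 j hj]
  obtain ⟨Λ, hΛ⟩ : ∃ Λ, Λ = (line Ω i z).image (fun w => w i) := ⟨_, rfl⟩
  have hc : ∀ (P : ℕ → Prop) [DecidablePred P],
      #(Λ.filter P) = #((line Ω i z).filter fun w => P (w i)) := by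
    intro P _
    rw [hΛ, filter_image, card_image_of_injOn]
    exact hinj.mono (coe_subset.2 (filter_subset _ _))
  have hF : ∀ w ∈ line Ω i z, ∀ s, (Free D n A Ω i s w ↔
      A * #(Λ.filter fun y => hd D n (s + 1) y = hd D n (s + 1) (w i)) ≤
        #(Λ.filter fun y => hd D n s y = hd D n s (w i))) := by
    intro w hw s
    unfold Free
    rw [Free_line_congr hw, hc, hc]
  have hΛ1 : ∀ x ∈ Λ, x < D ^ n := by
    intro x hx
    rw [hΛ, mem_image] at hx
    obtain ⟨w, hw, rfl⟩ := hx
    unfold line at hw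
    rw [mem_filter] at hw
    exact hΩ w hw.1 i
  refine le_trans ?_ (few_free (m := m) hD hA Λ hΛ1)
  rw [hc]
  refine card_le_card fun w hw => ?_
  rw [mem_filter] at hw ⊢
  refine ⟨hw.1, ?_⟩
  refine lt_of_le_of_lt (le_of_eq ?_) hw.2
  congr 1
  refine filter_congr fun s _ => ?_
  exact (hF w hw.1 s).symm

/-- counting by lines -/
private theorem Free_lines (Ω S : Finset (Fin d → ℕ)) (hS : S ⊆ Ω) (i : Fin d) (K : ℕ)
    (h : ∀ z ∈ Ω, K * #(S ∩ line Ω i z) ≤ #(line Ω i z)) : K * #S ≤ #Ω := by
  classical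
  have h1 : #Ω = ∑ b ∈ Ω.image (fun w => Function.update w i 0),
      #(Ω.filter fun w => Function.update w i 0 = b) :=
    card_eq_sum_card_fiberwise fun w hw => mem_image_of_mem _ hw
  have h2 : #S = ∑ b ∈ Ω.image (fun w => Function.update w i 0),
      #(S.filter fun w => Function.update w i 0 = b) :=
    card_eq_sum_card_fiberwise fun w hw => mem_image_of_mem _ (hS hw)
  rw [h1, h2, mul_sum]
  refine sum_le_sum fun b hb => ?_
  rw [mem_image] at hb
  obtain ⟨z, hz, rfl⟩ := hb
  have h3 : (S.filter fun w => Function.update w i 0 = Function.update z i 0) =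
      S ∩ line Ω i z := by
    rw [← Free_fiber]
    ext w
    rw [mem_filter, mem_inter, mem_filter]
    constructor
    · rintro ⟨h4, h5⟩
      exact ⟨h4, hS h4, h5⟩
    · rintro ⟨h4, _, h5⟩
      exact ⟨h4, h5⟩
  rw [h3, Free_fiber]
  exact h z hz

open Classical in
theorem all_free {A m : ℕ} (hd : 1 ≤ d) (hD : 1 ≤ D) (hA : 1 ≤ A) (Ω : Finset (Fin d → ℕ))
    (hΩ : ∀ z ∈ Ω, ∀ i, z i < D ^ n)
    (hl : ∀ z ∈ Ω, ∀ i, 4 * d * ((2 * A) ^ n * D ^ m) ≤ #(line Ω i z)) :
    3 * (#Ω * m ^ d) ≤
      4 * ∑ t ∈ wins d n, #(Ω.filter fun z => ∀ i, Free D n A Ω i (t i) z) := by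
  -- the bad points in direction `i`
  have hbad : ∀ i : Fin d, 4 * d *
      #(Ω.filter fun z => #((range n).filter fun s => Free D n A Ω i s z) < m) ≤ #Ω := by
    intro i
    refine Free_lines Ω _ (filter_subset _ _) i (4 * d) fun z hz => ?_
    refine le_trans ?_ (hl z hz i)
    refine Nat.mul_le_mul_left _ ?_
    refine le_trans (card_le_card ?_) (Free_bad (m := m) hD hA Ω hΩ i z)
    intro w hw
    rw [mem_inter, mem_filter] at hw
    rw [mem_filter]
    exact ⟨hw.2, hw.1.2⟩
  obtain ⟨Bd, hBd⟩ : ∃ Bd : Finset (Fin d → ℕ), Bd = univ.biUnion fun i : Fin d =>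
      Ω.filter fun z => #((range n).filter fun s => Free D n A Ω i s z) < m := ⟨_, rfl⟩
  have hBc : 4 * #Bd ≤ #Ω := by
    have h1 : #Bd ≤ ∑ i : Fin d,
        #(Ω.filter fun z => #((range n).filter fun s => Free D n A Ω i s z) < m) := by
      rw [hBd]
      exact card_biUnion_le
    have h2 : d * (4 * #Bd) ≤ d * #Ω := by
      calc d * (4 * #Bd) = 4 * d * #Bd := by ring
        _ ≤ 4 * d * ∑ i : Fin d,
            #(Ω.filter fun z => #((range n).filter fun s => Free D n A Ω i s z) < m) :=
            Nat.mul_le_mul_left _ h1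
        _ = ∑ i : Fin d, 4 * d *
            #(Ω.filter fun z => #((range n).filter fun s => Free D n A Ω i s z) < m) := by
            rw [mul_sum]
        _ ≤ ∑ _i : Fin d, #Ω := sum_le_sum fun i _ => hbad i
        _ = d * #Ω := by
            rw [sum_const, card_univ, Fintype.card_fin, smul_eq_mul]
    exact Nat.le_of_mul_le_mul_left h2 hd
  -- the exchange of the summations
  have hex : ∑ t ∈ wins d n, #(Ω.filter fun z => ∀ i, Free D n A Ω i (t i) z) =
      ∑ z ∈ Ω, #((wins d n).filter fun t => ∀ i, Free D n A Ω i (t i) z) := by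
    simp only [card_filter]
    exact sum_comm
  have hpi : ∀ z, #((wins d n).filter fun t => ∀ i, Free D n A Ω i (t i) z) =
      ∏ i : Fin d, #((range n).filter fun s => Free D n A Ω i s z) := by
    intro z
    have h1 : (wins d n).filter (fun t => ∀ i, Free D n A Ω i (t i) z) =
        Fintype.piFinset fun i => (range n).filter fun s => Free D n A Ω i s z := by
      ext t
      unfold wins
      rw [mem_filter, Fintype.mem_piFinset, Fintype.mem_piFinset]
      constructor
      · rintro ⟨h2, h3⟩ i
        rw [mem_filter]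
        exact ⟨h2 i, h3 i⟩
      · intro h2
        exact ⟨fun i => (mem_filter.1 (h2 i)).1, fun i => (mem_filter.1 (h2 i)).2⟩
    rw [h1, Fintype.card_piFinset]
  have hgood : ∀ z ∈ Ω \ Bd, m ^ d ≤ #((wins d n).filter fun t => ∀ i, Free D n A Ω i (t i) z) := by
    intro z hz
    rw [mem_sdiff, hBd, mem_biUnion] at hz
    rw [hpi]
    have h1 : ∀ i ∈ (univ : Finset (Fin d)), m ≤ #((range n).filter fun s => Free D n A Ω i s z) := by
      intro i _
      by_contra h2
      push Not at h2
      exact hz.2 ⟨i, mem_univ i, mem_filter.2 ⟨hz.1, h2⟩⟩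
    calc m ^ d = ∏ _i : Fin d, m := by
          rw [prod_const, card_univ, Fintype.card_fin]
      _ ≤ _ := prod_le_prod' h1
  have hBs : Bd ⊆ Ω := by
    rw [hBd]
    exact biUnion_subset.2 fun i _ => filter_subset _ _
  have hsd : #(Ω \ Bd) + #Bd = #Ω := card_sdiff_add_card_eq_card hBs
  have hsum : #(Ω \ Bd) * m ^ d ≤
      ∑ t ∈ wins d n, #(Ω.filter fun z => ∀ i, Free D n A Ω i (t i) z) := by
    rw [hex]
    calc #(Ω \ Bd) * m ^ d = ∑ _z ∈ Ω \ Bd, m ^ d := by
          rw [sum_const, smul_eq_mul]
      _ ≤ ∑ z ∈ Ω \ Bd, #((wins d n).filter fun t => ∀ i, Free D n A Ω i (t i) z) :=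
          sum_le_sum hgood
      _ ≤ ∑ z ∈ Ω, #((wins d n).filter fun t => ∀ i, Free D n A Ω i (t i) z) :=
          sum_le_sum_of_subset sdiff_subset
  have h34 : 3 * #Ω ≤ 4 * #(Ω \ Bd) := by omega
  calc 3 * (#Ω * m ^ d) = 3 * #Ω * m ^ d := by ring
    _ ≤ 4 * #(Ω \ Bd) * m ^ d := Nat.mul_le_mul_right _ h34
    _ = 4 * (#(Ω \ Bd) * m ^ d) := by ring
    _ ≤ _ := Nat.mul_le_mul_left _ hsum

open Classical in
theorem free_atom {A : ℕ} (Ω : Finset (Fin d → ℕ)) (t z : Fin d → ℕ) (i : Fin d) (ht : t i < n) (a : ℕ) :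
    A * #((cell D n Ω t z).filter fun w => Yd D n t i w = a ∧ Free D n A Ω i (t i) w) ≤
      #(cell D n Ω t z) := by
  obtain ⟨C, hC⟩ : ∃ C, C = cell D n Ω t z := ⟨_, rfl⟩
  rw [← hC]
  have h1 : #C = ∑ b ∈ C.image (fun w => Function.update w i 0),
      #(C.filter fun w => Function.update w i 0 = b) :=
    card_eq_sum_card_fiberwise fun w hw => mem_image_of_mem _ hw
  have h2 : #(C.filter fun w => Yd D n t i w = a ∧ Free D n A Ω i (t i) w) =
      ∑ b ∈ C.image (fun w => Function.update w i 0),
        #((C.filter fun w => Yd D n t i w = a ∧ Free D n A Ω i (t i) w).filter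
          fun w => Function.update w i 0 = b) :=
    card_eq_sum_card_fiberwise fun w hw => mem_image_of_mem _ (mem_of_mem_filter w hw)
  rw [h1, h2, mul_sum]
  refine sum_le_sum fun b _ => ?_
  rcases ((C.filter fun w => Yd D n t i w = a ∧ Free D n A Ω i (t i) w).filter
      fun w => Function.update w i 0 = b).eq_empty_or_nonempty with he | ⟨w, hw⟩
  · rw [he, card_empty, mul_zero]
    exact Nat.zero_le _
  · rw [mem_filter, mem_filter] at hw
    obtain ⟨⟨hwC, hwa, hwF⟩, hwb⟩ := hw
    have hwC' := hwC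
    rw [hC] at hwC'
    unfold cell at hwC'
    rw [mem_filter] at hwC'
    have h3 : (C.filter fun w => Yd D n t i w = a ∧ Free D n A Ω i (t i) w).filter
        (fun w => Function.update w i 0 = b) ⊆
        (line Ω i w).filter fun v => hd D n (t i + 1) (v i) = hd D n (t i + 1) (w i) := by
      intro v hv
      rw [mem_filter, mem_filter] at hv
      obtain ⟨⟨hvC, hva, _⟩, hvb⟩ := hv
      rw [hC] at hvC
      unfold cell at hvC
      rw [mem_filter] at hvC
      rw [mem_filter]
      constructor
      · unfold line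
        rw [mem_filter]
        exact ⟨hvC.1, Free_upd.1 (hvb.trans hwb.symm)⟩
      · rw [hd_succ ht, hd_succ ht, hvC.2 i, hwC'.2 i]
        have h4 : dig D n (t i) (v i) = dig D n (t i) (w i) := by
          have h5 : dig D n (t i) (v i) = a := hva
          have h6 : dig D n (t i) (w i) = a := hwa
          rw [h5, h6]
        rw [h4]
    have h4 : (line Ω i w).filter (fun v => hd D n (t i) (v i) = hd D n (t i) (w i)) ⊆
        C.filter fun v => Function.update v i 0 = b := by
      intro v hv
      rw [mem_filter] at hv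
      obtain ⟨hv1, hv2⟩ := hv
      unfold line at hv1
      rw [mem_filter] at hv1
      rw [mem_filter]
      constructor
      · rw [hC]
        unfold cell
        rw [mem_filter]
        refine ⟨hv1.1, fun j => ?_⟩
        by_cases hj : j = i
        · rw [hj, hv2, hwC'.2 i]
        · rw [hv1.2 j hj, hwC'.2 j]
      · rw [← hwb]
        exact Free_upd.2 hv1.2
    refine le_trans (Nat.mul_le_mul_left _ (card_le_card h3)) ?_
    exact le_trans hwF (card_le_card h4)

open Classical in
theorem big_free {α : ℕ} (Ω : Finset (Fin d → ℕ)) (t z : Fin d → ℕ) (i : Fin d) (ht : t i < n) :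
    α * #((cell D n Ω t z).filter fun w =>
        #(cell D n Ω t z) < α * #(fib (cell D n Ω t z) (Yd D n t i) (Yd D n t i w)) ∧
          Free D n (α ^ 2) Ω i (t i) w) ≤ #(cell D n Ω t z) := by
  rcases Nat.eq_zero_or_pos α with h0 | hα
  · rw [h0, Nat.zero_mul]
    exact Nat.zero_le _
  obtain ⟨C, hC⟩ : ∃ C, C = cell D n Ω t z := ⟨_, rfl⟩
  rw [← hC]
  obtain ⟨G, hG⟩ : ∃ G : Finset ℕ, G = (C.image (Yd D n t i)).filter
      fun a => #C < α * #(fib C (Yd D n t i) a) := ⟨_, rfl⟩
  have h1 : ∑ a ∈ G, #(fib C (Yd D n t i) a) ≤ #C := by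
    have h2 : #C = ∑ a ∈ C.image (Yd D n t i), #(C.filter fun w => Yd D n t i w = a) :=
      card_eq_sum_card_fiberwise fun w hw => mem_image_of_mem _ hw
    rw [h2]
    refine sum_le_sum_of_subset ?_
    rw [hG]
    exact filter_subset _ _
  have h2 : #G * #C ≤ α * #C := by
    calc #G * #C = ∑ _a ∈ G, #C := by
          rw [sum_const, smul_eq_mul]
      _ ≤ ∑ a ∈ G, α * #(fib C (Yd D n t i) a) := by
          refine sum_le_sum fun a ha => ?_
          rw [hG, mem_filter] at ha
          exact ha.2.le
      _ = α * ∑ a ∈ G, #(fib C (Yd D n t i) a) := by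
          rw [mul_sum]
      _ ≤ α * #C := Nat.mul_le_mul_left _ h1
  have h3 : #(C.filter fun w => #C < α * #(fib C (Yd D n t i) (Yd D n t i w)) ∧
      Free D n (α ^ 2) Ω i (t i) w) =
      ∑ a ∈ G, #((C.filter fun w => #C < α * #(fib C (Yd D n t i) (Yd D n t i w)) ∧
        Free D n (α ^ 2) Ω i (t i) w).filter fun w => Yd D n t i w = a) := by
    refine card_eq_sum_card_fiberwise fun w hw => ?_
    have hw' : w ∈ C.filter fun w => #C < α * #(fib C (Yd D n t i) (Yd D n t i w)) ∧
      Free D n (α ^ 2) Ω i (t i) w := hw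
    rw [mem_filter] at hw'
    have h4 : Yd D n t i w ∈ G := by
      rw [hG, mem_filter]
      exact ⟨mem_image_of_mem _ hw'.1, hw'.2.1⟩
    exact h4
  have h4 : ∀ a ∈ G, α ^ 2 * #((C.filter fun w =>
      #C < α * #(fib C (Yd D n t i) (Yd D n t i w)) ∧
        Free D n (α ^ 2) Ω i (t i) w).filter fun w => Yd D n t i w = a) ≤ #C := by
    intro a _
    have h5 := free_atom (D := D) (A := α ^ 2) Ω t z i ht a
    rw [← hC] at h5
    refine le_trans (Nat.mul_le_mul_left _ (card_le_card ?_)) h5
    intro w hw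
    rw [mem_filter, mem_filter] at hw
    rw [mem_filter]
    exact ⟨hw.1.1, hw.2, hw.1.2.2⟩
  have h5 : α * (α * #(C.filter fun w => #C < α * #(fib C (Yd D n t i) (Yd D n t i w)) ∧
      Free D n (α ^ 2) Ω i (t i) w)) ≤ α * #C := by
    calc α * (α * #(C.filter fun w => #C < α * #(fib C (Yd D n t i) (Yd D n t i w)) ∧
          Free D n (α ^ 2) Ω i (t i) w)) =
          α ^ 2 * #(C.filter fun w => #C < α * #(fib C (Yd D n t i) (Yd D n t i w)) ∧
          Free D n (α ^ 2) Ω i (t i) w) := by ring
      _ = ∑ a ∈ G, α ^ 2 * #((C.filter fun w =>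
            #C < α * #(fib C (Yd D n t i) (Yd D n t i w)) ∧
            Free D n (α ^ 2) Ω i (t i) w).filter fun w => Yd D n t i w = a) := by
          rw [h3, mul_sum]
      _ ≤ ∑ _a ∈ G, #C := sum_le_sum h4
      _ = #G * #C := by rw [sum_const, smul_eq_mul]
      _ ≤ α * #C := h2
  exact Nat.le_of_mul_le_mul_left h5 hα

end FHD
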