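import Pool.Agent.FHD.Trans
import Pool.Agent.Hhelper47.PermExt.Main

/-!
# FHD.Lim: the exponent of `M_d(k)`

PROOF.  For `k ≥ 2`: `2 ^ (√k / 36) ≤ (M d k).toReal` by `le_M` (and `M d k < ⊤` by `M_le`), and for every `ε > 0`
`(M d k).toReal ≤ 2 ^ (C k ^ (1/2 + ε))`.  Taking logarithms, `√k / 36 * log 2 ≤ log M ≤ C k ^ (1/2 + ε) log 2`, and again
`(1/2) log k + log (log 2 / 36) ≤ log (log M) ≤ (1/2 + ε) log k + log (C log 2)` for `k` so large that the left quantity under the
logarithm is positive.  Divide by `log k → ∞`: for every `ε > 0` the quotient is eventually in `(1/2 - ε, 1/2 + 2 ε)`.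
-/

set_option autoImplicit false

namespace FHD

open Filter Topology Pool.Agent.Hhelper47.PermExt

private theorem Lim_lower (d : ℕ) (hd : 2 ≤ d) {k : ℕ} (hk : 2 ≤ k) :
    (1 / 2) * Real.log k + Real.log (Real.log 2 / 36) ≤
      Real.log (Real.log (M d k).toReal) := by
  obtain ⟨C, -, hC⟩ := M_le d hd (ε := 1) one_pos
  have hfin : M d k ≠ ⊤ := ne_top_of_le_ne_top ENNReal.ofReal_ne_top (hC k (by omega))
  have h1 : (2 : ℝ) ^ (√(k : ℝ) / 36) ≤ (M d k).toReal := by
    have h := ENNReal.toReal_mono hfin (le_M d k hd hk)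
    rwa [ENNReal.toReal_ofReal (by positivity)] at h
  have hk0 : (0 : ℝ) < k := by
    have : 0 < k := by omega
    exact_mod_cast this
  have hl2 : 0 < Real.log 2 := Real.log_pos (by norm_num)
  have h2 : √(k : ℝ) / 36 * Real.log 2 ≤ Real.log (M d k).toReal := by
    rw [← Real.log_rpow (by norm_num)]
    exact Real.log_le_log (by positivity) h1
  have hs : 0 < √(k : ℝ) := Real.sqrt_pos.mpr hk0
  have h3 : Real.log (√(k : ℝ) / 36 * Real.log 2) =
      (1 / 2) * Real.log k + Real.log (Real.log 2 / 36) := by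
    have e : √(k : ℝ) / 36 * Real.log 2 = √(k : ℝ) * (Real.log 2 / 36) := by ring
    rw [e, Real.log_mul hs.ne' (by positivity), Real.log_sqrt hk0.le]
    ring
  rw [← h3]
  exact Real.log_le_log (by positivity) h2

private theorem Lim_upper (d : ℕ) {C ε : ℝ} (hC : 0 < C) {k : ℕ}
    (hk : 2 ≤ k) (hd : 2 ≤ d)
    (h : M d k ≤ ENNReal.ofReal ((2 : ℝ) ^ (C * (k : ℝ) ^ (1 / 2 + ε)))) :
    Real.log (Real.log (M d k).toReal) ≤ (1 / 2 + ε) * Real.log k + Real.log (C * Real.log 2) := by
  have hfin : M d k ≠ ⊤ := ne_top_of_le_ne_top ENNReal.ofReal_ne_top h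
  have hk0 : (0 : ℝ) < k := by
    have : 0 < k := by omega
    exact_mod_cast this
  have hl2 : 0 < Real.log 2 := Real.log_pos (by norm_num)
  have h0 : (2 : ℝ) ^ (√(k : ℝ) / 36) ≤ (M d k).toReal := by
    have h := ENNReal.toReal_mono hfin (le_M d k hd hk)
    rwa [ENNReal.toReal_ofReal (by positivity)] at h
  have hs : 0 < √(k : ℝ) := Real.sqrt_pos.mpr hk0
  have hpos : 0 < (M d k).toReal := lt_of_lt_of_le (by positivity) h0
  have hlog : 0 < Real.log (M d k).toReal := by
    have h2 : √(k : ℝ) / 36 * Real.log 2 ≤ Real.log (M d k).toReal := by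
      rw [← Real.log_rpow (by norm_num)]
      exact Real.log_le_log (by positivity) h0
    exact lt_of_lt_of_le (by positivity) h2
  have h1 : (M d k).toReal ≤ (2 : ℝ) ^ (C * (k : ℝ) ^ (1 / 2 + ε)) := by
    have h' := ENNReal.toReal_mono ENNReal.ofReal_ne_top h
    rwa [ENNReal.toReal_ofReal (by positivity)] at h'
  have h2 : Real.log (M d k).toReal ≤ C * (k : ℝ) ^ (1 / 2 + ε) * Real.log 2 := by
    rw [← Real.log_rpow (by norm_num)]
    exact Real.log_le_log hpos h1
  have h3 : Real.log (C * (k : ℝ) ^ (1 / 2 + ε) * Real.log 2) =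
      (1 / 2 + ε) * Real.log k + Real.log (C * Real.log 2) := by
    have e : C * (k : ℝ) ^ (1 / 2 + ε) * Real.log 2 = (k : ℝ) ^ (1 / 2 + ε) * (C * Real.log 2) := by
      ring
    rw [e, Real.log_mul (by positivity) (by positivity), Real.log_rpow hk0]
  rw [← h3]
  exact Real.log_le_log hlog h2

theorem lim (d : ℕ) (hd : 2 ≤ d) :
    Tendsto (fun k : ℕ => Real.log (Real.log (M d k).toReal) / Real.log k) atTop (𝓝 (1 / 2)) := by
  have hlk : Tendsto (fun k : ℕ => Real.log (k : ℝ)) atTop atTop :=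
    Real.tendsto_log_atTop.comp tendsto_natCast_atTop_atTop
  rw [tendsto_order]
  constructor
  · intro a ha
    have hev : ∀ᶠ k : ℕ in atTop, (|Real.log (Real.log 2 / 36)| + 1) / (1 / 2 - a) ≤ Real.log k :=
      hlk.eventually_ge_atTop _
    filter_upwards [hev, eventually_ge_atTop 2] with k hk hk2
    have hlp : 0 < Real.log (k : ℝ) := by
      refine lt_of_lt_of_le ?_ hk
      have : 0 < 1 / 2 - a := by linarith
      positivity
    rw [lt_div_iff₀ hlp]
    have h1 := Lim_lower d hd hk2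
    rw [div_le_iff₀ (by linarith)] at hk
    have h2 := neg_abs_le (Real.log (Real.log 2 / 36))
    nlinarith
  · intro a ha
    obtain ⟨C, hC, hM⟩ := M_le d hd (ε := (a - 1 / 2) / 2) (by linarith)
    have hev : ∀ᶠ k : ℕ in atTop,
        (|Real.log (C * Real.log 2)| + 1) / ((a - 1 / 2) / 2) ≤ Real.log k :=
      hlk.eventually_ge_atTop _
    filter_upwards [hev, eventually_ge_atTop 2] with k hk hk2
    have hlp : 0 < Real.log (k : ℝ) := by
      refine lt_of_lt_of_le ?_ hk
      have : 0 < (a - 1 / 2) / 2 := by linarith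
      positivity
    rw [div_lt_iff₀ hlp]
    have h1 := Lim_upper d hC hk2 hd (hM k (by omega))
    rw [div_le_iff₀ (by linarith)] at hk
    have h2 := le_abs_self (Real.log (C * Real.log 2))
    nlinarith

end FHD
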