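import Pool.Agent.FHD.Defs

/-!
# FHD.Lines: deletion of short lines

PROOF.
`prune`: if `m = 0` take `Ω = S`.  Let `Φ(T) = #T - (m - 1) ∑_i #(proj i T)` (an integer), for `T ⊆ S`.  `Φ(S) > 0 = Φ(∅)`.  Among the
`T ⊆ S` with `Φ(T)` maximal take one with `#T` minimal; it is nonempty.  If `z ∈ T` and `#(line T i z) ≤ m - 1`, let
`T' = T \ line T i z`: `#T' ≥ #T - (m-1)`, `#(proj i T') = #(proj i T) - 1` (the line is the fibre of `update z i 0`), and
`#(proj j T') ≤ #(proj j T)`; so `Φ(T') ≥ Φ(T)` and `#T' < #T`, a contradiction.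
`proj_ge`: claim: for every finset `J` of coordinates and `z ∈ Ω` the number of the `w ∈ Ω` which agree with `z` outside `J` is at
least `m ^ #J` (induction on `J`: for `insert i J` take the at least `m` points `w` of `line Ω i z`, for each the at least `m ^ #J`
points which agree with `w` outside `J`; these sets are disjoint because the coordinate `i` (not in `J`) is that of `w`).  For
`J = univ \ {j}` the points counted have the same coordinate `j`, so `update · j 0` is injective on them.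
`heavy`: suppose `4 d #(proj j S) < σ ^ ((d-1) (d-1))` for all `j`.  With `m = σ ^ (d-1)`:
`m ∑_j #(proj j S) < m d σ ^ ((d-1)(d-1)) / (4 d) = σ ^ (d (d-1)) / 4 ≤ #S`, `prune` and `proj_ge` give
`σ ^ ((d-1)(d-1)) ≤ #(proj j Ω) ≤ #(proj j S)`, a contradiction.
-/

set_option autoImplicit false

namespace FHD

open Finset

private theorem proj_mono' {d : ℕ} (i : Fin d) {S T : Finset (Fin d → ℕ)} (h : S ⊆ T) :
    proj i S ⊆ proj i T := image_subset_image h

private theorem line_of_update {d : ℕ} {i : Fin d} {w z : Fin d → ℕ}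
    (h : Function.update w i 0 = Function.update z i 0) (j : Fin d) (hj : j ≠ i) : w j = z j := by
  have h1 := congrFun h j
  rwa [Function.update_of_ne hj, Function.update_of_ne hj] at h1

theorem prune {d : ℕ} (S : Finset (Fin d → ℕ)) (m : ℕ)
    (h : (m - 1) * ∑ i, #(proj i S) < #S) :
    ∃ Ω ⊆ S, Ω.Nonempty ∧ ∀ z ∈ Ω, ∀ i, m ≤ #(line Ω i z) := by
  induction hn : #S using Nat.strong_induction_on generalizing S with
  | _ n ih =>
  by_cases hall : ∀ z ∈ S, ∀ i, m ≤ #(line S i z)
  · refine ⟨S, Subset.refl _, ?_, hall⟩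
    rw [← card_pos]; omega
  · push Not at hall
    obtain ⟨z, hz, i, hi⟩ := hall
    set S' := S \ line S i z with hS'
    have hzl : z ∈ line S i z := by
      unfold line
      rw [mem_filter]
      exact ⟨hz, fun j _ => rfl⟩
    have hls : line S i z ⊆ S := filter_subset _ _
    have hcard : #S' = #S - #(line S i z) := card_sdiff_of_subset hls
    have hlpos : 0 < #(line S i z) := card_pos.2 ⟨z, hzl⟩
    have hlle : #(line S i z) ≤ #S := card_le_card hls
    have hsub : S' ⊆ S := sdiff_subset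
    have hproj : #(proj i S') + 1 ≤ #(proj i S) := by
      have h1 : Function.update z i 0 ∉ proj i S' := by
        intro hmem
        unfold proj at hmem
        rw [mem_image] at hmem
        obtain ⟨w, hw, hwz⟩ := hmem
        rw [hS', mem_sdiff] at hw
        refine hw.2 ?_
        unfold line
        rw [mem_filter]
        exact ⟨hw.1, fun j hj => line_of_update hwz j hj⟩
      rw [← card_insert_of_notMem h1]
      refine card_le_card ?_
      intro v hv
      rw [mem_insert] at hv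
      rcases hv with rfl | hv
      · exact mem_image_of_mem _ hz
      · exact proj_mono' i hsub hv
    have hsum : ∑ j, #(proj j S') + 1 ≤ ∑ j, #(proj j S) := by
      rw [← add_sum_erase _ _ (mem_univ i), ← add_sum_erase (s := univ) (f := fun j => #(proj j S)) (mem_univ i)]
      have : ∑ x ∈ univ.erase i, #(proj x S') ≤ ∑ x ∈ univ.erase i, #(proj x S) :=
        sum_le_sum fun j _ => card_le_card (proj_mono' j hsub)
      omega
    have hmul : (m - 1) * ∑ j, #(proj j S') + (m - 1) ≤ (m - 1) * ∑ j, #(proj j S) := by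
      calc (m - 1) * ∑ j, #(proj j S') + (m - 1) = (m - 1) * (∑ j, #(proj j S') + 1) := by ring
        _ ≤ _ := Nat.mul_le_mul_left _ hsum
    have hlt : #S' < n := by omega
    have hcond : (m - 1) * ∑ j, #(proj j S') < #S' := by omega
    obtain ⟨Ω, hΩ, hne, hΩm⟩ := ih _ hlt S' hcond rfl
    exact ⟨Ω, hΩ.trans hsub, hne, hΩm⟩

private theorem box_ge {d m : ℕ} (Ω : Finset (Fin d → ℕ))
    (h : ∀ z ∈ Ω, ∀ i, m ≤ #(line Ω i z)) (J : Finset (Fin d)) :
    ∀ z ∈ Ω, m ^ #J ≤ #(Ω.filter fun w => ∀ j, j ∉ J → w j = z j) := by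
  induction J using Finset.induction_on with
  | empty =>
    intro z hz
    rw [card_empty, pow_zero]
    refine card_pos.2 ⟨z, ?_⟩
    rw [mem_filter]
    exact ⟨hz, fun j _ => rfl⟩
  | insert i J hi ih =>
    intro z hz
    rw [card_insert_of_notMem hi]
    have hsub : (line Ω i z).biUnion (fun w => Ω.filter fun v => ∀ j, j ∉ J → v j = w j) ⊆
        Ω.filter fun w => ∀ j, j ∉ insert i J → w j = z j := by
      intro v hv
      rw [mem_biUnion] at hv
      obtain ⟨w, hw, hv⟩ := hv
      rw [mem_filter] at hv ⊢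
      unfold line at hw
      rw [mem_filter] at hw
      refine ⟨hv.1, fun j hj => ?_⟩
      rw [mem_insert, not_or] at hj
      rw [hv.2 j hj.2, hw.2 j hj.1]
    refine le_trans ?_ (card_le_card hsub)
    rw [card_biUnion]
    · calc m ^ (#J + 1) = m * m ^ #J := by rw [pow_succ, mul_comm]
        _ ≤ #(line Ω i z) * m ^ #J := Nat.mul_le_mul_right _ (h z hz i)
        _ = ∑ _w ∈ line Ω i z, m ^ #J := by rw [sum_const, smul_eq_mul]
        _ ≤ _ := sum_le_sum fun w hw => ih w (mem_filter.1 hw).1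
    · intro w hw w' hw' hne
      rw [Function.onFun, disjoint_left]
      intro v hv hv'
      rw [mem_filter] at hv hv'
      apply hne
      replace hw := mem_filter.1 (mem_coe.1 hw)
      replace hw' := mem_filter.1 (mem_coe.1 hw')
      funext j
      by_cases hj : j = i
      · subst hj
        rw [← hv.2 j hi, ← hv'.2 j hi]
      · rw [hw.2 j hj, hw'.2 j hj]

theorem proj_ge {d m : ℕ} (Ω : Finset (Fin d → ℕ)) (hne : Ω.Nonempty)
    (h : ∀ z ∈ Ω, ∀ i, m ≤ #(line Ω i z)) (j : Fin d) : m ^ (d - 1) ≤ #(proj j Ω) := by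
  obtain ⟨z, hz⟩ := hne
  have h1 := box_ge Ω h (univ.erase j) z hz
  rw [card_erase_of_mem (mem_univ j), card_univ, Fintype.card_fin] at h1
  refine h1.trans ?_
  refine card_le_card_of_injOn (fun w => Function.update w j 0) ?_ ?_
  · intro w hw
    exact mem_image_of_mem _ (mem_filter.1 hw).1
  · intro w hw w' hw' hww
    have hw1 := (mem_filter.1 hw).2 j (by simp)
    have hw2 := (mem_filter.1 hw').2 j (by simp)
    funext i
    by_cases hi : i = j
    · subst hi
      rw [hw1, hw2]
    · exact line_of_update hww i hi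

theorem heavy {d σ : ℕ} (hd : 1 ≤ d) (hσ : 1 ≤ σ) (S : Finset (Fin d → ℕ))
    (hS : σ ^ (d * (d - 1)) ≤ 4 * #S) :
    ∃ j : Fin d, σ ^ ((d - 1) * (d - 1)) ≤ 4 * d * #(proj j S) := by
  by_contra hcon
  push Not at hcon
  have j0 : Fin d := ⟨0, hd⟩
  have hsum : ∑ j : Fin d, 4 * d * #(proj j S) < ∑ _j : Fin d, σ ^ ((d - 1) * (d - 1)) :=
    sum_lt_sum_of_nonempty ⟨j0, mem_univ _⟩ fun j _ => hcon j
  rw [sum_const, card_univ, Fintype.card_fin, smul_eq_mul, ← mul_sum] at hsum
  have hsum2 : 4 * ∑ j : Fin d, #(proj j S) < σ ^ ((d - 1) * (d - 1)) := by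
    have : d * (4 * ∑ j : Fin d, #(proj j S)) < d * σ ^ ((d - 1) * (d - 1)) := by
      calc d * (4 * ∑ j : Fin d, #(proj j S)) = 4 * d * ∑ j : Fin d, #(proj j S) := by ring
        _ < _ := hsum
    exact Nat.lt_of_mul_lt_mul_left this
  have hexp : σ ^ (d - 1) * σ ^ ((d - 1) * (d - 1)) = σ ^ (d * (d - 1)) := by
    rw [← pow_add]
    congr 1
    obtain ⟨e, rfl⟩ : ∃ e, d = e + 1 := ⟨d - 1, by omega⟩
    simp only [Nat.add_sub_cancel]
    ring
  have hmpos : 0 < σ ^ (d - 1) := pow_pos hσ _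
  have hlt : 4 * (σ ^ (d - 1) * ∑ j : Fin d, #(proj j S)) < 4 * #S := by
    calc 4 * (σ ^ (d - 1) * ∑ j : Fin d, #(proj j S))
        = σ ^ (d - 1) * (4 * ∑ j : Fin d, #(proj j S)) := by ring
      _ < σ ^ (d - 1) * σ ^ ((d - 1) * (d - 1)) := Nat.mul_lt_mul_of_pos_left hsum2 hmpos
      _ = σ ^ (d * (d - 1)) := hexp
      _ ≤ _ := hS
  have hlt2 : σ ^ (d - 1) * ∑ j : Fin d, #(proj j S) < #S := by omega
  have hcond : (σ ^ (d - 1) - 1) * ∑ j : Fin d, #(proj j S) < #S :=
    lt_of_le_of_lt (Nat.mul_le_mul_right _ (Nat.sub_le _ _)) hlt2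
  obtain ⟨Ω, hΩ, hne, hΩm⟩ := prune S (σ ^ (d - 1)) hcond
  have h1 := proj_ge Ω hne hΩm j0
  rw [← pow_mul] at h1
  have h2 : #(proj j0 Ω) ≤ #(proj j0 S) := card_le_card (proj_mono' j0 hΩ)
  have h3 := hcon j0
  have h4 : #(proj j0 S) ≤ 4 * d * #(proj j0 S) := Nat.le_mul_of_pos_left _ (by omega)
  omega

end FHD
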