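import Pool.Agent.FHD.Pat

/-!
# FHD.MeasD: from the uniform cube to `d` probability measures without large atoms

PROOF (compare `Pool/Agent/FHA/Meas2.lean`, whose private lemmas `Meas2_quant`, `Meas2_fib` can be copied).  Let `N = N0 M` with `M` large.  For a
probability `ρ` on `range D` with cumulative sums `c(x) = ∑_{x' < x} ρ x'` there is a monotone `F : ℕ → ℕ` such that for `j < N`: `F j < D` and
`N c(F j) ≤ j < N c(F j + 1)`; so every fibre (in `range N`) has at most `N ρ x + 1` elements, and `0 < ρ (F j)`.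
Let `F i` be this map for `ρ i`.  For `i < l` the number of the `(j, j') ∈ [N]^2` with `(F i j, F l j') ∈ Bp i l` is at most
`∑_{Bp} (N ρ i + 1)(N ρ l + 1) ≤ N^2 ∑_{Bp} ρ i ρ l + 3 N D^2 ≤ N^2 η / (2 d^2)` if `12 d^2 D^2 ≤ η N`, and the number of the `j ∈ [N]^d` with
`(F i (j i))_i ∈ Bs` is at most `∑_{Bs} ∏ (N ρ i + 1) ≤ N^d ∑_{Bs} ∏ ρ i + 2^d N^(d-1) D^d ≤ N^d η' / 2` if `4 * 2^d D^d ≤ η' N` (expand the
product, `Finset.prod_add` or induction: `∏ (N r_i + 1) ≤ N^d ∏ r_i + 2^d N^(d-1)` for `0 ≤ r_i ≤ 1`, `N ≥ 1`, `d ≥ 1`).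
OFFSETS: for `x ∈ box d M` let `G_x i A = F i (M A + x i)`, `A < N0`.  `G_x i` is strictly increasing on `range N0`: if `A < A'` then
`j = M A + x i`, `j' = M A' + x i` satisfy `j + M ≤ j' < N`; `F i j ≤ F i j'`, and if they are both equal to `y` then
`N c(y) ≤ j`, `j' < N c(y+1)`, so `M < N ρ i y = N0 M ρ i y ≤ M / 2`, a contradiction.
Let `Z_x i l` (`i < l`) be the set of the `(A, B) ∈ [N0]^2` with `(G_x i A, G_x l B) ∈ Bp i l`, and `S_x` the set of the `A ∈ box d N0` with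
`(G_x i (A i))_i ∈ Bs`.  Every `j < N` is `M A + x` for exactly one `(A, x)` with `A < N0`, `x < M`; hence
`∑_{x ∈ box d M} #(Z_x i l) = M^(d-2) #{(j, j') ∈ [N]^2 : ..} ≤ M^(d-2) N^2 η / (2 d^2)` (the summand depends on `x i`, `x l` only) and
`∑_x #(S_x) = #{j ∈ [N]^d : ..} ≤ N^d η' / 2`.  So
`∑_x (∑_{i<l} #(Z_x i l) / (η N0^2) + #(S_x) / (η' N0^d)) ≤ d^2 M^d / (2 d^2) + M^d / 2 = M^d = #(box d M)`, and for some `x` the bracket is
`≤ 1` (`Finset.exists_le_of_sum_le`).  Apply `hpl` to `Z_x`, `S_x` (with `Z_x i l = ∅` for the other pairs) and put `a i = G_x i ∘ a0 i`.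
-/

set_option autoImplicit false

namespace FHD

open Finset

open Classical in
private theorem MeasD_quant {D N : ℕ} (ρ : ℕ → ℝ) (h : ∀ i, 0 ≤ ρ i)
    (hs : ∑ i ∈ range D, ρ i = 1) : ∃ F : ℕ → ℕ, (∀ j < N, F j < D) ∧
      (∀ j < N, (N : ℝ) * ∑ i ∈ range (F j), ρ i ≤ j) ∧
      (∀ j < N, (j : ℝ) < (N : ℝ) * ∑ i ∈ range (F j + 1), ρ i) ∧
      ∀ j j', j ≤ j' → j' < N → F j ≤ F j' := by
  have hD : 1 ≤ D := by
    rcases Nat.eq_zero_or_pos D with h0 | h0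
    · subst h0; simp at hs
    · exact h0
  have hex : ∀ j < N, ∃ i, (j : ℝ) < (N : ℝ) * ∑ i' ∈ range (i + 1), ρ i' := by
    intro j hj
    refine ⟨D - 1, ?_⟩
    rw [Nat.sub_add_cancel hD, hs, mul_one]
    exact_mod_cast hj
  refine ⟨fun j => if h : ∃ i, (j : ℝ) < (N : ℝ) * ∑ i' ∈ range (i + 1), ρ i' then
    Nat.find h else 0, ?_, ?_, ?_, ?_⟩
  · intro j hj
    simp only [dif_pos (hex j hj)]
    have : Nat.find (hex j hj) ≤ D - 1 := by
      apply Nat.find_min'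
      rw [Nat.sub_add_cancel hD, hs, mul_one]
      exact_mod_cast hj
    omega
  · intro j hj
    simp only [dif_pos (hex j hj)]
    rcases Nat.eq_zero_or_pos (Nat.find (hex j hj)) with h0 | h0
    · rw [h0]; simp
    · have h1 := Nat.find_min (hex j hj) (m := Nat.find (hex j hj) - 1) (by omega)
      rw [Nat.sub_add_cancel h0] at h1
      exact not_lt.1 h1
  · intro j hj
    simp only [dif_pos (hex j hj)]
    exact Nat.find_spec (hex j hj)
  · intro j j' hjj hj'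
    have hj : j < N := lt_of_le_of_lt hjj hj'
    simp only [dif_pos (hex j hj), dif_pos (hex j' hj')]
    apply Nat.find_min'
    refine lt_of_le_of_lt ?_ (Nat.find_spec (hex j' hj'))
    exact_mod_cast hjj

private theorem MeasD_fib {N : ℕ} (ρ : ℕ → ℝ) (h : ∀ i, 0 ≤ ρ i) (F : ℕ → ℕ)
    (h1 : ∀ j < N, (N : ℝ) * ∑ i ∈ range (F j), ρ i ≤ j)
    (h2 : ∀ j < N, (j : ℝ) < (N : ℝ) * ∑ i ∈ range (F j + 1), ρ i) (i : ℕ) :
    (((range N).filter fun j => F j = i).card : ℝ) ≤ N * ρ i + 1 := by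
  set x : ℝ := (N : ℝ) * ∑ i' ∈ range i, ρ i' with hx
  have hx0 : 0 ≤ x := mul_nonneg (Nat.cast_nonneg _) (sum_nonneg fun i _ => h i)
  have hN0 : 0 ≤ (N : ℝ) * ρ i := mul_nonneg (Nat.cast_nonneg _) (h i)
  have hxy : (N : ℝ) * ∑ i' ∈ range (i + 1), ρ i' = x + N * ρ i := by
    rw [sum_range_succ, mul_add]
  have hsub : ((range N).filter fun j => F j = i) ⊆ Finset.Ico ⌈x⌉₊ ⌈x + N * ρ i⌉₊ := by
    intro j hj
    rw [mem_filter, mem_range] at hj
    have h3 := h1 j hj.1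
    have h4 := h2 j hj.1
    rw [hj.2] at h3 h4
    rw [hxy] at h4
    rw [Finset.mem_Ico]
    exact ⟨Nat.ceil_le.2 h3, Nat.lt_ceil.2 h4⟩
  have h5 := card_le_card hsub
  rw [Nat.card_Ico] at h5
  have h6 : (⌈x + N * ρ i⌉₊ : ℝ) < x + N * ρ i + 1 := Nat.ceil_lt_add_one (by linarith)
  have h7 : x ≤ (⌈x⌉₊ : ℝ) := Nat.le_ceil x
  have h8 : ⌈x⌉₊ ≤ ⌈x + N * ρ i⌉₊ := Nat.ceil_le_ceil (by linarith)
  have h9 : (((range N).filter fun j => F j = i).card : ℝ) ≤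
      ((⌈x + N * ρ i⌉₊ - ⌈x⌉₊ : ℕ) : ℝ) := by exact_mod_cast h5
  rw [Nat.cast_sub h8] at h9
  linarith

private theorem MeasD_inj {N M K : ℕ} (hN : N = K * M) (hM : 1 ≤ M) (ρ : ℕ → ℝ)
    (ha : ∀ i, 2 * (K : ℝ) * ρ i ≤ 1) (F : ℕ → ℕ)
    (h1 : ∀ j < N, (N : ℝ) * ∑ i ∈ range (F j), ρ i ≤ j)
    (h2 : ∀ j < N, (j : ℝ) < (N : ℝ) * ∑ i ∈ range (F j + 1), ρ i)
    (hmono : ∀ j j', j ≤ j' → j' < N → F j ≤ F j') {u v : ℕ} (huv : u + M ≤ v) (hv : v < N) :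
    F u < F v := by
  refine lt_of_le_of_ne (hmono u v (by omega) hv) fun heq => ?_
  have h3 := h1 u (by omega)
  have h4 := h2 v hv
  rw [← heq, sum_range_succ, mul_add] at h4
  have h5 : (u : ℝ) + M ≤ v := by exact_mod_cast huv
  have h6 : (M : ℝ) < N * ρ (F u) := by linarith
  have h7 := ha (F u)
  have hM0 : (1 : ℝ) ≤ M := by exact_mod_cast hM
  rw [hN] at h6
  push_cast at h6
  nlinarith



private theorem MeasD_prod {ι : Type*} [DecidableEq ι] {N : ℝ} (hN : 1 ≤ N) (r : ι → ℝ)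
    (h0 : ∀ i, 0 ≤ r i) (h1 : ∀ i, r i ≤ 1) (s : Finset ι) :
    N * ∏ i ∈ s, (N * r i + 1) ≤ N ^ (#s + 1) * ∏ i ∈ s, r i + (2 ^ #s - 1) * N ^ #s := by
  induction s using Finset.induction_on with
  | empty => simp
  | insert a s ha ih =>
    rw [prod_insert ha, prod_insert ha, card_insert_of_notMem ha]
    set R := ∏ i ∈ s, r i with hR
    have hR0 : 0 ≤ R := prod_nonneg fun i _ => h0 i
    have hR1 : R ≤ 1 := prod_le_one (fun i _ => h0 i) fun i _ => h1 i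
    have hN0 : 0 ≤ N := by linarith
    have ha0 : 0 ≤ N * r a + 1 := by
      have := mul_nonneg hN0 (h0 a)
      linarith
    have ha1 : N * r a + 1 ≤ 2 * N := by
      have := mul_le_mul_of_nonneg_left (h1 a) hN0
      linarith
    have hp : 0 ≤ N ^ #s := pow_nonneg hN0 _
    have h2 : (1 : ℝ) ≤ 2 ^ #s := one_le_pow₀ (by norm_num)
    calc N * ((N * r a + 1) * ∏ i ∈ s, (N * r i + 1)) =
        (N * r a + 1) * (N * ∏ i ∈ s, (N * r i + 1)) := by ring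
      _ ≤ (N * r a + 1) * (N ^ (#s + 1) * R + (2 ^ #s - 1) * N ^ #s) :=
        mul_le_mul_of_nonneg_left ih ha0
      _ = N ^ (#s + 1 + 1) * (r a * R) + N ^ (#s + 1) * R +
          (N * r a + 1) * ((2 ^ #s - 1) * N ^ #s) := by ring
      _ ≤ N ^ (#s + 1 + 1) * (r a * R) + N ^ (#s + 1) * 1 +
          (2 * N) * ((2 ^ #s - 1) * N ^ #s) := by
        have e1 : N ^ (#s + 1) * R ≤ N ^ (#s + 1) * 1 :=
          mul_le_mul_of_nonneg_left hR1 (pow_nonneg hN0 _)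
        have e2 : (N * r a + 1) * ((2 ^ #s - 1) * N ^ #s) ≤
            (2 * N) * ((2 ^ #s - 1) * N ^ #s) :=
          mul_le_mul_of_nonneg_right ha1 (mul_nonneg (by linarith) hp)
        linarith
      _ = N ^ (#s + 1 + 1) * (r a * R) + (2 ^ (#s + 1) - 1) * N ^ (#s + 1) := by ring

private theorem MeasD_box_card (d M : ℕ) : #(box d M) = M ^ d := by
  simp [box, Fintype.card_piFinset]

private theorem MeasD_mem_box {d M : ℕ} {x : Fin d → ℕ} : x ∈ box d M ↔ ∀ i, x i < M := by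
  simp [box, Fintype.mem_piFinset]

private theorem MeasD_fibcard {d M : ℕ} {i l : Fin d} (hil : i ≠ l) (a b : ℕ) :
    #((box d M).filter fun x => x i = a ∧ x l = b) ≤ M ^ (d - 2) := by
  classical
  have h1 : ((box d M).filter fun x => x i = a ∧ x l = b) ⊆
      Fintype.piFinset fun m : Fin d => if m = i then {a} else if m = l then {b} else range M := by
    intro x hx
    rw [mem_filter, MeasD_mem_box] at hx
    rw [Fintype.mem_piFinset]
    intro m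
    by_cases hmi : m = i
    · subst hmi
      simp [hx.2.1]
    · by_cases hml : m = l
      · subst hml
        simp [hmi, hx.2.2]
      · simp [hmi, hml, hx.1 m]
  refine (card_le_card h1).trans ?_
  rw [Fintype.card_piFinset]
  have h2 : ∀ m : Fin d, #(if m = i then ({a} : Finset ℕ) else if m = l then {b} else range M) =
      if m ∈ (univ.erase i).erase l then M else 1 := by
    intro m
    by_cases hmi : m = i
    · subst hmi
      simp
    · by_cases hml : m = l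
      · subst hml
        simp [hmi]
      · simp [hmi, hml]
  rw [prod_congr rfl fun m _ => h2 m, prod_ite, prod_const, prod_const_one, mul_one]
  have h3 : (univ.filter fun m : Fin d => m ∈ (univ.erase i).erase l) = (univ.erase i).erase l := by
    ext m
    simp
  rw [h3, card_erase_of_mem (by simp [hil.symm]), card_erase_of_mem (mem_univ _), card_univ,
    Fintype.card_fin]
  exact le_of_eq (by congr 1)

private theorem MeasD_div {M A A' x x' : ℕ} (hx : x < M) (hx' : x' < M)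
    (h : M * A + x = M * A' + x') : A = A' ∧ x = x' := by
  have hM : 0 < M := by omega
  have e3 : (M * A + x) / M = A := by
    rw [Nat.mul_add_div hM, Nat.div_eq_of_lt hx, add_zero]
  have e4 : (M * A' + x') / M = A' := by
    rw [Nat.mul_add_div hM, Nat.div_eq_of_lt hx', add_zero]
  have e5 : A = A' := by rw [← e3, ← e4, h]
  subst e5
  exact ⟨rfl, by omega⟩

private theorem MeasD_bnd {M N0 A x : ℕ} (hx : x < M) (hA : A < N0) : M * A + x < N0 * M := by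
  have : M * (A + 1) ≤ M * N0 := Nat.mul_le_mul_left _ hA
  have e : M * (A + 1) = M * A + M := by ring
  have e' : M * N0 = N0 * M := by ring
  omega

/-- the pairs -/
private theorem MeasD_pairs {d N0 M : ℕ} {i l : Fin d} (hil : i ≠ l) (F G : ℕ → ℕ)
    (B : Finset (ℕ × ℕ)) :
    ∑ x ∈ box d M, #(((range N0) ×ˢ (range N0)).filter fun z =>
      (F (M * z.1 + x i), G (M * z.2 + x l)) ∈ B) ≤
      M ^ (d - 2) * #(((range (N0 * M)) ×ˢ (range (N0 * M))).filter fun z => (F z.1, G z.2) ∈ B) := by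
  classical
  set f : ℕ → ℕ → ℕ := fun a b => #(((range N0) ×ˢ (range N0)).filter fun z =>
      (F (M * z.1 + a), G (M * z.2 + b)) ∈ B) with hf
  have h1 : ∑ x ∈ box d M, f (x i) (x l) ≤
      ∑ p ∈ range M ×ˢ range M, M ^ (d - 2) * f p.1 p.2 := by
    have h2 : ∀ x ∈ box d M, (x i, x l) ∈ range M ×ˢ range M := by
      intro x hx
      rw [MeasD_mem_box] at hx
      rw [mem_product, mem_range, mem_range]
      exact ⟨hx i, hx l⟩
    rw [← sum_fiberwise_of_maps_to h2]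
    refine sum_le_sum fun p _ => ?_
    have h3 : ∑ x ∈ (box d M).filter (fun x => (x i, x l) = p), f (x i) (x l) =
        ∑ x ∈ (box d M).filter (fun x => (x i, x l) = p), f p.1 p.2 := by
      refine sum_congr rfl fun x hx => ?_
      rw [mem_filter] at hx
      rw [← hx.2]
    rw [h3, sum_const, smul_eq_mul]
    refine Nat.mul_le_mul_right _ ?_
    refine le_trans (le_of_eq ?_) (MeasD_fibcard (M := M) hil p.1 p.2)
    congr 1
    ext x
    simp [Prod.ext_iff]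
  refine h1.trans ?_
  rw [← mul_sum]
  refine Nat.mul_le_mul_left _ ?_
  rw [← card_sigma]
  refine card_le_card_of_injOn
    (fun q => (M * q.2.1 + q.1.1, M * q.2.2 + q.1.2)) ?_ ?_
  · rintro ⟨⟨a, b⟩, ⟨A, C⟩⟩ hq
    have hq' := Finset.mem_coe.1 hq
    rw [mem_sigma, mem_product, mem_filter, mem_product] at hq'
    simp only [mem_range] at hq'
    obtain ⟨⟨ha, hb⟩, ⟨hA, hC⟩, hB⟩ := hq'
    refine Finset.mem_coe.2 ?_
    rw [mem_filter, mem_product]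
    simp only [mem_range]
    exact ⟨⟨MeasD_bnd ha hA, MeasD_bnd hb hC⟩, hB⟩
  · rintro ⟨⟨a, b⟩, ⟨A, C⟩⟩ hq ⟨⟨a', b'⟩, ⟨A', C'⟩⟩ hq2 he
    have hq' := Finset.mem_coe.1 hq
    have hq2' := Finset.mem_coe.1 hq2
    rw [mem_sigma, mem_product, mem_filter, mem_product] at hq' hq2'
    simp only [mem_range] at hq' hq2'
    obtain ⟨⟨ha, hb⟩, -⟩ := hq'
    obtain ⟨⟨ha', hb'⟩, -⟩ := hq2'
    simp only [Prod.mk.injEq] at he
    obtain ⟨k1, k2⟩ := MeasD_div ha ha' he.1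
    obtain ⟨k3, k4⟩ := MeasD_div hb hb' he.2
    subst k1 k2 k3 k4
    rfl

/-- the tuples -/
private theorem MeasD_tuples {d N0 M : ℕ} (F : Fin d → ℕ → ℕ) (B : Finset (Fin d → ℕ)) :
    ∑ x ∈ box d M, #((box d N0).filter fun A => (fun i => F i (M * A i + x i)) ∈ B) ≤
      #((box d (N0 * M)).filter fun j => (fun i => F i (j i)) ∈ B) := by
  classical
  rw [← card_sigma]
  refine card_le_card_of_injOn (fun q => fun i => M * q.2 i + q.1 i) ?_ ?_
  · rintro ⟨x, A⟩ hq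
    have hq' := Finset.mem_coe.1 hq
    rw [mem_sigma, mem_filter, MeasD_mem_box, MeasD_mem_box] at hq'
    obtain ⟨hx, hA, hB⟩ := hq'
    refine Finset.mem_coe.2 ?_
    rw [mem_filter, MeasD_mem_box]
    exact ⟨fun i => MeasD_bnd (hx i) (hA i), hB⟩
  · rintro ⟨x, A⟩ hq ⟨x', A'⟩ hq2 he
    have hq' := Finset.mem_coe.1 hq
    have hq2' := Finset.mem_coe.1 hq2
    rw [mem_sigma, mem_filter, MeasD_mem_box, MeasD_mem_box] at hq' hq2'
    have k : ∀ i, A i = A' i ∧ x i = x' i := fun i =>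
      MeasD_div (hq'.1 i) (hq2'.1 i) (congrFun he i)
    have k1 : A = A' := funext fun i => (k i).1
    have k2 : x = x' := funext fun i => (k i).2
    subst k1 k2
    rfl

private theorem MeasD_card2 {N D : ℕ} (ρ₁ ρ₂ : ℕ → ℝ) (h1 : ∀ i, 0 ≤ ρ₁ i) (h2 : ∀ i, 0 ≤ ρ₂ i)
    (hs1 : ∑ i ∈ range D, ρ₁ i = 1) (hs2 : ∑ i ∈ range D, ρ₂ i = 1)
    (F G : ℕ → ℕ)
    (hF : ∀ i, (((range N).filter fun j => F j = i).card : ℝ) ≤ N * ρ₁ i + 1)
    (hG : ∀ i, (((range N).filter fun j => G j = i).card : ℝ) ≤ N * ρ₂ i + 1)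
    (bad : Finset (ℕ × ℕ)) (hbad : bad ⊆ range D ×ˢ range D) :
    ((((range N) ×ˢ (range N)).filter fun z => (F z.1, G z.2) ∈ bad).card : ℝ) ≤
      (N : ℝ) ^ 2 * ∑ z ∈ bad, ρ₁ z.1 * ρ₂ z.2 + 2 * N * D + (D : ℝ) ^ 2 := by
  classical
  have e1 : ((range N) ×ˢ (range N)).filter (fun z => (F z.1, G z.2) ∈ bad) =
      bad.biUnion fun y => ((range N).filter fun j => F j = y.1) ×ˢ
        ((range N).filter fun j => G j = y.2) := by
    ext ⟨u, v⟩
    simp only [mem_filter, mem_product, mem_range, mem_biUnion]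
    constructor
    · rintro ⟨⟨hu, hv⟩, hb⟩
      exact ⟨_, hb, ⟨hu, rfl⟩, ⟨hv, rfl⟩⟩
    · rintro ⟨⟨y1, y2⟩, hy, ⟨hu, hu'⟩, ⟨hv, hv'⟩⟩
      refine ⟨⟨hu, hv⟩, ?_⟩
      simp only at hu' hv'
      rw [hu', hv']
      exact hy
  have e2 : ((((range N) ×ˢ (range N)).filter fun z => (F z.1, G z.2) ∈ bad).card : ℝ) ≤
      ∑ y ∈ bad, ((N : ℝ) * ρ₁ y.1 + 1) * (N * ρ₂ y.2 + 1) := by
    rw [e1]
    have h3 : ((bad.biUnion fun y => ((range N).filter fun j => F j = y.1) ×ˢ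
        ((range N).filter fun j => G j = y.2)).card : ℝ) ≤
        ∑ y ∈ bad, (((((range N).filter fun j => F j = y.1) ×ˢ
        ((range N).filter fun j => G j = y.2)).card : ℕ) : ℝ) := by
      exact_mod_cast card_biUnion_le
    refine h3.trans (sum_le_sum fun y _ => ?_)
    rw [card_product]
    push_cast
    have h4 : (0 : ℝ) ≤ N * ρ₁ y.1 + 1 := by
      have := mul_nonneg (Nat.cast_nonneg (α := ℝ) N) (h1 y.1)
      linarith
    exact mul_le_mul (hF _) (hG _) (Nat.cast_nonneg _) h4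
  refine e2.trans ?_
  have h5 : ∑ y ∈ bad, ρ₁ y.1 ≤ (D : ℝ) := by
    calc ∑ y ∈ bad, ρ₁ y.1 ≤ ∑ y ∈ range D ×ˢ range D, ρ₁ y.1 :=
          sum_le_sum_of_subset_of_nonneg hbad fun _ _ _ => h1 _
      _ = (D : ℝ) := by
          rw [sum_product_right]
          simp [hs1]
  have h6 : ∑ y ∈ bad, ρ₂ y.2 ≤ (D : ℝ) := by
    calc ∑ y ∈ bad, ρ₂ y.2 ≤ ∑ y ∈ range D ×ˢ range D, ρ₂ y.2 :=
          sum_le_sum_of_subset_of_nonneg hbad fun _ _ _ => h2 _
      _ = (D : ℝ) := by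
          rw [sum_product]
          simp [hs2]
  have h7 : (bad.card : ℝ) ≤ (D : ℝ) ^ 2 := by
    have := card_le_card hbad
    rw [card_product, card_range] at this
    have h8 : (bad.card : ℝ) ≤ ((D * D : ℕ) : ℝ) := by exact_mod_cast this
    push_cast at h8
    nlinarith
  have h9 : ∑ y ∈ bad, ((N : ℝ) * ρ₁ y.1 + 1) * (N * ρ₂ y.2 + 1) =
      (N : ℝ) ^ 2 * ∑ z ∈ bad, ρ₁ z.1 * ρ₂ z.2 + N * ∑ y ∈ bad, ρ₁ y.1 +
        N * ∑ y ∈ bad, ρ₂ y.2 + bad.card := by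
    have h10 : ∀ y : ℕ × ℕ, ((N : ℝ) * ρ₁ y.1 + 1) * (N * ρ₂ y.2 + 1) =
        (N : ℝ) ^ 2 * (ρ₁ y.1 * ρ₂ y.2) + N * ρ₁ y.1 + N * ρ₂ y.2 + 1 := by
      intro y
      ring
    simp_rw [h10, sum_add_distrib, mul_sum]
    simp
  rw [h9]
  have hN : (0 : ℝ) ≤ N := Nat.cast_nonneg _
  nlinarith [mul_le_mul_of_nonneg_left h5 hN, mul_le_mul_of_nonneg_left h6 hN]

private theorem MeasD_cardd {d N D : ℕ} (hN : 1 ≤ N) (ρ : Fin d → ℕ → ℝ) (h0 : ∀ i x, 0 ≤ ρ i x)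
    (h1 : ∀ i x, ρ i x ≤ 1) (F : Fin d → ℕ → ℕ)
    (hF : ∀ i x, (((range N).filter fun j => F i j = x).card : ℝ) ≤ N * ρ i x + 1)
    (B : Finset (Fin d → ℕ)) (hB : B ⊆ box d D) :
    (N : ℝ) * (((box d N).filter fun j => (fun i => F i (j i)) ∈ B).card : ℝ) ≤
      (N : ℝ) ^ (d + 1) * ∑ a ∈ B, ∏ i, ρ i (a i) + 2 ^ d * (N : ℝ) ^ d * (D : ℝ) ^ d := by
  classical
  have hNr : (1 : ℝ) ≤ N := by exact_mod_cast hN
  have e1 : ((box d N).filter fun j => (fun i => F i (j i)) ∈ B) ⊆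
      B.biUnion fun y => Fintype.piFinset fun i => (range N).filter fun j => F i j = y i := by
    intro j hj
    rw [mem_filter, MeasD_mem_box] at hj
    rw [mem_biUnion]
    refine ⟨_, hj.2, ?_⟩
    rw [Fintype.mem_piFinset]
    intro i
    rw [mem_filter, mem_range]
    exact ⟨hj.1 i, rfl⟩
  have e2 : (((box d N).filter fun j => (fun i => F i (j i)) ∈ B).card : ℝ) ≤
      ∑ y ∈ B, ∏ i, ((N : ℝ) * ρ i (y i) + 1) := by
    have h3 : (((box d N).filter fun j => (fun i => F i (j i)) ∈ B).card : ℝ) ≤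
        ∑ y ∈ B, ((#(Fintype.piFinset fun i => (range N).filter fun j => F i j = y i) : ℕ) : ℝ) := by
      exact_mod_cast (card_le_card e1).trans card_biUnion_le
    refine h3.trans (sum_le_sum fun y _ => ?_)
    rw [Fintype.card_piFinset]
    push_cast
    exact prod_le_prod (fun i _ => Nat.cast_nonneg _) fun i _ => hF i (y i)
  have e3 : (#B : ℝ) ≤ (D : ℝ) ^ d := by
    have := card_le_card hB
    rw [MeasD_box_card] at this
    exact_mod_cast this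
  calc (N : ℝ) * (((box d N).filter fun j => (fun i => F i (j i)) ∈ B).card : ℝ) ≤
      (N : ℝ) * ∑ y ∈ B, ∏ i, ((N : ℝ) * ρ i (y i) + 1) :=
        mul_le_mul_of_nonneg_left e2 (by positivity)
    _ = ∑ y ∈ B, (N : ℝ) * ∏ i, ((N : ℝ) * ρ i (y i) + 1) := by rw [mul_sum]
    _ ≤ ∑ y ∈ B, ((N : ℝ) ^ (d + 1) * ∏ i, ρ i (y i) + 2 ^ d * (N : ℝ) ^ d) := by
        refine sum_le_sum fun y _ => ?_
        have h4 := MeasD_prod hNr (fun i => ρ i (y i)) (fun i => h0 i _) (fun i => h1 i _)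
          (univ : Finset (Fin d))
        rw [card_univ, Fintype.card_fin] at h4
        refine h4.trans ?_
        have h5 : (0 : ℝ) ≤ (N : ℝ) ^ d := by positivity
        nlinarith
    _ = (N : ℝ) ^ (d + 1) * ∑ a ∈ B, ∏ i, ρ i (a i) + 2 ^ d * (N : ℝ) ^ d * #B := by
        rw [sum_add_distrib, ← mul_sum, sum_const, nsmul_eq_mul]
        ring
    _ ≤ _ := by
        have : (0 : ℝ) ≤ 2 ^ d * (N : ℝ) ^ d := by positivity
        have := mul_le_mul_of_nonneg_left e3 this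
        linarith

theorem measD {d k N0 D : ℕ} (hd : 2 ≤ d) (π : Fin d → Equiv.Perm (Fin k)) {η η' : ℝ} (hη : 0 < η)
    (hη' : 0 < η') (hN0 : 1 ≤ N0) (hpl : PlD π N0 η η') (ρ : Fin d → ℕ → ℝ) (h0 : ∀ i x, 0 ≤ ρ i x)
    (h1 : ∀ i, ∑ x ∈ range D, ρ i x = 1) (ha : ∀ i x, 2 * (N0 : ℝ) * ρ i x ≤ 1)
    (Bp : Fin d → Fin d → Finset (ℕ × ℕ)) (hBp : ∀ i l, Bp i l ⊆ range D ×ˢ range D)
    (Bs : Finset (Fin d → ℕ)) (hBs : Bs ⊆ box d D)
    (hp : ∀ i l, i < l → 4 * (d : ℝ) ^ 2 * ∑ x ∈ Bp i l, ρ i x.1 * ρ l x.2 ≤ η)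
    (hs : 4 * ∑ a ∈ Bs, ∏ i, ρ i (a i) ≤ η') :
    ∃ a : Fin d → Fin k → ℕ, (∀ i, StrictMono (a i)) ∧ (∀ i x, a i x < D) ∧ (∀ i x, 0 < ρ i (a i x)) ∧
      ∀ j, (∀ i l, i < l → (a i (π i j), a l (π l j)) ∉ Bp i l) ∧ (fun i => a i (π i j)) ∉ Bs := by
  classical
  obtain ⟨M, hM⟩ : ∃ M : ℕ, M = ⌈12 * (d : ℝ) ^ 2 * (D : ℝ) ^ 2 / η⌉₊ +
    ⌈4 * 2 ^ d * (D : ℝ) ^ d / η'⌉₊ + 1 := ⟨_, rfl⟩
  have hM1 : 1 ≤ M := by omega
  have hMp : 12 * (d : ℝ) ^ 2 * (D : ℝ) ^ 2 ≤ η * M := by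
    have h3 : 12 * (d : ℝ) ^ 2 * (D : ℝ) ^ 2 / η ≤ M := by
      refine (Nat.le_ceil _).trans ?_
      rw [hM]
      push_cast
      have : (0 : ℝ) ≤ (⌈4 * 2 ^ d * (D : ℝ) ^ d / η'⌉₊ : ℝ) := Nat.cast_nonneg _
      linarith
    rw [div_le_iff₀ hη] at h3
    linarith
  have hMs : 4 * 2 ^ d * (D : ℝ) ^ d ≤ η' * M := by
    have h3 : 4 * 2 ^ d * (D : ℝ) ^ d / η' ≤ M := by
      refine (Nat.le_ceil _).trans ?_
      rw [hM]
      push_cast
      have : (0 : ℝ) ≤ (⌈12 * (d : ℝ) ^ 2 * (D : ℝ) ^ 2 / η⌉₊ : ℝ) := Nat.cast_nonneg _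
      linarith
    rw [div_le_iff₀ hη'] at h3
    linarith
  obtain ⟨N, hN⟩ : ∃ N, N = N0 * M := ⟨_, rfl⟩
  have hNM : M ≤ N := by
    rw [hN]
    exact Nat.le_mul_of_pos_left M (by omega)
  have hN1 : 1 ≤ N := hM1.trans hNM
  have hN1r : (1 : ℝ) ≤ N := by exact_mod_cast hN1
  have hNMr : (M : ℝ) ≤ N := by exact_mod_cast hNM
  have hNr : (N : ℝ) = N0 * M := by rw [hN]; push_cast; ring
  have hN0r : (1 : ℝ) ≤ N0 := by exact_mod_cast hN0
  have hM1r : (1 : ℝ) ≤ M := by exact_mod_cast hM1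
  have hdr : (2 : ℝ) ≤ d := by exact_mod_cast hd
  have hρ1 : ∀ i x, ρ i x ≤ 1 := by
    intro i x
    have := ha i x
    have h5 := h0 i x
    nlinarith
  have hQ := fun i => MeasD_quant (N := N) (ρ i) (h0 i) (h1 i)
  choose F hF1 hF2 hF3 hF4 using hQ
  have hfib : ∀ i x, (((range N).filter fun j => F i j = x).card : ℝ) ≤ N * ρ i x + 1 :=
    fun i x => MeasD_fib (ρ i) (h0 i) (F i) (hF2 i) (hF3 i) x
  have hinj : ∀ i u v, u + M ≤ v → v < N → F i u < F i v := fun i u v huv hv =>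
    MeasD_inj (K := N0) hN hM1 (ρ i) (ha i) (F i) (hF2 i) (hF3 i) (hF4 i) huv hv
  have hpos : ∀ i, ∀ j < N, 0 < ρ i (F i j) := by
    intro i j hj
    have h3 := hF2 i j hj
    have h4 := hF3 i j hj
    rw [sum_range_succ, mul_add] at h4
    have h5 : 0 < (N : ℝ) * ρ i (F i j) := by linarith
    exact (mul_pos_iff_of_pos_left (by linarith)).1 h5
  -- counting
  have hP : ∀ i l, i < l → 2 * (d : ℝ) ^ 2 *
      (#(((range N) ×ˢ (range N)).filter fun z => (F i z.1, F l z.2) ∈ Bp i l) : ℝ) ≤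
      η * (N : ℝ) ^ 2 := by
    intro i l hil
    have h3 := MeasD_card2 (N := N) (ρ i) (ρ l) (h0 i) (h0 l) (h1 i) (h1 l) (F i) (F l)
      (hfib i) (hfib l) (Bp i l) (hBp i l)
    have h4 := hp i l hil
    set sPair := ∑ x ∈ Bp i l, ρ i x.1 * ρ l x.2 with hsum0
    have h5 : 4 * (d : ℝ) ^ 2 * sPair * (N : ℝ) ^ 2 ≤ η * (N : ℝ) ^ 2 :=
      mul_le_mul_of_nonneg_right h4 (by positivity)
    have h6 : 2 * (N : ℝ) * D + (D : ℝ) ^ 2 ≤ 3 * N * (D : ℝ) ^ 2 := by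
      have e1 : (D : ℝ) ≤ (D : ℝ) ^ 2 := by
        have : D ≤ D ^ 2 := Nat.le_self_pow (by norm_num) D
        exact_mod_cast this
      have e2 : (D : ℝ) ^ 2 ≤ N * (D : ℝ) ^ 2 := le_mul_of_one_le_left (by positivity) hN1r
      have e3 : 2 * (N : ℝ) * D ≤ 2 * N * (D : ℝ) ^ 2 :=
        mul_le_mul_of_nonneg_left e1 (by positivity)
      linarith
    have h7 : 12 * (d : ℝ) ^ 2 * (D : ℝ) ^ 2 * N ≤ η * (N : ℝ) ^ 2 := by
      have e1 : η * (M : ℝ) ≤ η * N := mul_le_mul_of_nonneg_left hNMr hη.le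
      have e2 : 12 * (d : ℝ) ^ 2 * (D : ℝ) ^ 2 * N ≤ (η * N) * N :=
        mul_le_mul_of_nonneg_right (hMp.trans e1) (by positivity)
      linarith [e2, (by ring : (η * (N : ℝ)) * N = η * (N : ℝ) ^ 2)]
    have hd2 : (0 : ℝ) ≤ 2 * (d : ℝ) ^ 2 := by positivity
    have h8 := mul_le_mul_of_nonneg_left h3 hd2
    have h9 := mul_le_mul_of_nonneg_left h6 hd2
    have e4 : 2 * (d : ℝ) ^ 2 * ((N : ℝ) ^ 2 * sPair + 2 * N * D + (D : ℝ) ^ 2) =
        (4 * (d : ℝ) ^ 2 * sPair * (N : ℝ) ^ 2) / 2 + 2 * (d : ℝ) ^ 2 * (2 * (N : ℝ) * D + (D : ℝ) ^ 2) := by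
      ring
    have e5 : 2 * (d : ℝ) ^ 2 * (3 * N * (D : ℝ) ^ 2) = (12 * (d : ℝ) ^ 2 * (D : ℝ) ^ 2 * N) / 2 := by
      ring
    linarith
  have hT : 2 * (#((box d N).filter fun j => (fun i => F i (j i)) ∈ Bs) : ℝ) ≤
      η' * (N : ℝ) ^ d := by
    have h3 := MeasD_cardd hN1 ρ h0 hρ1 F hfib Bs hBs
    set sTup := ∑ a ∈ Bs, ∏ i, ρ i (a i) with hsum0
    set t : ℝ := (#((box d N).filter fun j => (fun i => F i (j i)) ∈ Bs) : ℝ) with ht
    have hNd : (0 : ℝ) ≤ (N : ℝ) ^ d := by positivity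
    have h5 : 4 * sTup * (N : ℝ) ^ (d + 1) ≤ η' * (N : ℝ) ^ (d + 1) :=
      mul_le_mul_of_nonneg_right hs (by positivity)
    have h6 : 4 * 2 ^ d * (D : ℝ) ^ d * (N : ℝ) ^ d ≤ η' * (N : ℝ) ^ (d + 1) := by
      have e1 : η' * (M : ℝ) ≤ η' * N := mul_le_mul_of_nonneg_left hNMr hη'.le
      have e2 := mul_le_mul_of_nonneg_right (hMs.trans e1) hNd
      rw [pow_succ]
      linarith [e2, (by ring : (η' * (N : ℝ)) * (N : ℝ) ^ d = η' * ((N : ℝ) ^ d * N))]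
    have h7 : (N : ℝ) * (2 * t) ≤ N * (η' * (N : ℝ) ^ d) := by
      have e3 : (N : ℝ) * (η' * (N : ℝ) ^ d) = η' * (N : ℝ) ^ (d + 1) := by
        rw [pow_succ]; ring
      rw [e3]
      linarith
    exact le_of_mul_le_mul_left h7 (by linarith)
  -- the offset
  set Zx : (Fin d → ℕ) → Fin d → Fin d → Finset (ℕ × ℕ) := fun x i l =>
    ((range N0) ×ˢ (range N0)).filter fun z => (F i (M * z.1 + x i), F l (M * z.2 + x l)) ∈ Bp i l
    with hZx
  set Sx : (Fin d → ℕ) → Finset (Fin d → ℕ) := fun x =>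
    (box d N0).filter fun A => (fun i => F i (M * A i + x i)) ∈ Bs with hSx
  set I : Finset (Fin d × Fin d) := univ.filter fun p => p.1 < p.2 with hI
  have hIc : (#I : ℝ) ≤ (d : ℝ) ^ 2 := by
    have h3 : #I ≤ d * d := by
      refine (card_filter_le _ _).trans ?_
      rw [card_univ, Fintype.card_prod, Fintype.card_fin]
    have h4 : (#I : ℝ) ≤ ((d * d : ℕ) : ℝ) := by exact_mod_cast h3
    push_cast at h4
    linarith [h4, (by ring : (d : ℝ) * d = (d : ℝ) ^ 2)]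
  have hNpos : (0 : ℝ) < N0 := by linarith
  have hMpos : (0 : ℝ) < M := by linarith
  have hdpos : (0 : ℝ) < d := by linarith
  have hex : ∃ x ∈ box d M, (∑ p ∈ I, (#(Zx x p.1 p.2) : ℝ) / (η * (N0 : ℝ) ^ 2) +
      (#(Sx x) : ℝ) / (η' * (N0 : ℝ) ^ d)) ≤ (1 : ℝ) := by
    refine exists_le_of_sum_le (s := box d M) (f := fun x =>
      (∑ p ∈ I, (#(Zx x p.1 p.2) : ℝ) / (η * (N0 : ℝ) ^ 2) +
      (#(Sx x) : ℝ) / (η' * (N0 : ℝ) ^ d))) (g := fun _ => (1 : ℝ)) ?_ ?_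
    · refine ⟨fun _ => 0, ?_⟩
      rw [MeasD_mem_box]
      intro i
      omega
    · rw [sum_const, nsmul_eq_mul, mul_one, MeasD_box_card, sum_add_distrib, sum_comm]
      push_cast
      have q1 : ∀ p ∈ I, ∑ x ∈ box d M, (#(Zx x p.1 p.2) : ℝ) / (η * (N0 : ℝ) ^ 2) ≤
          (M : ℝ) ^ d / (2 * (d : ℝ) ^ 2) := by
        intro p hpI
        have hlt : p.1 < p.2 := by
          rw [hI, mem_filter] at hpI
          exact hpI.2
        have h3 := MeasD_pairs (d := d) (N0 := N0) (M := M) (ne_of_lt hlt) (F p.1) (F p.2)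
          (Bp p.1 p.2)
        rw [← hN] at h3
        have h4 := hP p.1 p.2 hlt
        set P : ℕ := #(((range N) ×ˢ (range N)).filter fun z => (F p.1 z.1, F p.2 z.2) ∈ Bp p.1 p.2)
          with hPdef
        have h5 : ∑ x ∈ box d M, (#(Zx x p.1 p.2) : ℝ) ≤ (M : ℝ) ^ (d - 2) * P := by
          exact_mod_cast h3
        rw [← sum_div, div_le_div_iff₀ (by positivity) (by positivity)]
        have hMd : (M : ℝ) ^ d = (M : ℝ) ^ (d - 2) * (M : ℝ) ^ 2 := by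
          rw [← pow_add]
          congr 1
          omega
        have hM2 : (0 : ℝ) ≤ (M : ℝ) ^ (d - 2) := by positivity
        calc (∑ x ∈ box d M, (#(Zx x p.1 p.2) : ℝ)) * (2 * (d : ℝ) ^ 2) ≤
            ((M : ℝ) ^ (d - 2) * P) * (2 * (d : ℝ) ^ 2) :=
              mul_le_mul_of_nonneg_right h5 (by positivity)
          _ = (M : ℝ) ^ (d - 2) * (2 * (d : ℝ) ^ 2 * P) := by ring
          _ ≤ (M : ℝ) ^ (d - 2) * (η * (N : ℝ) ^ 2) := mul_le_mul_of_nonneg_left h4 hM2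
          _ = (M : ℝ) ^ d * (η * (N0 : ℝ) ^ 2) := by rw [hMd, hNr]; ring
      have q2 : ∑ x ∈ box d M, (#(Sx x) : ℝ) / (η' * (N0 : ℝ) ^ d) ≤ (M : ℝ) ^ d / 2 := by
        have h3 := MeasD_tuples (d := d) (N0 := N0) (M := M) F Bs
        rw [← hN] at h3
        have h5 : ∑ x ∈ box d M, (#(Sx x) : ℝ) ≤
            (#((box d N).filter fun j => (fun i => F i (j i)) ∈ Bs) : ℝ) := by
          exact_mod_cast h3
        rw [← sum_div, div_le_div_iff₀ (by positivity) (by positivity)]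
        have h6 : (N : ℝ) ^ d = (N0 : ℝ) ^ d * (M : ℝ) ^ d := by rw [hNr, mul_pow]
        rw [h6] at hT
        nlinarith
      have q3 : ∑ p ∈ I, ∑ x ∈ box d M, (#(Zx x p.1 p.2) : ℝ) / (η * (N0 : ℝ) ^ 2) ≤
          (M : ℝ) ^ d / 2 := by
        refine (sum_le_sum q1).trans ?_
        rw [sum_const, nsmul_eq_mul]
        have h3 : (#I : ℝ) * ((M : ℝ) ^ d / (2 * (d : ℝ) ^ 2)) ≤
            (d : ℝ) ^ 2 * ((M : ℝ) ^ d / (2 * (d : ℝ) ^ 2)) :=
          mul_le_mul_of_nonneg_right hIc (by positivity)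
        refine h3.trans (le_of_eq ?_)
        field_simp
      linarith
  obtain ⟨x, hx, hx1⟩ := hex
  rw [MeasD_mem_box] at hx
  have hsum0 : 0 ≤ ∑ p ∈ I, (#(Zx x p.1 p.2) : ℝ) / (η * (N0 : ℝ) ^ 2) :=
    sum_nonneg fun p _ => by positivity
  have hS0 : 0 ≤ (#(Sx x) : ℝ) / (η' * (N0 : ℝ) ^ d) := by positivity
  have hZ1 : ∀ i l, i < l → (#(Zx x i l) : ℝ) ≤ η * (N0 : ℝ) ^ 2 := by
    intro i l hil
    have h3 : (#(Zx x i l) : ℝ) / (η * (N0 : ℝ) ^ 2) ≤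
        ∑ p ∈ I, (#(Zx x p.1 p.2) : ℝ) / (η * (N0 : ℝ) ^ 2) := by
      refine single_le_sum (f := fun p : Fin d × Fin d =>
        (#(Zx x p.1 p.2) : ℝ) / (η * (N0 : ℝ) ^ 2)) (fun p _ => by positivity)
        (a := (i, l)) ?_
      rw [hI, mem_filter]
      exact ⟨mem_univ _, hil⟩
    have h4 : (#(Zx x i l) : ℝ) / (η * (N0 : ℝ) ^ 2) ≤ 1 := by linarith
    rw [div_le_one (by positivity)] at h4
    exact h4
  have hS1 : (#(Sx x) : ℝ) ≤ η' * (N0 : ℝ) ^ d := by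
    have h4 : (#(Sx x) : ℝ) / (η' * (N0 : ℝ) ^ d) ≤ 1 := by linarith
    rw [div_le_one (by positivity)] at h4
    exact h4
  obtain ⟨a0, ha0, haN, hav⟩ := hpl (Zx x) (Sx x) (fun i l _ => filter_subset _ _) hZ1
    (filter_subset _ _) hS1
  have hb : ∀ i y, M * a0 i y + x i < N := fun i y => by
    rw [hN]
    exact MeasD_bnd (hx i) (haN i y)
  refine ⟨fun i y => F i (M * a0 i y + x i), ?_, fun i y => hF1 i _ (hb i y),
    fun i y => hpos i _ (hb i y), ?_⟩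
  · intro i y y' hy
    refine hinj i _ _ ?_ (hb i y')
    have h3 : M * (a0 i y + 1) ≤ M * a0 i y' := Nat.mul_le_mul_left _ (ha0 i hy)
    have e : M * (a0 i y + 1) = M * a0 i y + M := by ring
    omega
  · intro j
    obtain ⟨h3, h4⟩ := hav j
    refine ⟨fun i l hil hmem => h3 i l hil ?_, fun hmem => h4 ?_⟩
    · rw [hZx]
      simp only [mem_filter, mem_product, mem_range]
      exact ⟨⟨haN i _, haN l _⟩, hmem⟩
    · rw [hSx]
      simp only [mem_filter]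
      exact ⟨MeasD_mem_box.2 fun i => haN i _, hmem⟩

end FHD
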