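import Pool.Agent.FHD.Cell

/-!
# FHD.Pick: one good cell by averaging

PROOF.  Let `c j = q / (2 card I β j)` and `F t w = f0 t w - ∑_j c j * f j t w`.  Then `∑_{t ∈ wins} ∑_{w ∈ Ω} F t w ≥ (q - q/2) n^d #Ω`
(`card I * q / (2 card I) ≤ q/2`).  By `sum_cell` and `card_wins` there are `t ∈ wins`, `z ∈ Ω` for which the mean value of `F t` over
`C = cell t z` is at least `q/2`.  Hence the mean of `f0` is at least `q/2` and, since it is at most `1`, `∑_j c j * (mean of f j) ≤ 1`.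
-/

set_option autoImplicit false

namespace FHD

open Finset

theorem pick {d D n : ℕ} {I : Type} [Fintype I] (Ω : Finset (Fin d → ℕ)) (hΩ : Ω.Nonempty) (hn : 1 ≤ n)
    (f0 : (Fin d → ℕ) → (Fin d → ℕ) → ℝ) (f : I → (Fin d → ℕ) → (Fin d → ℕ) → ℝ) (β : I → ℝ) {q : ℝ}
    (hq : 0 < q) (hβ : ∀ j, 0 < β j) (h0 : ∀ t w, f0 t w ≤ 1) (hf : ∀ j t w, 0 ≤ f j t w)
    (hsum0 : q * ((n : ℝ) ^ d * #Ω) ≤ ∑ t ∈ wins d n, ∑ w ∈ Ω, f0 t w)
    (hsum : ∀ j, ∑ t ∈ wins d n, ∑ w ∈ Ω, f j t w ≤ β j * ((n : ℝ) ^ d * #Ω)) :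
    ∃ t ∈ wins d n, ∃ z ∈ Ω, q / 2 * #(cell D n Ω t z) ≤ ∑ w ∈ cell D n Ω t z, f0 t w ∧
      ∀ j, q * ∑ w ∈ cell D n Ω t z, f j t w ≤ 2 * Fintype.card I * β j * #(cell D n Ω t z) := by
  classical
  set c : I → ℝ := fun j => q / (2 * Fintype.card I * β j) with hc
  have hcnn : ∀ j, 0 ≤ c j := fun j =>
    div_nonneg hq.le (mul_nonneg (mul_nonneg (by norm_num) (Nat.cast_nonneg _)) (hβ j).le)
  set F : (Fin d → ℕ) → (Fin d → ℕ) → ℝ := fun t w => f0 t w - ∑ j, c j * f j t w with hF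
  have hNpos : (0 : ℝ) ≤ (n : ℝ) ^ d * #Ω := by positivity
  -- total
  have htot : q / 2 * ((n : ℝ) ^ d * #Ω) ≤ ∑ t ∈ wins d n, ∑ w ∈ Ω, F t w := by
    have e1 : ∑ t ∈ wins d n, ∑ w ∈ Ω, F t w = ∑ t ∈ wins d n, ∑ w ∈ Ω, f0 t w -
        ∑ j, c j * ∑ t ∈ wins d n, ∑ w ∈ Ω, f j t w := by
      simp only [hF, Finset.sum_sub_distrib]
      congr 1
      have e2 : ∀ t, ∑ w ∈ Ω, ∑ j, c j * f j t w = ∑ j, c j * ∑ w ∈ Ω, f j t w := by
        intro t
        rw [Finset.sum_comm]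
        exact Finset.sum_congr rfl fun j _ => by rw [Finset.mul_sum]
      simp only [e2]
      rw [Finset.sum_comm]
      exact Finset.sum_congr rfl fun j _ => by rw [Finset.mul_sum]
    have e3 : ∑ j, c j * ∑ t ∈ wins d n, ∑ w ∈ Ω, f j t w ≤ q / 2 * ((n : ℝ) ^ d * #Ω) := by
      rcases isEmpty_or_nonempty I with hI | hI
      · simp only [Finset.univ_eq_empty, Finset.sum_empty]
        positivity
      · have hcard : (0 : ℝ) < Fintype.card I := by exact_mod_cast Fintype.card_pos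
        calc ∑ j, c j * ∑ t ∈ wins d n, ∑ w ∈ Ω, f j t w
            ≤ ∑ _j : I, q / (2 * Fintype.card I) * ((n : ℝ) ^ d * #Ω) := by
              refine Finset.sum_le_sum fun j _ => ?_
              calc c j * ∑ t ∈ wins d n, ∑ w ∈ Ω, f j t w
                  ≤ c j * (β j * ((n : ℝ) ^ d * #Ω)) :=
                    mul_le_mul_of_nonneg_left (hsum j) (hcnn j)
                _ = q / (2 * Fintype.card I) * ((n : ℝ) ^ d * #Ω) := by
                    have hb := (hβ j).ne'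
                    simp only [hc]
                    field_simp
          _ = q / 2 * ((n : ℝ) ^ d * #Ω) := by
              rw [Finset.sum_const, Finset.card_univ, nsmul_eq_mul]
              field_simp
    rw [e1]
    linarith [hsum0]
  -- a good pair
  have hsc : ∀ t, ∑ z ∈ Ω, (∑ w ∈ cell D n Ω t z, F t w) / #(cell D n Ω t z) =
      ∑ w ∈ Ω, F t w := fun t => sum_cell t (F t)
  have hne : (wins d n ×ˢ Ω).Nonempty := by
    refine Finset.Nonempty.product ?_ hΩ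
    exact ⟨fun _ => 0, mem_wins.mpr fun _ => by omega⟩
  have hex : ∃ p ∈ wins d n ×ˢ Ω, q / 2 ≤
      (∑ w ∈ cell D n Ω p.1 p.2, F p.1 w) / #(cell D n Ω p.1 p.2) := by
    apply Finset.exists_le_of_sum_le hne
    rw [Finset.sum_const, Finset.card_product, card_wins, nsmul_eq_mul, Finset.sum_product]
    simp only [hsc]
    push_cast
    linarith [htot]
  obtain ⟨⟨t, z⟩, hp, hmean⟩ := hex
  obtain ⟨ht, hz⟩ := Finset.mem_product.mp hp
  simp only at ht hz hmean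
  refine ⟨t, ht, z, hz, ?_⟩
  have hcpos : (0 : ℝ) < #(cell D n Ω t z) := by
    exact_mod_cast Finset.card_pos.mpr ⟨z, mem_cell_self hz⟩
  rw [le_div_iff₀ hcpos] at hmean
  have e4 : ∑ w ∈ cell D n Ω t z, F t w = ∑ w ∈ cell D n Ω t z, f0 t w -
      ∑ j, c j * ∑ w ∈ cell D n Ω t z, f j t w := by
    simp only [hF, Finset.sum_sub_distrib]
    congr 1
    rw [Finset.sum_comm]
    exact Finset.sum_congr rfl fun j _ => by rw [Finset.mul_sum]
  have hfnn : ∀ j, 0 ≤ c j * ∑ w ∈ cell D n Ω t z, f j t w := fun j =>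
    mul_nonneg (hcnn j) (Finset.sum_nonneg fun w _ => hf j t w)
  have hsn : 0 ≤ ∑ j, c j * ∑ w ∈ cell D n Ω t z, f j t w := Finset.sum_nonneg fun j _ => hfnn j
  rw [e4] at hmean
  refine ⟨by linarith, fun j => ?_⟩
  have h1 : ∑ w ∈ cell D n Ω t z, f0 t w ≤ #(cell D n Ω t z) := by
    calc ∑ w ∈ cell D n Ω t z, f0 t w ≤ ∑ _w ∈ cell D n Ω t z, (1 : ℝ) :=
          Finset.sum_le_sum fun w _ => h0 t w
      _ = #(cell D n Ω t z) := by simp
  have h2 : c j * ∑ w ∈ cell D n Ω t z, f j t w ≤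
      ∑ j, c j * ∑ w ∈ cell D n Ω t z, f j t w :=
    Finset.single_le_sum (f := fun j => c j * ∑ w ∈ cell D n Ω t z, f j t w)
      (fun j _ => hfnn j) (Finset.mem_univ j)
  have h3 : 0 ≤ q / 2 * #(cell D n Ω t z) := by positivity
  have h4 : c j * ∑ w ∈ cell D n Ω t z, f j t w ≤ #(cell D n Ω t z) := by linarith
  have hcard : (0 : ℝ) < Fintype.card I := by
    exact_mod_cast Fintype.card_pos_iff.mpr ⟨j⟩
  have hb := hβ j
  have h5 : 2 * Fintype.card I * β j * (c j * ∑ w ∈ cell D n Ω t z, f j t w) ≤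
      2 * Fintype.card I * β j * #(cell D n Ω t z) :=
    mul_le_mul_of_nonneg_left h4 (by positivity)
  have h6 : 2 * Fintype.card I * β j * (c j * ∑ w ∈ cell D n Ω t z, f j t w) =
      q * ∑ w ∈ cell D n Ω t z, f j t w := by
    have hb' := hb.ne'
    have hcd := hcard.ne'
    simp only [hc]
    field_simp
  linarith

end FHD
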