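import Pool.Agent.FHD.DensS

/-!
# FHD.RegS: for most scales the irregular tuples are rare

PROOF (`d`-dimensional version of `Pool/Agent/FHA/Reg.lean`).  Write `φ = Real.negMulLog`.
`regS_local`: let `z = densS (a + 1) u` and `z_c` its `n ^ d` children, with mean `z` (`densS_split`).
Then `n ^ d φ(z) - ∑ φ(z_c) = ∑ z_c log (z_c / z) = ∑ (z_c log (z_c / z) - z_c + z)` (terms with `z_c = 0` are `z ≥ 0`; if
`z = 0` all `z_c` are `0` and both sides are `0`).  Each term is `≥ 0`, and if `z_c > 2 z` it is at least `z_c / 6`: with `x = z_c / z ≥ 2`,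
`log x = log 2 + log (x/2) ≥ log 2 + 1 - 2/x`, so `log x - 1 + 1/x ≥ log 2 - 1/x ≥ log 2 - 1/2 ≥ 1/6`.  (The same elementary
inequality is in `FHA.Reg`.)
`regS`: let `F j = (∑_{u ∈ ∏ range (n ^ j i)} φ (densS (A - j) (U n ^ j + u))) / ∏ n ^ j i` for `j ≤ J` (all coordinates).
`F ≥ 0` as `0 ≤ densS ≤ 1`; `F j ≤ φ (densS A U)` by concavity of `φ` (`Real.concaveOn_negMulLog`, `ConcaveOn.le_map_sum`) and `densS_sum`
(`A i - j i + j i = A i`).  For `j ∈ box d J` the summand of the statement is at most `6 (F j - F (j + 1))`: apply `regS_local` with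
`a = A - (j + 1)` (`a + 1 = A - j`) and index `U n ^ j + u`, sum over `u`; the children have the indices
`(U n ^ j + u) n + c = U n ^ (j + 1) + (u n + c)`, and `(u, c) ↦ u n + c` is a bijection of `∏ range (n ^ j i) × box d n` with
`∏ range (n ^ (j i + 1))` (inverse `w ↦ (w / n, w % n)`); `∏ n ^ (j i + 1) = n ^ d ∏ n ^ j i`.
Sum over `j ∈ box d J`: `∑_{j ∈ box d J} F (j + 1) ≥ ∑_{j ∈ box d J, all j i ≥ 1} F j` (the map `j ↦ j + 1` is injective, its image contains
these `j`, and `F ≥ 0`), so `∑_j (F j - F (j + 1)) ≤ ∑_{j ∈ box d J, some j i = 0} F j ≤ ∑_i #{j ∈ box d J | j i = 0} φ = d J ^ (d-1) φ`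
(`#{j ∈ box d J | j i = 0} = J ^ (d-1)`: it is the `piFinset` with `range J` replaced by `{0}` at `i`; `J ≥ 1`).
-/

set_option autoImplicit false

namespace FHD

open Finset

variable {d : ℕ}

/-- the pointwise inequality behind `regS_local` -/
private theorem RegS_point {x z : ℝ} (hx : 0 ≤ x) (hz : 0 ≤ z) (h0 : z = 0 → x = 0) :
    0 ≤ -Real.negMulLog x - x * Real.log z - x + z ∧
      (2 * z < x → x ≤ 6 * (-Real.negMulLog x - x * Real.log z - x + z)) := by
  rcases hz.eq_or_lt with hz' | hz'
  · have h := h0 hz'.symm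
    subst h
    rw [← hz']
    simp
  rcases hx.eq_or_lt with hx' | hx'
  · rw [← hx']
    simp only [Real.negMulLog_zero, zero_mul, neg_zero, sub_zero, zero_add]
    exact ⟨hz'.le, fun h => by linarith⟩
  have ht : 0 < x / z := div_pos hx' hz'
  have e1 : -Real.negMulLog x - x * Real.log z = x * Real.log (x / z) := by
    rw [Real.negMulLog, Real.log_div hx'.ne' hz'.ne']
    ring
  have e2 : z = x * (x / z)⁻¹ := by
    field_simp
  have e3 : -Real.negMulLog x - x * Real.log z - x + z =
      x * (Real.log (x / z) - 1 + (x / z)⁻¹) := by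
    rw [e1]
    nth_rewrite 2 [e2]
    ring
  rw [e3]
  constructor
  · have h3 := Real.one_sub_inv_le_log_of_pos ht
    have h4 : 0 ≤ Real.log (x / z) - 1 + (x / z)⁻¹ := by linarith
    positivity
  · intro h
    have h2 : 0 < x / z / 2 := by positivity
    have h3 := Real.one_sub_inv_le_log_of_pos h2
    have h4 : Real.log (x / z / 2) = Real.log (x / z) - Real.log 2 :=
      Real.log_div ht.ne' (by norm_num)
    have h5 := Real.log_two_gt_d9
    have h6 : (x / z / 2)⁻¹ = 2 * (x / z)⁻¹ := by
      rw [inv_div]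
      ring
    have h7 : 2 < x / z := by
      rw [lt_div_iff₀ hz']
      linarith
    have h8 : (x / z)⁻¹ ≤ 1 / 2 := by
      rw [← one_div]
      exact one_div_le_one_div_of_le (by norm_num) h7.le
    have h9 : 1 / 6 ≤ Real.log (x / z) - 1 + (x / z)⁻¹ := by
      rw [h4, h6] at h3
      linarith
    nlinarith

theorem regS_local {n : ℕ} (hn : 1 ≤ n) (S : Finset (Fin d → ℕ)) (a u : Fin d → ℕ) :
    irrS n S a u ≤ 6 * (Real.negMulLog (densS n S (fun i => a i + 1) u) -
      (∑ c ∈ box d n, Real.negMulLog (densS n S a (fun i => u i * n + c i))) / (n : ℝ) ^ d) := by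
  have hn' : (0 : ℝ) < n := by exact_mod_cast hn
  have hn2 : (0 : ℝ) < (n : ℝ) ^ d := by positivity
  set z := densS n S (fun i => a i + 1) u with hz
  have hz0 : 0 ≤ z := densS_nonneg _ _ _ _
  have hs := densS_split hn S a u
  rw [← hz] at hs
  have hcard : (#(box d n) : ℝ) = (n : ℝ) ^ d := by
    unfold box
    rw [Fintype.card_piFinset]
    simp
  have hzero : z = 0 → ∀ c ∈ box d n, densS n S a (fun i => u i * n + c i) = 0 := by
    intro h c hc
    rw [h, mul_zero] at hs
    exact (Finset.sum_eq_zero_iff_of_nonneg (fun c _ =>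
      densS_nonneg n S a (fun i => u i * n + c i))).1 hs c hc
  have key : ∑ c ∈ box d n, 6 * (-Real.negMulLog (densS n S a (fun i => u i * n + c i)) -
          densS n S a (fun i => u i * n + c i) * Real.log z -
          densS n S a (fun i => u i * n + c i) + z) =
      6 * ((n : ℝ) ^ d * Real.negMulLog z -
        ∑ c ∈ box d n, Real.negMulLog (densS n S a (fun i => u i * n + c i))) := by
    simp only [← Finset.mul_sum, Finset.sum_add_distrib, Finset.sum_sub_distrib,
      ← Finset.sum_mul, Finset.sum_neg_distrib]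
    rw [hs, Finset.sum_const, nsmul_eq_mul, hcard, Real.negMulLog]
    ring
  unfold irrS
  rw [div_le_iff₀ hn2]
  refine (Finset.sum_le_sum (g := fun c => 6 * (-Real.negMulLog (densS n S a (fun i => u i * n + c i)) -
          densS n S a (fun i => u i * n + c i) * Real.log z -
          densS n S a (fun i => u i * n + c i) + z)) fun c hc => ?_).trans ?_
  · have h := RegS_point (densS_nonneg n S a (fun i => u i * n + c i)) hz0
      (fun h => hzero h c hc)
    split_ifs with h1
    · exact h.2 h1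
    · linarith [h.1]
  · rw [key]
    refine le_of_eq ?_
    field_simp

/-- the entropy at depth `j` -/
private noncomputable def RegS_F (n : ℕ) (S : Finset (Fin d → ℕ)) (A U j : Fin d → ℕ) : ℝ :=
  (∑ u ∈ Fintype.piFinset (fun i => range (n ^ j i)),
    Real.negMulLog (densS n S (fun i => A i - j i) (fun i => U i * n ^ j i + u i))) /
      ∏ i, (n : ℝ) ^ j i

private theorem RegS_F_nonneg {n : ℕ} (hn : 1 ≤ n) (S : Finset (Fin d → ℕ)) (A U j : Fin d → ℕ) :
    0 ≤ RegS_F n S A U j := by
  unfold RegS_F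
  refine div_nonneg (Finset.sum_nonneg fun u _ => ?_)
    (Finset.prod_nonneg fun i _ => by positivity)
  exact Real.negMulLog_nonneg (densS_nonneg _ _ _ _) (densS_le_one hn _ _ _)

private theorem RegS_F_le {n : ℕ} (hn : 1 ≤ n) (S : Finset (Fin d → ℕ)) (A U j : Fin d → ℕ)
    (hj : ∀ i, j i ≤ A i) :
    RegS_F n S A U j ≤ Real.negMulLog (densS n S A U) := by
  have hn' : (0 : ℝ) < n := by exact_mod_cast hn
  have hc : (0 : ℝ) < ∏ i, (n : ℝ) ^ j i := Finset.prod_pos fun i _ => pow_pos hn' _
  have hcard : (#(Fintype.piFinset fun i => range (n ^ j i)) : ℝ) = ∏ i, (n : ℝ) ^ j i := by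
    rw [Fintype.card_piFinset]
    simp
  set c : ℝ := ∏ i, (n : ℝ) ^ j i with hcdef
  have hJ := Real.concaveOn_negMulLog.le_map_sum (t := Fintype.piFinset fun i => range (n ^ j i))
    (w := fun _ => c⁻¹)
    (p := fun u => densS n S (fun i => A i - j i) (fun i => U i * n ^ j i + u i))
    (fun _ _ => by positivity)
    (by
      rw [Finset.sum_const, nsmul_eq_mul, hcard]
      exact mul_inv_cancel₀ hc.ne')
    (fun u _ => densS_nonneg _ _ _ _)
  simp only [smul_eq_mul] at hJ
  have hA : (fun i => A i - j i + j i) = A := by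
    funext i
    exact Nat.sub_add_cancel (hj i)
  rw [← Finset.mul_sum, ← Finset.mul_sum, densS_sum hn, hA, ← hcdef, ← mul_assoc,
    inv_mul_cancel₀ hc.ne', one_mul] at hJ
  unfold RegS_F
  rw [← hcdef, div_eq_inv_mul]
  exact hJ

private theorem RegS_digits {n : ℕ} (hn : 1 ≤ n) (m : Fin d → ℕ) (f : (Fin d → ℕ) → ℝ) :
    ∑ w ∈ Fintype.piFinset (fun i => range (m i * n)), f w =
      ∑ u ∈ Fintype.piFinset (fun i => range (m i)), ∑ c ∈ box d n, f (fun i => u i * n + c i) := by
  rw [← Finset.sum_product']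
  symm
  refine Finset.sum_nbij' (fun q i => q.1 i * n + q.2 i)
    (fun w => (fun i => w i / n, fun i => w i % n)) ?_ ?_ ?_ ?_ ?_
  · rintro ⟨u, c⟩ h
    simp only [box, Finset.mem_product, Fintype.mem_piFinset, Finset.mem_range] at h ⊢
    intro i
    have h1 := h.1 i
    have h2 := h.2 i
    calc u i * n + c i < u i * n + n := by omega
      _ = (u i + 1) * n := by ring
      _ ≤ m i * n := Nat.mul_le_mul_right _ h1
  · intro w h
    simp only [box, Finset.mem_product, Fintype.mem_piFinset, Finset.mem_range] at h ⊢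
    exact ⟨fun i => Nat.div_lt_of_lt_mul (by rw [mul_comm]; exact h i),
      fun i => Nat.mod_lt _ hn⟩
  · rintro ⟨u, c⟩ h
    simp only [box, Finset.mem_product, Fintype.mem_piFinset, Finset.mem_range] at h
    simp only [Prod.mk.injEq]
    constructor
    · funext i
      rw [Nat.add_comm, Nat.add_mul_div_right _ _ hn, Nat.div_eq_of_lt (h.2 i), Nat.zero_add]
    · funext i
      rw [Nat.add_comm, Nat.add_mul_mod_self_right, Nat.mod_eq_of_lt (h.2 i)]
  · intro w _
    funext i
    simp only
    rw [mul_comm]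
    exact Nat.div_add_mod _ _
  · intro q _
    rfl

private theorem RegS_F_step {n : ℕ} (hn : 1 ≤ n) (S : Finset (Fin d → ℕ)) (A U j : Fin d → ℕ)
    (hj : ∀ i, j i + 1 ≤ A i) :
    (∑ u ∈ Fintype.piFinset (fun i => range (n ^ j i)),
      irrS n S (fun i => A i - (j i + 1)) (fun i => U i * n ^ j i + u i)) / ∏ i, (n : ℝ) ^ j i ≤
      6 * (RegS_F n S A U j - RegS_F n S A U (fun i => j i + 1)) := by
  have hn' : (0 : ℝ) < n := by exact_mod_cast hn
  have hc : (0 : ℝ) < ∏ i, (n : ℝ) ^ j i := Finset.prod_pos fun i _ => pow_pos hn' _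
  have hA : (fun i => A i - (j i + 1) + 1) = fun i => A i - j i := by
    funext i
    have := hj i
    omega
  have h1 : ∑ u ∈ Fintype.piFinset (fun i => range (n ^ j i)),
        irrS n S (fun i => A i - (j i + 1)) (fun i => U i * n ^ j i + u i) ≤
      ∑ u ∈ Fintype.piFinset (fun i => range (n ^ j i)),
        6 * (Real.negMulLog (densS n S (fun i => A i - j i) (fun i => U i * n ^ j i + u i)) -
          (∑ c ∈ box d n, Real.negMulLog (densS n S (fun i => A i - (j i + 1))
            (fun i => (U i * n ^ j i + u i) * n + c i))) / (n : ℝ) ^ d) := by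
    refine Finset.sum_le_sum fun u _ => ?_
    have := regS_local hn S (fun i => A i - (j i + 1)) (fun i => U i * n ^ j i + u i)
    rw [hA] at this
    exact this
  have h2 : ∑ w ∈ Fintype.piFinset (fun i => range (n ^ (j i + 1))),
      Real.negMulLog (densS n S (fun i => A i - (j i + 1)) (fun i => U i * n ^ (j i + 1) + w i)) =
      ∑ u ∈ Fintype.piFinset (fun i => range (n ^ j i)), ∑ c ∈ box d n,
        Real.negMulLog (densS n S (fun i => A i - (j i + 1))
            (fun i => (U i * n ^ j i + u i) * n + c i)) := by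
    have e : (fun i => range (n ^ (j i + 1))) = fun i : Fin d => range (n ^ j i * n) := by
      funext i
      rw [pow_succ]
    rw [e, RegS_digits hn]
    refine Finset.sum_congr rfl fun u _ => Finset.sum_congr rfl fun c _ => ?_
    congr 2
    funext i
    rw [pow_succ]
    ring
  have hp : ∏ i, (n : ℝ) ^ (j i + 1) = (n : ℝ) ^ d * ∏ i, (n : ℝ) ^ j i := by
    simp only [pow_succ]
    rw [Finset.prod_mul_distrib, mul_comm]
    simp
  have h3 : RegS_F n S A U (fun i => j i + 1) =
      ((∑ u ∈ Fintype.piFinset (fun i => range (n ^ j i)), ∑ c ∈ box d n,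
        Real.negMulLog (densS n S (fun i => A i - (j i + 1))
            (fun i => (U i * n ^ j i + u i) * n + c i))) / (n : ℝ) ^ d) /
        ∏ i, (n : ℝ) ^ j i := by
    unfold RegS_F
    rw [h2, div_div, hp]
  rw [div_le_iff₀ hc]
  refine h1.trans (le_of_eq ?_)
  rw [h3]
  unfold RegS_F
  simp only [← Finset.mul_sum, Finset.sum_sub_distrib, ← Finset.sum_div]
  field_simp

private theorem RegS_card (J : ℕ) (i : Fin d) :
    #((box d J).filter fun j => j i = 0) ≤ J ^ (d - 1) := by
  classical
  have h1 : (box d J).filter (fun j => j i = 0) ⊆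
      Fintype.piFinset (fun l => if l = i then {0} else range J) := by
    intro j hj
    rw [Finset.mem_filter, box, Fintype.mem_piFinset] at hj
    rw [Fintype.mem_piFinset]
    intro l
    split_ifs with h
    · rw [h, hj.2]
      exact Finset.mem_singleton_self _
    · exact hj.1 l
  refine (Finset.card_le_card h1).trans (le_of_eq ?_)
  rw [Fintype.card_piFinset, ← Finset.mul_prod_erase univ _ (Finset.mem_univ i)]
  have h2 : ∀ l ∈ univ.erase i, #(if l = i then ({0} : Finset ℕ) else range J) = J := by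
    intro l hl
    rw [if_neg (Finset.ne_of_mem_erase hl), Finset.card_range]
  rw [Finset.prod_congr rfl h2, Finset.prod_const, if_pos rfl, Finset.card_singleton, one_mul,
    Finset.card_erase_of_mem (Finset.mem_univ i), Finset.card_univ, Fintype.card_fin]

theorem regS {n : ℕ} (hn : 1 ≤ n) (S : Finset (Fin d → ℕ)) {J : ℕ} (hJ : 1 ≤ J) (A U : Fin d → ℕ)
    (hA : ∀ i, J ≤ A i) :
    ∑ j ∈ box d J, (∑ u ∈ Fintype.piFinset (fun i => range (n ^ j i)),
      irrS n S (fun i => A i - (j i + 1)) (fun i => U i * n ^ j i + u i)) / ∏ i, (n : ℝ) ^ j i ≤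
      6 * d * (J : ℝ) ^ (d - 1) * Real.negMulLog (densS n S A U) := by
  classical
  have _ := hJ
  set φ := Real.negMulLog (densS n S A U) with hφ
  set F := RegS_F n S A U with hF
  have hφ0 : 0 ≤ φ := Real.negMulLog_nonneg (densS_nonneg _ _ _ _) (densS_le_one hn _ _ _)
  have hF0 : ∀ j, 0 ≤ F j := fun j => RegS_F_nonneg hn S A U j
  have hlt : ∀ j ∈ box d J, ∀ i, j i < J := fun j hj i =>
    Finset.mem_range.1 (Fintype.mem_piFinset.1 hj i)
  have hF1 : ∀ j ∈ box d J, F j ≤ φ := fun j hj =>
    RegS_F_le hn S A U j fun i => (hlt j hj i).le.trans (hA i)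
  have h1 : ∑ j ∈ box d J, (∑ u ∈ Fintype.piFinset (fun i => range (n ^ j i)),
      irrS n S (fun i => A i - (j i + 1)) (fun i => U i * n ^ j i + u i)) / ∏ i, (n : ℝ) ^ j i ≤
      ∑ j ∈ box d J, 6 * (F j - F (fun i => j i + 1)) := by
    refine Finset.sum_le_sum fun j hj => ?_
    exact RegS_F_step hn S A U j fun i => (Nat.succ_le_of_lt (hlt j hj i)).trans (hA i)
  refine h1.trans ?_
  rw [← Finset.mul_sum, Finset.sum_sub_distrib]
  have h2 : ∑ j ∈ (box d J).filter (fun j => ∀ i, 1 ≤ j i), F j ≤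
      ∑ j ∈ box d J, F (fun i => j i + 1) := by
    have e : ∑ j ∈ box d J, F (fun i => j i + 1) =
        ∑ w ∈ (box d J).image (fun j i => j i + 1), F w := by
      rw [Finset.sum_image]
      intro x _ y _ h
      funext i
      have := congrFun h i
      simpa using this
    rw [e]
    refine Finset.sum_le_sum_of_subset_of_nonneg ?_ (fun w _ _ => hF0 w)
    intro w hw
    rw [Finset.mem_filter] at hw
    rw [Finset.mem_image]
    refine ⟨fun i => w i - 1, ?_, ?_⟩
    · rw [box, Fintype.mem_piFinset]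
      intro i
      have := hlt w hw.1 i
      rw [Finset.mem_range]
      omega
    · funext i
      have := hw.2 i
      show w i - 1 + 1 = w i
      omega
  have h3 : ∑ j ∈ box d J, F j = ∑ j ∈ (box d J).filter (fun j => ∀ i, 1 ≤ j i), F j +
      ∑ j ∈ (box d J).filter (fun j => ¬ ∀ i, 1 ≤ j i), F j :=
    (Finset.sum_filter_add_sum_filter_not _ _ _).symm
  have h4 : ∑ j ∈ (box d J).filter (fun j => ¬ ∀ i, 1 ≤ j i), F j ≤
      ∑ i : Fin d, ∑ j ∈ (box d J).filter (fun j => j i = 0), F j := by
    have e : ∑ i : Fin d, ∑ j ∈ (box d J).filter (fun j => j i = 0), F j =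
        ∑ j ∈ box d J, ∑ i : Fin d, if j i = 0 then F j else 0 := by
      rw [Finset.sum_comm]
      exact Finset.sum_congr rfl fun i _ => Finset.sum_filter _ _
    rw [e, Finset.sum_filter]
    refine Finset.sum_le_sum fun j _ => ?_
    have hnn : ∀ i ∈ (univ : Finset (Fin d)), 0 ≤ (if j i = 0 then F j else 0) := by
      intro i _
      split_ifs
      · exact hF0 j
      · exact le_refl _
    by_cases h : ∀ i, 1 ≤ j i
    · rw [if_neg (not_not.2 h)]
      exact Finset.sum_nonneg hnn
    · rw [if_pos h]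
      push Not at h
      obtain ⟨i, hi⟩ := h
      have hi0 : j i = 0 := by omega
      refine le_trans (le_of_eq ?_) (Finset.single_le_sum hnn (Finset.mem_univ i))
      rw [if_pos hi0]
  have h5 : ∀ i : Fin d, ∑ j ∈ (box d J).filter (fun j => j i = 0), F j ≤
      (J : ℝ) ^ (d - 1) * φ := by
    intro i
    calc ∑ j ∈ (box d J).filter (fun j => j i = 0), F j
        ≤ ∑ j ∈ (box d J).filter (fun j => j i = 0), φ :=
          Finset.sum_le_sum fun j hj => hF1 j (Finset.mem_filter.1 hj).1
      _ = (#((box d J).filter fun j => j i = 0) : ℝ) * φ := by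
          rw [Finset.sum_const, nsmul_eq_mul]
      _ ≤ (J : ℝ) ^ (d - 1) * φ := by
          refine mul_le_mul_of_nonneg_right ?_ hφ0
          exact_mod_cast RegS_card J i
  have h6 : ∑ i : Fin d, ∑ j ∈ (box d J).filter (fun j => j i = 0), F j ≤
      d * ((J : ℝ) ^ (d - 1) * φ) := by
    refine (Finset.sum_le_sum fun i _ => h5 i).trans (le_of_eq ?_)
    rw [Finset.sum_const, Finset.card_univ, Fintype.card_fin, nsmul_eq_mul]
  have h7 : ∑ j ∈ box d J, F j - ∑ j ∈ box d J, F (fun i => j i + 1) ≤
      d * ((J : ℝ) ^ (d - 1) * φ) := by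
    linarith
  calc 6 * (∑ j ∈ box d J, F j - ∑ j ∈ box d J, F (fun i => j i + 1))
      ≤ 6 * (d * ((J : ℝ) ^ (d - 1) * φ)) := by linarith
    _ = 6 * d * (J : ℝ) ^ (d - 1) * φ := by ring

end FHD
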