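import Pool.Agent.FHD.WinB
import Pool.Agent.FHD.MeasD
import Pool.Agent.FHD.Lines

/-!
# FHD.Row: a set with large fibres contains the pattern

PROOF.  Let `c0` be the constant of `window d hd` and `c = max (2 c0) (4 d^2)`.  Let `n = κ Q = 8 d m`, `σ = D ^ (8 m)`, `D ^ n = σ ^ d`; `m ≥ 1` because `κ Q ≥ 1`.
(1) PRUNING.  Let `ℓ` be the least natural number with `σ ≤ 4 d^2 ℓ`; `ℓ ≥ 1` and `4 d^2 (ℓ - 1) < σ`.  `#(proj i S) ≤ (D ^ n) ^ (d-1) = σ ^ (d (d-1))` (the image is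
contained in the `piFinset` with `{0}` at `i` and `range (D ^ n)` elsewhere).  So
`4 d (ℓ - 1) ∑_i #(proj i S) ≤ 4 d^2 (ℓ - 1) σ ^ (d (d-1)) < σ ^ (d (d-1) + 1) = σ ^ d * σ ^ ((d-1)(d-1)) ≤ 4 d #S` (`d (d-1) + 1 = d + (d-1)(d-1)`), and `prune`
gives a nonempty `Ω ⊆ S` all of whose lines have at least `ℓ` points.
(2) `4 d ((2 α^2)^n D^m) ≤ ℓ`: `4 d^2 * 4 d (2 α^2)^n D^m = 16 d^3 ((2 α^2)^(8 d))^m D^m ≤ 16 d^3 D^m D^m ≤ D^(8 m) = σ ≤ 4 d^2 ℓ`, since `16 d^3 ≤ D^(6 m)`: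
`D ≥ (2 α^2)^(8 d) ≥ 2^(8 d)` (`α ≥ 1`), `d ≤ 2^d`.
(3) `window` (with this `Ω`; `c0 ≤ α` since `c N0 ≤ α`, `N0 ≥ 1`) gives `ρ`, `Bp`, `Bs`, `e`, `v`.  `ρ i a ≤ c0 / α`, so `2 N0 ρ i a ≤ 2 N0 c0 / α ≤ 1`.
`c log D ≤ Q` gives `c0 log D / n ≤ (c0/c) / κ ≤ 1/κ`; hence `4 d^2 ∑_{Bp i l} ≤ 4 d^2 / κ ≤ η` (`c ≤ η κ`, `4 d^2 ≤ c`) and
`4 ∑_{Bs} ≤ 4 c0 log D / (n κ) ≤ 4 / κ^2 ≤ η'` (`c ≤ η' κ^2`, `4 ≤ c`).
(4) `measD` gives `a`.  For every point `j` the tuple `(a i (π i j))_i` satisfies the hypotheses of the last statement of `window`, so there is `w j ∈ Ω` with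
`w j i / D ^ (e i) = v i * D + a i (π i j)`.  Put `a' i x = w ((π i).symm x) i`: `a' i x / D ^ (e i) = v i * D + a i x` is strictly increasing in `x`, so `a' i`
is strictly increasing, and `(a' i (π i j))_i = w j ∈ Ω ⊆ S`.
-/

set_option autoImplicit false

namespace FHD

open Finset

private theorem Row_proj_card {d N : ℕ} (S : Finset (Fin d → ℕ)) (hS : S ⊆ box d N) (i : Fin d) :
    #(proj i S) ≤ N ^ (d - 1) := by
  classical
  have hsub : proj i S ⊆ Fintype.piFinset (fun j : Fin d => if j = i then ({0} : Finset ℕ) else range N) := by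
    intro v hv
    unfold proj at hv
    rw [mem_image] at hv
    obtain ⟨w, hw, rfl⟩ := hv
    rw [Fintype.mem_piFinset]
    intro j
    by_cases hj : j = i
    · subst hj
      simp
    · rw [if_neg hj, Function.update_of_ne hj]
      have := hS hw
      unfold box at this
      exact Fintype.mem_piFinset.1 this j
  refine (card_le_card hsub).trans ?_
  rw [Fintype.card_piFinset]
  have h1 : ∀ j : Fin d, #(if j = i then ({0} : Finset ℕ) else range N) = if j = i then 1 else N := by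
    intro j
    split_ifs <;> simp
  simp only [h1]
  rw [Finset.prod_ite]
  simp only [Finset.prod_const_one, one_mul, Finset.prod_const]
  rw [Finset.filter_ne', card_erase_of_mem (mem_univ i), card_univ, Fintype.card_fin]

private theorem Row_arith {d D α m n : ℕ} (hd : 2 ≤ d) (hα : 1 ≤ α) (hm : 1 ≤ m) (hn : n = 8 * d * m)
    (hD : (2 * α ^ 2) ^ (8 * d) ≤ D) :
    4 * d ^ 2 * (4 * d * ((2 * α ^ 2) ^ n * D ^ m)) ≤ D ^ (8 * m) := by
  have h2 : 2 ≤ 2 * α ^ 2 := by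
    have : 1 ≤ α ^ 2 := Nat.one_le_pow _ _ hα
    omega
  have hD2 : 2 ^ (8 * d) ≤ D := (Nat.pow_le_pow_left h2 _).trans hD
  have hD1 : 1 ≤ D := le_trans (Nat.one_le_pow _ _ (by norm_num)) hD2
  have h3 : (2 * α ^ 2) ^ n ≤ D ^ m := by
    rw [hn, pow_mul]
    exact Nat.pow_le_pow_left hD _
  have hdd : d ≤ 2 ^ d := Nat.lt_two_pow_self.le
  have h4 : 16 * d ^ 3 ≤ D := by
    calc 16 * d ^ 3 ≤ 2 ^ (5 * d) * (2 ^ d) ^ 3 := by
          refine Nat.mul_le_mul ?_ (Nat.pow_le_pow_left hdd 3)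
          calc 16 = 2 ^ 4 := by norm_num
            _ ≤ 2 ^ (5 * d) := Nat.pow_le_pow_right (by norm_num) (by omega)
      _ = 2 ^ (8 * d) := by rw [← pow_mul, ← pow_add]; congr 1; ring
      _ ≤ D := hD2
  have h5 : D ≤ D ^ (6 * m) := by
    calc D = D ^ 1 := (pow_one D).symm
      _ ≤ D ^ (6 * m) := Nat.pow_le_pow_right hD1 (by omega)
  calc 4 * d ^ 2 * (4 * d * ((2 * α ^ 2) ^ n * D ^ m))
      = (16 * d ^ 3) * ((2 * α ^ 2) ^ n * D ^ m) := by ring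
    _ ≤ D ^ (6 * m) * (D ^ m * D ^ m) :=
        Nat.mul_le_mul (h4.trans h5) (Nat.mul_le_mul_right _ h3)
    _ = D ^ (8 * m) := by rw [← pow_add, ← pow_add]; congr 1; ring

private theorem Row_prune {d n m D : ℕ} (hd : 2 ≤ d) (hD : 1 ≤ D) (hn : n = 8 * d * m)
    (S : Finset (Fin d → ℕ)) (hS : S ⊆ box d (D ^ n))
    (hc : D ^ n * (D ^ (8 * m)) ^ ((d - 1) * (d - 1)) ≤ 4 * d * #S) :
    ∃ Ω ⊆ S, Ω.Nonempty ∧ ∀ z ∈ Ω, ∀ i, D ^ (8 * m) ≤ 4 * d ^ 2 * #(line Ω i z) := by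
  set σ := D ^ (8 * m) with hσ
  have hσ1 : 1 ≤ σ := Nat.one_le_pow _ _ hD
  set b := 4 * d ^ 2 with hb
  have hb1 : 0 < b := by positivity
  set l := (σ - 1) / b + 1 with hl
  have hl1 : σ ≤ b * l := by
    have h1 := Nat.div_add_mod (σ - 1) b
    have h2 := Nat.mod_lt (σ - 1) hb1
    have h3 : b * l = b * ((σ - 1) / b) + b := by rw [hl]; ring
    omega
  have hl2 : b * (l - 1) < σ := by
    have h1 := Nat.mul_div_le (σ - 1) b
    have h3 : l - 1 = (σ - 1) / b := by rw [hl]; exact Nat.add_sub_cancel _ _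
    rw [h3]
    omega
  have hDn : D ^ n = σ ^ d := by
    rw [hσ, ← pow_mul, hn]; congr 1; ring
  have hsum : ∑ i, #(proj i S) ≤ d * σ ^ (d * (d - 1)) := by
    calc ∑ i, #(proj i S) ≤ ∑ _i : Fin d, (D ^ n) ^ (d - 1) :=
          sum_le_sum fun i _ => Row_proj_card S hS i
      _ = d * σ ^ (d * (d - 1)) := by
          rw [sum_const, card_univ, Fintype.card_fin, smul_eq_mul, hDn, ← pow_mul]
  have hexp : σ * σ ^ (d * (d - 1)) = σ ^ d * σ ^ ((d - 1) * (d - 1)) := by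
    obtain ⟨e, rfl⟩ : ∃ e, d = e + 1 := ⟨d - 1, by omega⟩
    simp only [Nat.add_sub_cancel]
    rw [← pow_succ', ← pow_add]
    congr 1
    ring
  have hpos : 0 < σ ^ (d * (d - 1)) := pow_pos hσ1 _
  have hlt : (l - 1) * ∑ i, #(proj i S) < #S := by
    have h4d : 0 < 4 * d := by omega
    refine Nat.lt_of_mul_lt_mul_left (a := 4 * d) ?_
    calc 4 * d * ((l - 1) * ∑ i, #(proj i S)) ≤ 4 * d * ((l - 1) * (d * σ ^ (d * (d - 1)))) :=
          Nat.mul_le_mul_left _ (Nat.mul_le_mul_left _ hsum)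
      _ = (b * (l - 1)) * σ ^ (d * (d - 1)) := by rw [hb]; ring
      _ < σ * σ ^ (d * (d - 1)) := Nat.mul_lt_mul_of_pos_right hl2 hpos
      _ = D ^ n * σ ^ ((d - 1) * (d - 1)) := by rw [hexp, hDn]
      _ ≤ 4 * d * #S := hc
  obtain ⟨Ω, hΩ, hne, hlines⟩ := prune S l hlt
  exact ⟨Ω, hΩ, hne, fun z hz i => hl1.trans (Nat.mul_le_mul_left _ (hlines z hz i))⟩

theorem row (d : ℕ) (hd : 2 ≤ d) : ∃ c : ℝ, 1 ≤ c ∧ ∀ (k D κ Q α m N0 : ℕ) (π : Fin d → Equiv.Perm (Fin k))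
    (η η' : ℝ), 0 < η → 0 < η' → 1 ≤ N0 → PlD π N0 η η' → 2 ≤ D → 1 ≤ κ → 1 ≤ Q → κ * Q = 8 * d * m →
    c * N0 ≤ α → c * Real.log D ≤ Q → c ≤ η * κ → c ≤ η' * κ ^ 2 → (2 * α ^ 2) ^ (8 * d) ≤ D →
    ∀ S ⊆ box d (D ^ (κ * Q)),
      D ^ (κ * Q) * (D ^ (8 * m)) ^ ((d - 1) * (d - 1)) ≤ 4 * d * #S → Has π S := by
  obtain ⟨c0, hc0, hwin⟩ := window d hd
  have hd2 : (2 : ℝ) ≤ d := by exact_mod_cast hd
  have hdsq : (4 : ℝ) ≤ 4 * (d : ℝ) ^ 2 := by nlinarith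
  refine ⟨max (2 * c0) (4 * (d : ℝ) ^ 2), le_trans (by linarith) (le_max_right _ _), ?_⟩
  intro k D κ Q α m N0 π η η' hη hη' hN0 hpl hD hκ hQ hκQ hα hlog hηκ hη'κ hDα S hS hcard
  obtain ⟨c, hc⟩ : ∃ c : ℝ, c = max (2 * c0) (4 * (d : ℝ) ^ 2) := ⟨_, rfl⟩
  rw [← hc] at hα hlog hηκ hη'κ
  have hc1 : 2 * c0 ≤ c := by rw [hc]; exact le_max_left _ _
  have hc2 : 4 * (d : ℝ) ^ 2 ≤ c := by rw [hc]; exact le_max_right _ _
  have hc00 : c0 ≤ c := by linarith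
  have hN0r : (1 : ℝ) ≤ N0 := by exact_mod_cast hN0
  have hcN : c ≤ c * N0 := by nlinarith
  have hcα : c ≤ α := hcN.trans hα
  have hαr : (0 : ℝ) < α := by linarith
  have hα1 : 1 ≤ α := by
    have : (0 : ℝ) < α := hαr
    exact_mod_cast this
  have hκr : (0 : ℝ) < κ := by exact_mod_cast hκ
  have hQr : (0 : ℝ) < Q := by exact_mod_cast hQ
  have hlogD : 0 ≤ Real.log D := Real.log_natCast_nonneg D
  have hm : 1 ≤ m := by
    rcases Nat.eq_zero_or_pos m with h | h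
    · subst h
      have h1 : 0 < κ * Q := Nat.mul_pos hκ hQ
      rw [hκQ, mul_zero] at h1
      exact absurd h1 (lt_irrefl _)
    · exact h
  obtain ⟨Ω, hΩS, hΩne, hlines⟩ := Row_prune (n := κ * Q) hd (by omega) hκQ S hS hcard
  have hbnd : ∀ z ∈ Ω, ∀ i, z i < D ^ (κ * Q) := by
    intro z hz i
    have h1 := hS (hΩS hz)
    unfold box at h1
    exact Finset.mem_range.1 (Fintype.mem_piFinset.1 h1 i)
  have hll : ∀ z ∈ Ω, ∀ i, 4 * d * ((2 * α ^ 2) ^ (κ * Q) * D ^ m) ≤ #(line Ω i z) := by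
    intro z hz i
    have h1 := Row_arith hd hα1 hm hκQ hDα
    have h2 := h1.trans (hlines z hz i)
    exact Nat.le_of_mul_le_mul_left h2 (by positivity)
  have hlog0 : c0 * Real.log D ≤ Q := le_trans (mul_le_mul_of_nonneg_right hc00 hlogD) hlog
  obtain ⟨ρ, Bp, Bs, e, v, hρ0, hρ1, hρa, hBp, hBs, hpairs, htup, hfin⟩ :=
    hwin D (κ * Q) κ Q α m Ω hΩne hD hα1 hκ hQ rfl hκQ (hc00.trans hcα) hlog0 hbnd hll
  have hkey : c0 * Real.log D / ((κ * Q : ℕ) : ℝ) ≤ 1 / κ := by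
    push_cast
    rw [div_le_div_iff₀ (by positivity) hκr]
    nlinarith
  have ha : ∀ i x, 2 * (N0 : ℝ) * ρ i x ≤ 1 := by
    intro i x
    have h1 := hρa i x
    have h2 : 2 * (N0 : ℝ) * (c0 / α) ≤ 1 := by
      rw [← mul_div_assoc, div_le_one hαr]
      nlinarith
    have h3 : 2 * (N0 : ℝ) * ρ i x ≤ 2 * (N0 : ℝ) * (c0 / α) :=
      mul_le_mul_of_nonneg_left h1 (by positivity)
    linarith
  have hp : ∀ i l, i < l → 4 * (d : ℝ) ^ 2 * ∑ x ∈ Bp i l, ρ i x.1 * ρ l x.2 ≤ η := by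
    intro i l hil
    have h1 := (hpairs i l hil).trans hkey
    have h2 : 4 * (d : ℝ) ^ 2 * (1 / κ) ≤ η := by
      rw [mul_one_div, div_le_iff₀ hκr]
      linarith
    have h3 : 4 * (d : ℝ) ^ 2 * ∑ x ∈ Bp i l, ρ i x.1 * ρ l x.2 ≤ 4 * (d : ℝ) ^ 2 * (1 / κ) :=
      mul_le_mul_of_nonneg_left h1 (by positivity)
    linarith
  have hs : 4 * ∑ a ∈ Bs, ∏ i, ρ i (a i) ≤ η' := by
    have h1 : c0 * Real.log D / (((κ * Q : ℕ) : ℝ) * κ) ≤ 1 / κ ^ 2 := by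
      have h2 : c0 * Real.log D / (((κ * Q : ℕ) : ℝ) * κ) =
          c0 * Real.log D / ((κ * Q : ℕ) : ℝ) / κ := by rw [div_div]
      rw [h2]
      calc c0 * Real.log D / ((κ * Q : ℕ) : ℝ) / κ ≤ 1 / κ / κ :=
            div_le_div_of_nonneg_right hkey hκr.le
        _ = 1 / κ ^ 2 := by rw [div_div, sq]
    have h3 := htup.trans h1
    have h4 : 4 * (1 / (κ : ℝ) ^ 2) ≤ η' := by
      rw [mul_one_div, div_le_iff₀ (by positivity)]
      linarith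
    linarith
  obtain ⟨a, hamono, haD, hapos, hav⟩ := measD hd π hη hη' hN0 hpl ρ hρ0 hρ1 ha Bp hBp Bs hBs hp hs
  have hex : ∀ j : Fin k, ∃ w ∈ Ω, ∀ i, w i / D ^ (e i) = v i * D + a i (π i j) := fun j =>
    hfin (fun i => a i (π i j)) (fun i => haD i _) (fun i => hapos i _)
      (fun i l hil => (hav j).1 i l hil) (hav j).2
  choose w hwΩ hw using hex
  refine ⟨fun i x => w ((π i).symm x) i, ?_, ?_⟩
  · intro i x y hxy
    have h1 := hw ((π i).symm x) i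
    have h2 := hw ((π i).symm y) i
    rw [Equiv.apply_symm_apply] at h1 h2
    have h3 := hamono i hxy
    by_contra hcon
    have h4 : w ((π i).symm y) i ≤ w ((π i).symm x) i := not_lt.1 hcon
    have h5 : w ((π i).symm y) i / D ^ (e i) ≤ w ((π i).symm x) i / D ^ (e i) :=
      Nat.div_le_div_right h4
    rw [h1, h2] at h5
    omega
  · intro j
    have h1 : (fun i => w ((π i).symm (π i j)) i) = w j := by
      funext i
      rw [Equiv.symm_apply_apply]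
    rw [h1]
    exact hΩS (hwΩ j)

end FHD
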