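import Pool.Agent.FHA.Lll

/-!
# FHD.SelD: the selection lemma with an additional linear functional

Variables `x v ∈ Ω`, `v ∈ V`; nonnegative symmetric pair functions `Ψ v w (x v) (x w)` whose mean values have row sums at most `1`;
functions `R j` of `d` different variables `x (r j i)`, `i : Fin d`, whose mean values have sum at most `1`.  Then one can choose
the `x v` such that all row sums of the `Ψ v w (x v) (x w)` are at most `16 (t + 1)`, `4 |V| < 2 ^ t`, and the sum of the `R j` is at most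
`2 * 4 ^ d`.  (`o` is an orientation: of the events `(v,w)`, `(w,v)` only one is used.)

PROOF.  Copy the part of `Pool/Agent/FHA/Sel.lean` up to `Sel_gen` (private lemmas; rename them `SelD_...`) and change the end of the proof of
`Sel_gen`.  Let `L v = Sel_L Ψ v` be the lists (at least half of `Ω`, `Sel_L_half`), `P = Fintype.piFinset L`, `G = goodS L (Sel_Bad Ψ o)`, nonempty.
For `x : V → Ω` put
`W x = ∑_v (∏_w (1 + Sel_psi (Ψ v w (x v) (x w)))) / exp (t + 1) + (∑_j R j (fun i => x (r j i))) / (2 * 4 ^ d)`.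
(1) `∑_{x ∈ G} ∏_w (1 + Sel_psi ..) ≤ 5 |G|` (`Sel_good_expo`, `Sel_exp_num`), and `5 |V| < exp (t + 1) / 2` because
`5/2 * 2 ^ t ≤ exp (t + 1)` and `4 |V| < 2 ^ t`.
(2) For every `j`: `∑_{x ∈ G} R j (fun i => x (r j i)) ≤ |G| * 4 ^ d * (∑_ξ R j ξ) / |Ω| ^ d`: by `lll` with `T = image (r j) univ`, `|T| = d` (`hr`),
`(∑_{x ∈ G} R j ..) * |P| ≤ 2 ^ d * |G| * ∑_{x ∈ P} R j (fun i => x (r j i))`, and
`∑_{x ∈ P} R j (fun i => x (r j i)) * ∏_i |L (r j i)| = |P| * ∑_{ξ ∈ ∏ L (r j i)} R j ξ` (every `ξ` with `ξ i ∈ L (r j i)` is the restriction of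
`|P| / ∏_i |L (r j i)|` elements of `P`, since `r j` is injective), `≤ |P| * ∑_ξ R j ξ`, and `∏_i |L (r j i)| ≥ (|Ω| / 2) ^ d`.
Summing over `j`, by `hR`: `∑_{x ∈ G} ∑_j R j .. ≤ |G| 4 ^ d`.
(3) So `∑_{x ∈ G} W x < |G| / 2 + |G| / 2 = |G|`, and there is an `x ∈ G` with `W x < 1` (`Finset.exists_lt_of_sum_lt`).  All terms of `W x` are
nonnegative, so `∑_j R j (..) ≤ 2 * 4 ^ d` and, for every `v`, `exp (∑_w Ψ v w (x v) (x w) / 16) = ∏_w (1 + Sel_psi ..) < exp (t + 1)` (as in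
`Sel_gen`, since all `Ψ v w (x v) (x w) ≤ 16` for `x ∈ G`).
-/

set_option autoImplicit false

namespace FHD

open Finset FHA

section SelD

variable {V Ω : Type} [Fintype V] [DecidableEq V] [Fintype Ω] [DecidableEq Ω]

private theorem SelD_split (L : V → Finset Ω) (v : V) (G : (V → Ω) → ℝ) :
    ∑ x ∈ Fintype.piFinset L, G x =
      ∑ a ∈ L v, ∑ x ∈ Fintype.piFinset (Function.update L v {a}), G x := by
  rw [← Finset.sum_fiberwise_of_maps_to (s := Fintype.piFinset L) (t := L v) (g := fun x => x v)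
    (fun x hx => Fintype.mem_piFinset.1 hx v)]
  refine Finset.sum_congr rfl fun a ha => ?_
  refine Finset.sum_congr ?_ fun _ _ => rfl
  ext x
  simp only [mem_filter, Fintype.mem_piFinset]
  constructor
  · rintro ⟨h1, h2⟩ u
    by_cases hu : u = v
    · subst hu
      rw [Function.update_self, mem_singleton]
      exact h2
    · rw [Function.update_of_ne hu]
      exact h1 u
  · intro h
    have h2 : x v = a := by
      have := h v
      rwa [Function.update_self, mem_singleton] at this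
    refine ⟨fun u => ?_, h2⟩
    by_cases hu : u = v
    · subst hu
      rw [h2]
      exact ha
    · have := h u
      rwa [Function.update_of_ne hu] at this

private theorem SelD_card (L : V → Finset Ω) (v : V) :
    ∑ a ∈ L v, ((Fintype.piFinset (Function.update L v {a})).card : ℝ) =
      ((Fintype.piFinset L).card : ℝ) := by
  have h := SelD_split L v (fun _ => (1 : ℝ))
  simp only [sum_const, nsmul_eq_mul, mul_one] at h
  exact h.symm

private theorem SelD_sub (L : V → Finset Ω) (v : V) {a : Ω} (ha : a ∈ L v) :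
    Fintype.piFinset (Function.update L v {a}) ⊆ Fintype.piFinset L := by
  refine Fintype.piFinset_subset _ _ fun u => ?_
  by_cases hu : u = v
  · subst hu
    rw [Function.update_self]
    exact Finset.singleton_subset_iff.2 ha
  · rw [Function.update_of_ne hu]

/-- the mean over the list -/
private noncomputable def SelD_av (S : Finset Ω) (f : Ω → ℝ) : ℝ := (∑ b ∈ S, f b) / S.card

private theorem SelD_one (L : V → Finset Ω) (hL : ∀ v, (L v).Nonempty) (w : V) (f : Ω → ℝ) :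
    ∑ x ∈ Fintype.piFinset L, f (x w) = ((Fintype.piFinset L).card : ℝ) * SelD_av (L w) f := by
  have hc : ∀ a ∈ L w, ((Fintype.piFinset (Function.update L w {a})).card : ℝ) * (L w).card =
      ((Fintype.piFinset L).card : ℝ) := by
    intro a _
    rw [Fintype.card_piFinset, Fintype.card_piFinset]
    have h1 : ∀ u, (Function.update L w {a} u).card = Function.update (fun u => (L u).card) w 1 u := by
      intro u
      by_cases hu : u = w
      · subst hu
        rw [Function.update_self, Function.update_self, card_singleton]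
      · rw [Function.update_of_ne hu, Function.update_of_ne hu]
    rw [Finset.prod_congr rfl fun u _ => h1 u, Finset.prod_update_of_mem (mem_univ w), one_mul]
    rw [← Finset.prod_sdiff (Finset.subset_univ {w}), Finset.prod_singleton]
    push_cast
    rfl
  have h0 : (0 : ℝ) < (L w).card := by exact_mod_cast (hL w).card_pos
  rw [SelD_split L w]
  unfold SelD_av
  rw [mul_div_assoc', eq_div_iff h0.ne', Finset.sum_mul, Finset.mul_sum]
  refine Finset.sum_congr rfl fun a ha => ?_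
  rw [← hc a ha]
  have h2 : ∀ x ∈ Fintype.piFinset (Function.update L w {a}), f (x w) = f a := by
    intro x hx
    have := Fintype.mem_piFinset.1 hx w
    rw [Function.update_self, mem_singleton] at this
    rw [this]
  rw [Finset.sum_congr rfl h2, sum_const, nsmul_eq_mul]
  ring

/-- product functions -/
private theorem SelD_prod (L : V → Finset Ω) (hL : ∀ v, (L v).Nonempty) (k : V → Ω → ℝ)
    (hk : ∀ w b, 0 ≤ k w b) :
    ∑ x ∈ Fintype.piFinset L, ∏ w, (1 + k w (x w)) ≤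
      ((Fintype.piFinset L).card : ℝ) * Real.exp (∑ w, SelD_av (L w) (k w)) := by
  have h := Finset.prod_univ_sum L (fun w b => 1 + k w b)
  rw [← h, Real.exp_sum, Fintype.card_piFinset]
  push_cast
  rw [← Finset.prod_mul_distrib]
  refine Finset.prod_le_prod (fun w _ => ?_) (fun w _ => ?_)
  · exact Finset.sum_nonneg fun b _ => by linarith [hk w b]
  · have h0 : (0 : ℝ) < (L w).card := by exact_mod_cast (hL w).card_pos
    have h1 : ∑ b ∈ L w, (1 + k w b) = (L w).card * (1 + SelD_av (L w) (k w)) := by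
      unfold SelD_av
      rw [Finset.sum_add_distrib, sum_const, nsmul_eq_mul, mul_one, mul_add, mul_one,
        mul_div_cancel₀ _ h0.ne']
    rw [h1]
    refine mul_le_mul_of_nonneg_left ?_ h0.le
    have := Real.add_one_le_exp (SelD_av (L w) (k w))
    linarith

/-- the truncated exponential -/
private noncomputable def SelD_psi (z : ℝ) : ℝ := if z ≤ 16 then Real.exp (z / 16) - 1 else 0

private theorem SelD_psi_nonneg {z : ℝ} (hz : 0 ≤ z) : 0 ≤ SelD_psi z := by
  unfold SelD_psi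
  split_ifs
  · have := Real.one_le_exp (by positivity : 0 ≤ z / 16)
    linarith
  · exact le_rfl

private theorem SelD_psi_le {z : ℝ} (hz : 0 ≤ z) : SelD_psi z ≤ (Real.exp 1 - 1) * z / 16 := by
  have he : (1 : ℝ) ≤ Real.exp 1 := Real.one_le_exp (by norm_num)
  unfold SelD_psi
  split_ifs with h
  · have hc := convexOn_exp.2 (Set.mem_univ (0 : ℝ)) (Set.mem_univ (1 : ℝ))
      (by linarith : 0 ≤ 1 - z / 16) (by positivity : 0 ≤ z / 16) (by ring)
    simp only [smul_eq_mul, mul_zero, mul_one, zero_add, Real.exp_zero] at hc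
    have : (Real.exp 1 - 1) * z / 16 = z / 16 * (Real.exp 1 - 1) := by ring
    rw [this]
    linarith
  · have : 0 ≤ Real.exp 1 - 1 := by linarith
    positivity

private theorem SelD_psi_exp {z : ℝ} (hz : z ≤ 16) : 1 + SelD_psi z = Real.exp (z / 16) := by
  unfold SelD_psi
  rw [if_pos hz]
  ring

private theorem SelD_psi_zero : SelD_psi 0 = 0 := by
  unfold SelD_psi
  rw [if_pos (by norm_num), zero_div, Real.exp_zero, sub_self]

variable [Nonempty Ω]

/-- the lists -/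
private noncomputable def SelD_L (Ψ : V → V → Ω → Ω → ℝ) (v : V) : Finset Ω :=
  univ.filter fun a => ∑ w, ∑ b, Ψ v w a b ≤ 2 * (Fintype.card Ω : ℝ)

private theorem SelD_L_half (Ψ : V → V → Ω → Ω → ℝ) (h0 : ∀ v w a b, 0 ≤ Ψ v w a b)
    (hrow : ∀ v, ∑ w, ∑ a, ∑ b, Ψ v w a b ≤ (Fintype.card Ω : ℝ) ^ 2) (v : V) :
    (Fintype.card Ω : ℝ) ≤ 2 * (SelD_L Ψ v).card := by
  classical
  have hc : (0 : ℝ) < Fintype.card Ω := by exact_mod_cast Fintype.card_pos
  have h1 : (Fintype.card Ω : ℝ) = (SelD_L Ψ v).card +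
      ((univ.filter fun a => ¬ (∑ w, ∑ b, Ψ v w a b ≤ 2 * (Fintype.card Ω : ℝ))).card : ℝ) := by
    unfold SelD_L
    rw [← Nat.cast_add, Finset.card_filter_add_card_filter_not, card_univ]
  have h2 : 2 * (Fintype.card Ω : ℝ) *
      ((univ.filter fun a => ¬ (∑ w, ∑ b, Ψ v w a b ≤ 2 * (Fintype.card Ω : ℝ))).card : ℝ) ≤
      (Fintype.card Ω : ℝ) ^ 2 := by
    refine le_trans ?_ (hrow v)
    have h3 : ∑ w, ∑ a, ∑ b, Ψ v w a b = ∑ a, ∑ w, ∑ b, Ψ v w a b := Finset.sum_comm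
    rw [h3]
    calc 2 * (Fintype.card Ω : ℝ) *
        ((univ.filter fun a => ¬ (∑ w, ∑ b, Ψ v w a b ≤ 2 * (Fintype.card Ω : ℝ))).card : ℝ)
        = ∑ a ∈ univ.filter (fun a => ¬ (∑ w, ∑ b, Ψ v w a b ≤ 2 * (Fintype.card Ω : ℝ))),
            2 * (Fintype.card Ω : ℝ) := by
          rw [sum_const, nsmul_eq_mul]
          ring
      _ ≤ ∑ a ∈ univ.filter (fun a => ¬ (∑ w, ∑ b, Ψ v w a b ≤ 2 * (Fintype.card Ω : ℝ))),
            ∑ w, ∑ b, Ψ v w a b := by
          refine Finset.sum_le_sum fun a ha => ?_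
          rw [mem_filter, not_le] at ha
          exact ha.2.le
      _ ≤ ∑ a, ∑ w, ∑ b, Ψ v w a b := by
          refine Finset.sum_le_sum_of_subset_of_nonneg (filter_subset _ _) fun a _ _ => ?_
          exact Finset.sum_nonneg fun w _ => Finset.sum_nonneg fun b _ => h0 v w a b
  have h4 : 2 * ((univ.filter fun a => ¬ (∑ w, ∑ b, Ψ v w a b ≤ 2 * (Fintype.card Ω : ℝ))).card : ℝ)
      ≤ Fintype.card Ω := by
    have h5 : (Fintype.card Ω : ℝ) * (2 *
        ((univ.filter fun a => ¬ (∑ w, ∑ b, Ψ v w a b ≤ 2 * (Fintype.card Ω : ℝ))).card : ℝ)) ≤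
        (Fintype.card Ω : ℝ) * Fintype.card Ω := by
      calc _ = 2 * (Fintype.card Ω : ℝ) *
        ((univ.filter fun a => ¬ (∑ w, ∑ b, Ψ v w a b ≤ 2 * (Fintype.card Ω : ℝ))).card : ℝ) := by ring
        _ ≤ (Fintype.card Ω : ℝ) ^ 2 := h2
        _ = _ := by ring
    exact le_of_mul_le_mul_left h5 hc
  linarith

private theorem SelD_L_ne (Ψ : V → V → Ω → Ω → ℝ) (h0 : ∀ v w a b, 0 ≤ Ψ v w a b)
    (hrow : ∀ v, ∑ w, ∑ a, ∑ b, Ψ v w a b ≤ (Fintype.card Ω : ℝ) ^ 2) (v : V) :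
    (SelD_L Ψ v).Nonempty := by
  rw [← Finset.card_pos]
  have hc : (0 : ℝ) < Fintype.card Ω := by exact_mod_cast Fintype.card_pos
  have h1 := SelD_L_half Ψ h0 hrow v
  have h2 : (0 : ℝ) < (SelD_L Ψ v).card := by linarith
  exact_mod_cast h2

/-- (*) -/
private theorem SelD_star (Ψ : V → V → Ω → Ω → ℝ) (h0 : ∀ v w a b, 0 ≤ Ψ v w a b)
    (hrow : ∀ v, ∑ w, ∑ a, ∑ b, Ψ v w a b ≤ (Fintype.card Ω : ℝ) ^ 2) (v : V) {a : Ω}
    (ha : a ∈ SelD_L Ψ v) : ∑ w, SelD_av (SelD_L Ψ w) (Ψ v w a) ≤ 4 := by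
  have hc : (0 : ℝ) < Fintype.card Ω := by exact_mod_cast Fintype.card_pos
  have h1 : ∀ w, SelD_av (SelD_L Ψ w) (Ψ v w a) ≤ 2 / (Fintype.card Ω : ℝ) * ∑ b, Ψ v w a b := by
    intro w
    have h2 := SelD_L_half Ψ h0 hrow w
    have h3 : ∑ b ∈ SelD_L Ψ w, Ψ v w a b ≤ ∑ b, Ψ v w a b :=
      Finset.sum_le_sum_of_subset_of_nonneg (Finset.subset_univ _) fun b _ _ => h0 v w a b
    have h4 : 0 ≤ ∑ b, Ψ v w a b := Finset.sum_nonneg fun b _ => h0 v w a b
    have h5 : (0 : ℝ) < (SelD_L Ψ w).card := by linarith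
    unfold SelD_av
    rw [div_le_iff₀ h5]
    calc ∑ b ∈ SelD_L Ψ w, Ψ v w a b ≤ ∑ b, Ψ v w a b := h3
      _ = (∑ b, Ψ v w a b) * ((Fintype.card Ω : ℝ) / Fintype.card Ω) := by
          rw [div_self hc.ne', mul_one]
      _ ≤ (∑ b, Ψ v w a b) * (2 * (SelD_L Ψ w).card / Fintype.card Ω) := by
          refine mul_le_mul_of_nonneg_left ?_ h4
          gcongr
      _ = 2 / (Fintype.card Ω : ℝ) * (∑ b, Ψ v w a b) * (SelD_L Ψ w).card := by ring
  calc ∑ w, SelD_av (SelD_L Ψ w) (Ψ v w a) ≤ ∑ w, 2 / (Fintype.card Ω : ℝ) * ∑ b, Ψ v w a b :=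
        Finset.sum_le_sum fun w _ => h1 w
    _ = 2 / (Fintype.card Ω : ℝ) * ∑ w, ∑ b, Ψ v w a b := by rw [← Finset.mul_sum]
    _ ≤ 2 / (Fintype.card Ω : ℝ) * (2 * (Fintype.card Ω : ℝ)) := by
        refine mul_le_mul_of_nonneg_left ?_ (by positivity)
        exact (mem_filter.1 ha).2
    _ = 4 := by
        field_simp
        norm_num

private theorem SelD_star_update (Ψ : V → V → Ω → Ω → ℝ) (hd : ∀ v a b, Ψ v v a b = 0) (v : V) (a : Ω)
    (L : V → Finset Ω) (F : ℝ → ℝ) (hF : F 0 = 0) (w : V) :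
    SelD_av (Function.update L v {a} w) (fun b => F (Ψ v w a b)) =
      SelD_av (L w) (fun b => F (Ψ v w a b)) := by
  by_cases hw : w = v
  · subst hw
    unfold SelD_av
    simp only [hd, hF, sum_const_zero, zero_div]
  · rw [Function.update_of_ne hw]

private theorem SelD_upd_ne (L : V → Finset Ω) (hL : ∀ v, (L v).Nonempty) (v : V) (a : Ω) (w : V) :
    (Function.update L v {a} w).Nonempty := by
  by_cases hw : w = v
  · subst hw
    rw [Function.update_self]
    exact Finset.singleton_nonempty a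
  · rw [Function.update_of_ne hw]
    exact hL w

private theorem SelD_at {L : V → Finset Ω} {v : V} {a : Ω} {x : V → Ω}
    (hx : x ∈ Fintype.piFinset (Function.update L v {a})) : x v = a := by
  have := Fintype.mem_piFinset.1 hx v
  rwa [Function.update_self, mem_singleton] at this

/-- first moments -/
private theorem SelD_first (Ψ : V → V → Ω → Ω → ℝ) (h0 : ∀ v w a b, 0 ≤ Ψ v w a b)
    (hd : ∀ v a b, Ψ v v a b = 0)
    (hrow : ∀ v, ∑ w, ∑ a, ∑ b, Ψ v w a b ≤ (Fintype.card Ω : ℝ) ^ 2) (v : V) :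
    ∑ w, ∑ x ∈ Fintype.piFinset (SelD_L Ψ), Ψ v w (x v) (x w) ≤
      4 * ((Fintype.piFinset (SelD_L Ψ)).card : ℝ) := by
  have hL := SelD_L_ne Ψ h0 hrow
  rw [Finset.sum_comm, SelD_split (SelD_L Ψ) v, ← SelD_card (SelD_L Ψ) v, Finset.mul_sum]
  refine Finset.sum_le_sum fun a ha => ?_
  calc ∑ x ∈ Fintype.piFinset (Function.update (SelD_L Ψ) v {a}), ∑ w, Ψ v w (x v) (x w)
      = ∑ x ∈ Fintype.piFinset (Function.update (SelD_L Ψ) v {a}), ∑ w, Ψ v w a (x w) := by
        refine Finset.sum_congr rfl fun x hx => ?_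
        rw [SelD_at hx]
    _ = ∑ w, ∑ x ∈ Fintype.piFinset (Function.update (SelD_L Ψ) v {a}), Ψ v w a (x w) :=
        Finset.sum_comm
    _ = ∑ w, ((Fintype.piFinset (Function.update (SelD_L Ψ) v {a})).card : ℝ) *
          SelD_av (SelD_L Ψ w) (Ψ v w a) := by
        refine Finset.sum_congr rfl fun w _ => ?_
        rw [SelD_one (Function.update (SelD_L Ψ) v {a}) (SelD_upd_ne _ hL v a) w (Ψ v w a)]
        congr 1
        exact SelD_star_update Ψ hd v a (SelD_L Ψ) (fun z => z) rfl w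
    _ = ((Fintype.piFinset (Function.update (SelD_L Ψ) v {a})).card : ℝ) *
          ∑ w, SelD_av (SelD_L Ψ w) (Ψ v w a) := by rw [Finset.mul_sum]
    _ ≤ ((Fintype.piFinset (Function.update (SelD_L Ψ) v {a})).card : ℝ) * 4 :=
        mul_le_mul_of_nonneg_left (SelD_star Ψ h0 hrow v ha) (Nat.cast_nonneg _)
    _ = _ := by ring

/-- exponential moments over the product of the lists -/
private theorem SelD_expo (Ψ : V → V → Ω → Ω → ℝ) (h0 : ∀ v w a b, 0 ≤ Ψ v w a b)
    (hd : ∀ v a b, Ψ v v a b = 0)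
    (hrow : ∀ v, ∑ w, ∑ a, ∑ b, Ψ v w a b ≤ (Fintype.card Ω : ℝ) ^ 2) (v : V) :
    ∑ x ∈ Fintype.piFinset (SelD_L Ψ), ∏ w, (1 + 2 * SelD_psi (Ψ v w (x v) (x w))) ≤
      ((Fintype.piFinset (SelD_L Ψ)).card : ℝ) * Real.exp ((Real.exp 1 - 1) / 2) := by
  have hL := SelD_L_ne Ψ h0 hrow
  have he : (1 : ℝ) ≤ Real.exp 1 := Real.one_le_exp (by norm_num)
  rw [SelD_split (SelD_L Ψ) v, ← SelD_card (SelD_L Ψ) v, Finset.sum_mul]
  refine Finset.sum_le_sum fun a ha => ?_
  calc ∑ x ∈ Fintype.piFinset (Function.update (SelD_L Ψ) v {a}),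
        ∏ w, (1 + 2 * SelD_psi (Ψ v w (x v) (x w)))
      = ∑ x ∈ Fintype.piFinset (Function.update (SelD_L Ψ) v {a}),
        ∏ w, (1 + (fun w b => 2 * SelD_psi (Ψ v w a b)) w (x w)) := by
        refine Finset.sum_congr rfl fun x hx => ?_
        rw [SelD_at hx]
    _ ≤ ((Fintype.piFinset (Function.update (SelD_L Ψ) v {a})).card : ℝ) *
          Real.exp (∑ w, SelD_av (Function.update (SelD_L Ψ) v {a} w)
            ((fun w b => 2 * SelD_psi (Ψ v w a b)) w)) := by
        refine SelD_prod _ (SelD_upd_ne _ hL v a) (fun w b => 2 * SelD_psi (Ψ v w a b)) fun w b => ?_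
        have := SelD_psi_nonneg (h0 v w a b)
        linarith
    _ ≤ ((Fintype.piFinset (Function.update (SelD_L Ψ) v {a})).card : ℝ) *
          Real.exp ((Real.exp 1 - 1) / 2) := by
        refine mul_le_mul_of_nonneg_left ?_ (Nat.cast_nonneg _)
        rw [Real.exp_le_exp]
        calc ∑ w, SelD_av (Function.update (SelD_L Ψ) v {a} w) (fun b => 2 * SelD_psi (Ψ v w a b))
            = ∑ w, SelD_av (SelD_L Ψ w) (fun b => 2 * SelD_psi (Ψ v w a b)) := by
              refine Finset.sum_congr rfl fun w _ => ?_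
              exact SelD_star_update Ψ hd v a (SelD_L Ψ) (fun z => 2 * SelD_psi z)
                (by simp only [SelD_psi_zero, mul_zero]) w
          _ ≤ ∑ w, (Real.exp 1 - 1) / 8 * SelD_av (SelD_L Ψ w) (Ψ v w a) := by
              refine Finset.sum_le_sum fun w _ => ?_
              unfold SelD_av
              rw [mul_div_assoc', Finset.mul_sum]
              refine div_le_div_of_nonneg_right ?_ (Nat.cast_nonneg _)
              refine Finset.sum_le_sum fun b _ => ?_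
              have := SelD_psi_le (h0 v w a b)
              linarith
          _ = (Real.exp 1 - 1) / 8 * ∑ w, SelD_av (SelD_L Ψ w) (Ψ v w a) := by rw [Finset.mul_sum]
          _ ≤ (Real.exp 1 - 1) / 8 * 4 :=
              mul_le_mul_of_nonneg_left (SelD_star Ψ h0 hrow v ha) (by linarith)
          _ = (Real.exp 1 - 1) / 2 := by ring

/-- the bad events -/
private def SelD_Bad (Ψ : V → V → Ω → Ω → ℝ) (o : V → V → Prop) (e : V × V) (x : V → Ω) : Prop :=
  o e.1 e.2 ∧ 16 < Ψ e.1 e.2 (x e.1) (x e.2)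

open Classical in
private theorem SelD_bad_card (Ψ : V → V → Ω → Ω → ℝ) (h0 : ∀ v w a b, 0 ≤ Ψ v w a b)
    (L : V → Finset Ω) (v w : V) :
    (((Fintype.piFinset L).filter fun x => 16 < Ψ v w (x v) (x w)).card : ℝ) ≤
      (∑ x ∈ Fintype.piFinset L, Ψ v w (x v) (x w)) / 16 := by
  rw [le_div_iff₀ (by norm_num)]
  calc (((Fintype.piFinset L).filter fun x => 16 < Ψ v w (x v) (x w)).card : ℝ) * 16
      = ∑ x ∈ (Fintype.piFinset L).filter (fun x => 16 < Ψ v w (x v) (x w)), (16 : ℝ) := by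
        rw [sum_const, nsmul_eq_mul]
    _ ≤ ∑ x ∈ (Fintype.piFinset L).filter (fun x => 16 < Ψ v w (x v) (x w)), Ψ v w (x v) (x w) := by
        refine Finset.sum_le_sum fun x hx => ?_
        exact (mem_filter.1 hx).2.le
    _ ≤ _ := Finset.sum_le_sum_of_subset_of_nonneg (filter_subset _ _) fun x _ _ => h0 _ _ _ _

open Classical in
private theorem SelD_hE (Ψ : V → V → Ω → Ω → ℝ) (h0 : ∀ v w a b, 0 ≤ Ψ v w a b)
    (hs : ∀ v w a b, Ψ v w a b = Ψ w v b a)
    (hd : ∀ v a b, Ψ v v a b = 0)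
    (hrow : ∀ v, ∑ w, ∑ a, ∑ b, Ψ v w a b ≤ (Fintype.card Ω : ℝ) ^ 2) (o : V → V → Prop)
    (ho : ∀ v w, o v w → ¬ o w v) (v : V) :
    ∑ e ∈ univ.filter (fun e : V × V => v ∈ ({e.1, e.2} : Finset V)),
      (2 : ℝ) ^ (({e.1, e.2} : Finset V).card - 1) *
      (((Fintype.piFinset (SelD_L Ψ)).filter (fun x => SelD_Bad Ψ o e x)).card : ℝ) ≤
        ((Fintype.piFinset (SelD_L Ψ)).card : ℝ) / 2 := by
  have h1 : ∀ e : V × V, (2 : ℝ) ^ (({e.1, e.2} : Finset V).card - 1) ≤ 2 := by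
    intro e
    have h2 : ({e.1, e.2} : Finset V).card ≤ 2 := Finset.card_le_two
    calc (2 : ℝ) ^ (({e.1, e.2} : Finset V).card - 1) ≤ 2 ^ 1 :=
          pow_le_pow_right₀ (by norm_num) (by omega)
      _ = 2 := pow_one 2
  -- the contribution of one other variable
  have h3 : ∀ w, (((Fintype.piFinset (SelD_L Ψ)).filter (fun x => SelD_Bad Ψ o (v, w) x)).card : ℝ) +
      (((Fintype.piFinset (SelD_L Ψ)).filter (fun x => SelD_Bad Ψ o (w, v) x)).card : ℝ) ≤
      (((Fintype.piFinset (SelD_L Ψ)).filter fun x => 16 < Ψ v w (x v) (x w)).card : ℝ) := by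
    intro w
    by_cases hvw : o v w
    · have h4 : (Fintype.piFinset (SelD_L Ψ)).filter (fun x => SelD_Bad Ψ o (w, v) x) = ∅ := by
        rw [Finset.filter_eq_empty_iff]
        intro x _ hx
        exact ho v w hvw hx.1
      rw [h4, card_empty, Nat.cast_zero, add_zero]
      have h5 : (Fintype.piFinset (SelD_L Ψ)).filter (fun x => SelD_Bad Ψ o (v, w) x) ⊆
          (Fintype.piFinset (SelD_L Ψ)).filter fun x => 16 < Ψ v w (x v) (x w) := by
        intro x hx
        rw [mem_filter] at hx ⊢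
        exact ⟨hx.1, hx.2.2⟩
      exact_mod_cast Finset.card_le_card h5
    · have h4 : (Fintype.piFinset (SelD_L Ψ)).filter (fun x => SelD_Bad Ψ o (v, w) x) = ∅ := by
        rw [Finset.filter_eq_empty_iff]
        intro x _ hx
        exact hvw hx.1
      rw [h4, card_empty, Nat.cast_zero, zero_add]
      have h5 : (Fintype.piFinset (SelD_L Ψ)).filter (fun x => SelD_Bad Ψ o (w, v) x) ⊆
          (Fintype.piFinset (SelD_L Ψ)).filter fun x => 16 < Ψ v w (x v) (x w) := by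
        intro x hx
        rw [mem_filter] at hx ⊢
        refine ⟨hx.1, ?_⟩
        rw [hs]
        exact hx.2.2
      exact_mod_cast Finset.card_le_card h5
  have h6 : ∀ e : V × V, v ∈ ({e.1, e.2} : Finset V) →
      (2 : ℝ) ^ (({e.1, e.2} : Finset V).card - 1) *
      (((Fintype.piFinset (SelD_L Ψ)).filter (fun x => SelD_Bad Ψ o e x)).card : ℝ) ≤
      (if e.1 = v then
        2 * (((Fintype.piFinset (SelD_L Ψ)).filter (fun x => SelD_Bad Ψ o e x)).card : ℝ) else 0) +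
      (if e.2 = v then
        2 * (((Fintype.piFinset (SelD_L Ψ)).filter (fun x => SelD_Bad Ψ o e x)).card : ℝ) else 0) := by
    intro e he
    have h7 := mul_le_mul_of_nonneg_right (h1 e)
      (Nat.cast_nonneg (α := ℝ) ((Fintype.piFinset (SelD_L Ψ)).filter (fun x => SelD_Bad Ψ o e x)).card)
    have h8 : (0 : ℝ) ≤
        2 * (((Fintype.piFinset (SelD_L Ψ)).filter (fun x => SelD_Bad Ψ o e x)).card : ℝ) := by positivity
    rw [mem_insert, mem_singleton] at he
    rcases he with he | he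
    · rw [if_pos he.symm]
      split_ifs <;> linarith
    · rw [if_pos he.symm]
      split_ifs <;> linarith
  calc ∑ e ∈ univ.filter (fun e : V × V => v ∈ ({e.1, e.2} : Finset V)),
      (2 : ℝ) ^ (({e.1, e.2} : Finset V).card - 1) *
      (((Fintype.piFinset (SelD_L Ψ)).filter (fun x => SelD_Bad Ψ o e x)).card : ℝ)
      ≤ ∑ e ∈ univ.filter (fun e : V × V => v ∈ ({e.1, e.2} : Finset V)),
      ((if e.1 = v then
        2 * (((Fintype.piFinset (SelD_L Ψ)).filter (fun x => SelD_Bad Ψ o e x)).card : ℝ) else 0) +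
      (if e.2 = v then
        2 * (((Fintype.piFinset (SelD_L Ψ)).filter (fun x => SelD_Bad Ψ o e x)).card : ℝ) else 0)) :=
        Finset.sum_le_sum fun e he => h6 e (mem_filter.1 he).2
    _ ≤ ∑ e : V × V,
      ((if e.1 = v then
        2 * (((Fintype.piFinset (SelD_L Ψ)).filter (fun x => SelD_Bad Ψ o e x)).card : ℝ) else 0) +
      (if e.2 = v then
        2 * (((Fintype.piFinset (SelD_L Ψ)).filter (fun x => SelD_Bad Ψ o e x)).card : ℝ) else 0)) := by
        refine Finset.sum_le_sum_of_subset_of_nonneg (filter_subset _ _) fun e _ _ => ?_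
        have h8 : (0 : ℝ) ≤
          2 * (((Fintype.piFinset (SelD_L Ψ)).filter (fun x => SelD_Bad Ψ o e x)).card : ℝ) := by
          positivity
        split_ifs <;> linarith
    _ = ∑ w, 2 * ((((Fintype.piFinset (SelD_L Ψ)).filter (fun x => SelD_Bad Ψ o (v, w) x)).card : ℝ) +
      (((Fintype.piFinset (SelD_L Ψ)).filter (fun x => SelD_Bad Ψ o (w, v) x)).card : ℝ)) := by
        rw [Finset.sum_add_distrib]
        have h9 : ∑ e : V × V, (if e.1 = v then
          2 * (((Fintype.piFinset (SelD_L Ψ)).filter (fun x => SelD_Bad Ψ o e x)).card : ℝ) else 0) =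
          ∑ w, 2 * (((Fintype.piFinset (SelD_L Ψ)).filter
            (fun x => SelD_Bad Ψ o (v, w) x)).card : ℝ) := by
          rw [Fintype.sum_prod_type, Finset.sum_comm]
          refine Finset.sum_congr rfl fun w _ => ?_
          simp only [Finset.sum_ite_eq', mem_univ, if_true]
        have h10 : ∑ e : V × V, (if e.2 = v then
          2 * (((Fintype.piFinset (SelD_L Ψ)).filter (fun x => SelD_Bad Ψ o e x)).card : ℝ) else 0) =
          ∑ w, 2 * (((Fintype.piFinset (SelD_L Ψ)).filter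
            (fun x => SelD_Bad Ψ o (w, v) x)).card : ℝ) := by
          rw [Fintype.sum_prod_type]
          refine Finset.sum_congr rfl fun w _ => ?_
          simp only [Finset.sum_ite_eq', mem_univ, if_true]
        rw [h9, h10, ← Finset.sum_add_distrib]
        refine Finset.sum_congr rfl fun w _ => ?_
        ring
    _ ≤ ∑ w, (∑ x ∈ Fintype.piFinset (SelD_L Ψ), Ψ v w (x v) (x w)) / 8 := by
        refine Finset.sum_le_sum fun w _ => ?_
        have h11 := h3 w
        have h12 := SelD_bad_card Ψ h0 (SelD_L Ψ) v w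
        linarith
    _ ≤ ((Fintype.piFinset (SelD_L Ψ)).card : ℝ) / 2 := by
        rw [← Finset.sum_div]
        have h13 := SelD_first Ψ h0 hd hrow v
        linarith

/-- exponential moments over the good choices -/
private theorem SelD_good_expo (Ψ : V → V → Ω → Ω → ℝ) (h0 : ∀ v w a b, 0 ≤ Ψ v w a b)
    (hs : ∀ v w a b, Ψ v w a b = Ψ w v b a)
    (hd : ∀ v a b, Ψ v v a b = 0)
    (hrow : ∀ v, ∑ w, ∑ a, ∑ b, Ψ v w a b ≤ (Fintype.card Ω : ℝ) ^ 2) (o : V → V → Prop)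
    (ho : ∀ v w, o v w → ¬ o w v) (v : V) :
    ∑ x ∈ goodS (SelD_L Ψ) (SelD_Bad Ψ o), ∏ w, (1 + SelD_psi (Ψ v w (x v) (x w))) ≤
      2 * Real.exp ((Real.exp 1 - 1) / 2) * ((goodS (SelD_L Ψ) (SelD_Bad Ψ o)).card : ℝ) := by
  classical
  have hL := SelD_L_ne Ψ h0 hrow
  have hP : (0 : ℝ) < ((Fintype.piFinset (SelD_L Ψ)).card : ℝ) := by
    rw [Fintype.card_piFinset]
    push_cast
    refine Finset.prod_pos fun w _ => ?_
    exact_mod_cast (hL w).card_pos
  have key : ∀ U : Finset V,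
      (∑ x ∈ goodS (SelD_L Ψ) (SelD_Bad Ψ o), ∏ w ∈ U, SelD_psi (Ψ v w (x v) (x w))) *
        ((Fintype.piFinset (SelD_L Ψ)).card : ℝ) ≤
      2 * ((goodS (SelD_L Ψ) (SelD_Bad Ψ o)).card : ℝ) *
        ∑ x ∈ Fintype.piFinset (SelD_L Ψ), ∏ w ∈ U, (2 * SelD_psi (Ψ v w (x v) (x w))) := by
    intro U
    have h1 := lll (SelD_L Ψ) hL (fun e : V × V => ({e.1, e.2} : Finset V))
      (fun e => Finset.insert_nonempty _ _) (SelD_Bad Ψ o)
      (by
        intro e x y hxy hx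
        have h2 := hxy e.1 (by simp)
        have h3 := hxy e.2 (by simp)
        refine ⟨hx.1, ?_⟩
        rw [← h2, ← h3]
        exact hx.2)
      (fun u => by
        convert SelD_hE Ψ h0 hs hd hrow o ho u)
      (insert v U) (fun x => ∏ w ∈ U, SelD_psi (Ψ v w (x v) (x w)))
      (fun x => Finset.prod_nonneg fun w _ => SelD_psi_nonneg (h0 _ _ _ _))
      (by
        intro x y hxy
        refine Finset.prod_congr rfl fun w hw => ?_
        rw [hxy v (mem_insert_self _ _), hxy w (mem_insert_of_mem hw)])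
    refine le_trans h1 ?_
    have h4 : (2 : ℝ) ^ (insert v U).card ≤ 2 ^ (U.card + 1) :=
      pow_le_pow_right₀ (by norm_num) (Finset.card_insert_le _ _)
    have h5 : 0 ≤ ∑ x ∈ Fintype.piFinset (SelD_L Ψ), ∏ w ∈ U, SelD_psi (Ψ v w (x v) (x w)) :=
      Finset.sum_nonneg fun x _ => Finset.prod_nonneg fun w _ => SelD_psi_nonneg (h0 _ _ _ _)
    calc (2 : ℝ) ^ (insert v U).card * ((goodS (SelD_L Ψ) (SelD_Bad Ψ o)).card : ℝ) *
        ∑ x ∈ Fintype.piFinset (SelD_L Ψ), ∏ w ∈ U, SelD_psi (Ψ v w (x v) (x w))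
        ≤ 2 ^ (U.card + 1) * ((goodS (SelD_L Ψ) (SelD_Bad Ψ o)).card : ℝ) *
        ∑ x ∈ Fintype.piFinset (SelD_L Ψ), ∏ w ∈ U, SelD_psi (Ψ v w (x v) (x w)) :=
          mul_le_mul_of_nonneg_right (mul_le_mul_of_nonneg_right h4 (Nat.cast_nonneg _)) h5
      _ = 2 * ((goodS (SelD_L Ψ) (SelD_Bad Ψ o)).card : ℝ) *
        ∑ x ∈ Fintype.piFinset (SelD_L Ψ), ∏ w ∈ U, (2 * SelD_psi (Ψ v w (x v) (x w))) := by
          simp only [Finset.prod_mul_distrib, Finset.prod_const]
          rw [← Finset.mul_sum]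
          ring
  have h6 : (∑ x ∈ goodS (SelD_L Ψ) (SelD_Bad Ψ o), ∏ w, (1 + SelD_psi (Ψ v w (x v) (x w)))) *
        ((Fintype.piFinset (SelD_L Ψ)).card : ℝ) ≤
      2 * ((goodS (SelD_L Ψ) (SelD_Bad Ψ o)).card : ℝ) *
        ∑ x ∈ Fintype.piFinset (SelD_L Ψ), ∏ w, (1 + 2 * SelD_psi (Ψ v w (x v) (x w))) := by
    simp only [Finset.prod_one_add]
    rw [Finset.sum_comm, Finset.sum_mul, Finset.sum_comm (s := Fintype.piFinset (SelD_L Ψ)),
      Finset.mul_sum]
    exact Finset.sum_le_sum fun U _ => key U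
  have h7 := SelD_expo Ψ h0 hd hrow v
  have h8 : (∑ x ∈ goodS (SelD_L Ψ) (SelD_Bad Ψ o), ∏ w, (1 + SelD_psi (Ψ v w (x v) (x w)))) *
        ((Fintype.piFinset (SelD_L Ψ)).card : ℝ) ≤
      (2 * Real.exp ((Real.exp 1 - 1) / 2) * ((goodS (SelD_L Ψ) (SelD_Bad Ψ o)).card : ℝ)) *
        ((Fintype.piFinset (SelD_L Ψ)).card : ℝ) := by
    refine le_trans h6 ?_
    calc 2 * ((goodS (SelD_L Ψ) (SelD_Bad Ψ o)).card : ℝ) *
        ∑ x ∈ Fintype.piFinset (SelD_L Ψ), ∏ w, (1 + 2 * SelD_psi (Ψ v w (x v) (x w)))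
        ≤ 2 * ((goodS (SelD_L Ψ) (SelD_Bad Ψ o)).card : ℝ) *
          (((Fintype.piFinset (SelD_L Ψ)).card : ℝ) * Real.exp ((Real.exp 1 - 1) / 2)) :=
          mul_le_mul_of_nonneg_left h7 (by positivity)
      _ = _ := by ring
  exact le_of_mul_le_mul_right h8 hP

private theorem SelD_exp_num : 2 * Real.exp ((Real.exp 1 - 1) / 2) < 5 := by
  have h1 : Real.exp 1 < 2.7182818286 := Real.exp_one_lt_d9
  have h2 : (Real.exp 1 - 1) / 2 < 0.9 := by linarith
  have h3 : Real.exp ((Real.exp 1 - 1) / 2) < Real.exp 0.9 := Real.exp_lt_exp.2 h2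
  have h4 : Real.exp 0.9 ≤ 2.5 := by
    have h5 : Real.exp 0.9 ^ 10 = Real.exp 1 ^ 9 := by
      rw [← Real.exp_nat_mul, ← Real.exp_nat_mul]
      norm_num
    by_contra h6
    rw [not_le] at h6
    have h7 : (2.5 : ℝ) ^ 10 < Real.exp 0.9 ^ 10 := pow_lt_pow_left₀ h6 (by norm_num) (by norm_num)
    have h8 : Real.exp 1 ^ 9 < 2.7182818286 ^ 9 := pow_lt_pow_left₀ h1 (Real.exp_pos 1).le (by norm_num)
    rw [h5] at h7
    norm_num at h7 h8
    linarith
  linarith

omit [Nonempty Ω] in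
/-- marginals -/
private theorem SelD_marg {d : ℕ} (L : V → Finset Ω) (r : Fin d → V) (hr : Function.Injective r)
    (F : (Fin d → Ω) → ℝ) (hF : ∀ ξ, 0 ≤ F ξ) :
    (∑ x ∈ Fintype.piFinset L, F (fun i => x (r i))) * ∏ i, ((L (r i)).card : ℝ) ≤
      ((Fintype.piFinset L).card : ℝ) * ∑ ξ, F ξ := by
  classical
  set T : Finset V := univ.image r with hT
  have h1 : ∏ i, ((L (r i)).card : ℝ) = ∏ v ∈ T, ((L v).card : ℝ) := by
    rw [hT, Finset.prod_image (fun a _ b _ h => hr h)]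
  have h2 : ((Fintype.piFinset L).card : ℝ) =
      (∏ v ∈ T, ((L v).card : ℝ)) * ∏ v ∈ Tᶜ, ((L v).card : ℝ) := by
    rw [Fintype.card_piFinset]
    push_cast
    rw [Finset.prod_mul_prod_compl]
  have h3 : ∀ ξ : Fin d → Ω,
      (((Fintype.piFinset L).filter fun x => (fun i => x (r i)) = ξ).card : ℝ) ≤
        ∏ v ∈ Tᶜ, ((L v).card : ℝ) := by
    intro ξ
    have h4 : ((Fintype.piFinset L).filter fun x => (fun i => x (r i)) = ξ) ⊆
        Fintype.piFinset (fun v => if h : ∃ i, r i = v then ({ξ h.choose} : Finset Ω) else L v) := by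
      intro x hx
      rw [mem_filter] at hx
      rw [Fintype.mem_piFinset]
      intro v
      by_cases h : ∃ i, r i = v
      · rw [dif_pos h, mem_singleton]
        have h5 := congrFun hx.2 h.choose
        have h6 := h.choose_spec
        beta_reduce at h5
        rw [h6] at h5
        exact h5
      · rw [dif_neg h]
        exact Fintype.mem_piFinset.1 hx.1 v
    have h5 : ((Fintype.piFinset
        (fun v => if h : ∃ i, r i = v then ({ξ h.choose} : Finset Ω) else L v)).card : ℝ) =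
        ∏ v ∈ Tᶜ, ((L v).card : ℝ) := by
      rw [Fintype.card_piFinset]
      push_cast
      rw [← Finset.prod_mul_prod_compl T]
      have h6 : ∏ v ∈ T, (((if h : ∃ i, r i = v then ({ξ h.choose} : Finset Ω) else L v).card : ℕ) : ℝ)
          = 1 := by
        refine Finset.prod_eq_one fun v hv => ?_
        rw [hT, mem_image] at hv
        have h7 : ∃ i, r i = v := by
          obtain ⟨i, _, hi⟩ := hv
          exact ⟨i, hi⟩
        rw [dif_pos h7, card_singleton, Nat.cast_one]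
      rw [h6, one_mul]
      refine Finset.prod_congr rfl fun v hv => ?_
      have h7 : ¬ ∃ i, r i = v := by
        rintro ⟨i, hi⟩
        rw [mem_compl, hT, mem_image] at hv
        exact hv ⟨i, mem_univ i, hi⟩
      rw [dif_neg h7]
    rw [← h5]
    exact_mod_cast Finset.card_le_card h4
  have h8 : ∑ x ∈ Fintype.piFinset L, F (fun i => x (r i)) ≤
      (∏ v ∈ Tᶜ, ((L v).card : ℝ)) * ∑ ξ, F ξ := by
    rw [← Finset.sum_fiberwise_of_maps_to (s := Fintype.piFinset L) (t := (univ : Finset (Fin d → Ω)))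
      (g := fun x => (fun i => x (r i))) (fun x _ => mem_univ _), Finset.mul_sum]
    refine Finset.sum_le_sum fun ξ _ => ?_
    have h9 : ∑ x ∈ (Fintype.piFinset L).filter (fun x => (fun i => x (r i)) = ξ),
        F (fun i => x (r i)) =
        (((Fintype.piFinset L).filter fun x => (fun i => x (r i)) = ξ).card : ℝ) * F ξ := by
      rw [← nsmul_eq_mul, ← sum_const]
      refine Finset.sum_congr rfl fun x hx => ?_
      rw [(mem_filter.1 hx).2]
    rw [h9]
    exact mul_le_mul_of_nonneg_right (h3 ξ) (hF ξ)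
  rw [h1, h2]
  have h10 : (0 : ℝ) ≤ ∏ v ∈ T, ((L v).card : ℝ) := Finset.prod_nonneg fun v _ => Nat.cast_nonneg _
  calc (∑ x ∈ Fintype.piFinset L, F (fun i => x (r i))) * ∏ v ∈ T, ((L v).card : ℝ)
      ≤ ((∏ v ∈ Tᶜ, ((L v).card : ℝ)) * ∑ ξ, F ξ) * ∏ v ∈ T, ((L v).card : ℝ) :=
        mul_le_mul_of_nonneg_right h8 h10
    _ = _ := by ring

/-- the linear functional over the good choices -/
private theorem SelD_lin {d : ℕ} (Ψ : V → V → Ω → Ω → ℝ) (h0 : ∀ v w a b, 0 ≤ Ψ v w a b)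
    (hs : ∀ v w a b, Ψ v w a b = Ψ w v b a)
    (hd : ∀ v a b, Ψ v v a b = 0)
    (hrow : ∀ v, ∑ w, ∑ a, ∑ b, Ψ v w a b ≤ (Fintype.card Ω : ℝ) ^ 2) (o : V → V → Prop)
    (ho : ∀ v w, o v w → ¬ o w v) (r : Fin d → V) (hr : Function.Injective r)
    (F : (Fin d → Ω) → ℝ) (hF : ∀ ξ, 0 ≤ F ξ) :
    (∑ x ∈ goodS (SelD_L Ψ) (SelD_Bad Ψ o), F (fun i => x (r i))) * (Fintype.card Ω : ℝ) ^ d ≤
      4 ^ d * ((goodS (SelD_L Ψ) (SelD_Bad Ψ o)).card : ℝ) * ∑ ξ, F ξ := by
  classical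
  have hL := SelD_L_ne Ψ h0 hrow
  have hP : (0 : ℝ) < ((Fintype.piFinset (SelD_L Ψ)).card : ℝ) := by
    rw [Fintype.card_piFinset]
    push_cast
    refine Finset.prod_pos fun w _ => ?_
    exact_mod_cast (hL w).card_pos
  have h1 := lll (SelD_L Ψ) hL (fun e : V × V => ({e.1, e.2} : Finset V))
    (fun e => Finset.insert_nonempty _ _) (SelD_Bad Ψ o)
    (by
      intro e x y hxy hx
      have h2 := hxy e.1 (by simp)
      have h3 := hxy e.2 (by simp)
      refine ⟨hx.1, ?_⟩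
      rw [← h2, ← h3]
      exact hx.2)
    (fun u => by
      convert SelD_hE Ψ h0 hs hd hrow o ho u)
    (univ.image r) (fun x => F (fun i => x (r i)))
    (fun x => hF _)
    (by
      intro x y hxy
      have h2 : (fun i => x (r i)) = fun i => y (r i) := by
        funext i
        exact hxy (r i) (mem_image_of_mem r (mem_univ i))
      rw [h2])
  have h2 : (2 : ℝ) ^ (univ.image r).card ≤ 2 ^ d := by
    refine pow_le_pow_right₀ (by norm_num) (le_trans Finset.card_image_le ?_)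
    rw [card_univ, Fintype.card_fin]
  have h3 := SelD_marg (SelD_L Ψ) r hr F hF
  have h4 : (Fintype.card Ω : ℝ) ^ d ≤ 2 ^ d * ∏ i, ((SelD_L Ψ (r i)).card : ℝ) := by
    calc (Fintype.card Ω : ℝ) ^ d = ∏ _i : Fin d, (Fintype.card Ω : ℝ) := by
          rw [prod_const, card_univ, Fintype.card_fin]
      _ ≤ ∏ i : Fin d, (2 * ((SelD_L Ψ (r i)).card : ℝ)) :=
          Finset.prod_le_prod (fun i _ => Nat.cast_nonneg _) fun i _ => SelD_L_half Ψ h0 hrow (r i)
      _ = _ := by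
          rw [Finset.prod_mul_distrib, prod_const, card_univ, Fintype.card_fin]
  have hS : 0 ≤ ∑ x ∈ Fintype.piFinset (SelD_L Ψ), F (fun i => x (r i)) :=
    Finset.sum_nonneg fun x _ => hF _
  have hg : (0 : ℝ) ≤ ((goodS (SelD_L Ψ) (SelD_Bad Ψ o)).card : ℝ) := Nat.cast_nonneg _
  have h5 : ((∑ x ∈ goodS (SelD_L Ψ) (SelD_Bad Ψ o), F (fun i => x (r i))) *
      (Fintype.card Ω : ℝ) ^ d) * ((Fintype.piFinset (SelD_L Ψ)).card : ℝ) ≤
      (4 ^ d * ((goodS (SelD_L Ψ) (SelD_Bad Ψ o)).card : ℝ) * ∑ ξ, F ξ) *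
        ((Fintype.piFinset (SelD_L Ψ)).card : ℝ) := by
    calc ((∑ x ∈ goodS (SelD_L Ψ) (SelD_Bad Ψ o), F (fun i => x (r i))) *
        (Fintype.card Ω : ℝ) ^ d) * ((Fintype.piFinset (SelD_L Ψ)).card : ℝ)
        = ((∑ x ∈ goodS (SelD_L Ψ) (SelD_Bad Ψ o), F (fun i => x (r i))) *
          ((Fintype.piFinset (SelD_L Ψ)).card : ℝ)) * (Fintype.card Ω : ℝ) ^ d := by ring
      _ ≤ (2 ^ (univ.image r).card * ((goodS (SelD_L Ψ) (SelD_Bad Ψ o)).card : ℝ) *
          ∑ x ∈ Fintype.piFinset (SelD_L Ψ), F (fun i => x (r i))) * (Fintype.card Ω : ℝ) ^ d :=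
          mul_le_mul_of_nonneg_right h1 (by positivity)
      _ ≤ (2 ^ d * ((goodS (SelD_L Ψ) (SelD_Bad Ψ o)).card : ℝ) *
          ∑ x ∈ Fintype.piFinset (SelD_L Ψ), F (fun i => x (r i))) *
          (2 ^ d * ∏ i, ((SelD_L Ψ (r i)).card : ℝ)) := by
          refine mul_le_mul ?_ h4 (by positivity) (by positivity)
          exact mul_le_mul_of_nonneg_right (mul_le_mul_of_nonneg_right h2 hg) hS
      _ = 4 ^ d * ((goodS (SelD_L Ψ) (SelD_Bad Ψ o)).card : ℝ) *
          ((∑ x ∈ Fintype.piFinset (SelD_L Ψ), F (fun i => x (r i))) *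
          ∏ i, ((SelD_L Ψ (r i)).card : ℝ)) := by
          have h6 : (4 : ℝ) ^ d = 2 ^ d * 2 ^ d := by
            rw [← mul_pow]
            norm_num
          rw [h6]
          ring
      _ ≤ 4 ^ d * ((goodS (SelD_L Ψ) (SelD_Bad Ψ o)).card : ℝ) *
          (((Fintype.piFinset (SelD_L Ψ)).card : ℝ) * ∑ ξ, F ξ) :=
          mul_le_mul_of_nonneg_left h3 (by positivity)
      _ = _ := by ring
  exact le_of_mul_le_mul_right h5 hP

end SelD

theorem selD {V Ω ι : Type} [Fintype V] [DecidableEq V] [Fintype Ω] [DecidableEq Ω] [Nonempty Ω] [Fintype ι]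
    {d t : ℕ} (ht : 4 * Fintype.card V < 2 ^ t)
    (Ψ : V → V → Ω → Ω → ℝ) (h0 : ∀ v w a b, 0 ≤ Ψ v w a b) (hs : ∀ v w a b, Ψ v w a b = Ψ w v b a)
    (hd : ∀ v a b, Ψ v v a b = 0)
    (hrow : ∀ v, ∑ w, ∑ a, ∑ b, Ψ v w a b ≤ (Fintype.card Ω : ℝ) ^ 2)
    (o : V → V → Prop) (ho : ∀ v w, o v w → ¬ o w v) (ho2 : ∀ v w, o v w ∨ o w v ∨ ∀ a b, Ψ v w a b = 0)
    (r : ι → Fin d → V) (hr : ∀ j, Function.Injective (r j))
    (R : ι → (Fin d → Ω) → ℝ) (hR0 : ∀ j ξ, 0 ≤ R j ξ)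
    (hR : ∑ j, ∑ ξ, R j ξ ≤ (Fintype.card Ω : ℝ) ^ d) :
    ∃ x : V → Ω, (∀ v, ∑ w, Ψ v w (x v) (x w) ≤ 16 * (t + 1)) ∧
      ∑ j, R j (fun i => x (r j i)) ≤ 2 * 4 ^ d := by
  classical
  have hL := SelD_L_ne Ψ h0 hrow
  have hpos : (goodS (SelD_L Ψ) (SelD_Bad Ψ o)).Nonempty :=
    lll_pos (SelD_L Ψ) hL (fun e : V × V => ({e.1, e.2} : Finset V))
      (fun e => Finset.insert_nonempty _ _) (SelD_Bad Ψ o)
      (by
        intro e x y hxy hx
        have h2 := hxy e.1 (by simp)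
        have h3 := hxy e.2 (by simp)
        refine ⟨hx.1, ?_⟩
        rw [← h2, ← h3]
        exact hx.2)
      (fun u => by
        convert SelD_hE Ψ h0 hs hd hrow o ho u)
  have hg16 : ∀ x ∈ goodS (SelD_L Ψ) (SelD_Bad Ψ o), ∀ v w, Ψ v w (x v) (x w) ≤ 16 := by
    intro x hx v w
    have h1 : ∀ e, ¬ SelD_Bad Ψ o e x := by
      unfold goodS at hx
      exact (mem_filter.1 hx).2
    rcases ho2 v w with h | h | h
    · have h2 := h1 (v, w)
      by_contra h3
      rw [not_le] at h3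
      exact h2 ⟨h, h3⟩
    · have h2 := h1 (w, v)
      by_contra h3
      rw [not_le, hs] at h3
      exact h2 ⟨h, h3⟩
    · rw [h]
      norm_num
  have hexp : ∀ x ∈ goodS (SelD_L Ψ) (SelD_Bad Ψ o), ∀ v,
      ∏ w, (1 + SelD_psi (Ψ v w (x v) (x w))) = Real.exp ((∑ w, Ψ v w (x v) (x w)) / 16) := by
    intro x hx v
    rw [Finset.sum_div, Real.exp_sum]
    refine Finset.prod_congr rfl fun w _ => ?_
    exact SelD_psi_exp (hg16 x hx v w)
  have hg0 : (0 : ℝ) < ((goodS (SelD_L Ψ) (SelD_Bad Ψ o)).card : ℝ) := by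
    exact_mod_cast hpos.card_pos
  have hE : (0 : ℝ) < Real.exp (t + 1) := Real.exp_pos _
  have h4d : (0 : ℝ) < 2 * 4 ^ d := by positivity
  have hpsi : ∀ (x : V → Ω) (v : V), 0 ≤ ∏ w, (1 + SelD_psi (Ψ v w (x v) (x w))) := by
    intro x v
    refine Finset.prod_nonneg fun w _ => ?_
    have := SelD_psi_nonneg (h0 v w (x v) (x w))
    linarith
  -- the exponential part
  have h2 : ∑ x ∈ goodS (SelD_L Ψ) (SelD_Bad Ψ o),
      (∑ v : V, ∏ w, (1 + SelD_psi (Ψ v w (x v) (x w)))) / Real.exp (t + 1) <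
      ((goodS (SelD_L Ψ) (SelD_Bad Ψ o)).card : ℝ) / 2 := by
    have h5 : (2.5 : ℝ) * 2 ^ t ≤ Real.exp (t + 1) := by
      have h6 : (2.7 : ℝ) < Real.exp 1 := by
        have := Real.exp_one_gt_d9
        linarith
      rw [Real.exp_add, ← mul_one (t : ℝ), Real.exp_nat_mul]
      have h7 : (2 : ℝ) ^ t ≤ Real.exp 1 ^ t := pow_le_pow_left₀ (by norm_num) (by linarith) t
      have h8 : (0 : ℝ) < 2 ^ t := by positivity
      calc (2.5 : ℝ) * 2 ^ t ≤ 2 ^ t * Real.exp 1 := by nlinarith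
        _ ≤ Real.exp 1 ^ t * Real.exp 1 := mul_le_mul_of_nonneg_right h7 (Real.exp_pos 1).le
    have h9 : 4 * (Fintype.card V : ℝ) < 2 ^ t := by exact_mod_cast ht
    rw [← Finset.sum_div, div_lt_iff₀ hE, Finset.sum_comm]
    calc ∑ v : V, ∑ x ∈ goodS (SelD_L Ψ) (SelD_Bad Ψ o), ∏ w, (1 + SelD_psi (Ψ v w (x v) (x w)))
        ≤ ∑ v : V, (5 * ((goodS (SelD_L Ψ) (SelD_Bad Ψ o)).card : ℝ)) := by
          refine Finset.sum_le_sum fun v _ => ?_
          refine le_trans (SelD_good_expo Ψ h0 hs hd hrow o ho v) ?_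
          exact mul_le_mul_of_nonneg_right SelD_exp_num.le hg0.le
      _ = (5 * (Fintype.card V : ℝ)) * ((goodS (SelD_L Ψ) (SelD_Bad Ψ o)).card : ℝ) := by
          rw [sum_const, nsmul_eq_mul, card_univ]
          ring
      _ < (Real.exp (t + 1) / 2) * ((goodS (SelD_L Ψ) (SelD_Bad Ψ o)).card : ℝ) := by
          refine mul_lt_mul_of_pos_right ?_ hg0
          linarith
      _ = _ := by ring
  -- the linear part
  have h3 : ∑ x ∈ goodS (SelD_L Ψ) (SelD_Bad Ψ o),
      (∑ j, R j (fun i => x (r j i))) / (2 * 4 ^ d) ≤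
      ((goodS (SelD_L Ψ) (SelD_Bad Ψ o)).card : ℝ) / 2 := by
    have hc : (0 : ℝ) < (Fintype.card Ω : ℝ) ^ d := by
      have : (0 : ℝ) < Fintype.card Ω := by exact_mod_cast Fintype.card_pos
      positivity
    have h5 : (∑ x ∈ goodS (SelD_L Ψ) (SelD_Bad Ψ o), ∑ j, R j (fun i => x (r j i))) *
        (Fintype.card Ω : ℝ) ^ d ≤
        (4 ^ d * ((goodS (SelD_L Ψ) (SelD_Bad Ψ o)).card : ℝ)) * (Fintype.card Ω : ℝ) ^ d := by
      rw [Finset.sum_comm, Finset.sum_mul]
      calc ∑ j, (∑ x ∈ goodS (SelD_L Ψ) (SelD_Bad Ψ o), R j (fun i => x (r j i))) *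
          (Fintype.card Ω : ℝ) ^ d
          ≤ ∑ j, 4 ^ d * ((goodS (SelD_L Ψ) (SelD_Bad Ψ o)).card : ℝ) * ∑ ξ, R j ξ :=
            Finset.sum_le_sum fun j _ =>
              SelD_lin Ψ h0 hs hd hrow o ho (r j) (hr j) (R j) (hR0 j)
        _ = 4 ^ d * ((goodS (SelD_L Ψ) (SelD_Bad Ψ o)).card : ℝ) * ∑ j, ∑ ξ, R j ξ := by
            rw [Finset.mul_sum]
        _ ≤ _ := mul_le_mul_of_nonneg_left hR (by positivity)
    have h6 := le_of_mul_le_mul_right h5 hc
    rw [← Finset.sum_div, div_le_iff₀ h4d]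
    linarith
  obtain ⟨x, hx, hxW⟩ := Finset.exists_lt_of_sum_lt (s := goodS (SelD_L Ψ) (SelD_Bad Ψ o))
    (f := fun x => (∑ v : V, ∏ w, (1 + SelD_psi (Ψ v w (x v) (x w)))) / Real.exp (t + 1) +
      (∑ j, R j (fun i => x (r j i))) / (2 * 4 ^ d)) (g := fun _ => (1 : ℝ))
    (by
      rw [Finset.sum_add_distrib, sum_const, nsmul_eq_mul, mul_one]
      linarith)
  have hA : 0 ≤ (∑ v : V, ∏ w, (1 + SelD_psi (Ψ v w (x v) (x w)))) / Real.exp (t + 1) :=
    div_nonneg (Finset.sum_nonneg fun v _ => hpsi x v) hE.le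
  have hB : 0 ≤ (∑ j, R j (fun i => x (r j i))) / (2 * 4 ^ d) :=
    div_nonneg (Finset.sum_nonneg fun j _ => hR0 j _) h4d.le
  refine ⟨x, fun v => ?_, ?_⟩
  · have h5 : ∏ w, (1 + SelD_psi (Ψ v w (x v) (x w))) ≤
        ∑ v : V, ∏ w, (1 + SelD_psi (Ψ v w (x v) (x w))) :=
      Finset.single_le_sum (f := fun v => ∏ w, (1 + SelD_psi (Ψ v w (x v) (x w))))
        (fun u _ => hpsi x u) (mem_univ v)
    have h6 : (∑ v : V, ∏ w, (1 + SelD_psi (Ψ v w (x v) (x w)))) / Real.exp (t + 1) < 1 := by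
      linarith
    rw [div_lt_one hE] at h6
    have h7 := lt_of_le_of_lt h5 h6
    rw [hexp x hx v, Real.exp_lt_exp, div_lt_iff₀ (by norm_num)] at h7
    linarith
  · have h6 : (∑ j, R j (fun i => x (r j i))) / (2 * 4 ^ d) < 1 := by linarith
    rw [div_lt_one h4d] at h6
    exact h6.le

end FHD
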