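import Pool.Agent.FHA.Avg
import Pool.Agent.FHD.SelD
import Pool.Agent.FHD.AvgS

/-!
# FHD.StepA: random scales and random subintervals for all groups

PROOF (compare `Step_A`, `Step_phi`, `Step_phisum`, `Step_rowsum` in `Pool/Agent/FHA/Step.lean`, private lemmas can be copied).
`Ξ = Fin J × Fin (n ^ J)`, `|Ξ| = J n ^ J > 0`, `V = Fin d × Fin N`, `φ = Real.negMulLog`, `w i l g h = wtD π q i l g h`, `L = log K ≥ 0`, `δ > 0`,
`lam, mu > 0`.  For `z ≥ 0`: `φ z ≤ 2 L z + 1/K^2` (`Step_phi`).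
PAIRS: for `v = (i,g)`, `v' = (l,h)` let `Ψ v v' ξ ξ' = 0` if `i = l` and
`Ψ v v' ξ ξ' = (etaD .. i l g h ξ ξ' / lam + iotaD .. i l g h ξ ξ' / (δ lam)) √(w i l g h) / 2` otherwise.  Symmetry: `w i l g h = w l i h g`, and
`FHA.dens n (Z i l) a b u v = FHA.dens n (Z l i) b a v u`, the same for `FHA.irr`, by `hZ` (`cnt` by the bijection `Prod.swap`; for `irr` exchange the two
sums).  Mean values: by `FHA.avg_dens`, `FHA.avg_irr` (`J ≤ A i g`) the sum of `Ψ (i,g) (l,h)` over `ξ, ξ'` is at most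
`|Ξ|^2 (η/lam + (12/J) φ(η)/(δ lam)) √w / 2`, `η = FHA.dens n (Z i l) (A i g) (A l h) (U i g) (U l h)`.  Summing over `l ≠ i` and `h`, with `√w ≤ w`,
`∑_h w i l g h ≤ k ≤ K` and `hrow`: `∑ (12/J) φ(η) √w ≤ (12/J) (2 L lam + (d-1) K / K^2) ≤ (12/J) (2 L + d) lam ≤ δ lam` because `1/K ≤ lam`
and `2 L + d ≤ d (2 L + 1)`.  So the row sums are at most `|Ξ|^2 (1/2 + 1/2)`.  (Sums over `Fin N` are sums over `range N`,
`Finset.sum_range`; `∑ over (l,h) ∈ V` is `∑_l ∑_h`, and the terms with `l = i` are `0`, `Finset.sum_erase` / `Finset.filter_ne`.)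
REST: for `j : Fin k`, `ξ : Fin d → Ξ` let `R j ξ = (densS n S (a j ξ) (u j ξ) / mu + irrS n S (a' j ξ) (u j ξ) / (δ mu)) / 2` with
`a j ξ i = A i (q i (π i j)) - (ξ i).1`, `a' j ξ i = A i (q i (π i j)) - ((ξ i).1 + 1)`,
`u j ξ i = U i (q i (π i j)) * n ^ (ξ i).1 + ix (ξ i)`; variables `r j i = (i, q i (π i j))` (injective in `i`).  By `avgS_dens`, `avgS_irr`:
`∑_j ∑_ξ R j ξ ≤ |Ξ|^d (∑_j densS_j / mu + (6 d/J) ∑_j φ(densS_j) / (δ mu)) / 2` and `(6 d/J) ∑_j φ(densS_j) ≤ (6 d/J) (2 L mu + k/K^2) ≤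
(6 d / J) (2 L + 1) mu ≤ δ mu`.
`selD` (orientation `o v v' := v.1 < v'.1`, `|V| = d N`) gives `x : V → Ξ`; `s i g = x (i, g)` for `g < N`.  Row sums of `Ψ` at most `16 (t+1)`: both
parts are `≥ 0`, so the row sums of `etaD √w` are at most `32 (t+1) lam` and those of `iotaD √w` at most `δ 32 (t+1) lam`; in the same way
`∑_j densS ≤ 4 * 4 ^ d mu`, `∑_j irrS ≤ 4 * 4 ^ d δ mu`.
-/

set_option autoImplicit false

namespace FHD

open Finset

variable {d : ℕ}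

/-- density of the pairs for the chosen subintervals -/
noncomputable def etaD (n J : ℕ) (Z : Fin d → Fin d → Finset (ℕ × ℕ)) (A U : Fin d → ℕ → ℕ) (i l : Fin d)
    (g h : ℕ) (ξ ξ' : Fin J × Fin (n ^ J)) : ℝ :=
  FHA.dens n (Z i l) (A i g - ξ.1) (A l h - ξ'.1) (U i g * n ^ (ξ.1 : ℕ) + FHA.ix n J ξ)
    (U l h * n ^ (ξ'.1 : ℕ) + FHA.ix n J ξ')

/-- irregular part of the pairs for the chosen subintervals -/
noncomputable def iotaD (n J : ℕ) (Z : Fin d → Fin d → Finset (ℕ × ℕ)) (A U : Fin d → ℕ → ℕ) (i l : Fin d)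
    (g h : ℕ) (ξ ξ' : Fin J × Fin (n ^ J)) : ℝ :=
  FHA.irr n (Z i l) (A i g - (ξ.1 + 1)) (A l h - (ξ'.1 + 1)) (U i g * n ^ (ξ.1 : ℕ) + FHA.ix n J ξ)
    (U l h * n ^ (ξ'.1 : ℕ) + FHA.ix n J ξ')

private theorem StepA_cnt {Z Z' : Finset (ℕ × ℕ)} (h : ∀ x y, (x, y) ∈ Z ↔ (y, x) ∈ Z') (n a b u v : ℕ) :
    FHA.cnt n Z a b u v = FHA.cnt n Z' b a v u := by
  unfold FHA.cnt
  refine Finset.card_bij (fun z _ => (z.2, z.1)) ?_ ?_ ?_
  · rintro ⟨x, y⟩ hz
    simp only [mem_filter] at hz ⊢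
    exact ⟨(h x y).1 hz.1, hz.2.2, hz.2.1⟩
  · rintro ⟨x, y⟩ _ ⟨x', y'⟩ _ e
    simp only [Prod.mk.injEq] at e ⊢
    exact ⟨e.2, e.1⟩
  · rintro ⟨x, y⟩ hz
    simp only [mem_filter] at hz
    refine ⟨(y, x), ?_, rfl⟩
    simp only [mem_filter]
    exact ⟨(h y x).2 hz.1, hz.2.2, hz.2.1⟩

private theorem StepA_dens {Z Z' : Finset (ℕ × ℕ)} (h : ∀ x y, (x, y) ∈ Z ↔ (y, x) ∈ Z') (n a b u v : ℕ) :
    FHA.dens n Z a b u v = FHA.dens n Z' b a v u := by
  unfold FHA.dens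
  rw [StepA_cnt h, mul_comm]

private theorem StepA_irr {Z Z' : Finset (ℕ × ℕ)} (h : ∀ x y, (x, y) ∈ Z ↔ (y, x) ∈ Z') (n a b u v : ℕ) :
    FHA.irr n Z a b u v = FHA.irr n Z' b a v u := by
  unfold FHA.irr
  rw [Finset.sum_comm]
  simp only [StepA_dens h]

theorem etaD_symm (n J : ℕ) (Z : Fin d → Fin d → Finset (ℕ × ℕ)) (hZ : ∀ i l x y, (x, y) ∈ Z i l ↔ (y, x) ∈ Z l i)
    (A U : Fin d → ℕ → ℕ) (i l : Fin d) (g h : ℕ) (ξ ξ' : Fin J × Fin (n ^ J)) :
    etaD n J Z A U i l g h ξ ξ' = etaD n J Z A U l i h g ξ' ξ := by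
  unfold etaD
  exact StepA_dens (hZ i l) _ _ _ _ _

private theorem iotaD_symm (n J : ℕ) (Z : Fin d → Fin d → Finset (ℕ × ℕ))
    (hZ : ∀ i l x y, (x, y) ∈ Z i l ↔ (y, x) ∈ Z l i)
    (A U : Fin d → ℕ → ℕ) (i l : Fin d) (g h : ℕ) (ξ ξ' : Fin J × Fin (n ^ J)) :
    iotaD n J Z A U i l g h ξ ξ' = iotaD n J Z A U l i h g ξ' ξ := by
  unfold iotaD
  exact StepA_irr (hZ i l) _ _ _ _ _

private theorem StepA_wt {k : ℕ} (π : Fin d → Equiv.Perm (Fin k)) (q : Fin d → Fin k → ℕ) (i l : Fin d) (g h : ℕ) :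
    wtD π q i l g h = wtD π q l i h g := by
  unfold wtD
  congr 1
  ext j
  simp only [mem_filter, mem_univ, true_and]
  exact and_comm

private theorem StepA_wt_row {k : ℕ} (π : Fin d → Equiv.Perm (Fin k)) (q : Fin d → Fin k → ℕ) (i l : Fin d)
    (g N : ℕ) : ∑ h ∈ range N, wtD π q i l g h ≤ k := by
  unfold wtD
  simp only [Finset.card_filter]
  rw [Finset.sum_comm]
  refine (Finset.sum_le_card_nsmul _ _ 1 fun j _ => ?_).trans ?_
  · by_cases hp : q i (π i j) = g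
    · simp only [hp, true_and]
      rw [Finset.sum_ite_eq]
      split_ifs <;> omega
    · simp [hp]
  · simp

private theorem StepA_phi {K : ℕ} (hK : 2 ≤ K) {x : ℝ} (hx : 0 ≤ x) :
    Real.negMulLog x ≤ 2 * Real.log K * x + 1 / (K : ℝ) ^ 2 := by
  have hK0 : (0 : ℝ) < K := by
    have : 0 < K := by omega
    exact_mod_cast this
  have hK2 : (0 : ℝ) < 1 / (K : ℝ) ^ 2 := by positivity
  rcases hx.eq_or_lt with h0 | h0
  · rw [← h0, Real.negMulLog_zero, mul_zero, zero_add]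
    exact hK2.le
  · have h1 : Real.log (1 / ((K : ℝ) ^ 2 * x)) ≤ 1 / ((K : ℝ) ^ 2 * x) - 1 :=
      Real.log_le_sub_one_of_pos (by positivity)
    rw [one_div, Real.log_inv, Real.log_mul (by positivity) h0.ne', Real.log_pow] at h1
    have h2 := mul_le_mul_of_nonneg_left h1 h0.le
    have h3 : x * (((K : ℝ) ^ 2 * x)⁻¹ - 1) = 1 / (K : ℝ) ^ 2 - x := by
      field_simp
    rw [h3] at h2
    unfold Real.negMulLog
    push_cast at h2
    nlinarith

private theorem StepA_sqrt (w : ℕ) : √(w : ℝ) ≤ w := by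
  rw [Real.sqrt_le_iff]
  refine ⟨Nat.cast_nonneg _, ?_⟩
  have : w ≤ w ^ 2 := Nat.le_self_pow two_ne_zero w
  exact_mod_cast this

/-- the sum of the entropies of the pairs -/
private theorem StepA_phisum {ι : Type} {K : ℕ} (hK : 2 ≤ K) {lam W : ℝ} (T : Finset ι) (η : ι → ℝ)
    (hη : ∀ h ∈ T, 0 ≤ η h) (w : ι → ℕ) (hw : ∑ h ∈ T, (w h : ℝ) ≤ W)
    (hs : ∑ h ∈ T, η h * √(w h : ℝ) ≤ lam) :
    ∑ h ∈ T, Real.negMulLog (η h) * √(w h : ℝ) ≤ 2 * Real.log K * lam + 1 / (K : ℝ) ^ 2 * W := by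
  have hlog : 0 ≤ Real.log K := Real.log_natCast_nonneg K
  have h1 : ∑ h ∈ T, Real.negMulLog (η h) * √(w h : ℝ) ≤
      ∑ h ∈ T, (2 * Real.log K * (η h * √(w h : ℝ)) + 1 / (K : ℝ) ^ 2 * (w h : ℝ)) := by
    refine Finset.sum_le_sum fun h hh => ?_
    have g1 := mul_le_mul_of_nonneg_right (StepA_phi hK (hη h hh)) (Real.sqrt_nonneg (w h : ℝ))
    have g2 := mul_le_mul_of_nonneg_left (StepA_sqrt (w h)) (by positivity : 0 ≤ 1 / (K : ℝ) ^ 2)
    calc Real.negMulLog (η h) * √(w h : ℝ) ≤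
        (2 * Real.log K * η h + 1 / (K : ℝ) ^ 2) * √(w h : ℝ) := g1
      _ = 2 * Real.log K * (η h * √(w h : ℝ)) + 1 / (K : ℝ) ^ 2 * √(w h : ℝ) := by ring
      _ ≤ _ := add_le_add le_rfl g2
  rw [Finset.sum_add_distrib, ← Finset.mul_sum, ← Finset.mul_sum] at h1
  have h3 : 1 / (K : ℝ) ^ 2 * ∑ h ∈ T, (w h : ℝ) ≤ 1 / (K : ℝ) ^ 2 * W :=
    mul_le_mul_of_nonneg_left hw (by positivity)
  have h4 := mul_le_mul_of_nonneg_left hs (by positivity : 0 ≤ 2 * Real.log (K : ℝ))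
  linarith

/-- the sum of the entropies of the points -/
private theorem StepA_phirest {ι : Type} {K : ℕ} (hK : 2 ≤ K) {mu W : ℝ} (T : Finset ι) (η : ι → ℝ)
    (hη : ∀ h ∈ T, 0 ≤ η h) (hw : (#T : ℝ) ≤ W) (hs : ∑ h ∈ T, η h ≤ mu) :
    ∑ h ∈ T, Real.negMulLog (η h) ≤ 2 * Real.log K * mu + 1 / (K : ℝ) ^ 2 * W := by
  have h := StepA_phisum hK (lam := mu) (W := W) T η hη (fun _ => 1)
    (by simpa using hw) (by simpa using hs)
  simpa using h

/-- the mean value of a row of pairs -/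
private theorem StepA_rowsum {ι : Type} {T : Finset ι} {lam δ e j C2 L : ℝ} (hlam : 0 < lam) (hL : 0 < L)
    (hj : 0 < j) (he : 0 < e) (hδ : δ = e * L / j) (hC : 0 ≤ C2) (η φ w : ι → ℝ)
    (h1 : ∑ h ∈ T, η h * w h ≤ lam) (h2 : ∑ h ∈ T, φ h * w h ≤ L * lam) :
    ∑ h ∈ T, (w h / (2 * lam) * (C2 * η h) + w h / (2 * δ * lam) * (C2 * (e / j * φ h))) ≤ C2 := by
  have hδ0 : 0 < δ := by rw [hδ]; positivity
  have e1 : ∑ h ∈ T, (w h / (2 * lam) * (C2 * η h) + w h / (2 * δ * lam) * (C2 * (e / j * φ h))) =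
      C2 / (2 * lam) * ∑ h ∈ T, η h * w h +
      C2 * (e / j) / (2 * δ * lam) * ∑ h ∈ T, φ h * w h := by
    rw [Finset.mul_sum, Finset.mul_sum, ← Finset.sum_add_distrib]
    refine Finset.sum_congr rfl fun h _ => ?_
    ring
  rw [e1]
  have g1 := mul_le_mul_of_nonneg_left h1 (by positivity : 0 ≤ C2 / (2 * lam))
  have g2 := mul_le_mul_of_nonneg_left h2 (by positivity : 0 ≤ C2 * (e / j) / (2 * δ * lam))
  have e2 : C2 / (2 * lam) * lam = C2 / 2 := by field_simp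
  have e3 : C2 * (e / j) / (2 * δ * lam) * (L * lam) = C2 / 2 := by
    rw [hδ]
    field_simp
  linarith

/-- a row sum of pair functions as a sum over all the variables -/
private theorem StepA_dsum {N : ℕ} (i : Fin d) (f : Fin d → ℕ → ℝ) :
    ∑ w : Fin d × Fin N, (if i = w.1 then 0 else f w.1 w.2) = ∑ l ∈ univ.erase i, ∑ h ∈ range N, f l h := by
  rw [Fintype.sum_prod_type]
  rw [← Finset.sum_erase univ (a := i)]
  · refine Finset.sum_congr rfl fun l hl => ?_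
    rw [Finset.sum_range]
    refine Finset.sum_congr rfl fun h _ => ?_
    rw [if_neg]
    intro e
    exact (Finset.mem_erase.1 hl).1 e.symm
  · refine Finset.sum_eq_zero fun h _ => ?_
    rw [if_pos rfl]

/-- mean value of a pair function -/
private theorem StepA_mean {n J : ℕ} (hn : 1 ≤ n) (hJ : 1 ≤ J) (Z : Fin d → Fin d → Finset (ℕ × ℕ))
    (A U : Fin d → ℕ → ℕ) (i l : Fin d) (g h : ℕ) (hA : J ≤ A i g) (hB : J ≤ A l h) {x y : ℝ} (hx : 0 ≤ x)
    (hy : 0 ≤ y) :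
    ∑ ξ, ∑ ξ', (x * etaD n J Z A U i l g h ξ ξ' + y * iotaD n J Z A U i l g h ξ ξ') ≤
      x * (((J : ℝ) * (n : ℝ) ^ J) ^ 2 * FHA.dens n (Z i l) (A i g) (A l h) (U i g) (U l h)) +
      y * (((J : ℝ) * (n : ℝ) ^ J) ^ 2 *
        (12 / J * Real.negMulLog (FHA.dens n (Z i l) (A i g) (A l h) (U i g) (U l h)))) := by
  simp only [Finset.sum_add_distrib, ← Finset.mul_sum]
  refine add_le_add (mul_le_mul_of_nonneg_left ?_ hx) (mul_le_mul_of_nonneg_left ?_ hy)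
  · exact (FHA.avg_dens hn (Z i l) J (A i g) (A l h) (U i g) (U l h) hA hB).le
  · exact FHA.avg_irr hn (Z i l) J (A i g) (A l h) (U i g) (U l h) hJ hA hB

/-- mean value of a point function -/
private theorem StepA_meanS {n J : ℕ} (hn : 1 ≤ n) (hJ : 1 ≤ J) (S : Finset (Fin d → ℕ))
    (A U : Fin d → ℕ) (hA : ∀ i, J ≤ A i) {x y : ℝ} (hx : 0 ≤ x) (hy : 0 ≤ y) :
    ∑ ξ : Fin d → Fin J × Fin (n ^ J),
      (x * densS n S (fun i => A i - (ξ i).1) (fun i => U i * n ^ ((ξ i).1 : ℕ) + FHA.ix n J (ξ i)) +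
      y * irrS n S (fun i => A i - ((ξ i).1 + 1)) (fun i => U i * n ^ ((ξ i).1 : ℕ) + FHA.ix n J (ξ i))) ≤
      x * (((J : ℝ) * (n : ℝ) ^ J) ^ d * densS n S A U) +
      y * (((J : ℝ) * (n : ℝ) ^ J) ^ d * (6 * d / J * Real.negMulLog (densS n S A U))) := by
  simp only [Finset.sum_add_distrib, ← Finset.mul_sum]
  refine add_le_add (mul_le_mul_of_nonneg_left ?_ hx) (mul_le_mul_of_nonneg_left ?_ hy)
  · exact (avgS_dens hn S J A U hA).le
  · exact avgS_irr hn S hJ A U hA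

theorem stepA {n J k K N D t : ℕ} (hd : 2 ≤ d) (hn : 1 ≤ n) (hJ : 1 ≤ J) (hk : k ≤ K) (hK : 2 ≤ K)
    (Z : Fin d → Fin d → Finset (ℕ × ℕ)) (hZ : ∀ i l x y, (x, y) ∈ Z i l ↔ (y, x) ∈ Z l i)
    (S : Finset (Fin d → ℕ)) (π : Fin d → Equiv.Perm (Fin k)) {lam mu δ : ℝ} (hlam : 1 / (K : ℝ) ≤ lam)
    (hmu : 1 / (K : ℝ) ≤ mu) (hδ : δ = 12 * d * (2 * Real.log K + 1) / J) (ht : 4 * (d * N) < 2 ^ t)
    (q : Fin d → Fin k → ℕ) (hqN : ∀ i x, q i x < N) (A U : Fin d → ℕ → ℕ) (hA : ∀ i, ∀ g < N, D + J ≤ A i g)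
    (hrow : ∀ i, ∀ g < N, ∑ l ∈ univ.erase i, ∑ h ∈ range N,
      FHA.dens n (Z i l) (A i g) (A l h) (U i g) (U l h) * √(wtD π q i l g h) ≤ lam)
    (hrest : ∑ j : Fin k, densS n S (fun i => A i (q i (π i j))) (fun i => U i (q i (π i j))) ≤ mu) :
    ∃ s : Fin d → ℕ → Fin J × Fin (n ^ J),
      (∀ i, ∀ g < N, ∑ l ∈ univ.erase i, ∑ h ∈ range N,
        etaD n J Z A U i l g h (s i g) (s l h) * √(wtD π q i l g h) ≤ 32 * (t + 1) * lam) ∧
      (∀ i, ∀ g < N, ∑ l ∈ univ.erase i, ∑ h ∈ range N,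
        iotaD n J Z A U i l g h (s i g) (s l h) * √(wtD π q i l g h) ≤ δ * (32 * (t + 1) * lam)) ∧
      ∑ j : Fin k, densS n S (fun i => A i (q i (π i j)) - (s i (q i (π i j))).1)
        (fun i => U i (q i (π i j)) * n ^ ((s i (q i (π i j))).1 : ℕ) + FHA.ix n J (s i (q i (π i j)))) ≤
          4 ^ (d + 1) * mu ∧
      ∑ j : Fin k, irrS n S (fun i => A i (q i (π i j)) - ((s i (q i (π i j))).1 + 1))
        (fun i => U i (q i (π i j)) * n ^ ((s i (q i (π i j))).1 : ℕ) + FHA.ix n J (s i (q i (π i j)))) ≤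
          δ * (4 ^ (d + 1) * mu) := by
  have hK0 : (0 : ℝ) < K := by
    have : 0 < K := by omega
    exact_mod_cast this
  have hlam0 : 0 < lam := lt_of_lt_of_le (by positivity) hlam
  have hmu0 : 0 < mu := lt_of_lt_of_le (by positivity) hmu
  have hJ0 : (0 : ℝ) < J := by exact_mod_cast hJ
  have hd0 : (0 : ℝ) < d := by
    have : 0 < d := by omega
    exact_mod_cast this
  have hd2 : (2 : ℝ) ≤ d := by exact_mod_cast hd
  have hlog : 0 ≤ Real.log K := Real.log_natCast_nonneg K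
  have hL : 0 < 2 * Real.log K + 1 := by positivity
  have hδ0 : 0 < δ := by rw [hδ]; positivity
  have hne : Nonempty (Fin J × Fin (n ^ J)) :=
    ⟨(⟨0, hJ⟩, ⟨0, Nat.pow_pos hn⟩)⟩
  have hcard : (Fintype.card (Fin J × Fin (n ^ J)) : ℝ) = (J : ℝ) * (n : ℝ) ^ J := by
    rw [Fintype.card_prod, Fintype.card_fin, Fintype.card_fin]
    push_cast
    ring
  have hkK : (k : ℝ) ≤ K := by exact_mod_cast hk
  have he0 : ∀ i l g h ξ ξ', 0 ≤ etaD n J Z A U i l g h ξ ξ' := fun _ _ _ _ _ _ => FHA.dens_nonneg _ _ _ _ _ _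
  have hi0 : ∀ i l g h ξ ξ', 0 ≤ iotaD n J Z A U i l g h ξ ξ' := fun _ _ _ _ _ _ => FHA.irr_nonneg _ _ _ _ _ _
  -- the pair functions
  obtain ⟨Φ, hΦ⟩ : ∃ Φ : Fin d → Fin d → ℕ → ℕ → Fin J × Fin (n ^ J) → Fin J × Fin (n ^ J) → ℝ,
      ∀ i l g h ξ ξ', Φ i l g h ξ ξ' = √(wtD π q i l g h) / (2 * lam) * etaD n J Z A U i l g h ξ ξ' +
        √(wtD π q i l g h) / (2 * δ * lam) * iotaD n J Z A U i l g h ξ ξ' :=
    ⟨fun i l g h ξ ξ' => _, fun _ _ _ _ _ _ => rfl⟩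
  have hΦ0 : ∀ i l g h ξ ξ', 0 ≤ Φ i l g h ξ ξ' := fun i l g h ξ ξ' => by
    rw [hΦ]
    have := he0 i l g h ξ ξ'
    have := hi0 i l g h ξ ξ'
    positivity
  have hΦs : ∀ i l g h ξ ξ', Φ i l g h ξ ξ' = Φ l i h g ξ' ξ := fun i l g h ξ ξ' => by
    rw [hΦ, hΦ, StepA_wt π q i l g h, etaD_symm n J Z hZ A U i l g h, iotaD_symm n J Z hZ A U i l g h]
  have hC : 0 ≤ ((J : ℝ) * (n : ℝ) ^ J) ^ 2 := by positivity
  have hCd : 0 ≤ ((J : ℝ) * (n : ℝ) ^ J) ^ d := by positivity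
  have hsum : ∀ i, ∀ g < N, ∑ l ∈ univ.erase i, ∑ h ∈ range N, ∑ ξ, ∑ ξ', Φ i l g h ξ ξ' ≤
      ((J : ℝ) * (n : ℝ) ^ J) ^ 2 := by
    intro i g hg
    have h1 : ∑ l ∈ univ.erase i, ∑ h ∈ range N, ∑ ξ, ∑ ξ', Φ i l g h ξ ξ' ≤
        ∑ l ∈ univ.erase i, ∑ h ∈ range N, (√(wtD π q i l g h) / (2 * lam) *
        (((J : ℝ) * (n : ℝ) ^ J) ^ 2 * FHA.dens n (Z i l) (A i g) (A l h) (U i g) (U l h)) +
        √(wtD π q i l g h) / (2 * δ * lam) * (((J : ℝ) * (n : ℝ) ^ J) ^ 2 *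
        (12 / J * Real.negMulLog (FHA.dens n (Z i l) (A i g) (A l h) (U i g) (U l h))))) := by
      refine Finset.sum_le_sum fun l _ => Finset.sum_le_sum fun h hh => ?_
      have hJA : J ≤ A i g := by have := hA i g hg; omega
      have hJB : J ≤ A l h := by have := hA l h (Finset.mem_range.1 hh); omega
      simp only [hΦ]
      exact StepA_mean hn hJ Z A U i l g h hJA hJB (by positivity) (by positivity)
    refine h1.trans ?_
    rw [← Finset.sum_product']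
    have h2 := hrow i g hg
    rw [← Finset.sum_product'] at h2
    have hw : ∑ z ∈ univ.erase i ×ˢ range N, ((wtD π q i z.1 g z.2 : ℕ) : ℝ) ≤ ((d : ℝ) - 1) * K := by
      rw [Finset.sum_product]
      have h3 : ∀ l ∈ univ.erase i, ∑ h ∈ range N, ((wtD π q i l g h : ℕ) : ℝ) ≤ K := by
        intro l _
        have h4 := (StepA_wt_row π q i l g N).trans hk
        exact_mod_cast h4
      refine (Finset.sum_le_card_nsmul _ _ _ h3).trans ?_
      rw [Finset.card_erase_of_mem (Finset.mem_univ i), Finset.card_univ, Fintype.card_fin, nsmul_eq_mul]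
      rw [Nat.cast_sub (by omega), Nat.cast_one]
    have h5 := StepA_phisum hK (univ.erase i ×ˢ range N)
      (fun z => FHA.dens n (Z i z.1) (A i g) (A z.1 z.2) (U i g) (U z.1 z.2))
      (fun _ _ => FHA.dens_nonneg _ _ _ _ _ _) (fun z => wtD π q i z.1 g z.2) hw h2
    have h6 : 1 / (K : ℝ) ^ 2 * (((d : ℝ) - 1) * K) ≤ ((d : ℝ) - 1) * lam := by
      have e : 1 / (K : ℝ) ^ 2 * (((d : ℝ) - 1) * K) = ((d : ℝ) - 1) * (1 / K) := by field_simp
      rw [e]
      exact mul_le_mul_of_nonneg_left hlam (by linarith)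
    have h7 : 2 * Real.log K * lam + 1 / (K : ℝ) ^ 2 * (((d : ℝ) - 1) * K) ≤
        (d * (2 * Real.log K + 1)) * lam := by
      have h8 : 0 ≤ (d - 1) * (2 * Real.log K) * lam + lam := by
        have : 0 ≤ ((d : ℝ) - 1) := by linarith
        positivity
      nlinarith
    exact StepA_rowsum (T := univ.erase i ×ˢ range N) (e := 12) (L := d * (2 * Real.log K + 1)) hlam0
      (by positivity) hJ0 (by norm_num) (by rw [hδ]; ring) hC
      (fun z => FHA.dens n (Z i z.1) (A i g) (A z.1 z.2) (U i g) (U z.1 z.2))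
      (fun z => Real.negMulLog (FHA.dens n (Z i z.1) (A i g) (A z.1 z.2) (U i g) (U z.1 z.2)))
      (fun z => √(wtD π q i z.1 g z.2)) h2 (h5.trans h7)
  -- the point functions
  obtain ⟨R, hR⟩ : ∃ R : Fin k → (Fin d → Fin J × Fin (n ^ J)) → ℝ, ∀ j ξ, R j ξ =
      1 / (2 * mu) * densS n S (fun i => A i (q i (π i j)) - (ξ i).1)
        (fun i => U i (q i (π i j)) * n ^ ((ξ i).1 : ℕ) + FHA.ix n J (ξ i)) +
      1 / (2 * δ * mu) * irrS n S (fun i => A i (q i (π i j)) - ((ξ i).1 + 1))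
        (fun i => U i (q i (π i j)) * n ^ ((ξ i).1 : ℕ) + FHA.ix n J (ξ i)) :=
    ⟨fun j ξ => _, fun _ _ => rfl⟩
  have hR0 : ∀ j ξ, 0 ≤ R j ξ := fun j ξ => by
    rw [hR]
    have h1 := densS_nonneg n S (fun i => A i (q i (π i j)) - (ξ i).1)
        (fun i => U i (q i (π i j)) * n ^ ((ξ i).1 : ℕ) + FHA.ix n J (ξ i))
    have h2 := irrS_nonneg n S (fun i => A i (q i (π i j)) - ((ξ i).1 + 1))
        (fun i => U i (q i (π i j)) * n ^ ((ξ i).1 : ℕ) + FHA.ix n J (ξ i))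
    positivity
  have hRs : ∑ j, ∑ ξ, R j ξ ≤ ((J : ℝ) * (n : ℝ) ^ J) ^ d := by
    have h1 : ∑ j, ∑ ξ, R j ξ ≤ ∑ j : Fin k, (1 / (2 * mu) * (((J : ℝ) * (n : ℝ) ^ J) ^ d *
        densS n S (fun i => A i (q i (π i j))) (fun i => U i (q i (π i j)))) +
        1 / (2 * δ * mu) * (((J : ℝ) * (n : ℝ) ^ J) ^ d * (6 * d / J *
          Real.negMulLog (densS n S (fun i => A i (q i (π i j))) (fun i => U i (q i (π i j))))))) := by
      refine Finset.sum_le_sum fun j _ => ?_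
      simp only [hR]
      refine StepA_meanS hn hJ S (fun i => A i (q i (π i j))) (fun i => U i (q i (π i j))) (fun i => ?_)
        (by positivity) (by positivity)
      have := hA i _ (hqN i (π i j))
      omega
    refine h1.trans ?_
    have h5 := StepA_phirest hK (univ : Finset (Fin k))
      (fun j => densS n S (fun i => A i (q i (π i j))) (fun i => U i (q i (π i j))))
      (fun _ _ => densS_nonneg _ _ _ _) (W := (K : ℝ)) (by simpa using hkK) hrest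
    have h6 : 1 / (K : ℝ) ^ 2 * K ≤ mu := by
      have e : 1 / (K : ℝ) ^ 2 * K = 1 / K := by field_simp
      rw [e]
      exact hmu
    have h7 : 2 * Real.log K * mu + 1 / (K : ℝ) ^ 2 * K ≤ (2 * (2 * Real.log K + 1)) * mu := by
      have h8 : 0 ≤ 2 * Real.log K * mu + mu := by positivity
      nlinarith
    have h9 := StepA_rowsum (T := (univ : Finset (Fin k))) (δ := δ) (e := 6 * d) (L := 2 * (2 * Real.log K + 1)) hmu0
      (by positivity) hJ0 (by positivity) (by rw [hδ]; ring) hCd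
      (fun j => densS n S (fun i => A i (q i (π i j))) (fun i => U i (q i (π i j))))
      (fun j => Real.negMulLog (densS n S (fun i => A i (q i (π i j))) (fun i => U i (q i (π i j)))))
      (fun _ => 1) (by simpa using hrest) (by simpa using h5.trans h7)
    exact h9
  obtain ⟨x, hx, hxR⟩ := selD (V := Fin d × Fin N) (Ω := Fin J × Fin (n ^ J)) (ι := Fin k) (d := d) (t := t)
    (by rwa [Fintype.card_prod, Fintype.card_fin, Fintype.card_fin])
    (fun v w a b => if v.1 = w.1 then 0 else Φ v.1 w.1 v.2 w.2 a b)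
    (fun v w a b => by
      split_ifs
      · exact le_rfl
      · exact hΦ0 _ _ _ _ _ _)
    (fun v w a b => by
      by_cases h : v.1 = w.1
      · rw [if_pos h, if_pos h.symm]
      · rw [if_neg h, if_neg fun e => h e.symm, hΦs])
    (fun v a b => if_pos rfl)
    (fun v => by
      rw [hcard]
      have e1 : ∑ w : Fin d × Fin N, ∑ a, ∑ b, (if v.1 = w.1 then (0 : ℝ) else Φ v.1 w.1 v.2 w.2 a b) =
          ∑ w : Fin d × Fin N, (if v.1 = w.1 then 0 else ∑ a, ∑ b, Φ v.1 w.1 v.2 w.2 a b) := by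
        refine Finset.sum_congr rfl fun w _ => ?_
        split_ifs
        · simp
        · rfl
      rw [e1, StepA_dsum v.1 (fun l h => ∑ a, ∑ b, Φ v.1 l v.2 h a b)]
      exact hsum v.1 v.2 v.2.2)
    (fun v w => v.1 < w.1) (fun v w h => lt_asymm h)
    (fun v w => by
      rcases lt_trichotomy v.1 w.1 with h | h | h
      · exact Or.inl h
      · exact Or.inr (Or.inr fun a b => if_pos h)
      · exact Or.inr (Or.inl h))
    (fun j i => (i, ⟨q i (π i j), hqN i (π i j)⟩))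
    (fun j i i' h => (Prod.mk.inj h).1) R hR0 (by rw [hcard]; exact hRs)
  obtain ⟨s, hs⟩ : ∃ s : Fin d → ℕ → Fin J × Fin (n ^ J), ∀ i g, ∀ h : g < N, s i g = x (i, ⟨g, h⟩) :=
    ⟨fun i g => if h : g < N then x (i, ⟨g, h⟩) else hne.some, fun i g h => dif_pos h⟩
  have hrowΦ : ∀ i, ∀ g < N, ∑ l ∈ univ.erase i, ∑ h ∈ range N, Φ i l g h (s i g) (s l h) ≤ 16 * (t + 1) := by
    intro i g hg
    refine le_trans (le_of_eq ?_) (hx (i, ⟨g, hg⟩))
    rw [← StepA_dsum i (fun l h => Φ i l g h (s i g) (s l h))]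
    refine Finset.sum_congr rfl fun w _ => ?_
    dsimp only
    by_cases h : i = w.1
    · rw [if_pos h, if_pos h]
    · rw [if_neg h, if_neg h, hs i g hg, hs w.1 w.2 w.2.2]
  have hle1 : ∀ i l g h ξ ξ', etaD n J Z A U i l g h ξ ξ' * √(wtD π q i l g h) ≤
      2 * lam * Φ i l g h ξ ξ' := fun i l g h ξ ξ' => by
    have h1 := hi0 i l g h ξ ξ'
    have h2 : 2 * lam * Φ i l g h ξ ξ' = etaD n J Z A U i l g h ξ ξ' * √(wtD π q i l g h) +
        √(wtD π q i l g h) * iotaD n J Z A U i l g h ξ ξ' / δ := by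
      rw [hΦ]
      field_simp
    rw [h2]
    have : 0 ≤ √(wtD π q i l g h) * iotaD n J Z A U i l g h ξ ξ' / δ := by positivity
    linarith
  have hle2 : ∀ i l g h ξ ξ', iotaD n J Z A U i l g h ξ ξ' * √(wtD π q i l g h) ≤
      2 * δ * lam * Φ i l g h ξ ξ' := fun i l g h ξ ξ' => by
    have h1 := he0 i l g h ξ ξ'
    have h2 : 2 * δ * lam * Φ i l g h ξ ξ' = iotaD n J Z A U i l g h ξ ξ' * √(wtD π q i l g h) +
        δ * √(wtD π q i l g h) * etaD n J Z A U i l g h ξ ξ' := by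
      rw [hΦ]
      field_simp
      ring
    rw [h2]
    have : 0 ≤ δ * √(wtD π q i l g h) * etaD n J Z A U i l g h ξ ξ' := by positivity
    linarith
  have hxs : ∀ j : Fin k, (fun i => x (i, ⟨q i (π i j), hqN i (π i j)⟩)) = fun i => s i (q i (π i j)) :=
    fun j => funext fun i => (hs i _ (hqN i (π i j))).symm
  simp only [hxs] at hxR
  refine ⟨s, fun i g hg => ?_, fun i g hg => ?_, ?_, ?_⟩
  · refine (Finset.sum_le_sum fun l _ => Finset.sum_le_sum fun h _ => hle1 i l g h (s i g) (s l h)).trans ?_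
    simp only [← Finset.mul_sum]
    have := mul_le_mul_of_nonneg_left (hrowΦ i g hg) (by positivity : 0 ≤ 2 * lam)
    linarith
  · refine (Finset.sum_le_sum fun l _ => Finset.sum_le_sum fun h _ => hle2 i l g h (s i g) (s l h)).trans ?_
    simp only [← Finset.mul_sum]
    have := mul_le_mul_of_nonneg_left (hrowΦ i g hg) (by positivity : 0 ≤ 2 * δ * lam)
    linarith
  · have h1 : ∀ j : Fin k, densS n S (fun i => A i (q i (π i j)) - (s i (q i (π i j))).1)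
        (fun i => U i (q i (π i j)) * n ^ ((s i (q i (π i j))).1 : ℕ) + FHA.ix n J (s i (q i (π i j)))) ≤
        2 * mu * R j (fun i => s i (q i (π i j))) := by
      intro j
      rw [hR]
      have h2 := irrS_nonneg n S (fun i => A i (q i (π i j)) - ((s i (q i (π i j))).1 + 1))
        (fun i => U i (q i (π i j)) * n ^ ((s i (q i (π i j))).1 : ℕ) + FHA.ix n J (s i (q i (π i j))))
      have h3 : ∀ a b : ℝ, 2 * mu * (1 / (2 * mu) * a + 1 / (2 * δ * mu) * b) = a + b / δ := by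
        intro a b
        field_simp
      rw [h3]
      have := div_nonneg h2 hδ0.le
      linarith
    refine (Finset.sum_le_sum fun j _ => h1 j).trans ?_
    rw [← Finset.mul_sum]
    have := mul_le_mul_of_nonneg_left hxR (by positivity : 0 ≤ 2 * mu)
    rw [pow_succ]
    linarith
  · have h1 : ∀ j : Fin k, irrS n S (fun i => A i (q i (π i j)) - ((s i (q i (π i j))).1 + 1))
        (fun i => U i (q i (π i j)) * n ^ ((s i (q i (π i j))).1 : ℕ) + FHA.ix n J (s i (q i (π i j)))) ≤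
        2 * δ * mu * R j (fun i => s i (q i (π i j))) := by
      intro j
      rw [hR]
      have h2 := densS_nonneg n S (fun i => A i (q i (π i j)) - (s i (q i (π i j))).1)
        (fun i => U i (q i (π i j)) * n ^ ((s i (q i (π i j))).1 : ℕ) + FHA.ix n J (s i (q i (π i j))))
      have h3 : ∀ a b : ℝ, 2 * δ * mu * (1 / (2 * mu) * a + 1 / (2 * δ * mu) * b) = δ * a + b := by
        intro a b
        field_simp
      rw [h3]
      have := mul_nonneg hδ0.le h2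
      linarith
    refine (Finset.sum_le_sum fun j _ => h1 j).trans ?_
    rw [← Finset.mul_sum]
    have := mul_le_mul_of_nonneg_left hxR (by positivity : 0 ≤ 2 * δ * mu)
    rw [pow_succ]
    linarith

end FHD
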