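import Pool.Agent.FHD.StepA
import Pool.Agent.FHD.BalD

/-!
# FHD.StepD: one step of the embedding

PROOF (compare `FHA.step` in `Pool/Agent/FHA/Step.lean`; its private lemmas `Step_ix`, `Step_int`, `Step_order`, `Step_eq`, `Step_mono`, `Step_lt`,
`Step_sqrtf`, `Step_new` can be copied).  Unfold `StD`: `q, A, U`.  `n ≥ 2`, `J ≥ 1` (from `hJ`), `δ = 12 d (2 log K + 1) / J > 0`, `n ^ (d+1) δ ≤ 1`, so
`n ^ 3 δ ≤ 1` (`d ≥ 2`) and `n ^ d δ ≤ 1`.
(A) `stepA` gives `s`; `lam' = 32 (t+1) lam`, `mu' = 4 ^ (d+1) mu`; `E i l g h = etaD n J Z A U i l g h (s i g) (s l h)`, `I` the same with `iotaD`.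
(B) Apply `balD` to `f i l j = (E i l (q i (π i j)) (q l (π l j)))^2` (symmetric by `etaD_symm`, not needed) and `lam'`:
`∑_{j : q i (π i j) = g, q l (π l j) = h} f i l j = w i l g h * E^2`, so its square root is `E √w`.  Get `c`.
(C) New state: `q' i x = q i x * n + c i x` (`< N n`, monotone: if `q i x < q i y` clear, if `q i x = q i y` by `balD`); for the
label `G = g n + x` (`g = G / n`, `x = G % n`) the interval of level `A' i G = A i g - ((s i g).1 + 1) ≥ D` with index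
`U' i G = (U i g * n ^ (s i g).1 + ix (s i g)) * n + x`.
Order: `ix + 1 ≤ n ^ (s i g).1`, so the new interval is contained in that of `g`: `(U' i G + 1) n ^ (A' i G) ≤ (U i g + 1) n ^ (A i g)` and
`U i g n ^ (A i g) ≤ U' i G n ^ (A' i G)`; within a group the indices increase.  Sizes by `balD`.
Pairs: by `FHA.dens_child_le` (`A i g - (ξ.1 + 1) + 1 = A i g - ξ.1`) the new density of `(g n + x, h n + y)` is `≤ 2 E + n^2 I`.  For fixed `i`, `g`, `x`:
`∑_{l ≠ i} ∑_{h,y} 2 E √(w') ≤ 2 * 9 lam'` (`balD`; the square root there is `E √w'`, `w'` the number of the points in both new groups), and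
`∑_{l ≠ i} ∑_{h,y} n^2 I √w' ≤ n^2 ∑_{l,h} I * n √(w i l g h) ≤ n^3 δ lam' ≤ lam'` (`w' ≤ w`).  (`∑ over range (N n)` is a double sum,
`FHT.sum_digits`, `(h n + y) / n = h`, `% n = y`.)  Total `19 lam' = 608 (t+1) lam`.
Rest: the cell of the point `j` is the child `c_j = (c i (π i j))_i` of the cell with index `U i g n ^ ξ + ix ξ`, `g = q i (π i j)`, `ξ = s i g`, so by
`densS_child_le` (with `a i = A i g - (ξ.1 + 1)`) its density is at most `2 densS + n ^ d irrS`, and the sum over `j` is at most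
`2 mu' + n ^ d δ mu' ≤ 3 mu' = 12 * 4 ^ d mu`.
-/

set_option autoImplicit false

namespace FHD

open Finset

private theorem StepD_ix {n J : ℕ} (ξ : Fin J × Fin (n ^ J)) : FHA.ix n J ξ + 1 ≤ n ^ (ξ.1 : ℕ) := by
  unfold FHA.ix
  rw [Nat.add_one_le_iff]
  refine Nat.div_lt_of_lt_mul ?_
  rw [← pow_add]
  have h1 : J - (ξ.1 : ℕ) + ξ.1 = J := Nat.sub_add_cancel ξ.1.2.le
  rw [h1]
  exact ξ.2.2

/-- the new interval is contained in the old one -/
private theorem StepD_int {n J D a u x : ℕ} (ξ : Fin J × Fin (n ^ J)) (ha : D + J ≤ a) (hx : x < n) :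
    ((u * n ^ (ξ.1 : ℕ) + FHA.ix n J ξ) * n + x + 1) * n ^ (a - (ξ.1 + 1)) ≤ (u + 1) * n ^ a ∧
    u * n ^ a ≤ ((u * n ^ (ξ.1 : ℕ) + FHA.ix n J ξ) * n + x) * n ^ (a - (ξ.1 + 1)) := by
  have h1 : (ξ.1 : ℕ) + 1 + (a - (ξ.1 + 1)) = a := by
    have := ξ.1.2
    omega
  have h2 : n ^ a = n ^ (ξ.1 : ℕ) * n * n ^ (a - (ξ.1 + 1)) := by
    conv_lhs => rw [← h1]
    rw [pow_add, pow_succ]
  have h3 := StepD_ix ξ
  rw [h2]
  constructor
  · rw [← mul_assoc]
    refine Nat.mul_le_mul_right _ ?_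
    calc (u * n ^ (ξ.1 : ℕ) + FHA.ix n J ξ) * n + x + 1 ≤
          (u * n ^ (ξ.1 : ℕ) + FHA.ix n J ξ) * n + n := by
          omega
      _ = (u * n ^ (ξ.1 : ℕ) + (FHA.ix n J ξ + 1)) * n := by ring
      _ ≤ (u * n ^ (ξ.1 : ℕ) + n ^ (ξ.1 : ℕ)) * n := by
        refine Nat.mul_le_mul_right _ ?_
        omega
      _ = (u + 1) * (n ^ (ξ.1 : ℕ) * n) := by ring
  · rw [← mul_assoc]
    refine Nat.mul_le_mul_right _ ?_
    calc u * (n ^ (ξ.1 : ℕ) * n) = u * n ^ (ξ.1 : ℕ) * n := by ring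
      _ ≤ (u * n ^ (ξ.1 : ℕ) + FHA.ix n J ξ) * n := Nat.mul_le_mul_right _ (Nat.le_add_right _ _)
      _ ≤ _ := Nat.le_add_right _ _

/-- the order of the new intervals -/
private theorem StepD_order {n J N D X : ℕ} (hn : 1 ≤ n) (A U : ℕ → ℕ) (s : ℕ → Fin J × Fin (n ^ J))
    (hA : ∀ g < N, D + J ≤ A g)
    (hord : ∀ g g', g < g' → g' < N → (U g + 1) * n ^ A g ≤ U g' * n ^ A g')
    (hX : ∀ g < N, (U g + 1) * n ^ A g ≤ X) :
    (∀ G G', G < G' → G' < N * n →
      ((U (G / n) * n ^ ((s (G / n)).1 : ℕ) + FHA.ix n J (s (G / n))) * n + G % n + 1) *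
        n ^ (A (G / n) - ((s (G / n)).1 + 1)) ≤
      ((U (G' / n) * n ^ ((s (G' / n)).1 : ℕ) + FHA.ix n J (s (G' / n))) * n + G' % n) *
        n ^ (A (G' / n) - ((s (G' / n)).1 + 1))) ∧
    (∀ G < N * n,
      ((U (G / n) * n ^ ((s (G / n)).1 : ℕ) + FHA.ix n J (s (G / n))) * n + G % n + 1) *
        n ^ (A (G / n) - ((s (G / n)).1 + 1)) ≤ X) := by
  have hdiv : ∀ G < N * n, G / n < N := fun G hG => Nat.div_lt_of_lt_mul (by rwa [mul_comm] at hG)
  constructor
  · intro G G' h1 h2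
    have hg' := hdiv G' h2
    have hg := hdiv G (h1.trans h2)
    have hle : G / n ≤ G' / n := Nat.div_le_div_right h1.le
    rcases hle.eq_or_lt with he | hlt
    · have e1 := Nat.div_add_mod G n
      have e2 := Nat.div_add_mod G' n
      rw [← he] at e2 ⊢
      refine Nat.mul_le_mul_right _ ?_
      have : G % n < G' % n := by omega
      omega
    · have a1 := (StepD_int (u := U (G / n)) (s (G / n)) (hA _ hg) (Nat.mod_lt G hn)).1
      have a2 := (StepD_int (u := U (G' / n)) (s (G' / n)) (hA _ hg') (Nat.mod_lt G' hn)).2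
      exact a1.trans ((hord _ _ hlt hg').trans a2)
  · intro G h2
    have hg := hdiv G h2
    have a1 := (StepD_int (u := U (G / n)) (s (G / n)) (hA _ hg) (Nat.mod_lt G hn)).1
    exact a1.trans (hX _ hg)

private theorem StepD_eq {n a c g x : ℕ} (hc : c < n) (hx : x < n) :
    a * n + c = g * n + x ↔ a = g ∧ c = x := by
  constructor
  · intro h
    have h1 : (a * n + c) / n = (g * n + x) / n := by rw [h]
    have h2 : (a * n + c) % n = (g * n + x) % n := by rw [h]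
    have hn : 0 < n := by omega
    rw [mul_comm a, mul_comm g, Nat.mul_add_div hn, Nat.mul_add_div hn, Nat.div_eq_of_lt hc,
      Nat.div_eq_of_lt hx] at h1
    rw [mul_comm a, mul_comm g, Nat.mul_add_mod, Nat.mul_add_mod, Nat.mod_eq_of_lt hc,
      Nat.mod_eq_of_lt hx] at h2
    omega
  · rintro ⟨rfl, rfl⟩
    rfl

private theorem StepD_mono {k n : ℕ} {p c : Fin k → ℕ} (hp : Monotone p) (hc : ∀ i, c i < n)
    (hcc : ∀ i j, i ≤ j → p i = p j → c i ≤ c j) : Monotone fun i => p i * n + c i := by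
  intro i j hij
  change p i * n + c i ≤ p j * n + c j
  rcases (hp hij).eq_or_lt with h | h
  · have := hcc i j hij h
    rw [h]
    omega
  · have h1 : (p i + 1) * n ≤ p j * n := Nat.mul_le_mul_right _ h
    have h2 := hc i
    rw [add_mul, one_mul] at h1
    omega

private theorem StepD_lt {N n a c : ℕ} (ha : a < N) (hc : c < n) : a * n + c < N * n := by
  have h1 : (a + 1) * n ≤ N * n := Nat.mul_le_mul_right _ ha
  rw [add_mul, one_mul] at h1
  omega

private theorem StepD_sqrtf {k : ℕ} (s : Finset (Fin k)) (f : Fin k → ℝ) {e : ℝ} (he : 0 ≤ e)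
    (hf : ∀ i ∈ s, f i = e ^ 2) : √(∑ i ∈ s, f i) = e * √(s.card : ℝ) := by
  rw [Finset.sum_congr rfl hf, Finset.sum_const, nsmul_eq_mul, mul_comm,
    Real.sqrt_mul (by positivity), Real.sqrt_sq he]

/-- the new sums -/
private theorem StepD_new {ι : Type} (T : Finset ι) {n N : ℕ} {lam' δ : ℝ} (hn3 : (n : ℝ) ^ 3 * δ ≤ 1)
    (hlam' : 0 ≤ lam') (e i w : ι → ℕ → ℝ) (w' d : ι → ℕ → ℕ → ℝ) (hi : ∀ l h, 0 ≤ i l h)
    (hw : ∀ l ∈ T, ∀ h < N, ∀ y < n, w' l h y ≤ w l h)
    (hd : ∀ l ∈ T, ∀ h < N, ∀ y < n, d l h y ≤ 2 * e l h + (n : ℝ) ^ 2 * i l h)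
    (h1 : ∑ l ∈ T, ∑ h ∈ range N, ∑ y ∈ range n, e l h * √(w' l h y) ≤ 9 * lam')
    (h2 : ∑ l ∈ T, ∑ h ∈ range N, i l h * √(w l h) ≤ δ * lam') :
    ∑ l ∈ T, ∑ h ∈ range N, ∑ y ∈ range n, d l h y * √(w' l h y) ≤ 19 * lam' := by
  have g1 : ∑ l ∈ T, ∑ h ∈ range N, ∑ y ∈ range n, d l h y * √(w' l h y) ≤
      ∑ l ∈ T, ∑ h ∈ range N, ∑ y ∈ range n,
        (2 * (e l h * √(w' l h y)) + (n : ℝ) ^ 2 * (i l h * √(w l h))) := by
    refine Finset.sum_le_sum fun l hl => Finset.sum_le_sum fun h hh => Finset.sum_le_sum fun y hy => ?_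
    rw [Finset.mem_range] at hh hy
    have a1 := mul_le_mul_of_nonneg_right (hd l hl h hh y hy) (Real.sqrt_nonneg (w' l h y))
    have a2 := mul_le_mul_of_nonneg_left (Real.sqrt_le_sqrt (hw l hl h hh y hy))
      (mul_nonneg (by positivity : 0 ≤ (n : ℝ) ^ 2) (hi l h))
    calc d l h y * √(w' l h y) ≤ (2 * e l h + (n : ℝ) ^ 2 * i l h) * √(w' l h y) := a1
      _ = 2 * (e l h * √(w' l h y)) + (n : ℝ) ^ 2 * i l h * √(w' l h y) := by ring
      _ ≤ 2 * (e l h * √(w' l h y)) + (n : ℝ) ^ 2 * i l h * √(w l h) := add_le_add le_rfl a2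
      _ = _ := by ring
  have g2 : ∑ l ∈ T, ∑ h ∈ range N, ∑ y ∈ range n,
      (2 * (e l h * √(w' l h y)) + (n : ℝ) ^ 2 * (i l h * √(w l h))) =
      2 * ∑ l ∈ T, ∑ h ∈ range N, ∑ y ∈ range n, e l h * √(w' l h y) +
        (n : ℝ) ^ 3 * ∑ l ∈ T, ∑ h ∈ range N, i l h * √(w l h) := by
    rw [Finset.mul_sum, Finset.mul_sum, ← Finset.sum_add_distrib]
    refine Finset.sum_congr rfl fun l _ => ?_
    rw [Finset.mul_sum, Finset.mul_sum, ← Finset.sum_add_distrib]
    refine Finset.sum_congr rfl fun h _ => ?_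
    rw [Finset.sum_add_distrib, Finset.sum_const, Finset.card_range, nsmul_eq_mul,
      Finset.mul_sum]
    ring
  have g3 := mul_le_mul_of_nonneg_left h2 (by positivity : 0 ≤ (n : ℝ) ^ 3)
  have g4 := mul_le_mul_of_nonneg_right hn3 hlam'
  rw [g2] at g1
  linarith

theorem stepD {d n b J k K N m D t X : ℕ} (hd : 2 ≤ d) (Z : Fin d → Fin d → Finset (ℕ × ℕ))
    (hZ : ∀ i l x y, (x, y) ∈ Z i l ↔ (y, x) ∈ Z l i) (S : Finset (Fin d → ℕ))
    (π : Fin d → Equiv.Perm (Fin k)) {lam mu : ℝ}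
    (hn : n = 2 * b) (hb : 1 ≤ b) (hm : 1 ≤ m) (hk : k ≤ K) (hK : 2 ≤ K) (hlam : 1 / (K : ℝ) ≤ lam)
    (hmu : 1 / (K : ℝ) ≤ mu) (hJ : 12 * d * (2 * Real.log K + 1) * (n : ℝ) ^ (d + 1) ≤ J)
    (ht : 4 * (d * N) < 2 ^ t) (h : StD n Z S π X N lam mu (b * m) (D + J)) :
    StD n Z S π X (N * n) (608 * (t + 1) * lam) (12 * 4 ^ d * mu) m D := by
  obtain ⟨q, A, U, hq, hqN, hUo, hUX, hA, hqm, hrow, hrest⟩ := h
  have hn1 : 1 ≤ n := by omega
  have hn0 : (0 : ℝ) < n := by exact_mod_cast hn1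
  have hn1' : (1 : ℝ) ≤ n := by exact_mod_cast hn1
  have hK0 : (0 : ℝ) < K := by
    have : 0 < K := by omega
    exact_mod_cast this
  have hlam0 : 0 < lam := lt_of_lt_of_le (by positivity) hlam
  have hmu0 : 0 < mu := lt_of_lt_of_le (by positivity) hmu
  have hlog : 0 ≤ Real.log K := Real.log_natCast_nonneg K
  have hd0 : (0 : ℝ) < d := by
    have : 0 < d := by omega
    exact_mod_cast this
  have hJ0 : (0 : ℝ) < J := lt_of_lt_of_le (by positivity) hJ
  have hJ1 : 1 ≤ J := by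
    have : 0 < J := by exact_mod_cast hJ0
    omega
  obtain ⟨δ, hδ⟩ : ∃ δ : ℝ, δ = 12 * d * (2 * Real.log K + 1) / J := ⟨_, rfl⟩
  have hδ0 : 0 < δ := by rw [hδ]; positivity
  have hnd1 : (n : ℝ) ^ (d + 1) * δ ≤ 1 := by
    rw [hδ, mul_div_assoc', div_le_one hJ0]
    linarith
  have hn3 : (n : ℝ) ^ 3 * δ ≤ 1 :=
    (mul_le_mul_of_nonneg_right (pow_le_pow_right₀ hn1' (by omega)) hδ0.le).trans hnd1
  have hnd : (n : ℝ) ^ d * δ ≤ 1 :=
    (mul_le_mul_of_nonneg_right (pow_le_pow_right₀ hn1' (by omega)) hδ0.le).trans hnd1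
  obtain ⟨s, h1, h2, h3, h4⟩ := stepA (D := D) (t := t) hd hn1 hJ1 hk hK Z hZ S π hlam hmu hδ ht q hqN A U
    hA hrow hrest
  obtain ⟨lam', hlam'⟩ : ∃ l : ℝ, l = 32 * (t + 1) * lam := ⟨_, rfl⟩
  rw [← hlam'] at h1 h2
  have hl0 : 0 ≤ lam' := by rw [hlam']; positivity
  have he0 : ∀ i l g h, 0 ≤ etaD n J Z A U i l g h (s i g) (s l h) :=
    fun _ _ _ _ => FHA.dens_nonneg _ _ _ _ _ _
  have hi0 : ∀ i l g h, 0 ≤ iotaD n J Z A U i l g h (s i g) (s l h) :=
    fun _ _ _ _ => FHA.irr_nonneg _ _ _ _ _ _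
  obtain ⟨f, hf⟩ : ∃ f : Fin d → Fin d → Fin k → ℝ,
      ∀ i l j, f i l j = (etaD n J Z A U i l (q i (π i j)) (q l (π l j)) (s i (q i (π i j)))
        (s l (q l (π l j)))) ^ 2 :=
    ⟨fun i l j => _, fun _ _ _ => rfl⟩
  have hfs : ∀ (i l : Fin d) (T : Finset (Fin k)) (g h : ℕ),
      (∀ j ∈ T, q i (π i j) = g ∧ q l (π l j) = h) →
      √(∑ j ∈ T, f i l j) = etaD n J Z A U i l g h (s i g) (s l h) * √(T.card : ℝ) := by
    intro i l T g h hT
    refine StepD_sqrtf T (f i l) (he0 i l g h) fun j hj => ?_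
    obtain ⟨e1, e2⟩ := hT j hj
    rw [hf, e1, e2]
  obtain ⟨c, hc, hcc, hcm, hr1⟩ := balD π f (fun i l j => by rw [hf]; positivity) q hq hqN hb hm hqm hl0
    (fun i g hg => by
      refine le_trans (le_of_eq (Finset.sum_congr rfl fun l _ => Finset.sum_congr rfl fun h _ => ?_))
        (h1 i g hg)
      rw [hfs i l _ g h fun j hj => (Finset.mem_filter.1 hj).2]
      rfl)
  rw [← hn] at hc hr1
  have hdiv : ∀ G < N * n, G / n < N := fun G hG => Nat.div_lt_of_lt_mul (by rwa [mul_comm] at hG)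
  have hoU := fun i => StepD_order (X := X) hn1 (A i) (U i) (s i) (hA i) (hUo i) (hUX i)
  -- the weights
  have hwt : ∀ i l g x h y, x < n → y < n → wtD π (fun i x => q i x * n + c i x) i l
      (g * n + x) (h * n + y) =
      #(univ.filter fun j => (q i (π i j) = g ∧ c i (π i j) = x) ∧
        q l (π l j) = h ∧ c l (π l j) = y) := by
    intro i l g x h y hx hy
    unfold wtD
    congr 1
    ext j
    simp only [Finset.mem_filter, Finset.mem_univ, true_and, StepD_eq (hc i (π i j)) hx,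
      StepD_eq (hc l (π l j)) hy]
  have hwle : ∀ i l g x h y, ((#(univ.filter fun j => (q i (π i j) = g ∧ c i (π i j) = x) ∧
        q l (π l j) = h ∧ c l (π l j) = y) : ℕ) : ℝ) ≤ (wtD π q i l g h : ℝ) := by
    intro i l g x h y
    unfold wtD
    refine Nat.cast_le.2 (Finset.card_le_card fun j hj => ?_)
    simp only [Finset.mem_filter, Finset.mem_univ, true_and] at hj ⊢
    exact ⟨hj.1.1, hj.2.1⟩
  have hsq : ∀ i l g x h y, √(∑ j ∈ univ.filter (fun j => (q i (π i j) = g ∧ c i (π i j) = x) ∧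
        q l (π l j) = h ∧ c l (π l j) = y), f i l j) =
      etaD n J Z A U i l g h (s i g) (s l h) * √((#(univ.filter fun j =>
        (q i (π i j) = g ∧ c i (π i j) = x) ∧ q l (π l j) = h ∧ c l (π l j) = y) : ℕ) : ℝ) := by
    intro i l g x h y
    refine hfs i l _ g h fun j hj => ?_
    simp only [Finset.mem_filter, Finset.mem_univ, true_and] at hj
    exact ⟨hj.1.1, hj.2.1⟩
  have hlev : ∀ i, ∀ g < N, A i g - (((s i g).1 : ℕ) + 1) + 1 = A i g - (s i g).1 := by
    intro i g hg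
    have := hA i g hg
    have := (s i g).1.2
    omega
  -- the densities
  have hden : ∀ i l, ∀ g < N, ∀ h < N, ∀ x < n, ∀ y < n,
      FHA.dens n (Z i l) (A i g - ((s i g).1 + 1)) (A l h - ((s l h).1 + 1))
        ((U i g * n ^ ((s i g).1 : ℕ) + FHA.ix n J (s i g)) * n + x)
        ((U l h * n ^ ((s l h).1 : ℕ) + FHA.ix n J (s l h)) * n + y) ≤
      2 * etaD n J Z A U i l g h (s i g) (s l h) +
        (n : ℝ) ^ 2 * iotaD n J Z A U i l g h (s i g) (s l h) := by
    intro i l g hg h hh x hx y hy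
    have := FHA.dens_child_le hn1 (Z i l) (A i g - ((s i g).1 + 1)) (A l h - ((s l h).1 + 1))
      (U i g * n ^ ((s i g).1 : ℕ) + FHA.ix n J (s i g))
      (U l h * n ^ ((s l h).1 : ℕ) + FHA.ix n J (s l h)) hx hy
    rw [hlev i g hg, hlev l h hh] at this
    exact this
  have hdm' : ∀ h y : ℕ, y < n → (h * n + y) / n = h := fun h y hy => by
    rw [mul_comm, Nat.mul_add_div (by omega), Nat.div_eq_of_lt hy, add_zero]
  have hmm' : ∀ h y : ℕ, y < n → (h * n + y) % n = y := fun h y hy => by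
    rw [mul_comm, Nat.mul_add_mod, Nat.mod_eq_of_lt hy]
  have h608 : 608 * (t + 1) * lam = 19 * lam' := by
    rw [hlam']
    ring
  refine ⟨fun i x => q i x * n + c i x,
    fun i G => A i (G / n) - ((s i (G / n)).1 + 1),
    fun i G => (U i (G / n) * n ^ ((s i (G / n)).1 : ℕ) + FHA.ix n J (s i (G / n))) * n + G % n,
    fun i => StepD_mono (hq i) (hc i) (hcc i), fun i x => StepD_lt (hqN i x) (hc i x),
    fun i => (hoU i).1, fun i => (hoU i).2, fun i G hG => ?_, fun i G => ?_, fun i G hG => ?_, ?_⟩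
  · have := hA i _ (hdiv G hG)
    have := (s i (G / n)).1.2
    show D ≤ A i (G / n) - ((s i (G / n)).1 + 1)
    omega
  · refine le_trans (Finset.card_le_card fun x hx => ?_) (hcm i (G / n) (G % n))
    simp only [Finset.mem_filter, Finset.mem_univ, true_and] at hx ⊢
    rw [← Nat.div_add_mod' G n] at hx
    exact (StepD_eq (hc i x) (Nat.mod_lt G hn1)).1 hx
  · have hg := hdiv G hG
    have hx := Nat.mod_lt G hn1
    obtain ⟨g, hgd⟩ : ∃ g, g = G / n := ⟨_, rfl⟩
    obtain ⟨x, hxd⟩ : ∃ x, x = G % n := ⟨_, rfl⟩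
    have hGe : G = g * n + x := by rw [hgd, hxd, Nat.div_add_mod']
    rw [h608]
    simp only [FHT.sum_digits]
    simp only [← hgd, ← hxd] at hg hx ⊢
    refine le_trans (le_of_eq (Finset.sum_congr rfl fun l _ => Finset.sum_congr rfl fun h _ =>
      Finset.sum_congr rfl fun y hy => ?_))
      (StepD_new (univ.erase i) (N := N) (n := n) (δ := δ) (lam' := lam')
        (w := fun l h => (wtD π q i l g h : ℝ))
        (e := fun l h => etaD n J Z A U i l g h (s i g) (s l h))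
        (i := fun l h => iotaD n J Z A U i l g h (s i g) (s l h))
        (w' := fun l h y => ((#(univ.filter fun j =>
          (q i (π i j) = g ∧ c i (π i j) = x) ∧ q l (π l j) = h ∧ c l (π l j) = y) : ℕ) : ℝ))
        (d := fun l h y => FHA.dens n (Z i l) (A i g - ((s i g).1 + 1)) (A l h - ((s l h).1 + 1))
          ((U i g * n ^ ((s i g).1 : ℕ) + FHA.ix n J (s i g)) * n + x)
          ((U l h * n ^ ((s l h).1 : ℕ) + FHA.ix n J (s l h)) * n + y))
        hn3 hl0 (fun l h => hi0 i l g h) (fun l _ h _ y _ => hwle i l g x h y)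
        (fun l _ h hh y hy => hden i l g hg h hh x hx y hy) ?_ (h2 i g hg))
    · rw [Finset.mem_range] at hy
      simp only [hdm' h y hy, hmm' h y hy]
      rw [hGe, hwt i l g x h y hx hy]
    · refine le_trans (le_of_eq ?_) (hr1 i g hg x hx)
      exact Finset.sum_congr rfl fun l _ => Finset.sum_congr rfl fun h _ =>
        Finset.sum_congr rfl fun y _ => (hsq i l g x h y).symm
  · -- the rest sum
    have hS : ∀ j : Fin k,
        densS n S (fun i => A i ((q i (π i j) * n + c i (π i j)) / n) -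
            ((s i ((q i (π i j) * n + c i (π i j)) / n)).1 + 1))
          (fun i => (U i ((q i (π i j) * n + c i (π i j)) / n) *
            n ^ ((s i ((q i (π i j) * n + c i (π i j)) / n)).1 : ℕ) +
            FHA.ix n J (s i ((q i (π i j) * n + c i (π i j)) / n))) * n +
            (q i (π i j) * n + c i (π i j)) % n) ≤
        2 * densS n S (fun i => A i (q i (π i j)) - (s i (q i (π i j))).1)
          (fun i => U i (q i (π i j)) * n ^ ((s i (q i (π i j))).1 : ℕ) +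
            FHA.ix n J (s i (q i (π i j)))) +
        (n : ℝ) ^ d * irrS n S (fun i => A i (q i (π i j)) - ((s i (q i (π i j))).1 + 1))
          (fun i => U i (q i (π i j)) * n ^ ((s i (q i (π i j))).1 : ℕ) +
            FHA.ix n J (s i (q i (π i j)))) := by
      intro j
      have g1 := densS_child_le hn1 S (fun i => A i (q i (π i j)) - (((s i (q i (π i j))).1 : ℕ) + 1))
        (fun i => U i (q i (π i j)) * n ^ ((s i (q i (π i j))).1 : ℕ) +
            FHA.ix n J (s i (q i (π i j)))) (c := fun i => c i (π i j)) (fun i => hc i (π i j))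
      have e1 : (fun i => A i (q i (π i j)) - (((s i (q i (π i j))).1 : ℕ) + 1) + 1) =
          fun i => A i (q i (π i j)) - ((s i (q i (π i j))).1 : ℕ) := by
        funext i
        exact hlev i _ (hqN i _)
      simp only [hdm' _ _ (hc _ _), hmm' _ _ (hc _ _)]
      refine g1.trans (le_of_eq ?_)
      rw [e1]
    refine (Finset.sum_le_sum fun j _ => hS j).trans ?_
    rw [Finset.sum_add_distrib, ← Finset.mul_sum, ← Finset.mul_sum]
    have g2 := mul_le_mul_of_nonneg_left h4 (by positivity : 0 ≤ (n : ℝ) ^ d)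
    have g3 : (n : ℝ) ^ d * (δ * (4 ^ (d + 1) * mu)) ≤ 4 ^ (d + 1) * mu := by
      rw [← mul_assoc]
      have := mul_le_mul_of_nonneg_right hnd (by positivity : 0 ≤ (4 : ℝ) ^ (d + 1) * mu)
      linarith
    have e4 : 12 * (4 : ℝ) ^ d * mu = 3 * (4 ^ (d + 1) * mu) := by
      rw [pow_succ]
      ring
    rw [e4]
    linarith

end FHD
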