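import Mathlib

/-!
# FHD.SumOut: summing out the coordinates after `l`

PROOF.  `Fintype.piFinset (fun _ : Fin d => range D)` is the product of the families over `{i // i < l}`, `{l}`, `{i // l < i}`
(`Equiv.piEquivPiSubtypeProd`, twice; or `Finset.sum_bij`), `∏ i, ρ i (a i)` factors accordingly
(`Fintype.prod_subtype_mul_prod_subtype` or `Fintype.prod_eq_mul_prod_compl`), and `∑_{b : {i // l < i} → range D} ∏ ρ i (b i) = ∏ i, ∑_a ρ i a = 1`
(`Finset.prod_univ_sum`).
-/

set_option autoImplicit false

namespace FHD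

open Finset

theorem sum_out {d D : ℕ} (l : Fin d) (ρ : Fin d → ℕ → ℝ) (h1 : ∀ i, ∑ a ∈ range D, ρ i a = 1)
    (G : ({i : Fin d // i < l} → ℕ) → ℕ → ℝ) :
    ∑ a ∈ Fintype.piFinset (fun _ : Fin d => range D), (∏ i, ρ i (a i)) * G (fun i => a i.1) (a l) =
      ∑ y ∈ Fintype.piFinset (fun _ : {i : Fin d // i < l} => range D), ∑ b ∈ range D,
        (∏ i, ρ i.1 (y i)) * ρ l b * G y b := by
  classical
  rw [← Finset.sum_product']
  rw [← Finset.sum_fiberwise_of_maps_to (s := Fintype.piFinset (fun _ : Fin d => range D))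
    (t := (Fintype.piFinset (fun _ : {i : Fin d // i < l} => range D)) ×ˢ range D)
    (g := fun a => ((fun i : {i : Fin d // i < l} => a i.1), a l)) ?_]
  swap
  · intro a ha
    rw [Fintype.mem_piFinset] at ha
    rw [Finset.mem_product, Fintype.mem_piFinset]
    exact ⟨fun i => ha i.1, ha l⟩
  refine Finset.sum_congr rfl fun z hz => ?_
  obtain ⟨y, b⟩ := z
  rw [Finset.mem_product, Fintype.mem_piFinset] at hz
  obtain ⟨hy, hb⟩ := hz
  obtain ⟨t, ht⟩ : ∃ t : Fin d → Finset ℕ, t = fun i => if h : i < l then {y ⟨i, h⟩} else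
    if i = l then {b} else range D := ⟨_, rfl⟩
  have e1 : (Fintype.piFinset (fun _ : Fin d => range D)).filter
      (fun a => ((fun i : {i : Fin d // i < l} => a i.1), a l) = (y, b)) = Fintype.piFinset t := by
    ext a
    rw [Finset.mem_filter, Fintype.mem_piFinset, Fintype.mem_piFinset, Prod.mk.injEq, ht]
    constructor
    · rintro ⟨h2, h3, h4⟩ i
      by_cases hi : i < l
      · simp only [dif_pos hi, Finset.mem_singleton]
        exact congrFun h3 ⟨i, hi⟩
      · by_cases hi2 : i = l
        · subst hi2
          simp only [lt_irrefl, dite_false, if_true, Finset.mem_singleton]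
          exact h4
        · simp only [dif_neg hi, if_neg hi2]
          exact h2 i
    · intro h2
      have h3 : ∀ i : {i : Fin d // i < l}, a i.1 = y i := by
        intro i
        have h4 := h2 i.1
        simp only [dif_pos i.2, Finset.mem_singleton] at h4
        exact h4
      have h4 : a l = b := by
        have h5 := h2 l
        simp only [lt_irrefl, dite_false, if_true, Finset.mem_singleton] at h5
        exact h5
      refine ⟨?_, funext h3, h4⟩
      intro i
      by_cases hi : i < l
      · rw [h3 ⟨i, hi⟩]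
        exact hy ⟨i, hi⟩
      · by_cases hi2 : i = l
        · rw [hi2, h4]
          exact hb
        · have h5 := h2 i
          simp only [dif_neg hi, if_neg hi2] at h5
          exact h5
  have e2 : ∑ a ∈ (Fintype.piFinset (fun _ : Fin d => range D)).filter
      (fun a => ((fun i : {i : Fin d // i < l} => a i.1), a l) = (y, b)),
      (∏ i, ρ i (a i)) * G (fun i => a i.1) (a l) =
      (∑ a ∈ Fintype.piFinset t, ∏ i, ρ i (a i)) * G y b := by
    rw [← e1, Finset.sum_mul]
    refine Finset.sum_congr rfl fun a ha => ?_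
    have h2 := (Finset.mem_filter.1 ha).2
    rw [Prod.mk.injEq] at h2
    rw [h2.1, h2.2]
  rw [e2]
  congr 1
  rw [← Finset.prod_univ_sum]
  have e3 : ∀ i, ∑ x ∈ t i, ρ i x = if h : i < l then ρ i (y ⟨i, h⟩) else
      if i = l then ρ i b else 1 := by
    intro i
    rw [ht]
    by_cases hi : i < l
    · simp only [dif_pos hi, Finset.sum_singleton]
    · by_cases hi2 : i = l
      · simp only [dif_neg hi, if_pos hi2, Finset.sum_singleton]
      · simp only [dif_neg hi, if_neg hi2]
        exact h1 i
  rw [Finset.prod_congr rfl fun i _ => e3 i,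
    ← Fintype.prod_subtype_mul_prod_subtype (fun i : Fin d => i < l)]
  congr 1
  · refine Finset.prod_congr rfl fun i _ => ?_
    rw [dif_pos i.2]
  · rw [Fintype.prod_eq_single (⟨l, lt_irrefl l⟩ : {i : Fin d // ¬ i < l})]
    · rw [dif_neg (lt_irrefl l), if_pos rfl]
    · intro i hi
      rw [dif_neg i.2, if_neg]
      intro h2
      exact hi (Subtype.ext h2)

end FHD
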