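import Pool.Agent.FHD.AvgE
import Pool.Agent.FHD.AvgB
import Pool.Agent.FHD.AvgN
import Pool.Agent.FHD.Pick
import Pool.Agent.FHD.Free

/-!
# FHD.WinA: a cell where everything is small

PROOF.  `pick` with `I = (Fin 3 × Fin d × Fin d) ⊕ Fin d`, `card I = 3 d^2 + d ≤ 4 d^2`, `f0 t w` = indicator of `∀ i, Free D n (α ^ 2) Ω i (t i) w`,
`q = 3 / (4 (8 d)^d)` (`all_free` with `A = α ^ 2`, `n = 8 d m`: the mean of `f0` is at least `(3/4) m^d / n^d`), and, for `i ≠ l` (for `i = l` use
the function `0`), `E = n^d #Ω`, `λ = log D > 0`: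
`(0, i, l)`: `f t w = ∑_a [ExW l i t (t l % κ) w a] lamW l i t w a`, mean at most `β = 14 d λ / Q` (`avg_exit`, `ex_mono` (`t l % κ ≤ κ`), `n = κ Q`);
`(1, i, l)`: `f t w` = indicator of the condition in `avg_big`, `β = 6 λ / Q`;
`(2, i, l)`: `f t w` = the sum over `a` in `avg_pair`, `β = 14 d λ / n`;
`l`: `f t w` = the sum over `y` in `avg_new`, `β = 2^d d^2 λ / (n κ)`.
In the statement for `ExW` at time `t l % κ` the function `f` is constant on the cell `C` (points of `C` have the same `cell (t0 κ l t)`, and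
`ex_congr`: the same label `run .. (t l % κ)`), so the sum over `w ∈ C` is `#C` times the value at `z`.
-/

set_option autoImplicit false

namespace FHD

open Finset

open Classical in
private noncomputable def WinA_f0 (D n α : ℕ) {d : ℕ} (Ω : Finset (Fin d → ℕ)) (t w : Fin d → ℕ) : ℝ :=
  if ∀ i, Free D n (α ^ 2) Ω i (t i) w then 1 else 0

open Classical in
private noncomputable def WinA_g0 (D n κ : ℕ) {d : ℕ} (Ω : Finset (Fin d → ℕ)) (i l : Fin d)
    (t w : Fin d → ℕ) : ℝ :=
  ∑ a ∈ range D, (if ExW D n κ Ω l i t (t l % κ) w a then lamW D n κ Ω l i t w a else 0)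

open Classical in
private noncomputable def WinA_g1 (D n κ : ℕ) {d : ℕ} (Ω : Finset (Fin d → ℕ)) (i l : Fin d)
    (t w : Fin d → ℕ) : ℝ :=
  if 2 * (#(cell D n Ω t w) * #(fib (cell D n Ω (t0 κ l t) w) (Yd D n t i) (Yd D n t i w))) <
    #(cell D n Ω (t0 κ l t) w) * #(fib (cell D n Ω t w) (Yd D n t i) (Yd D n t i w)) then 1 else 0

open Classical in
private noncomputable def WinA_g2 (D n κ : ℕ) {d : ℕ} (Ω : Finset (Fin d → ℕ)) (i l : Fin d)
    (t w : Fin d → ℕ) : ℝ :=
  ∑ a ∈ range D, (if ¬ ExW D n κ Ω l i t (t l % κ) w a ∧ ExW D n κ Ω l i t (t l % κ + 1) w a then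
    lamW D n κ Ω l i t w a else 0)

open Classical in
private noncomputable def WinA_g3 (D n κ : ℕ) {d : ℕ} (Ω : Finset (Fin d → ℕ)) (l : Fin d)
    (t w : Fin d → ℕ) : ℝ :=
  ∑ y ∈ Fintype.piFinset (fun _ : {i : Fin d // i < l} => range D),
    (if NewW D n κ Ω l t w y then ∏ i, lamW D n κ Ω l i.1 t w (y i) else 0)

private noncomputable def WinA_f (D n κ : ℕ) {d : ℕ} (Ω : Finset (Fin d → ℕ)) :
    ((Fin 3 × Fin d × Fin d) ⊕ Fin d) → (Fin d → ℕ) → (Fin d → ℕ) → ℝ
  | Sum.inl (k, i, l), t, w =>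
    if i = l then 0 else if k = 0 then WinA_g0 D n κ Ω i l t w
      else if k = 1 then WinA_g1 D n κ Ω i l t w else WinA_g2 D n κ Ω i l t w
  | Sum.inr l, t, w => WinA_g3 D n κ Ω l t w

private noncomputable def WinA_b (d D n κ Q : ℕ) : ((Fin 3 × Fin d × Fin d) ⊕ Fin d) → ℝ
  | Sum.inl (k, _, _) =>
    if k = 0 then 14 * d * (Real.log D / Q)
      else if k = 1 then 6 * (Real.log D / Q) else 14 * d * (Real.log D / n)
  | Sum.inr _ => 2 ^ d * (d : ℝ) ^ 2 * (Real.log D / (n * κ))

private theorem WinA_lam {D n κ d : ℕ} (Ω : Finset (Fin d → ℕ)) (l i : Fin d) (t z : Fin d → ℕ) (a : ℕ) :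
    0 ≤ lamW D n κ Ω l i t z a := by
  unfold lamW
  positivity

private theorem WinA_hF {D n κ d : ℕ} (l : Fin d) (t : Fin d → ℕ) (C : Finset (Fin d → ℕ)) :
    ∀ τ, ∀ x ∈ C, ∀ y ∈ C, run D n κ l t (τ + 1) x = run D n κ l t (τ + 1) y →
      run D n κ l t τ x = run D n κ l t τ y := by
  intro τ x _ y _ h
  exact hd_hd (by omega) h

private theorem WinA_const {D n κ d : ℕ} (Ω : Finset (Fin d → ℕ)) (i l : Fin d) (t z w : Fin d → ℕ)
    (hz : z ∈ Ω) (hw : w ∈ cell D n Ω t z) :
    WinA_g0 D n κ Ω i l t w = WinA_g0 D n κ Ω i l t z := by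
  have hle : ∀ i, t0 κ l t i ≤ t i := by
    intro i
    unfold t0
    by_cases h : i = l
    · subst h
      rw [Function.update_self]
      exact Nat.mul_div_le _ _
    · rw [Function.update_of_ne h]
  have hw0 : w ∈ cell D n Ω (t0 κ l t) z := cell_mono hle z hw
  have hz0 : z ∈ cell D n Ω (t0 κ l t) z := mem_cell_self hz
  have hC : cell D n Ω (t0 κ l t) w = cell D n Ω (t0 κ l t) z := cell_congr hw0
  have hrun : run D n κ l t (t l % κ) w = run D n κ l t (t l % κ) z := by
    unfold run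
    rw [Nat.div_add_mod]
    unfold cell at hw
    exact (mem_filter.1 hw).2 l
  unfold WinA_g0
  refine sum_congr rfl fun a _ => ?_
  have h1 : lamW D n κ Ω l i t w a = lamW D n κ Ω l i t z a := by
    unfold lamW
    rw [hC]
  have h2 : ExW D n κ Ω l i t (t l % κ) w a ↔ ExW D n κ Ω l i t (t l % κ) z a := by
    unfold ExW
    rw [hC]
    constructor
    · intro h
      exact ex_congr (WinA_hF l t _) hw0 hz0 hrun h
    · intro h
      exact ex_congr (WinA_hF l t _) hz0 hw0 hrun.symm h
  rw [h1]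
  by_cases h3 : ExW D n κ Ω l i t (t l % κ) z a
  · rw [if_pos h3, if_pos (h2.2 h3)]
  · rw [if_neg h3, if_neg (fun h => h3 (h2.1 h))]

open Classical in
theorem good_cell {d D n κ Q α m : ℕ} (hd : 2 ≤ d) (hD : 2 ≤ D) (hα : 1 ≤ α) (hκ : 1 ≤ κ) (hQ : 1 ≤ Q)
    (hn : n = κ * Q) (hm : n = 8 * d * m) (Ω : Finset (Fin d → ℕ)) (hne : Ω.Nonempty)
    (hΩ : ∀ z ∈ Ω, ∀ i, z i < D ^ n)
    (hl : ∀ z ∈ Ω, ∀ i, 4 * d * ((2 * α ^ 2) ^ n * D ^ m) ≤ #(line Ω i z)) {q : ℝ}
    (hq : q = 3 / (4 * (8 * (d : ℝ)) ^ d)) :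
    ∃ t ∈ wins d n, ∃ z ∈ Ω,
      q / 2 * #(cell D n Ω t z) ≤
        #((cell D n Ω t z).filter fun w => ∀ i, Free D n (α ^ 2) Ω i (t i) w) ∧
      (∀ i l, i ≠ l → q * ∑ a ∈ range D,
        (if ExW D n κ Ω l i t (t l % κ) z a then lamW D n κ Ω l i t z a else 0) ≤
          112 * (d : ℝ) ^ 3 * (Real.log D / Q)) ∧
      (∀ i l, i ≠ l → q * (#((cell D n Ω t z).filter fun w =>
        2 * (#(cell D n Ω t w) * #(fib (cell D n Ω (t0 κ l t) w) (Yd D n t i) (Yd D n t i w))) <
          #(cell D n Ω (t0 κ l t) w) * #(fib (cell D n Ω t w) (Yd D n t i) (Yd D n t i w))) : ℝ) ≤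
          48 * (d : ℝ) ^ 2 * (Real.log D / Q) * #(cell D n Ω t z)) ∧
      (∀ i l, i ≠ l → q * ∑ w ∈ cell D n Ω t z, ∑ a ∈ range D,
        (if ¬ ExW D n κ Ω l i t (t l % κ) w a ∧ ExW D n κ Ω l i t (t l % κ + 1) w a then
          lamW D n κ Ω l i t w a else 0) ≤ 112 * (d : ℝ) ^ 3 * (Real.log D / n) * #(cell D n Ω t z)) ∧
      (∀ l, q * ∑ w ∈ cell D n Ω t z, ∑ y ∈ Fintype.piFinset (fun _ : {i : Fin d // i < l} => range D),
        (if NewW D n κ Ω l t w y then ∏ i, lamW D n κ Ω l i.1 t w (y i) else 0) ≤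
          2 ^ (d + 3) * (d : ℝ) ^ 4 * (Real.log D / (n * κ)) * #(cell D n Ω t z)) := by
  have hn1 : 1 ≤ n := by
    rw [hn]
    exact Nat.one_le_iff_ne_zero.2 (Nat.mul_ne_zero (by omega) (by omega))
  have hlog : 0 < Real.log D := Real.log_pos (by exact_mod_cast (by omega : 1 < D))
  have hd0 : (0 : ℝ) < d := by exact_mod_cast (by omega : 0 < d)
  have hd1 : (1 : ℝ) ≤ d := by exact_mod_cast (by omega : 1 ≤ d)
  have hQ0 : (0 : ℝ) < Q := by exact_mod_cast hQ
  have hκ0 : (0 : ℝ) < κ := by exact_mod_cast hκ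
  have hn0 : (0 : ℝ) < n := by exact_mod_cast hn1
  have hnr : (n : ℝ) = κ * Q := by rw [hn]; push_cast; ring
  have hq0 : 0 < q := by rw [hq]; positivity
  have hE0 : (0 : ℝ) ≤ (n : ℝ) ^ d * #Ω := by positivity
  have hpick := pick (I := (Fin 3 × Fin d × Fin d) ⊕ Fin d) (D := D) Ω hne hn1
    (WinA_f0 D n α Ω) (WinA_f D n κ Ω) (WinA_b d D n κ Q) hq0 ?_ ?_ ?_ ?_ ?_
  · obtain ⟨t, ht, z, hz, h1, h2⟩ := hpick
    have hcard : (Fintype.card ((Fin 3 × Fin d × Fin d) ⊕ Fin d) : ℝ) ≤ 4 * (d : ℝ) ^ 2 := by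
      simp only [Fintype.card_sum, Fintype.card_prod, Fintype.card_fin]
      push_cast
      nlinarith
    have hC0 : (0 : ℝ) ≤ #(cell D n Ω t z) := Nat.cast_nonneg _
    have hCpos : (0 : ℝ) < #(cell D n Ω t z) := by
      exact_mod_cast card_pos.2 ⟨z, mem_cell_self hz⟩
    have hbd : ∀ j, 0 ≤ WinA_b d D n κ Q j → q * ∑ w ∈ cell D n Ω t z, WinA_f D n κ Ω j t w ≤
        8 * (d : ℝ) ^ 2 * WinA_b d D n κ Q j * #(cell D n Ω t z) := by
      intro j hj
      refine (h2 j).trans ?_
      refine mul_le_mul_of_nonneg_right (mul_le_mul_of_nonneg_right ?_ hj) hC0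
      linarith
    refine ⟨t, ht, z, hz, ?_, ?_, ?_, ?_, ?_⟩
    · refine h1.trans (le_of_eq ?_)
      rw [card_filter]
      push_cast
      exact sum_congr rfl fun w _ => rfl
    · intro i l hil
      have h3 := hbd (Sum.inl (0, i, l)) (by simp only [WinA_b, if_true]; positivity)
      have h4 : ∀ w, WinA_f D n κ Ω (Sum.inl (0, i, l)) t w = WinA_g0 D n κ Ω i l t w := by
        intro w
        simp only [WinA_f, if_neg hil, if_true]
      simp only [h4] at h3
      rw [sum_congr rfl (fun w hw => WinA_const (κ := κ) Ω i l t z w hz hw), sum_const,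
        nsmul_eq_mul] at h3
      simp only [WinA_b, if_true] at h3
      have h5 : (q * WinA_g0 D n κ Ω i l t z) * #(cell D n Ω t z) ≤
          (112 * (d : ℝ) ^ 3 * (Real.log D / Q)) * #(cell D n Ω t z) := by
        calc (q * WinA_g0 D n κ Ω i l t z) * #(cell D n Ω t z)
            = q * (#(cell D n Ω t z) * WinA_g0 D n κ Ω i l t z) := by ring
          _ ≤ 8 * (d : ℝ) ^ 2 * (14 * d * (Real.log D / Q)) * #(cell D n Ω t z) := h3
          _ = _ := by ring
      exact le_of_mul_le_mul_right h5 hCpos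
    · intro i l hil
      have h3 := hbd (Sum.inl (1, i, l)) (by
        simp only [WinA_b, if_neg (show ¬ (1 : Fin 3) = 0 by decide), if_true]; positivity)
      have h4 : ∀ w, WinA_f D n κ Ω (Sum.inl (1, i, l)) t w = WinA_g1 D n κ Ω i l t w := by
        intro w
        simp only [WinA_f, if_neg hil, if_neg (show ¬ (1 : Fin 3) = 0 by decide), if_true]
      simp only [h4] at h3
      simp only [WinA_b, if_neg (show ¬ (1 : Fin 3) = 0 by decide), if_true] at h3
      rw [card_filter]
      push_cast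
      refine h3.trans (le_of_eq ?_)
      ring
    · intro i l hil
      have h3 := hbd (Sum.inl (2, i, l)) (by
        simp only [WinA_b, if_neg (show ¬ (2 : Fin 3) = 0 by decide),
          if_neg (show ¬ (2 : Fin 3) = 1 by decide)]; positivity)
      have h4 : ∀ w, WinA_f D n κ Ω (Sum.inl (2, i, l)) t w = WinA_g2 D n κ Ω i l t w := by
        intro w
        simp only [WinA_f, if_neg hil, if_neg (show ¬ (2 : Fin 3) = 0 by decide),
          if_neg (show ¬ (2 : Fin 3) = 1 by decide)]
      simp only [h4] at h3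
      simp only [WinA_b, if_neg (show ¬ (2 : Fin 3) = 0 by decide),
          if_neg (show ¬ (2 : Fin 3) = 1 by decide)] at h3
      refine h3.trans (le_of_eq ?_)
      ring
    · intro l
      have h3 := hbd (Sum.inr l) (by simp only [WinA_b]; positivity)
      simp only [WinA_b, WinA_f] at h3
      refine h3.trans (le_of_eq ?_)
      ring
  · -- positivity of the bounds
    rintro (⟨k, i, l⟩ | l)
    · simp only [WinA_b]
      split_ifs <;> positivity
    · simp only [WinA_b]
      positivity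
  · intro t w
    unfold WinA_f0
    split_ifs <;> norm_num
  · rintro (⟨k, i, l⟩ | l) t w
    · simp only [WinA_f]
      split_ifs
      · exact le_rfl
      · unfold WinA_g0
        refine sum_nonneg fun a _ => ?_
        split_ifs
        · exact WinA_lam _ _ _ _ _ _
        · exact le_rfl
      · unfold WinA_g1
        split_ifs <;> norm_num
      · unfold WinA_g2
        refine sum_nonneg fun a _ => ?_
        split_ifs
        · exact WinA_lam _ _ _ _ _ _
        · exact le_rfl
    · simp only [WinA_f, WinA_g3]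
      refine sum_nonneg fun a _ => ?_
      split_ifs
      · exact prod_nonneg fun i _ => WinA_lam _ _ _ _ _ _
      · exact le_rfl
  · -- mean of `f0`
    have h1 := all_free (A := α ^ 2) (m := m) (D := D) (n := n) (by omega : 1 ≤ d) (by omega : 1 ≤ D)
      (Nat.one_le_pow _ _ hα) Ω hΩ hl
    have h2 : ∑ t ∈ wins d n, ∑ w ∈ Ω, WinA_f0 D n α Ω t w =
        ((∑ t ∈ wins d n, #(Ω.filter fun z => ∀ i, Free D n (α ^ 2) Ω i (t i) z) : ℕ) : ℝ) := by
      push_cast
      refine sum_congr rfl fun t _ => ?_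
      rw [card_filter]
      push_cast
      exact sum_congr rfl fun w _ => rfl
    rw [h2]
    have h3 : (3 * ((#Ω : ℝ) * (m : ℝ) ^ d)) ≤
        4 * ((∑ t ∈ wins d n, #(Ω.filter fun z => ∀ i, Free D n (α ^ 2) Ω i (t i) z) : ℕ) : ℝ) := by
      exact_mod_cast h1
    have h4 : q * ((n : ℝ) ^ d * #Ω) = 3 / 4 * ((#Ω : ℝ) * (m : ℝ) ^ d) := by
      rw [hq, hm]
      push_cast
      rw [mul_pow]
      have : (8 * (d : ℝ)) ^ d ≠ 0 := by positivity
      field_simp
      rw [mul_pow, mul_pow]
    rw [h4]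
    linarith
  · -- means of the `f j`
    rintro (⟨k, i, l⟩ | l)
    · simp only [WinA_f, WinA_b]
      by_cases hil : i = l
      · simp only [if_pos hil, sum_const_zero]
        split_ifs <;> positivity
      · simp only [if_neg hil]
        by_cases hk0 : k = 0
        · simp only [if_pos hk0]
          have h1 := avg_exit (d := d) (D := D) (n := n) (by omega) (by omega) hκ hQ hn Ω hil
          have h2 : ∑ t ∈ wins d n, ∑ w ∈ Ω, WinA_g0 D n κ Ω i l t w ≤
              ∑ t ∈ wins d n, ∑ z ∈ Ω, ∑ a ∈ range D,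
                (if ExW D n κ Ω l i t κ z a then lamW D n κ Ω l i t z a else 0) := by
            refine sum_le_sum fun t _ => sum_le_sum fun w _ => sum_le_sum fun a _ => ?_
            by_cases h3 : ExW D n κ Ω l i t (t l % κ) w a
            · have h4 : ExW D n κ Ω l i t κ w a := ex_mono (Nat.mod_lt _ hκ).le h3
              rw [if_pos h3, if_pos h4]
            · rw [if_neg h3]
              split_ifs
              · exact WinA_lam _ _ _ _ _ _
              · exact le_rfl
          refine h2.trans ?_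
          have h5 : (n : ℝ) * (14 * d * (Real.log D / Q) * ((n : ℝ) ^ d * #Ω)) =
              14 * d * κ * ((n : ℝ) ^ d * (#Ω * Real.log D)) := by
            nth_rewrite 1 [hnr]
            field_simp
          rw [← h5] at h1
          exact le_of_mul_le_mul_left h1 hn0
        · simp only [if_neg hk0]
          by_cases hk1 : k = 1
          · simp only [if_pos hk1]
            have h1 := avg_big (d := d) (D := D) (n := n) (by omega) (by omega) hκ hQ hn Ω hil
            have h2 : ∑ t ∈ wins d n, ∑ w ∈ Ω, WinA_g1 D n κ Ω i l t w =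
                ∑ t ∈ wins d n, (#(Ω.filter fun z =>
                  2 * (#(cell D n Ω t z) *
                    #(fib (cell D n Ω (t0 κ l t) z) (Yd D n t i) (Yd D n t i z))) <
                  #(cell D n Ω (t0 κ l t) z) *
                    #(fib (cell D n Ω t z) (Yd D n t i) (Yd D n t i z))) : ℝ) := by
              refine sum_congr rfl fun t _ => ?_
              rw [card_filter]
              push_cast
              exact sum_congr rfl fun w _ => rfl
            rw [h2]
            have h5 : (n : ℝ) * (6 * (Real.log D / Q) * ((n : ℝ) ^ d * #Ω)) =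
                6 * κ * ((n : ℝ) ^ d * (#Ω * Real.log D)) := by
              nth_rewrite 1 [hnr]
              field_simp
            rw [← h5] at h1
            exact le_of_mul_le_mul_left h1 hn0
          · simp only [if_neg hk1]
            have h1 := avg_pair (d := d) (D := D) (n := n) (by omega) (by omega) hκ hQ hn Ω hil
            have h5 : (n : ℝ) * (14 * d * (Real.log D / n) * ((n : ℝ) ^ d * #Ω)) =
                14 * d * ((n : ℝ) ^ d * (#Ω * Real.log D)) := by
              field_simp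
            rw [← h5] at h1
            exact le_of_mul_le_mul_left h1 hn0
    · simp only [WinA_f, WinA_b]
      have h1 := avg_new (d := d) (D := D) (n := n) (by omega) (by omega) hκ hQ hn Ω l
      have h5 : (κ : ℝ) * ((n : ℝ) * (2 ^ d * (d : ℝ) ^ 2 * (Real.log D / (n * κ)) *
          ((n : ℝ) ^ d * #Ω))) = 2 ^ d * (d : ℝ) ^ 2 * ((n : ℝ) ^ d * (#Ω * Real.log D)) := by
        field_simp
      rw [← h5] at h1
      exact le_of_mul_le_mul_left (le_of_mul_le_mul_left h1 hκ0) hn0

end FHD
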