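import Pool.Agent.FHD.WinA
import Pool.Agent.FHD.SumOut

/-!
# FHD.WinB: the window theorem

For every `d` there is a constant `c`: a set `Ω` of points with `n`-digit coordinates all of whose lines are long has a
window (positions `e i`, leading digits `v i`) and probability measures `ρ i` on the digits, with atoms at most `c/α`, such that
every tuple `a` of digits in the supports occurs in the window, unless some pair `(a i, a l)`, `i < l`, is in a set `Bp i l` of
product measure at most `c log D / n`, or the tuple is in a set `Bs` of product measure at most `c log D / (n κ)`.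

PROOF.  `q = 3 / (4 (8 d)^d)`, `q0 = q/4`; `c` is a large number depending on `d` only.  Take `t`, `z` from `good_cell`, `C = cell t z`, `Y i = Yd D n t i`,
`C0 l = cell (t0 κ l t) z`, `σ l = t l % κ`.  Let `Good i` be the set of the `a < D` with `α #(fib C (Y i) a) ≤ #C`, and for all `l > i`:
`#(fib C (Y i) a) * #(C0 l) ≤ 2 * (#(fib (C0 l) (Y i) a) * #C)` and `¬ ExW l i t (σ l) z a`.
(1) MASS: the number of the `w ∈ C` with `Y i w ∉ Good i` is at most `(1 - q/4) #C`: the `w` with `#C < α #(fib C (Y i) (Y i w))` are not free in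
direction `i` (at most `(1 - q/2) #C`) or counted in `big_free` (at most `#C / α`); for each `l > i` the `w` which violate the second
condition are counted in the third statement of `good_cell` (`cell t w = C`, `cell (t0 κ l t) w = C0 l` for `w ∈ C`), and those
which satisfy it but have `ExW l i t (σ l) z (Y i w)` number at most `∑_{a, Ex} #(fib C (Y i) a) ≤ 2 #C ∑_{a, Ex} lamW l i t z a`.  All these
together are at most `q/4 #C` if `c` is large (`1/α ≤ 1/c`, `log D / Q ≤ 1/c`).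
(2) `G i = {w ∈ C | Y i w ∈ Good i}`, `#(G i) ≥ q/4 #C > 0`, `ρ i a = #(fib (G i) (Y i) a) / #(G i)` (`0` unless `a ∈ Good i`), so
`ρ i a ≤ (4/q) #(fib C (Y i) a) / #C ≤ (4/q)/α`, and for `i < l`, `a ∈ Good i`: `ρ i a ≤ (8/q) lamW l i t z a`.
(3) `Bp i l` = the `(a,b)` in `range D × range D` such that some `w ∈ C` has `Y l w = b`, `¬ ExW l i t (σ l) w a`, `ExW l i t (σ l + 1) w a`.  This
property of `w ∈ C` depends only on `Y l w` (`ex_congr` on `C0 l`: `run .. (σ l + 1)` is determined by `Y l w`, `hd_succ`), so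
`∑_{Bp} ρ i a ρ l b ≤ (8/q)(4/q) (1/#C) ∑_{w ∈ C} ∑_a [..] lamW l i t w a` (`lamW` is the same for all `w ∈ C`).
(4) `Bs` = the tuples `a` such that for some `l` some `w ∈ C` has `Y l w = a l` and `NewW l t w (a restricted to i < l)`.  Again the
property of `w` depends on `Y l w` only, and by `sum_out` (`G y b` = indicator of `∃ w ∈ C, Y l w = b ∧ NewW l t w y`) the measure is at most
`∑_l (8/q)^d (4/q) (1/#C) ∑_{w ∈ C} ∑_y [NewW l t w y] ∏ lamW` (for `ρ i (y i) > 0` one has `y i ∈ Good i`, `i < l`).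
(5) Let `a` be a tuple with `ρ i (a i) > 0`, not in the bad sets, and suppose that no `w ∈ C` has `Y i w = a i` for all `i`.  Let `l` be minimal
such that no `w ∈ C` has `Y i w = a i` for all `i ≤ l`.  There is a `w0 ∈ C` with `Y l w0 = a l` (`ρ l (a l) > 0`).  The tuple `(a i)_{i<l}` is not missing
in `C` (for `l = 0` trivial, the empty tuple; then `w0` is already a contradiction), but it is missing in
`cell (update t l (t l + 1)) w0 = {w ∈ C | Y l w = a l}` (`cls_dig`).  As `a ∉ Bs`, `NewW l t w0` fails, so `ExW l i t (σ l + 1) w0 (a i)` for some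
`i < l`; since `a i ∈ Good i`, `¬ ExW l i t (σ l) z (a i)`, hence also not at `w0` (`ex_congr`); so `(a i, a l) ∈ Bp i l`, a contradiction.
(6) For `w ∈ C` with `Y i w = a i`: `w i / D ^ (n - (t i + 1)) = hd D n (t i + 1) (w i) = hd D n (t i) (z i) * D + a i`: `e i = n - (t i + 1)`,
`v i = hd D n (t i) (z i)`.
-/

set_option autoImplicit false

namespace FHD

open Finset

/-- transfer of a mean under the digit law to a mean over the cell -/
private theorem winB_transfer {W : Type*} [DecidableEq W] {D : ℕ} (C : Finset W) (Y : W → ℕ)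
    (hY : ∀ w ∈ C, Y w < D) {K : ℝ} (ρ : ℕ → ℝ) (hρ : ∀ b, ρ b ≤ K * #(fib C Y b))
    (g : ℕ → ℝ) (hg : ∀ b, 0 ≤ g b) :
    ∑ b ∈ range D, ρ b * g b ≤ K * ∑ w ∈ C, g (Y w) := by
  have h1 : ∑ w ∈ C, g (Y w) = ∑ b ∈ range D, (#(fib C Y b) : ℝ) * g b := by
    rw [← Finset.sum_fiberwise_of_maps_to (s := C) (t := range D) (g := Y)
      (fun w hw => Finset.mem_range.2 (hY w hw)) (fun w => g (Y w))]
    refine Finset.sum_congr rfl fun b _ => ?_
    have : ∑ w ∈ C with Y w = b, g (Y w) = ∑ w ∈ C with Y w = b, g b := by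
      refine Finset.sum_congr rfl fun w hw => ?_
      rw [(Finset.mem_filter.1 hw).2]
    rw [this, Finset.sum_const, nsmul_eq_mul]
    rfl
  rw [h1, Finset.mul_sum]
  refine Finset.sum_le_sum fun b _ => ?_
  calc ρ b * g b ≤ (K * #(fib C Y b)) * g b := mul_le_mul_of_nonneg_right (hρ b) (hg b)
    _ = K * ((#(fib C Y b) : ℝ) * g b) := by ring

open Classical in
private theorem winB_core {W : Type*} [DecidableEq W] {d D : ℕ} (C : Finset W) (hC : C.Nonempty)
    (Y : Fin d → W → ℕ) (hY : ∀ i, ∀ w ∈ C, Y i w < D) {q α β2 β3 : ℝ} (hq : 0 < q) (hq8 : q ≤ 8)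
    (hα : 0 < α) (lam : Fin d → Fin d → ℕ → ℝ) (hlam : ∀ l i a, 0 ≤ lam l i a)
    (Good : Fin d → ℕ → Prop)
    (hG1 : ∀ i a, Good i a → α * #(fib C (Y i) a) ≤ #C)
    (hG2 : ∀ i l a, i < l → Good i a → (#(fib C (Y i) a) : ℝ) ≤ 2 * lam l i a * #C)
    (hG3 : ∀ i, q / 4 * #C ≤ #(C.filter fun w => Good i (Y i w)))
    (P : Fin d → Fin d → W → ℕ → Prop)
    (hP : ∀ i l a, i < l → ∀ w ∈ C, ∀ w' ∈ C, Y l w = Y l w' → P l i w a → P l i w' a)
    (N : (l : Fin d) → W → ({i : Fin d // i < l} → ℕ) → Prop)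
    (hN : ∀ l y, ∀ w ∈ C, ∀ w' ∈ C, Y l w = Y l w' → N l w y → N l w' y)
    (hβ2 : ∀ i l, i < l →
      ∑ w ∈ C, ∑ a ∈ range D, (if P l i w a then lam l i a else 0) ≤ β2 * #C)
    (hβ3 : ∀ l, ∑ w ∈ C, ∑ y ∈ Fintype.piFinset (fun _ : {i : Fin d // i < l} => range D),
        (if N l w y then ∏ i, lam l i.1 (y i) else 0) ≤ β3 * #C)
    (hlog : ∀ l, ∀ w0 ∈ C, ∀ y : {i : Fin d // i < l} → ℕ, (∀ i, Good i.1 (y i)) →
      (∃ w ∈ C, ∀ i, Y i.1 w = y i) → (∀ w ∈ C, Y l w = Y l w0 → ∃ i, Y i.1 w ≠ y i) →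
      N l w0 y ∨ ∃ i, P l i.1 w0 (y i)) :
    ∃ (ρ : Fin d → ℕ → ℝ) (Bp : Fin d → Fin d → Finset (ℕ × ℕ)) (Bs : Finset (Fin d → ℕ)),
      (∀ i a, 0 ≤ ρ i a) ∧ (∀ i, ∑ a ∈ range D, ρ i a = 1) ∧ (∀ i a, ρ i a ≤ 4 / q / α) ∧
      (∀ i l, Bp i l ⊆ range D ×ˢ range D) ∧ Bs ⊆ Fintype.piFinset (fun _ => range D) ∧
      (∀ i l, i < l → ∑ x ∈ Bp i l, ρ i x.1 * ρ l x.2 ≤ 32 / q ^ 2 * β2) ∧
      ∑ a ∈ Bs, ∏ i, ρ i (a i) ≤ d * ((8 / q) ^ d * (4 / q) * β3) ∧
      ∀ a : Fin d → ℕ, (∀ i, a i < D) → (∀ i, 0 < ρ i (a i)) → (∀ i l, i < l → (a i, a l) ∉ Bp i l) →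
        a ∉ Bs → ∃ w ∈ C, ∀ i, Y i w = a i := by
  have hC0 : (0 : ℝ) < #C := by exact_mod_cast hC.card_pos
  -- the good part and its digit law
  obtain ⟨G, hGdef⟩ : ∃ G : Fin d → Finset W, ∀ i, G i = C.filter fun w => Good i (Y i w) :=
    ⟨fun i => C.filter fun w => Good i (Y i w), fun i => rfl⟩
  have hGC : ∀ i, G i ⊆ C := fun i => by rw [hGdef]; exact Finset.filter_subset _ _
  have hGcard : ∀ i, q / 4 * #C ≤ #(G i) := fun i => by rw [hGdef]; exact hG3 i
  have hGpos : ∀ i, (0 : ℝ) < #(G i) := fun i => lt_of_lt_of_le (by positivity) (hGcard i)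
  obtain ⟨ρ, hρdef⟩ : ∃ ρ : Fin d → ℕ → ℝ, ∀ i a, ρ i a = (#(fib (G i) (Y i) a) : ℝ) / #(G i) :=
    ⟨fun i a => (#(fib (G i) (Y i) a) : ℝ) / #(G i), fun i a => rfl⟩
  have hρ0 : ∀ i a, 0 ≤ ρ i a := fun i a => by rw [hρdef]; positivity
  have hρpos : ∀ i a, 0 < ρ i a → Good i a ∧ ∃ w ∈ C, Y i w = a := by
    intro i a h
    rw [hρdef] at h
    have h1 : (0 : ℝ) < #(fib (G i) (Y i) a) := by
      by_contra h2
      have h3 : (#(fib (G i) (Y i) a) : ℝ) = 0 := le_antisymm (not_lt.1 h2) (by positivity)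
      rw [h3, zero_div] at h
      exact lt_irrefl _ h
    have h2 : 0 < #(fib (G i) (Y i) a) := by exact_mod_cast h1
    obtain ⟨w, hw⟩ := Finset.card_pos.1 h2
    rw [fib, Finset.mem_filter, hGdef, Finset.mem_filter] at hw
    obtain ⟨⟨hwC, hwG⟩, hwa⟩ := hw
    rw [hwa] at hwG
    exact ⟨hwG, w, hwC, hwa⟩
  have hρ1 : ∀ i, ∑ a ∈ range D, ρ i a = 1 := by
    intro i
    have h1 : #(G i) = ∑ a ∈ range D, #(fib (G i) (Y i) a) :=
      Finset.card_eq_sum_card_fiberwise (fun w hw => Finset.mem_coe.2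
        (Finset.mem_range.2 (hY i w (hGC i (Finset.mem_coe.1 hw)))))
    have h2 : ∑ a ∈ range D, ρ i a = (∑ a ∈ range D, (#(fib (G i) (Y i) a) : ℝ)) / #(G i) := by
      rw [Finset.sum_div]
      exact Finset.sum_congr rfl fun a _ => hρdef i a
    rw [h2, ← Nat.cast_sum, ← h1]
    exact div_self (hGpos i).ne'
  have hρK : ∀ i a, ρ i a ≤ 4 / (q * #C) * #(fib C (Y i) a) := by
    intro i a
    rw [hρdef, div_le_iff₀ (hGpos i)]
    have h1 : (#(fib (G i) (Y i) a) : ℝ) ≤ #(fib C (Y i) a) := by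
      exact_mod_cast Finset.card_le_card (Finset.filter_subset_filter _ (hGC i))
    have h2 : (1 : ℝ) ≤ 4 / (q * #C) * #(G i) := by
      rw [div_mul_eq_mul_div, le_div_iff₀ (by positivity)]
      have := hGcard i
      linarith
    calc (#(fib (G i) (Y i) a) : ℝ) ≤ #(fib C (Y i) a) := h1
      _ = #(fib C (Y i) a) * 1 := (mul_one _).symm
      _ ≤ #(fib C (Y i) a) * (4 / (q * #C) * #(G i)) := by gcongr
      _ = 4 / (q * #C) * #(fib C (Y i) a) * #(G i) := by ring
  have hρat : ∀ i a, ρ i a ≤ 4 / q / α := by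
    intro i a
    rcases (hρ0 i a).eq_or_lt with h | h
    · rw [← h]; positivity
    · have h1 := hG1 i a (hρpos i a h).1
      refine (hρK i a).trans ?_
      rw [div_mul_eq_mul_div, div_div, div_le_div_iff₀ (by positivity) (by positivity)]
      nlinarith
  have hρlam : ∀ i l a, i < l → ρ i a ≤ 8 / q * lam l i a := by
    intro i l a hil
    rcases (hρ0 i a).eq_or_lt with h | h
    · rw [← h]
      have := hlam l i a
      positivity
    · have h1 := hG2 i l a hil (hρpos i a h).1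
      refine (hρK i a).trans ?_
      calc 4 / (q * #C) * (#(fib C (Y i) a) : ℝ) ≤ 4 / (q * #C) * (2 * lam l i a * #C) := by gcongr
        _ = 8 / q * lam l i a := by field_simp; ring
  have hq1 : (1 : ℝ) ≤ 8 / q := by rw [le_div_iff₀ hq]; linarith
  have hK0 : (0 : ℝ) ≤ 4 / (q * #C) := by positivity
  have hKC : 4 / (q * #C) * #C = 4 / q := by field_simp
  obtain ⟨Bp, hBp⟩ : ∃ Bp : Fin d → Fin d → Finset (ℕ × ℕ), ∀ i l, Bp i l =
      (range D ×ˢ range D).filter fun x => ∃ w ∈ C, Y l w = x.2 ∧ P l i w x.1 :=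
    ⟨fun i l => (range D ×ˢ range D).filter fun x => ∃ w ∈ C, Y l w = x.2 ∧ P l i w x.1,
      fun _ _ => rfl⟩
  obtain ⟨Bs, hBs⟩ : ∃ Bs : Finset (Fin d → ℕ), Bs =
      (Fintype.piFinset (fun _ : Fin d => range D)).filter fun a => ∃ l, ∃ w ∈ C, Y l w = a l ∧
        N l w (fun i => a i.1) := ⟨_, rfl⟩
  refine ⟨ρ, Bp, Bs, hρ0, hρ1, hρat, fun i l => by rw [hBp]; exact Finset.filter_subset _ _,
    by rw [hBs]; exact Finset.filter_subset _ _, ?_, ?_, ?_⟩
  · -- pairs
    intro i l hil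
    have h1 : ∑ x ∈ Bp i l, ρ i x.1 * ρ l x.2 = ∑ b ∈ range D, ρ l b *
        ∑ a ∈ range D, (if ∃ w ∈ C, Y l w = b ∧ P l i w a then ρ i a else 0) := by
      rw [hBp, Finset.sum_filter, Finset.sum_product_right]
      refine Finset.sum_congr rfl fun b _ => ?_
      rw [Finset.mul_sum]
      refine Finset.sum_congr rfl fun a _ => ?_
      by_cases h : ∃ w ∈ C, Y l w = b ∧ P l i w a
      · rw [if_pos h, if_pos h]; ring
      · rw [if_neg h, if_neg h]; ring
    rw [h1]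
    refine (winB_transfer C (Y l) (hY l) (ρ l) (hρK l) _ fun b => Finset.sum_nonneg fun a _ => ?_).trans ?_
    · split_ifs
      · exact hρ0 i a
      · exact le_rfl
    have h2 : ∑ w ∈ C, ∑ a ∈ range D, (if ∃ w' ∈ C, Y l w' = Y l w ∧ P l i w' a then ρ i a else 0) ≤
        8 / q * (β2 * #C) := by
      refine le_trans ?_ (mul_le_mul_of_nonneg_left (hβ2 i l hil) (by positivity))
      rw [Finset.mul_sum]
      refine Finset.sum_le_sum fun w hw => ?_
      rw [Finset.mul_sum]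
      refine Finset.sum_le_sum fun a _ => ?_
      by_cases h : ∃ w' ∈ C, Y l w' = Y l w ∧ P l i w' a
      · obtain ⟨w', hw', h3, h4⟩ := h
        have h5 : P l i w a := hP i l a hil w' hw' w hw h3 h4
        rw [if_pos ⟨w', hw', h3, h4⟩, if_pos h5]
        exact hρlam i l a hil
      · rw [if_neg h]
        have h6 := hlam l i a
        split_ifs <;> positivity
    calc 4 / (q * #C) * ∑ w ∈ C, ∑ a ∈ range D,
          (if ∃ w' ∈ C, Y l w' = Y l w ∧ P l i w' a then ρ i a else 0)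
        ≤ 4 / (q * #C) * (8 / q * (β2 * #C)) := mul_le_mul_of_nonneg_left h2 hK0
      _ = 32 / q ^ 2 * β2 := by field_simp; ring
  · -- tuples
    have h1 : ∑ a ∈ Bs, ∏ i, ρ i (a i) ≤ ∑ l : Fin d, ∑ a ∈ Fintype.piFinset (fun _ : Fin d => range D),
        (∏ i, ρ i (a i)) * (fun (y : {i : Fin d // i < l} → ℕ) (b : ℕ) =>
          if ∃ w ∈ C, Y l w = b ∧ N l w y then (1 : ℝ) else 0) (fun i => a i.1) (a l) := by
      rw [hBs, Finset.sum_filter, Finset.sum_comm]
      refine Finset.sum_le_sum fun a _ => ?_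
      have hp : 0 ≤ ∏ i, ρ i (a i) := Finset.prod_nonneg fun i _ => hρ0 i _
      have hnn : ∀ l ∈ (Finset.univ : Finset (Fin d)), 0 ≤ (∏ i, ρ i (a i)) *
          (if ∃ w ∈ C, Y l w = a l ∧ N l w (fun i => a i.1) then (1 : ℝ) else 0) := by
        intro l _
        split_ifs <;> simp [hp]
      split_ifs with h
      · obtain ⟨l, h2⟩ := h
        refine le_trans ?_ (Finset.single_le_sum hnn (Finset.mem_univ l))
        rw [if_pos h2, mul_one]
      · exact Finset.sum_nonneg hnn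
    refine h1.trans ?_
    have h2 : ∀ l : Fin d, ∑ a ∈ Fintype.piFinset (fun _ : Fin d => range D),
        (∏ i, ρ i (a i)) * (fun (y : {i : Fin d // i < l} → ℕ) (b : ℕ) =>
          if ∃ w ∈ C, Y l w = b ∧ N l w y then (1 : ℝ) else 0) (fun i => a i.1) (a l) ≤
        (8 / q) ^ d * (4 / q) * β3 := by
      intro l
      rw [sum_out l ρ hρ1 (fun (y : {i : Fin d // i < l} → ℕ) (b : ℕ) =>
          if ∃ w ∈ C, Y l w = b ∧ N l w y then (1 : ℝ) else 0), Finset.sum_comm]
      have h3 : ∑ b ∈ range D, ∑ y ∈ Fintype.piFinset (fun _ : {i : Fin d // i < l} => range D),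
          (∏ i, ρ i.1 (y i)) * ρ l b * (if ∃ w ∈ C, Y l w = b ∧ N l w y then (1 : ℝ) else 0) =
          ∑ b ∈ range D, ρ l b * ∑ y ∈ Fintype.piFinset (fun _ : {i : Fin d // i < l} => range D),
            (if ∃ w ∈ C, Y l w = b ∧ N l w y then (∏ i, ρ i.1 (y i)) else 0) := by
        refine Finset.sum_congr rfl fun b _ => ?_
        rw [Finset.mul_sum]
        refine Finset.sum_congr rfl fun y _ => ?_
        split_ifs <;> ring
      rw [h3]
      refine (winB_transfer C (Y l) (hY l) (ρ l) (hρK l) _ fun b =>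
        Finset.sum_nonneg fun y _ => ?_).trans ?_
      · split_ifs
        · exact Finset.prod_nonneg fun i _ => hρ0 i.1 _
        · exact le_rfl
      have h4 : ∑ w ∈ C, ∑ y ∈ Fintype.piFinset (fun _ : {i : Fin d // i < l} => range D),
          (if ∃ w' ∈ C, Y l w' = Y l w ∧ N l w' y then (∏ i, ρ i.1 (y i)) else 0) ≤
          (8 / q) ^ d * (β3 * #C) := by
        refine le_trans ?_ (mul_le_mul_of_nonneg_left (hβ3 l) (by positivity))
        rw [Finset.mul_sum]
        refine Finset.sum_le_sum fun w hw => ?_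
        rw [Finset.mul_sum]
        refine Finset.sum_le_sum fun y _ => ?_
        have h6 : 0 ≤ ∏ i : {i : Fin d // i < l}, lam l i.1 (y i) :=
          Finset.prod_nonneg fun i _ => hlam l i.1 _
        by_cases h : ∃ w' ∈ C, Y l w' = Y l w ∧ N l w' y
        · obtain ⟨w', hw', h3, h4⟩ := h
          have h5 : N l w y := hN l y w' hw' w hw h3 h4
          rw [if_pos ⟨w', hw', h3, h4⟩, if_pos h5]
          calc ∏ i : {i : Fin d // i < l}, ρ i.1 (y i)
              ≤ ∏ i : {i : Fin d // i < l}, (8 / q * lam l i.1 (y i)) :=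
                Finset.prod_le_prod (fun i _ => hρ0 _ _) (fun i _ => hρlam i.1 l _ i.2)
            _ = (8 / q) ^ (Fintype.card {i : Fin d // i < l}) *
                ∏ i : {i : Fin d // i < l}, lam l i.1 (y i) := by
                rw [Finset.prod_mul_distrib, Finset.prod_const, Finset.card_univ]
            _ ≤ (8 / q) ^ d * ∏ i : {i : Fin d // i < l}, lam l i.1 (y i) := by
                refine mul_le_mul_of_nonneg_right (pow_le_pow_right₀ hq1 ?_) h6
                simpa using Fintype.card_subtype_le (fun i : Fin d => i < l)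
        · rw [if_neg h]
          split_ifs <;> positivity
      calc 4 / (q * #C) * ∑ w ∈ C, ∑ y ∈ Fintype.piFinset (fun _ : {i : Fin d // i < l} => range D),
            (if ∃ w' ∈ C, Y l w' = Y l w ∧ N l w' y then (∏ i, ρ i.1 (y i)) else 0)
          ≤ 4 / (q * #C) * ((8 / q) ^ d * (β3 * #C)) := mul_le_mul_of_nonneg_left h4 hK0
        _ = (8 / q) ^ d * β3 * (4 / (q * #C) * #C) := by ring
        _ = (8 / q) ^ d * (4 / q) * β3 := by rw [hKC]; ring
    calc _ ≤ ∑ l : Fin d, (8 / q) ^ d * (4 / q) * β3 := Finset.sum_le_sum fun l _ => h2 l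
      _ = d * ((8 / q) ^ d * (4 / q) * β3) := by
        rw [Finset.sum_const, Finset.card_univ, Fintype.card_fin, nsmul_eq_mul]
  · -- all other tuples occur
    intro a haD hapos haBp haBs
    have key : ∀ m : ℕ, m ≤ d → ∃ w ∈ C, ∀ i : Fin d, i.val < m → Y i w = a i := by
      intro m
      induction m with
      | zero =>
        intro _
        obtain ⟨w, hw⟩ := hC
        exact ⟨w, hw, fun i hi => absurd hi (Nat.not_lt_zero _)⟩
      | succ m ih =>
        intro hm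
        obtain ⟨w, hw, hwa⟩ := ih (by omega)
        by_contra hno
        obtain ⟨l, hl⟩ : ∃ l : Fin d, l.val = m := ⟨⟨m, by omega⟩, rfl⟩
        obtain ⟨-, w0, hw0, hw0a⟩ := hρpos l (a l) (hapos l)
        have h1 := hlog l w0 hw0 (fun i => a i.1) (fun i => (hρpos i.1 _ (hapos i.1)).1)
          ⟨w, hw, fun i => hwa i.1 (by have := i.2; rw [Fin.lt_def] at this; omega)⟩ (by
            intro w' hw' hw'0
            by_contra h2
            push Not at h2
            refine hno ⟨w', hw', fun i hi => ?_⟩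
            rcases Nat.lt_succ_iff_lt_or_eq.1 hi with h3 | h3
            · exact h2 ⟨i, by rw [Fin.lt_def]; omega⟩
            · have h4 : i = l := Fin.ext (by omega)
              rw [h4, hw'0, hw0a])
        rcases h1 with h1 | ⟨i, h1⟩
        · refine haBs ?_
          rw [hBs, Finset.mem_filter, Fintype.mem_piFinset]
          exact ⟨fun i => Finset.mem_range.2 (haD i), l, w0, hw0, hw0a, h1⟩
        · refine haBp i.1 l i.2 ?_
          rw [hBp, Finset.mem_filter, Finset.mem_product]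
          exact ⟨⟨Finset.mem_range.2 (haD _), Finset.mem_range.2 (haD _)⟩, w0, hw0, hw0a, h1⟩
    obtain ⟨w, hw, hwa⟩ := key d le_rfl
    exact ⟨w, hw, fun i => hwa i i.2⟩

variable {d D n : ℕ} {Ω : Finset (Fin d → ℕ)}

private theorem winB_t0_le {κ : ℕ} (l : Fin d) (t : Fin d → ℕ) (i : Fin d) : t0 κ l t i ≤ t i := by
  unfold t0
  rcases eq_or_ne i l with h | h
  · rw [h, Function.update_self]
    exact Nat.mul_div_le _ _
  · rw [Function.update_of_ne h]

private theorem winB_C0 {κ : ℕ} (l : Fin d) {t z w : Fin d → ℕ} (hw : w ∈ cell D n Ω t z) :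
    w ∈ cell D n Ω (t0 κ l t) z :=
  cell_mono (winB_t0_le l t) z hw

private theorem winB_C0_eq {κ : ℕ} (l : Fin d) {t z w : Fin d → ℕ} (hw : w ∈ cell D n Ω t z) :
    cell D n Ω (t0 κ l t) w = cell D n Ω (t0 κ l t) z :=
  cell_congr (winB_C0 l hw)

private theorem winB_lam {κ : ℕ} (l i : Fin d) {t z w : Fin d → ℕ} (hw : w ∈ cell D n Ω t z) (a : ℕ) :
    lamW D n κ Ω l i t w a = lamW D n κ Ω l i t z a := by
  unfold lamW
  rw [winB_C0_eq l hw]

private theorem winB_ex {κ : ℕ} (l i : Fin d) {t z w w' : Fin d → ℕ} (hw : w ∈ cell D n Ω t z)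
    (hw' : w' ∈ cell D n Ω t z) {τ : ℕ} (h : run D n κ l t τ w = run D n κ l t τ w') {a : ℕ}
    (hE : ExW D n κ Ω l i t τ w a) : ExW D n κ Ω l i t τ w' a := by
  unfold ExW at *
  rw [winB_C0_eq l hw] at hE
  rw [winB_C0_eq l hw']
  refine ex_congr (fun τ x _ y _ hxy => ?_) (winB_C0 l hw) (winB_C0 l hw') h hE
  unfold run at *
  exact hd_hd (by omega) hxy

private theorem winB_run0 {κ : ℕ} (l : Fin d) {t z w w' : Fin d → ℕ} (hw : w ∈ cell D n Ω t z)
    (hw' : w' ∈ cell D n Ω t z) : run D n κ l t (t l % κ) w = run D n κ l t (t l % κ) w' := by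
  unfold run
  rw [Nat.div_add_mod]
  have h1 := (Finset.mem_filter.1 hw).2 l
  have h2 := (Finset.mem_filter.1 hw').2 l
  rw [h1, h2]

private theorem winB_hd1 {l : Fin d} {t z w w' : Fin d → ℕ} (ht : t l < n) (hw : w ∈ cell D n Ω t z)
    (hw' : w' ∈ cell D n Ω t z) (hY : Yd D n t l w = Yd D n t l w') :
    hd D n (t l + 1) (w l) = hd D n (t l + 1) (w' l) := by
  have h1 := (Finset.mem_filter.1 hw).2 l
  have h2 := (Finset.mem_filter.1 hw').2 l
  unfold Yd at hY
  rw [hd_succ ht, hd_succ ht, h1, h2, hY]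

private theorem winB_run1 {κ : ℕ} {l : Fin d} {t z w w' : Fin d → ℕ} (ht : t l < n)
    (hw : w ∈ cell D n Ω t z) (hw' : w' ∈ cell D n Ω t z) (hY : Yd D n t l w = Yd D n t l w') :
    run D n κ l t (t l % κ + 1) w = run D n κ l t (t l % κ + 1) w' := by
  unfold run
  rw [← add_assoc, Nat.div_add_mod]
  exact winB_hd1 ht hw hw' hY

private theorem winB_upd {l : Fin d} {t z w w' : Fin d → ℕ} (ht : t l < n)
    (hw : w ∈ cell D n Ω t z) (hw' : w' ∈ cell D n Ω t z) (hY : Yd D n t l w = Yd D n t l w') :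
    cell D n Ω (Function.update t l (t l + 1)) w = cell D n Ω (Function.update t l (t l + 1)) w' := by
  rw [← cls_dig ht rfl z w hw, ← cls_dig ht rfl z w' hw']
  unfold cls
  rw [hY]

/-- `NewW` depends on the digit of coordinate `l` only -/
private theorem winB_new {κ : ℕ} {l : Fin d} {t z w w' : Fin d → ℕ} (ht : t l < n)
    (hw : w ∈ cell D n Ω t z) (hw' : w' ∈ cell D n Ω t z) (hY : Yd D n t l w = Yd D n t l w')
    {y : {i : Fin d // i < l} → ℕ} (hN : NewW D n κ Ω l t w y) : NewW D n κ Ω l t w' y := by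
  obtain ⟨h1, h2, h3⟩ := hN
  refine ⟨?_, ?_, fun i hE => h3 i ?_⟩
  · rw [← winB_upd ht hw hw' hY]; exact h1
  · rw [cell_congr hw']; rw [cell_congr hw] at h2; exact h2
  · exact winB_ex l i.1 hw' hw (winB_run1 ht hw hw' hY).symm hE

open Classical in
/-- the mass of the good digits -/
private theorem winB_mass {κ Q α : ℕ} {t z : Fin d → ℕ} {q c : ℝ} (hq : 0 < q) (hα : 1 ≤ α) (hQ : 1 ≤ Q)
    (hD : 2 ≤ D) (ht : ∀ i, t i < n) (hz : z ∈ Ω)
    (hcα : c ≤ α) (hcQ : c * Real.log D ≤ Q) (hc0 : 0 < c)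
    (hc : 4 / q * (1 + 48 * (d : ℝ) ^ 3 / q + 224 * (d : ℝ) ^ 4 / q) ≤ c)
    (h0 : q / 2 * #(cell D n Ω t z) ≤
        #((cell D n Ω t z).filter fun w => ∀ i, Free D n (α ^ 2) Ω i (t i) w))
    (h1 : ∀ i l, i ≠ l → q * ∑ a ∈ range D,
        (if ExW D n κ Ω l i t (t l % κ) z a then lamW D n κ Ω l i t z a else 0) ≤
          112 * (d : ℝ) ^ 3 * (Real.log D / Q))
    (h2 : ∀ i l, i ≠ l → q * (#((cell D n Ω t z).filter fun w =>
        2 * (#(cell D n Ω t w) * #(fib (cell D n Ω (t0 κ l t) w) (Yd D n t i) (Yd D n t i w))) <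
          #(cell D n Ω (t0 κ l t) w) * #(fib (cell D n Ω t w) (Yd D n t i) (Yd D n t i w))) : ℝ) ≤
          48 * (d : ℝ) ^ 2 * (Real.log D / Q) * #(cell D n Ω t z))
    (Good : Fin d → ℕ → Prop)
    (hGood : ∀ i a, Good i a ↔ α * #(fib (cell D n Ω t z) (Yd D n t i) a) ≤ #(cell D n Ω t z) ∧
      ∀ l, i < l → #(fib (cell D n Ω t z) (Yd D n t i) a) * #(cell D n Ω (t0 κ l t) z) ≤
        2 * (#(fib (cell D n Ω (t0 κ l t) z) (Yd D n t i) a) * #(cell D n Ω t z)) ∧
        ¬ ExW D n κ Ω l i t (t l % κ) z a) (i : Fin d) :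
    q / 4 * #(cell D n Ω t z) ≤ #((cell D n Ω t z).filter fun w => Good i (Yd D n t i w)) := by
  obtain ⟨C, hCdef⟩ : ∃ C, C = cell D n Ω t z := ⟨_, rfl⟩
  obtain ⟨A2, hA2⟩ : ∃ A2 : Finset (Fin d → ℕ), A2 = C.filter fun w =>
        #C < α * #(fib C (Yd D n t i) (Yd D n t i w)) ∧
          Free D n (α ^ 2) Ω i (t i) w := ⟨_, rfl⟩
  obtain ⟨A3, hA3⟩ : ∃ A3 : Fin d → Finset (Fin d → ℕ), ∀ l, A3 l = C.filter fun w =>
        2 * (#(cell D n Ω t w) * #(fib (cell D n Ω (t0 κ l t) w) (Yd D n t i) (Yd D n t i w))) <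
          #(cell D n Ω (t0 κ l t) w) * #(fib (cell D n Ω t w) (Yd D n t i) (Yd D n t i w)) :=
    ⟨fun l => _, fun l => rfl⟩
  obtain ⟨A4, hA4⟩ : ∃ A4 : Fin d → Finset (Fin d → ℕ), ∀ l, A4 l = C.filter fun w =>
        #(fib C (Yd D n t i) (Yd D n t i w)) * #(cell D n Ω (t0 κ l t) z) ≤
          2 * (#(fib (cell D n Ω (t0 κ l t) z) (Yd D n t i) (Yd D n t i w)) * #C) ∧
        ExW D n κ Ω l i t (t l % κ) z (Yd D n t i w) := ⟨fun l => _, fun l => rfl⟩
  have hC0 : (0 : ℝ) < #C := by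
    rw [hCdef]; exact_mod_cast Finset.card_pos.2 ⟨z, mem_cell_self hz⟩
  have hlog : 0 < Real.log D := Real.log_pos (by exact_mod_cast hD)
  have hQ0 : (0 : ℝ) < Q := by exact_mod_cast hQ
  have hα0 : (0 : ℝ) < α := by exact_mod_cast hα
  -- cover
  have hcov : (C.filter fun w => ∀ i, Free D n (α ^ 2) Ω i (t i) w) ⊆
      ((C.filter fun w => Good i (Yd D n t i w)) ∪ A2) ∪
        ((Finset.univ.filter fun l => i < l).biUnion A3 ∪ (Finset.univ.filter fun l => i < l).biUnion A4) := by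
    intro w hw
    rw [Finset.mem_filter] at hw
    obtain ⟨hwC, hwF⟩ := hw
    by_contra hno
    simp only [Finset.mem_union, not_or, Finset.mem_biUnion, Finset.mem_filter, Finset.mem_univ,
      true_and, not_exists, not_and] at hno
    obtain ⟨⟨hn1, hn2⟩, hn3, hn4⟩ := hno
    refine hn1 hwC ((hGood i _).2 ⟨?_, fun l hl => ?_⟩)
    · by_contra h
      refine hn2 ?_
      rw [hA2, Finset.mem_filter]
      rw [← hCdef] at h
      exact ⟨hwC, not_le.1 h, hwF i⟩
    · have hwc : w ∈ cell D n Ω t z := by rw [← hCdef]; exact hwC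
      have h5 : #(fib (cell D n Ω t z) (Yd D n t i) (Yd D n t i w)) * #(cell D n Ω (t0 κ l t) z) ≤
        2 * (#(fib (cell D n Ω (t0 κ l t) z) (Yd D n t i) (Yd D n t i w)) * #(cell D n Ω t z)) := by
        have h6 := hn3 l hl
        rw [hA3, Finset.mem_filter, not_and, not_lt, winB_C0_eq l hwc, cell_congr hwc] at h6
        have h7 := h6 hwC
        calc _ = #(cell D n Ω (t0 κ l t) z) * #(fib (cell D n Ω t z) (Yd D n t i) (Yd D n t i w)) :=
              mul_comm _ _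
          _ ≤ _ := h7
          _ = _ := by ring
      refine ⟨h5, fun hE => hn4 l hl ?_⟩
      rw [hA4, Finset.mem_filter, hCdef]
      exact ⟨hwc, h5, hE⟩
  have hcard : (#(C.filter fun w => ∀ i, Free D n (α ^ 2) Ω i (t i) w) : ℝ) ≤
      (#(C.filter fun w => Good i (Yd D n t i w)) + #A2) +
        (∑ l ∈ Finset.univ.filter (fun l => i < l), (#(A3 l) : ℝ) +
          ∑ l ∈ Finset.univ.filter (fun l => i < l), (#(A4 l) : ℝ)) := by
    have h3 := (Finset.card_le_card hcov).trans (Finset.card_union_le _ _)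
    have h4 := Finset.card_union_le (C.filter fun w => Good i (Yd D n t i w)) A2
    have h5 := Finset.card_union_le ((Finset.univ.filter fun l => i < l).biUnion A3)
      ((Finset.univ.filter fun l => i < l).biUnion A4)
    have h6 : #((Finset.univ.filter fun l => i < l).biUnion A3) ≤ _ := Finset.card_biUnion_le
    have h7 : #((Finset.univ.filter fun l => i < l).biUnion A4) ≤ _ := Finset.card_biUnion_le
    have h8 : #(C.filter fun w => ∀ i, Free D n (α ^ 2) Ω i (t i) w) ≤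
      (#(C.filter fun w => Good i (Yd D n t i w)) + #A2) +
        (∑ l ∈ Finset.univ.filter (fun l => i < l), #(A3 l) +
          ∑ l ∈ Finset.univ.filter (fun l => i < l), #(A4 l)) := by
      omega
    exact_mod_cast h8
  have hb2 : α * (#A2 : ℝ) ≤ #C := by
    have h3 := big_free (D := D) (α := α) Ω t z i (ht i)
    rw [← hCdef, ← hA2] at h3
    exact_mod_cast h3
  have hL : Real.log D / Q ≤ 1 / c := by
    rw [div_le_div_iff₀ hQ0 hc0]; linarith
  have hb3 : ∀ l ∈ Finset.univ.filter (fun l => i < l), (#(A3 l) : ℝ) ≤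
      48 * (d : ℝ) ^ 2 / q * (1 / c) * #C := by
    intro l hl
    have hil : i < l := (Finset.mem_filter.1 hl).2
    have h3 := h2 i l hil.ne
    rw [← hCdef, ← hA3] at h3
    have h4 : 48 * (d : ℝ) ^ 2 * (Real.log D / Q) * #C ≤ 48 * (d : ℝ) ^ 2 * (1 / c) * #C := by gcongr
    have h5 : (#(A3 l) : ℝ) ≤ 48 * (d : ℝ) ^ 2 * (1 / c) * #C / q := by
      rw [le_div_iff₀ hq]; linarith
    refine h5.trans (le_of_eq ?_)
    ring
  have hb4 : ∀ l ∈ Finset.univ.filter (fun l => i < l), (#(A4 l) : ℝ) ≤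
      224 * (d : ℝ) ^ 3 / q * (1 / c) * #C := by
    intro l hl
    have hil : i < l := (Finset.mem_filter.1 hl).2
    have h3 := h1 i l hil.ne
    have hC00 : (0 : ℝ) < #(cell D n Ω (t0 κ l t) z) := by
      exact_mod_cast Finset.card_pos.2 ⟨z, mem_cell_self hz⟩
    have h4 : (#(A4 l) : ℝ) ≤ ∑ a ∈ range D,
        (if ExW D n κ Ω l i t (t l % κ) z a then 2 * lamW D n κ Ω l i t z a * #C else 0) := by
      have h5 : #(A4 l) = ∑ a ∈ range D, #((A4 l).filter fun w => Yd D n t i w = a) :=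
        Finset.card_eq_sum_card_fiberwise (fun w _ => Finset.mem_coe.2
          (Finset.mem_range.2 (dig_lt (by omega) _ _)))
      rw [h5, Nat.cast_sum]
      refine Finset.sum_le_sum fun a _ => ?_
      rcases Finset.eq_empty_or_nonempty ((A4 l).filter fun w => Yd D n t i w = a) with h6 | ⟨w, hw⟩
      · rw [h6, Finset.card_empty, Nat.cast_zero]
        have : 0 ≤ lamW D n κ Ω l i t z a := by unfold lamW; positivity
        split_ifs <;> positivity
      · rw [Finset.mem_filter, hA4, Finset.mem_filter] at hw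
        obtain ⟨⟨-, h7, h8⟩, h9⟩ := hw
        rw [h9] at h7 h8
        rw [if_pos h8]
        have h10 : #((A4 l).filter fun w => Yd D n t i w = a) ≤ #(fib C (Yd D n t i) a) := by
          refine Finset.card_le_card (Finset.filter_subset_filter _ ?_)
          rw [hA4]; exact Finset.filter_subset _ _
        have h11 : (#(fib C (Yd D n t i) a) : ℝ) * #(cell D n Ω (t0 κ l t) z) ≤
          2 * (#(fib (cell D n Ω (t0 κ l t) z) (Yd D n t i) a) * #C) := by exact_mod_cast h7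
        have h12 : (#(fib C (Yd D n t i) a) : ℝ) ≤ 2 * lamW D n κ Ω l i t z a * #C := by
          unfold lamW
          calc (#(fib C (Yd D n t i) a) : ℝ) ≤
              2 * (#(fib (cell D n Ω (t0 κ l t) z) (Yd D n t i) a) * #C) / #(cell D n Ω (t0 κ l t) z) := by
                rw [le_div_iff₀ hC00]; exact h11
            _ = _ := by ring
        exact le_trans (by exact_mod_cast h10) h12
    have h5 : ∑ a ∈ range D,
        (if ExW D n κ Ω l i t (t l % κ) z a then 2 * lamW D n κ Ω l i t z a * #C else 0) =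
        2 * #C * ∑ a ∈ range D,
        (if ExW D n κ Ω l i t (t l % κ) z a then lamW D n κ Ω l i t z a else 0) := by
      rw [Finset.mul_sum]
      refine Finset.sum_congr rfl fun a _ => ?_
      split_ifs <;> ring
    rw [h5] at h4
    have h6 : ∑ a ∈ range D, (if ExW D n κ Ω l i t (t l % κ) z a then lamW D n κ Ω l i t z a else 0) ≤
        112 * (d : ℝ) ^ 3 * (1 / c) / q := by
      rw [le_div_iff₀ hq]
      have h7 : 112 * (d : ℝ) ^ 3 * (Real.log D / Q) ≤ 112 * (d : ℝ) ^ 3 * (1 / c) := by gcongr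
      linarith
    calc (#(A4 l) : ℝ) ≤ 2 * #C * (112 * (d : ℝ) ^ 3 * (1 / c) / q) :=
          h4.trans (mul_le_mul_of_nonneg_left h6 (by positivity))
      _ = 224 * (d : ℝ) ^ 3 / q * (1 / c) * #C := by ring
  have hcl : (#(Finset.univ.filter (fun l => i < l)) : ℝ) ≤ d := by
    have := Finset.card_le_univ (Finset.univ.filter (fun l => i < l))
    rw [Fintype.card_fin] at this
    exact_mod_cast this
  have hs3 := Finset.sum_le_card_nsmul _ _ _ hb3
  have hs4 := Finset.sum_le_card_nsmul _ _ _ hb4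
  rw [nsmul_eq_mul] at hs3 hs4
  have hs3' : (#(Finset.univ.filter (fun l => i < l)) : ℝ) * (48 * (d : ℝ) ^ 2 / q * (1 / c) * #C) ≤
      d * (48 * (d : ℝ) ^ 2 / q * (1 / c) * #C) := by gcongr
  have hs4' : (#(Finset.univ.filter (fun l => i < l)) : ℝ) * (224 * (d : ℝ) ^ 3 / q * (1 / c) * #C) ≤
      d * (224 * (d : ℝ) ^ 3 / q * (1 / c) * #C) := by gcongr
  have hs2 : (#A2 : ℝ) ≤ 1 / c * #C := by
    have h3 : (#A2 : ℝ) ≤ #C / α := by rw [le_div_iff₀ hα0]; linarith
    have h4 : (#C : ℝ) / α ≤ #C / c := by gcongr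
    calc (#A2 : ℝ) ≤ #C / c := h3.trans h4
      _ = 1 / c * #C := by ring
  have hfin : (1 + 48 * (d : ℝ) ^ 3 / q + 224 * (d : ℝ) ^ 4 / q) * (1 / c) ≤ q / 4 := by
    rw [mul_one_div, div_le_iff₀ hc0]
    have h3 : q / 4 * (4 / q * (1 + 48 * (d : ℝ) ^ 3 / q + 224 * (d : ℝ) ^ 4 / q)) ≤ q / 4 * c := by gcongr
    have h4 : q / 4 * (4 / q * (1 + 48 * (d : ℝ) ^ 3 / q + 224 * (d : ℝ) ^ 4 / q)) =
        1 + 48 * (d : ℝ) ^ 3 / q + 224 * (d : ℝ) ^ 4 / q := by
      rw [← mul_assoc]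
      have : q / 4 * (4 / q) = 1 := by field_simp
      rw [this, one_mul]
    linarith
  have hfin2 := mul_le_mul_of_nonneg_right hfin hC0.le
  have hexp : (1 + 48 * (d : ℝ) ^ 3 / q + 224 * (d : ℝ) ^ 4 / q) * (1 / c) * #C =
      1 / c * #C + d * (48 * (d : ℝ) ^ 2 / q * (1 / c) * #C) +
        d * (224 * (d : ℝ) ^ 3 / q * (1 / c) * #C) := by ring
  rw [← hCdef] at h0 ⊢
  linarith

theorem window (d : ℕ) (hd : 2 ≤ d) : ∃ c : ℝ, 1 ≤ c ∧ ∀ (D n κ Q α m : ℕ) (Ω : Finset (Fin d → ℕ)),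
    Ω.Nonempty → 2 ≤ D → 1 ≤ α → 1 ≤ κ → 1 ≤ Q → n = κ * Q → n = 8 * d * m → c ≤ α → c * Real.log D ≤ Q →
    (∀ z ∈ Ω, ∀ i, z i < D ^ n) → (∀ z ∈ Ω, ∀ i, 4 * d * ((2 * α ^ 2) ^ n * D ^ m) ≤ #(line Ω i z)) →
    ∃ (ρ : Fin d → ℕ → ℝ) (Bp : Fin d → Fin d → Finset (ℕ × ℕ)) (Bs : Finset (Fin d → ℕ)) (e v : Fin d → ℕ),
      (∀ i a, 0 ≤ ρ i a) ∧ (∀ i, ∑ a ∈ range D, ρ i a = 1) ∧ (∀ i a, ρ i a ≤ c / α) ∧
      (∀ i l, Bp i l ⊆ range D ×ˢ range D) ∧ Bs ⊆ Fintype.piFinset (fun _ => range D) ∧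
      (∀ i l, i < l → ∑ x ∈ Bp i l, ρ i x.1 * ρ l x.2 ≤ c * Real.log D / n) ∧
      ∑ a ∈ Bs, ∏ i, ρ i (a i) ≤ c * Real.log D / (n * κ) ∧
      ∀ a : Fin d → ℕ, (∀ i, a i < D) → (∀ i, 0 < ρ i (a i)) → (∀ i l, i < l → (a i, a l) ∉ Bp i l) →
        a ∉ Bs → ∃ w ∈ Ω, ∀ i, w i / D ^ (e i) = v i * D + a i := by
  obtain ⟨q, hq⟩ : ∃ q : ℝ, q = 3 / (4 * (8 * (d : ℝ)) ^ d) := ⟨_, rfl⟩
  have hd1 : (1 : ℝ) ≤ d := by exact_mod_cast (by omega : 1 ≤ d)
  have hq0 : 0 < q := by rw [hq]; positivity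
  have hq8 : q ≤ 8 := by
    have h1 : (1 : ℝ) ≤ (8 * (d : ℝ)) ^ d := one_le_pow₀ (by linarith)
    rw [hq, div_le_iff₀ (by positivity)]
    linarith
  obtain ⟨c, hc⟩ : ∃ c : ℝ, c = 1 + 4 / q + 4 / q * (1 + 48 * (d : ℝ) ^ 3 / q + 224 * (d : ℝ) ^ 4 / q) +
      32 / q ^ 2 * (112 * (d : ℝ) ^ 3 / q) +
      d * ((8 / q) ^ d * (4 / q) * (2 ^ (d + 3) * (d : ℝ) ^ 4 / q)) := ⟨_, rfl⟩
  have p1 : 0 ≤ 4 / q := by positivity
  have p2 : 0 ≤ 4 / q * (1 + 48 * (d : ℝ) ^ 3 / q + 224 * (d : ℝ) ^ 4 / q) := by positivity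
  have p3 : 0 ≤ 32 / q ^ 2 * (112 * (d : ℝ) ^ 3 / q) := by positivity
  have p4 : 0 ≤ d * ((8 / q) ^ d * (4 / q) * (2 ^ (d + 3) * (d : ℝ) ^ 4 / q)) := by positivity
  refine ⟨c, by linarith, ?_⟩
  intro D n κ Q α m Ω hne hD hα hκ hQ hnκ hm hcα hcQ hΩ hl
  classical
  obtain ⟨t, ht, z, hz, g0, g1, g2, g3, g4⟩ := good_cell hd hD hα hκ hQ hnκ hm Ω hne hΩ hl hq
  have ht' : ∀ i, t i < n := mem_wins.1 ht
  have hc0 : 0 < c := by linarith
  have hlog : 0 < Real.log D := Real.log_pos (by exact_mod_cast hD)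
  have hn0 : (0 : ℝ) < n := by
    rw [hnκ]; push_cast
    have : (0 : ℝ) < κ := by exact_mod_cast hκ
    have : (0 : ℝ) < Q := by exact_mod_cast hQ
    positivity
  have hκ0 : (0 : ℝ) < κ := by exact_mod_cast hκ
  have hα0 : (0 : ℝ) < α := by exact_mod_cast hα
  obtain ⟨Good, hGood⟩ : ∃ Good : Fin d → ℕ → Prop, ∀ i a, Good i a ↔
      α * #(fib (cell D n Ω t z) (Yd D n t i) a) ≤ #(cell D n Ω t z) ∧
      ∀ l, i < l → #(fib (cell D n Ω t z) (Yd D n t i) a) * #(cell D n Ω (t0 κ l t) z) ≤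
        2 * (#(fib (cell D n Ω (t0 κ l t) z) (Yd D n t i) a) * #(cell D n Ω t z)) ∧
        ¬ ExW D n κ Ω l i t (t l % κ) z a := ⟨fun i a => _, fun i a => Iff.rfl⟩
  have hmass := fun i => winB_mass hq0 hα hQ hD ht' hz hcα hcQ hc0 (by linarith) g0 g1 g2 Good hGood i
  have hcore := winB_core (D := D) (cell D n Ω t z) ⟨z, mem_cell_self hz⟩ (Yd D n t)
    (fun i w _ => dig_lt (by omega) _ _) (q := q) (α := (α : ℝ))
    (β2 := 112 * (d : ℝ) ^ 3 / q * (Real.log D / n))
    (β3 := 2 ^ (d + 3) * (d : ℝ) ^ 4 / q * (Real.log D / (n * κ))) hq0 hq8 hα0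
    (fun l i a => lamW D n κ Ω l i t z a) (fun l i a => by unfold lamW; positivity) Good
    (fun i a h => by exact_mod_cast ((hGood i a).1 h).1)
    (fun i l a hil h => by
      have h1 := (((hGood i a).1 h).2 l hil).1
      have hC00 : (0 : ℝ) < #(cell D n Ω (t0 κ l t) z) := by
        exact_mod_cast Finset.card_pos.2 ⟨z, mem_cell_self hz⟩
      have h11 : (#(fib (cell D n Ω t z) (Yd D n t i) a) : ℝ) * #(cell D n Ω (t0 κ l t) z) ≤
          2 * (#(fib (cell D n Ω (t0 κ l t) z) (Yd D n t i) a) * #(cell D n Ω t z)) := by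
        exact_mod_cast h1
      unfold lamW
      calc (#(fib (cell D n Ω t z) (Yd D n t i) a) : ℝ) ≤
          2 * (#(fib (cell D n Ω (t0 κ l t) z) (Yd D n t i) a) * #(cell D n Ω t z)) /
            #(cell D n Ω (t0 κ l t) z) := by
            rw [le_div_iff₀ hC00]; exact h11
        _ = _ := by ring)
    hmass
    (fun l i w a => ¬ ExW D n κ Ω l i t (t l % κ) w a ∧ ExW D n κ Ω l i t (t l % κ + 1) w a)
    (fun i l a _ w hw w' hw' hY h =>
      ⟨fun hE => h.1 (winB_ex l i hw' hw (winB_run0 l hw' hw) hE),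
        winB_ex l i hw hw' (winB_run1 (ht' l) hw hw' hY) h.2⟩)
    (fun l w y => NewW D n κ Ω l t w y)
    (fun l y w hw w' hw' hY h => winB_new (ht' l) hw hw' hY h)
    (fun i l hil => by
      have h1 := g3 i l hil.ne
      calc _ = ∑ w ∈ cell D n Ω t z, ∑ a ∈ range D,
          (if ¬ ExW D n κ Ω l i t (t l % κ) w a ∧ ExW D n κ Ω l i t (t l % κ + 1) w a then
            lamW D n κ Ω l i t w a else 0) := by
            refine Finset.sum_congr rfl fun w hw => Finset.sum_congr rfl fun a _ => ?_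
            by_cases h : ¬ ExW D n κ Ω l i t (t l % κ) w a ∧ ExW D n κ Ω l i t (t l % κ + 1) w a
            · rw [if_pos h, if_pos h, winB_lam l i hw a]
            · rw [if_neg h, if_neg h]
        _ ≤ 112 * (d : ℝ) ^ 3 * (Real.log D / n) * #(cell D n Ω t z) / q := by
            rw [le_div_iff₀ hq0]; linarith
        _ = _ := by ring)
    (fun l => by
      have h1 := g4 l
      have h2 : ∑ w ∈ cell D n Ω t z, ∑ y ∈ Fintype.piFinset (fun _ : {i : Fin d // i < l} => range D),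
          (if NewW D n κ Ω l t w y then ∏ i, lamW D n κ Ω l i.1 t w (y i) else 0) =
          ∑ w ∈ cell D n Ω t z, ∑ y ∈ Fintype.piFinset (fun _ : {i : Fin d // i < l} => range D),
          (if NewW D n κ Ω l t w y then ∏ i, lamW D n κ Ω l i.1 t z (y i) else 0) := by
        refine Finset.sum_congr rfl fun w hw => Finset.sum_congr rfl fun y _ => ?_
        have h3 : ∏ i : {i : Fin d // i < l}, lamW D n κ Ω l i.1 t w (y i) =
            ∏ i : {i : Fin d // i < l}, lamW D n κ Ω l i.1 t z (y i) :=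
          Finset.prod_congr rfl fun i _ => winB_lam l i.1 hw (y i)
        rw [h3]
      rw [h2] at h1
      calc _ ≤ 2 ^ (d + 3) * (d : ℝ) ^ 4 * (Real.log D / (n * κ)) * #(cell D n Ω t z) / q := by
            rw [le_div_iff₀ hq0]; linarith
        _ = _ := by ring)
    (fun l w0 hw0 y hGy hex hmiss => by
      by_cases hE : ∃ i : {i : Fin d // i < l}, ExW D n κ Ω l i.1 t (t l % κ + 1) w0 (y i)
      · obtain ⟨i, hE⟩ := hE
        refine Or.inr ⟨i, fun hE0 => ?_, hE⟩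
        exact (((hGood _ _).1 (hGy i)).2 l i.2).2
          (winB_ex l i.1 hw0 (mem_cell_self hz) (winB_run0 l hw0 (mem_cell_self hz)) hE0)
      · push Not at hE
        refine Or.inl ⟨fun w hw => ?_, fun hM => ?_, hE⟩
        · rw [← cls_dig (ht' l) rfl z w0 hw0, cls, Finset.mem_filter] at hw
          exact hmiss w hw.1 hw.2
        · obtain ⟨w, hw, hwy⟩ := hex
          obtain ⟨i, hi⟩ := hM w (by rw [cell_congr hw0]; exact hw)
          exact hi (hwy i))
  obtain ⟨ρ, Bp, Bs, r0, r1, r2, r3, r4, r5, r6, r7⟩ := hcore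
  refine ⟨ρ, Bp, Bs, fun i => n - (t i + 1), fun i => FHD.hd D n (t i) (z i), r0, r1, fun i a => ?_, r3, r4,
    fun i l hil => ?_, ?_, fun a haD hapos haBp haBs => ?_⟩
  · refine (r2 i a).trans ?_
    have : 4 / q ≤ c := by linarith
    gcongr
  · refine (r5 i l hil).trans ?_
    calc 32 / q ^ 2 * (112 * (d : ℝ) ^ 3 / q * (Real.log D / n)) =
        32 / q ^ 2 * (112 * (d : ℝ) ^ 3 / q) * (Real.log D / n) := by ring
      _ ≤ c * (Real.log D / n) := by
        refine mul_le_mul_of_nonneg_right (by linarith) (by positivity)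
      _ = c * Real.log D / n := by ring
  · refine r6.trans ?_
    calc d * ((8 / q) ^ d * (4 / q) * (2 ^ (d + 3) * (d : ℝ) ^ 4 / q * (Real.log D / (n * κ)))) =
        d * ((8 / q) ^ d * (4 / q) * (2 ^ (d + 3) * (d : ℝ) ^ 4 / q)) * (Real.log D / (n * κ)) := by ring
      _ ≤ c * (Real.log D / (n * κ)) := by
        refine mul_le_mul_of_nonneg_right (by linarith) (by positivity)
      _ = c * Real.log D / (n * κ) := by ring
  · obtain ⟨w, hw, hwa⟩ := r7 a haD hapos haBp haBs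
    refine ⟨w, cell_sub _ _ hw, fun i => ?_⟩
    have h1 := hd_succ (D := D) (ht' i) (w i)
    have h2 := (Finset.mem_filter.1 hw).2 i
    have h3 : dig D n (t i) (w i) = a i := hwa i
    rw [h2, h3] at h1
    exact h1

end FHD
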